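import Pool.Agent.Work.MP_14c213_gt.A.Iwa

/-!
`act` is an action of Frames 3 on UHs: act A p = cor (A * SS p), and the first column of
SS (act A p) is A applied to the first column of SS p.
act_prop: (SS p)⁻¹ * A * SS q depends on translates only up to rotations.
-/

namespace Pool.Agent.Work.MP_14c213_gt

open Matrix MeasureTheory
open scoped Matrix ContDiff Matrix.Norms.Elementwise

noncomputable section

private theorem ActM_col (X : Mat 3) (k : Matrix (Fin 3) (Fin 3) ℝ) (a : Fin 4) :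
    (X * rot k) a 0 = X a 0 := by
  rw [Matrix.mul_apply, Fin.sum_univ_succ]
  simp [rot]

theorem act_mem {A : Mat 3} (hA : A ∈ Frames 3) {p : UH} (hp : p ∈ UHs) : act A p ∈ UHs :=
  cor_mem (Frames_mul hA (SS_SO hp).1)

theorem act_one {p : UH} (hp : p ∈ UHs) : act 1 p = p := by
  unfold act
  rw [one_mul, cor_SS hp]

theorem act_mul {A B : Mat 3} (hA : A ∈ Frames 3) (hB : B ∈ Frames 3) {p : UH} (hp : p ∈ UHs) :
    act (A * B) p = act A (act B p) := by
  have _hA := hA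
  obtain ⟨k, -, hk, -⟩ := SS_cor (Frames_mul hB (SS_SO hp).1)
  unfold act
  rw [hk]
  apply cor_col
  intro a
  rw [← Matrix.mul_assoc, ← Matrix.mul_assoc, ActM_col]

theorem act_SS {A : Mat 3} (hA : A ∈ SO) {p : UH} (hp : p ∈ UHs) :
    ∃ k ∈ Matrix.orthogonalGroup (Fin 3) ℝ, k.det = 1 ∧ SS (act A p) = A * SS p * rot k := by
  obtain ⟨k, hk1, hk, hk2⟩ := SS_cor (Frames_mul hA.1 (SS_SO hp).1)
  refine ⟨k, hk1, ?_, hk⟩
  rw [hk2, Matrix.det_mul, hA.2, (SS_SO hp).2, one_mul]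

theorem act_sec {g : M2} (hg : g ∈ GLo) {p : UH} (hp : p ∈ UHs) :
    ∃ z : ℂ, z ≠ 0 ∧ ∃ u ∈ Matrix.unitaryGroup (Fin 2) ℂ,
      sec (act (Phi g) p) = z • (g * sec p * u) := by
  have hgs : g * sec p ∈ GLo := by
    show (g * sec p).det ≠ 0
    rw [Matrix.det_mul]
    exact mul_ne_zero hg (sec_mem hp)
  obtain ⟨z, hz, u, hu, h⟩ := iwasawa hgs
  refine ⟨z⁻¹, inv_ne_zero hz, star u, ?_, ?_⟩
  · exact Unitary.star_mem hu
  · have h1 : act (Phi g) p = cor (Phi (g * sec p)) := by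
      unfold act SS
      rw [Phi_mul hg (sec_mem hp)]
    rw [h1]
    have h2 : u * star u = 1 := Unitary.mul_star_self_of_mem hu
    have h3 : g * sec p * star u = z • (sec (cor (Phi (g * sec p)))) := by
      rw [h, smul_mul_assoc, Matrix.mul_assoc, h2, Matrix.mul_one, ← h]
    rw [h3, smul_smul, inv_mul_cancel₀ hz, one_smul]

private theorem ActM_eta : eta 3 = Matrix.diagonal ![-1, 1, 1, 1] := by
  unfold eta
  congr 1
  ext i
  fin_cases i <;> rfl

private theorem ActM_pos {A : Mat 3} (hA : A ∈ Frames 3) : 0 < A 0 0 - A 3 0 := by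
  have h := cor_mem hA
  have h1 : 0 < 1 / (A 0 0 - A 3 0) := h
  exact one_div_pos.mp h1

theorem act_smooth {A : Mat 3} (hA : A ∈ Frames 3) : ContDiffOn ℝ ∞ (act A) UHs := by
  have hS : ∀ a b, ContDiffOn ℝ ∞ (fun p => SS p a b) UHs := by
    intro a b
    have h1 : ContDiff ℝ ∞ (fun M : Mat 3 => M a b) := by
      have : (fun M : Mat 3 => M a b) = fun M => (Matrix.entryLinearMap ℝ ℝ a b).toContinuousLinearMap M := by
        funext M
        simp
      rw [this]
      exact ContinuousLinearMap.contDiff _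
    exact h1.comp_contDiffOn SS_smooth
  have hE : ∀ a, ContDiffOn ℝ ∞ (fun p => (A * SS p) a 0) UHs := by
    intro a
    have : (fun p => (A * SS p) a 0) = fun p => ∑ j, A a j * SS p j 0 := by
      funext p
      rw [Matrix.mul_apply]
    rw [this]
    apply ContDiffOn.sum
    intro j _
    exact contDiffOn_const.mul (hS j 0)
  have hpos : ∀ p ∈ UHs, 0 < (A * SS p) 0 0 - (A * SS p) 3 0 := fun p hp =>
    ActM_pos (Frames_mul hA (SS_SO hp).1)
  have hC : ∀ a, ContDiffOn ℝ ∞ (fun p => (((A * SS p) a 0 : ℝ) : ℂ)) UHs := fun a =>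
    Complex.ofRealCLM.contDiff.comp_contDiffOn (hE a)
  unfold act cor
  apply ContDiffOn.prodMk
  · simp_rw [div_eq_mul_inv]
    apply ContDiffOn.mul
    · exact (hC 1).sub (contDiffOn_const.mul (hC 2))
    · apply ContDiffOn.inv
      · exact (hC 0).sub (hC 3)
      intro p hp
      have := hpos p hp
      have h2 : (((A * SS p) 0 0 : ℝ) : ℂ) - (((A * SS p) 3 0 : ℝ) : ℂ)
          = (((A * SS p) 0 0 - (A * SS p) 3 0 : ℝ) : ℂ) := by push_cast; ring
      rw [h2]
      exact_mod_cast this.ne'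
  · apply ContDiffOn.div contDiffOn_const
    · exact (hE 0).sub (hE 3)
    · intro p hp
      exact (hpos p hp).ne'

theorem act_cont {A : Mat 3} (hA : A ∈ Frames 3) : ContinuousOn (act A) UHs :=
  (act_smooth hA).continuousOn

theorem act_injOn {A : Mat 3} (hA : A ∈ Frames 3) : Set.InjOn (act A) UHs := by
  intro p hp q hq h
  obtain ⟨h1, -, -, -, h2⟩ := Frames_inv hA
  have h3 : act A⁻¹ (act A p) = act A⁻¹ (act A q) := by rw [h]
  rwa [← act_mul h1 hA hp, ← act_mul h1 hA hq, h2, act_one hp, act_one hq] at h3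

/-- Properness: bounded distance from a compact set is compact. -/
theorem dist_compact {K : Set UH} (hK : IsCompact K) (hKs : K ⊆ UHs) (R : ℝ) :
    IsCompact {q | q ∈ UHs ∧ ∃ p ∈ K, ((SS p)⁻¹ * SS q) 0 0 ≤ R} := by
  rcases K.eq_empty_or_nonempty with rfl | hne
  · simp
  -- bounds on `K`
  obtain ⟨pm, hpm, hmin⟩ := hK.exists_isMinOn hne continuous_snd.continuousOn
  obtain ⟨pM, hpM, hmax⟩ := hK.exists_isMaxOn hne continuous_snd.continuousOn
  obtain ⟨pX, hpX, hX⟩ := hK.exists_isMaxOn hne (continuous_fst.norm).continuousOn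
  set t0 := pm.2 with ht0
  set t1 := pM.2 with ht1
  set X := ‖pX.1‖ with hXd
  have ht0p : 0 < t0 := hKs hpm
  have hb : ∀ p ∈ K, t0 ≤ p.2 ∧ p.2 ≤ t1 ∧ ‖p.1‖ ≤ X := fun p hp => ⟨hmin hp, hmax hp, hX hp⟩
  set R' := max R 1 with hR'
  have hR'1 : 1 ≤ R' := le_max_right _ _
  have hR'p : 0 < R' := by linarith
  set B : Set UH := Metric.closedBall (0:ℂ) (X + 2 * R' * t1) ×ˢ
    Set.Icc (t0 / (2 * R')) (2 * R' * t1) with hB
  have hBc : IsCompact B := (isCompact_closedBall _ _).prod isCompact_Icc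
  set S : Set (UH × UH) := (K ×ˢ B) ∩
    {x | ‖x.1.1 - x.2.1‖ ^ 2 + x.1.2 ^ 2 + x.2.2 ^ 2 ≤ 2 * R * (x.1.2 * x.2.2)} with hS
  have hSc : IsCompact S := by
    apply (hK.prod hBc).inter_right
    exact isClosed_le (by fun_prop) (by fun_prop)
  have heq : {q | q ∈ UHs ∧ ∃ p ∈ K, ((SS p)⁻¹ * SS q) 0 0 ≤ R} = Prod.snd '' S := by
    ext q
    constructor
    · rintro ⟨hq, p, hp, h⟩
      have hp0 : 0 < p.2 := hKs hp
      have hq0 : 0 < q.2 := hq
      have h1 := SS_dist (hKs hp) hq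
      have h2 : (‖p.1 - q.1‖ ^ 2 + p.2 ^ 2 + q.2 ^ 2) / (p.2 * q.2) ≤ 2 * R := by
        rw [← h1]; linarith
      rw [div_le_iff₀ (by positivity)] at h2
      obtain ⟨g1, g2, g3⟩ := hb p hp
      have h3 : ‖p.1 - q.1‖ ^ 2 + p.2 ^ 2 + q.2 ^ 2 ≤ 2 * R' * (p.2 * q.2) := by
        refine h2.trans ?_
        have : R ≤ R' := le_max_left _ _
        have h4 : 0 < p.2 * q.2 := by positivity
        nlinarith
      have h5 : q.2 ≤ 2 * R' * p.2 := by
        have : q.2 * q.2 ≤ (2 * R' * p.2) * q.2 := by nlinarith [sq_nonneg ‖p.1 - q.1‖, sq_nonneg p.2]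
        exact le_of_mul_le_mul_right this hq0
      have h6 : p.2 ≤ 2 * R' * q.2 := by
        have : p.2 * p.2 ≤ (2 * R' * q.2) * p.2 := by nlinarith [sq_nonneg ‖p.1 - q.1‖, sq_nonneg q.2]
        exact le_of_mul_le_mul_right this hp0
      have h7 : ‖p.1 - q.1‖ ≤ 2 * R' * t1 := by
        have e1 : ‖p.1 - q.1‖ ^ 2 ≤ 2 * R' * (p.2 * q.2) := by nlinarith [sq_nonneg p.2, sq_nonneg q.2]
        have e2 : 2 * R' * (p.2 * q.2) ≤ (2 * R' * t1) ^ 2 := by
          have : q.2 ≤ 2 * R' * t1 := h5.trans (by gcongr)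
          calc 2 * R' * (p.2 * q.2) = (2 * R' * p.2) * q.2 := by ring
            _ ≤ (2 * R' * t1) * (2 * R' * t1) := by
                apply mul_le_mul _ this hq0.le
                · have : 0 ≤ t1 := hp0.le.trans g2
                  positivity
                · gcongr
            _ = _ := by ring
        have ht1p : 0 ≤ t1 := hp0.le.trans g2
        exact (sq_le_sq₀ (norm_nonneg _) (by positivity)).mp (e1.trans e2)
      refine ⟨(p, q), ⟨⟨hp, ?_, ?_⟩, h2⟩, rfl⟩
      · rw [mem_closedBall_zero_iff]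
        calc ‖q.1‖ = ‖p.1 - (p.1 - q.1)‖ := by rw [sub_sub_cancel]
          _ ≤ ‖p.1‖ + ‖p.1 - q.1‖ := norm_sub_le _ _
          _ ≤ X + 2 * R' * t1 := by linarith
      · constructor
        · rw [div_le_iff₀ (by positivity)]
          calc t0 ≤ p.2 := g1
            _ ≤ 2 * R' * q.2 := h6
            _ = q.2 * (2 * R') := by ring
        · exact h5.trans (by gcongr)
    · rintro ⟨⟨p, q⟩, ⟨⟨hp, hqB1, hqB2⟩, h2⟩, rfl⟩
      have hp0 : 0 < p.2 := hKs hp
      have hq0 : 0 < q.2 := lt_of_lt_of_le (by positivity) hqB2.1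
      refine ⟨hq0, p, hp, ?_⟩
      have h1 := SS_dist (hKs hp) (show q ∈ UHs from hq0)
      have h3 : (‖p.1 - q.1‖ ^ 2 + p.2 ^ 2 + q.2 ^ 2) / (p.2 * q.2) ≤ 2 * R := by
        rw [div_le_iff₀ (by positivity)]
        exact h2
      rw [← h1] at h3
      linarith
  rw [heq]
  exact hSc.image continuous_snd

/-- On compact sets the frames are bounded. -/
theorem SS_bounded {K : Set UH} (hK : IsCompact K) (hKs : K ⊆ UHs) :
    ∃ M : ℝ, ∀ p ∈ K, ∀ a b, |SS p a b| ≤ M ∧ |(SS p)⁻¹ a b| ≤ M := by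
  obtain ⟨M, hM⟩ := (hK.image_of_continuousOn (SS_smooth.continuousOn.mono hKs)).isBounded.exists_norm_le
  have h1 : ∀ p ∈ K, ∀ a b, |SS p a b| ≤ M := by
    intro p hp a b
    have h2 := hM _ (Set.mem_image_of_mem _ hp)
    exact (Matrix.norm_entry_le_entrywise_sup_norm (SS p)).trans h2
  refine ⟨M, fun p hp a b => ⟨h1 p hp a b, ?_⟩⟩
  obtain ⟨-, h2, -⟩ := Frames_inv (SS_SO (hKs hp)).1
  rw [h2]
  have h3 : ((eta 3 * (SS p)ᵀ * eta 3) a b) = eta 3 a a * SS p b a * eta 3 b b := by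
    rw [ActM_eta, Matrix.mul_diagonal, Matrix.diagonal_mul]
    simp
  rw [h3, abs_mul, abs_mul]
  have h4 : ∀ a : Fin 4, |eta 3 a a| = 1 := by
    intro a
    rw [ActM_eta]
    fin_cases a <;> simp
  rw [h4, h4, one_mul, mul_one]
  exact h1 p hp b a

/-- Entries of a frame are bounded by the `(0,0)` entry. -/
theorem Frames_entry {A : Mat 3} (hA : A ∈ Frames 3) (a b : Fin 4) : |A a b| ≤ A 0 0 := by
  obtain ⟨-, h2, -, h4, h5⟩ := Frames_inv hA
  have hpos : 0 < A 0 0 := hA.2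
  have hrow : A 0 0 * A 0 0 - (A 0 1 * A 0 1 + A 0 2 * A 0 2 + A 0 3 * A 0 3) = 1 := by
    have h6 := congrFun (congrFun h4 0) 0
    rw [h2, ActM_eta, Matrix.mul_apply] at h6
    simp only [Matrix.mul_diagonal, Matrix.diagonal_mul, Matrix.transpose_apply] at h6
    rw [Fin.sum_univ_four] at h6
    simp at h6
    linarith
  have hcol : ∀ b : Fin 4, A 1 b * A 1 b + A 2 b * A 2 b + A 3 b * A 3 b
      = A 0 b * A 0 b + (if b = 0 then -1 else 1) := by
    intro b
    have h6 := congrFun (congrFun hA.1 b) b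
    rw [ActM_eta, Matrix.mul_apply] at h6
    simp only [Matrix.mul_diagonal, Matrix.transpose_apply] at h6
    rw [Fin.sum_univ_four] at h6
    fin_cases b <;> simp at h6 ⊢ <;> linarith
  have h0b : A 0 b * A 0 b ≤ A 0 0 * A 0 0 := by
    fin_cases b
    · simp
    · simp only [Fin.mk_one]
      nlinarith [mul_self_nonneg (A 0 2), mul_self_nonneg (A 0 3)]
    · simp only [Fin.reduceFinMk]
      nlinarith [mul_self_nonneg (A 0 1), mul_self_nonneg (A 0 3)]
    · simp only [Fin.reduceFinMk]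
      nlinarith [mul_self_nonneg (A 0 1), mul_self_nonneg (A 0 2)]
  have h0b' : b ≠ 0 → A 0 b * A 0 b + 1 ≤ A 0 0 * A 0 0 := by
    intro hb
    fin_cases b
    · simp at hb
    · simp only [Fin.mk_one]
      nlinarith [mul_self_nonneg (A 0 2), mul_self_nonneg (A 0 3)]
    · simp only [Fin.reduceFinMk]
      nlinarith [mul_self_nonneg (A 0 1), mul_self_nonneg (A 0 3)]
    · simp only [Fin.reduceFinMk]
      nlinarith [mul_self_nonneg (A 0 1), mul_self_nonneg (A 0 2)]
  have hab : A a b * A a b ≤ A 0 0 * A 0 0 := by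
    have h7 := hcol b
    have h8 : A 0 b * A 0 b + (if b = 0 then -1 else 1) ≤ A 0 0 * A 0 0 := by
      split_ifs with h
      · linarith
      · exact h0b' h
    fin_cases a
    · exact h0b
    · simp only [Fin.mk_one]
      nlinarith [mul_self_nonneg (A 2 b), mul_self_nonneg (A 3 b)]
    · simp only [Fin.reduceFinMk]
      nlinarith [mul_self_nonneg (A 1 b), mul_self_nonneg (A 3 b)]
    · simp only [Fin.reduceFinMk]
      nlinarith [mul_self_nonneg (A 1 b), mul_self_nonneg (A 2 b)]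
  exact abs_le_of_sq_le_sq (by nlinarith) hpos.le

end

end Pool.Agent.Work.MP_14c213_gt
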