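import Pool.Agent.Work.MP_14c213_gt.ADefs

/-!
Elementary facts on `Phi` (the Lorentz matrix of H ↦ g H gᴴ / |det g|).
Phi_mul: completeness relation X = ∑_b (tr(σ_b X)/2) σ_b for complex 2x2 matrices, hermitian H have
real coefficients; or brute force on 8 real entries. Phi g ∈ Frames: det H is the Minkowski form and
det(gHgᴴ) = |det g|² det H. det (Phi g) = 1: polynomial identity, or: Phi_mul + every g is a scalar
times a product of elementary matrices. Phi_inj: reduce by Phi_mul to Phi x = 1 → x scalar: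
x σ_b xᴴ = |det x| σ_b for all b, b = 0 gives x xᴴ = |det x|, so x commutes with all σ_b.
-/

namespace Pool.Agent.Work.MP_14c213_gt

open Matrix MeasureTheory
open scoped Matrix ContDiff Matrix.Norms.Elementwise

noncomputable section

theorem phiMul_pauli_herm (b : Fin 4) : (pauli b)ᴴ = pauli b := by
  fin_cases b <;> ext i j <;> fin_cases i <;> fin_cases j <;> simp [pauli]

/-- hermitian matrices are real combinations of the Pauli matrices -/
theorem herm_expand {X : M2} (hX : Xᴴ = X) :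
    X = ∑ a, (((2⁻¹ * (pauli a * X).trace).re : ℝ) : ℂ) • pauli a := by
  have h00 : (X 0 0).im = 0 := by
    have := congrArg Complex.im (congrFun (congrFun hX 0) 0)
    simp only [Matrix.conjTranspose_apply, Complex.star_def, Complex.conj_im] at this
    linarith
  have h11 : (X 1 1).im = 0 := by
    have := congrArg Complex.im (congrFun (congrFun hX 1) 1)
    simp only [Matrix.conjTranspose_apply, Complex.star_def, Complex.conj_im] at this
    linarith
  have h01 : X 1 0 = (starRingEnd ℂ) (X 0 1) := by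
    have := congrFun (congrFun hX 1) 0
    simp only [Matrix.conjTranspose_apply, Complex.star_def] at this
    exact this.symm
  ext i j
  fin_cases i <;> fin_cases j <;>
  simp [pauli, Fin.sum_univ_four, Matrix.trace_fin_two, Matrix.mul_apply, Fin.sum_univ_two, h01,
    Complex.ext_iff, h00, h11] <;> ring_nf <;> simp

theorem pauli_orth (a b : Fin 4) :
    ((2 : ℂ)⁻¹ * (pauli a * pauli b).trace) = if a = b then 1 else 0 := by
  fin_cases a <;> fin_cases b <;>
  simp [pauli, Matrix.trace_fin_two, Matrix.mul_apply, Fin.sum_univ_two] <;> norm_num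

theorem Phi_core {g : M2} (hg : g ∈ GLo) (b : Fin 4) :
    g * pauli b * gᴴ = (‖g.det‖ : ℂ) • ∑ a, (Phi g a b : ℂ) • pauli a := by
  have hd : (‖g.det‖ : ℂ) ≠ 0 := by
    exact_mod_cast norm_ne_zero_iff.2 hg
  have hH : (g * pauli b * gᴴ)ᴴ = g * pauli b * gᴴ := by
    rw [Matrix.conjTranspose_mul, Matrix.conjTranspose_mul, Matrix.conjTranspose_conjTranspose,
      phiMul_pauli_herm, Matrix.mul_assoc]
  conv_lhs => rw [herm_expand hH]
  rw [Finset.smul_sum]
  refine Finset.sum_congr rfl fun a _ => ?_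
  rw [smul_smul]
  congr 1
  rw [Phi, Matrix.of_apply]
  push_cast
  rw [mul_div_cancel₀ _ hd]
  simp only [Matrix.mul_assoc]

theorem Phi_of_core {g : M2} (hg : g ∈ GLo) {A : Mat 3}
    (h : ∀ b, g * pauli b * gᴴ = (‖g.det‖ : ℂ) • ∑ a, (A a b : ℂ) • pauli a) : Phi g = A := by
  have hd : ‖g.det‖ ≠ 0 := norm_ne_zero_iff.2 hg
  ext a b
  rw [Phi, Matrix.of_apply]
  have h1 : (2 : ℂ)⁻¹ * (pauli a * g * pauli b * gᴴ).trace = (‖g.det‖ : ℂ) * (A a b : ℂ) := by
    rw [Matrix.mul_assoc (pauli a), Matrix.mul_assoc (pauli a), h b, Matrix.mul_smul,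
      Matrix.mul_sum, Matrix.trace_smul, Matrix.trace_sum, smul_eq_mul, mul_left_comm,
      Finset.mul_sum]
    congr 1
    rw [Finset.sum_eq_single a]
    · rw [Matrix.mul_smul, Matrix.trace_smul, smul_eq_mul, mul_left_comm, pauli_orth]
      simp
    · intro c _ hc
      rw [Matrix.mul_smul, Matrix.trace_smul, smul_eq_mul, mul_left_comm, pauli_orth]
      simp [Ne.symm hc]
    · simp
  rw [h1, ← Complex.ofReal_mul, Complex.ofReal_re]
  field_simp

theorem phiMul_GLo_mul {g h : M2} (hg : g ∈ GLo) (hh : h ∈ GLo) : g * h ∈ GLo := by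
  show (g * h).det ≠ 0
  rw [Matrix.det_mul]
  exact mul_ne_zero hg hh

theorem Phi_mul {g h : M2} (hg : g ∈ GLo) (hh : h ∈ GLo) : Phi (g * h) = Phi g * Phi h := by
  refine Phi_of_core (phiMul_GLo_mul hg hh) fun c => ?_
  have e1 : g * h * pauli c * (g * h)ᴴ = g * (h * pauli c * hᴴ) * gᴴ := by
    rw [Matrix.conjTranspose_mul]
    simp only [Matrix.mul_assoc]
  rw [e1, Phi_core hh c, Matrix.mul_smul, Matrix.smul_mul, Matrix.mul_sum, Matrix.sum_mul]
  have e2 : ∀ b, g * ((Phi h b c : ℂ) • pauli b) * gᴴ =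
      (‖g.det‖ : ℂ) • ∑ a, ((Phi g a b : ℂ) * (Phi h b c : ℂ)) • pauli a := by
    intro b
    rw [Matrix.mul_smul, Matrix.smul_mul, Phi_core hg b, smul_comm, Finset.smul_sum]
    congr 1
    refine Finset.sum_congr rfl fun a _ => ?_
    rw [smul_smul, mul_comm]
  simp only [e2]
  rw [← Finset.smul_sum, smul_smul, Finset.sum_comm, Matrix.det_mul, norm_mul, Complex.ofReal_mul,
    mul_comm (‖h.det‖ : ℂ)]
  congr 1
  refine Finset.sum_congr rfl fun a _ => ?_
  rw [← Finset.sum_smul, Matrix.mul_apply]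
  push_cast
  rfl

theorem Phi_smul {z : ℂ} (hz : z ≠ 0) (g : M2) : Phi (z • g) = Phi g := by
  ext a b
  rw [Phi, Phi, Matrix.of_apply, Matrix.of_apply]
  have hn : (‖z‖ : ℝ) ≠ 0 := norm_ne_zero_iff.2 hz
  have h1 : (2 : ℂ)⁻¹ * (pauli a * z • g * pauli b * (z • g)ᴴ).trace =
      ((‖z‖ ^ 2 : ℝ) : ℂ) * (2⁻¹ * (pauli a * g * pauli b * gᴴ).trace) := by
    rw [Matrix.conjTranspose_smul, Matrix.mul_smul, Matrix.mul_smul, Matrix.smul_mul,
      Matrix.smul_mul, smul_smul, Matrix.trace_smul, smul_eq_mul, Complex.star_def,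
      Complex.conj_mul']
    push_cast
    ring
  rw [h1, Complex.re_ofReal_mul, Matrix.det_smul, norm_mul, norm_pow, Fintype.card_fin,
    mul_div_mul_left _ _ (pow_ne_zero 2 hn)]

theorem Phi_one : Phi 1 = 1 := by
  have h1 : (1 : M2) ∈ GLo := by
    show (1 : M2).det ≠ 0
    simp
  refine Phi_of_core h1 fun b => ?_
  rw [Finset.sum_eq_single b]
  · simp
  · intro c _ hc
    simp [Matrix.one_apply_ne hc]
  · simp

theorem Phi_zero_zero (g : M2) : Phi g 0 0 =
    (‖g 0 0‖ ^ 2 + ‖g 0 1‖ ^ 2 + ‖g 1 0‖ ^ 2 + ‖g 1 1‖ ^ 2) / (2 * ‖g.det‖) := by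
  rw [Phi, Matrix.of_apply]
  have h1 : (pauli 0 : M2) = 1 := by
    ext i j; fin_cases i <;> fin_cases j <;> simp [pauli]
  rw [h1, Matrix.one_mul, Matrix.mul_one]
  have h2 : (2⁻¹ * (g * gᴴ).trace : ℂ).re =
      (‖g 0 0‖ ^ 2 + ‖g 0 1‖ ^ 2 + ‖g 1 0‖ ^ 2 + ‖g 1 1‖ ^ 2) / 2 := by
    have h3 : (2⁻¹ * (g * gᴴ).trace : ℂ) =
        (((‖g 0 0‖ ^ 2 + ‖g 0 1‖ ^ 2 + ‖g 1 0‖ ^ 2 + ‖g 1 1‖ ^ 2) / 2 : ℝ) : ℂ) := by
      rw [Matrix.trace_fin_two, Matrix.mul_apply, Matrix.mul_apply, Fin.sum_univ_two,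
        Fin.sum_univ_two]
      simp only [Matrix.conjTranspose_apply, Complex.star_def, Complex.mul_conj,
        Complex.normSq_eq_norm_sq]
      push_cast
      ring
    rw [h3, Complex.ofReal_re]
  rw [h2]
  rw [div_div]

/-- the polarised determinant -/
private def Bf (X Y : M2) : ℂ := (X * Y.adjugate).trace

private theorem Bf_conj (g X Y : M2) :
    Bf (g * X * gᴴ) (g * Y * gᴴ) = ((‖g.det‖ ^ 2 : ℝ) : ℂ) * Bf X Y := by
  unfold Bf
  rw [Matrix.adjugate_mul_distrib, Matrix.adjugate_mul_distrib]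
  have e1 : g * X * gᴴ * ((gᴴ).adjugate * (Y.adjugate * g.adjugate)) =
      g * X * (gᴴ * (gᴴ).adjugate) * (Y.adjugate * g.adjugate) := by
    simp only [Matrix.mul_assoc]
  rw [e1, Matrix.mul_adjugate, Matrix.mul_smul, Matrix.mul_one, Matrix.smul_mul, Matrix.trace_smul]
  have e2 : (g * X * (Y.adjugate * g.adjugate)).trace = g.det * (X * Y.adjugate).trace := by
    rw [← Matrix.mul_assoc, Matrix.trace_mul_comm]
    have : g.adjugate * (g * X * Y.adjugate) = (g.adjugate * g) * (X * Y.adjugate) := by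
      simp only [Matrix.mul_assoc]
    rw [this, Matrix.adjugate_mul, Matrix.smul_mul, Matrix.one_mul, Matrix.trace_smul, smul_eq_mul]
  rw [e2, smul_eq_mul, ← mul_assoc, Matrix.det_conjTranspose]
  congr 1
  rw [Complex.star_def, mul_comm, Complex.mul_conj, Complex.normSq_eq_norm_sq]

private theorem Bf_pauli (a b : Fin 4) : Bf (pauli a) (pauli b) = -2 * ((eta 3 a b : ℝ) : ℂ) := by
  unfold Bf
  fin_cases a <;> fin_cases b <;>
  simp [pauli, eta, Matrix.trace_fin_two, Matrix.mul_apply, Fin.sum_univ_two,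
    Matrix.adjugate_fin_two, Matrix.diagonal, Fin.cons] <;>
  first | rfl | (norm_num; done) | (norm_num; rfl)

private theorem Bf_sum_left {ι' : Type*} (s : Finset ι') (c : ι' → ℂ) (X : ι' → M2) (Y : M2) :
    Bf (∑ i ∈ s, c i • X i) Y = ∑ i ∈ s, c i * Bf (X i) Y := by
  unfold Bf
  rw [Matrix.sum_mul, Matrix.trace_sum]
  refine Finset.sum_congr rfl fun i _ => ?_
  rw [Matrix.smul_mul, Matrix.trace_smul, smul_eq_mul]

private theorem Bf_symm (X Y : M2) : Bf X Y = Bf Y X := by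
  unfold Bf
  simp [Matrix.trace_fin_two, Matrix.mul_apply, Fin.sum_univ_two, Matrix.adjugate_fin_two]
  ring

private theorem Phi_eta {g : M2} (hg : g ∈ GLo) : (Phi g)ᵀ * eta 3 * Phi g = eta 3 := by
  have hd : (‖g.det‖ : ℂ) ≠ 0 := by
    exact_mod_cast norm_ne_zero_iff.2 hg
  ext b c
  have h1 := Bf_conj g (pauli b) (pauli c)
  rw [Phi_core hg b, Phi_core hg c] at h1
  have h2 : ∀ (z : ℂ) (X Y : M2), Bf (z • X) Y = z * Bf X Y := by
    intro z X Y
    unfold Bf
    rw [Matrix.smul_mul, Matrix.trace_smul, smul_eq_mul]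
  rw [h2, Bf_symm, h2, Bf_symm, ← mul_assoc, Complex.ofReal_pow, ← pow_two] at h1
  have h3 := mul_left_cancel₀ (pow_ne_zero 2 hd) h1
  rw [Bf_sum_left, Bf_pauli] at h3
  have h4 : ∀ a, Bf (pauli a) (∑ a, (Phi g a c : ℂ) • pauli a) =
      ∑ a', (Phi g a' c : ℂ) * (-2 * ((eta 3 a a' : ℝ) : ℂ)) := by
    intro a
    rw [Bf_symm, Bf_sum_left]
    refine Finset.sum_congr rfl fun a' _ => ?_
    rw [Bf_symm, Bf_pauli]
  simp only [h4] at h3
  have h5 : (-2 : ℂ) * (((Phi g)ᵀ * eta 3 * Phi g) b c : ℝ) = -2 * ((eta 3 b c : ℝ) : ℂ) := by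
    rw [← h3, Matrix.mul_assoc, Matrix.mul_apply]
    push_cast
    rw [Finset.mul_sum]
    refine Finset.sum_congr rfl fun a _ => ?_
    rw [Matrix.mul_apply, Matrix.transpose_apply]
    push_cast
    rw [Finset.mul_sum, Finset.mul_sum, Finset.mul_sum]
    refine Finset.sum_congr rfl fun a' _ => ?_
    ring
  have h6 := mul_left_cancel₀ (by norm_num) h5
  exact_mod_cast h6

private theorem eta_det : (eta 3).det = -1 := by
  rw [eta, Matrix.det_diagonal, Fin.prod_univ_succ]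
  simp

private theorem Phi_det_sq {g : M2} (hg : g ∈ GLo) : (Phi g).det * (Phi g).det = 1 := by
  have h := congrArg Matrix.det (Phi_eta hg)
  rw [Matrix.det_mul, Matrix.det_mul, Matrix.det_transpose, eta_det] at h
  linarith

/-- every invertible complex 2 by 2 matrix is a square -/
theorem exists_sq {g : M2} (hg : g ∈ GLo) : ∃ h ∈ GLo, h * h = g := by
  obtain ⟨s, hs⟩ : ∃ s : ℂ, s ^ 2 = g.det := IsAlgClosed.exists_pow_nat_eq _ (by norm_num)
  have hs0 : s ≠ 0 := by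
    rintro rfl
    apply hg
    rw [← hs]; simp
  obtain ⟨s, hs, ht⟩ : ∃ s : ℂ, s ^ 2 = g.det ∧ g.trace + 2 * s ≠ 0 := by
    by_cases h : g.trace + 2 * s = 0
    · refine ⟨-s, by rw [neg_sq, hs], fun h' => hs0 ?_⟩
      linear_combination (h - h') / 4
    · exact ⟨s, hs, h⟩
  obtain ⟨t, ht'⟩ : ∃ t : ℂ, t ^ 2 = g.trace + 2 * s :=
    IsAlgClosed.exists_pow_nat_eq _ (by norm_num)
  have ht0 : t ≠ 0 := by
    rintro rfl
    apply ht
    rw [← ht']; simp
  have hsq : (t⁻¹ • (g + s • (1 : M2))) * (t⁻¹ • (g + s • (1 : M2))) = g := by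
    rw [Matrix.smul_mul, Matrix.mul_smul, smul_smul]
    have hdet : g.det = g 0 0 * g 1 1 - g 0 1 * g 1 0 := Matrix.det_fin_two g
    have htr : g.trace = g 0 0 + g 1 1 := Matrix.trace_fin_two g
    rw [hdet] at hs
    rw [htr] at ht'
    have key : (g + s • (1 : M2)) * (g + s • (1 : M2)) = (t ^ 2) • g := by
      ext i j
      fin_cases i <;> fin_cases j <;>
      simp [Matrix.mul_apply, Fin.sum_univ_two] <;> rw [ht'] <;> first | linear_combination hs | ring
    rw [key, smul_smul]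
    have : t⁻¹ * t⁻¹ * t ^ 2 = 1 := by field_simp
    rw [this, one_smul]
  refine ⟨_, ?_, hsq⟩
  intro h0
  apply hg
  rw [← hsq, Matrix.det_mul, h0, mul_zero]

theorem Phi_SO {g : M2} (hg : g ∈ GLo) : Phi g ∈ SO := by
  refine ⟨⟨Phi_eta hg, ?_⟩, ?_⟩
  · rw [Phi_zero_zero]
    have hd : 0 < ‖g.det‖ := norm_pos_iff.2 hg
    refine div_pos ?_ (by positivity)
    by_contra hneg
    push Not at hneg
    have h00 : ‖g 0 0‖ = 0 := by nlinarith [sq_nonneg ‖g 0 0‖, sq_nonneg ‖g 0 1‖, sq_nonneg ‖g 1 0‖, sq_nonneg ‖g 1 1‖]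
    have h01 : ‖g 0 1‖ = 0 := by nlinarith [sq_nonneg ‖g 0 0‖, sq_nonneg ‖g 0 1‖, sq_nonneg ‖g 1 0‖, sq_nonneg ‖g 1 1‖]
    apply hg
    rw [Matrix.det_fin_two, norm_eq_zero.1 h00, norm_eq_zero.1 h01]
    ring
  · obtain ⟨h, hh, rfl⟩ := exists_sq hg
    rw [Phi_mul hh hh, Matrix.det_mul, Phi_det_sq hh]

theorem Phi_inj {g h : M2} (hg : g ∈ GLo) (hh : h ∈ GLo) (e : Phi g = Phi h) :
    ∃ z : ℂ, z ≠ 0 ∧ h = z • g := by
  have hu : IsUnit g.det := isUnit_iff_ne_zero.2 hg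
  have hgi : g⁻¹ ∈ GLo := by
    show (g⁻¹).det ≠ 0
    rw [Matrix.det_nonsing_inv, Ring.inverse_eq_inv']
    exact inv_ne_zero hg
  have hx : g⁻¹ * h ∈ GLo := phiMul_GLo_mul hgi hh
  set x := g⁻¹ * h with hxdef
  have hx1 : Phi x = 1 := by
    rw [hxdef, Phi_mul hgi hh, ← e, ← Phi_mul hgi hg, Matrix.nonsing_inv_mul _ hu, Phi_one]
  have hc : ∀ b, x * pauli b * xᴴ = (‖x.det‖ : ℂ) • pauli b := by
    intro b
    rw [Phi_core hx b, hx1, Finset.sum_eq_single b]
    · simp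
    · intro c _ hc
      simp [Matrix.one_apply_ne hc]
    · simp
  have hx0 : x * xᴴ = (‖x.det‖ : ℂ) • (1 : M2) := by
    have h1 : (pauli 0 : M2) = 1 := by
      ext i j; fin_cases i <;> fin_cases j <;> simp [pauli]
    have := hc 0
    rwa [h1, Matrix.mul_one] at this
  have hd : (‖x.det‖ : ℂ) ≠ 0 := by
    exact_mod_cast norm_ne_zero_iff.2 hx
  have hx0' : xᴴ * x = (‖x.det‖ : ℂ) • (1 : M2) := by
    have h2 : x * ((‖x.det‖ : ℂ)⁻¹ • xᴴ) = 1 := by
      rw [Matrix.mul_smul, hx0, smul_smul, inv_mul_cancel₀ hd, one_smul]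
    have h3 := mul_eq_one_comm.1 h2
    rw [Matrix.smul_mul] at h3
    rw [← h3, smul_smul, mul_inv_cancel₀ hd, one_smul]
  have hcomm : ∀ b, x * pauli b = pauli b * x := by
    intro b
    have h4 := congrArg (· * x) (hc b)
    simp only [Matrix.smul_mul, Matrix.mul_assoc, hx0', Matrix.mul_smul, Matrix.mul_one] at h4
    have h5 := congrArg ((‖x.det‖ : ℂ)⁻¹ • ·) h4
    simpa only [smul_smul, inv_mul_cancel₀ hd, one_smul] using h5
  have e1 := hcomm 1
  have e3 := hcomm 3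
  have f1 : x 0 1 = 0 := by
    have := congrFun (congrFun e3 0) 1
    simp [pauli, Matrix.mul_apply, Fin.sum_univ_two] at this
    linear_combination (-1/2) * this
  have f2 : x 1 0 = 0 := by
    have := congrFun (congrFun e3 1) 0
    simp [pauli, Matrix.mul_apply, Fin.sum_univ_two] at this
    linear_combination (1/2) * this
  have f3 : x 0 0 = x 1 1 := by
    have := congrFun (congrFun e1 0) 1
    simp [pauli, Matrix.mul_apply, Fin.sum_univ_two] at this
    exact this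
  have hxs : x = x 0 0 • (1 : M2) := by
    ext i j
    fin_cases i <;> fin_cases j <;> simp [f1, f2, f3]
  refine ⟨x 0 0, ?_, ?_⟩
  · intro h0
    apply hx
    rw [hxs, h0]
    simp
  · have : g * x = h := by
      rw [hxdef, ← Matrix.mul_assoc, Matrix.mul_nonsing_inv _ hu, Matrix.one_mul]
    rw [← this]
    conv_lhs => rw [hxs]
    rw [Matrix.mul_smul, Matrix.mul_one]

theorem Phi_trace (g : M2) : (Phi g).trace = ‖g.trace‖ ^ 2 / ‖g.det‖ := by
  have h1 : ∑ a, (pauli a * g * pauli a) = (2 * g.trace) • (1 : M2) := by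
    ext i j
    rw [Fin.sum_univ_four]
    simp only [Matrix.add_apply, Matrix.mul_apply, Fin.sum_univ_two, Matrix.trace_fin_two]
    fin_cases i <;> fin_cases j <;>
    simp [pauli] <;>
    ring_nf <;> (try simp only [Complex.I_sq]) <;> (try ring)
  have h2 : ∑ a, (2⁻¹ * (pauli a * g * pauli a * gᴴ).trace : ℂ) = ((‖g.trace‖ ^ 2 : ℝ) : ℂ) := by
    rw [← Finset.mul_sum, ← Matrix.trace_sum, ← Matrix.sum_mul, h1, Matrix.smul_mul,
      Matrix.one_mul, Matrix.trace_smul, smul_eq_mul, Matrix.trace_conjTranspose, Complex.star_def]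
    rw [mul_assoc, Complex.mul_conj, Complex.normSq_eq_norm_sq]
    ring
  rw [Matrix.trace]
  simp only [Matrix.diag_apply, Phi, Matrix.of_apply]
  rw [← Finset.sum_div, ← Complex.re_sum, h2, Complex.ofReal_re]

end

end Pool.Agent.Work.MP_14c213_gt
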