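import Pool.Agent.Work.MP_14c213_gt.ADefs
import Pool.Agent.Work.MP_14c213_gt.A.PhiMul

/-!
Values of `Phi` on one parameter subgroups, smoothness of `Phi`. All by direct computation.
-/

namespace Pool.Agent.Work.MP_14c213_gt

open Matrix MeasureTheory
open scoped Matrix ContDiff Matrix.Norms.Elementwise

noncomputable section

private theorem pauli_sq (b : Fin 4) : pauli b * pauli b = 1 := by
  fin_cases b <;> ext i j <;> fin_cases i <;> fin_cases j <;> simp [pauli]

theorem bst_zero (i : Fin 3) : bst i 0 = 1 := by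
  simp [bst]

theorem rt_zero (i : Fin 3) : rt i 0 = 1 := by
  simp [rt]

theorem bst_add (i : Fin 3) (s t : ℝ) : bst i (s + t) = bst i s * bst i t := by
  unfold bst
  rw [add_div, Real.cosh_add, Real.sinh_add]
  simp only [Matrix.add_mul, Matrix.mul_add, Matrix.smul_mul, Matrix.mul_smul, Matrix.one_mul,
    Matrix.mul_one, pauli_sq]
  push_cast
  module

theorem rt_add (i : Fin 3) (s t : ℝ) : rt i (s + t) = rt i s * rt i t := by
  unfold rt
  rw [add_div, Real.cos_add, Real.sin_add]
  simp only [Matrix.add_mul, Matrix.mul_add, Matrix.smul_mul, Matrix.mul_smul, Matrix.one_mul,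
    Matrix.mul_one, pauli_sq]
  push_cast
  generalize (Complex.cos (s / 2)) = c₁
  generalize (Complex.sin (s / 2)) = s₁
  generalize (Complex.cos (t / 2)) = c₂
  generalize (Complex.sin (t / 2)) = s₂
  match_scalars
  · linear_combination (-s₁ * s₂) * Complex.I_sq
  · ring

theorem bst_det (i : Fin 3) (t : ℝ) : (bst i t).det = 1 := by
  have h : (Real.cosh (t / 2) : ℂ) ^ 2 - (Real.sinh (t / 2) : ℂ) ^ 2 = 1 := by
    exact_mod_cast Real.cosh_sq_sub_sinh_sq (t / 2)
  unfold bst
  rw [Matrix.det_fin_two]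
  simp only [Matrix.add_apply, Matrix.smul_apply]
  generalize (Real.cosh (t / 2) : ℂ) = c at *
  generalize (Real.sinh (t / 2) : ℂ) = s at *
  fin_cases i
  · simp [pauli]
    linear_combination h
  · simp [pauli]
    linear_combination h + s ^ 2 * Complex.I_sq
  · simp [pauli]
    linear_combination h

theorem rt_unitary (i : Fin 3) (t : ℝ) : rt i t ∈ Matrix.unitaryGroup (Fin 2) ℂ := by
  rw [Matrix.mem_unitaryGroup_iff, Matrix.star_eq_conjTranspose]
  unfold rt
  rw [Matrix.conjTranspose_add, Matrix.conjTranspose_smul, Matrix.conjTranspose_smul,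
    Matrix.conjTranspose_one, phiMul_pauli_herm]
  simp only [Matrix.add_mul, Matrix.mul_add, Matrix.smul_mul, Matrix.mul_smul, Matrix.one_mul,
    Matrix.mul_one, pauli_sq]
  have h1 : star ((Real.cos (t / 2) : ℝ) : ℂ) = (Real.cos (t / 2) : ℂ) := Complex.conj_ofReal _
  have h2 : star (Complex.I * ((Real.sin (t / 2) : ℝ) : ℂ)) = -(Complex.I * (Real.sin (t / 2) : ℂ)) := by
    rw [star_mul', Complex.star_def, Complex.conj_I, Complex.conj_ofReal]
    ring
  have h : (Real.cos (t / 2) : ℂ) ^ 2 + (Real.sin (t / 2) : ℂ) ^ 2 = 1 := by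
    exact_mod_cast Real.cos_sq_add_sin_sq (t / 2)
  rw [h1, h2]
  generalize (Real.cos (t / 2) : ℂ) = c at *
  generalize (Real.sin (t / 2) : ℂ) = s at *
  have h3 : (1 : M2) = (c ^ 2 - (Complex.I * s) * (Complex.I * s)) • (1 : M2) := by
    have : c ^ 2 - (Complex.I * s) * (Complex.I * s) = 1 := by
      linear_combination h - s ^ 2 * Complex.I_sq
    rw [this, one_smul]
  conv_rhs => rw [h3]
  simp only [smul_smul, smul_add]
  module

theorem bst_deriv (i : Fin 3) (t : ℝ) : HasDerivAt (bst i) (bst i t * eX i) t := by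
  have h1 : HasDerivAt (fun t : ℝ => (Real.cosh (t / 2) : ℂ)) ((Real.sinh (t / 2) * (1 / 2) : ℝ) : ℂ) t :=
    (((hasDerivAt_id t).div_const 2).cosh).ofReal_comp
  have h2 : HasDerivAt (fun t : ℝ => (Real.sinh (t / 2) : ℂ)) ((Real.cosh (t / 2) * (1 / 2) : ℝ) : ℂ) t :=
    (((hasDerivAt_id t).div_const 2).sinh).ofReal_comp
  have h3 := (h1.smul_const (1 : M2)).add (h2.smul_const (pauli i.succ))
  refine h3.congr_deriv ?_
  unfold bst eX
  simp only [Matrix.add_mul, Matrix.smul_mul, Matrix.mul_smul, Matrix.one_mul, pauli_sq]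
  push_cast
  module

theorem rt_deriv (i : Fin 3) (t : ℝ) : HasDerivAt (rt i) (rt i t * rX i) t := by
  have h1 : HasDerivAt (fun t : ℝ => (Real.cos (t / 2) : ℂ)) ((-Real.sin (t / 2) * (1 / 2) : ℝ) : ℂ) t :=
    (((hasDerivAt_id t).div_const 2).cos).ofReal_comp
  have h2 : HasDerivAt (fun t : ℝ => (Real.sin (t / 2) : ℂ)) ((Real.cos (t / 2) * (1 / 2) : ℝ) : ℂ) t :=
    (((hasDerivAt_id t).div_const 2).sin).ofReal_comp
  have h3 := (h1.smul_const (1 : M2)).add ((h2.const_mul Complex.I).smul_const (pauli i.succ))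
  refine h3.congr_deriv ?_
  unfold rt rX
  simp only [Matrix.add_mul, Matrix.smul_mul, Matrix.mul_smul, Matrix.one_mul, pauli_sq]
  push_cast
  generalize (Complex.cos (t / 2)) = c
  generalize (Complex.sin (t / 2)) = s
  match_scalars
  · linear_combination (-s / 2) * Complex.I_sq
  · ring

theorem Phi_bst (i : Fin 3) (t : ℝ) : Phi (bst i t) = boost 3 i t := by
  have hd : bst i t ∈ GLo := by
    show (bst i t).det ≠ 0
    rw [bst_det]; exact one_ne_zero
  refine Phi_of_core hd fun b => ?_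
  rw [bst_det, norm_one, Complex.ofReal_one, one_smul]
  have hc : (Real.cosh t : ℂ) = (Real.cosh (t / 2) : ℂ) ^ 2 + (Real.sinh (t / 2) : ℂ) ^ 2 := by
    have := Real.cosh_two_mul (t / 2)
    rw [show 2 * (t / 2) = t by ring] at this
    exact_mod_cast this
  have hs : (Real.sinh t : ℂ) = 2 * (Real.sinh (t / 2) : ℂ) * (Real.cosh (t / 2) : ℂ) := by
    have := Real.sinh_two_mul (t / 2)
    rw [show 2 * (t / 2) = t by ring] at this
    exact_mod_cast this
  have h : (Real.cosh (t / 2) : ℂ) ^ 2 - (Real.sinh (t / 2) : ℂ) ^ 2 = 1 := by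
    exact_mod_cast Real.cosh_sq_sub_sinh_sq (t / 2)
  have hcj : (bst i t)ᴴ = bst i t := by
    unfold bst
    rw [Matrix.conjTranspose_add, Matrix.conjTranspose_smul, Matrix.conjTranspose_smul,
      Matrix.conjTranspose_one, phiMul_pauli_herm, Complex.star_def, Complex.conj_ofReal, Complex.conj_ofReal]
  rw [hcj, Fin.sum_univ_four]
  unfold bst boost
  simp only [Matrix.of_apply, apply_ite Complex.ofReal, hc, hs, Complex.ofReal_one,
    Complex.ofReal_zero]
  generalize (Real.cosh (t / 2) : ℂ) = c at *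
  generalize (Real.sinh (t / 2) : ℂ) = s at *
  have hI : Complex.I ^ 2 = -1 := Complex.I_sq
  fin_cases i <;> fin_cases b <;> ext j k <;> fin_cases j <;> fin_cases k <;>
  simp [pauli, Matrix.mul_apply, Fin.sum_univ_two] <;>
  first
    | ring1
    | linear_combination h
    | linear_combination -h
    | linear_combination h + s ^ 2 * hI
    | linear_combination -h - s ^ 2 * hI
    | linear_combination s ^ 2 * hI
    | linear_combination (-s ^ 2) * hI
    | grind

/-- the matrix of a rotation about an axis -/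
def rmatC (i : Fin 3) (C S : ℝ) : Mat 3 :=
  ![!![1, 0, 0, 0; 0, 1, 0, 0; 0, 0, C, S; 0, 0, -S, C],
    !![1, 0, 0, 0; 0, C, 0, -S; 0, 0, 1, 0; 0, S, 0, C],
    !![1, 0, 0, 0; 0, C, S, 0; 0, -S, C, 0; 0, 0, 0, 1]] i

theorem Phi_rtC (i : Fin 3) (t : ℝ) : Phi (rt i t) = rmatC i (Real.cos t) (Real.sin t) := by
  have hU := rt_unitary i t
  have hn : ‖(rt i t).det‖ = 1 := by
    rw [Matrix.mem_unitaryGroup_iff, Matrix.star_eq_conjTranspose] at hU
    have h0 := congrArg Matrix.det hU
    rw [Matrix.det_mul, Matrix.det_conjTranspose, Matrix.det_one, Complex.star_def,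
      Complex.mul_conj, Complex.normSq_eq_norm_sq] at h0
    have h1 : ‖(rt i t).det‖ ^ 2 = 1 := by exact_mod_cast h0
    nlinarith [norm_nonneg (rt i t).det]
  have hd : rt i t ∈ GLo := by
    show (rt i t).det ≠ 0
    rw [← norm_ne_zero_iff, hn]; exact one_ne_zero
  refine Phi_of_core hd fun b => ?_
  rw [hn, Complex.ofReal_one, one_smul]
  have hc : (Real.cos t : ℂ) = (Real.cos (t / 2) : ℂ) ^ 2 - (Real.sin (t / 2) : ℂ) ^ 2 := by
    have := Real.cos_two_mul' (t / 2)
    rw [show 2 * (t / 2) = t by ring] at this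
    exact_mod_cast this
  have hs : (Real.sin t : ℂ) = 2 * (Real.sin (t / 2) : ℂ) * (Real.cos (t / 2) : ℂ) := by
    have := Real.sin_two_mul (t / 2)
    rw [show 2 * (t / 2) = t by ring] at this
    exact_mod_cast this
  have h : (Real.cos (t / 2) : ℂ) ^ 2 + (Real.sin (t / 2) : ℂ) ^ 2 = 1 := by
    exact_mod_cast Real.cos_sq_add_sin_sq (t / 2)
  have h1 : star ((Real.cos (t / 2) : ℝ) : ℂ) = (Real.cos (t / 2) : ℂ) := Complex.conj_ofReal _
  have h2 : star (Complex.I * ((Real.sin (t / 2) : ℝ) : ℂ)) = -(Complex.I * (Real.sin (t / 2) : ℂ)) := by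
    rw [star_mul', Complex.star_def, Complex.conj_I, Complex.conj_ofReal]
    ring
  rw [Fin.sum_univ_four]
  unfold rt
  rw [Matrix.conjTranspose_add, Matrix.conjTranspose_smul, Matrix.conjTranspose_smul,
    Matrix.conjTranspose_one, phiMul_pauli_herm, h1, h2]
  generalize (Real.cos (t / 2) : ℂ) = c at *
  generalize (Real.sin (t / 2) : ℂ) = s at *
  have hI : Complex.I ^ 2 = -1 := Complex.I_sq
  fin_cases i <;> fin_cases b <;> ext j k <;> fin_cases j <;> fin_cases k <;>
  simp [pauli, rmatC, Matrix.mul_apply, Fin.sum_univ_two, hc, hs, ← Complex.ofReal_cos,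
    ← Complex.ofReal_sin, -Complex.ofReal_cos, -Complex.ofReal_sin] <;>
  first
    | ring1
    | linear_combination h
    | linear_combination -h
    | linear_combination h - s ^ 2 * hI
    | linear_combination -h + s ^ 2 * hI
    | linear_combination s ^ 2 * hI
    | linear_combination (-s ^ 2) * hI
    | grind

theorem Phi_bst_deriv (i : Fin 3) (t : ℝ) :
    HasDerivAt (fun t => Phi (bst i t)) (Phi (bst i t) * bY i) t := by
  simp only [Phi_bst]
  refine hasDerivAt_pi.2 fun a => hasDerivAt_pi.2 fun b => ?_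
  have h1 := Real.hasDerivAt_cosh t
  have h2 := Real.hasDerivAt_sinh t
  have h3 : ∀ c : ℝ, HasDerivAt (fun _ : ℝ => c) 0 t := fun c => hasDerivAt_const t c
  fin_cases i <;> fin_cases a <;> fin_cases b <;>
  simp [boost, bY, Matrix.mul_apply, Fin.sum_univ_four, Matrix.single] <;>
  first
    | exact h1
    | exact h2
    | exact h3 _

theorem Phi_rt_deriv (i : Fin 3) (t : ℝ) :
    HasDerivAt (fun t => Phi (rt i t)) (Phi (rt i t) * rY i) t := by
  simp only [Phi_rtC]
  refine hasDerivAt_pi.2 fun a => hasDerivAt_pi.2 fun b => ?_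
  have h1 := Real.hasDerivAt_cos t
  have h2 := Real.hasDerivAt_sin t
  have h2' := h2.neg
  have h3 : ∀ c : ℝ, HasDerivAt (fun _ : ℝ => c) 0 t := fun c => hasDerivAt_const t c
  fin_cases i <;> fin_cases a <;> fin_cases b <;>
  simp [rmatC, rY, Matrix.mul_apply, Fin.sum_univ_four, Matrix.single] <;>
  first
    | exact h1
    | exact h2
    | exact h2'
    | exact h3 _

private theorem smooth_entry (i j : Fin 2) : ContDiff ℝ ∞ (fun g : M2 => g i j) :=
  (contDiff_apply_apply ℝ ℂ i j)

private theorem smooth_det : ContDiff ℝ ∞ (fun g : M2 => g.det) := by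
  simp only [Matrix.det_fin_two]
  exact ((smooth_entry 0 0).mul (smooth_entry 1 1)).sub ((smooth_entry 0 1).mul (smooth_entry 1 0))

theorem Phi_smooth : ContDiffOn ℝ ∞ Phi GLo := by
  refine contDiffOn_pi.2 fun a => contDiffOn_pi.2 fun b => ?_
  intro g hg
  have h1 : ContDiff ℝ ∞ (fun g : M2 => (2⁻¹ * (pauli a * g * pauli b * gᴴ).trace : ℂ).re) := by
    have h2 : ∀ i j : Fin 2, ContDiff ℝ ∞ (fun g : M2 => star (g i j)) := fun i j =>
      Complex.conjCLE.contDiff.comp (smooth_entry i j)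
    have h3 : ContDiff ℝ ∞ (fun g : M2 => (2⁻¹ * (pauli a * g * pauli b * gᴴ).trace : ℂ)) := by
      simp only [Matrix.trace, Matrix.diag, Matrix.mul_apply, Matrix.conjTranspose_apply,
        Fin.sum_univ_two]
      have h0 := smooth_entry
      fun_prop
    exact Complex.reCLM.contDiff.comp h3
  refine ContDiffAt.contDiffWithinAt ?_
  refine ContDiffAt.div h1.contDiffAt ?_ (norm_ne_zero_iff.2 hg)
  exact (smooth_det.contDiffAt).norm ℝ hg

end

end Pool.Agent.Work.MP_14c213_gt
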