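import Pool.Agent.Work.MP_14c213_gt.A.PhiMul
import Pool.Agent.Work.MP_14c213_gt.A.PhiCurve

/-!
Surjectivity of `Phi` onto SO and a linear local section.
Section: for g ∈ GLo put A = Phi g; then ∑_ν A(σ_ν) σ_ν = (2 conj (tr g) / |det g|) g where
A(σ_ν) = ∑_μ A μ ν σ_μ (use ∑_ν σ_ν X σ_ν = 2 tr X). For g0 with tr g0 = 0 choose h ∈ GLo with
tr (g0 h) ≠ 0 and use s(A) = s₀(A * Phi h) * h⁻¹. Surjectivity: for A ∈ SO write the first column as
Phi(p) e_0 with p positive hermitian of determinant 1, so Phi(p)⁻¹ A = rot k, k ∈ SO(3), and use that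
SU(2) → SO(3) is onto (Rot_surj below: quaternions, or k = product of rotations about axes 3,1,3, or
the same linear section formula).
-/

namespace Pool.Agent.Work.MP_14c213_gt

open Matrix MeasureTheory
open scoped Matrix ContDiff Matrix.Norms.Elementwise

noncomputable section

theorem GLo_inv {g : M2} (hg : g ∈ GLo) : g⁻¹ ∈ GLo := by
  show (g⁻¹).det ≠ 0
  rw [Matrix.det_nonsing_inv, Ring.inverse_eq_inv']
  exact inv_ne_zero hg

private theorem pauli_sum (X : M2) : ∑ a, (pauli a * X * pauli a) = (2 * X.trace) • (1 : M2) := by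
  ext i j
  rw [Fin.sum_univ_four]
  simp only [Matrix.add_apply, Matrix.mul_apply, Fin.sum_univ_two, Matrix.trace_fin_two]
  fin_cases i <;> fin_cases j <;>
  simp [pauli] <;>
  ring_nf <;> (try simp only [Complex.I_sq]) <;> (try ring)

/-- the linear map `A ↦ ∑ A μ ν σ_μ σ_ν` -/
private def s0 : Mat 3 →ₗ[ℝ] M2 where
  toFun A := ∑ ν, (∑ μ, (A μ ν : ℂ) • pauli μ) * pauli ν
  map_add' A B := by
    rw [← Finset.sum_add_distrib]
    refine Finset.sum_congr rfl fun ν _ => ?_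
    rw [← Matrix.add_mul, ← Finset.sum_add_distrib]
    congr 1
    refine Finset.sum_congr rfl fun μ _ => ?_
    rw [← add_smul, Matrix.add_apply]
    push_cast
    rfl
  map_smul' c A := by
    rw [RingHom.id_apply, Finset.smul_sum]
    refine Finset.sum_congr rfl fun ν _ => ?_
    rw [← Matrix.smul_mul, Finset.smul_sum]
    congr 1
    refine Finset.sum_congr rfl fun μ _ => ?_
    rw [Matrix.smul_apply, smul_eq_mul, Complex.ofReal_mul, mul_smul]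
    rfl

private theorem s0_Phi {g : M2} (hg : g ∈ GLo) :
    s0 (Phi g) = ((‖g.det‖ : ℂ)⁻¹ * (2 * (gᴴ).trace)) • g := by
  have hd : (‖g.det‖ : ℂ) ≠ 0 := by
    exact_mod_cast norm_ne_zero_iff.2 hg
  have h1 : ∀ ν, (∑ μ, (Phi g μ ν : ℂ) • pauli μ) = (‖g.det‖ : ℂ)⁻¹ • (g * pauli ν * gᴴ) := by
    intro ν
    rw [Phi_core hg, smul_smul, inv_mul_cancel₀ hd, one_smul]
  show ∑ ν, (∑ μ, (Phi g μ ν : ℂ) • pauli μ) * pauli ν = _
  simp only [h1]
  have h2 : ∀ ν, (‖g.det‖ : ℂ)⁻¹ • (g * pauli ν * gᴴ) * pauli ν =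
      (‖g.det‖ : ℂ)⁻¹ • (g * (pauli ν * gᴴ * pauli ν)) := by
    intro ν
    rw [Matrix.smul_mul]
    simp only [Matrix.mul_assoc]
  simp only [h2]
  rw [← Finset.smul_sum, ← Matrix.mul_sum, pauli_sum, Matrix.mul_smul, Matrix.mul_one, smul_smul]

theorem Phi_section {g0 : M2} (h0 : g0 ∈ GLo) : ∃ s : Mat 3 →ₗ[ℝ] M2, s (Phi g0) ∈ GLo ∧
    ∀ g ∈ GLo, s (Phi g) ∈ GLo → Phi (s (Phi g)) = Phi g := by
  have hu : IsUnit g0.det := isUnit_iff_ne_zero.2 h0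
  let s : Mat 3 →ₗ[ℝ] M2 :=
    { toFun := fun A => s0 (A * Phi g0⁻¹) * g0
      map_add' := fun A B => by rw [Matrix.add_mul, map_add, Matrix.add_mul]
      map_smul' := fun c A => by rw [Matrix.smul_mul, map_smul, Matrix.smul_mul, RingHom.id_apply] }
  have hs : ∀ g ∈ GLo, s (Phi g) =
      ((‖(g * g0⁻¹).det‖ : ℂ)⁻¹ * (2 * ((g * g0⁻¹)ᴴ).trace)) • g := by
    intro g hg
    show s0 (Phi g * Phi g0⁻¹) * g0 = _
    rw [← Phi_mul hg (GLo_inv h0), s0_Phi (phiMul_GLo_mul hg (GLo_inv h0)), Matrix.smul_mul,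
      Matrix.mul_assoc, Matrix.nonsing_inv_mul _ hu, Matrix.mul_one]
  refine ⟨s, ?_, ?_⟩
  · rw [hs g0 h0, Matrix.mul_nonsing_inv _ hu]
    show (_ • g0).det ≠ 0
    rw [Matrix.det_smul]
    refine mul_ne_zero (pow_ne_zero _ ?_) h0
    simp
  · intro g hg hsg
    rw [hs g hg] at hsg ⊢
    refine Phi_smul ?_ g
    intro hc
    apply hsg
    rw [hc, zero_smul]
    simp

private def PP (A : Mat 3) : Prop := Aᵀ * eta 3 * A = eta 3 ∧ A.det = 1

private theorem PP_mul {g : M2} (hg : g ∈ GLo) {A : Mat 3} (hA : PP A) : PP (Phi g * A) := by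
  obtain ⟨⟨h1, -⟩, h2⟩ := Phi_SO hg
  refine ⟨?_, ?_⟩
  · rw [Matrix.transpose_mul]
    have : Aᵀ * (Phi g)ᵀ * eta 3 * (Phi g * A) = Aᵀ * ((Phi g)ᵀ * eta 3 * Phi g) * A := by
      simp only [Matrix.mul_assoc]
    rw [this, h1, hA.1]
  · rw [Matrix.det_mul, h2, hA.2, one_mul]

private theorem PP_entry {A : Mat 3} (hA : PP A) (b c : Fin 4) :
    -(A 0 b * A 0 c) + A 1 b * A 1 c + A 2 b * A 2 c + A 3 b * A 3 c = eta 3 b c := by
  rw [← hA.1, Matrix.mul_assoc, Matrix.mul_apply, Fin.sum_univ_four]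
  simp only [eta, Matrix.transpose_apply, Matrix.diagonal_mul]
  have e0 : (Fin.cons (-1) (fun _ => 1) : Fin 4 → ℝ) 0 = -1 := rfl
  have e1 : (Fin.cons (-1) (fun _ => 1) : Fin 4 → ℝ) 1 = 1 := rfl
  have e2 : (Fin.cons (-1) (fun _ => 1) : Fin 4 → ℝ) 2 = 1 := rfl
  have e3 : (Fin.cons (-1) (fun _ => 1) : Fin 4 → ℝ) 3 = 1 := rfl
  rw [e0, e1, e2, e3]
  ring

private theorem G_of_mul {g : M2} (hg : g ∈ GLo) {A : Mat 3}
    (h : ∃ h ∈ GLo, Phi h = Phi g * A) : ∃ h ∈ GLo, Phi h = A := by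
  obtain ⟨h, hh, e⟩ := h
  refine ⟨g⁻¹ * h, phiMul_GLo_mul (GLo_inv hg) hh, ?_⟩
  rw [Phi_mul (GLo_inv hg) hh, e, ← Matrix.mul_assoc, ← Phi_mul (GLo_inv hg) hg,
    Matrix.nonsing_inv_mul _ (isUnit_iff_ne_zero.2 hg), Phi_one, Matrix.one_mul]

private theorem plane (a b : ℝ) : ∃ t : ℝ, 0 ≤ Real.cos t * a + Real.sin t * b ∧
    -Real.sin t * a + Real.cos t * b = 0 := by
  refine ⟨Complex.arg ⟨a, b⟩, ?_⟩
  have h1 := Complex.norm_mul_cos_arg ⟨a, b⟩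
  have h2 := Complex.norm_mul_sin_arg ⟨a, b⟩
  simp only at h1 h2
  set t := Complex.arg ⟨a, b⟩
  set r := ‖(⟨a, b⟩ : ℂ)‖
  have hr : 0 ≤ r := norm_nonneg _
  rw [← h1, ← h2]
  constructor
  · have : Real.cos t * (r * Real.cos t) + Real.sin t * (r * Real.sin t) = r := by
      have := Real.cos_sq_add_sin_sq t
      linear_combination r * this
    rw [this]; exact hr
  · ring

private theorem rt_mem (i : Fin 3) (t : ℝ) : rt i t ∈ GLo := by
  have hU := rt_unitary i t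
  show (rt i t).det ≠ 0
  rw [Matrix.mem_unitaryGroup_iff] at hU
  intro h0
  have := congrArg Matrix.det hU
  rw [Matrix.det_mul, h0, zero_mul, Matrix.det_one] at this
  exact zero_ne_one this

private theorem clear2 (A : Mat 3) (b : Fin 4) : ∃ g ∈ GLo, (Phi g * A) 2 b = 0 ∧
    (∀ c, (Phi g * A) 0 c = A 0 c) ∧ (∀ c, (Phi g * A) 3 c = A 3 c) ∧
    (∀ c, A 1 c = 0 → A 2 c = 0 → (Phi g * A) 1 c = 0 ∧ (Phi g * A) 2 c = 0) := by
  obtain ⟨t, h1, h2⟩ := plane (A 1 b) (A 2 b)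
  refine ⟨rt 2 t, rt_mem 2 t, ?_, ?_, ?_, ?_⟩
  · rw [Phi_rtC, Matrix.mul_apply, Fin.sum_univ_four]
    simp [rmatC]
    linarith
  · intro c
    rw [Phi_rtC, Matrix.mul_apply, Fin.sum_univ_four]
    simp [rmatC]
  · intro c
    rw [Phi_rtC, Matrix.mul_apply, Fin.sum_univ_four]
    simp [rmatC]
  · intro c hc1 hc2
    rw [Phi_rtC, Matrix.mul_apply, Matrix.mul_apply, Fin.sum_univ_four, Fin.sum_univ_four]
    simp [rmatC, hc1, hc2]

private theorem clear1 (A : Mat 3) (b : Fin 4) : ∃ g ∈ GLo, (Phi g * A) 1 b = 0 ∧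
    0 ≤ (Phi g * A) 3 b ∧
    (∀ c, (Phi g * A) 0 c = A 0 c) ∧ (∀ c, (Phi g * A) 2 c = A 2 c) ∧
    (∀ c, A 1 c = 0 → A 3 c = 0 → (Phi g * A) 1 c = 0 ∧ (Phi g * A) 3 c = 0) := by
  obtain ⟨t, h1, h2⟩ := plane (A 3 b) (A 1 b)
  refine ⟨rt 1 t, rt_mem 1 t, ?_, ?_, ?_, ?_, ?_⟩
  · rw [Phi_rtC, Matrix.mul_apply, Fin.sum_univ_four]
    simp [rmatC]
    linarith
  · rw [Phi_rtC, Matrix.mul_apply, Fin.sum_univ_four]
    simp [rmatC]
    linarith
  · intro c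
    rw [Phi_rtC, Matrix.mul_apply, Fin.sum_univ_four]
    simp [rmatC]
  · intro c
    rw [Phi_rtC, Matrix.mul_apply, Fin.sum_univ_four]
    simp [rmatC]
  · intro c hc1 hc2
    rw [Phi_rtC, Matrix.mul_apply, Matrix.mul_apply, Fin.sum_univ_four, Fin.sum_univ_four]
    simp [rmatC, hc1, hc2]

private theorem circle {a b : ℝ} (h : a ^ 2 + b ^ 2 = 1) : ∃ t : ℝ, Real.cos t = a ∧ Real.sin t = b := by
  refine ⟨Complex.arg ⟨a, b⟩, ?_⟩
  have h1 := Complex.norm_mul_cos_arg ⟨a, b⟩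
  have h2 := Complex.norm_mul_sin_arg ⟨a, b⟩
  have h3 : ‖(⟨a, b⟩ : ℂ)‖ = 1 := by
    rw [Complex.norm_def, Complex.normSq_mk, ← pow_two, ← pow_two, h, Real.sqrt_one]
  rw [h3, one_mul] at h1 h2
  exact ⟨h1, h2⟩

private theorem bst_rows (A : Mat 3) (x : ℝ) (c : Fin 4) :
    (Phi (bst 2 (-Real.arsinh x)) * A) 1 c = A 1 c ∧
      (Phi (bst 2 (-Real.arsinh x)) * A) 2 c = A 2 c ∧
      (Phi (bst 2 (-Real.arsinh x)) * A) 0 c = Real.sqrt (1 + x ^ 2) * A 0 c - x * A 3 c ∧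
      (Phi (bst 2 (-Real.arsinh x)) * A) 3 c = Real.sqrt (1 + x ^ 2) * A 3 c - x * A 0 c := by
  have q1 : Real.cosh (-Real.arsinh x) = Real.sqrt (1 + x ^ 2) := by
    rw [Real.cosh_neg, Real.cosh_arsinh]
  have q2 : Real.sinh (-Real.arsinh x) = -x := by
    rw [Real.sinh_neg, Real.sinh_arsinh]
  rw [Phi_bst]
  have hb : boost 3 2 (-Real.arsinh x) = !![Real.sqrt (1 + x ^ 2), 0, 0, -x; 0, 1, 0, 0;
      0, 0, 1, 0; -x, 0, 0, Real.sqrt (1 + x ^ 2)] := by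
    ext a b
    rw [← q1, ← q2]
    generalize -Real.arsinh x = y
    fin_cases a <;> fin_cases b <;> simp [boost]
  rw [hb]
  simp only [Matrix.mul_apply, Fin.sum_univ_four]
  refine ⟨?_, ?_, ?_, ?_⟩ <;> simp <;> ring

private theorem det_block (a b c d : ℝ) :
    (!![1, 0, 0, 0; 0, a, b, 0; 0, c, d, 0; 0, 0, 0, 1] : Mat 3).det = a * d - b * c := by
  simp [Matrix.det_succ_row_zero, Fin.sum_univ_succ, Fin.succAbove]
  ring

private theorem surj_block {A : Mat 3} (hA : PP A) (h00 : A 0 0 = 1) (h10 : A 1 0 = 0)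
    (h20 : A 2 0 = 0) (h30 : A 3 0 = 0) (h13 : A 1 3 = 0) (h23 : A 2 3 = 0) (h33 : 0 ≤ A 3 3) :
    ∃ g ∈ GLo, Phi g = A := by
  have E := PP_entry hA
  have r0 : ∀ c, -(A 0 c) = eta 3 0 c := by
    intro c
    have := E 0 c
    rw [h00, h10, h20, h30] at this
    linarith
  have eta01 : eta 3 0 1 = 0 := by simp [eta]
  have eta02 : eta 3 0 2 = 0 := by simp [eta]
  have eta03 : eta 3 0 3 = 0 := by simp [eta]
  have h01 : A 0 1 = 0 := by have := r0 1; rw [eta01] at this; linarith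
  have h02 : A 0 2 = 0 := by have := r0 2; rw [eta02] at this; linarith
  have h03 : A 0 3 = 0 := by have := r0 3; rw [eta03] at this; linarith
  have eta33 : eta 3 3 3 = 1 := by simp [eta, Fin.cons]; rfl
  have eta22 : eta 3 2 2 = 1 := by simp [eta, Fin.cons]; rfl
  have eta11 : eta 3 1 1 = 1 := by simp [eta, Fin.cons]; rfl
  have eta31 : eta 3 3 1 = 0 := by simp [eta]
  have eta32 : eta 3 3 2 = 0 := by simp [eta]
  have eta12 : eta 3 1 2 = 0 := by simp [eta]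
  have e33 := E 3 3
  rw [h03, h13, h23, eta33] at e33
  have h33' : A 3 3 = 1 := by nlinarith
  have e31 := E 3 1
  rw [h03, h13, h23, h33', eta31] at e31
  have h31 : A 3 1 = 0 := by linarith
  have e32 := E 3 2
  rw [h03, h13, h23, h33', eta32] at e32
  have h32 : A 3 2 = 0 := by linarith
  have e11 := E 1 1
  rw [h01, h31, eta11] at e11
  have e22 := E 2 2
  rw [h02, h32, eta22] at e22
  have e12 := E 1 2
  rw [h01, h02, h31, h32, eta12] at e12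
  have hdet : A 1 1 * A 2 2 - A 1 2 * A 2 1 = 1 := by
    have hAe : A = !![1, 0, 0, 0; 0, A 1 1, A 1 2, 0; 0, A 2 1, A 2 2, 0; 0, 0, 0, 1] := by
      ext a b
      fin_cases a <;> fin_cases b <;>
      simp [h00, h01, h02, h03, h10, h20, h30, h13, h23, h33', h31, h32]
    have h := hA.2
    rw [hAe, det_block] at h
    exact h
  have hc : A 2 2 = A 1 1 := by
    nlinarith [sq_nonneg (A 2 2 - A 1 1), sq_nonneg (A 1 2 + A 2 1)]
  have hs : A 2 1 = -A 1 2 := by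
    nlinarith [sq_nonneg (A 2 2 - A 1 1), sq_nonneg (A 1 2 + A 2 1)]
  obtain ⟨t, ht1, ht2⟩ := circle (a := A 1 1) (b := A 1 2) (by
    rw [hs] at e11
    linarith)
  refine ⟨rt 2 t, rt_mem 2 t, ?_⟩
  rw [Phi_rtC, ht1, ht2]
  ext a b
  fin_cases a <;> fin_cases b <;>
  simp [rmatC, h00, h01, h02, h03, h10, h20, h30, h13, h23, h33', h31, h32, hc, hs]

private theorem surj2 {A : Mat 3} (hA : PP A) (h00 : A 0 0 = 1) (h10 : A 1 0 = 0)
    (h20 : A 2 0 = 0) (h30 : A 3 0 = 0) : ∃ g ∈ GLo, Phi g = A := by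
  obtain ⟨g4, hg4, k1, k2, k3, k4⟩ := clear2 A 3
  refine G_of_mul hg4 ?_
  have P4 := PP_mul hg4 hA
  have k5 := k4 0 h10 h20
  have k6 := k3 0
  have k7 := k2 0
  clear k2 k3 k4
  generalize Phi g4 * A = A4 at *
  obtain ⟨g5, hg5, l1, l2, l3, l4, l5⟩ := clear1 A4 3
  refine G_of_mul hg5 ?_
  have P5 := PP_mul hg5 P4
  have m := l5 0 k5.1 (by rw [k6, h30])
  exact surj_block P5 (by rw [l3, k7, h00]) m.1 (by rw [l4, k5.2]) m.2 l1
    (by rw [l4, k1]) l2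

private theorem surj1 {A : Mat 3} (hA : PP A) (h00 : 0 < A 0 0) (h10 : A 1 0 = 0)
    (h20 : A 2 0 = 0) : ∃ g ∈ GLo, Phi g = A := by
  have e00 := PP_entry hA 0 0
  have eta00 : eta 3 0 0 = -1 := by simp [eta]
  rw [h10, h20, eta00] at e00
  obtain ⟨x, hx⟩ : ∃ x, x = A 3 0 := ⟨_, rfl⟩
  rw [← hx] at e00
  have hx1 : A 0 0 = Real.sqrt (1 + x ^ 2) := by
    have h1 : 1 + x ^ 2 = A 0 0 * A 0 0 := by linarith
    rw [h1, Real.sqrt_mul_self h00.le]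
  have hb : bst 2 (-Real.arsinh x) ∈ GLo := by
    show (bst 2 (-Real.arsinh x)).det ≠ 0
    rw [bst_det]; exact one_ne_zero
  refine G_of_mul hb ?_
  have hsq : Real.sqrt (1 + x ^ 2) * Real.sqrt (1 + x ^ 2) = 1 + x ^ 2 :=
    Real.mul_self_sqrt (by positivity)
  obtain ⟨d1, d2, d3, d4⟩ := bst_rows A x 0
  refine surj2 (PP_mul hb hA) ?_ ?_ ?_ ?_
  · rw [d3, hx1, hsq, ← hx]; ring
  · rw [d1, h10]
  · rw [d2, h20]
  · rw [d4, hx1, ← hx]; ring

theorem Phi_surj {A : Mat 3} (hA : A ∈ SO) : ∃ g ∈ GLo, Phi g = A := by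
  obtain ⟨⟨hA1, hpos⟩, hA2⟩ := hA
  have P0 : PP A := ⟨hA1, hA2⟩
  obtain ⟨g1, hg1, a1, a2, a3, -⟩ := clear2 A 0
  refine G_of_mul hg1 ?_
  have P1 := PP_mul hg1 P0
  have a2' := a2 0
  clear a2 a3
  generalize Phi g1 * A = A1 at *
  obtain ⟨g2, hg2, b1, b2, b3, b4, -⟩ := clear1 A1 0
  refine G_of_mul hg2 ?_
  have P2 := PP_mul hg2 P1
  exact surj1 P2 (by rw [b3, a2']; exact hpos) b1 (by rw [b4, a1])

end

end Pool.Agent.Work.MP_14c213_gt
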