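import Pool.Agent.Work.MP_14c213_gt.A.PhiMul
import Pool.Agent.Work.MP_14c213_gt.A.PhiSurj

/-!
Unitary matrices correspond to `rot k`, `k ∈ SO(3)`; group facts for SO and rot.
Phi u 0 0 = 1 for unitary u (Phi_zero_zero), so the first row and column are e_0.
-/

namespace Pool.Agent.Work.MP_14c213_gt

open Matrix MeasureTheory
open scoped Matrix ContDiff Matrix.Norms.Elementwise

noncomputable section

namespace RM

theorem rot00 (m : Matrix (Fin 3) (Fin 3) ℝ) : rot m 0 0 = 1 := rfl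
theorem rot0s (m : Matrix (Fin 3) (Fin 3) ℝ) (j : Fin 3) : rot m 0 j.succ = 0 := rfl
theorem rots0 (m : Matrix (Fin 3) (Fin 3) ℝ) (i : Fin 3) : rot m i.succ 0 = 0 := rfl
theorem rotss (m : Matrix (Fin 3) (Fin 3) ℝ) (i j : Fin 3) : rot m i.succ j.succ = m i j := rfl

theorem eta00 : eta 3 0 0 = -1 := rfl
theorem eta0s (j : Fin 3) : eta 3 0 j.succ = 0 := by
  unfold eta
  rw [diagonal_apply_ne _ (Fin.succ_ne_zero j).symm]
theorem etas0 (j : Fin 3) : eta 3 j.succ 0 = 0 := by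
  unfold eta
  rw [diagonal_apply_ne _ (Fin.succ_ne_zero j)]
theorem etass (i j : Fin 3) : eta 3 i.succ j.succ = if i = j then 1 else 0 := by
  unfold eta
  rw [diagonal_apply]
  simp

theorem eta_sq : eta 3 * eta 3 = 1 := by
  unfold eta
  rw [diagonal_mul_diagonal, ← diagonal_one]
  congr 1
  funext i
  refine Fin.cases ?_ (fun i => ?_) i <;> simp

theorem eta_transpose : (eta 3)ᵀ = eta 3 := diagonal_transpose _

end RM

open RM

theorem rot_mul (k l : Matrix (Fin 3) (Fin 3) ℝ) : rot (k * l) = rot k * rot l := by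
  ext a b
  rw [Matrix.mul_apply, Fin.sum_univ_succ]
  refine Fin.cases ?_ (fun a => ?_) a <;> refine Fin.cases ?_ (fun b => ?_) b <;>
    simp only [rot00, rot0s, rots0, rotss, Matrix.mul_apply] <;> simp

theorem rot_one : rot (1 : Matrix (Fin 3) (Fin 3) ℝ) = 1 := by
  ext a b
  refine Fin.cases ?_ (fun a => ?_) a <;> refine Fin.cases ?_ (fun b => ?_) b <;>
    simp only [rot00, rot0s, rots0, rotss, Matrix.one_apply] <;> simp [(Fin.succ_ne_zero _).symm]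

theorem rot_transpose (k : Matrix (Fin 3) (Fin 3) ℝ) : rot kᵀ = (rot k)ᵀ := by
  ext a b
  refine Fin.cases ?_ (fun a => ?_) a <;> refine Fin.cases ?_ (fun b => ?_) b <;> rfl

namespace RM

theorem orth_left {m : Matrix (Fin 3) (Fin 3) ℝ} (hm : m ∈ Matrix.orthogonalGroup (Fin 3) ℝ) :
    m * mᵀ = 1 := by
  rw [Matrix.mem_orthogonalGroup_iff] at hm
  exact hm

theorem orth_right {m : Matrix (Fin 3) (Fin 3) ℝ} (hm : m ∈ Matrix.orthogonalGroup (Fin 3) ℝ) :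
    mᵀ * m = 1 := by
  rw [Matrix.mem_orthogonalGroup_iff'] at hm
  exact hm

theorem eta_rot (k : Matrix (Fin 3) (Fin 3) ℝ) : eta 3 * rot k = rot k * eta 3 := by
  ext a b
  simp only [Matrix.mul_apply, Fin.sum_univ_succ (n := 3)]
  refine Fin.cases ?_ (fun a => ?_) a <;> refine Fin.cases ?_ (fun b => ?_) b <;>
    simp only [rot00, rot0s, rots0, rotss, eta00, eta0s, etas0, etass] <;> simp

end RM

theorem rot_mem_Frames {k : Matrix (Fin 3) (Fin 3) ℝ} (hk : k ∈ Matrix.orthogonalGroup (Fin 3) ℝ) :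
    rot k ∈ Frames 3 := by
  refine ⟨?_, ?_⟩
  · rw [mul_assoc, eta_rot, ← mul_assoc, ← rot_transpose, ← rot_mul, orth_right hk, rot_one,
      one_mul]
  · rw [rot00]; exact one_pos

theorem rot_det (k : Matrix (Fin 3) (Fin 3) ℝ) : (rot k).det = k.det := by
  rw [Matrix.det_succ_row_zero, Fin.sum_univ_succ]
  have h1 : ∀ j : Fin 3, rot k 0 j.succ = 0 := fun j => rfl
  simp only [h1, mul_zero, zero_mul, Finset.sum_const_zero, add_zero]
  rw [rot00, Fin.val_zero, pow_zero, one_mul, one_mul]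
  congr 1

namespace RM

theorem row_eq {A : Mat 3} (hA : A ∈ Frames 3) : A * eta 3 * Aᵀ = eta 3 := by
  have h1 : (eta 3 * Aᵀ * eta 3) * A = 1 := by
    rw [mul_assoc, mul_assoc, ← mul_assoc Aᵀ, hA.1, eta_sq]
  have h2 : A * (eta 3 * Aᵀ * eta 3) = 1 := mul_eq_one_comm.mp h1
  calc A * eta 3 * Aᵀ = A * (eta 3 * Aᵀ * eta 3) * eta 3 := by
        rw [mul_assoc, mul_assoc, mul_assoc, mul_assoc, eta_sq, mul_one, ← mul_assoc]
    _ = eta 3 := by rw [h2, one_mul]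

theorem col_norm {A : Mat 3} (hA : A ∈ Frames 3) :
    A 0 0 ^ 2 = 1 + ∑ i : Fin 3, A i.succ 0 ^ 2 := by
  have h1 := congrFun (congrFun hA.1 0) 0
  rw [Matrix.mul_apply, Fin.sum_univ_succ, eta00] at h1
  simp only [Matrix.mul_apply, Fin.sum_univ_succ (n := 3), transpose_apply, eta00, eta0s, etas0,
    etass] at h1
  simp only [mul_zero, Finset.sum_const_zero, add_zero, mul_ite, mul_one, zero_add,
    Finset.sum_ite_eq', Finset.mem_univ, if_true] at h1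
  have h2 : ∑ i : Fin 3, A i.succ 0 ^ 2 = ∑ i : Fin 3, A i.succ 0 * A i.succ 0 :=
    Finset.sum_congr rfl fun i _ => sq _
  rw [h2]
  linarith

theorem row_norm {A : Mat 3} (hA : A ∈ Frames 3) :
    A 0 0 ^ 2 = 1 + ∑ i : Fin 3, A 0 i.succ ^ 2 := by
  have h1 := congrFun (congrFun (row_eq hA) 0) 0
  rw [Matrix.mul_apply, Fin.sum_univ_succ, eta00] at h1
  simp only [Matrix.mul_apply, Fin.sum_univ_succ (n := 3), transpose_apply, eta00, eta0s, etas0,
    etass] at h1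
  simp only [mul_zero, Finset.sum_const_zero, add_zero, mul_ite, mul_one, zero_add,
    Finset.sum_ite_eq', Finset.mem_univ, if_true] at h1
  have h2 : ∑ i : Fin 3, A 0 i.succ ^ 2 = ∑ i : Fin 3, A 0 i.succ * A 0 i.succ :=
    Finset.sum_congr rfl fun i _ => sq _
  rw [h2]
  linarith

end RM

theorem Frames_mul {A B : Mat 3} (hA : A ∈ Frames 3) (hB : B ∈ Frames 3) : A * B ∈ Frames 3 := by
  refine ⟨?_, ?_⟩
  · rw [transpose_mul]
    calc Bᵀ * Aᵀ * eta 3 * (A * B) = Bᵀ * (Aᵀ * eta 3 * A) * B := by simp only [mul_assoc]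
      _ = eta 3 := by rw [hA.1, hB.1]
  · rw [Matrix.mul_apply, Fin.sum_univ_succ]
    have h1 := row_norm hA
    have h2 := col_norm hB
    have h3 : (∑ i : Fin 3, A 0 i.succ * B i.succ 0) ^ 2 ≤
        (∑ i : Fin 3, A 0 i.succ ^ 2) * ∑ i : Fin 3, B i.succ 0 ^ 2 :=
      Finset.sum_mul_sq_le_sq_mul_sq _ _ _
    have hA0 := hA.2
    have hB0 := hB.2
    have h4 : (∑ i : Fin 3, A 0 i.succ * B i.succ 0) ^ 2 < (A 0 0 * B 0 0) ^ 2 := by
      have h5 : 0 ≤ ∑ i : Fin 3, A 0 i.succ ^ 2 := Finset.sum_nonneg fun i _ => sq_nonneg _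
      have h6 : 0 ≤ ∑ i : Fin 3, B i.succ 0 ^ 2 := Finset.sum_nonneg fun i _ => sq_nonneg _
      rw [mul_pow, h1, h2]
      nlinarith
    have h7 := abs_lt_of_sq_lt_sq h4 (mul_pos hA0 hB0).le
    have h8 := (abs_lt.mp h7).1
    linarith

theorem Frames_inv {A : Mat 3} (hA : A ∈ Frames 3) :
    A⁻¹ ∈ Frames 3 ∧ A⁻¹ = eta 3 * Aᵀ * eta 3 ∧ A⁻¹ 0 0 = A 0 0 ∧ A * A⁻¹ = 1 ∧ A⁻¹ * A = 1 := by
  have h1 : (eta 3 * Aᵀ * eta 3) * A = 1 := by
    rw [mul_assoc, mul_assoc, ← mul_assoc Aᵀ, hA.1, eta_sq]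
  have h2 : A * (eta 3 * Aᵀ * eta 3) = 1 := mul_eq_one_comm.mp h1
  have h3 : A⁻¹ = eta 3 * Aᵀ * eta 3 := Matrix.inv_eq_right_inv h2
  have h4 : (eta 3 * Aᵀ * eta 3) 0 0 = A 0 0 := by
    simp only [Matrix.mul_apply, Fin.sum_univ_succ (n := 3), transpose_apply, eta00, eta0s, etas0]
    simp
  rw [h3]
  refine ⟨⟨?_, ?_⟩, rfl, h4, h2, h1⟩
  · rw [transpose_mul, transpose_mul, transpose_transpose, eta_transpose]
    calc eta 3 * (A * eta 3) * eta 3 * (eta 3 * Aᵀ * eta 3) =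
        eta 3 * A * eta 3 * (eta 3 * eta 3) * Aᵀ * eta 3 := by simp only [mul_assoc]
      _ = eta 3 * (A * eta 3 * Aᵀ) * eta 3 := by rw [eta_sq, mul_one]; simp only [mul_assoc]
      _ = eta 3 := by rw [row_eq hA, eta_sq, one_mul]
  · rw [h4]; exact hA.2

theorem Frames_det {A : Mat 3} (hA : A ∈ Frames 3) : A.det = 1 ∨ A.det = -1 := by
  have h1 := congrArg Matrix.det hA.1
  rw [det_mul, det_mul, det_transpose] at h1
  have h2 : (eta 3).det ≠ 0 := by
    intro h0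
    have h3 := congrArg Matrix.det eta_sq
    rw [det_mul, h0, zero_mul, det_one] at h3
    exact zero_ne_one h3
  have h4 : A.det * A.det = 1 := by
    apply mul_right_cancel₀ h2
    linear_combination h1
  exact mul_self_eq_one_iff.mp h4

theorem Frames_one_le {A : Mat 3} (hA : A ∈ Frames 3) : 1 ≤ A 0 0 := by
  have h1 := col_norm hA
  have h2 : 0 ≤ ∑ i : Fin 3, A i.succ 0 ^ 2 := Finset.sum_nonneg fun i _ => sq_nonneg _
  have h3 := hA.2
  nlinarith

theorem Frames_eq_rot {A : Mat 3} (hA : A ∈ Frames 3) (h0 : A 0 0 = 1) :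
    ∃ k ∈ Matrix.orthogonalGroup (Fin 3) ℝ, A = rot k := by
  have h1 := col_norm hA
  have h2 := row_norm hA
  rw [h0, one_pow] at h1 h2
  have h3 : ∑ i : Fin 3, A i.succ 0 ^ 2 = 0 := by linarith
  have h4 : ∑ i : Fin 3, A 0 i.succ ^ 2 = 0 := by linarith
  rw [Finset.sum_eq_zero_iff_of_nonneg fun i _ => sq_nonneg _] at h3 h4
  have h5 : ∀ i : Fin 3, A i.succ 0 = 0 := fun i => by
    have := h3 i (Finset.mem_univ i); exact pow_eq_zero_iff (two_ne_zero) |>.mp this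
  have h6 : ∀ i : Fin 3, A 0 i.succ = 0 := fun i => by
    have := h4 i (Finset.mem_univ i); exact pow_eq_zero_iff (two_ne_zero) |>.mp this
  have h7 : A = rot (Matrix.of fun i j : Fin 3 => A i.succ j.succ) := by
    ext a b
    refine Fin.cases ?_ (fun a => ?_) a <;> refine Fin.cases ?_ (fun b => ?_) b
    · exact h0
    · exact h6 b
    · exact h5 a
    · rfl
  refine ⟨_, ?_, h7⟩
  rw [Matrix.mem_orthogonalGroup_iff']
  ext i j
  have h8 := congrFun (congrFun hA.1 i.succ) j.succ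
  rw [Matrix.mul_apply, Fin.sum_univ_succ, etass] at h8
  simp only [Matrix.mul_apply, Fin.sum_univ_succ (n := 3), transpose_apply, eta00, eta0s, etas0,
    etass, h6] at h8
  simp only [mul_zero, zero_mul, mul_ite, mul_one, zero_add,
    Finset.sum_ite_eq', Finset.mem_univ, if_true] at h8
  rw [Matrix.mul_apply, Matrix.one_apply]
  exact h8

namespace RM

theorem unitary_mul {u : M2} (hu : u ∈ Matrix.unitaryGroup (Fin 2) ℂ) : u * uᴴ = 1 :=
  Matrix.mem_unitaryGroup_iff.mp hu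

theorem unitary_GLo {u : M2} (hu : u ∈ Matrix.unitaryGroup (Fin 2) ℂ) : u ∈ GLo := by
  intro h0
  have h1 := congrArg Matrix.det (unitary_mul hu)
  rw [det_mul, h0, zero_mul, det_one] at h1
  exact zero_ne_one h1

theorem unitary_det {u : M2} (hu : u ∈ Matrix.unitaryGroup (Fin 2) ℂ) : ‖u.det‖ = 1 := by
  have h1 := congrArg Matrix.det (unitary_mul hu)
  rw [det_mul, det_one, det_conjTranspose] at h1
  have h2 : Complex.normSq u.det = 1 := by
    have h3 : (Complex.normSq u.det : ℂ) = 1 := by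
      rw [Complex.normSq_eq_conj_mul_self, mul_comm]; exact h1
    exact_mod_cast h3
  rw [Complex.norm_def, h2, Real.sqrt_one]

theorem sum_norm (g : M2) : ((‖g 0 0‖ ^ 2 + ‖g 0 1‖ ^ 2 + ‖g 1 0‖ ^ 2 + ‖g 1 1‖ ^ 2 : ℝ) : ℂ) =
    (g * gᴴ).trace := by
  rw [Matrix.trace_fin_two, Matrix.mul_apply, Matrix.mul_apply, Fin.sum_univ_two,
    Fin.sum_univ_two]
  simp only [Matrix.conjTranspose_apply]
  have h : ∀ z : ℂ, z * star z = ((‖z‖ ^ 2 : ℝ) : ℂ) := by
    intro z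
    rw [Complex.star_def, Complex.mul_conj, Complex.normSq_eq_norm_sq]
  rw [h, h, h, h]
  push_cast
  ring

theorem Phi_unitary_zero {u : M2} (hu : u ∈ Matrix.unitaryGroup (Fin 2) ℂ) : Phi u 0 0 = 1 := by
  rw [Phi_zero_zero, unitary_det hu]
  have h1 := sum_norm u
  rw [unitary_mul hu, Matrix.trace_one] at h1
  have h2 : (‖u 0 0‖ ^ 2 + ‖u 0 1‖ ^ 2 + ‖u 1 0‖ ^ 2 + ‖u 1 1‖ ^ 2 : ℝ) = 2 := by
    exact_mod_cast h1
  rw [h2]
  norm_num

end RM

theorem Phi_unitary {u : M2} (hu : u ∈ Matrix.unitaryGroup (Fin 2) ℂ) :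
    Phi u = rot (Rot u) ∧ Rot u ∈ Matrix.orthogonalGroup (Fin 3) ℝ ∧ (Rot u).det = 1 := by
  have h1 := Phi_SO (unitary_GLo hu)
  obtain ⟨k, hk, h2⟩ := Frames_eq_rot h1.1 (Phi_unitary_zero hu)
  have h3 : Rot u = k := by
    ext i j
    show Phi u i.succ j.succ = k i j
    rw [h2]
    rfl
  have h4 := h1.2
  rw [h2, rot_det] at h4
  rw [h3]
  exact ⟨h2, hk, h4⟩

theorem Rot_mul {u v : M2} (hu : u ∈ Matrix.unitaryGroup (Fin 2) ℂ)
    (hv : v ∈ Matrix.unitaryGroup (Fin 2) ℂ) : Rot (u * v) = Rot u * Rot v := by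
  have h1 : Phi (u * v) = rot (Rot u * Rot v) := by
    rw [Phi_mul (unitary_GLo hu) (unitary_GLo hv), (Phi_unitary hu).1, (Phi_unitary hv).1, rot_mul]
  ext i j
  show Phi (u * v) i.succ j.succ = (Rot u * Rot v) i j
  rw [h1]
  rfl

theorem Rot_surj {k : Matrix (Fin 3) (Fin 3) ℝ} (hk : k ∈ Matrix.orthogonalGroup (Fin 3) ℝ)
    (hd : k.det = 1) : ∃ u ∈ Matrix.unitaryGroup (Fin 2) ℂ, Rot u = k := by
  obtain ⟨g, hg, hgk⟩ := Phi_surj (A := rot k) ⟨rot_mem_Frames hk, by rw [rot_det, hd]⟩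
  have h1 := Phi_core hg 0
  have h2 : ∑ a, (Phi g a 0 : ℂ) • pauli a = (1 : M2) := by
    rw [hgk, Fin.sum_univ_succ]
    simp only [rot00, rots0, Complex.ofReal_zero, zero_smul, Finset.sum_const_zero, add_zero,
      Complex.ofReal_one, one_smul]
    ext i j
    fin_cases i <;> fin_cases j <;> simp [pauli]
  have hp0 : (pauli 0 : M2) = 1 := by
    ext i j
    fin_cases i <;> fin_cases j <;> simp [pauli]
  rw [h2, hp0, mul_one] at h1
  have hd0 : 0 < ‖g.det‖ := norm_pos_iff.mpr hg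
  set r : ℝ := Real.sqrt ‖g.det‖ with hr
  have hr0 : 0 < r := Real.sqrt_pos.mpr hd0
  have hrr : r * r = ‖g.det‖ := Real.mul_self_sqrt hd0.le
  have hu : (((r⁻¹ : ℝ) : ℂ) • g) ∈ Matrix.unitaryGroup (Fin 2) ℂ := by
    rw [Matrix.mem_unitaryGroup_iff, Matrix.star_eq_conjTranspose, conjTranspose_smul,
      smul_mul_smul_comm, h1, smul_smul, Complex.star_def, Complex.conj_ofReal]
    have h3 : ((r⁻¹ : ℝ) : ℂ) * ((r⁻¹ : ℝ) : ℂ) * ((‖g.det‖ : ℝ) : ℂ) = 1 := by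
      rw [← hrr]
      rw [← Complex.ofReal_mul, ← Complex.ofReal_mul]
      have : r⁻¹ * r⁻¹ * (r * r) = 1 := by field_simp
      rw [this, Complex.ofReal_one]
    rw [h3, one_smul]
  refine ⟨_, hu, ?_⟩
  ext i j
  show Phi (((r⁻¹ : ℝ) : ℂ) • g) i.succ j.succ = k i j
  rw [Phi_smul (by
    rw [Ne, Complex.ofReal_eq_zero]
    exact (inv_pos.mpr hr0).ne'), hgk]
  rfl

theorem SO_mul {A B : Mat 3} (hA : A ∈ SO) (hB : B ∈ SO) : A * B ∈ SO :=
  ⟨Frames_mul hA.1 hB.1, by rw [det_mul, hA.2, hB.2, one_mul]⟩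

theorem SO_inv {A : Mat 3} (hA : A ∈ SO) : A⁻¹ ∈ SO := by
  obtain ⟨h1, -, -, h2, -⟩ := Frames_inv hA.1
  refine ⟨h1, ?_⟩
  have h3 := congrArg Matrix.det h2
  rwa [det_mul, hA.2, one_mul, det_one] at h3

end

end Pool.Agent.Work.MP_14c213_gt
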