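import Pool.Agent.Work.MP_14c213_gt.A.TAM

/-!
Adjoints. (kD A q p)ᴴ = J kD A p q J with J = rho k (eta 3) (ker_star), J is a constant matrix which
commutes with tau k m (m orthogonal), so F ↦ J F maps Sect to Sect and commutes with Cas (Cas_clm).
Hence T* = J T J.
-/

namespace Pool.Agent.Work.MP_14c213_gt

open Matrix MeasureTheory
open scoped Matrix ContDiff Matrix.Norms.Elementwise

noncomputable section

/-- `J` as a real continuous linear map -/
private def adjL (k : ℕ) : (Ix k → ℂ) →L[ℝ] (Ix k → ℂ) :=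
  LinearMap.toContinuousLinearMap ((Matrix.mulVecLin (rho k (eta 3))).restrictScalars ℝ)

private theorem adjL_apply (k : ℕ) (v : Ix k → ℂ) : adjL k v = rho k (eta 3) *ᵥ v := rfl

private theorem eta_rot (m : Matrix (Fin 3) (Fin 3) ℝ) : eta 3 * rot m = rot m * eta 3 := by
  ext a b
  rw [eta, Matrix.diagonal_mul, Matrix.mul_diagonal]
  refine Fin.cases ?_ (fun i => ?_) a <;> refine Fin.cases ?_ (fun j => ?_) b <;>
    simp [rot]

private theorem J_tau (k : ℕ) (m : Matrix (Fin 3) (Fin 3) ℝ) :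
    rho k (eta 3) * tau k m = tau k m * rho k (eta 3) := by
  unfold tau
  rw [← rho_mul, ← rho_mul, eta_rot]

theorem J_mem {k : ℕ} {Γ : Subgroup (Mat 3)ˣ} {F : M2 → Ix k → ℂ} (hF : F ∈ Sect (tau k) Γ) :
    (fun g => rho k (eta 3) *ᵥ F g) ∈ Sect (tau k) Γ := by
  obtain ⟨h1, h2, h3, h4, h5⟩ := hF
  refine ⟨fun g hg => ?_, ?_, fun z hz g hg => ?_, fun γ hγ h hh e g hg => ?_,
    fun u hu g hg => ?_⟩
  · simp only [h1 g hg, Matrix.mulVec_zero]
  · exact (adjL k).contDiff.comp_contDiffOn h2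
  · simp only [h3 z hz g hg]
  · simp only [h4 γ hγ h hh e g hg]
  · simp only [h5 u hu g hg, Matrix.mulVec_mulVec, J_tau]

/-- `J` on sections -/
private def JS (k : ℕ) {Γ : Subgroup (Mat 3)ˣ} (F : Sect (tau k) Γ) : Sect (tau k) Γ :=
  ⟨fun g => rho k (eta 3) *ᵥ F.1 g, J_mem F.2⟩

private theorem JS_Cas (k : ℕ) {Γ : Subgroup (Mat 3)ˣ} (F : Sect (tau k) Γ) :
    CasL k Γ (JS k F) = JS k (CasL k Γ F) := by
  refine lin_sect_ext fun g hg => ?_
  exact Cas_clm F.2.2.1 (adjL k) hg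

/-- the diagonal of `J` -/
private def sJ (k : ℕ) (I : Ix k) : ℂ := rho k (eta 3) I I

private theorem J_diag (k : ℕ) : rho k (eta 3) = Matrix.diagonal (sJ k) := by
  ext I L
  by_cases h : I = L
  · rw [h, Matrix.diagonal_apply_eq]
    rfl
  · rw [Matrix.diagonal_apply_ne _ h]
    obtain ⟨a, ha⟩ := Function.ne_iff.1 h
    unfold rho
    rw [Matrix.of_apply]
    refine Finset.prod_eq_zero (Finset.mem_univ a) ?_
    rw [eta, Matrix.diagonal_apply_ne _ ha, Complex.ofReal_zero]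

private theorem J_mulVec (k : ℕ) (v : Ix k → ℂ) (a : Ix k) :
    (rho k (eta 3) *ᵥ v) a = sJ k a * v a := by
  rw [J_diag, Matrix.mulVec_diagonal]

/-- `J` on the values -/
private def JE (k : ℕ) : EuclideanSpace ℂ (Ix k) →L[ℂ] EuclideanSpace ℂ (Ix k) :=
  LinearMap.toContinuousLinearMap
    { toFun := fun v => WithLp.toLp 2 fun a => sJ k a * v a
      map_add' := fun v w => by
        ext a
        simp [mul_add]
      map_smul' := fun c v => by
        ext a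
        simp
        ring }

private theorem JE_apply (k : ℕ) (v : EuclideanSpace ℂ (Ix k)) (a : Ix k) :
    JE k v a = sJ k a * v a := rfl

/-- `J` on the Hilbert space -/
private def JH (k : ℕ) (D : Set UH) : Hk k D →L[ℂ] Hk k D :=
  ContinuousLinearMap.compLpL 2 (mu.restrict D) (JE k)

private theorem JH_ae (k : ℕ) (D : Set UH) (f : Hk k D) :
    ∀ᵐ p ∂(mu.restrict D), ∀ a, (JH k D f : UH → EuclideanSpace ℂ (Ix k)) p a =
      sJ k a * (f : UH → EuclideanSpace ℂ (Ix k)) p a := by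
  filter_upwards [ContinuousLinearMap.coeFn_compLpL (p := 2) (μ := mu.restrict D) (JE k) f]
    with p hp a
  have h1 : (JH k D f : UH → EuclideanSpace ℂ (Ix k)) p = JE k (f p) := hp
  rw [h1, JE_apply]

private theorem JH_emb {k : ℕ} {Γ : Subgroup (Mat 3)ˣ} {D : Set UH}
    {ι : Sect (tau k) Γ →ₗ[ℂ] Hk k D}
    (hι : ∀ F, ∀ᵐ p ∂(mu.restrict D), ∀ a,
      (ι F : UH → EuclideanSpace ℂ (Ix k)) p a = F.1 (sec p) a) (F : Sect (tau k) Γ) :
    ι (JS k F) = JH k D (ι F) := by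
  apply Lp.ext
  filter_upwards [hι (JS k F), hι F, JH_ae k D (ι F)] with p h1 h2 h3
  ext a
  rw [h1 a, h3 a, h2 a]
  exact J_mulVec k _ a

private theorem adj_eq {k : ℕ} {Γ : Subgroup (Mat 3)ˣ} {D : Set UH} (h : Klein Γ) (hD : FD Γ D)
    {A : ℝ → ℝ} (hA : Prof A)
    {T : Hk k D →L[ℂ] Hk k D} (hT : HasKer (mu.restrict D) T (kD k Γ D A)) :
    ContinuousLinearMap.adjoint T = JH k D * T * JH k D := by
  haveI : IsFiniteMeasure (mu.restrict D) := ⟨by
    rw [Measure.restrict_apply_univ]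
    exact (FD_vol h hD).2⟩
  refine hasKer_unique (mu.restrict D) (hasKer_adjoint (mu.restrict D) (kD_ker h hD hA) hT) ?_
  intro f
  filter_upwards [JH_ae k D (T (JH k D f)), hT (JH k D f)] with p h1 h2 a
  have e1 : ((JH k D * T * JH k D) f : UH → EuclideanSpace ℂ (Ix k)) p a =
      sJ k a * (T (JH k D f) : UH → EuclideanSpace ℂ (Ix k)) p a := h1 a
  rw [e1, h2 a, ← integral_const_mul]
  refine integral_congr_ae ?_
  filter_upwards [JH_ae k D f] with q hq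
  rw [Finset.mul_sum]
  refine Finset.sum_congr rfl fun b _ => ?_
  rw [hq b]
  have e2 : (kD k Γ D A q p)ᴴ = rho k (eta 3) * kD k Γ D A p q * rho k (eta 3) := by
    unfold kD
    by_cases hpq : p ∈ D ∧ q ∈ D
    · rw [if_pos ⟨hpq.2, hpq.1⟩, if_pos hpq]
      exact ker_star h (SS_SO (hD.sub hpq.1)) (SS_SO (hD.sub hpq.2))
    · rw [if_neg (fun hc => hpq ⟨hc.2, hc.1⟩), if_neg hpq]
      simp
  rw [e2, J_diag, Matrix.mul_diagonal, Matrix.diagonal_mul]
  ring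

theorem TA_adj_smooth {k : ℕ} {Γ : Subgroup (Mat 3)ˣ} {D : Set UH} (h : Klein Γ) (hD : FD Γ D)
    {A : ℝ → ℝ} (hA : Prof A) (hs : ContDiff ℝ ∞ A) {ι : Sect (tau k) Γ →ₗ[ℂ] Hk k D}
    (hι : ∀ F, ∀ᵐ p ∂(mu.restrict D), ∀ a,
      (ι F : UH → EuclideanSpace ℂ (Ix k)) p a = F.1 (sec p) a)
    {T : Hk k D →L[ℂ] Hk k D} (hT : HasKer (mu.restrict D) T (kD k Γ D A)) (f : Hk k D) :
    ∃ F, ι F = ContinuousLinearMap.adjoint T f := by
  obtain ⟨F, hF⟩ := TA_smooth h hD hA hs hι hT (JH k D f)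
  refine ⟨JS k F, ?_⟩
  rw [JH_emb hι, hF, adj_eq h hD hA hT]
  rfl

theorem TA_adj_Cas {k : ℕ} {Γ : Subgroup (Mat 3)ˣ} {D : Set UH} (h : Klein Γ) (hD : FD Γ D)
    {A : ℝ → ℝ} (hA : Prof A) {ι : Sect (tau k) Γ →ₗ[ℂ] Hk k D} (hinj : Function.Injective ι)
    (hι : ∀ F, ∀ᵐ p ∂(mu.restrict D), ∀ a,
      (ι F : UH → EuclideanSpace ℂ (Ix k)) p a = F.1 (sec p) a)
    {T : Hk k D →L[ℂ] Hk k D} (hT : HasKer (mu.restrict D) T (kD k Γ D A)) (F G : Sect (tau k) Γ)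
    (hG : ι G = ContinuousLinearMap.adjoint T (ι F)) :
    ι (CasL k Γ G) = ContinuousLinearMap.adjoint T (ι (CasL k Γ F)) := by
  have key : ∀ F : Sect (tau k) Γ, ContinuousLinearMap.adjoint T (ι F) =
      ι (JS k (RL k Γ A hA (JS k F))) := by
    intro F
    rw [adj_eq h hD hA hT, JH_emb hι, ← TA_emb h hD hA hι hT, JH_emb hι]
    rfl
  rw [key] at hG
  have hG' := hinj hG
  rw [key, hG']
  congr 1
  rw [JS_Cas]
  congr 1
  have h1 := LinearMap.congr_fun (RL_Cas k Γ A hA).eq (JS k F)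
  have h2 : RL k Γ A hA (CasL k Γ (JS k F)) = CasL k Γ (RL k Γ A hA (JS k F)) := h1
  rw [← h2, JS_Cas]

theorem TA_Cas {k : ℕ} {Γ : Subgroup (Mat 3)ˣ} {D : Set UH} (h : Klein Γ) (hD : FD Γ D)
    {A : ℝ → ℝ} (hA : Prof A) {ι : Sect (tau k) Γ →ₗ[ℂ] Hk k D} (hinj : Function.Injective ι)
    (hι : ∀ F, ∀ᵐ p ∂(mu.restrict D), ∀ a,
      (ι F : UH → EuclideanSpace ℂ (Ix k)) p a = F.1 (sec p) a)
    {T : Hk k D →L[ℂ] Hk k D} (hT : HasKer (mu.restrict D) T (kD k Γ D A)) (F G : Sect (tau k) Γ)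
    (hG : ι G = T (ι F)) : ι (CasL k Γ G) = T (ι (CasL k Γ F)) := by
  rw [TA_emb h hD hA hι hT] at hG ⊢
  have hG' := hinj hG
  rw [hG']
  congr 1
  have h1 := LinearMap.congr_fun (RL_Cas k Γ A hA).eq F
  exact h1.symm

end

end Pool.Agent.Work.MP_14c213_gt
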