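import Pool.Agent.Work.MP_14c213_gt.ADefs

/-!
Left invariant vector fields on `GL₂(ℂ)`: all statements are standard Fréchet calculus on the open
set GLo of the normed space M2. E_comm is the symmetry of the second derivative.
-/

namespace Pool.Agent.Work.MP_14c213_gt

open Matrix MeasureTheory
open scoped Matrix ContDiff Matrix.Norms.Elementwise

noncomputable section

/-! ### Generic calculus -/

section generic

variable {A : Type*} [NormedAddCommGroup A] [NormedSpace ℝ A] {U : Set A}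
variable {V : Type*} [NormedAddCommGroup V] [NormedSpace ℝ V]

/-- the derivative along a linear vector field -/
def cgE (R : A →L[ℝ] A) (F : A → V) : A → V := fun g => fderiv ℝ F g (R g)

theorem cg_diffAt (hU : IsOpen U) {F : A → V} (hF : ContDiffOn ℝ ∞ F U) {g : A} (hg : g ∈ U) :
    DifferentiableAt ℝ F g :=
  ((hF.contDiffAt (hU.mem_nhds hg)).differentiableAt (by simp))

theorem cg_fderiv (hU : IsOpen U) {F : A → V} (hF : ContDiffOn ℝ ∞ F U) :
    ContDiffOn ℝ ∞ (fderiv ℝ F) U :=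
  hF.fderiv_of_isOpen hU (by simp)

theorem cg_smooth (hU : IsOpen U) {F : A → V} (hF : ContDiffOn ℝ ∞ F U) (R : A →L[ℝ] A) :
    ContDiffOn ℝ ∞ (cgE R F) U :=
  (cg_fderiv hU hF).clm_apply R.contDiff.contDiffOn

theorem cg_add (hU : IsOpen U) {F G : A → V} (hF : ContDiffOn ℝ ∞ F U) (hG : ContDiffOn ℝ ∞ G U)
    (Z : A) {g : A} (hg : g ∈ U) :
    fderiv ℝ (F + G) g Z = fderiv ℝ F g Z + fderiv ℝ G g Z := by
  rw [fderiv_add (cg_diffAt hU hF hg) (cg_diffAt hU hG hg)]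
  rfl

theorem cg_clm (hU : IsOpen U) {W : Type*} [NormedAddCommGroup W] [NormedSpace ℝ W] {F : A → V}
    (hF : ContDiffOn ℝ ∞ F U) (L : V →L[ℝ] W) (Z : A) {g : A} (hg : g ∈ U) :
    fderiv ℝ (fun g => L (F g)) g Z = L (fderiv ℝ F g Z) := by
  have h := (L.hasFDerivAt (x := F g)).comp g (cg_diffAt hU hF hg).hasFDerivAt
  rw [show (fun g => L (F g)) = L ∘ F from rfl, h.fderiv]
  rfl

theorem cg_congr (hU : IsOpen U) {F G : A → V} (h : ∀ g ∈ U, F g = G g) {g : A} (hg : g ∈ U) :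
    fderiv ℝ F g = fderiv ℝ G g := by
  have h1 : F =ᶠ[nhds g] G := by
    filter_upwards [hU.mem_nhds hg] with x hx
    exact h x hx
  rw [h1.fderiv_eq]

theorem cg_second (hU : IsOpen U) {F : A → V} (hF : ContDiffOn ℝ ∞ F U) (R : A →L[ℝ] A) {g : A}
    (hg : g ∈ U) (Z : A) : fderiv ℝ (cgE R F) g Z =
      fderiv ℝ (fderiv ℝ F) g Z (R g) + fderiv ℝ F g (R Z) := by
  have h1 : DifferentiableAt ℝ (fderiv ℝ F) g := cg_diffAt hU (cg_fderiv hU hF) hg
  have h3 := h1.hasFDerivAt.clm_apply (R.hasFDerivAt (x := g))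
  have h4 : fderiv ℝ (cgE R F) g = _ := h3.fderiv
  rw [h4]
  simp only [_root_.add_apply, ContinuousLinearMap.comp_apply, ContinuousLinearMap.flip_apply]
  rw [add_comm]

theorem cg_comm (hU : IsOpen U) {F : A → V} (hF : ContDiffOn ℝ ∞ F U) (R S : A →L[ℝ] A) {g : A}
    (hg : g ∈ U) : cgE R (cgE S F) g - cgE S (cgE R F) g =
      fderiv ℝ F g (S (R g)) - fderiv ℝ F g (R (S g)) := by
  have h1 : cgE R (cgE S F) g = _ := cg_second hU hF S hg (R g)
  have h2 : cgE S (cgE R F) g = _ := cg_second hU hF R hg (S g)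
  have h3 : IsSymmSndFDerivAt ℝ F g := by
    apply (hF.contDiffAt (hU.mem_nhds hg)).isSymmSndFDerivAt
    rw [minSmoothness_of_isRCLikeNormedField]
    exact WithTop.coe_le_coe.mpr le_top
  have h4 : fderiv ℝ (fderiv ℝ F) g (R g) (S g) = fderiv ℝ (fderiv ℝ F) g (S g) (R g) := h3 _ _
  rw [h1, h2, h4]
  abel

theorem cg_comp (hU : IsOpen U) {F : A → V} (hF : ContDiffOn ℝ ∞ F U) (R : A →L[ℝ] A) {g : A}
    (hg : R g ∈ U) (Z : A) : fderiv ℝ (fun x => F (R x)) g Z = fderiv ℝ F (R g) (R Z) := by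
  have h1 := (cg_diffAt hU hF hg).hasFDerivAt
  have h3 : HasFDerivAt (fun x : A => F (R x)) _ g := HasFDerivAt.comp g h1 R.hasFDerivAt
  rw [h3.fderiv]
  rfl

theorem cg_bilin (hU : IsOpen U) {V₂ V₃ : Type*} [NormedAddCommGroup V₂] [NormedSpace ℝ V₂]
    [NormedAddCommGroup V₃] [NormedSpace ℝ V₃] (B : V →L[ℝ] V₂ →L[ℝ] V₃) {F : A → V}
    {G : A → V₂} (hF : ContDiffOn ℝ ∞ F U) (hG : ContDiffOn ℝ ∞ G U) (Z : A) {g : A}
    (hg : g ∈ U) :
    fderiv ℝ (fun x => B (F x) (G x)) g Z =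
      B (fderiv ℝ F g Z) (G g) + B (F g) (fderiv ℝ G g Z) := by
  have h1 := (cg_diffAt hU hF hg).hasFDerivAt
  have h2 := (cg_diffAt hU hG hg).hasFDerivAt
  have h3 : HasFDerivAt (fun x => B (F x) (G x)) _ g :=
    ((B.hasFDerivAt (x := F g)).comp g h1).clm_apply h2
  rw [h3.fderiv]
  simp only [_root_.add_apply, ContinuousLinearMap.comp_apply, ContinuousLinearMap.flip_apply]
  rw [add_comm]
  rfl

theorem cg_curve (hU : IsOpen U) {F : A → V} (hF : ContDiffOn ℝ ∞ F U) {c : ℝ → A} {Z : A} {t : ℝ}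
    (hc : HasDerivAt c Z t) (ht : c t ∈ U) :
    HasDerivAt (fun s => F (c s)) (fderiv ℝ F (c t) Z) t :=
  HasFDerivAt.comp_hasDerivAt t (cg_diffAt hU hF ht).hasFDerivAt hc

theorem cg_off {F : A → V} {g Z : A} (h : ∀ t : ℝ, F (g + t • Z) = 0) : fderiv ℝ F g Z = 0 := by
  by_cases hd : DifferentiableAt ℝ F g
  · have h1 : HasDerivAt (fun t : ℝ => F (g + t • Z)) (fderiv ℝ F g Z) 0 := by
      have h2 : HasDerivAt (fun t : ℝ => g + t • Z) Z 0 := by
        have h3 := ((hasDerivAt_id (0 : ℝ)).smul_const Z).const_add g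
        rwa [one_smul] at h3
      have h4 : HasFDerivAt F (fderiv ℝ F g) (g + (0 : ℝ) • Z) := by
        rw [zero_smul, add_zero]; exact hd.hasFDerivAt
      exact h4.comp_hasDerivAt 0 h2
    have h5 : (fun t : ℝ => F (g + t • Z)) = fun _ => 0 := by
      funext t
      exact h t
    rw [h5] at h1
    exact h1.unique (hasDerivAt_const 0 (0 : V))
  · rw [fderiv_zero_of_not_differentiableAt hd]
    rfl

variable [FiniteDimensional ℝ A]

/-- a linear map as a continuous linear map -/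
def cgMk (f : A →ₗ[ℝ] A) : A →L[ℝ] A := LinearMap.toContinuousLinearMap f

theorem cgMk_apply (f : A →ₗ[ℝ] A) (x : A) : cgMk f x = f x := rfl

end generic

section

variable {V : Type*} [NormedAddCommGroup V] [NormedSpace ℝ V]

theorem GLo_open : IsOpen GLo := by
  have h : Continuous fun g : M2 => g.det := Continuous.matrix_det continuous_id
  exact isOpen_ne.preimage h

theorem GLo_mul {g h : M2} (hg : g ∈ GLo) (hh : h ∈ GLo) : g * h ∈ GLo := by
  show (g * h).det ≠ 0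
  rw [det_mul]
  exact mul_ne_zero hg hh

theorem E_smooth {F : M2 → V} (hF : ContDiffOn ℝ ∞ F GLo) (X : M2) :
    ContDiffOn ℝ ∞ (E X F) GLo :=
  cg_smooth GLo_open hF (cgMk (LinearMap.mulRight ℝ X))

theorem E_add {F G : M2 → V} (hF : ContDiffOn ℝ ∞ F GLo) (hG : ContDiffOn ℝ ∞ G GLo) (X : M2)
    {g : M2} (hg : g ∈ GLo) : E X (F + G) g = E X F g + E X G g :=
  cg_add GLo_open hF hG (g * X) hg

theorem E_clm {W : Type*} [NormedAddCommGroup W] [NormedSpace ℝ W] {F : M2 → V}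
    (hF : ContDiffOn ℝ ∞ F GLo) (L : V →L[ℝ] W) (X : M2) {g : M2} (hg : g ∈ GLo) :
    E X (fun g => L (F g)) g = L (E X F g) :=
  cg_clm GLo_open hF L (g * X) hg

theorem E_congr {F G : M2 → V} (h : ∀ g ∈ GLo, F g = G g) (X : M2) {g : M2} (hg : g ∈ GLo) :
    E X F g = E X G g :=
  DFunLike.congr_fun (cg_congr GLo_open h hg) (g * X)

theorem E_add_dir (F : M2 → V) (X Y : M2) (g : M2) : E (X + Y) F g = E X F g + E Y F g := by
  unfold E
  rw [mul_add, map_add]

theorem E_smul_dir (F : M2 → V) (c : ℝ) (X : M2) (g : M2) : E (c • X) F g = c • E X F g := by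
  unfold E
  rw [mul_smul_comm, map_smul]

theorem E_comm {F : M2 → V} (hF : ContDiffOn ℝ ∞ F GLo) (X Y : M2) {g : M2} (hg : g ∈ GLo) :
    E X (E Y F) g - E Y (E X F) g = E (X * Y - Y * X) F g := by
  have h := cg_comm GLo_open hF (cgMk (LinearMap.mulRight ℝ X)) (cgMk (LinearMap.mulRight ℝ Y)) hg
  refine Eq.trans h ?_
  show fderiv ℝ F g (g * X * Y) - fderiv ℝ F g (g * Y * X) = fderiv ℝ F g (g * (X * Y - Y * X))
  rw [mul_sub, map_sub, mul_assoc, mul_assoc]

theorem E_right {F : M2 → V} (hF : ContDiffOn ℝ ∞ F GLo) (X : M2) {g h : M2} (hg : g ∈ GLo)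
    (hh : h ∈ GLo) : E X (fun x => F (x * h)) g = E (h⁻¹ * X * h) F (g * h) := by
  have h1 := cg_comp GLo_open hF (cgMk (LinearMap.mulRight ℝ h)) (GLo_mul hg hh) (g * X)
  refine Eq.trans h1 ?_
  show fderiv ℝ F (g * h) (g * X * h) = fderiv ℝ F (g * h) (g * h * (h⁻¹ * X * h))
  congr 1
  have h4 : h * h⁻¹ = 1 := mul_nonsing_inv h (isUnit_iff_ne_zero.mpr hh)
  calc g * X * h = g * (h * h⁻¹) * X * h := by rw [h4, mul_one]
    _ = _ := by simp only [mul_assoc]

theorem E_left {F : M2 → V} (hF : ContDiffOn ℝ ∞ F GLo) (X : M2) {g h : M2} (hg : g ∈ GLo)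
    (hh : h ∈ GLo) : E X (fun x => F (h * x)) g = E X F (h * g) := by
  have h1 := cg_comp GLo_open hF (cgMk (LinearMap.mulLeft ℝ h)) (GLo_mul hh hg) (g * X)
  refine Eq.trans h1 ?_
  show fderiv ℝ F (h * g) (h * (g * X)) = fderiv ℝ F (h * g) (h * g * X)
  rw [mul_assoc]

theorem E_curve {F : M2 → V} (hF : ContDiffOn ℝ ∞ F GLo) {c : ℝ → M2} {X : M2} {t : ℝ}
    (hc : HasDerivAt c (c t * X) t) (ht : c t ∈ GLo) :
    HasDerivAt (fun s => F (c s)) (E X F (c t)) t :=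
  cg_curve GLo_open hF hc ht

theorem E_scalar {F : M2 → V} (hF : ContDiffOn ℝ ∞ F GLo)
    (hz : ∀ z : ℂ, z ≠ 0 → ∀ g ∈ GLo, F (z • g) = F g) (c : ℂ) {g : M2} (hg : g ∈ GLo) :
    E (c • (1 : M2)) F g = 0 := by
  have h2 : HasDerivAt (fun t : ℝ => Complex.exp (c * t)) c 0 := by
    have h3 : HasDerivAt (fun t : ℝ => c * (t : ℂ)) (c * 1) 0 :=
      (Complex.ofRealCLM.hasDerivAt (x := (0 : ℝ))).const_mul c
    have h4 := h3.cexp
    simpa using h4
  have h1 : HasDerivAt (fun t : ℝ => (Complex.exp (c * t)) • g) (c • g) 0 := h2.smul_const g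
  have h5 : HasDerivAt (fun t : ℝ => F ((Complex.exp (c * t)) • g)) (E (c • (1 : M2)) F g) 0 := by
    have h0 : Complex.exp (c * (0 : ℝ)) • g = g := by simp
    have h6 := E_curve (c := fun t : ℝ => (Complex.exp (c * t)) • g) (X := c • (1 : M2)) (t := 0) hF
      (by
        simp only [h0]
        rw [mul_smul_comm, mul_one]
        exact h1) (by simp only [h0]; exact hg)
    simp only [h0] at h6
    exact h6
  have h7 : (fun t : ℝ => F ((Complex.exp (c * t)) • g)) = fun _ => F g := by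
    funext t
    exact hz _ (Complex.exp_ne_zero _) g hg
  rw [h7] at h5
  exact h5.unique (hasDerivAt_const 0 (F g))

theorem E_off {F : M2 → V} (h0 : ∀ g, g ∉ GLo → F g = 0) (X : M2) {g : M2} (hg : g ∉ GLo) :
    E X F g = 0 := by
  apply cg_off
  intro t
  apply h0
  intro hm
  apply hg
  have h6 : g + t • (g * X) = g * (1 + t • X) := by
    rw [mul_add, mul_one, mul_smul_comm]
  rw [h6] at hm
  have h7 : (g * (1 + t • X)).det ≠ 0 := hm
  rw [det_mul] at h7
  exact left_ne_zero_of_mul h7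

theorem E_bilin {V₂ V₃ : Type*} [NormedAddCommGroup V₂] [NormedSpace ℝ V₂]
    [NormedAddCommGroup V₃] [NormedSpace ℝ V₃] (B : V →L[ℝ] V₂ →L[ℝ] V₃) {F : M2 → V}
    {G : M2 → V₂} (hF : ContDiffOn ℝ ∞ F GLo) (hG : ContDiffOn ℝ ∞ G GLo) (X : M2) {g : M2}
    (hg : g ∈ GLo) :
    E X (fun x => B (F x) (G x)) g = B (E X F g) (G g) + B (F g) (E X G g) :=
  cg_bilin GLo_open B hF hG (g * X) hg

end

end

end Pool.Agent.Work.MP_14c213_gt
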