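import Pool.Agent.Work.MP_14c213_gt.A.Calc

/-!
The Casimir operator commutes with left invariant fields and with left and right translations.
For smooth F (`hF`). Cas_E: from E_comm and [e_i,e_j] = ε_ijl r_l, [r_i,r_j] = -ε_ijl r_l,
[e_i,r_j] = -ε_ijl e_l; every X ∈ M2 is a real combination of the e_i, r_i and a complex scalar
matrix (scalar matrices are central, so E_comm gives commutation). Cas_right: h⁻¹ σ_i h = ∑_j c_ij σ_j
(trace 0) with complex c, and ∑_i c_ij c_ik = δ_jk (compare ∑_i σ_i ⊗ σ_i, or (h⁻¹σ_i h)(h⁻¹σ_k h)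
+ ... = 2δ_ik gives c cᵀ = 1 hence cᵀ c = 1); expand E_{cσ} = Re c E_σ + Im c E_{iσ}.
-/

namespace Pool.Agent.Work.MP_14c213_gt

open Matrix MeasureTheory
open scoped Matrix ContDiff Matrix.Norms.Elementwise

noncomputable section

/-! ### Pauli matrices -/

theorem casm_complete (X : M2) (hX : X.trace = 0) :
    X = ∑ j : Fin 3, ((X * pauli j.succ).trace / 2) • pauli j.succ := by
  rw [Matrix.trace_fin_two] at hX
  have h11 : X 1 1 = -X 0 0 := by linear_combination hX
  ext i j
  fin_cases i <;> fin_cases j <;>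
    simp [Fin.sum_univ_three, pauli, Matrix.trace_fin_two, Matrix.mul_apply, Fin.sum_univ_two,
      Fin.succ, h11] <;> ring_nf <;> simp [Complex.I_sq] <;> ring

theorem casm_ortho (i j : Fin 3) :
    ((pauli i.succ * pauli j.succ).trace : ℂ) = if i = j then 2 else 0 := by
  fin_cases i <;> fin_cases j <;>
    simp [pauli, Matrix.trace_fin_two, Fin.succ] <;> norm_num

theorem casm_trace (i : Fin 3) : (pauli i.succ).trace = 0 := by
  fin_cases i <;> simp [pauli, Matrix.trace_fin_two, Fin.succ]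

theorem rX_eq (i : Fin 3) : rX i = Complex.I • eX i := by
  unfold rX eX
  rw [smul_smul, div_eq_mul_inv]

theorem casm_smul_e (c : ℂ) (j : Fin 3) : c • eX j = c.re • eX j + c.im • rX j := by
  rw [rX_eq]
  conv_lhs => rw [← Complex.re_add_im c]
  rw [add_smul, mul_smul]
  rfl

theorem casm_smul_r (c : ℂ) (j : Fin 3) : c • rX j = c.re • rX j - c.im • eX j := by
  rw [rX_eq]
  conv_lhs => rw [← Complex.re_add_im c]
  rw [add_smul, mul_smul, smul_smul Complex.I Complex.I, Complex.I_mul_I, neg_one_smul, smul_neg,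
    ← sub_eq_add_neg]
  rfl

/-- conjugation coefficients -/
def casC (h : M2) (i j : Fin 3) : ℂ := (h⁻¹ * pauli i.succ * h * pauli j.succ).trace / 2

theorem casC_spec {h : M2} (hh : h ∈ GLo) (i : Fin 3) :
    h⁻¹ * pauli i.succ * h = ∑ j, casC h i j • pauli j.succ := by
  apply casm_complete
  rw [Matrix.trace_mul_comm, ← mul_assoc, mul_nonsing_inv h (isUnit_iff_ne_zero.mpr hh), one_mul]
  exact casm_trace i

theorem casC_e {h : M2} (hh : h ∈ GLo) (i : Fin 3) :
    h⁻¹ * eX i * h = ∑ j, casC h i j • eX j := by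
  unfold eX
  rw [mul_smul_comm, smul_mul_assoc, casC_spec hh, Finset.smul_sum]
  refine Finset.sum_congr rfl fun j _ => ?_
  rw [smul_comm]

theorem casC_r {h : M2} (hh : h ∈ GLo) (i : Fin 3) :
    h⁻¹ * rX i * h = ∑ j, casC h i j • rX j := by
  unfold rX
  rw [mul_smul_comm, smul_mul_assoc, casC_spec hh, Finset.smul_sum]
  refine Finset.sum_congr rfl fun j _ => ?_
  rw [smul_comm]

theorem casC_ortho {h : M2} (hh : h ∈ GLo) (j k : Fin 3) :
    ∑ i, casC h i j * casC h i k = if j = k then 1 else 0 := by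
  have hu := isUnit_iff_ne_zero.mpr (show h.det ≠ 0 from hh)
  let c : Matrix (Fin 3) (Fin 3) ℂ := Matrix.of (casC h)
  have h1 : c * cᵀ = 1 := by
    ext i l
    rw [Matrix.mul_apply, Matrix.one_apply]
    have h2 : ((h⁻¹ * pauli i.succ * h) * (h⁻¹ * pauli l.succ * h)).trace =
        if i = l then 2 else 0 := by
      rw [← casm_ortho i l, show (h⁻¹ * pauli i.succ * h) * (h⁻¹ * pauli l.succ * h) =
        h⁻¹ * (pauli i.succ * (h * h⁻¹) * pauli l.succ) * h by simp only [mul_assoc],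
        mul_nonsing_inv h hu, mul_one, Matrix.trace_mul_comm, ← mul_assoc,
        mul_nonsing_inv h hu, one_mul]
    rw [casC_spec hh, casC_spec hh, Finset.sum_mul_sum, Matrix.trace_sum] at h2
    simp only [Matrix.trace_sum, smul_mul_assoc, mul_smul_comm, Matrix.trace_smul, casm_ortho,
      smul_eq_mul, mul_ite, mul_zero, Finset.sum_ite_eq, Finset.mem_univ, if_true] at h2
    have h3 : ∑ x, c i x * cᵀ x l = (∑ x, casC h l x * (casC h i x * 2)) / 2 := by
      rw [Finset.sum_div]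
      refine Finset.sum_congr rfl fun x _ => ?_
      show casC h i x * casC h l x = _
      ring
    rw [h3, h2]
    split_ifs <;> norm_num
  have h4 : cᵀ * c = 1 := mul_eq_one_comm.mp h1
  have h5 := congrFun (congrFun h4 j) k
  rw [Matrix.mul_apply, Matrix.one_apply] at h5
  exact h5

/-- commutator coefficients -/
def casK (X : M2) (i j : Fin 3) : ℂ :=
  ((pauli i.succ * X - X * pauli i.succ) * pauli j.succ).trace / 2

theorem casK_spec (X : M2) (i : Fin 3) :
    pauli i.succ * X - X * pauli i.succ = ∑ j, casK X i j • pauli j.succ := by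
  apply casm_complete
  rw [Matrix.trace_sub, Matrix.trace_mul_comm, sub_self]

theorem casK_e (X : M2) (i : Fin 3) : eX i * X - X * eX i = ∑ j, casK X i j • eX j := by
  unfold eX
  rw [smul_mul_assoc, mul_smul_comm, ← smul_sub, casK_spec, Finset.smul_sum]
  refine Finset.sum_congr rfl fun j _ => ?_
  rw [smul_comm]

theorem casK_r (X : M2) (i : Fin 3) : rX i * X - X * rX i = ∑ j, casK X i j • rX j := by
  unfold rX
  rw [smul_mul_assoc, mul_smul_comm, ← smul_sub, casK_spec, Finset.smul_sum]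
  refine Finset.sum_congr rfl fun j _ => ?_
  rw [smul_comm]

theorem casK_anti (X : M2) (i j : Fin 3) : casK X j i = -casK X i j := by
  unfold casK
  have h1 : ((pauli i.succ * X - X * pauli i.succ) * pauli j.succ).trace =
      (X * pauli j.succ * pauli i.succ).trace - (X * pauli i.succ * pauli j.succ).trace := by
    rw [sub_mul, Matrix.trace_sub, mul_assoc, Matrix.trace_mul_comm (pauli i.succ)]
  have h2 : ((pauli j.succ * X - X * pauli j.succ) * pauli i.succ).trace =
      (X * pauli i.succ * pauli j.succ).trace - (X * pauli j.succ * pauli i.succ).trace := by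
    rw [sub_mul, Matrix.trace_sub, mul_assoc, Matrix.trace_mul_comm (pauli j.succ)]
  rw [h1, h2]
  ring

section

variable {V : Type*} [NormedAddCommGroup V] [NormedSpace ℝ V]

/-! ### The bilinear form of second derivatives -/

theorem E_dir_add (F : M2 → V) (X Y : M2) : E (X + Y) F = E X F + E Y F := by
  funext g; exact E_add_dir F X Y g

theorem E_dir_smul (F : M2 → V) (c : ℝ) (X : M2) : E (c • X) F = fun g => c • E X F g := by
  funext g; exact E_smul_dir F c X g

theorem E_smul_const {F : M2 → V} (hF : ContDiffOn ℝ ∞ F GLo) (c : ℝ) (X : M2) {g : M2}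
    (hg : g ∈ GLo) : E X (fun g => c • F g) g = c • E X F g :=
  E_clm hF (c • ContinuousLinearMap.id ℝ V) X hg

/-- second derivatives as a bilinear form in the directions -/
def casB {F : M2 → V} (hF : ContDiffOn ℝ ∞ F GLo) {g : M2} (hg : g ∈ GLo) :
    M2 →ₗ[ℝ] M2 →ₗ[ℝ] V :=
  LinearMap.mk₂ ℝ (fun X Y => E X (E Y F) g)
    (fun X X' Y => E_add_dir _ X X' g)
    (fun c X Y => E_smul_dir _ c X g)
    (fun X Y Y' => by
      rw [E_dir_add]
      exact E_add (E_smooth hF Y) (E_smooth hF Y') X hg)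
    (fun c X Y => by
      rw [E_dir_smul]
      exact E_smul_const (E_smooth hF Y) c X hg)

theorem casB_apply {F : M2 → V} (hF : ContDiffOn ℝ ∞ F GLo) {g : M2} (hg : g ∈ GLo) (X Y : M2) :
    casB hF hg X Y = E X (E Y F) g := rfl

theorem casB_sum (b : M2 →ₗ[ℝ] M2 →ₗ[ℝ] V) (u v : Fin 3 → M2) :
    b (∑ j, u j) (∑ k, v k) = ∑ j, ∑ k, b (u j) (v k) := by
  rw [map_sum]
  simp only [map_sum, LinearMap.sum_apply]
  rw [Finset.sum_comm]

theorem casB_expand (b : M2 →ₗ[ℝ] M2 →ₗ[ℝ] V) (c : Fin 3 → Fin 3 → ℂ) (i : Fin 3) :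
    -b (∑ j, c i j • eX j) (∑ j, c i j • eX j) + b (∑ j, c i j • rX j) (∑ j, c i j • rX j) =
      ∑ j, ∑ k, (-((c i j * c i k).re • (b (eX j) (eX k) - b (rX j) (rX k))) -
        (c i j * c i k).im • (b (eX j) (rX k) + b (rX j) (eX k))) := by
  rw [casB_sum, casB_sum, ← Finset.sum_neg_distrib, ← Finset.sum_add_distrib]
  refine Finset.sum_congr rfl fun j _ => ?_
  rw [← Finset.sum_neg_distrib, ← Finset.sum_add_distrib]
  refine Finset.sum_congr rfl fun k _ => ?_
  simp only [casm_smul_e, casm_smul_r, map_add, map_sub, map_smul,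
    LinearMap.add_apply, LinearMap.sub_apply, LinearMap.smul_apply, Complex.mul_re, Complex.mul_im]
  module

theorem casB_inv (b : M2 →ₗ[ℝ] M2 →ₗ[ℝ] V) (c : Fin 3 → Fin 3 → ℂ)
    (hc : ∀ j k, ∑ i, c i j * c i k = if j = k then 1 else 0) :
    -(∑ i, b (∑ j, c i j • eX j) (∑ j, c i j • eX j)) +
      ∑ i, b (∑ j, c i j • rX j) (∑ j, c i j • rX j) =
      -(∑ i, b (eX i) (eX i)) + ∑ i, b (rX i) (rX i) := by
  rw [← Finset.sum_neg_distrib, ← Finset.sum_add_distrib]
  simp only [casB_expand]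
  rw [Finset.sum_comm, ← Finset.sum_neg_distrib, ← Finset.sum_add_distrib]
  refine Finset.sum_congr rfl fun j _ => ?_
  rw [Finset.sum_comm]
  have h1 : ∀ k, ∑ i, (-((c i j * c i k).re • (b (eX j) (eX k) - b (rX j) (rX k))) -
      (c i j * c i k).im • (b (eX j) (rX k) + b (rX j) (eX k))) =
      if j = k then -(b (eX j) (eX k) - b (rX j) (rX k)) else 0 := by
    intro k
    rw [Finset.sum_sub_distrib, Finset.sum_neg_distrib, ← Finset.sum_smul, ← Finset.sum_smul,
      ← Complex.re_sum, ← Complex.im_sum, hc]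
    split_ifs <;> simp
  simp only [h1, Finset.sum_ite_eq, Finset.mem_univ, if_true]
  abel

theorem casB_zero (b : M2 →ₗ[ℝ] M2 →ₗ[ℝ] V) (c : Fin 3 → Fin 3 → ℂ)
    (hc : ∀ i j, c j i = -c i j) :
    -(∑ i, (b (∑ j, c i j • eX j) (eX i) + b (eX i) (∑ j, c i j • eX j))) +
      ∑ i, (b (∑ j, c i j • rX j) (rX i) + b (rX i) (∑ j, c i j • rX j)) = 0 := by
  have h1 : ∀ i, -(b (∑ j, c i j • eX j) (eX i) + b (eX i) (∑ j, c i j • eX j)) +
      (b (∑ j, c i j • rX j) (rX i) + b (rX i) (∑ j, c i j • rX j)) =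
      ∑ j, (-((c i j).re • (b (eX j) (eX i) + b (eX i) (eX j) - b (rX j) (rX i) -
        b (rX i) (rX j))) - (c i j).im • (b (rX j) (eX i) + b (eX i) (rX j) + b (eX j) (rX i) +
          b (rX i) (eX j))) := by
    intro i
    simp only [casm_smul_e, casm_smul_r, map_sum, LinearMap.sum_apply, map_add, map_sub, map_smul,
      LinearMap.add_apply, LinearMap.sub_apply, LinearMap.smul_apply]
    rw [← Finset.sum_add_distrib, ← Finset.sum_add_distrib, ← Finset.sum_neg_distrib,
      ← Finset.sum_add_distrib]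
    refine Finset.sum_congr rfl fun j _ => ?_
    module
  rw [← Finset.sum_neg_distrib, ← Finset.sum_add_distrib]
  simp only [h1]
  have h2 : ∀ T : Fin 3 → Fin 3 → V, (∀ i j, T j i = -T i j) → ∑ i, ∑ j, T i j = 0 := by
    intro T hT
    have h3 : ∑ i, ∑ j, T i j = -∑ i, ∑ j, T i j := by
      conv_lhs => rw [Finset.sum_comm]
      rw [← Finset.sum_neg_distrib]
      refine Finset.sum_congr rfl fun i _ => ?_
      rw [← Finset.sum_neg_distrib]
      exact Finset.sum_congr rfl fun j _ => hT i j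
    have h4 : (2 : ℝ) • ∑ i, ∑ j, T i j = 0 := by
      rw [two_smul]
      nth_rewrite 2 [h3]
      exact add_neg_cancel _
    exact (smul_eq_zero.mp h4).resolve_left two_ne_zero
  apply h2
  intro i j
  rw [hc i j, Complex.neg_re, Complex.neg_im]
  module

theorem Cas_smooth {F : M2 → V} (hF : ContDiffOn ℝ ∞ F GLo) : ContDiffOn ℝ ∞ (Cas F) GLo := by
  unfold Cas
  refine ContDiffOn.add (ContDiffOn.neg (ContDiffOn.sum fun i _ => ?_))
    (ContDiffOn.sum fun i _ => ?_)
  · exact E_smooth (E_smooth hF _) _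
  · exact E_smooth (E_smooth hF _) _

theorem Cas_eq_casB {F : M2 → V} (hF : ContDiffOn ℝ ∞ F GLo) {g : M2} (hg : g ∈ GLo) :
    Cas F g = -(∑ i, casB hF hg (eX i) (eX i)) + ∑ i, casB hF hg (rX i) (rX i) := rfl

theorem Cas_E {F : M2 → V} (hF : ContDiffOn ℝ ∞ F GLo) (X : M2) {g : M2} (hg : g ∈ GLo) :
    Cas (E X F) g = E X (Cas F) g := by
  have h1 : ∀ Y : M2, E Y (E Y (E X F)) g = E X (E Y (E Y F)) g +
      (casB hF hg (Y * X - X * Y) Y + casB hF hg Y (Y * X - X * Y)) := by
    intro Y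
    have a1 : E Y (E Y (E X F)) g = E Y (E X (E Y F) + E (Y * X - X * Y) F) g := by
      apply E_congr _ _ hg
      intro x hx
      have := E_comm hF Y X hx
      rw [Pi.add_apply, ← this]
      abel
    have a2 := E_comm (E_smooth hF Y) Y X hg
    rw [a1, E_add (E_smooth (E_smooth hF Y) X) (E_smooth hF _) Y hg, casB_apply, casB_apply,
      ← a2]
    abel
  have h2 : E X (Cas F) g = -(∑ i, E X (E (eX i) (E (eX i) F)) g) +
      ∑ i, E X (E (rX i) (E (rX i) F)) g := by
    have hsum : ∀ (G : Fin 3 → M2 → V), (∀ i, ContDiffOn ℝ ∞ (G i) GLo) →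
        E X (fun x => ∑ i, G i x) g = ∑ i, E X (G i) g := by
      intro G hG
      have e1 : (fun x => ∑ i, G i x) = (G 0 + G 1) + G 2 := by
        funext x
        rw [Fin.sum_univ_three]
        rfl
      have e3 : ContDiffOn ℝ ∞ (G 0 + G 1) GLo := (hG 0).add (hG 1)
      rw [e1, E_add e3 (hG 2) X hg, E_add (hG 0) (hG 1) X hg, Fin.sum_univ_three]
    have s1 : ∀ Y : M2, ContDiffOn ℝ ∞ (E Y (E Y F)) GLo := fun Y => E_smooth (E_smooth hF Y) Y
    have e2 : Cas F = (fun x => (-1 : ℝ) • ∑ i, E (eX i) (E (eX i) F) x) +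
        fun x => ∑ i, E (rX i) (E (rX i) F) x := by
      funext x
      show -(∑ i, E (eX i) (E (eX i) F) x) + ∑ i, E (rX i) (E (rX i) F) x = _
      rw [Pi.add_apply, neg_one_smul]
    rw [e2, E_add ((ContDiffOn.sum fun i _ => s1 (eX i)).const_smul (-1 : ℝ))
      (ContDiffOn.sum fun i _ => s1 (rX i)) X hg,
      E_smul_const (ContDiffOn.sum fun i _ => s1 (eX i)) (-1) X hg,
      hsum _ (fun i => s1 (eX i)), hsum _ (fun i => s1 (rX i)), neg_one_smul]
  rw [h2]
  show -(∑ i, E (eX i) (E (eX i) (E X F)) g) + ∑ i, E (rX i) (E (rX i) (E X F)) g = _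
  simp only [h1, Finset.sum_add_distrib]
  have h3 := casB_zero (casB hF hg) (casK X) (fun i j => casK_anti X i j)
  simp only [← casK_e, ← casK_r, Finset.sum_add_distrib] at h3
  have h4 : ∀ a b c d : V, -(a + b) + (c + d) = -a + c + (-b + d) := by intros; abel
  rw [h4, h3, add_zero]

theorem Cas_right {F : M2 → V} (hF : ContDiffOn ℝ ∞ F GLo) {g h : M2} (hg : g ∈ GLo)
    (hh : h ∈ GLo) : Cas (fun x => F (x * h)) g = Cas F (g * h) := by
  have hgh := GLo_mul hg hh
  have h1 : ∀ Y : M2, E Y (E Y (fun x => F (x * h))) g =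
      casB hF hgh (h⁻¹ * Y * h) (h⁻¹ * Y * h) := by
    intro Y
    have a1 : E Y (E Y (fun x => F (x * h))) g = E Y (fun x => E (h⁻¹ * Y * h) F (x * h)) g :=
      E_congr (fun x hx => E_right hF Y hx hh) Y hg
    rw [a1, E_right (E_smooth hF _) Y hg hh, casB_apply]
  rw [Cas_eq_casB hF hgh, ← casB_inv (casB hF hgh) (casC h) (fun j k => casC_ortho hh j k)]
  simp only [← casC_e hh, ← casC_r hh, ← h1]
  rfl

theorem Cas_left {F : M2 → V} (hF : ContDiffOn ℝ ∞ F GLo) {g h : M2} (hg : g ∈ GLo)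
    (hh : h ∈ GLo) : Cas (fun x => F (h * x)) g = Cas F (h * g) := by
  have h1 : ∀ Y : M2, E Y (E Y (fun x => F (h * x))) g = E Y (E Y F) (h * g) := by
    intro Y
    have a1 : E Y (E Y (fun x => F (h * x))) g = E Y (fun x => E Y F (h * x)) g :=
      E_congr (fun x hx => E_left hF Y hx hh) Y hg
    rw [a1, E_left (E_smooth hF _) Y hg hh]
  unfold Cas
  simp only [h1]

theorem Cas_clm {W : Type*} [NormedAddCommGroup W] [NormedSpace ℝ W] {F : M2 → V}
    (hF : ContDiffOn ℝ ∞ F GLo) (L : V →L[ℝ] W) {g : M2} (hg : g ∈ GLo) :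
    Cas (fun g => L (F g)) g = L (Cas F g) := by
  have h1 : ∀ Y : M2, E Y (E Y (fun x => L (F x))) g = L (E Y (E Y F) g) := by
    intro Y
    have a1 : E Y (E Y (fun x => L (F x))) g = E Y (fun x => L (E Y F x)) g :=
      E_congr (fun x hx => E_clm hF L Y hx) Y hg
    rw [a1, E_clm (E_smooth hF _) L Y hg]
  unfold Cas
  simp only [h1, map_add, map_neg, map_sum]

end

end

end Pool.Agent.Work.MP_14c213_gt
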