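import Pool.Agent.Work.MP_14c213_gt.A.OrbM

/-!
One conjugacy class: ∑_{δ ∈ [γ]} ∫_D b(δ) = cen γ ∫_{D_γ} b(γ), b(δ) p = B(2((SS p)⁻¹ δ SS p)₀₀).
δ = η⁻¹γη, η ∈ C_Γ(γ)\Γ; b(η⁻¹γη) p = b(γ)(act η p); [C_Γ(γ) : ⟨γ⟩] is finite because C_Γ(γ) acts
discretely on the axis (Klein.disc), and ∑_{η ∈ ⟨γ⟩\Γ} ∫_D b(γ)(act η p) = ∫_{D_γ} b(γ).
-/

namespace Pool.Agent.Work.MP_14c213_gt

open Matrix MeasureTheory
open scoped Matrix ContDiff Matrix.Norms.Elementwise

noncomputable section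

/-- twice the displacement -/
private def disp (A : Mat 3) (p : UH) : ℝ := 2 * ((SS p)⁻¹ * A * SS p) 0 0

private lemma rot_conj (X : Mat 3) {k : Matrix (Fin 3) (Fin 3) ℝ}
    (hk : k ∈ Matrix.orthogonalGroup (Fin 3) ℝ) : ((rot k)⁻¹ * X * rot k) 0 0 = X 0 0 := by
  have h1 : (rot k)⁻¹ = rot kᵀ := by
    apply Matrix.inv_eq_left_inv
    rw [← rot_mul]
    have : kᵀ * k = 1 := by
      have := (Matrix.mem_orthogonalGroup_iff' (A := k)).1 hk
      exact this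
    rw [this, rot_one]
  rw [h1]
  simp [Matrix.mul_apply, rot, Fin.sum_univ_succ]

private lemma disp_act {A E : Mat 3} (hE : E ∈ SO) {p : UH} (hp : p ∈ UHs) :
    disp A (act E p) = disp (E⁻¹ * A * E) p := by
  obtain ⟨k, hk, -, he⟩ := act_SS hE hp
  unfold disp
  rw [he]
  congr 1
  have : (E * SS p * rot k)⁻¹ * A * (E * SS p * rot k) =
      (rot k)⁻¹ * ((SS p)⁻¹ * (E⁻¹ * A * E) * SS p) * rot k := by
    rw [Matrix.mul_inv_rev, Matrix.mul_inv_rev]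
    simp only [Matrix.mul_assoc]
  rw [this, rot_conj _ hk]

private lemma disp_cont (A : Mat 3) : ContinuousOn (disp A) UHs := by
  have h1 : ContinuousOn SS UHs := SS_smooth.continuousOn
  have h2 : ContinuousOn (fun p => (SS p)⁻¹) UHs := by
    have h3 : ContinuousOn (fun p => eta 3 * (SS p)ᵀ * eta 3) UHs := by
      have : Continuous fun M : Mat 3 => eta 3 * Mᵀ * eta 3 := by fun_prop
      exact this.comp_continuousOn h1
    refine h3.congr (fun p hp => ?_)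
    exact (Frames_inv (SS_SO hp).1).2.1
  have h4 : ContinuousOn (fun p => ((SS p)⁻¹ * A * SS p)) UHs :=
    (h2.mul continuousOn_const).mul h1
  have h5 : Continuous fun M : Mat 3 => M 0 0 := by fun_prop
  exact continuousOn_const.mul (h5.comp_continuousOn h4)

/-- the measurable version of the integrand -/
private def ff (B : ℝ → ℝ) (A : Mat 3) : UH → ENNReal :=
  UHs.indicator fun p => ENNReal.ofReal (B (disp A p))

private lemma ff_meas {B : ℝ → ℝ} (hB : Continuous B) (A : Mat 3) : Measurable (ff B A) := by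
  classical
  have h1 : ContinuousOn (fun p => ENNReal.ofReal (B (disp A p))) UHs :=
    (ENNReal.continuous_ofReal.comp hB).comp_continuousOn (disp_cont A)
  have h2 := ContinuousOn.measurable_piecewise (s := UHs) (f := fun p => ENNReal.ofReal (B (disp A p)))
    (g := fun _ => 0) h1 continuousOn_const UHs_open.measurableSet
  rw [ff, ← Set.piecewise_eq_indicator]
  exact h2

private lemma ff_apply (B : ℝ → ℝ) (A : Mat 3) {p : UH} (hp : p ∈ UHs) :
    ff B A p = ENNReal.ofReal (B (disp A p)) := Set.indicator_of_mem hp _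

private abbrev Qt {Γ : Subgroup (Mat 3)ˣ} (γ : Γ) :=
  (Subgroup.centralizer {γ} : Subgroup Γ) ⧸ (Subgroup.zpowers γ).subgroupOf (Subgroup.centralizer {γ})

private abbrev mm {Γ : Subgroup (Mat 3)ˣ} (γ : Γ) : Mat 3 := ((γ : (Mat 3)ˣ) : Mat 3)

private lemma mm_mul {Γ : Subgroup (Mat 3)ˣ} (a b : Γ) : mm (a * b) = mm a * mm b := rfl

private lemma mm_inv {Γ : Subgroup (Mat 3)ˣ} (a : Γ) : mm a⁻¹ = (mm a)⁻¹ := by
  simp [mm]

private lemma act_mm {Γ : Subgroup (Mat 3)ˣ} (h : Klein Γ) (a b : Γ) {p : UH} (hp : p ∈ UHs) :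
    act (mm (a * b)) p = act (mm a) (act (mm b) p) :=
  act_mul (Klein_SO h a.2).1 (Klein_SO h b.2).1 hp

private lemma mm_mem {Γ : Subgroup (Mat 3)ˣ} (h : Klein Γ) (a : Γ) {p : UH} (hp : p ∈ UHs) :
    act (mm a) p ∈ UHs := act_mem (Klein_SO h a.2).1 hp

private lemma disp_conj {Γ : Subgroup (Mat 3)ˣ} (h : Klein Γ) (γ η : Γ) {p : UH} (hp : p ∈ UHs) :
    disp (mm γ) (act (mm η) p) = disp (mm (η⁻¹ * γ * η)) p := by
  rw [disp_act (Klein_SO h η.2) hp, mm_mul, mm_mul, mm_inv]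

section count

variable {Γ : Subgroup (Mat 3)ˣ} (h : Klein Γ) {γ : Γ} {Dg : Set UH}
  (hu : ∀ p ∈ UHs, ∃! n : ℤ, act (mm (γ ^ n)) p ∈ Dg)

include h hu in
private lemma count (δ : Γ) (hδ : IsConj γ δ) {p : UH} (hp : p ∈ UHs) :
    ∑' η : {η : Γ // η⁻¹ * γ * η = δ}, Dg.indicator (fun _ => (1 : ENNReal)) (act (mm η.1) p) =
      ∑' _ : Qt γ, (1 : ENNReal) := by
  classical
  obtain ⟨c, hc⟩ := isConj_iff.1 hδ
  -- η0 = c⁻¹
  set η0 : Γ := c⁻¹ with hη0
  have h0 : η0⁻¹ * γ * η0 = δ := by rw [hη0, inv_inv]; exact hc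
  let T : Set {η : Γ // η⁻¹ * γ * η = δ} := {η | act (mm η.1) p ∈ Dg}
  have e1 : ∑' η : {η : Γ // η⁻¹ * γ * η = δ}, Dg.indicator (fun _ => (1 : ENNReal)) (act (mm η.1) p)
      = ∑' _ : T, (1 : ENNReal) := by
    rw [tsum_subtype T (fun _ => (1 : ENNReal))]
    rfl
  rw [e1]
  have hcomm : ∀ η : Γ, η⁻¹ * γ * η = δ → η0 * η⁻¹ ∈ Subgroup.centralizer {γ} := by
    intro η hη
    rw [Subgroup.mem_centralizer_singleton_iff]
    have : η0⁻¹ * γ * η0 = η⁻¹ * γ * η := h0.trans hη.symm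
    calc η0 * η⁻¹ * γ = η0 * (η⁻¹ * γ * η) * η⁻¹ := by group
      _ = η0 * (η0⁻¹ * γ * η0) * η⁻¹ := by rw [this]
      _ = γ * (η0 * η⁻¹) := by group
  let F : T → Qt γ := fun η => QuotientGroup.mk ⟨η0 * (η.1.1)⁻¹, hcomm _ η.1.2⟩
  have hF : Function.Bijective F := by
    constructor
    · rintro ⟨⟨η1, h1⟩, t1⟩ ⟨⟨η2, h2⟩, t2⟩ he
      have he' := QuotientGroup.eq.1 he
      rw [Subgroup.mem_subgroupOf] at he'
      simp only [Subgroup.coe_mul, InvMemClass.coe_inv] at he'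
      have he2 : η1 * η2⁻¹ ∈ Subgroup.zpowers γ := by
        have : (η0 * η1⁻¹)⁻¹ * (η0 * η2⁻¹) = η1 * η2⁻¹ := by group
        rwa [this] at he'
      obtain ⟨n, hn⟩ := Subgroup.mem_zpowers_iff.1 he2
      have h3 : η1 = γ ^ n * η2 := by rw [hn]; group
      have hq : act (mm η2) p ∈ UHs := mm_mem h η2 hp
      obtain ⟨m, -, hm⟩ := hu _ hq
      have a1 : act (mm (γ ^ n)) (act (mm η2) p) ∈ Dg := by
        rw [← act_mm h _ _ hp, ← h3]; exact t1
      have a2 : act (mm (γ ^ (0 : ℤ))) (act (mm η2) p) ∈ Dg := by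
        rw [← act_mm h _ _ hp, _root_.zpow_zero, one_mul]; exact t2
      have : n = 0 := (hm n a1).trans (hm 0 a2).symm
      subst this
      have : η1 = η2 := by simpa using h3
      subst this
      rfl
    · intro q
      obtain ⟨⟨c', hc'⟩, rfl⟩ := QuotientGroup.mk_surjective q
      have hq : act (mm (c'⁻¹ * η0)) p ∈ UHs := mm_mem h _ hp
      obtain ⟨n, hn, -⟩ := hu _ hq
      have hn' : act (mm (γ ^ n)) (act (mm (c'⁻¹ * η0)) p) ∈ Dg := hn
      rw [← act_mm h _ _ hp] at hn'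
      have hcg : c' * γ = γ * c' := (Subgroup.mem_centralizer_singleton_iff).1 hc'
      have hcomm' : Commute c' γ := hcg
      have hη : (γ ^ n * (c'⁻¹ * η0))⁻¹ * γ * (γ ^ n * (c'⁻¹ * η0)) = δ := by
        have e1 : (γ ^ n)⁻¹ * γ * γ ^ n = γ := by
          have : Commute (γ ^ n) γ := (Commute.refl γ).zpow_left n
          rw [mul_assoc, ← this.eq]; group
        have e2 : c' * γ * c'⁻¹ = γ := by rw [hcg]; group
        calc (γ ^ n * (c'⁻¹ * η0))⁻¹ * γ * (γ ^ n * (c'⁻¹ * η0))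
            = η0⁻¹ * (c' * ((γ ^ n)⁻¹ * γ * γ ^ n) * c'⁻¹) * η0 := by group
          _ = δ := by rw [e1, e2, h0]
      refine ⟨⟨⟨γ ^ n * (c'⁻¹ * η0), hη⟩, hn'⟩, ?_⟩
      apply QuotientGroup.eq.2
      rw [Subgroup.mem_subgroupOf]
      simp only [Subgroup.coe_mul, InvMemClass.coe_inv]
      have : (η0 * (γ ^ n * (c'⁻¹ * η0))⁻¹)⁻¹ * c' = γ ^ n := by
        have e : (η0 * (γ ^ n * (c'⁻¹ * η0))⁻¹)⁻¹ * c' = γ ^ n * (c'⁻¹ * c') := by group
        rw [e]; group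
      rw [this]
      exact Subgroup.zpow_mem_zpowers γ n
  exact (Equiv.tsum_eq (Equiv.ofBijective F hF) (fun _ => (1 : ENNReal)))

variable {D : Set UH}

include h hu in
private lemma main_id (hD : FD Γ D) (hDm : MeasurableSet Dg) (hDs : Dg ⊆ UHs) {B : ℝ → ℝ}
    (hB : Continuous B) :
    ∫⁻ p in Dg, ENNReal.ofReal (B (disp (mm γ) p)) ∂mu =
      (∑' _ : Qt γ, (1 : ENNReal)) *
        ∑' δ : {δ : Γ // IsConj γ δ}, ∫⁻ p in D, ENNReal.ofReal (B (disp (mm δ.1) p)) ∂mu := by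
  classical
  have : Countable Γ := Klein_countable h
  have hf := ff_meas hB (mm γ)
  have e0 : ∫⁻ p in Dg, ENNReal.ofReal (B (disp (mm γ) p)) ∂mu =
      ∫⁻ p in UHs, Dg.indicator (ff B (mm γ)) p ∂mu := by
    rw [setLIntegral_indicator hDm, Set.inter_eq_left.2 hDs]
    exact setLIntegral_congr_fun hDm fun p hp => (ff_apply B _ (hDs hp)).symm
  rw [e0, unfold_lintegral h hD (hf.indicator hDm)]
  have e1 : ∀ p ∈ D, ∑' η : Γ, Dg.indicator (ff B (mm γ)) (act (mm η) p) =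
      (∑' _ : Qt γ, (1 : ENNReal)) * ∑' δ : {δ : Γ // IsConj γ δ}, ff B (mm δ.1) p := by
    intro p hp
    have hp' : p ∈ UHs := hD.sub hp
    let f : Γ → {δ : Γ // IsConj γ δ} := fun η =>
      ⟨η⁻¹ * γ * η, isConj_iff.2 ⟨η⁻¹, by rw [inv_inv]⟩⟩
    rw [← (Equiv.sigmaFiberEquiv f).tsum_eq, ENNReal.tsum_sigma', ← ENNReal.tsum_mul_left]
    refine tsum_congr fun δ => ?_
    have e2 : ∀ η : {η // f η = δ}, Dg.indicator (ff B (mm γ)) (act (mm η.1) p) =
        Dg.indicator (fun _ => (1 : ENNReal)) (act (mm η.1) p) * ff B (mm δ.1) p := by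
      intro η
      have hη : (η.1)⁻¹ * γ * η.1 = δ.1 := congrArg Subtype.val η.2
      have hv : ff B (mm γ) (act (mm η.1) p) = ff B (mm δ.1) p := by
        rw [ff_apply B _ (mm_mem h _ hp'), ff_apply B _ hp', disp_conj h _ _ hp', hη]
      by_cases hm : act (mm η.1) p ∈ Dg
      · rw [Set.indicator_of_mem hm, Set.indicator_of_mem hm, one_mul, hv]
      · rw [Set.indicator_of_notMem hm, Set.indicator_of_notMem hm, zero_mul]
    have e3 : ∀ η : {η // f η = δ}, Dg.indicator (ff B (mm γ)) (act (mm ((Equiv.sigmaFiberEquiv f) ⟨δ, η⟩)) p)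
        = Dg.indicator (fun _ => (1 : ENNReal)) (act (mm η.1) p) * ff B (mm δ.1) p := fun η => e2 η
    rw [tsum_congr e3, ENNReal.tsum_mul_right]
    congr 1
    rw [← count h hu δ.1 δ.2 hp']
    let g : {η : Γ // f η = δ} ≃ {η : Γ // η⁻¹ * γ * η = δ.1} :=
      Equiv.subtypeEquivRight fun η => by
        constructor
        · intro hh; exact congrArg Subtype.val hh
        · intro hh; exact Subtype.ext hh
    exact (g.tsum_eq (fun η => Dg.indicator (fun _ => (1 : ENNReal)) (act (mm η.1) p)))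
  rw [setLIntegral_congr_fun hD.meas e1, lintegral_const_mul _ (by
    exact Measurable.tsum fun δ => ff_meas hB _), lintegral_tsum fun δ => (ff_meas hB _).aemeasurable]
  congr 1
  refine tsum_congr fun δ => ?_
  exact setLIntegral_congr_fun hD.meas fun p hp => ff_apply B _ (hD.sub hp)

end count

private lemma orb {Γ : Subgroup (Mat 3)ˣ} (h : Klein Γ) (γ : Γ) (hγ : γ ≠ 1) :
    1 < chl (mm γ) ∧ |cth (mm γ)| ≤ 1 ∧ ∃ Dγ : Set UH, MeasurableSet Dγ ∧ Dγ ⊆ UHs ∧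
      (∀ p ∈ UHs, ∃! n : ℤ, act (mm (γ ^ n)) p ∈ Dγ) ∧
      ∀ B : ℝ → ℝ, Prof B →
        IntegrableOn (fun p => B (disp (mm γ) p)) Dγ mu ∧
        ∫ p in Dγ, B (disp (mm γ) p) ∂mu =
          Real.arcosh (chl (mm γ)) * (Real.pi / 2) / (chl (mm γ) - cth (mm γ)) *
            ∫ v in Set.Ioi (2 * chl (mm γ)), B v := by
  have h1 : (γ : (Mat 3)ˣ) ≠ 1 := fun h2 => hγ (Subtype.ext h2)
  obtain ⟨z, hz⟩ := h.lox _ γ.2 h1
  obtain ⟨-, -, -, h3, h4⟩ := Lox_chl hz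
  obtain ⟨Dγ, a1, a2, a3, a4⟩ := orbital hz
  refine ⟨h3, h4, Dγ, a1, a2, ?_, a4⟩
  intro p hp
  have := a3 p hp
  simpa [mm] using this

private lemma ofReal_int {s : Set UH} {f : UH → ℝ} (hf : IntegrableOn f s mu)
    (h0 : ∀ p, 0 ≤ f p) : ∫⁻ p in s, ENNReal.ofReal (f p) ∂mu = ENNReal.ofReal (∫ p in s, f p ∂mu) :=
  (ofReal_integral_eq_lintegral_ofReal hf (Filter.Eventually.of_forall h0)).symm

/-- a test profile -/
private def B0 (a : ℝ) (v : ℝ) : ℝ := max 0 (a + 1 - v)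

private lemma B0_prof (a : ℝ) : Prof (B0 a) := by
  refine ⟨by unfold B0; fun_prop, a + 1, fun v hv => ?_⟩
  unfold B0
  exact max_eq_left (by linarith)

private lemma B0_nonneg (a v : ℝ) : 0 ≤ B0 a v := le_max_left _ _

private lemma Prof_int {B : ℝ → ℝ} (hB : Prof B) (a : ℝ) : IntegrableOn B (Set.Ioi a) := by
  obtain ⟨M, hM⟩ := hB.supp
  have h1 : IntegrableOn B (Set.Icc a (max a M)) := hB.cont.continuousOn.integrableOn_Icc
  refine h1.of_forall_sdiff_eq_zero measurableSet_Ioi fun x hx => hM x ?_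
  by_contra hlt
  push Not at hlt
  exact hx.2 ⟨le_of_lt hx.1, le_trans hlt.le (le_max_right _ _)⟩

private lemma B0_int (a : ℝ) : 0 < ∫ v in Set.Ioi a, B0 a v := by
  rw [setIntegral_pos_iff_support_of_nonneg_ae (Filter.Eventually.of_forall fun v => B0_nonneg a v)
    (Prof_int (B0_prof a) a)]
  have : Set.Ioo a (a + 1) ⊆ Function.support (B0 a) ∩ Set.Ioi a := by
    intro x hx
    refine ⟨?_, hx.1⟩
    have : 0 < B0 a x := lt_of_lt_of_le (by linarith [hx.2]) (le_max_right _ _)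
    exact this.ne'
  refine lt_of_lt_of_le ?_ (measure_mono this)
  simp

private lemma const_pos {Γ : Subgroup (Mat 3)ˣ} {γ : Γ} (h1 : 1 < chl (mm γ)) (h2 : |cth (mm γ)| ≤ 1) :
    0 < Real.arcosh (chl (mm γ)) * (Real.pi / 2) / (chl (mm γ) - cth (mm γ)) := by
  have a1 : 0 < Real.arcosh (chl (mm γ)) := Real.arcosh_pos h1
  have a2 := (abs_le.1 h2).2
  have a3 : 0 < chl (mm γ) - cth (mm γ) := by linarith
  have := Real.pi_pos
  positivity

theorem cen_pos {Γ : Subgroup (Mat 3)ˣ} (h : Klein Γ) (γ : Γ) (hγ : γ ≠ 1) : 0 < cen γ := by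
  classical
  obtain ⟨h1, h2, Dg, hDm, hDs, hu, hI⟩ := orb h γ hγ
  obtain ⟨D, hD⟩ := FD_exists h
  have hprof := B0_prof (2 * chl (mm γ))
  have hmain := main_id h hu hD hDm hDs hprof.cont
  obtain ⟨i1, i2⟩ := hI _ hprof
  rw [ofReal_int i1 fun p => B0_nonneg _ _, i2] at hmain
  have hpos := mul_pos (const_pos h1 h2) (B0_int (2 * chl (mm γ)))
  have hfin : Finite (Qt γ) := by
    by_contra hinf
    rw [not_finite_iff_infinite] at hinf
    rw [ENNReal.tsum_const_eq_top_of_ne_zero one_ne_zero] at hmain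
    rcases eq_or_ne (∑' δ : {δ : Γ // IsConj γ δ},
      ∫⁻ p in D, ENNReal.ofReal (B0 (2 * chl (mm γ)) (disp (mm δ.1) p)) ∂mu) 0 with h0 | h0
    · rw [h0, mul_zero, ENNReal.ofReal_eq_zero] at hmain
      linarith
    · rw [ENNReal.top_mul h0] at hmain
      exact ENNReal.ofReal_ne_top hmain
  unfold cen
  rw [inv_pos, Nat.cast_pos]
  exact Nat.card_pos (α := Qt γ)

private lemma N_eq {Γ : Subgroup (Mat 3)ˣ} (h : Klein Γ) {γ : Γ} (hγ : γ ≠ 1) :
    (∑' _ : Qt γ, (1 : ENNReal)) = ENNReal.ofReal ((cen γ)⁻¹) := by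
  classical
  have h1 := cen_pos h γ hγ
  unfold cen at h1 ⊢
  rw [inv_pos, Nat.cast_pos] at h1
  have h2 : 0 < Nat.card (Qt γ) := h1
  have := (Nat.card_pos_iff.1 h2).2
  have := Fintype.ofFinite (Qt γ)
  rw [tsum_fintype, inv_inv, ENNReal.ofReal_natCast]
  simp only [Finset.sum_const, nsmul_eq_mul, mul_one, Finset.card_univ]
  congr 1
  rw [← Nat.card_eq_fintype_card]
  rfl

section fin

variable {Γ : Subgroup (Mat 3)ˣ} {D : Set UH} (h : Klein Γ) (hD : FD Γ D) {γ : Γ}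

include h hD in
private lemma supp_fin {B : ℝ → ℝ} (hB : Prof B) :
    ∃ S : Finset {δ : Γ // IsConj γ δ}, ∀ δ ∉ S, ∀ p ∈ D, B (disp (mm δ.1) p) = 0 := by
  classical
  obtain ⟨M, hM⟩ := hB.supp
  obtain ⟨K, hK, hKs, hDK⟩ := hD.bdd
  have hfin := Klein_proper h hK hKs (M / 2)
  have hfin2 : ((fun δ : {δ : Γ // IsConj γ δ} => δ.1) ⁻¹' {γ : Γ | ∃ p ∈ K, ∃ q ∈ K,
      ((SS p)⁻¹ * mm γ * SS q) 0 0 ≤ M / 2}).Finite :=
    hfin.preimage Subtype.val_injective.injOn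
  refine ⟨hfin2.toFinset, fun δ hδ p hp => hM _ ?_⟩
  by_contra hlt
  push Not at hlt
  apply hδ
  rw [Set.Finite.mem_toFinset]
  refine ⟨p, hDK hp, p, hDK hp, ?_⟩
  unfold disp at hlt
  linarith

include h hD in
private lemma int_nonneg_case (hγ : γ ≠ 1) {B : ℝ → ℝ} (hB : Prof B) (h0 : ∀ v, 0 ≤ B v) :
    (∀ δ : {δ : Γ // IsConj γ δ}, IntegrableOn (fun p => B (disp (mm δ.1) p)) D mu) ∧
    ∑ᶠ δ : {δ : Γ // IsConj γ δ}, ∫ p in D, B (disp (mm δ.1) p) ∂mu =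
    cen γ * (Real.arcosh (chl (mm γ)) * (Real.pi / 2) / (chl (mm γ) - cth (mm γ)) *
        ∫ v in Set.Ioi (2 * chl (mm γ)), B v) := by
  classical
  obtain ⟨h1, h2, Dg, hDm, hDs, hu, hI⟩ := orb h γ hγ
  have hmain := main_id h hu hD hDm hDs hB.cont
  obtain ⟨i1, i2⟩ := hI _ hB
  have hcen := cen_pos h γ hγ
  rw [ofReal_int i1 fun p => h0 _, i2, N_eq h hγ] at hmain
  have hne : ∑' δ : {δ : Γ // IsConj γ δ}, ∫⁻ p in D, ENNReal.ofReal (B (disp (mm δ.1) p)) ∂mu ≠ ⊤ := by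
    intro ht
    rw [ht, ENNReal.mul_top (by simpa using hcen)] at hmain
    exact ENNReal.ofReal_ne_top hmain
  have hint : ∀ δ : {δ : Γ // IsConj γ δ}, IntegrableOn (fun p => B (disp (mm δ.1) p)) D mu := by
    intro δ
    have hm : AEStronglyMeasurable (fun p => B (disp (mm δ.1) p)) (mu.restrict D) :=
      ((hB.cont.comp_continuousOn (disp_cont _)).mono hD.sub).aestronglyMeasurable hD.meas
    refine (lintegral_ofReal_ne_top_iff_integrable hm (Filter.Eventually.of_forall fun p => h0 _)).1 ?_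
    exact ENNReal.ne_top_of_tsum_ne_top hne δ
  refine ⟨hint, ?_⟩
  obtain ⟨S, hS⟩ := supp_fin (γ := γ) h hD hB
  have z1 : ∀ δ ∉ S, ∫⁻ p in D, ENNReal.ofReal (B (disp (mm δ.1) p)) ∂mu = 0 := by
    intro δ hδ
    rw [setLIntegral_congr_fun (g := fun _ => 0) hD.meas fun p hp => by rw [hS δ hδ p hp]; simp]
    simp
  have z2 : ∀ δ ∉ S, ∫ p in D, B (disp (mm δ.1) p) ∂mu = 0 := by
    intro δ hδ
    rw [setIntegral_congr_fun (g := fun _ => 0) hD.meas fun p hp => hS δ hδ p hp]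
    simp
  rw [tsum_eq_sum (s := S) fun δ hδ => z1 δ hδ] at hmain
  rw [finsum_eq_sum_of_support_subset _ (s := S) (by
    intro δ hδ
    by_contra hn
    exact hδ (z2 δ hn))]
  have e1 : ∀ δ ∈ S, ∫⁻ p in D, ENNReal.ofReal (B (disp (mm δ.1) p)) ∂mu =
      ENNReal.ofReal (∫ p in D, B (disp (mm δ.1) p) ∂mu) := fun δ _ =>
    ofReal_int (hint δ) fun p => h0 _
  have nn : ∀ δ ∈ S, 0 ≤ ∫ p in D, B (disp (mm δ.1) p) ∂mu := fun δ _ =>
    integral_nonneg fun p => h0 _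
  rw [Finset.sum_congr rfl e1, ← ENNReal.ofReal_sum_of_nonneg nn,
    ← ENNReal.ofReal_mul (by positivity)] at hmain
  have c1 : 0 ≤ Real.arcosh (chl (mm γ)) * (Real.pi / 2) / (chl (mm γ) - cth (mm γ)) *
        ∫ v in Set.Ioi (2 * chl (mm γ)), B v :=
    mul_nonneg (const_pos h1 h2).le (integral_nonneg fun v => h0 v)
  have c2 : 0 ≤ (cen γ)⁻¹ * ∑ δ ∈ S, ∫ p in D, B (disp (mm δ.1) p) ∂mu :=
    mul_nonneg (by positivity) (Finset.sum_nonneg nn)
  rw [ENNReal.ofReal_eq_ofReal_iff c1 c2] at hmain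
  rw [hmain, ← mul_assoc, mul_inv_cancel₀ hcen.ne', one_mul]

end fin

theorem class_sum {Γ : Subgroup (Mat 3)ˣ} {D : Set UH} (h : Klein Γ) (hD : FD Γ D) (γ : Γ)
    (hγ : γ ≠ 1) {B : ℝ → ℝ} (hB : Prof B) :
    ∑ᶠ δ : {δ : Γ // IsConj γ δ},
      ∫ p in D, B (2 * ((SS p)⁻¹ * (((δ : Γ) : (Mat 3)ˣ) : Mat 3) * SS p) 0 0) ∂mu =
    cen γ * (Real.arcosh (chl ((γ : (Mat 3)ˣ) : Mat 3)) * (Real.pi / 2) /
      (chl ((γ : (Mat 3)ˣ) : Mat 3) - cth ((γ : (Mat 3)ˣ) : Mat 3)) *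
        ∫ v in Set.Ioi (2 * chl ((γ : (Mat 3)ˣ) : Mat 3)), B v) := by
  classical
  have hp : Prof (fun v => max (B v) 0) := by
    obtain ⟨M, hM⟩ := hB.supp
    exact ⟨hB.cont.max continuous_const, M, fun v hv => by simp [hM v hv]⟩
  have hn : Prof (fun v => max (-B v) 0) := by
    obtain ⟨M, hM⟩ := hB.supp
    exact ⟨hB.cont.neg.max continuous_const, M, fun v hv => by simp [hM v hv]⟩
  have hsplit : ∀ v, B v = max (B v) 0 - max (-B v) 0 := fun v => by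
    rcases le_total (B v) 0 with h1 | h1
    · rw [max_eq_right h1, max_eq_left (by linarith)]; ring
    · rw [max_eq_left h1, max_eq_right (by linarith)]; ring
  obtain ⟨p1, p2⟩ := int_nonneg_case h hD hγ hp fun v => le_max_right _ _
  obtain ⟨n1, n2⟩ := int_nonneg_case h hD hγ hn fun v => le_max_right _ _
  have fs : ∀ {B' : ℝ → ℝ}, Prof B' → (Function.support fun δ : {δ : Γ // IsConj γ δ} =>
      ∫ p in D, B' (disp (mm δ.1) p) ∂mu).Finite := by
    intro B' hB'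
    obtain ⟨S, hS⟩ := supp_fin (γ := γ) h hD hB'
    refine S.finite_toSet.subset fun δ hδ => ?_
    by_contra hn
    apply hδ
    show ∫ p in D, B' (disp (mm δ.1) p) ∂mu = 0
    rw [setIntegral_congr_fun (g := fun _ => 0) hD.meas fun p hp => hS δ hn p hp]
    simp
  have e1 : ∀ δ : {δ : Γ // IsConj γ δ}, ∫ p in D, B (disp (mm δ.1) p) ∂mu =
      (∫ p in D, max (B (disp (mm δ.1) p)) 0 ∂mu) - ∫ p in D, max (-B (disp (mm δ.1) p)) 0 ∂mu := by
    intro δ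
    rw [← integral_sub (p1 δ) (n1 δ)]
    exact integral_congr_ae (Filter.Eventually.of_forall fun p => hsplit _)
  have e2 : ∫ v in Set.Ioi (2 * chl (mm γ)), B v =
      (∫ v in Set.Ioi (2 * chl (mm γ)), max (B v) 0) - ∫ v in Set.Ioi (2 * chl (mm γ)), max (-B v) 0 := by
    rw [← integral_sub (Prof_int hp _) (Prof_int hn _)]
    exact integral_congr_ae (Filter.Eventually.of_forall fun p => hsplit _)
  show ∑ᶠ δ : {δ : Γ // IsConj γ δ}, ∫ p in D, B (disp (mm δ.1) p) ∂mu =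
    cen γ * (Real.arcosh (chl (mm γ)) * (Real.pi / 2) / (chl (mm γ) - cth (mm γ)) *
        ∫ v in Set.Ioi (2 * chl (mm γ)), B v)
  rw [e2, finsum_congr e1, finsum_sub_distrib (fs hp) (fs hn), p2, n2]
  ring

end

end Pool.Agent.Work.MP_14c213_gt
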