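import Pool.Agent.Work.MP_14c213_gt.A.LoxM

/-!
Klein Γ → IsClosedHyp 3 Γ. Points of Hyp 3 are the first columns of SS p, p ∈ UHs
(p = ((v1 - i v2)/(v0 - v3), 1/(v0 - v3))). Properness: γ x = y with x, y ∈ K bounds γ 0 0.
-/

namespace Pool.Agent.Work.MP_14c213_gt

open Matrix MeasureTheory
open scoped Matrix ContDiff Matrix.Norms.Elementwise

noncomputable section

private lemma hyp_eq {v : Fin 4 → ℝ} (hv : v ∈ Hyp 3) :
    v 0 ^ 2 = 1 + v 1 ^ 2 + v 2 ^ 2 + v 3 ^ 2 ∧ 0 < v 0 := by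
  obtain ⟨h1, h2⟩ := hv
  refine ⟨?_, h2⟩
  simp [eta, Matrix.mulVec_diagonal, dotProduct, Fin.sum_univ_succ, Fin.cons] at h1
  linarith

theorem Hyp_coord {v : Fin 4 → ℝ} (hv : v ∈ Hyp 3) :
    ∃ p ∈ UHs, ∀ a, SS p a 0 = v a := by
  obtain ⟨h1, h2⟩ := hyp_eq hv
  have h3 : 0 < v 0 - v 3 := by
    nlinarith [sq_nonneg (v 1), sq_nonneg (v 2), sq_nonneg (v 0 + v 3)]
  set s := v 0 - v 3 with hs
  set x : ℂ := ⟨v 1 / s, -(v 2 / s)⟩ with hx
  have hp : ((x, 1 / s) : UH) ∈ UHs := by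
    show 0 < 1 / s
    positivity
  refine ⟨(x, 1 / s), hp, ?_⟩
  obtain ⟨c0, c1, c2, c3⟩ := SS_col hp
  have hn : ‖x‖ ^ 2 = (v 1 / s) ^ 2 + (v 2 / s) ^ 2 := by
    rw [← Complex.normSq_eq_norm_sq, Complex.normSq_apply, hx]
    ring
  have hv0 : v 0 = s + v 3 := by rw [hs]; ring
  have hkey : 1 + v 1 ^ 2 + v 2 ^ 2 = s * (s + 2 * v 3) := by
    rw [hv0] at h1
    linear_combination -h1
  intro a
  fin_cases a
  · show SS (x, 1 / s) 0 0 = v 0
    rw [c0]
    simp only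
    rw [hn]
    field_simp
    rw [hv0]
    linear_combination hkey
  · show SS (x, 1 / s) 1 0 = v 1
    rw [c1]
    simp only [hx]
    field_simp
  · show SS (x, 1 / s) 2 0 = v 2
    rw [c2]
    simp only [hx]
    field_simp
  · show SS (x, 1 / s) 3 0 = v 3
    rw [c3]
    simp only
    rw [hn]
    field_simp
    linear_combination hkey

private lemma col_Hyp {A : Mat 3} (hA : A ∈ Frames 3) : (fun a => A a 0) ∈ Hyp 3 := by
  obtain ⟨h1, h2⟩ := hA
  refine ⟨?_, h2⟩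
  have h3 := congrFun (congrFun h1 0) 0
  have h4 : (fun a => A a 0) ⬝ᵥ (eta 3 *ᵥ fun a => A a 0) = (Aᵀ * eta 3 * A) 0 0 := by
    rw [Matrix.mul_assoc, Matrix.mul_apply]
    simp only [dotProduct, Matrix.transpose_apply]
    refine Finset.sum_congr rfl fun a _ => ?_
    congr 1
  rw [h4, h3]
  simp [eta]

private lemma mul00C {A B : Mat 3} (hA : A ∈ Frames 3) (hB : B ∈ Frames 3) :
    (A * B) 0 0 ≤ 4 * (A 0 0 * B 0 0) := by
  rw [Matrix.mul_apply]
  have h1 : ∀ a : Fin 4, A 0 a * B a 0 ≤ A 0 0 * B 0 0 := by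
    intro a
    have hA1 := Frames_one_le hA
    calc A 0 a * B a 0 ≤ |A 0 a * B a 0| := le_abs_self _
      _ = |A 0 a| * |B a 0| := abs_mul _ _
      _ ≤ A 0 0 * B 0 0 := mul_le_mul (Frames_entry hA 0 a) (Frames_entry hB a 0) (abs_nonneg _)
          (by linarith)
  calc ∑ a : Fin 4, A 0 a * B a 0 ≤ ∑ _a : Fin 4, A 0 0 * B 0 0 := Finset.sum_le_sum fun a _ => h1 a
    _ = 4 * (A 0 0 * B 0 0) := by
        rw [Finset.sum_const, Finset.card_univ, Fintype.card_fin, nsmul_eq_mul]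
        norm_num

private lemma mulVec_col (A B : Mat 3) {x : Fin 4 → ℝ} (h : ∀ a, B a 0 = x a) :
    A *ᵥ x = fun a => (A * B) a 0 := by
  funext a
  rw [Matrix.mulVec, Matrix.mul_apply, dotProduct]
  exact Finset.sum_congr rfl fun b _ => by rw [h b]

theorem closed_of_Klein {Γ : Subgroup (Mat 3)ˣ} (h : Klein Γ) : IsClosedHyp 3 Γ := by
  refine ⟨fun γ hγ => (Klein_SO h hγ).1, ?_, ?_, ?_⟩
  · -- properness
    intro K hK hKc
    obtain ⟨M, hM⟩ := hKc.isBounded.exists_norm_le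
    refine (h.disc (4 * (|M| * |M|))).subset ?_
    rintro γ ⟨hγ, x, hx, hy⟩
    refine ⟨hγ, ?_⟩
    obtain ⟨p, hp, hpx⟩ := Hyp_coord (hK hx)
    have hF : (γ : Mat 3) * SS p ∈ Frames 3 := Frames_mul (Klein_SO h hγ).1 (SS_SO hp).1
    obtain ⟨i1, -, i3, i4, i5⟩ := Frames_inv (SS_SO hp).1
    have e1 : (γ : Mat 3) = (γ : Mat 3) * SS p * (SS p)⁻¹ := by
      rw [Matrix.mul_assoc, i4, Matrix.mul_one]
    have b1 := mul00C hF i1
    rw [← e1, i3] at b1
    have e2 : ((γ : Mat 3) * SS p) 0 0 = ((γ : Mat 3) *ᵥ x) 0 := by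
      rw [mulVec_col _ _ hpx]
    have c1 : ((γ : Mat 3) * SS p) 0 0 ≤ |M| := by
      rw [e2]
      exact (le_abs_self _).trans ((norm_le_pi_norm _ 0).trans ((hM _ hy).trans (le_abs_self M)))
    have c2 : SS p 0 0 ≤ |M| := by
      rw [hpx 0]
      exact (le_abs_self _).trans ((norm_le_pi_norm _ 0).trans ((hM _ hx).trans (le_abs_self M)))
    have d1 := Frames_one_le hF
    have d2 := Frames_one_le (SS_SO hp).1
    calc (γ : Mat 3) 0 0 ≤ 4 * (((γ : Mat 3) * SS p) 0 0 * SS p 0 0) := b1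
      _ ≤ 4 * (|M| * |M|) := by gcongr
  · -- freeness
    intro γ hγ x hx hfix
    by_contra hne
    obtain ⟨z, hz⟩ := h.lox γ hγ hne
    obtain ⟨p, hp, hpx⟩ := Hyp_coord hx
    apply Lox_free hz hp
    have e1 : ∀ a, ((γ : Mat 3) * SS p) a 0 = SS p a 0 := by
      intro a
      have := congrFun (mulVec_col (γ : Mat 3) (SS p) hpx) a
      rw [← this, hfix, hpx a]
    rw [act, cor_col e1, cor_SS hp]
  · -- cocompactness
    obtain ⟨R, hR⟩ := h.coc
    refine ⟨{x | x ∈ Hyp 3 ∧ x 0 ≤ R}, fun x hx => hx.1, ?_, ?_⟩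
    · have hcl : IsClosed {x : Fin 4 → ℝ | x ∈ Hyp 3 ∧ x 0 ≤ R} := by
        have e : {x : Fin 4 → ℝ | x ∈ Hyp 3 ∧ x 0 ≤ R} =
            {x : Fin 4 → ℝ | x ⬝ᵥ (eta 3 *ᵥ x) = -1} ∩ ({x | 0 ≤ x 0} ∩ {x | x 0 ≤ R}) := by
          ext x
          constructor
          · rintro ⟨⟨h1, h2⟩, h3⟩
            exact ⟨h1, h2.le, h3⟩
          · rintro ⟨h1, h2, h3⟩
            refine ⟨⟨h1, ?_⟩, h3⟩
            have h1' : x ⬝ᵥ (eta 3 *ᵥ x) = -1 := h1
            have h2' : 0 ≤ x 0 := h2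
            simp [eta, Matrix.mulVec_diagonal, dotProduct, Fin.sum_univ_succ, Fin.cons] at h1'
            rcases h2'.lt_or_eq with h4 | h4
            · exact h4
            · exfalso
              rw [← h4] at h1'
              nlinarith [sq_nonneg (x 1), sq_nonneg (x 2), sq_nonneg (x 3)]
        rw [e]
        refine IsClosed.inter ?_ (IsClosed.inter ?_ ?_)
        · refine isClosed_eq ?_ continuous_const
          simp only [eta, Matrix.mulVec_diagonal, dotProduct]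
          fun_prop
        · exact isClosed_le continuous_const (continuous_apply 0)
        · exact isClosed_le (continuous_apply 0) continuous_const
      refine Metric.isCompact_of_isClosed_isBounded hcl ?_
      rw [Metric.isBounded_iff_subset_closedBall 0] 
      refine ⟨|R|, ?_⟩
      rintro x ⟨hx, hxR⟩
      rw [mem_closedBall_zero_iff, pi_norm_le_iff_of_nonneg (abs_nonneg R)]
      obtain ⟨h1, h2⟩ := hyp_eq hx
      have h3 : x 0 ≤ |R| := hxR.trans (le_abs_self R)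
      intro a
      rw [Real.norm_eq_abs]
      refine le_trans ?_ h3
      refine abs_le_of_sq_le_sq ?_ h2.le
      fin_cases a
      · exact le_refl _
      · show x 1 ^ 2 ≤ x 0 ^ 2
        nlinarith [sq_nonneg (x 2), sq_nonneg (x 3)]
      · show x 2 ^ 2 ≤ x 0 ^ 2
        nlinarith [sq_nonneg (x 1), sq_nonneg (x 3)]
      · show x 3 ^ 2 ≤ x 0 ^ 2
        nlinarith [sq_nonneg (x 1), sq_nonneg (x 2)]
    · intro x hx
      obtain ⟨p, hp, hpx⟩ := Hyp_coord hx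
      obtain ⟨γ, hγ, hγR⟩ := hR _ (SS_SO hp).1
      refine ⟨γ, hγ, ?_, ?_⟩
      · rw [mulVec_col _ _ hpx]
        exact col_Hyp (Frames_mul (Klein_SO h hγ).1 (SS_SO hp).1)
      · rw [mulVec_col _ _ hpx]
        exact hγR

end

end Pool.Agent.Work.MP_14c213_gt
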