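import Pool.Agent.Work.MP_14c213_gt.A.ActM

/-!
Hyperbolic volume is invariant. SO is generated by Phi of upper triangular matrices and
!![0, 1; 1, 0] (Bruhat); in coordinates these are (x, t) ↦ (a x + b, |a| t) and
(x, t) ↦ (conj x, t)/(|x|²+t²), whose Jacobians are computed explicitly.
-/

namespace Pool.Agent.Work.MP_14c213_gt

open Matrix MeasureTheory
open scoped Matrix ContDiff Matrix.Norms.Elementwise

noncomputable section

private theorem ct2 (a b c d : ℂ) : (!![a, b; c, d] : M2)ᴴ = !![star a, star c; star b, star d] := by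
  ext i j; fin_cases i <;> fin_cases j <;> rfl

private theorem pauli0 : pauli 0 = !![1, 0; 0, 1] := rfl
private theorem pauli1 : pauli 1 = !![0, 1; 1, 0] := rfl
private theorem pauli2 : pauli 2 = !![0, -Complex.I; Complex.I, 0] := rfl
private theorem pauli3 : pauli 3 = !![1, 0; 0, -1] := rfl

private theorem cor_Phi_aux (a b c d : ℂ) (hm : a * d - b * c ≠ 0) :
    cor (Phi !![a, b; c, d]) = ((a * star c + b * star d) /
      ((‖c‖ ^ 2 + ‖d‖ ^ 2 : ℝ) : ℂ), ‖a * d - b * c‖ / (‖c‖ ^ 2 + ‖d‖ ^ 2)) := by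
  have hd : ‖a * d - b * c‖ ≠ 0 := norm_ne_zero_iff.2 hm
  have hr : ‖c‖ ^ 2 + ‖d‖ ^ 2 ≠ 0 := by
    intro h
    have h0 : ‖c‖ ^ 2 = 0 := le_antisymm (by nlinarith [sq_nonneg ‖d‖]) (sq_nonneg _)
    have h1 : ‖d‖ ^ 2 = 0 := le_antisymm (by nlinarith [sq_nonneg ‖c‖]) (sq_nonneg _)
    have h0' : c = 0 := norm_eq_zero.1 (pow_eq_zero_iff (two_ne_zero) |>.1 h0)
    have h1' : d = 0 := norm_eq_zero.1 (pow_eq_zero_iff (two_ne_zero) |>.1 h1)
    apply hm
    rw [h0', h1']
    ring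
  have e0 : Phi !![a, b; c, d] 0 0 - Phi !![a, b; c, d] 3 0 = (‖c‖ ^ 2 + ‖d‖ ^ 2) / ‖a * d - b * c‖ := by
    simp only [Phi, Matrix.of_apply, pauli0, pauli3, ct2, Matrix.mul_fin_two, Matrix.trace_fin_two_of,
      Matrix.det_fin_two_of, ← Complex.normSq_eq_norm_sq, Complex.normSq_apply]
    simp
    field_simp
    ring
  have e1 : ((Phi !![a, b; c, d] 1 0 : ℂ) - Complex.I * Phi !![a, b; c, d] 2 0) =
      (a * star c + b * star d) / (‖a * d - b * c‖ : ℂ) := by
    apply Complex.ext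
    · simp only [Phi, Matrix.of_apply, pauli0, pauli1, pauli2, ct2, Matrix.mul_fin_two, Matrix.trace_fin_two_of,
        Matrix.det_fin_two_of]
      simp
      field_simp
      ring
    · simp only [Phi, Matrix.of_apply, pauli0, pauli1, pauli2, ct2, Matrix.mul_fin_two, Matrix.trace_fin_two_of,
        Matrix.det_fin_two_of]
      simp
      field_simp
      ring
  unfold cor
  rw [e1]
  have e2 : ((Phi !![a, b; c, d] 0 0 : ℂ) - Phi !![a, b; c, d] 3 0) = (((‖c‖ ^ 2 + ‖d‖ ^ 2) / ‖a * d - b * c‖ : ℝ) : ℂ) := by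
    rw [← e0]; push_cast; ring
  rw [e2, e0]
  have hd' : (‖a * d - b * c‖ : ℂ) ≠ 0 := by exact_mod_cast hd
  have hr' : ((‖c‖ ^ 2 + ‖d‖ ^ 2 : ℝ) : ℂ) ≠ 0 := by exact_mod_cast hr
  refine Prod.ext ?_ ?_
  · simp only
    push_cast at hr' ⊢
    field_simp
  · simp only
    field_simp

/-- Coordinates after a Moebius transformation. -/
private theorem act_formula (a b c d : ℂ) (hm : a * d - b * c ≠ 0) {p : UH} (hp : p ∈ UHs) :
    act (Phi !![a, b; c, d]) p =
      ((a * p.2 * star (c * p.2) + (a * p.1 + b) * star (c * p.1 + d)) /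
      ((‖c * p.2‖ ^ 2 + ‖c * p.1 + d‖ ^ 2 : ℝ) : ℂ),
        ‖a * d - b * c‖ * p.2 / (‖c * p.2‖ ^ 2 + ‖c * p.1 + d‖ ^ 2)) := by
  have h0 : (0 : ℝ) < p.2 := hp
  have h1 : (!![a, b; c, d] : M2) ∈ GLo := by
    show Matrix.det _ ≠ 0
    rwa [Matrix.det_fin_two_of]
  unfold act SS
  rw [← Phi_mul h1 (sec_mem hp)]
  have h2 : (!![a, b; c, d] : M2) * sec p = !![a * p.2, a * p.1 + b; c * p.2, c * p.1 + d] := by
    unfold sec
    rw [Matrix.mul_fin_two]
    simp
  have h3 : a * p.2 * (c * p.1 + d) - (a * p.1 + b) * (c * p.2) = (a * d - b * c) * p.2 := by ring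
  have h4 : ‖(a * d - b * c) * p.2‖ = ‖a * d - b * c‖ * p.2 := by
    rw [norm_mul, Complex.norm_real, Real.norm_of_nonneg h0.le]
  rw [h2, cor_Phi_aux, h3, h4]
  rw [h3]
  exact mul_ne_zero hm (by exact_mod_cast h0.ne')

private theorem act_affine (a b : ℂ) (ha : a ≠ 0) {p : UH} (hp : p ∈ UHs) :
    act (Phi !![a, b; 0, 1]) p = (a * p.1 + b, ‖a‖ * p.2) := by
  rw [act_formula a b 0 1 (by simpa using ha) hp]
  simp

private theorem act_inv {p : UH} (hp : p ∈ UHs) :
    act (Phi !![0, 1; 1, 0]) p = (p.1.re ^ 2 + p.1.im ^ 2 + p.2 ^ 2)⁻¹ • ((star p.1, p.2) : UH) := by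
  have h0 : (0 : ℝ) < p.2 := hp
  rw [act_formula 0 1 1 0 (by simp) hp]
  have h1 : ‖(1 : ℂ) * p.2‖ ^ 2 + ‖(1 : ℂ) * p.1 + 0‖ ^ 2 = p.1.re ^ 2 + p.1.im ^ 2 + p.2 ^ 2 := by
    rw [one_mul, one_mul, add_zero, Complex.norm_real, Real.norm_of_nonneg h0.le,
      ← Complex.normSq_eq_norm_sq, Complex.normSq_apply]
    ring
  rw [h1]
  refine Prod.ext ?_ ?_
  · simp
    rw [div_eq_inv_mul]
  · simp
    rw [div_eq_inv_mul]

private def e3 : UH ≃ₗ[ℝ] (Fin 3 → ℝ) where
  toFun p := ![p.1.re, p.1.im, p.2]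
  map_add' p q := by ext i; fin_cases i <;> simp
  map_smul' c p := by ext i; fin_cases i <;> simp
  invFun v := (⟨v 0, v 1⟩, v 2)
  left_inv p := by simp
  right_inv v := by ext i; fin_cases i <;> simp

private theorem det_e3 (L : UH →L[ℝ] UH) :
    L.det = Matrix.det (Matrix.of fun i j => e3 (L (e3.symm (Pi.single j 1))) i) := by
  show LinearMap.det (L : UH →ₗ[ℝ] UH) = _
  rw [← LinearMap.det_conj (L : UH →ₗ[ℝ] UH) e3, ← LinearMap.det_toMatrix']
  congr 1


private theorem act_im {A : Mat 3} (hA : A ∈ Frames 3) : act A '' UHs = UHs := by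
  obtain ⟨hi, -, -, h1, -⟩ := Frames_inv hA
  refine Set.Subset.antisymm ?_ ?_
  · rintro _ ⟨p, hp, rfl⟩
    exact act_mem hA hp
  · intro p hp
    exact ⟨act A⁻¹ p, act_mem hi hp, by rw [← act_mul hA hi hp, h1, act_one hp]⟩

private theorem dens_meas : Measurable fun p : UH => ENNReal.ofReal (p.2 ^ (-3 : ℤ)) := by
  fun_prop

private theorem UHs_meas : MeasurableSet UHs := UHs_open.measurableSet

private theorem lint_mu {f : UH → ENNReal} {S : Set UH} (hS : MeasurableSet S)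
    (hSs : S ⊆ UHs) : ∫⁻ p in S, f p ∂mu = ∫⁻ p in S, ENNReal.ofReal (p.2 ^ (-3 : ℤ)) * f p := by
  unfold mu
  rw [restrict_withDensity hS, Measure.restrict_restrict hS, Set.inter_eq_self_of_subset_left hSs]
  rw [lintegral_withDensity_eq_lintegral_mul_non_measurable₀ _ dens_meas.aemeasurable]
  · rfl
  · exact Filter.Eventually.of_forall fun _ => ENNReal.ofReal_lt_top

theorem mu_finite {K : Set UH} (hK : IsCompact K) (hKs : K ⊆ UHs) : mu K < ⊤ := by
  have hc : ContinuousOn (fun p : UH => p.2 ^ (-3 : ℤ)) K := by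
    intro p hp
    have : 0 < p.2 := hKs hp
    exact (continuousAt_snd.zpow₀ (-3) (Or.inl this.ne')).continuousWithinAt
  obtain ⟨C, hC⟩ := hK.bddAbove_image hc
  have h1 : mu K = ∫⁻ p in K, ENNReal.ofReal (p.2 ^ (-3 : ℤ)) * 1 := by
    rw [← lint_mu hK.measurableSet hKs]; simp
  rw [h1]
  calc ∫⁻ p in K, ENNReal.ofReal (p.2 ^ (-3 : ℤ)) * 1
      ≤ ∫⁻ p in K, ENNReal.ofReal C := by
        refine setLIntegral_mono measurable_const fun p hp => ?_
        rw [mul_one]
        exact ENNReal.ofReal_le_ofReal (hC ⟨p, hp, rfl⟩)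
    _ = ENNReal.ofReal C * volume K := by simp
    _ < ⊤ := ENNReal.mul_lt_top ENNReal.ofReal_lt_top hK.measure_lt_top

theorem mu_pos {U : Set UH} (hU : IsOpen U) (hUs : U ⊆ UHs) (hne : U.Nonempty) : 0 < mu U := by
  have h1 : mu U = ∫⁻ p in U, ENNReal.ofReal (p.2 ^ (-3 : ℤ)) := by
    have := lint_mu (f := fun _ => 1) hU.measurableSet hUs
    simpa using this
  rw [h1, setLIntegral_pos_iff dens_meas]
  refine lt_of_lt_of_le (hU.measure_pos volume hne) (measure_mono fun p hp => ⟨?_, hp⟩)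
  have : 0 < p.2 := hUs hp
  simp only [Function.mem_support, ne_eq, ENNReal.ofReal_eq_zero, not_le]
  positivity

theorem mu_compl : mu UHsᶜ = 0 := by
  unfold mu
  refine withDensity_absolutelyContinuous _ _ ?_
  rw [Measure.restrict_apply UHs_meas.compl]
  simp

private theorem haarUH : (volume : Measure UH).IsAddHaarMeasure :=
  Measure.prod.instIsAddHaarMeasure _ _

/-- A self map of `UHs` with the right Jacobian preserves `mu`. -/
private theorem cv {A : Mat 3} (hA : A ∈ Frames 3) {φ : UH → UH} {φ' : UH → UH →L[ℝ] UH}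
    (hφ : ∀ p ∈ UHs, act A p = φ p)
    (hd : ∀ p ∈ UHs, HasFDerivAt φ (φ' p) p)
    (hj : ∀ p ∈ UHs, |(φ' p).det| * (φ p).2 ^ (-3 : ℤ) = p.2 ^ (-3 : ℤ)) (f : UH → ENNReal) :
    ∫⁻ p in UHs, f (act A p) ∂mu = ∫⁻ p in UHs, f p ∂mu := by
  have := haarUH
  rw [lint_mu UHs_meas subset_rfl, lint_mu UHs_meas subset_rfl]
  conv_rhs => rw [← act_im hA]
  rw [lintegral_image_eq_lintegral_abs_det_fderiv_mul volume UHs_meas
    (fun p hp => (hd p hp).hasFDerivWithinAt.congr hφ (hφ p hp)) (act_injOn hA)]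
  refine setLIntegral_congr_fun UHs_meas fun p hp => ?_
  rw [← mul_assoc, ← ENNReal.ofReal_mul (abs_nonneg _), hφ p hp, hj p hp]

/-- The property we want. -/
private def Pres (A : Mat 3) : Prop := ∀ f : UH → ENNReal, ∫⁻ p in UHs, f (act A p) ∂mu = ∫⁻ p in UHs, f p ∂mu

private theorem Pres.mul {A B : Mat 3} (hA : A ∈ Frames 3) (hB : B ∈ Frames 3) (h1 : Pres A)
    (h2 : Pres B) : Pres (A * B) := by
  intro f
  rw [← h1 f, ← h2 (fun p => f (act A p))]
  exact setLIntegral_congr_fun UHs_meas fun p hp => by rw [act_mul hA hB hp]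

private theorem pres_affine (a b : ℂ) (ha : a ≠ 0) : Pres (Phi !![a, b; 0, 1]) := by
  have hm : (!![a, b; 0, 1] : M2) ∈ GLo := by
    show Matrix.det _ ≠ 0
    rw [Matrix.det_fin_two_of]
    simpa using ha
  intro f
  have ha' : ‖a‖ ≠ 0 := norm_ne_zero_iff.2 ha
  refine cv (Phi_SO hm).1 (φ := fun p => (a * p.1 + b, ‖a‖ * p.2))
    (φ' := fun p => (a • ContinuousLinearMap.fst ℝ ℂ ℝ).prod (‖a‖ • ContinuousLinearMap.snd ℝ ℂ ℝ))
    (fun p hp => act_affine a b ha hp) (fun p _ => ?_) (fun p hp => ?_) f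
  · refine HasFDerivAt.prodMk ?_ ?_
    · have := ((ContinuousLinearMap.fst ℝ ℂ ℝ).hasFDerivAt (x := p)).const_mul a
      exact this.add_const b
    · exact ((ContinuousLinearMap.snd ℝ ℂ ℝ).hasFDerivAt (x := p)).const_mul ‖a‖
  · have hp0 : (0 : ℝ) < p.2 := hp
    have h1 : ((a • ContinuousLinearMap.fst ℝ ℂ ℝ).prod (‖a‖ • ContinuousLinearMap.snd ℝ ℂ ℝ)).det =
        ‖a‖ ^ 3 := by
      rw [det_e3, Matrix.det_fin_three]
      simp [e3]
      have : ‖a‖ ^ 2 = a.re ^ 2 + a.im ^ 2 := by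
        rw [← Complex.normSq_eq_norm_sq, Complex.normSq_apply]; ring
      linear_combination (-‖a‖) * this
    rw [h1, abs_of_nonneg (by positivity), mul_zpow]
    rw [_root_.zpow_neg, _root_.zpow_neg]
    norm_cast
    field_simp

private def cR : UH →L[ℝ] ℝ := Complex.reCLM.comp (ContinuousLinearMap.fst ℝ ℂ ℝ)
private def cQ : UH →L[ℝ] ℝ := Complex.imCLM.comp (ContinuousLinearMap.fst ℝ ℂ ℝ)
private def cT : UH →L[ℝ] ℝ := ContinuousLinearMap.snd ℝ ℂ ℝ
private def cC : UH →L[ℝ] UH :=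
  ((Complex.conjCLE : ℂ →L[ℝ] ℂ).comp (ContinuousLinearMap.fst ℝ ℂ ℝ)).prod
    (ContinuousLinearMap.snd ℝ ℂ ℝ)
private def cN (p : UH) : UH →L[ℝ] ℝ := (2 * p.1.re) • cR + (2 * p.1.im) • cQ + (2 * p.2) • cT

private theorem cdet (p : UH) (s u : ℝ) :
    (s • cC + ContinuousLinearMap.smulRight (u • cN p) ((star p.1, p.2) : UH)).det =
      -(s ^ 3 + 2 * s ^ 2 * u * (p.1.re ^ 2 + p.1.im ^ 2 + p.2 ^ 2)) := by
  rw [det_e3, Matrix.det_fin_three]
  simp [e3, cC, cN, cR, cQ, cT]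
  ring

private theorem pres_inv : Pres (Phi !![0, 1; 1, 0]) := by
  have hm : (!![0, 1; 1, 0] : M2) ∈ GLo := by
    show Matrix.det _ ≠ 0
    rw [Matrix.det_fin_two_of]
    simp
  intro f
  have hN : ∀ p ∈ UHs, p.1.re ^ 2 + p.1.im ^ 2 + p.2 ^ 2 ≠ 0 := by
    intro p hp
    have : (0 : ℝ) < p.2 := hp
    positivity
  have hN' : ∀ p, HasFDerivAt (fun p : UH => p.1.re ^ 2 + p.1.im ^ 2 + p.2 ^ 2) (cN p) p := by
    intro p
    have h1 : HasFDerivAt (fun p : UH => p.1.re ^ 2) ((2 * p.1.re) • cR) p := by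
      have h := (cR.hasFDerivAt (x := p)).pow 2
      simp only [Nat.add_one_sub_one, pow_one, nsmul_eq_mul, Nat.cast_ofNat] at h
      exact h
    have h2 : HasFDerivAt (fun p : UH => p.1.im ^ 2) ((2 * p.1.im) • cQ) p := by
      have h := (cQ.hasFDerivAt (x := p)).pow 2
      simp only [Nat.add_one_sub_one, pow_one, nsmul_eq_mul, Nat.cast_ofNat] at h
      exact h
    have h3 : HasFDerivAt (fun p : UH => p.2 ^ 2) ((2 * p.2) • cT) p := by
      have h := (cT.hasFDerivAt (x := p)).pow 2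
      simp only [Nat.add_one_sub_one, pow_one, nsmul_eq_mul, Nat.cast_ofNat] at h
      exact h
    exact (h1.add h2).add h3
  refine cv (Phi_SO hm).1
    (φ := fun p => (p.1.re ^ 2 + p.1.im ^ 2 + p.2 ^ 2)⁻¹ • ((star p.1, p.2) : UH))
    (φ' := fun p => (p.1.re ^ 2 + p.1.im ^ 2 + p.2 ^ 2)⁻¹ • cC +
      ContinuousLinearMap.smulRight (-((p.1.re ^ 2 + p.1.im ^ 2 + p.2 ^ 2) ^ 2)⁻¹ • cN p) ((star p.1, p.2) : UH))
    (fun p hp => act_inv hp) (fun p hp => ?_) (fun p hp => ?_) f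
  · have h1 : HasFDerivAt (fun p : UH => ((star p.1, p.2) : UH)) cC p := cC.hasFDerivAt (x := p)
    have h2 := HasDerivAt.comp_hasFDerivAt (f := fun p : UH => p.1.re ^ 2 + p.1.im ^ 2 + p.2 ^ 2) p
      (hasDerivAt_inv (hN p hp)) (hN' p)
    exact h2.smul h1
  · have hp0 : (0 : ℝ) < p.2 := hp
    have hn := hN p hp
    have hnp : 0 < p.1.re ^ 2 + p.1.im ^ 2 + p.2 ^ 2 := by positivity
    have h1 : ((p.1.re ^ 2 + p.1.im ^ 2 + p.2 ^ 2)⁻¹ • cC +
      ContinuousLinearMap.smulRight (-((p.1.re ^ 2 + p.1.im ^ 2 + p.2 ^ 2) ^ 2)⁻¹ • cN p) ((star p.1, p.2) : UH)).det =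
        ((p.1.re ^ 2 + p.1.im ^ 2 + p.2 ^ 2) ^ 3)⁻¹ := by
      rw [cdet]
      field_simp
      ring
    rw [h1, abs_of_nonneg (by positivity), Prod.smul_snd, smul_eq_mul, mul_zpow, _root_.zpow_neg, _root_.zpow_neg]
    norm_cast
    field_simp


private theorem pres_Phi {g : M2} (hg : g ∈ GLo) : Pres (Phi g) := by
  have hJ : (!![0, 1; 1, 0] : M2) ∈ GLo := by
    show Matrix.det _ ≠ 0
    rw [Matrix.det_fin_two_of]
    simp
  have haff : ∀ a b : ℂ, a ≠ 0 → (!![a, b; 0, 1] : M2) ∈ GLo := by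
    intro a b ha
    show Matrix.det _ ≠ 0
    rw [Matrix.det_fin_two_of]
    simpa using ha
  have hup : ∀ a b d : ℂ, a ≠ 0 → d ≠ 0 → (!![a, b; 0, d] : M2) ∈ GLo ∧ Pres (Phi !![a, b; 0, d]) := by
    intro a b d ha hd
    have h1 : (!![a, b; 0, d] : M2) = d • !![a / d, b / d; 0, 1] := by
      ext i j
      fin_cases i <;> fin_cases j <;> simp <;> field_simp
    constructor
    · show Matrix.det _ ≠ 0
      rw [Matrix.det_fin_two_of]
      simp [ha, hd]
    · rw [h1, Phi_smul hd]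
      exact pres_affine _ _ (div_ne_zero ha hd)
  obtain ⟨a, b, c, d, rfl⟩ : ∃ a b c d, g = !![a, b; c, d] := ⟨_, _, _, _, Matrix.eta_fin_two g⟩
  have hdet : a * d - b * c ≠ 0 := by
    have : Matrix.det (!![a, b; c, d] : M2) ≠ 0 := hg
    rwa [Matrix.det_fin_two_of] at this
  by_cases hc : c = 0
  · subst hc
    have h1 : a ≠ 0 := by rintro rfl; simp at hdet
    have h2 : d ≠ 0 := by rintro rfl; simp at hdet
    exact (hup a b d h1 h2).2
  · have hβ : b - a * d / c ≠ 0 := by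
      intro h
      apply hdet
      field_simp at h
      linear_combination -h
    have h1 : (!![a, b; c, d] : M2) = !![1, a / c; 0, 1] * (!![0, 1; 1, 0] * !![c, d; 0, b - a * d / c]) := by
      rw [Matrix.mul_fin_two, Matrix.mul_fin_two]
      ext i j
      fin_cases i <;> fin_cases j <;> simp <;> field_simp
      ring
    obtain ⟨hu, hpu⟩ := hup c d (b - a * d / c) hc hβ
    have hm2 : (!![0, 1; 1, 0] * !![c, d; 0, b - a * d / c] : M2) ∈ GLo := by
      show Matrix.det _ ≠ 0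
      rw [Matrix.det_mul]
      exact mul_ne_zero hJ hu
    rw [h1, Phi_mul (haff 1 _ one_ne_zero) hm2, Phi_mul hJ hu]
    refine Pres.mul (Phi_SO (haff 1 _ one_ne_zero)).1 ?_ (pres_affine _ _ one_ne_zero) ?_
    · rw [← Phi_mul hJ hu]; exact (Phi_SO hm2).1
    · exact Pres.mul (Phi_SO hJ).1 (Phi_SO hu).1 pres_inv hpu

private theorem pres {A : Mat 3} (hA : A ∈ SO) : Pres A := by
  obtain ⟨g, hg, rfl⟩ := Phi_surj hA
  exact pres_Phi hg

theorem act_lintegral {A : Mat 3} (hA : A ∈ SO) {f : UH → ENNReal} (hf : Measurable f) :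
    ∫⁻ p in UHs, f (act A p) ∂mu = ∫⁻ p in UHs, f p ∂mu := pres hA f

theorem act_measurable {A : Mat 3} (hA : A ∈ Frames 3) : Measurable fun p : UHs => act A (p : UH) :=
  (continuousOn_iff_continuous_domRestrict.1 (act_cont hA)).measurable

theorem act_image_measure {A : Mat 3} (hA : A ∈ SO) {S : Set UH} (hS : MeasurableSet S)
    (hSs : S ⊆ UHs) : MeasurableSet (act A '' S) ∧ mu (act A '' S) = mu S := by
  have hm : MeasurableSet (act A '' S) :=
    hS.image_of_continuousOn_injOn ((act_cont hA.1).mono hSs) ((act_injOn hA.1).mono hSs)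
  refine ⟨hm, ?_⟩
  have hsub : act A '' S ⊆ UHs := by
    rintro _ ⟨p, hp, rfl⟩
    exact act_mem hA.1 (hSs hp)
  have h := pres hA ((act A '' S).indicator 1)
  have h2 : ∫⁻ p in UHs, (act A '' S).indicator 1 p ∂mu = mu (act A '' S) := by
    rw [lintegral_indicator_one hm, Measure.restrict_apply hm, Set.inter_eq_self_of_subset_left hsub]
  have h3 : ∫⁻ p in UHs, (act A '' S).indicator 1 (act A p) ∂mu = mu S := by
    have : ∫⁻ p in UHs, (act A '' S).indicator (1 : UH → ENNReal) (act A p) ∂mu =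
        ∫⁻ p in UHs, S.indicator 1 p ∂mu := by
      refine setLIntegral_congr_fun UHs_meas fun p hp => ?_
      by_cases hpS : p ∈ S
      · simp only [Set.indicator_of_mem hpS, Set.indicator_of_mem (Set.mem_image_of_mem (act A) hpS)]
        rfl
      · have : act A p ∉ act A '' S := by
          rintro ⟨q, hq, he⟩
          exact hpS (act_injOn hA.1 (hSs hq) hp he ▸ hq)
        simp only [Set.indicator_of_notMem hpS, Set.indicator_of_notMem this]
    rw [this, lintegral_indicator_one hS, Measure.restrict_apply hS,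
      Set.inter_eq_self_of_subset_left hSs]
  rw [← h2, ← h, h3]

/-- Change of variables for Bochner integrals. -/
theorem act_integral {A : Mat 3} (hA : A ∈ SO) {W : Type*} [NormedAddCommGroup W]
    [NormedSpace ℝ W] (f : UH → W) {S : Set UH} (hS : MeasurableSet S) (hSs : S ⊆ UHs) :
    ∫ p in act A '' S, f p ∂mu = ∫ p in S, f (act A p) ∂mu := by
  classical
  let φ : UH → UH := UHs.piecewise (act A) id
  have hφ1 : ∀ p ∈ UHs, φ p = act A p := fun p hp => Set.piecewise_eq_of_mem _ _ _ hp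
  have hφ2 : ∀ p ∉ UHs, φ p = p := fun p hp => Set.piecewise_eq_of_notMem _ _ _ hp
  have hφm : Measurable φ := by
    refine measurable_of_restrict_of_restrict_compl UHs_meas ?_ ?_
    · have : UHs.domRestrict φ = fun p : UHs => act A (p : UH) := by
        ext1 p; exact hφ1 p p.2
      rw [this]
      exact act_measurable hA.1
    · have : UHsᶜ.domRestrict φ = fun p : (UHsᶜ : Set UH) => (p : UH) := by
        ext1 p; exact hφ2 p p.2
      rw [this]
      exact measurable_subtype_coe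
  have hinj : Function.Injective φ := by
    intro p q h
    by_cases hp : p ∈ UHs <;> by_cases hq : q ∈ UHs
    · rw [hφ1 p hp, hφ1 q hq] at h
      exact act_injOn hA.1 hp hq h
    · rw [hφ1 p hp, hφ2 q hq] at h
      exact absurd (h ▸ act_mem hA.1 hp) hq
    · rw [hφ2 p hp, hφ1 q hq] at h
      exact absurd (h ▸ act_mem hA.1 hq) hp
    · rwa [hφ2 p hp, hφ2 q hq] at h
  have hemb : MeasurableEmbedding φ := hφm.measurableEmbedding hinj
  have hpres : MeasurePreserving φ mu mu := by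
    refine ⟨hφm, ?_⟩
    ext T hT
    rw [Measure.map_apply hφm hT]
    have hr : ∀ X : Set UH, MeasurableSet X → mu X = mu (X ∩ UHs) := by
      intro X hX
      rw [← measure_inter_add_sdiff X UHs_meas]
      have : mu (X \ UHs) = 0 := measure_mono_null (fun _ h => h.2) mu_compl
      rw [this, add_zero]
    rw [hr _ (hφm hT), hr _ hT]
    have h1 := (act_image_measure hA (S := φ ⁻¹' T ∩ UHs) ((hφm hT).inter UHs_meas)
      Set.inter_subset_right).2
    rw [← h1]
    congr 1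
    ext q
    constructor
    · rintro ⟨p, ⟨hp1, hp2⟩, rfl⟩
      rw [Set.mem_preimage, hφ1 p hp2] at hp1
      exact ⟨hp1, act_mem hA.1 hp2⟩
    · rintro ⟨hq1, hq2⟩
      rw [← act_im hA.1] at hq2
      obtain ⟨p, hp, rfl⟩ := hq2
      exact ⟨p, ⟨by rw [Set.mem_preimage, hφ1 p hp]; exact hq1, hp⟩, rfl⟩
  have him : φ '' S = act A '' S := Set.image_congr fun p hp => hφ1 p (hSs hp)
  rw [← him, hpres.setIntegral_image_emb hemb]
  exact setIntegral_congr_fun hS fun p hp => by rw [hφ1 p (hSs hp)]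

end
end Pool.Agent.Work.MP_14c213_gt
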