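import Pool.Agent.Work.MP_14c213_gt.A.FDex

/-!
Unfolding. UHs is the disjoint union of the sets act γ '' D, γ ∈ Γ (countable).
-/

namespace Pool.Agent.Work.MP_14c213_gt

open Matrix MeasureTheory
open scoped Matrix ContDiff Matrix.Norms.Elementwise

noncomputable section

private theorem unf_inv_act {Γ : Subgroup (Mat 3)ˣ} (h : Klein Γ) {γ : (Mat 3)ˣ} (hγ : γ ∈ Γ)
    {p : UH} (hp : p ∈ UHs) : act ((γ⁻¹ : (Mat 3)ˣ) : Mat 3) (act (γ : Mat 3) p) = p := by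
  have hγ' : γ⁻¹ ∈ Γ := Γ.inv_mem hγ
  rw [← act_mul (Klein_SO h hγ').1 (Klein_SO h hγ).1 hp, ← Units.val_mul, inv_mul_cancel,
    Units.val_one, act_one hp]

private theorem unf_mul_act {Γ : Subgroup (Mat 3)ˣ} (h : Klein Γ) {γ δ : (Mat 3)ˣ} (hγ : γ ∈ Γ)
    (hδ : δ ∈ Γ) {p : UH} (hp : p ∈ UHs) :
    act ((γ * δ : (Mat 3)ˣ) : Mat 3) p = act (γ : Mat 3) (act (δ : Mat 3) p) := by
  rw [Units.val_mul, act_mul (Klein_SO h hγ).1 (Klein_SO h hδ).1 hp]

private theorem unf_union {Γ : Subgroup (Mat 3)ˣ} {D : Set UH} (h : Klein Γ) (hD : FD Γ D) :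
    UHs = ⋃ γ : Γ, act ((γ : (Mat 3)ˣ) : Mat 3) '' D := by
  apply Set.Subset.antisymm
  · intro p hp
    obtain ⟨γ, hγ, hm⟩ := hD.ex p hp
    exact Set.mem_iUnion.2 ⟨⟨γ⁻¹, Γ.inv_mem hγ⟩, act (γ : Mat 3) p, hm, unf_inv_act h hγ hp⟩
  · refine Set.iUnion_subset fun γ => ?_
    rintro _ ⟨p, hp, rfl⟩
    exact act_mem (Klein_SO h γ.2).1 (hD.sub hp)

private theorem unf_disj {Γ : Subgroup (Mat 3)ˣ} {D : Set UH} (h : Klein Γ) (hD : FD Γ D) :
    Pairwise (Function.onFun Disjoint fun γ : Γ => act ((γ : (Mat 3)ˣ) : Mat 3) '' D) := by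
  intro γ δ hne
  rw [Function.onFun, Set.disjoint_left]
  rintro _ ⟨p, hp, rfl⟩ ⟨q, hq, hqp⟩
  apply hne
  have hpU := hD.sub hp
  have hqU := hD.sub hq
  have h1 : act (((δ : (Mat 3)ˣ)⁻¹ * (γ : (Mat 3)ˣ) : (Mat 3)ˣ) : Mat 3) p = q := by
    rw [unf_mul_act h (Γ.inv_mem δ.2) γ.2 hpU, ← hqp, unf_inv_act h δ.2 hqU]
  have h2 := hD.uniq p hp _ (Γ.mul_mem (Γ.inv_mem δ.2) γ.2) (by rw [h1]; exact hq)
  exact Subtype.ext (inv_mul_eq_one.1 h2).symm

private theorem unf_meas {Γ : Subgroup (Mat 3)ˣ} {D : Set UH} (h : Klein Γ) (hD : FD Γ D) (γ : Γ) :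
    MeasurableSet (act ((γ : (Mat 3)ˣ) : Mat 3) '' D) :=
  (act_image_measure (Klein_SO h γ.2) hD.meas hD.sub).1

private theorem unf_change {A : Mat 3} (hA : A ∈ SO) {D : Set UH} (hD : MeasurableSet D)
    (hDs : D ⊆ UHs) {f : UH → ENNReal} (hf : Measurable f) :
    ∫⁻ p in act A '' D, f p ∂mu = ∫⁻ p in D, f (act A p) ∂mu := by
  have hm := (act_image_measure hA hD hDs).1
  have hsub : act A '' D ⊆ UHs := by
    rintro _ ⟨p, hp, rfl⟩
    exact act_mem hA.1 (hDs hp)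
  have h1 := act_lintegral hA (hf.indicator hm)
  rw [lintegral_indicator hm, Measure.restrict_restrict hm, Set.inter_eq_self_of_subset_left hsub]
    at h1
  rw [← h1]
  have h2 : ∫⁻ p in UHs, (act A '' D).indicator f (act A p) ∂mu =
      ∫⁻ p in UHs, D.indicator (fun p => f (act A p)) p ∂mu := by
    apply setLIntegral_congr_fun UHs_open.measurableSet
    intro p hp
    by_cases hpD : p ∈ D
    · simp only [Set.indicator_of_mem hpD]
      rw [Set.indicator_of_mem (Set.mem_image_of_mem _ hpD)]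
    · simp only [Set.indicator_of_notMem hpD]
      rw [Set.indicator_of_notMem]
      rintro ⟨q, hq, hqp⟩
      exact hpD ((act_injOn hA.1 (hDs hq) hp hqp) ▸ hq)
  rw [h2, lintegral_indicator hD, Measure.restrict_restrict hD,
    Set.inter_eq_self_of_subset_left hDs]

private theorem unf_aem {A : Mat 3} (hA : A ∈ SO) {D : Set UH} (hD : MeasurableSet D)
    (hDs : D ⊆ UHs) : AEMeasurable (act A) (mu.restrict D) :=
  ((act_cont hA.1).mono hDs).aemeasurable hD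

theorem unfold_lintegral {Γ : Subgroup (Mat 3)ˣ} {D : Set UH} (h : Klein Γ) (hD : FD Γ D)
    {f : UH → ENNReal} (hf : Measurable f) :
    ∫⁻ p in UHs, f p ∂mu = ∫⁻ p in D, ∑' γ : Γ, f (act ((γ : (Mat 3)ˣ) : Mat 3) p) ∂mu := by
  have := Klein_countable h
  have e := lintegral_tsum (μ := mu.restrict D)
    (f := fun (γ : Γ) p => f (act ((γ : (Mat 3)ˣ) : Mat 3) p))
    fun γ => hf.comp_aemeasurable (unf_aem (Klein_SO h γ.2) hD.meas hD.sub)
  rw [e]
  conv_lhs => rw [unf_union h hD]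
  rw [lintegral_iUnion (unf_meas h hD) (unf_disj h hD)]
  exact tsum_congr fun γ => unf_change (Klein_SO h γ.2) hD.meas hD.sub hf

private theorem unf_ae {Γ : Subgroup (Mat 3)ˣ} {D : Set UH} (h : Klein Γ) (hD : FD Γ D)
    {P : UH → Prop} (hP : ∀ᵐ p ∂(mu.restrict UHs), P p) (γ : Γ) :
    ∀ᵐ p ∂(mu.restrict D), P (act ((γ : (Mat 3)ˣ) : Mat 3) p) := by
  rw [ae_iff] at hP
  set N := toMeasurable (mu.restrict UHs) {p | ¬ P p} with hN
  have hNm : MeasurableSet N := measurableSet_toMeasurable _ _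
  have hN0 : mu (N ∩ UHs) = 0 := by
    have : (mu.restrict UHs) N = 0 := by rw [hN, measure_toMeasurable, hP]
    rwa [Measure.restrict_apply hNm] at this
  have him := (act_image_measure (Klein_SO h (Γ.inv_mem γ.2)) (hNm.inter UHs_open.measurableSet)
    Set.inter_subset_right).2
  rw [hN0] at him
  rw [ae_iff, Measure.restrict_apply₀']
  · refine measure_mono_null ?_ him
    rintro p ⟨hp, hpD⟩
    have hpU := hD.sub hpD
    exact ⟨act ((γ : (Mat 3)ˣ) : Mat 3) p, ⟨subset_toMeasurable _ _ hp,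
      act_mem (Klein_SO h γ.2).1 hpU⟩, unf_inv_act h γ.2 hpU⟩
  · exact hD.meas.nullMeasurableSet

theorem unfold_integral {Γ : Subgroup (Mat 3)ˣ} {D : Set UH} (h : Klein Γ) (hD : FD Γ D)
    {W : Type*} [NormedAddCommGroup W] [NormedSpace ℝ W] [CompleteSpace W] {f : UH → W}
    (hf : IntegrableOn f UHs mu) :
    ∫ p in UHs, f p ∂mu = ∫ p in D, ∑' γ : Γ, f (act ((γ : (Mat 3)ˣ) : Mat 3) p) ∂mu := by
  have := Klein_countable h
  obtain ⟨g, hg, hfg⟩ := hf.1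
  have hgi : IntegrableOn g UHs mu := hf.congr hfg
  have h0 : ∀ᵐ p ∂(mu.restrict D), ∀ γ : Γ, f (act ((γ : (Mat 3)ˣ) : Mat 3) p) =
      g (act ((γ : (Mat 3)ˣ) : Mat 3) p) := ae_all_iff.2 fun γ => unf_ae h hD hfg γ
  have h1 : ∫ p in D, ∑' γ : Γ, f (act ((γ : (Mat 3)ˣ) : Mat 3) p) ∂mu =
      ∫ p in D, ∑' γ : Γ, g (act ((γ : (Mat 3)ˣ) : Mat 3) p) ∂mu := by
    apply integral_congr_ae
    filter_upwards [h0] with p hp
    exact tsum_congr hp
  rw [h1, integral_congr_ae hfg]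
  have hm : ∀ γ : Γ, AEStronglyMeasurable (fun p => g (act ((γ : (Mat 3)ˣ) : Mat 3) p))
      (mu.restrict D) := fun γ =>
    (hg.aestronglyMeasurable (μ := (mu.restrict D).map (act ((γ : (Mat 3)ˣ) : Mat 3)))).comp_aemeasurable
      (unf_aem (Klein_SO h γ.2) hD.meas hD.sub)
  have hsum : ∑' γ : Γ, ∫⁻ p in D, ‖g (act ((γ : (Mat 3)ˣ) : Mat 3) p)‖ₑ ∂mu ≠ ⊤ := by
    have e := unfold_lintegral h hD hg.enorm
    rw [lintegral_tsum fun γ => (hm γ).enorm] at e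
    rw [← e]
    exact hgi.2.ne
  rw [integral_tsum hm hsum]
  have hU := unf_union h hD
  have hgi' : IntegrableOn g (⋃ γ : Γ, act ((γ : (Mat 3)ˣ) : Mat 3) '' D) mu := hU ▸ hgi
  have h3 := hasSum_integral_iUnion (unf_meas h hD) (unf_disj h hD) hgi'
  rw [← hU] at h3
  rw [← h3.tsum_eq]
  exact tsum_congr fun γ => act_integral (Klein_SO h γ.2) g hD.meas hD.sub

/-- Invariant functions have the same integral over all fundamental domains. -/
theorem FD_indep {Γ : Subgroup (Mat 3)ˣ} {D D' : Set UH} (h : Klein Γ) (hD : FD Γ D)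
    (hD' : FD Γ D') {f : UH → ENNReal} (hf : Measurable f)
    (hinv : ∀ γ ∈ Γ, ∀ p ∈ UHs, f (act (γ : Mat 3) p) = f p) :
    ∫⁻ p in D, f p ∂mu = ∫⁻ p in D', f p ∂mu := by
  have h1 := unfold_lintegral h hD (hf.indicator hD'.meas)
  rw [lintegral_indicator hD'.meas, Measure.restrict_restrict hD'.meas,
    Set.inter_eq_self_of_subset_left hD'.sub] at h1
  rw [h1]
  apply setLIntegral_congr_fun hD.meas
  intro p hp
  have hpU := hD.sub hp
  obtain ⟨γ, hγ, hm⟩ := hD'.ex p hpU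
  change f p = ∑' γ : Γ, D'.indicator f (act ((γ : (Mat 3)ˣ) : Mat 3) p)
  rw [tsum_eq_single (⟨γ, hγ⟩ : Γ)]
  · rw [Set.indicator_of_mem hm, hinv γ hγ p hpU]
  · intro δ hδ
    rw [Set.indicator_of_notMem]
    intro hδm
    apply hδ
    have hq := act_mem (Klein_SO h hγ).1 hpU
    have h2 : act (((δ : (Mat 3)ˣ) * γ⁻¹ : (Mat 3)ˣ) : Mat 3) (act (γ : Mat 3) p) =
        act ((δ : (Mat 3)ˣ) : Mat 3) p := by
      rw [unf_mul_act h δ.2 (Γ.inv_mem hγ) hq, unf_inv_act h hγ hpU]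
    have h3 := hD'.uniq _ hm _ (Γ.mul_mem δ.2 (Γ.inv_mem hγ)) (by rw [h2]; exact hδm)
    exact Subtype.ext (mul_inv_eq_one.1 h3)

/-- Every compact set is covered by finitely many translates of the domain, so invariant functions
are controlled on compact sets by the integral over the domain. -/
theorem FD_compact {Γ : Subgroup (Mat 3)ˣ} {D : Set UH} (h : Klein Γ) (hD : FD Γ D) {K : Set UH}
    (hK : IsCompact K) (hKs : K ⊆ UHs) :
    ∃ M : ENNReal, M < ⊤ ∧ ∀ f : UH → ENNReal, Measurable f →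
      (∀ γ ∈ Γ, ∀ p ∈ UHs, f (act (γ : Mat 3) p) = f p) →
      ∫⁻ p in K, f p ∂mu ≤ M * ∫⁻ p in D, f p ∂mu := by
  classical
  obtain ⟨K₁, hK₁, hK₁s, hDK⟩ := hD.bdd
  have hfin := Klein_proper h (hK.union hK₁) (Set.union_subset hKs hK₁s) 1
  set S := hfin.toFinset with hS
  have key : ∀ p ∈ D, ∀ γ : Γ, act ((γ : (Mat 3)ˣ) : Mat 3) p ∈ K → γ ∈ S := by
    intro p hp γ hγ
    have hpU := hD.sub hp
    rw [hS, Set.Finite.mem_toFinset]
    refine ⟨act ((γ : (Mat 3)ˣ) : Mat 3) p, Or.inl hγ, p, Or.inr (hDK hp), ?_⟩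
    obtain ⟨k, hk, -, e⟩ := act_SS (Klein_SO h γ.2) hpU
    have hF := (SS_SO (hKs hγ)).1
    have e2 : ((γ : (Mat 3)ˣ) : Mat 3) * SS p = SS (act ((γ : (Mat 3)ˣ) : Mat 3) p) * rot kᵀ := by
      rw [e, rot_transpose, Matrix.mul_assoc, ← rot_transpose, ← rot_mul]
      rw [Matrix.mem_orthogonalGroup_iff] at hk
      have hk' : k * kᵀ = 1 := hk
      rw [hk', rot_one, Matrix.mul_one]
    rw [Matrix.mul_assoc, e2, ← Matrix.mul_assoc, (Frames_inv hF).2.2.2.2, Matrix.one_mul]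
    simp [rot]
  refine ⟨(S.card : ENNReal), ENNReal.natCast_lt_top _, fun f hf hinv => ?_⟩
  have hKm := hK.measurableSet
  have h1 := unfold_lintegral h hD (hf.indicator hKm)
  rw [lintegral_indicator hKm, Measure.restrict_restrict hKm,
    Set.inter_eq_self_of_subset_left hKs] at h1
  rw [h1, ← lintegral_const_mul _ hf]
  apply setLIntegral_mono' hD.meas
  intro p hp
  have hpU := hD.sub hp
  rw [tsum_eq_sum (s := S)]
  · calc ∑ γ ∈ S, K.indicator f (act ((γ : (Mat 3)ˣ) : Mat 3) p) ≤ ∑ _γ ∈ S, f p := by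
          refine Finset.sum_le_sum fun γ _ => ?_
          refine (Set.indicator_le_self K f _).trans ?_
          rw [hinv γ γ.2 p hpU]
      _ = S.card * f p := by rw [Finset.sum_const, nsmul_eq_mul]
  · intro γ hγ
    rw [Set.indicator_of_notMem]
    exact fun hm => hγ (key p hp γ hm)

end

end Pool.Agent.Work.MP_14c213_gt
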