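import Pool.Agent.Work.MP_14c213_gt.A.RAM
import Pool.Agent.Work.MP_14c213_gt.A.MuInv
import Pool.Agent.Work.MP_14c213_gt.A.Unf

/-!
Convolution of profiles. (SS q)⁻¹ X with X ∈ SO: X = rot a * boost 3 2 r * rot b (KAK, from
Frames_eq_rot), substitute q ↦ act (rot a) q. Continuity: dominated convergence, compact support.
RA_conv: Fubini and substitution q' = act (SS q) q', i.e. SS q * SS q' = SS(act (SS q) q') rot k.
-/

namespace Pool.Agent.Work.MP_14c213_gt

open Matrix MeasureTheory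
open scoped Matrix ContDiff Matrix.Norms.Elementwise

noncomputable section

/-! ### Elementary facts -/

private theorem cvm_mulrot (X : Mat 3) (k : Matrix (Fin 3) (Fin 3) ℝ) (a : Fin 4) :
    (X * rot k) a 0 = X a 0 := by
  rw [Matrix.mul_apply, Fin.sum_univ_succ]
  simp [rot]

private theorem cvm_rotmul (X : Mat 3) (k : Matrix (Fin 3) (Fin 3) ℝ) (b : Fin 4) :
    (rot k * X) 0 b = X 0 b := by
  rw [Matrix.mul_apply, Fin.sum_univ_succ]
  simp [rot]

private theorem cvm_col (Y X X' : Mat 3) (h : ∀ a, X a 0 = X' a 0) (b : Fin 4) :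
    (Y * X) b 0 = (Y * X') b 0 := by
  rw [Matrix.mul_apply, Matrix.mul_apply]
  exact Finset.sum_congr rfl fun a _ => by rw [h a]

private theorem cvm_boost (r : ℝ) (a : Fin 4) :
    boost 3 2 r a 0 = (![Real.cosh r, 0, 0, Real.sinh r] : Fin 4 → ℝ) a := by
  fin_cases a <;> simp [boost]

private theorem cvm_boost_SO (r : ℝ) : boost 3 2 r ∈ SO := by
  rw [← Phi_bst]
  apply Phi_SO
  show (bst 2 r).det ≠ 0
  rw [bst_det]
  exact one_ne_zero

private theorem cvm_SS_base : SS ((0 : ℂ), (1 : ℝ)) = 1 := by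
  have h : sec ((0 : ℂ), (1 : ℝ)) = 1 := by
    unfold sec
    ext i j
    fin_cases i <;> fin_cases j <;> simp
  unfold SS
  rw [h, Phi_one]

private theorem cvm_base_mem : ((0 : ℂ), (1 : ℝ)) ∈ UHs := by
  show (0:ℝ) < 1
  exact one_pos

private def KM (M : ℝ) : Set UH := {q | q ∈ UHs ∧ SS q 0 0 ≤ M}

private theorem cvm_KM_compact (M : ℝ) : IsCompact (KM M) := by
  have h := dist_compact (K := {((0 : ℂ), (1 : ℝ))}) isCompact_singleton
    (Set.singleton_subset_iff.mpr cvm_base_mem) M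
  have h2 : {q | q ∈ UHs ∧ ∃ p ∈ ({((0 : ℂ), (1 : ℝ))} : Set UH), ((SS p)⁻¹ * SS q) 0 0 ≤ M} = KM M := by
    ext q
    simp [KM, cvm_SS_base]
  rwa [h2] at h

private theorem cvm_KM_sub (M : ℝ) : KM M ⊆ UHs := fun _ h => h.1

private theorem cvm_UHs : MeasurableSet UHs := UHs_open.measurableSet

private theorem cvm_im {A : Mat 3} (hA : A ∈ Frames 3) : act A '' UHs = UHs := by
  obtain ⟨hi, -, -, h1, -⟩ := Frames_inv hA
  refine Set.Subset.antisymm ?_ ?_
  · rintro _ ⟨p, hp, rfl⟩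
    exact act_mem hA hp
  · intro p hp
    exact ⟨act A⁻¹ p, act_mem hi hp, by rw [← act_mul hA hi hp, h1, act_one hp]⟩

private theorem cvm_subst {A : Mat 3} (hA : A ∈ SO) {W : Type*} [NormedAddCommGroup W]
    [NormedSpace ℝ W] (f : UH → W) : ∫ p in UHs, f (act A p) ∂mu = ∫ p in UHs, f p ∂mu := by
  have h := act_integral hA f cvm_UHs (le_refl UHs)
  rw [cvm_im hA.1] at h
  exact h.symm

private theorem cvm_bdd {A : ℝ → ℝ} (hA : Prof A) : ∃ C, 0 ≤ C ∧ ∀ v, 2 ≤ v → |A v| ≤ C := by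
  obtain ⟨M, hM⟩ := hA.supp
  obtain ⟨C, hC⟩ := (isCompact_Icc (a := (2:ℝ)) (b := M)).exists_bound_of_continuousOn
    hA.cont.continuousOn
  refine ⟨max C 0, le_max_right _ _, fun v hv => ?_⟩
  rcases le_total v M with h | h
  · exact (hC v ⟨hv, h⟩).trans (le_max_left _ _)
  · rw [hM v h, abs_zero]
    exact le_max_right _ _

/-- substitution in the frames -/
private theorem cvm_act_left {R : Mat 3} (hR : R ∈ SO) {q : UH} (hq : q ∈ UHs) (Y : Mat 3) (b : Fin 4) :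
    (Y * SS (act R q)) b 0 = (Y * (R * SS q)) b 0 := by
  obtain ⟨k, -, -, hk⟩ := act_SS hR hq
  rw [hk, ← Matrix.mul_assoc, cvm_mulrot]

private theorem cvm_act_inv {R : Mat 3} (hR : R ∈ SO) {q : UH} (hq : q ∈ UHs) (X : Mat 3) (b : Fin 4) :
    ((SS (act R q))⁻¹ * X) 0 b = ((SS q)⁻¹ * (R⁻¹ * X)) 0 b := by
  obtain ⟨k, hk1, -, hk⟩ := act_SS hR hq
  have h1 := (Frames_inv (rot_mem_Frames hk1)).2.1
  have h2 : (rot k)⁻¹ = rot kᵀ := by
    apply Matrix.inv_eq_left_inv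
    rw [← rot_mul, (Matrix.mem_orthogonalGroup_iff' (Fin 3) ℝ).mp hk1, rot_one]
  rw [hk, Matrix.mul_inv_rev, Matrix.mul_inv_rev, h2, Matrix.mul_assoc, Matrix.mul_assoc,
    cvm_rotmul]

/-- a rotation with given third column -/
private theorem cvm_rotcol (n : Fin 3 → ℝ) (hn : n 0 ^ 2 + n 1 ^ 2 + n 2 ^ 2 = 1) :
    ∃ k ∈ Matrix.orthogonalGroup (Fin 3) ℝ, k.det = 1 ∧ ∀ i, k i 2 = n i := by
  by_cases hs : n 0 ^ 2 + n 1 ^ 2 = 0
  · have h0 : n 0 = 0 := by nlinarith [sq_nonneg (n 0), sq_nonneg (n 1)]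
    have h1 : n 1 = 0 := by nlinarith [sq_nonneg (n 0), sq_nonneg (n 1)]
    have h2 : n 2 * n 2 = 1 := by nlinarith
    refine ⟨!![1, 0, 0; 0, n 2, 0; 0, 0, n 2], ?_, ?_, ?_⟩
    · rw [Matrix.mem_orthogonalGroup_iff]
      ext i j
      fin_cases i <;> fin_cases j <;> simp [Matrix.mul_apply, Fin.sum_univ_three, h2]
    · rw [Matrix.det_fin_three]
      simp [h2]
    · intro i
      fin_cases i <;> simp [h0, h1]
  · set s := Real.sqrt (n 0 ^ 2 + n 1 ^ 2) with hsd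
    have hpos : 0 < n 0 ^ 2 + n 1 ^ 2 := lt_of_le_of_ne (by positivity) (Ne.symm hs)
    have hs0 : 0 < s := Real.sqrt_pos.mpr hpos
    have hs2 : s ^ 2 = n 0 ^ 2 + n 1 ^ 2 := Real.sq_sqrt hpos.le
    have hn2 : n 2 ^ 2 = 1 - s ^ 2 := by rw [hs2]; linarith
    refine ⟨!![n 0 * n 2 / s, - n 1 / s, n 0; n 1 * n 2 / s, n 0 / s, n 1; -s, 0, n 2], ?_, ?_, ?_⟩
    · rw [Matrix.mem_orthogonalGroup_iff']
      ext i j
      fin_cases i <;> fin_cases j <;>
        simp [Matrix.mul_apply, Fin.sum_univ_three] <;> field_simp <;>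
        first
          | ring1
          | linear_combination (-(n 2 ^ 2)) * hs2 + s ^ 2 * hn2
          | linear_combination (-(n 2)) * hs2
          | linear_combination (-1 : ℝ) * hs2
          | linear_combination hn
    · rw [Matrix.det_fin_three]
      simp
      field_simp
      linear_combination (-(n 2 ^ 2)) * hs2 - s ^ 2 * hs2 + s ^ 2 * hn2
    · intro i
      fin_cases i <;> simp

/-- every element of SO has the same first column as a rotation times a boost. -/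
private theorem cvm_kak {X : Mat 3} (hX : X ∈ SO) : ∃ k ∈ Matrix.orthogonalGroup (Fin 3) ℝ,
    k.det = 1 ∧ ∀ a, X a 0 = (rot k * boost 3 2 (Real.arcosh (X 0 0))) a 0 := by
  have h1 : 1 ≤ X 0 0 := Frames_one_le hX.1
  set s := Real.sqrt (X 0 0 ^ 2 - 1) with hs
  have hc : Real.cosh (Real.arcosh (X 0 0)) = X 0 0 := Real.cosh_arcosh h1
  have hsh : Real.sinh (Real.arcosh (X 0 0)) = s := Real.sinh_arcosh h1
  have hs2 : s ^ 2 = X 0 0 ^ 2 - 1 := Real.sq_sqrt (by nlinarith)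
  have hcol : X 1 0 ^ 2 + X 2 0 ^ 2 + X 3 0 ^ 2 = X 0 0 ^ 2 - 1 := by
    have h6 := congrFun (congrFun hX.1.1 0) 0
    have heta : eta 3 = Matrix.diagonal ![-1, 1, 1, 1] := by
      unfold eta
      congr 1
      ext i
      fin_cases i <;> rfl
    rw [heta, Matrix.mul_apply] at h6
    simp only [Matrix.mul_diagonal, Matrix.transpose_apply] at h6
    rw [Fin.sum_univ_four] at h6
    simp at h6
    linarith
  have key : ∀ k : Matrix (Fin 3) (Fin 3) ℝ, (∀ i : Fin 3, X i.succ 0 = k i 2 * s) →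
      ∀ a, X a 0 = (rot k * boost 3 2 (Real.arcosh (X 0 0))) a 0 := by
    intro k hk a
    have hb0 : boost 3 2 (Real.arcosh (X 0 0)) 0 0 = X 0 0 := by rw [cvm_boost]; exact hc
    have hb1 : boost 3 2 (Real.arcosh (X 0 0)) (Fin.succ 0) 0 = 0 := by rw [cvm_boost]; rfl
    have hb2 : boost 3 2 (Real.arcosh (X 0 0)) (Fin.succ 1) 0 = 0 := by rw [cvm_boost]; rfl
    have hb3 : boost 3 2 (Real.arcosh (X 0 0)) (Fin.succ 2) 0 = s := by rw [cvm_boost]; exact hsh
    rw [Matrix.mul_apply, Fin.sum_univ_succ, Fin.sum_univ_three, hb0, hb1, hb2, hb3]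
    refine Fin.cases ?_ (fun i => ?_) a
    · show X 0 0 = 1 * X 0 0 + (0 * 0 + 0 * 0 + 0 * s)
      ring
    · rw [hk i]
      show k i 2 * s = 0 * X 0 0 + (k i 0 * 0 + k i 1 * 0 + k i 2 * s)
      ring
  rcases eq_or_lt_of_le (Real.sqrt_nonneg (X 0 0 ^ 2 - 1)) with h0 | h0
  · have hs0 : s = 0 := h0.symm
    refine ⟨1, one_mem _, by simp, key 1 ?_⟩
    rw [← hs2, hs0] at hcol
    have e1 : X 1 0 = 0 := by nlinarith [sq_nonneg (X 1 0), sq_nonneg (X 2 0), sq_nonneg (X 3 0)]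
    have e2 : X 2 0 = 0 := by nlinarith [sq_nonneg (X 1 0), sq_nonneg (X 2 0), sq_nonneg (X 3 0)]
    have e3 : X 3 0 = 0 := by nlinarith [sq_nonneg (X 1 0), sq_nonneg (X 2 0), sq_nonneg (X 3 0)]
    intro i
    rw [hs0, mul_zero]
    fin_cases i
    · exact e1
    · exact e2
    · exact e3
  · have hs0 : s ≠ 0 := h0.ne'
    obtain ⟨k, hk1, hk2, hk3⟩ := cvm_rotcol (fun i => X i.succ 0 / s) (by
      show (X 1 0 / s) ^ 2 + (X 2 0 / s) ^ 2 + (X 3 0 / s) ^ 2 = 1
      field_simp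
      rw [hcol, hs2])
    refine ⟨k, hk1, hk2, key k ?_⟩
    intro i
    rw [hk3]
    field_simp

private theorem cvm_arg (x : ℝ) (h : 1 ≤ x) : max (2 * x / 2) 1 = x := by
  rw [mul_div_cancel_left₀ x two_ne_zero]
  exact max_eq_left h

theorem conv_eq {A B : ℝ → ℝ} (hA : Prof A) (hB : Prof B) {X : Mat 3} (hX : X ∈ SO) :
    ∫ q in UHs, A (2 * SS q 0 0) * B (2 * ((SS q)⁻¹ * X) 0 0) ∂mu = conv A B (2 * X 0 0) := by
  have _h := hA
  have _h' := hB
  obtain ⟨k, hk1, hk2, hk⟩ := cvm_kak hX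
  have hR : rot k ∈ SO := ⟨rot_mem_Frames hk1, by rw [rot_det, hk2]⟩
  unfold conv
  rw [cvm_arg _ (Frames_one_le hX.1),
    ← cvm_subst hR (fun q => A (2 * SS q 0 0) * B (2 * ((SS q)⁻¹ * X) 0 0))]
  refine setIntegral_congr_fun cvm_UHs fun q hq => ?_
  show A (2 * SS (act (rot k) q) 0 0) * B (2 * ((SS (act (rot k) q))⁻¹ * X) 0 0) =
    A (2 * SS q 0 0) * B (2 * ((SS q)⁻¹ * boost 3 2 (Real.arcosh (X 0 0))) 0 0)
  have e1 : SS (act (rot k) q) 0 0 = SS q 0 0 := by
    have h := cvm_act_left hR hq 1 0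
    rw [Matrix.one_mul, Matrix.one_mul, cvm_rotmul] at h
    exact h
  rw [e1, cvm_act_inv hR hq X 0]
  congr 3
  apply cvm_col
  intro a
  rw [cvm_col _ _ _ hk, ← Matrix.mul_assoc, (Frames_inv hR.1).2.2.2.2, Matrix.one_mul]

/-! ### Supports -/

private theorem cvm_cs (x1 x2 x3 y1 y2 y3 p q : ℝ) (hp : 0 ≤ p) (hq : 0 ≤ q)
    (hx : x1 ^ 2 + x2 ^ 2 + x3 ^ 2 = p ^ 2) (hy : y1 ^ 2 + y2 ^ 2 + y3 ^ 2 = q ^ 2) :
    x1 * y1 + x2 * y2 + x3 * y3 ≤ p * q := by
  have h0 : 0 ≤ p * q := mul_nonneg hp hq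
  have h1 : (x1 * y1 + x2 * y2 + x3 * y3) ^ 2 ≤ (p * q) ^ 2 := by
    rw [mul_pow, ← hx, ← hy]
    nlinarith [sq_nonneg (x1 * y2 - x2 * y1), sq_nonneg (x1 * y3 - x3 * y1),
      sq_nonneg (x2 * y3 - x3 * y2)]
  exact (abs_le_of_sq_le_sq' h1 h0).2

private theorem cvm_eta : eta 3 = Matrix.diagonal ![-1, 1, 1, 1] := by
  unfold eta
  congr 1
  ext i
  fin_cases i <;> rfl

/-- hyperbolic triangle inequality -/
private theorem cvm_tri {X Y : Mat 3} (hX : X ∈ Frames 3) (hY : Y ∈ Frames 3) {a b : ℝ}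
    (ha : 0 ≤ a) (hb : 0 ≤ b) (hXa : X 0 0 < Real.cosh a) (hYb : Y 0 0 < Real.cosh b) :
    (X * Y) 0 0 < Real.cosh (a + b) := by
  have hx1 := Frames_one_le hX
  have hy1 := Frames_one_le hY
  set α := Real.arcosh (X 0 0) with hα
  set β := Real.arcosh (Y 0 0) with hβ
  have hα0 : 0 ≤ α := Real.arcosh_nonneg hx1
  have hβ0 : 0 ≤ β := Real.arcosh_nonneg hy1
  have hcα : Real.cosh α = X 0 0 := Real.cosh_arcosh hx1
  have hcβ : Real.cosh β = Y 0 0 := Real.cosh_arcosh hy1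
  have hαa : α < a := by
    rw [← hcα, Real.cosh_lt_cosh, abs_of_nonneg hα0, abs_of_nonneg ha] at hXa
    exact hXa
  have hβb : β < b := by
    rw [← hcβ, Real.cosh_lt_cosh, abs_of_nonneg hβ0, abs_of_nonneg hb] at hYb
    exact hYb
  have hrow : X 0 1 ^ 2 + X 0 2 ^ 2 + X 0 3 ^ 2 = Real.sinh α ^ 2 := by
    have h1 : Real.sinh α ^ 2 = X 0 0 ^ 2 - 1 := by
      have := Real.cosh_sq α
      rw [hcα] at this
      linarith
    obtain ⟨-, h2, -, h4, -⟩ := Frames_inv hX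
    have h6 := congrFun (congrFun h4 0) 0
    rw [h2, cvm_eta, Matrix.mul_apply] at h6
    simp only [Matrix.mul_diagonal, Matrix.diagonal_mul, Matrix.transpose_apply] at h6
    rw [Fin.sum_univ_four] at h6
    simp at h6
    rw [h1]
    linarith
  have hcol : Y 1 0 ^ 2 + Y 2 0 ^ 2 + Y 3 0 ^ 2 = Real.sinh β ^ 2 := by
    have h1 : Real.sinh β ^ 2 = Y 0 0 ^ 2 - 1 := by
      have := Real.cosh_sq β
      rw [hcβ] at this
      linarith
    have h6 := congrFun (congrFun hY.1 0) 0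
    rw [cvm_eta, Matrix.mul_apply] at h6
    simp only [Matrix.mul_diagonal, Matrix.transpose_apply] at h6
    rw [Fin.sum_univ_four] at h6
    simp at h6
    rw [h1]
    linarith
  have hcs := cvm_cs _ _ _ _ _ _ _ _ (Real.sinh_nonneg_iff.mpr hα0) (Real.sinh_nonneg_iff.mpr hβ0)
    hrow hcol
  have h7 : (X * Y) 0 0 ≤ Real.cosh (α + β) := by
    rw [Real.cosh_add, hcα, hcβ, Matrix.mul_apply, Fin.sum_univ_four]
    linarith
  refine h7.trans_lt ?_
  rw [Real.cosh_lt_cosh, abs_of_nonneg (by positivity), abs_of_nonneg (by positivity)]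
  linarith

theorem conv_nonneg {A B : ℝ → ℝ} (hA : ∀ v, 0 ≤ A v) (hB : ∀ v, 0 ≤ B v) (v : ℝ) :
    0 ≤ conv A B v :=
  setIntegral_nonneg cvm_UHs fun _ _ => mul_nonneg (hA _) (hB _)

private theorem cvm_inv_frames {q : UH} (hq : q ∈ UHs) (r : ℝ) :
    (SS q)⁻¹ * boost 3 2 r ∈ Frames 3 :=
  Frames_mul (Frames_inv (SS_SO hq).1).1 (cvm_boost_SO r).1

private theorem cvm_cancel {q : UH} (hq : q ∈ UHs) (X : Mat 3) : SS q * ((SS q)⁻¹ * X) = X := by
  rw [← Matrix.mul_assoc, (Frames_inv (SS_SO hq).1).2.2.2.1, Matrix.one_mul]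

/-- Supports: radii add. -/
theorem conv_supp {A B : ℝ → ℝ} {a b : ℝ} (ha : 0 ≤ a) (hb : 0 ≤ b)
    (hA : ∀ v, 2 * Real.cosh a ≤ v → A v = 0) (hB : ∀ v, 2 * Real.cosh b ≤ v → B v = 0) (v : ℝ)
    (hv : 2 * Real.cosh (a + b) ≤ v) : conv A B v = 0 := by
  unfold conv
  rw [setIntegral_congr_fun cvm_UHs (g := fun _ => (0:ℝ)), integral_zero]
  intro q hq
  simp only
  by_contra hne
  have hA0 : A (2 * SS q 0 0) ≠ 0 := left_ne_zero_of_mul hne
  have hB0 := right_ne_zero_of_mul hne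
  have h1 : SS q 0 0 < Real.cosh a := by
    by_contra hcon
    exact hA0 (hA _ (by linarith [not_lt.mp hcon]))
  have h2 : ((SS q)⁻¹ * boost 3 2 (Real.arcosh (max (v / 2) 1))) 0 0 < Real.cosh b := by
    by_contra hcon
    exact hB0 (hB _ (by linarith [not_lt.mp hcon]))
  have h3 := cvm_tri (SS_SO hq).1 (cvm_inv_frames hq _) ha hb h1 h2
  rw [cvm_cancel hq, cvm_boost] at h3
  have h4 : 1 ≤ v / 2 := by
    have := Real.one_le_cosh (a + b)
    linarith
  rw [max_eq_left h4] at h3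
  have h5 : (![Real.cosh (Real.arcosh (v / 2)), 0, 0, Real.sinh (Real.arcosh (v / 2))] : Fin 4 → ℝ) 0
      = v / 2 := by
    show Real.cosh (Real.arcosh (v / 2)) = v / 2
    exact Real.cosh_arcosh h4
  rw [h5] at h3
  linarith

private theorem cvm_suppc {A : ℝ → ℝ} (hA : Prof A) : ∃ a, 0 ≤ a ∧
    ∀ v, 2 * Real.cosh a ≤ v → A v = 0 := by
  obtain ⟨M, hM⟩ := hA.supp
  refine ⟨Real.arcosh (max (M / 2) 1), Real.arcosh_nonneg (le_max_right _ _), fun v hv => ?_⟩
  rw [Real.cosh_arcosh (le_max_right _ _)] at hv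
  apply hM
  have := le_max_left (M / 2) 1
  linarith

/-! ### Integrability -/

private theorem cvm_SScont (a b : Fin 4) : ContinuousOn (fun q => SS q a b) UHs := by
  have h1 : Continuous (fun M : Mat 3 => M a b) := by fun_prop
  exact h1.comp_continuousOn SS_smooth.continuousOn

private theorem cvm_SSinv_cont : ContinuousOn (fun q => (SS q)⁻¹) UHs := by
  have h1 : ContinuousOn (fun q => eta 3 * (SS q)ᵀ * eta 3) UHs := by
    have h2 : Continuous (fun M : Mat 3 => eta 3 * Mᵀ * eta 3) := by fun_prop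
    exact h2.comp_continuousOn SS_smooth.continuousOn
  exact h1.congr fun q hq => (Frames_inv (SS_SO hq).1).2.1

private theorem cvm_intOn {W : Type*} [NormedAddCommGroup W] {f : UH → W}
    (hf : ContinuousOn f UHs) {K : Set UH} (hK : IsCompact K) (hKs : K ⊆ UHs)
    (h0 : ∀ q ∈ UHs, q ∉ K → f q = 0) : IntegrableOn f UHs mu := by
  have h1 : IntegrableOn f K mu := by
    obtain ⟨C, hC⟩ := hK.exists_bound_of_continuousOn (hf.mono hKs)
    have hfin : IsFiniteMeasure (mu.restrict K) :=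
      ⟨by rw [Measure.restrict_apply_univ]; exact mu_finite hK hKs⟩
    apply Integrable.of_bound (C := C)
    · exact ((hf.mono hKs).aestronglyMeasurable_of_isCompact hK hK.measurableSet)
    · exact (ae_restrict_iff' hK.measurableSet).mpr (Filter.Eventually.of_forall hC)
  exact h1.of_forall_sdiff_eq_zero cvm_UHs fun q hq => h0 q hq.1 hq.2

private theorem cvm_boost_cont : Continuous (fun v : ℝ => boost 3 2 (Real.arcosh (max (v / 2) 1))) := by
  have h1 : Continuous (fun v : ℝ => Real.arcosh (max (v / 2) 1)) := by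
    apply Real.continuousOn_arcosh.comp_continuous (by fun_prop)
    intro v
    exact le_max_right (v / 2) (1:ℝ)
  have h2 : Continuous (fun r : ℝ => boost 3 2 r) := by
    apply continuous_matrix
    intro i j
    unfold boost
    simp only [Matrix.of_apply]
    split_ifs <;> fun_prop
  exact h2.comp h1

theorem conv_prof {A B : ℝ → ℝ} (hA : Prof A) (hB : Prof B) : Prof (conv A B) := by
  obtain ⟨a, ha, hAs⟩ := cvm_suppc hA
  obtain ⟨b, hb, hBs⟩ := cvm_suppc hB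
  refine ⟨?_, 2 * Real.cosh (a + b), fun v hv => conv_supp ha hb hAs hBs v hv⟩
  obtain ⟨CA, hCA0, hCA⟩ := cvm_bdd hA
  obtain ⟨CB, hCB0, hCB⟩ := cvm_bdd hB
  set K := KM (Real.cosh a) with hK
  have hKc : IsCompact K := cvm_KM_compact _
  unfold conv
  apply continuous_of_dominated (bound := K.indicator fun _ => CA * CB)
  · intro v
    apply ContinuousOn.aestronglyMeasurable _ cvm_UHs
    apply ContinuousOn.mul
    · exact hA.cont.comp_continuousOn (continuousOn_const.mul (cvm_SScont 0 0))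
    · apply hB.cont.comp_continuousOn
      apply continuousOn_const.mul
      have h2 : Continuous (fun M : Mat 3 => (M * boost 3 2 (Real.arcosh (max (v / 2) 1))) 0 0) := by
        fun_prop
      exact h2.comp_continuousOn cvm_SSinv_cont
  · intro v
    rw [ae_restrict_iff' cvm_UHs]
    refine Filter.Eventually.of_forall fun q hq => ?_
    rw [Real.norm_eq_abs, abs_mul]
    by_cases hqK : q ∈ K
    · rw [Set.indicator_of_mem hqK]
      have e1 := Frames_one_le (SS_SO hq).1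
      have e2 := Frames_one_le (cvm_inv_frames hq (Real.arcosh (max (v / 2) 1)))
      exact mul_le_mul (hCA _ (by linarith)) (hCB _ (by linarith)) (abs_nonneg _) hCA0
    · rw [Set.indicator_of_notMem hqK]
      have h1 : Real.cosh a < SS q 0 0 := by
        by_contra hcon
        exact hqK ⟨hq, not_lt.mp hcon⟩
      rw [hAs _ (by linarith), abs_zero, zero_mul]
  · rw [integrable_indicator_iff hKc.measurableSet]
    rw [IntegrableOn, Measure.restrict_restrict hKc.measurableSet,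
      Set.inter_eq_self_of_subset_left (cvm_KM_sub _)]
    exact integrableOn_const (mu_finite hKc (cvm_KM_sub _)).ne
  · refine Filter.Eventually.of_forall fun q => ?_
    apply continuous_const.mul
    apply hB.cont.comp
    apply continuous_const.mul
    have h2 : Continuous (fun M : Mat 3 => ((SS q)⁻¹ * M) 0 0) := by fun_prop
    exact h2.comp cvm_boost_cont

/-! ### Positivity -/

private theorem cvm_SS_axis (s : ℝ) : SS ((0 : ℂ), Real.exp s) = boost 3 2 s := by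
  rw [← Phi_bst]
  have h : bst 2 s = ((Real.exp (-(s / 2)) : ℝ) : ℂ) • sec ((0 : ℂ), Real.exp s) := by
    have e1 : Real.cosh (s / 2) + Real.sinh (s / 2) = Real.exp (s / 2) := Real.cosh_add_sinh _
    have e2 : Real.cosh (s / 2) - Real.sinh (s / 2) = Real.exp (-(s / 2)) := Real.cosh_sub_sinh _
    have e3 : Real.exp (-(s / 2)) * Real.exp s = Real.exp (s / 2) := by
      rw [← Real.exp_add]; congr 1; ring
    unfold bst sec
    have hp : pauli (Fin.succ 2) = !![1, 0; 0, -1] := rfl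
    rw [hp]
    ext i j
    fin_cases i <;> fin_cases j
    · show (Real.cosh (s / 2) : ℂ) * 1 + (Real.sinh (s / 2) : ℂ) * 1
        = ((Real.exp (-(s / 2)) : ℝ) : ℂ) * ((Real.exp s : ℝ) : ℂ)
      rw [← Complex.ofReal_mul, e3, ← e1]
      push_cast
      ring
    · show (Real.cosh (s / 2) : ℂ) * 0 + (Real.sinh (s / 2) : ℂ) * 0
        = ((Real.exp (-(s / 2)) : ℝ) : ℂ) * 0
      ring
    · show (Real.cosh (s / 2) : ℂ) * 0 + (Real.sinh (s / 2) : ℂ) * 0
        = ((Real.exp (-(s / 2)) : ℝ) : ℂ) * 0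
      ring
    · show (Real.cosh (s / 2) : ℂ) * 1 + (Real.sinh (s / 2) : ℂ) * (-1)
        = ((Real.exp (-(s / 2)) : ℝ) : ℂ) * 1
      rw [mul_one, ← e2]
      push_cast
      ring
  rw [h, Phi_smul]
  · rfl
  · exact_mod_cast (Real.exp_pos _).ne'

private theorem cvm_ker_cont {A B : ℝ → ℝ} (hA : Prof A) (hB : Prof B) (X : Mat 3) :
    ContinuousOn (fun q => A (2 * SS q 0 0) * B (2 * ((SS q)⁻¹ * X) 0 0)) UHs := by
  apply ContinuousOn.mul
  · exact hA.cont.comp_continuousOn (continuousOn_const.mul (cvm_SScont 0 0))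
  · apply hB.cont.comp_continuousOn
    apply continuousOn_const.mul
    have h2 : Continuous (fun M : Mat 3 => (M * X) 0 0) := by fun_prop
    exact h2.comp_continuousOn cvm_SSinv_cont

private theorem cvm_ker_int {A B : ℝ → ℝ} (hA : Prof A) (hB : Prof B) (X : Mat 3) :
    IntegrableOn (fun q => A (2 * SS q 0 0) * B (2 * ((SS q)⁻¹ * X) 0 0)) UHs mu := by
  obtain ⟨a, ha, hAs⟩ := cvm_suppc hA
  apply cvm_intOn (cvm_ker_cont hA hB X) (cvm_KM_compact (Real.cosh a)) (cvm_KM_sub _)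
  intro q hq hqK
  have h1 : Real.cosh a < SS q 0 0 := by
    by_contra hcon
    exact hqK ⟨hq, not_lt.mp hcon⟩
  show A (2 * SS q 0 0) * B (2 * ((SS q)⁻¹ * X) 0 0) = 0
  rw [hAs _ (by linarith), zero_mul]

/-- Positivity inside the support. -/
theorem conv_pos {A B : ℝ → ℝ} (hA : Prof A) (hB : Prof B) {a b : ℝ} (ha : 0 < a) (hb : 0 < b)
    (hA0 : ∀ v, 0 ≤ A v) (hB0 : ∀ v, 0 ≤ B v)
    (hA1 : ∀ v, 2 ≤ v → v < 2 * Real.cosh a → 0 < A v)
    (hB1 : ∀ v, 2 ≤ v → v < 2 * Real.cosh b → 0 < B v) (v : ℝ) (h2 : 2 ≤ v)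
    (hv : v < 2 * Real.cosh (a + b)) : 0 < conv A B v := by
  have h1 : 1 ≤ v / 2 := by linarith
  set r := Real.arcosh (v / 2) with hr
  have hr0 : 0 ≤ r := Real.arcosh_nonneg h1
  have hcr : Real.cosh r = v / 2 := Real.cosh_arcosh h1
  have hrab : r < a + b := by
    have h3 : Real.cosh r < Real.cosh (a + b) := by rw [hcr]; linarith
    rw [Real.cosh_lt_cosh, abs_of_nonneg hr0, abs_of_nonneg (by positivity)] at h3
    exact h3
  set s := r * a / (a + b) with hs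
  have hs0 : 0 ≤ s := by positivity
  have hsa : s < a := by
    rw [hs, div_lt_iff₀ (by positivity)]
    nlinarith
  have hrs : r - s = r * b / (a + b) := by
    rw [hs]; field_simp; ring
  have hrs0 : 0 ≤ r - s := by rw [hrs]; positivity
  have hrsb : r - s < b := by
    rw [hrs, div_lt_iff₀ (by positivity)]
    nlinarith
  unfold conv
  rw [max_eq_left h1, ← hr]
  set f : UH → ℝ := fun q => A (2 * SS q 0 0) * B (2 * ((SS q)⁻¹ * boost 3 2 r) 0 0) with hf
  have hfc : ContinuousOn f UHs := cvm_ker_cont hA hB _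
  have hfi : IntegrableOn f UHs mu := cvm_ker_int hA hB _
  have hf0 : ∀ q, 0 ≤ f q := fun q => mul_nonneg (hA0 _) (hB0 _)
  -- the good point
  set q₀ : UH := ((0 : ℂ), Real.exp s) with hq₀
  have hq₀m : q₀ ∈ UHs := Real.exp_pos s
  have hbinv : (boost 3 2 s)⁻¹ = boost 3 2 (-s) := by
    apply Matrix.inv_eq_left_inv
    have hd : ∀ t, bst 2 t ∈ GLo := by
      intro t
      show (bst 2 t).det ≠ 0
      rw [bst_det]; exact one_ne_zero
    rw [← Phi_bst, ← Phi_bst, ← Phi_mul (hd _) (hd _), ← bst_add, neg_add_cancel, bst_zero, Phi_one]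
  have hbadd : boost 3 2 (-s) * boost 3 2 r = boost 3 2 (r - s) := by
    have hd : ∀ t, bst 2 t ∈ GLo := by
      intro t
      show (bst 2 t).det ≠ 0
      rw [bst_det]; exact one_ne_zero
    rw [← Phi_bst, ← Phi_bst, ← Phi_mul (hd _) (hd _), ← bst_add, Phi_bst]
    congr 1
    ring
  have hfq : 0 < f q₀ := by
    rw [hf]
    simp only
    rw [hq₀, cvm_SS_axis, hbinv, hbadd, cvm_boost, cvm_boost]
    show 0 < A (2 * Real.cosh s) * B (2 * Real.cosh (r - s))
    apply mul_pos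
    · apply hA1
      · have := Real.one_le_cosh s
        linarith
      · have h3 : Real.cosh s < Real.cosh a := by
          rw [Real.cosh_lt_cosh, abs_of_nonneg hs0, abs_of_nonneg ha.le]
          exact hsa
        linarith
    · apply hB1
      · have := Real.one_le_cosh (r - s)
        linarith
      · have h3 : Real.cosh (r - s) < Real.cosh b := by
          rw [Real.cosh_lt_cosh, abs_of_nonneg hrs0, abs_of_nonneg hb.le]
          exact hrsb
        linarith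
  rw [setIntegral_pos_iff_support_of_nonneg_ae (Filter.Eventually.of_forall hf0) hfi]
  have hopen : IsOpen (UHs ∩ f ⁻¹' (Set.Ioi 0)) := hfc.isOpen_inter_preimage UHs_open isOpen_Ioi
  have h5 := mu_pos hopen Set.inter_subset_left ⟨q₀, hq₀m, hfq⟩
  refine h5.trans_le (measure_mono ?_)
  rintro q ⟨hq1, hq2⟩
  exact ⟨ne_of_gt hq2, hq1⟩

/-! ### Composition of the operators -/

private theorem cvm_mulVec_integral {k : ℕ} {M M' : Matrix (Ix k) (Ix k) ℂ} (e1 : M * M' = 1)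
    (e2 : M' * M = 1) (ν : Measure UH) (f : UH → Ix k → ℂ) :
    M *ᵥ (∫ q, f q ∂ν) = ∫ q, M *ᵥ f q ∂ν := by
  set L : (Ix k → ℂ) ≃ₗ[ℂ] (Ix k → ℂ) :=
    { toFun := fun v => M *ᵥ v
      invFun := fun v => M' *ᵥ v
      map_add' := fun v w => Matrix.mulVec_add _ v w
      map_smul' := fun c v => Matrix.mulVec_smul _ c v
      left_inv := fun v => by simp only; rw [Matrix.mulVec_mulVec, e2, Matrix.one_mulVec]
      right_inv := fun v => by simp only; rw [Matrix.mulVec_mulVec, e1, Matrix.one_mulVec] }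
      with hL
  exact (L.toContinuousLinearEquiv.integral_comp_comm f).symm

private theorem cvm_rho_inv (k : ℕ) {X : Mat 3} (hX : X ∈ Frames 3) :
    rho k X * rho k X⁻¹ = 1 ∧ rho k X⁻¹ * rho k X = 1 := by
  have hinv := Frames_inv hX
  exact ⟨by rw [← rho_mul, hinv.2.2.2.1, rho_one], by rw [← rho_mul, hinv.2.2.2.2, rho_one]⟩

private theorem cvm_GLo_mul {g h : M2} (hg : g ∈ GLo) (hh : h ∈ GLo) : g * h ∈ GLo := by
  show (g * h).det ≠ 0
  rw [det_mul]
  exact mul_ne_zero hg hh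

/-- the flat picture at a product. -/
private theorem cvm_flat {k : ℕ} {Γ : Subgroup (Mat 3)ˣ} {F : M2 → Ix k → ℂ}
    (hF : F ∈ Sect (tau k) Γ) {g : M2} (hg : g ∈ GLo) {q q' : UH} (hq : q ∈ UHs) (hq' : q' ∈ UHs) :
    rho k (SS q) *ᵥ (rho k (SS q') *ᵥ F (g * sec q * sec q')) =
      rho k (SS (act (SS q) q')) *ᵥ F (g * sec (act (SS q) q')) := by
  obtain ⟨hF0, hFs, hFz, hFΓ, hFu⟩ := hF
  obtain ⟨z, hz, u, hu, hsec⟩ := act_sec (sec_mem hq) hq'
  have hact : act (Phi (sec q)) q' = act (SS q) q' := rfl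
  rw [hact] at hsec
  have huG : u ∈ GLo := by
    show u.det ≠ 0
    intro h0
    have h1 : u * star u = 1 := Unitary.mul_star_self_of_mem hu
    have h2 := congrArg Matrix.det h1
    rw [Matrix.det_mul, h0, zero_mul, Matrix.det_one] at h2
    exact zero_ne_one h2
  obtain ⟨hPu, hRu, -⟩ := Phi_unitary hu
  have hqq : sec q * sec q' ∈ GLo := cvm_GLo_mul (sec_mem hq) (sec_mem hq')
  have e1 : SS (act (SS q) q') = SS q * SS q' * rot (Rot u) := by
    have : SS (act (SS q) q') = Phi (sec (act (SS q) q')) := rfl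
    rw [this, hsec, Phi_smul hz, Phi_mul hqq huG, Phi_mul (sec_mem hq) (sec_mem hq'), hPu]
    rfl
  have e2 : F (g * sec (act (SS q) q')) = tau k (Rot u)ᵀ *ᵥ F (g * sec q * sec q') := by
    have h1 : g * sec (act (SS q) q') = z • (g * sec q * sec q' * u) := by
      rw [hsec, mul_smul_comm]
      simp only [Matrix.mul_assoc]
    have h2 : g * sec q * sec q' ∈ GLo := by
      rw [Matrix.mul_assoc]; exact cvm_GLo_mul hg hqq
    rw [h1, hFz z hz _ (cvm_GLo_mul h2 huG), hFu u hu _ h2]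
  have h3 : Rot u * (Rot u)ᵀ = 1 := (Matrix.mem_orthogonalGroup_iff (Fin 3) ℝ).mp hRu
  have e3 : SS q * SS q' * rot (Rot u) * rot (Rot u)ᵀ = SS q * SS q' := by
    rw [Matrix.mul_assoc (SS q * SS q'), ← rot_mul, h3, rot_one, Matrix.mul_one]
  rw [e1, e2]
  unfold tau
  rw [Matrix.mulVec_mulVec, Matrix.mulVec_mulVec, ← rho_mul, ← rho_mul, e3]

private instance cvm_sf : SFinite mu := by
  unfold mu
  infer_instance

private theorem cvm_fubini {A B : ℝ → ℝ} (hA : Prof A) (hB : Prof B) {W : Type*}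
    [NormedAddCommGroup W] [NormedSpace ℂ W] [CompleteSpace W] [SecondCountableTopology W]
    {Ψ : UH → W} (hΨ : ContinuousOn Ψ UHs) :
    ∫ q in UHs, (A (2 * SS q 0 0) : ℂ) •
        (∫ p in UHs, (B (2 * ((SS q)⁻¹ * SS p) 0 0) : ℂ) • Ψ p ∂mu) ∂mu =
      ∫ p in UHs, (conv A B (2 * SS p 0 0) : ℂ) • Ψ p ∂mu := by
  obtain ⟨a, ha, hAs⟩ := cvm_suppc hA
  obtain ⟨b, hb, hBs⟩ := cvm_suppc hB
  set K₁ := KM (Real.cosh a) with hK₁
  have hK₁c : IsCompact K₁ := cvm_KM_compact _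
  set K₂ : Set UH := {q | q ∈ UHs ∧ ∃ p ∈ K₁, ((SS p)⁻¹ * SS q) 0 0 ≤ Real.cosh b} with hK₂
  have hK₂c : IsCompact K₂ := dist_compact hK₁c (cvm_KM_sub _) _
  have hK₂s : K₂ ⊆ UHs := fun _ h => h.1
  set U : UH × UH → W := fun x =>
    ((A (2 * SS x.1 0 0) * B (2 * ((SS x.1)⁻¹ * SS x.2) 0 0) : ℝ) : ℂ) • Ψ x.2 with hU
  have hUc : ContinuousOn U (UHs ×ˢ UHs) := by
    apply ContinuousOn.smul
    · apply Complex.continuous_ofReal.comp_continuousOn
      apply ContinuousOn.mul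
      · apply hA.cont.comp_continuousOn
        apply continuousOn_const.mul
        exact (cvm_SScont 0 0).comp continuousOn_fst fun x hx => hx.1
      · apply hB.cont.comp_continuousOn
        apply continuousOn_const.mul
        have h1 : ContinuousOn (fun x : UH × UH => (SS x.1)⁻¹) (UHs ×ˢ UHs) :=
          cvm_SSinv_cont.comp continuousOn_fst fun x hx => hx.1
        have h2 : ContinuousOn (fun x : UH × UH => SS x.2) (UHs ×ˢ UHs) :=
          SS_smooth.continuousOn.comp continuousOn_snd fun x hx => hx.2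
        have h3 : Continuous (fun M : Mat 3 × Mat 3 => (M.1 * M.2) 0 0) := by fun_prop
        exact h3.comp_continuousOn (h1.prodMk h2)
    · exact hΨ.comp continuousOn_snd fun x hx => hx.2
  have hU0 : ∀ x ∈ UHs ×ˢ UHs, x ∉ K₁ ×ˢ K₂ → U x = 0 := by
    rintro ⟨q, p⟩ ⟨hq, hp⟩ hx
    simp only at hq hp
    show ((A (2 * SS q 0 0) * B (2 * ((SS q)⁻¹ * SS p) 0 0) : ℝ) : ℂ) • Ψ p = 0
    by_cases hqK : q ∈ K₁
    · have hpK : p ∉ K₂ := fun h => hx ⟨hqK, h⟩
      have h1 : Real.cosh b < ((SS q)⁻¹ * SS p) 0 0 := by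
        by_contra hcon
        exact hpK ⟨hp, q, hqK, not_lt.mp hcon⟩
      rw [hBs _ (by linarith), mul_zero, Complex.ofReal_zero, zero_smul]
    · have h1 : Real.cosh a < SS q 0 0 := by
        by_contra hcon
        exact hqK ⟨hq, not_lt.mp hcon⟩
      rw [hAs _ (by linarith), zero_mul, Complex.ofReal_zero, zero_smul]
  have hUi : Integrable U ((mu.restrict UHs).prod (mu.restrict UHs)) := by
    rw [Measure.prod_restrict]
    have hKc : IsCompact (K₁ ×ˢ K₂) := hK₁c.prod hK₂c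
    have hKs : K₁ ×ˢ K₂ ⊆ UHs ×ˢ UHs := Set.prod_mono (cvm_KM_sub _) hK₂s
    have h1 : IntegrableOn U (K₁ ×ˢ K₂) (mu.prod mu) := by
      obtain ⟨C, hC⟩ := hKc.exists_bound_of_continuousOn (hUc.mono hKs)
      have hfin : IsFiniteMeasure ((mu.prod mu).restrict (K₁ ×ˢ K₂)) :=
        ⟨by
          rw [Measure.restrict_apply_univ, Measure.prod_prod]
          exact ENNReal.mul_lt_top (mu_finite hK₁c (cvm_KM_sub _)) (mu_finite hK₂c hK₂s)⟩
      apply Integrable.of_bound (C := C)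
      · exact (hUc.mono hKs).aestronglyMeasurable_of_isCompact hKc hKc.measurableSet
      · exact (ae_restrict_iff' hKc.measurableSet).mpr (Filter.Eventually.of_forall hC)
    exact h1.of_forall_sdiff_eq_zero (cvm_UHs.prod cvm_UHs) fun x hx => hU0 x hx.1 hx.2
  have hswap := integral_integral_swap (f := fun q p => U (q, p)) hUi
  calc _ = ∫ q in UHs, ∫ p in UHs, U (q, p) ∂mu ∂mu := by
        congr 1
        funext q
        rw [← integral_smul]
        congr 1
        funext p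
        simp only [hU]
        rw [smul_smul, ← Complex.ofReal_mul]
    _ = ∫ p in UHs, ∫ q in UHs, U (q, p) ∂mu ∂mu := hswap
    _ = _ := by
        refine setIntegral_congr_fun cvm_UHs fun p hp => ?_
        show ∫ q in UHs, ((A (2 * SS q 0 0) * B (2 * ((SS q)⁻¹ * SS p) 0 0) : ℝ) : ℂ) • Ψ p ∂mu
          = (conv A B (2 * SS p 0 0) : ℂ) • Ψ p
        rw [integral_smul_const]
        congr 1
        have h9 : ∫ q in UHs, ((A (2 * SS q 0 0) * B (2 * ((SS q)⁻¹ * SS p) 0 0) : ℝ) : ℂ) ∂mu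
            = ((∫ q in UHs, A (2 * SS q 0 0) * B (2 * ((SS q)⁻¹ * SS p) 0 0) ∂mu : ℝ) : ℂ) :=
          integral_ofReal
        rw [h9]
        congr 1
        exact conv_eq hA hB (SS_SO hp)

theorem RL_conv (k : ℕ) (Γ : Subgroup (Mat 3)ˣ) {A B : ℝ → ℝ} (hA : Prof A) (hB : Prof B) :
    RL k Γ (conv A B) (conv_prof hA hB) = RL k Γ A hA * RL k Γ B hB := by
  apply LinearMap.ext
  intro F
  apply Subtype.ext
  show RA k (conv A B) F.1 = RA k A (RA k B F.1)
  funext g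
  by_cases hg : g ∈ GLo
  swap
  · have hd : g.det = 0 := not_not.mp hg
    show (if g.det = 0 then 0 else _) = (if g.det = 0 then 0 else _)
    rw [if_pos hd, if_pos hd]
  have hRA : ∀ (A : ℝ → ℝ) (G : M2 → Ix k → ℂ) (x : M2), x ∈ GLo → RA k A G x =
      ∫ q in UHs, ((A (2 * SS q 0 0) : ℝ) : ℂ) • (rho k (SS q) *ᵥ G (x * sec q)) ∂mu := by
    intro A G x hx
    show (if x.det = 0 then 0 else _) = _
    rw [if_neg hx]
  set Ψ : UH → Ix k → ℂ := fun p => rho k (SS p) *ᵥ F.1 (g * sec p) with hΨ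
  have hΨc : ContinuousOn Ψ UHs := by
    have h1 : ∀ a b, ContinuousOn (fun p => rho k (SS p) a b) UHs := by
      intro a b
      have h0 : (fun p => rho k (SS p) a b) = fun p => ∏ i, ((SS p (a i) (b i) : ℝ) : ℂ) := rfl
      rw [h0]
      exact continuousOn_finsetProd _ fun i _ =>
        Complex.continuous_ofReal.comp_continuousOn (cvm_SScont _ _)
    have h2 : ContinuousOn (fun p => F.1 (g * sec p)) UHs := by
      apply F.2.2.1.continuousOn.comp
      · have h3 : Continuous (fun M : M2 => g * M) := by fun_prop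
        exact h3.comp_continuousOn sec_smooth.continuous.continuousOn
      · intro p hp
        exact cvm_GLo_mul hg (sec_mem hp)
    rw [continuousOn_pi]
    intro a
    have h4 : (fun p => Ψ p a) = fun p => ∑ b, rho k (SS p) a b * F.1 (g * sec p) b := rfl
    rw [h4]
    exact continuousOn_finsetSum _ fun b _ => (h1 a b).mul (continuousOn_pi.mp h2 b)
  rw [hRA _ _ g hg, hRA _ _ g hg]
  have hR : ∫ q in UHs, ((A (2 * SS q 0 0) : ℝ) : ℂ) • (rho k (SS q) *ᵥ RA k B F.1 (g * sec q)) ∂mu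
      = ∫ q in UHs, (A (2 * SS q 0 0) : ℂ) •
        (∫ p in UHs, (B (2 * ((SS q)⁻¹ * SS p) 0 0) : ℂ) • Ψ p ∂mu) ∂mu := by
    refine setIntegral_congr_fun cvm_UHs fun q hq => ?_
    congr 1
    rw [hRA _ _ _ (cvm_GLo_mul hg (sec_mem hq))]
    obtain ⟨e1, e2⟩ := cvm_rho_inv k (SS_SO hq).1
    rw [cvm_mulVec_integral e1 e2]
    rw [← cvm_subst (SS_SO hq) (fun p => (B (2 * ((SS q)⁻¹ * SS p) 0 0) : ℂ) • Ψ p)]
    refine setIntegral_congr_fun cvm_UHs fun q' hq' => ?_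
    rw [Matrix.mulVec_smul, cvm_flat F.2 hg hq hq']
    congr 3
    rw [cvm_act_left (SS_SO hq) hq', ← Matrix.mul_assoc, (Frames_inv (SS_SO hq).1).2.2.2.2,
      Matrix.one_mul]
  rw [hR, cvm_fubini hA hB hΨc]

/-! ### Automorphic kernels -/

private theorem cvm_orbit {A B : ℝ → ℝ} (hA : Prof A) (hB : Prof B) {P X : Mat 3} {p : UH}
    (hp : p ∈ UHs) (hP : P = SS p) (hX : X ∈ SO) :
    IntegrableOn (fun s => A (2 * (P⁻¹ * SS s) 0 0) * B (2 * ((SS s)⁻¹ * X) 0 0)) UHs mu ∧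
    ∫ s in UHs, A (2 * (P⁻¹ * SS s) 0 0) * B (2 * ((SS s)⁻¹ * X) 0 0) ∂mu
      = conv A B (2 * (P⁻¹ * X) 0 0) := by
  subst hP
  constructor
  · obtain ⟨a, ha, hAs⟩ := cvm_suppc hA
    have hc : ContinuousOn (fun s => A (2 * ((SS p)⁻¹ * SS s) 0 0) * B (2 * ((SS s)⁻¹ * X) 0 0)) UHs := by
      apply ContinuousOn.mul
      · apply hA.cont.comp_continuousOn
        apply continuousOn_const.mul
        have h2 : Continuous (fun M : Mat 3 => ((SS p)⁻¹ * M) 0 0) := by fun_prop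
        exact h2.comp_continuousOn SS_smooth.continuousOn
      · apply hB.cont.comp_continuousOn
        apply continuousOn_const.mul
        have h2 : Continuous (fun M : Mat 3 => (M * X) 0 0) := by fun_prop
        exact h2.comp_continuousOn cvm_SSinv_cont
    have hK := dist_compact (K := {p}) isCompact_singleton (Set.singleton_subset_iff.mpr hp)
      (Real.cosh a)
    apply cvm_intOn hc hK (fun _ h => h.1)
    intro q hq hqK
    have h1 : Real.cosh a < ((SS p)⁻¹ * SS q) 0 0 := by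
      by_contra hcon
      exact hqK ⟨hq, p, rfl, not_lt.mp hcon⟩
    show A (2 * ((SS p)⁻¹ * SS q) 0 0) * B (2 * ((SS q)⁻¹ * X) 0 0) = 0
    rw [hAs _ (by linarith), zero_mul]
  · rw [← cvm_subst (SS_SO hp) (fun s => A (2 * ((SS p)⁻¹ * SS s) 0 0) * B (2 * ((SS s)⁻¹ * X) 0 0))]
    have hX' : (SS p)⁻¹ * X ∈ SO := SO_mul (SO_inv (SS_SO hp)) hX
    rw [← conv_eq hA hB hX']
    refine setIntegral_congr_fun cvm_UHs fun q hq => ?_
    show A (2 * ((SS p)⁻¹ * SS (act (SS p) q)) 0 0) * B (2 * ((SS (act (SS p) q))⁻¹ * X) 0 0)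
      = A (2 * SS q 0 0) * B (2 * ((SS q)⁻¹ * ((SS p)⁻¹ * X)) 0 0)
    rw [cvm_act_left (SS_SO hp) hq, cvm_act_inv (SS_SO hp) hq, ← Matrix.mul_assoc (SS p)⁻¹,
      (Frames_inv (SS_SO hp).1).2.2.2.2, Matrix.one_mul]

/-- Composition of automorphic kernels. -/
theorem ker_conv {k : ℕ} {Γ : Subgroup (Mat 3)ˣ} {D : Set UH} (h : Klein Γ) (hD : FD Γ D)
    {A B : ℝ → ℝ} (hA : Prof A) (hB : Prof B) {p q : UH} (hp : p ∈ UHs) (hq : q ∈ UHs) (a b : Ix k) :
    ∫ r in D, (ker k Γ A (SS p) (SS r) * ker k Γ B (SS r) (SS q)) a b ∂mu =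
      ker k Γ (conv A B) (SS p) (SS q) a b := by
  classical
  obtain ⟨α, hα, hAs⟩ := cvm_suppc hA
  obtain ⟨β, hβ, hBs⟩ := cvm_suppc hB
  obtain ⟨K, hK, hKs, hDK⟩ := hD.bdd
  set K0 : Set UH := K ∪ {p, q} with hK0
  have hK0c : IsCompact K0 := hK.union ((Set.finite_insert.mpr (Set.finite_singleton q)).isCompact)
  have hK0s : K0 ⊆ UHs := by
    rintro x (hx | hx | hx)
    · exact hKs hx
    · rw [hx]; exact hp
    · rw [hx]; exact hq
  have hfin := Klein_proper h hK0c hK0s (Real.cosh (α + β))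
  set S : Finset Γ := hfin.toFinset with hS
  set G : Γ → Mat 3 := fun γ => ((γ : (Mat 3)ˣ) : Mat 3) with hG
  have hGSO : ∀ γ, G γ ∈ SO := fun γ => Klein_SO h γ.2
  have hGmul : ∀ γ δ, G (γ * δ) = G γ * G δ := fun γ δ => by simp [hG]
  have hGinv : ∀ γ, G γ⁻¹ = (G γ)⁻¹ := fun γ => by
    apply (Matrix.inv_eq_left_inv _).symm
    rw [← hGmul, inv_mul_cancel]
    simp [hG]
  have hmemS : ∀ ε : Γ, ((SS p)⁻¹ * G ε * SS q) 0 0 < Real.cosh (α + β) → ε ∈ S := by
    intro ε hε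
    rw [hS, Set.Finite.mem_toFinset]
    exact ⟨p, Or.inr (Or.inl rfl), q, Or.inr (Or.inr rfl), hε.le⟩
  have hcosh : Real.cosh α ≤ Real.cosh (α + β) := by
    rw [Real.cosh_le_cosh, abs_of_nonneg hα, abs_of_nonneg (by positivity)]
    linarith
  -- the kernels as sums
  have hkerA : ∀ r ∈ D, ker k Γ A (SS p) (SS r) = ∑ γ ∈ S,
      ((A (2 * ((SS p)⁻¹ * G γ * SS r) 0 0) : ℝ) : ℂ) • rho k ((SS p)⁻¹ * G γ * SS r) := by
    intro r hr
    unfold ker
    apply finsum_eq_sum_of_support_subset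
    intro γ hγ
    rw [Function.mem_support] at hγ
    rw [Finset.mem_coe, hS, Set.Finite.mem_toFinset]
    refine ⟨p, Or.inr (Or.inl rfl), r, Or.inl (hDK hr), ?_⟩
    by_contra hcon
    rw [not_le] at hcon
    apply hγ
    have : A (2 * ((SS p)⁻¹ * G γ * SS r) 0 0) = 0 := hAs _ (by linarith)
    show ((A (2 * ((SS p)⁻¹ * G γ * SS r) 0 0) : ℝ) : ℂ) • _ = 0
    rw [this, Complex.ofReal_zero, zero_smul]
  have hkerC : ker k Γ (conv A B) (SS p) (SS q) = ∑ ε ∈ S,
      ((conv A B (2 * ((SS p)⁻¹ * G ε * SS q) 0 0) : ℝ) : ℂ) • rho k ((SS p)⁻¹ * G ε * SS q) := by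
    unfold ker
    apply finsum_eq_sum_of_support_subset
    intro ε hε
    rw [Function.mem_support] at hε
    rw [Finset.mem_coe]
    apply hmemS
    by_contra hcon
    rw [not_lt] at hcon
    apply hε
    have : conv A B (2 * ((SS p)⁻¹ * G ε * SS q) 0 0) = 0 :=
      conv_supp hα hβ hAs hBs _ (by linarith)
    show ((conv A B (2 * ((SS p)⁻¹ * G ε * SS q) 0 0) : ℝ) : ℂ) • _ = 0
    rw [this, Complex.ofReal_zero, zero_smul]
  have hkerB : ∀ r ∈ D, ∀ γ : Γ, A (2 * ((SS p)⁻¹ * G γ * SS r) 0 0) ≠ 0 →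
      ker k Γ B (SS r) (SS q) = ∑ ε ∈ S,
        ((B (2 * ((SS r)⁻¹ * (G γ)⁻¹ * G ε * SS q) 0 0) : ℝ) : ℂ) •
          rho k ((SS r)⁻¹ * (G γ)⁻¹ * G ε * SS q) := by
    intro r hr γ hγ
    unfold ker
    rw [← finsum_comp_equiv (Equiv.mulLeft γ⁻¹)]
    have hrw : ∀ ε : Γ, (SS r)⁻¹ * (((Equiv.mulLeft γ⁻¹ ε : Γ) : (Mat 3)ˣ) : Mat 3) * SS q
        = (SS r)⁻¹ * (G γ)⁻¹ * G ε * SS q := by
      intro ε
      have : (((Equiv.mulLeft γ⁻¹ ε : Γ) : (Mat 3)ˣ) : Mat 3) = (G γ)⁻¹ * G ε := by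
        rw [← hGinv, ← hGmul]
        rfl
      rw [this]
      simp only [Matrix.mul_assoc]
    simp only [hrw]
    apply finsum_eq_sum_of_support_subset
    intro ε hε
    rw [Function.mem_support] at hε
    rw [Finset.mem_coe]
    apply hmemS
    have hr' : r ∈ UHs := hD.sub hr
    have e1 : ((SS p)⁻¹ * G γ * SS r) 0 0 < Real.cosh α := by
      by_contra hcon
      exact hγ (hAs _ (by linarith [not_lt.mp hcon]))
    have e2 : ((SS r)⁻¹ * (G γ)⁻¹ * G ε * SS q) 0 0 < Real.cosh β := by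
      by_contra hcon
      rw [not_lt] at hcon
      apply hε
      have : B (2 * ((SS r)⁻¹ * (G γ)⁻¹ * G ε * SS q) 0 0) = 0 := hBs _ (by linarith)
      show ((B (2 * ((SS r)⁻¹ * (G γ)⁻¹ * G ε * SS q) 0 0) : ℝ) : ℂ) • _ = 0
      rw [this, Complex.ofReal_zero, zero_smul]
    have f1 : (SS p)⁻¹ * G γ * SS r ∈ Frames 3 :=
      Frames_mul (Frames_mul (Frames_inv (SS_SO hp).1).1 (hGSO γ).1) (SS_SO hr').1
    have f2 : (SS r)⁻¹ * (G γ)⁻¹ * G ε * SS q ∈ Frames 3 :=
      Frames_mul (Frames_mul (Frames_mul (Frames_inv (SS_SO hr').1).1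
        (Frames_inv (hGSO γ).1).1) (hGSO ε).1) (SS_SO hq).1
    have e3 := cvm_tri f1 f2 hα hβ e1 e2
    have e4 : (SS p)⁻¹ * G γ * SS r * ((SS r)⁻¹ * (G γ)⁻¹ * G ε * SS q)
        = (SS p)⁻¹ * G ε * SS q := by
      have g1 := (Frames_inv (SS_SO hr').1).2.2.2.1
      have g2 := (Frames_inv (hGSO γ).1).2.2.2.1
      calc _ = (SS p)⁻¹ * (G γ * (SS r * (SS r)⁻¹) * (G γ)⁻¹) * G ε * SS q := by
            simp only [Matrix.mul_assoc]
        _ = _ := by rw [g1, Matrix.mul_one, g2, Matrix.mul_one]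
    rw [e4] at e3
    exact e3
  -- the orbit functions
  set f : Γ → UH → ℝ := fun ε s =>
    A (2 * ((SS p)⁻¹ * SS s) 0 0) * B (2 * ((SS s)⁻¹ * (G ε * SS q)) 0 0) with hf
  have hfact : ∀ ε γ : Γ, ∀ r ∈ D, f ε (act (G γ) r) =
      A (2 * ((SS p)⁻¹ * G γ * SS r) 0 0) * B (2 * ((SS r)⁻¹ * (G γ)⁻¹ * G ε * SS q) 0 0) := by
    intro ε γ r hr
    have hr' : r ∈ UHs := hD.sub hr
    show A (2 * ((SS p)⁻¹ * SS (act (G γ) r)) 0 0) *
      B (2 * ((SS (act (G γ) r))⁻¹ * (G ε * SS q)) 0 0) = _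
    rw [cvm_act_left (hGSO γ) hr', cvm_act_inv (hGSO γ) hr']
    simp only [Matrix.mul_assoc]
  have htsumD : ∀ r ∈ D, ∀ ε, (∑' γ : Γ, f ε (act (((γ : (Mat 3)ˣ) : Mat 3)) r)) =
        ∑ γ ∈ S, A (2 * ((SS p)⁻¹ * G γ * SS r) 0 0) *
          B (2 * ((SS r)⁻¹ * (G γ)⁻¹ * G ε * SS q) 0 0) := by
    intro r hr ε
    rw [tsum_eq_sum (s := S)]
    · exact Finset.sum_congr rfl fun γ _ => hfact ε γ r hr
    · intro γ hγ
      have e0 := hfact ε γ r hr
      have e1 : A (2 * ((SS p)⁻¹ * G γ * SS r) 0 0) = 0 := by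
        apply hAs
        by_contra hcon
        rw [not_le] at hcon
        apply hγ
        rw [hS, Set.Finite.mem_toFinset]
        exact ⟨p, Or.inr (Or.inl rfl), r, Or.inl (hDK hr), by
          show ((SS p)⁻¹ * G γ * SS r) 0 0 ≤ _
          linarith⟩
      rw [e1, zero_mul] at e0
      exact e0
  have hint : ∀ r ∈ D, (ker k Γ A (SS p) (SS r) * ker k Γ B (SS r) (SS q)) a b
      = ∑ ε ∈ S, ((∑' γ : Γ, f ε (act (((γ : (Mat 3)ˣ) : Mat 3)) r) : ℝ) : ℂ) *
        rho k ((SS p)⁻¹ * G ε * SS q) a b := by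
    intro r hr
    have hr' : r ∈ UHs := hD.sub hr
    have htsum := htsumD r hr
    have hprod : ker k Γ A (SS p) (SS r) * ker k Γ B (SS r) (SS q) = ∑ γ ∈ S, ∑ ε ∈ S,
        ((A (2 * ((SS p)⁻¹ * G γ * SS r) 0 0) *
          B (2 * ((SS r)⁻¹ * (G γ)⁻¹ * G ε * SS q) 0 0) : ℝ) : ℂ) •
            rho k ((SS p)⁻¹ * G ε * SS q) := by
      rw [hkerA r hr, Finset.sum_mul]
      refine Finset.sum_congr rfl fun γ _ => ?_
      by_cases h0 : A (2 * ((SS p)⁻¹ * G γ * SS r) 0 0) = 0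
      · rw [h0, Complex.ofReal_zero, zero_smul, Matrix.zero_mul]
        symm
        apply Finset.sum_eq_zero
        intro ε _
        rw [zero_mul, Complex.ofReal_zero, zero_smul]
      · rw [hkerB r hr γ h0, Finset.mul_sum]
        refine Finset.sum_congr rfl fun ε _ => ?_
        rw [smul_mul_smul_comm, ← rho_mul, ← Complex.ofReal_mul]
        congr 2
        have g1 := (Frames_inv (SS_SO hr').1).2.2.2.1
        have g2 := (Frames_inv (hGSO γ).1).2.2.2.1
        calc _ = (SS p)⁻¹ * (G γ * (SS r * (SS r)⁻¹) * (G γ)⁻¹) * G ε * SS q := by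
              simp only [Matrix.mul_assoc]
          _ = _ := by rw [g1, Matrix.mul_one, g2, Matrix.mul_one]
    rw [hprod, Finset.sum_comm]
    simp only [htsum]
    rw [Matrix.sum_apply]
    refine Finset.sum_congr rfl fun ε _ => ?_
    rw [← Finset.sum_smul, Matrix.smul_apply, smul_eq_mul]
    congr 1
    push_cast
    rfl
  rw [setIntegral_congr_fun hD.meas hint]
  -- unfolding
  have hX : ∀ ε : Γ, G ε * SS q ∈ SO := fun ε => SO_mul (hGSO ε) (SS_SO hq)
  have horb := fun ε => cvm_orbit hA hB hp rfl (hX ε)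
  have hunf : ∀ ε, ∫ r in D, (∑' γ : Γ, f ε (act (((γ : (Mat 3)ˣ) : Mat 3)) r)) ∂mu
      = conv A B (2 * ((SS p)⁻¹ * G ε * SS q) 0 0) := by
    intro ε
    rw [← unfold_integral h hD (horb ε).1, (horb ε).2, Matrix.mul_assoc]
  have hintr : ∀ ε ∈ S, Integrable (fun r =>
      ((∑' γ : Γ, f ε (act (((γ : (Mat 3)ˣ) : Mat 3)) r) : ℝ) : ℂ) *
        rho k ((SS p)⁻¹ * G ε * SS q) a b) (mu.restrict D) := by
    intro ε _
    apply Integrable.mul_const
    apply Integrable.ofReal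
    have h1 : ∀ γ ∈ S, IntegrableOn (fun r => A (2 * ((SS p)⁻¹ * G γ * SS r) 0 0) *
          B (2 * ((SS r)⁻¹ * (G γ)⁻¹ * G ε * SS q) 0 0)) D mu := by
      intro γ _
      have hc : ContinuousOn (fun r => A (2 * ((SS p)⁻¹ * G γ * SS r) 0 0) *
          B (2 * ((SS r)⁻¹ * (G γ)⁻¹ * G ε * SS q) 0 0)) UHs := by
        apply ContinuousOn.mul
        · apply hA.cont.comp_continuousOn
          apply continuousOn_const.mul
          have h2 : Continuous (fun M : Mat 3 => ((SS p)⁻¹ * G γ * M) 0 0) := by fun_prop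
          exact h2.comp_continuousOn SS_smooth.continuousOn
        · apply hB.cont.comp_continuousOn
          apply continuousOn_const.mul
          have h2 : Continuous (fun M : Mat 3 => (M * (G γ)⁻¹ * G ε * SS q) 0 0) := by fun_prop
          exact h2.comp_continuousOn cvm_SSinv_cont
      have hfinK : IsFiniteMeasure (mu.restrict K) :=
        ⟨by rw [Measure.restrict_apply_univ]; exact mu_finite hK hKs⟩
      obtain ⟨C, hC⟩ := hK.exists_bound_of_continuousOn (hc.mono hKs)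
      have h3 : IntegrableOn (fun r => A (2 * ((SS p)⁻¹ * G γ * SS r) 0 0) *
          B (2 * ((SS r)⁻¹ * (G γ)⁻¹ * G ε * SS q) 0 0)) K mu := by
        apply Integrable.of_bound (C := C)
        · exact (hc.mono hKs).aestronglyMeasurable_of_isCompact hK hK.measurableSet
        · exact (ae_restrict_iff' hK.measurableSet).mpr (Filter.Eventually.of_forall hC)
      exact h3.mono_set hDK
    have h4 : IntegrableOn (fun r => ∑ γ ∈ S, A (2 * ((SS p)⁻¹ * G γ * SS r) 0 0) *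
          B (2 * ((SS r)⁻¹ * (G γ)⁻¹ * G ε * SS q) 0 0)) D mu :=
      integrable_finsetSum _ h1
    exact h4.congr_fun (fun r hr => (htsumD r hr ε).symm) hD.meas
  rw [integral_finsetSum _ hintr, hkerC, Matrix.sum_apply]
  refine Finset.sum_congr rfl fun ε _ => ?_
  rw [integral_mul_const, Matrix.smul_apply, smul_eq_mul]
  congr 1
  have h9 : ∫ r in D, ((∑' γ : Γ, f ε (act (((γ : (Mat 3)ˣ) : Mat 3)) r) : ℝ) : ℂ) ∂mu
      = ((∫ r in D, (∑' γ : Γ, f ε (act (((γ : (Mat 3)ˣ) : Mat 3)) r)) ∂mu : ℝ) : ℂ) :=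
    integral_ofReal
  rw [h9, hunf]

end

end Pool.Agent.Work.MP_14c213_gt
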