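import Pool.Agent.Work.MP_14c213_gt.A.PhiMul
import Pool.Agent.Work.MP_14c213_gt.A.RotM

/-!
Iwasawa decomposition and coordinates. For g ∈ GLo with g gᴴ = !![P, q; conj q, r]: p = (q/r, |det g|/r),
u = z⁻¹ (sec p)⁻¹ g unitary for suitable z. Uniqueness from cor. cor of a product with rot: the first
column does not change. SS p entries: column 0 is ((t²+|x|²+1)/(2t), Re x/t, -Im x/t, (t²+|x|²-1)/(2t)).
-/

namespace Pool.Agent.Work.MP_14c213_gt

open Matrix MeasureTheory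
open scoped Matrix ContDiff Matrix.Norms.Elementwise

noncomputable section

private theorem Iwa_det (p : UH) : (sec p).det = (p.2 : ℂ) := by
  simp [sec, Matrix.det_fin_two]

private theorem Iwa_norm_det {p : UH} (hp : p ∈ UHs) : ‖(sec p).det‖ = p.2 := by
  have h : 0 < p.2 := hp
  rw [Iwa_det, Complex.norm_real, Real.norm_eq_abs, abs_of_pos h]

theorem sec_mem {p : UH} (hp : p ∈ UHs) : sec p ∈ GLo := by
  have h : 0 < p.2 := hp
  show (sec p).det ≠ 0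
  rw [Iwa_det]
  exact_mod_cast h.ne'

theorem SS_SO {p : UH} (hp : p ∈ UHs) : SS p ∈ SO := Phi_SO (sec_mem hp)

theorem SS_col {p : UH} (hp : p ∈ UHs) :
    SS p 0 0 = (p.2 ^ 2 + ‖p.1‖ ^ 2 + 1) / (2 * p.2) ∧ SS p 1 0 = p.1.re / p.2 ∧
      SS p 2 0 = -p.1.im / p.2 ∧ SS p 3 0 = (p.2 ^ 2 + ‖p.1‖ ^ 2 - 1) / (2 * p.2) := by
  have h : 0 < p.2 := hp
  have hd := Iwa_norm_det hp
  have hn : ‖p.1‖ ^ 2 = p.1.re ^ 2 + p.1.im ^ 2 := by
    rw [← Complex.normSq_eq_norm_sq, Complex.normSq_apply]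
    ring
  rw [hn]
  refine ⟨?_, ?_, ?_, ?_⟩
  all_goals
    simp only [SS, Phi, Matrix.of_apply, hd]
    simp [pauli, sec, Matrix.trace, Fin.sum_univ_two, Matrix.vecMul,
      Matrix.conjTranspose_apply, Matrix.vecHead, Matrix.vecTail, Complex.mul_re, Complex.mul_im]
    field_simp
    try ring

private theorem Iwa_inv {g : M2} (hg : g ∈ GLo) : (Phi g)⁻¹ = Phi g⁻¹ ∧ g⁻¹ ∈ GLo := by
  have hu : IsUnit g.det := isUnit_iff_ne_zero.2 hg
  have h1 : g⁻¹ ∈ GLo := by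
    show (g⁻¹).det ≠ 0
    rw [Matrix.det_nonsing_inv]
    exact IsUnit.ne_zero (by
      rw [Ring.inverse_eq_inv']
      exact (isUnit_iff_ne_zero.2 (inv_ne_zero hg)))
  refine ⟨?_, h1⟩
  apply Matrix.inv_eq_right_inv
  rw [← Phi_mul hg h1, Matrix.mul_nonsing_inv g hu, Phi_one]

theorem SS_dist {p q : UH} (hp : p ∈ UHs) (hq : q ∈ UHs) :
    2 * ((SS p)⁻¹ * SS q) 0 0 = (‖p.1 - q.1‖ ^ 2 + p.2 ^ 2 + q.2 ^ 2) / (p.2 * q.2) := by
  have h : 0 < p.2 := hp
  have h' : 0 < q.2 := hq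
  have hc : (p.2 : ℂ) ≠ 0 := by exact_mod_cast h.ne'
  have hinv : (sec p)⁻¹ = !![(p.2 : ℂ)⁻¹, -p.1 / p.2; 0, 1] := by
    apply Matrix.inv_eq_right_inv
    ext i j
    fin_cases i <;> fin_cases j <;> simp [sec, Matrix.mul_apply, Fin.sum_univ_two, hc]
    field_simp
    ring
  have hprod : (sec p)⁻¹ * sec q = !![(q.2 : ℂ) / p.2, (q.1 - p.1) / p.2; 0, 1] := by
    rw [hinv]
    ext i j
    fin_cases i <;> fin_cases j <;> simp [sec, Matrix.mul_apply, Fin.sum_univ_two]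
    · field_simp
    · field_simp
      ring
  rw [SS, SS, (Iwa_inv (sec_mem hp)).1, ← Phi_mul (Iwa_inv (sec_mem hp)).2 (sec_mem hq), hprod,
    Phi_zero_zero]
  have hdet : ‖(!![(q.2 : ℂ) / p.2, (q.1 - p.1) / p.2; 0, 1] : M2).det‖ = q.2 / p.2 := by
    rw [Matrix.det_fin_two_of]
    simp [abs_of_pos h, abs_of_pos h']
  rw [hdet]
  have e1 : ‖((!![(q.2 : ℂ) / p.2, (q.1 - p.1) / p.2; 0, 1] : M2) 0 0)‖ = q.2 / p.2 := by
    simp [abs_of_pos h, abs_of_pos h']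
  have e2 : ‖((!![(q.2 : ℂ) / p.2, (q.1 - p.1) / p.2; 0, 1] : M2) 0 1)‖ = ‖p.1 - q.1‖ / p.2 := by
    simp [abs_of_pos h, norm_sub_rev]
  have e3 : ‖((!![(q.2 : ℂ) / p.2, (q.1 - p.1) / p.2; 0, 1] : M2) 1 0)‖ = 0 := by simp
  have e4 : ‖((!![(q.2 : ℂ) / p.2, (q.1 - p.1) / p.2; 0, 1] : M2) 1 1)‖ = 1 := by simp
  rw [e1, e2, e3, e4]
  field_simp
  ring

private theorem Iwa_ext {p : UH} {a : ℂ} {b : ℝ} (h1 : a = p.1) (h2 : b = p.2) : (a, b) = p := by
  rw [h1, h2]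

theorem cor_SS {p : UH} (hp : p ∈ UHs) : cor (SS p) = p := by
  have h : 0 < p.2 := hp
  have hc : (p.2 : ℂ) ≠ 0 := by exact_mod_cast h.ne'
  obtain ⟨h0, h1, h2, h3⟩ := SS_col hp
  unfold cor
  rw [h0, h1, h2, h3]
  apply Iwa_ext
  · have e : (((p.1.re / p.2 : ℝ) : ℂ) - Complex.I * ((-p.1.im / p.2 : ℝ) : ℂ)) = p.1 / p.2 := by
      push_cast
      conv_rhs => rw [← Complex.re_add_im p.1]
      field_simp
      ring
    rw [e]
    push_cast
    field_simp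
    ring
  · field_simp
    ring

private theorem Iwa_hyp {A : Mat 3} (hA : A ∈ Frames 3) :
    A 0 0 ^ 2 - A 3 0 ^ 2 = 1 + A 1 0 ^ 2 + A 2 0 ^ 2 ∧ 0 < A 0 0 - A 3 0 := by
  obtain ⟨h1, h2⟩ := hA
  have h3 := congrFun (congrFun h1 0) 0
  rw [Matrix.mul_apply] at h3
  have h3' : (∑ j : Fin 4, (Aᵀ * eta 3) 0 j * A j 0) = -1 := h3
  have h4 : ∀ j : Fin 4, (Aᵀ * eta 3) 0 j =
      A j 0 * (Fin.cons (-1) (fun _ : Fin 3 => (1 : ℝ)) : Fin 4 → ℝ) j := by
    intro j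
    exact Matrix.mul_diagonal _ _ _ _
  rw [Fin.sum_univ_four, h4, h4, h4, h4] at h3'
  have h5 : (Fin.cons (-1) (fun _ : Fin 3 => (1 : ℝ)) : Fin 4 → ℝ) 0 = -1 := rfl
  have h6 : (Fin.cons (-1) (fun _ : Fin 3 => (1 : ℝ)) : Fin 4 → ℝ) 1 = 1 := rfl
  have h7 : (Fin.cons (-1) (fun _ : Fin 3 => (1 : ℝ)) : Fin 4 → ℝ) 2 = 1 := rfl
  have h8 : (Fin.cons (-1) (fun _ : Fin 3 => (1 : ℝ)) : Fin 4 → ℝ) 3 = 1 := rfl
  rw [h5, h6, h7, h8] at h3'
  have h4 : A 0 0 ^ 2 - A 3 0 ^ 2 = 1 + A 1 0 ^ 2 + A 2 0 ^ 2 := by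
    linear_combination -h3'
  refine ⟨h4, ?_⟩
  by_contra hc
  have hc' : A 0 0 ≤ A 3 0 := by linarith [not_lt.1 hc]
  nlinarith [sq_nonneg (A 1 0), sq_nonneg (A 2 0)]

theorem cor_mem {A : Mat 3} (hA : A ∈ Frames 3) : cor A ∈ UHs := by
  have h := (Iwa_hyp hA).2
  show 0 < 1 / (A 0 0 - A 3 0)
  positivity

theorem cor_col {A B : Mat 3} (h : ∀ a, A a 0 = B a 0) : cor A = cor B := by
  unfold cor
  rw [h 0, h 1, h 2, h 3]

private theorem Iwa_SS_cor_col {A : Mat 3} (hA : A ∈ Frames 3) (a : Fin 4) :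
    SS (cor A) a 0 = A a 0 := by
  obtain ⟨h1, h2⟩ := Iwa_hyp hA
  obtain ⟨k0, k1, k2, k3⟩ := SS_col (cor_mem hA)
  have ht : (cor A).2 = 1 / (A 0 0 - A 3 0) := rfl
  have hx : (cor A).1 = (((A 1 0 / (A 0 0 - A 3 0) : ℝ) : ℂ) +
      ((-(A 2 0) / (A 0 0 - A 3 0) : ℝ) : ℂ) * Complex.I) := by
    show (((A 1 0 : ℂ) - Complex.I * A 2 0) / ((A 0 0 : ℂ) - A 3 0)) = _
    push_cast
    ring
  have hre : (cor A).1.re = A 1 0 / (A 0 0 - A 3 0) := by
    rw [hx]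
    simp only [Complex.add_re, Complex.mul_re, Complex.ofReal_re, Complex.ofReal_im,
      Complex.I_re, Complex.I_im]
    ring
  have him : (cor A).1.im = -(A 2 0) / (A 0 0 - A 3 0) := by
    rw [hx]
    simp only [Complex.add_im, Complex.mul_im, Complex.ofReal_re, Complex.ofReal_im,
      Complex.I_re, Complex.I_im]
    ring
  have hn : ‖(cor A).1‖ ^ 2 = (A 1 0 / (A 0 0 - A 3 0)) ^ 2 +
      (-(A 2 0) / (A 0 0 - A 3 0)) ^ 2 := by
    rw [← Complex.normSq_eq_norm_sq, Complex.normSq_apply, hre, him]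
    ring
  rw [ht, hn] at k0 k3
  rw [ht, hre] at k1
  rw [ht, him] at k2
  have hs : A 0 0 - A 3 0 ≠ 0 := h2.ne'
  have ha : a = 0 ∨ a = 1 ∨ a = 2 ∨ a = 3 := by
    fin_cases a <;> simp
  rcases ha with rfl | rfl | rfl | rfl
  · rw [k0]
    field_simp
    linear_combination -h1
  · rw [k1]
    field_simp
  · rw [k2]
    field_simp
  · rw [k3]
    field_simp
    linear_combination -h1

theorem SS_cor {A : Mat 3} (hA : A ∈ Frames 3) :
    ∃ k ∈ Matrix.orthogonalGroup (Fin 3) ℝ, SS (cor A) = A * rot k ∧ k.det = A.det := by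
  obtain ⟨i1, -, -, i4, i5⟩ := Frames_inv hA
  have hS := SS_SO (cor_mem hA)
  have hB : A⁻¹ * SS (cor A) ∈ Frames 3 := Frames_mul i1 hS.1
  have hB0 : (A⁻¹ * SS (cor A)) 0 0 = 1 := by
    rw [Matrix.mul_apply]
    simp only [Iwa_SS_cor_col hA]
    rw [← Matrix.mul_apply, i5, Matrix.one_apply_eq]
  obtain ⟨k, hk, hke⟩ := Frames_eq_rot hB hB0
  have h1 : SS (cor A) = A * rot k := by
    rw [← hke, ← Matrix.mul_assoc, i4, Matrix.one_mul]
  refine ⟨k, hk, h1, ?_⟩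
  have h2 : (SS (cor A)).det = A.det * k.det := by
    rw [h1, Matrix.det_mul, rot_det]
  rw [hS.2] at h2
  rcases Frames_det hA with h3 | h3
  · rw [h3] at h2 ⊢
    linarith
  · rw [h3] at h2 ⊢
    linarith

theorem iwasawa {g : M2} (hg : g ∈ GLo) :
    ∃ z : ℂ, z ≠ 0 ∧ ∃ u ∈ Matrix.unitaryGroup (Fin 2) ℂ, g = z • (sec (cor (Phi g)) * u) := by
  have hP := Phi_SO hg
  obtain ⟨k, hk, h1, h2⟩ := SS_cor hP.1
  obtain ⟨u, hu, hku⟩ := Rot_surj hk (by rw [h2, hP.2])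
  have hPu := (Phi_unitary hu).1
  have hu1 : u * star u = 1 := Matrix.mem_unitaryGroup_iff.1 hu
  have hug : u ∈ GLo := by
    show u.det ≠ 0
    intro h
    have h3 := congrArg Matrix.det hu1
    rw [Matrix.det_mul, h, zero_mul, Matrix.det_one] at h3
    exact zero_ne_one h3
  have hgu : g * u ∈ GLo := by
    show (g * u).det ≠ 0
    rw [Matrix.det_mul]
    exact mul_ne_zero hg hug
  have h3 : Phi (sec (cor (Phi g))) = Phi (g * u) := by
    rw [Phi_mul hg hug, hPu, hku]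
    exact h1
  obtain ⟨z, hz, hze⟩ := Phi_inj (sec_mem (cor_mem hP.1)) hgu h3
  refine ⟨z, hz, star u, Unitary.star_mem hu, ?_⟩
  calc g = g * u * star u := by rw [Matrix.mul_assoc, hu1, Matrix.mul_one]
    _ = z • (sec (cor (Phi g)) * star u) := by rw [hze, Matrix.smul_mul]

private theorem Iwa_entry (i j : Fin 2) : ContDiff ℝ ∞ fun p : UH => sec p i j := by
  fin_cases i <;> fin_cases j
  · exact Complex.ofRealCLM.contDiff.comp contDiff_snd
  · exact contDiff_fst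
  · exact contDiff_const
  · exact contDiff_const

theorem sec_smooth : ContDiff ℝ ∞ sec := by
  refine contDiff_pi.2 fun i => contDiff_pi.2 fun j => ?_
  exact Iwa_entry i j

theorem SS_smooth : ContDiffOn ℝ ∞ SS UHs := by
  refine contDiffOn_pi.2 fun a => contDiffOn_pi.2 fun b => ?_
  have hnum : ContDiff ℝ ∞ fun p : UH => (2⁻¹ * (pauli a * sec p * pauli b * (sec p)ᴴ).trace).re := by
    refine Complex.reCLM.contDiff.comp (contDiff_const.mul ?_)
    have hs : ∀ i j : Fin 2, ContDiff ℝ ∞ fun p : UH => ((sec p)ᴴ) i j := by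
      intro i j
      exact Complex.conjCLE.contDiff.comp (Iwa_entry j i)
    simp only [Matrix.trace, Matrix.diag, Matrix.mul_apply, Fin.sum_univ_two]
    have h0 := Iwa_entry
    exact ((((contDiff_const.mul (h0 _ _)).add (contDiff_const.mul (h0 _ _))).mul contDiff_const |>.add
      (((contDiff_const.mul (h0 _ _)).add (contDiff_const.mul (h0 _ _))).mul contDiff_const) |>.mul
        (hs _ _) |>.add
      ((((contDiff_const.mul (h0 _ _)).add (contDiff_const.mul (h0 _ _))).mul contDiff_const |>.add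
      (((contDiff_const.mul (h0 _ _)).add (contDiff_const.mul (h0 _ _))).mul contDiff_const)).mul
        (hs _ _))).add
      (((contDiff_const.mul (h0 _ _)).add (contDiff_const.mul (h0 _ _))).mul contDiff_const |>.add
      (((contDiff_const.mul (h0 _ _)).add (contDiff_const.mul (h0 _ _))).mul contDiff_const) |>.mul
        (hs _ _) |>.add
      ((((contDiff_const.mul (h0 _ _)).add (contDiff_const.mul (h0 _ _))).mul contDiff_const |>.add
      (((contDiff_const.mul (h0 _ _)).add (contDiff_const.mul (h0 _ _))).mul contDiff_const)).mul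
        (hs _ _))))
  have h2 : ContDiffOn ℝ ∞ (fun p : UH =>
      (2⁻¹ * (pauli a * sec p * pauli b * (sec p)ᴴ).trace).re / p.2) UHs :=
    hnum.contDiffOn.div contDiff_snd.contDiffOn fun p hp => ne_of_gt (show 0 < p.2 from hp)
  refine h2.congr fun p hp => ?_
  show (2⁻¹ * (pauli a * sec p * pauli b * (sec p)ᴴ).trace).re / ‖(sec p).det‖ = _
  rw [Iwa_norm_det hp]

theorem UHs_open : IsOpen UHs := isOpen_lt continuous_const continuous_snd

end

end Pool.Agent.Work.MP_14c213_gt
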