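import Pool.Agent.Work.MP_14c213_gt.A.Calc
import Pool.Agent.Work.MP_14c213_gt.A.PhiCurve
import Pool.Agent.Work.MP_14c213_gt.A.RotM
import Pool.Agent.Work.MP_14c213_gt.A.Iwa

/-!
Divergence theorem with compact support, in coordinates. With f_i (x,t) = w i (sec (x,t)):
sec(x,t) bst 2 τ = scalar • sec(x, t e^τ), so E (eX 2) w = t ∂_t. eX 0 = n - κ with n = !![0,1;0,0],
κ = !![0,1/2;-1/2,0] ∈ su(2), sec(x,t)(1 + τ n) = sec(x + tτ, t), and E κ is given by equivariance.
Result: ∑ E (eX i) (w i) (sec p) = t∂₁f₀ - t∂₂f₁ + t∂_t f₂ - 2 f₂ (x = x₁ + i x₂; the sign comes from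
Phi). Hence (∑ E ..) t⁻³ = ∂₁(t⁻²f₀) - ∂₂(t⁻²f₁) + ∂_t(t⁻²f₂).
-/

namespace Pool.Agent.Work.MP_14c213_gt

open Matrix MeasureTheory
open scoped Matrix ContDiff Matrix.Norms.Elementwise

noncomputable section

/-- `w` transforms like a vector field. -/
def VecEq (w : Fin 3 → M2 → ℂ) : Prop :=
  (∀ i, ContDiffOn ℝ ∞ (w i) GLo) ∧ (∀ i, ∀ z : ℂ, z ≠ 0 → ∀ g ∈ GLo, w i (z • g) = w i g) ∧
    ∀ u ∈ Matrix.unitaryGroup (Fin 2) ℂ, ∀ g ∈ GLo, ∀ i,
      w i (g * u) = ∑ j, (Rot u j i : ℂ) * w j g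

/-- entries of a differentiable matrix curve. -/
theorem divc_entry {c : ℝ → Mat 3} {Y : Mat 3} {t : ℝ} (hc : HasDerivAt c Y t) (a b : Fin 4) :
    HasDerivAt (fun s => c s a b) (Y a b) t := by
  have := (LinearMap.toContinuousLinearMap (Matrix.entryLinearMap ℝ ℝ a b) :
    Mat 3 →L[ℝ] ℝ).hasFDerivAt.comp_hasDerivAt t hc
  exact this

/-- infinitesimal rotations act on vector fields by constant matrices. -/
theorem divc_rt {w : Fin 3 → M2 → ℂ} (hw : VecEq w) (l i : Fin 3) {g : M2} (hg : g ∈ GLo) :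
    E (rX l) (w i) g = ∑ j, ((rY l) j.succ i.succ : ℂ) * w j g := by
  have h0 : rt l 0 = 1 := rt_zero l
  have hc : HasDerivAt (fun s => g * rt l s) (g * rt l 0 * rX l) 0 := by
    have := (cgMk (LinearMap.mulLeft ℝ g)).hasFDerivAt.comp_hasDerivAt 0 (rt_deriv l 0)
    rw [mul_assoc]
    exact this
  have h1 := E_curve (c := fun s => g * rt l s) (X := rX l) (t := 0) (hw.1 i) hc
    (by simpa [h0] using hg)
  have h2 : HasDerivAt (fun s => ∑ j, (Rot (rt l s) j i : ℂ) * w j g)
      (∑ j, ((rY l) j.succ i.succ : ℂ) * w j g) 0 := by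
    have := HasDerivAt.fun_sum (u := Finset.univ) (A := fun (j : Fin 3) (s : ℝ) =>
      (Rot (rt l s) j i : ℂ) * w j g) (A' := fun j => ((rY l) j.succ i.succ : ℂ) * w j g)
      (x := (0 : ℝ)) (fun j _ => ?_)
    · exact this
    · have e := divc_entry (Phi_rt_deriv l 0) j.succ i.succ
      have e1 : Phi (rt l 0) * rY l = rY l := by
        rw [h0]
        have : Phi 1 = 1 := by
          have := Phi_bst l 0
          rw [bst_zero] at this
          rw [this]
          ext a b
          unfold boost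
          simp only [Matrix.of_apply, Real.cosh_zero, Real.sinh_zero, Matrix.one_apply]
          by_cases hab : a = b
          · subst hab
            by_cases h : a = 0 <;> by_cases h' : a = l.succ <;> simp [h, h']
          · have hba : ¬ b = a := fun h => hab h.symm
            by_cases h : a = 0 <;> by_cases h' : a = l.succ <;> by_cases h3 : b = 0 <;>
              by_cases h4 : b = l.succ <;> simp_all
        rw [this, one_mul]
      rw [e1] at e
      exact e.ofReal_comp.mul_const (w j g)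
  have h3 : (fun s => w i (g * rt l s)) = fun s => ∑ j, (Rot (rt l s) j i : ℂ) * w j g := by
    funext s
    exact hw.2.2 _ (rt_unitary l s) g hg i
  simp only [h3] at h1
  have h4 : g * rt l 0 = g := by rw [h0, mul_one]
  rw [h4] at h1
  exact h1.unique h2

/-- the derivative of `sec`. -/
def secL : UH →L[ℝ] M2 := LinearMap.toContinuousLinearMap
  { toFun := fun v => !![(v.2 : ℂ), v.1; 0, 0]
    map_add' := by
      intro u v
      ext a b
      fin_cases a <;> fin_cases b <;> simp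
    map_smul' := by
      intro c v
      ext a b
      fin_cases a <;> fin_cases b <;> simp }

theorem secL_apply (v : UH) : secL v = !![(v.2 : ℂ), v.1; 0, 0] := rfl

theorem sec_hasFDerivAt (p : UH) : HasFDerivAt sec secL p := by
  have h : sec = fun q => secL q + !![0, 0; 0, 1] := by
    funext q
    rw [secL_apply]
    unfold sec
    ext a b
    fin_cases a <;> fin_cases b <;> simp
  rw [h]
  exact secL.hasFDerivAt.add_const _

theorem divc_chain {V : Type*} [NormedAddCommGroup V] [NormedSpace ℝ V] {f : M2 → V}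
    (hf : ContDiffOn ℝ ∞ f GLo) {p : UH} (hp : p ∈ UHs) (v : UH) :
    fderiv ℝ (fun q => f (sec q)) p v = fderiv ℝ f (sec p) (secL v) := by
  have h1 : HasFDerivAt f (fderiv ℝ f (sec p)) (sec p) :=
    (cg_diffAt GLo_open hf (sec_mem hp)).hasFDerivAt
  have h2 := h1.comp p (sec_hasFDerivAt p)
  have h3 : fderiv ℝ (fun q => f (sec q)) p = _ := h2.fderiv
  rw [h3]
  rfl

theorem div_coord {w : Fin 3 → M2 → ℂ} (hw : VecEq w) {p : UH} (hp : p ∈ UHs) :
    ∑ i, E (eX i) (w i) (sec p) =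
      (p.2 : ℂ) * (fderiv ℝ (fun q => w 0 (sec q)) p (1, 0)
        - fderiv ℝ (fun q => w 1 (sec q)) p (Complex.I, 0)
        + fderiv ℝ (fun q => w 2 (sec q)) p (0, 1)) - 2 * w 2 (sec p) := by
  have hg : sec p ∈ GLo := sec_mem hp
  rw [divc_chain (hw.1 0) hp, divc_chain (hw.1 1) hp, divc_chain (hw.1 2) hp]
  have m0 : sec p * eX 0 = (p.2 : ℝ) • secL (1, 0) - sec p * rX 1 := by
    rw [secL_apply]
    unfold sec eX rX pauli
    ext a b
    fin_cases a <;> fin_cases b <;> simp [Matrix.mul_apply, Fin.sum_univ_two] <;> ring_nf <;>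
      simp [Complex.I_sq] <;> ring
  have m1 : sec p * eX 1 = sec p * rX 0 - (p.2 : ℝ) • secL (Complex.I, 0) := by
    rw [secL_apply]
    unfold sec eX rX pauli
    ext a b
    fin_cases a <;> fin_cases b <;> simp [Matrix.mul_apply, Fin.sum_univ_two] <;> ring_nf <;>
      simp [Complex.I_sq] <;> ring
  have m2 : sec p * eX 2 = (p.2 : ℝ) • secL (0, 1) - sec p * ((1 / 2 : ℂ) • (1 : M2)) := by
    rw [secL_apply]
    unfold sec eX pauli
    ext a b
    fin_cases a <;> fin_cases b <;> simp [Matrix.mul_apply, Fin.sum_univ_two] <;> ring_nf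
  have r0 : E (rX 1) (w 0) (sec p) = w 2 (sec p) := by
    rw [divc_rt hw 1 0 hg, Fin.sum_univ_three]
    unfold rY
    simp [Matrix.single_apply]
  have r1 : E (rX 0) (w 1) (sec p) = -w 2 (sec p) := by
    rw [divc_rt hw 0 1 hg, Fin.sum_univ_three]
    unfold rY
    simp [Matrix.single_apply]
  have r2 : E ((1 / 2 : ℂ) • (1 : M2)) (w 2) (sec p) = 0 := E_scalar (hw.1 2) (hw.2.1 2) _ hg
  rw [Fin.sum_univ_three]
  unfold E at r0 r1 r2 ⊢
  rw [m0, m1, m2, map_sub, map_sub, map_sub, map_smul, map_smul, map_smul, r0, r1, r2]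
  simp only [Complex.real_smul]
  ring

/-- integral of a partial derivative of a function with compact support. -/
theorem divc_int {G : UH → ℂ} (hG : ContDiff ℝ 1 G) (hs : HasCompactSupport G) (v : UH) :
    ∫ p, fderiv ℝ G p v = 0 ∧ Integrable (fun p => fderiv ℝ G p v) := by
  have hc : Continuous fun p => fderiv ℝ G p v :=
    (hG.continuous_fderiv (by norm_num)).clm_apply continuous_const
  have hi : Integrable (fun p => fderiv ℝ G p v) :=
    hc.integrable_of_hasCompactSupport (hs.fderiv_apply (𝕜 := ℝ) v)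
  refine ⟨?_, hi⟩
  have hGi : Integrable G := hG.continuous.integrable_of_hasCompactSupport hs
  have : (volume : Measure UH).IsAddHaarMeasure := by
    rw [Measure.volume_eq_prod]
    infer_instance
  have h := integral_smul_fderiv_eq_neg_fderiv_smul_of_integrable (μ := (volume : Measure UH))
    (f := fun _ : UH => (1 : ℝ)) (g := G) (v := v) (by simp)
    (by simpa using hi) (by simpa using hGi)
    (fun x _ => differentiableAt_const _) (fun x _ => (hG.differentiable (by norm_num)).differentiableAt)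
  simpa using h

open Classical in
theorem div_compact {w : Fin 3 → M2 → ℂ} (hw : VecEq w) {K : Set UH} (hK : IsCompact K)
    (hKs : K ⊆ UHs) (h0 : ∀ i, ∀ g ∈ GLo, cor (Phi g) ∉ K → w i g = 0) :
    ∫ p in UHs, ∑ i, E (eX i) (w i) (sec p) ∂mu = 0 := by
  have hmU : MeasurableSet UHs := UHs_open.measurableSet
  -- the vector fields in coordinates
  obtain ⟨G, hGd⟩ : ∃ G : Fin 3 → UH → ℂ, G = fun i p =>
    if p ∈ UHs then ((p.2 : ℂ) ^ 2)⁻¹ * w i (sec p) else 0 := ⟨_, rfl⟩
  have hGK : ∀ i p, p ∉ K → G i p = 0 := by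
    intro i p hp
    rw [hGd]
    by_cases h : p ∈ UHs
    · simp only [h, if_true]
      rw [h0 i (sec p) (sec_mem h), mul_zero]
      have : cor (Phi (sec p)) = p := cor_SS h
      rw [this]
      exact hp
    · simp [h]
  have hsm : ∀ i, ∀ p ∈ UHs, ContDiffAt ℝ ∞ (fun q : UH => ((q.2 : ℂ) ^ 2)⁻¹ * w i (sec q)) p := by
    intro i p hp
    have hp2 : (p.2 : ℂ) ≠ 0 := by
      rw [Complex.ofReal_ne_zero]; exact (ne_of_gt hp)
    have c1 : ContDiffAt ℝ ∞ (fun q : UH => (q.2 : ℂ)) p :=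
      Complex.ofRealCLM.contDiff.contDiffAt.comp p contDiff_snd.contDiffAt
    have c2 : ContDiffAt ℝ ∞ (fun q : UH => ((q.2 : ℂ) ^ 2)⁻¹) p := (c1.pow 2).inv (pow_ne_zero 2 hp2)
    have c3 : ContDiffAt ℝ ∞ (fun q : UH => w i (sec q)) p :=
      ((hw.1 i).contDiffAt (GLo_open.mem_nhds (sec_mem hp))).comp p sec_smooth.contDiffAt
    exact c2.mul c3
  have hGsm : ∀ i, ContDiff ℝ ∞ (G i) := by
    intro i
    rw [contDiff_iff_contDiffAt]
    intro p
    by_cases hp : p ∈ UHs
    · refine (hsm i p hp).congr_of_eventuallyEq ?_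
      filter_upwards [UHs_open.mem_nhds hp] with q hq
      rw [hGd]
      simp [hq]
    · have hpK : p ∉ K := fun h => hp (hKs h)
      refine (contDiffAt_const (c := (0 : ℂ))).congr_of_eventuallyEq ?_
      filter_upwards [hK.isClosed.isOpen_compl.mem_nhds hpK] with q hq
      exact hGK i q hq
  have hGc : ∀ i, HasCompactSupport (G i) := fun i =>
    HasCompactSupport.intro hK (fun p hp => hGK i p hp)
  have hint : ∀ i v, ∫ p, fderiv ℝ (G i) p v = 0 ∧ Integrable (fun p => fderiv ℝ (G i) p v) :=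
    fun i v => divc_int ((hGsm i).of_le (by exact_mod_cast le_top)) (hGc i) v
  -- the derivatives inside
  have hder : ∀ i, ∀ p ∈ UHs, ∀ v : UH, fderiv ℝ (G i) p v =
      ((p.2 : ℂ) ^ 2)⁻¹ * fderiv ℝ (fun q => w i (sec q)) p v
        - 2 * (v.2 : ℂ) * ((p.2 : ℂ) ^ 3)⁻¹ * w i (sec p) := by
    intro i p hp v
    have hp2 : (p.2 : ℂ) ≠ 0 := by
      rw [Complex.ofReal_ne_zero]; exact (ne_of_gt hp)
    have e1 : G i =ᶠ[nhds p] fun q : UH => ((q.2 : ℂ) ^ 2)⁻¹ * w i (sec q) := by
      filter_upwards [UHs_open.mem_nhds hp] with q hq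
      rw [hGd]
      simp [hq]
    rw [e1.fderiv_eq]
    have d1 : HasFDerivAt (fun q : UH => (q.2 : ℂ))
        (Complex.ofRealCLM.comp (ContinuousLinearMap.snd ℝ ℂ ℝ)) p :=
      Complex.ofRealCLM.hasFDerivAt.comp p hasFDerivAt_snd
    have d2 : HasFDerivAt (fun q : UH => ((q.2 : ℂ) ^ 2)⁻¹)
        ((-(2 * (p.2 : ℂ)) / ((p.2 : ℂ) ^ 2) ^ 2) •
          (Complex.ofRealCLM.comp (ContinuousLinearMap.snd ℝ ℂ ℝ))) p := by
      have h1 : HasDerivAt (fun z : ℂ => (z ^ 2)⁻¹) (-(2 * (p.2 : ℂ)) / ((p.2 : ℂ) ^ 2) ^ 2)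
          (p.2 : ℂ) := by
        have := (hasDerivAt_pow 2 (p.2 : ℂ)).inv (pow_ne_zero 2 hp2)
        have e : (fun z : ℂ => (z ^ 2)⁻¹) = (fun z : ℂ => z ^ 2)⁻¹ := rfl
        rw [e]
        simpa using this
      exact HasDerivAt.comp_hasFDerivAt (h₂ := fun z : ℂ => (z ^ 2)⁻¹)
        (f := fun q : UH => (q.2 : ℂ)) p h1 d1
    have d3 : HasFDerivAt (fun q : UH => w i (sec q)) (fderiv ℝ (fun q : UH => w i (sec q)) p) p := by
      have c3 : ContDiffAt ℝ ∞ (fun q : UH => w i (sec q)) p :=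
        ((hw.1 i).contDiffAt (GLo_open.mem_nhds (sec_mem hp))).comp p sec_smooth.contDiffAt
      exact (c3.differentiableAt (by simp)).hasFDerivAt
    have d4 := d2.mul d3
    have h4 : fderiv ℝ (fun q : UH => ((q.2 : ℂ) ^ 2)⁻¹ * w i (sec q)) p = _ := d4.fderiv
    rw [h4]
    simp only [_root_.add_apply, _root_.smul_apply, ContinuousLinearMap.comp_apply,
      ContinuousLinearMap.coe_snd', Complex.ofRealCLM_apply, smul_eq_mul]
    field_simp
    ring
  -- rewrite the integral
  have hmu : ∫ p in UHs, ∑ i, E (eX i) (w i) (sec p) ∂mu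
      = ∫ p in UHs, (fderiv ℝ (G 0) p (1, 0) - fderiv ℝ (G 1) p (Complex.I, 0)
        + fderiv ℝ (G 2) p (0, 1)) := by
    have hm : Measurable fun p : UH => ENNReal.ofReal (p.2 ^ (-3 : ℤ)) := by fun_prop
    unfold mu
    rw [restrict_withDensity hmU, Measure.restrict_restrict hmU, Set.inter_self,
      integral_withDensity_eq_integral_toReal_smul hm
        (Filter.Eventually.of_forall fun _ => ENNReal.ofReal_lt_top)]
    refine setIntegral_congr_fun hmU fun p hp => ?_
    have hp0 : (0 : ℝ) < p.2 := hp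
    have hp2 : (p.2 : ℂ) ≠ 0 := by
      rw [Complex.ofReal_ne_zero]; exact hp0.ne'
    rw [ENNReal.toReal_ofReal (by positivity), div_coord hw hp, hder 0 p hp, hder 1 p hp,
      hder 2 p hp, Complex.real_smul]
    push_cast
    have e3 : (p.2 : ℂ) ^ (-3 : ℤ) = ((p.2 : ℂ) ^ 3)⁻¹ := by
      rw [_root_.zpow_neg]; norm_cast
    rw [e3]
    field_simp
    ring
  rw [hmu]
  have hzero : ∀ p, p ∉ UHs → (fderiv ℝ (G 0) p (1, 0) - fderiv ℝ (G 1) p (Complex.I, 0)
        + fderiv ℝ (G 2) p (0, 1)) = 0 := by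
    intro p hp
    have hpK : p ∉ K := fun h => hp (hKs h)
    have : ∀ i, fderiv ℝ (G i) p = 0 := by
      intro i
      have e : G i =ᶠ[nhds p] fun _ => (0 : ℂ) := by
        filter_upwards [hK.isClosed.isOpen_compl.mem_nhds hpK] with q hq
        exact hGK i q hq
      rw [e.fderiv_eq]
      simp
    rw [this, this, this]
    simp
  rw [setIntegral_eq_integral_of_forall_compl_eq_zero hzero]
  have hs : Integrable fun p => fderiv ℝ (G 0) p (1, 0) - fderiv ℝ (G 1) p (Complex.I, 0) :=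
    (hint 0 _).2.sub (hint 1 _).2
  rw [integral_add hs (hint 2 _).2, integral_sub (hint 0 _).2 (hint 1 _).2, (hint 0 _).1,
    (hint 1 _).1, (hint 2 _).1]
  simp

end

end Pool.Agent.Work.MP_14c213_gt
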