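import Pool.Agent.Work.MP_14c213_gt.A.SectM
import Pool.Agent.Work.MP_14c213_gt.A.Unf
import Pool.Agent.Work.MP_14c213_gt.A.DivC

/-!
Euclidean gradients are controlled by covariant derivatives on compact sets: with f p = F (sec p),
t ∂f = E F + (constant matrix) f in the directions of DivC.div_coord (for sections of tau k), and
L² norms over a compact set are controlled by L² norms over D (FD_compact applied to ‖F (sec p)‖² etc.,
which are Γ-invariant in the euclidean norm since rotations act unitarily; norms on Ix k → ℂ are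
equivalent to the euclidean norm).
-/

namespace Pool.Agent.Work.MP_14c213_gt

open Matrix MeasureTheory
open scoped Matrix ContDiff Matrix.Norms.Elementwise

noncomputable section

/-! Euclidean norms -/

/-- squared euclidean norm -/
def gbN {J : Type} [Fintype J] (v : J → ℂ) : ℝ := ∑ j, ‖v j‖ ^ 2

theorem gbN_eq {J : Type} [Fintype J] (v : J → ℂ) : star v ⬝ᵥ v = ((gbN v : ℝ) : ℂ) := by
  unfold gbN dotProduct
  push_cast
  refine Finset.sum_congr rfl fun j _ => ?_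
  rw [Pi.star_apply, Complex.star_def, Complex.conj_mul']

theorem gbN_nonneg {J : Type} [Fintype J] (v : J → ℂ) : 0 ≤ gbN v :=
  Finset.sum_nonneg fun j _ => by positivity

theorem gbN_unitary {J : Type} [Fintype J] [DecidableEq J] {U : Matrix J J ℂ} (hU : Uᴴ * U = 1)
    (v : J → ℂ) : gbN (U *ᵥ v) = gbN v := by
  have h1 : star (U *ᵥ v) ⬝ᵥ (U *ᵥ v) = star v ⬝ᵥ v := by
    rw [Matrix.star_mulVec, ← Matrix.dotProduct_mulVec, Matrix.mulVec_mulVec, hU, Matrix.one_mulVec]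
  rw [gbN_eq, gbN_eq] at h1
  exact_mod_cast h1

theorem gbN_norm_le {J : Type} [Fintype J] (v : J → ℂ) : ‖v‖ ^ 2 ≤ gbN v := by
  have h1 : ‖v‖ ≤ Real.sqrt (gbN v) := by
    refine (pi_norm_le_iff_of_nonneg (Real.sqrt_nonneg _)).2 fun j => ?_
    apply Real.le_sqrt_of_sq_le
    exact Finset.single_le_sum (f := fun j => ‖v j‖ ^ 2) (fun j _ => by positivity)
      (Finset.mem_univ j)
  calc ‖v‖ ^ 2 ≤ (Real.sqrt (gbN v)) ^ 2 := by gcongr
    _ = gbN v := Real.sq_sqrt (gbN_nonneg v)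

theorem gbN_le_norm {J : Type} [Fintype J] (v : J → ℂ) : gbN v ≤ Fintype.card J * ‖v‖ ^ 2 := by
  calc gbN v ≤ ∑ _j : J, ‖v‖ ^ 2 := Finset.sum_le_sum fun j _ => by
        gcongr; exact norm_le_pi_norm v j
    _ = Fintype.card J * ‖v‖ ^ 2 := by simp

theorem gbN_cont {J : Type} [Fintype J] : Continuous (gbN : (J → ℂ) → ℝ) := by
  unfold gbN; fun_prop

/-! Invariance -/

theorem gb_tau_unitary (k : ℕ) {m : Matrix (Fin 3) (Fin 3) ℝ}
    (hm : m ∈ Matrix.orthogonalGroup (Fin 3) ℝ) : (tau k mᵀ)ᴴ * tau k mᵀ = 1 := by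
  have h1 : m * mᵀ = 1 := by
    have := (Matrix.mem_orthogonalGroup_iff (Fin 3) ℝ).1 hm
    exact this
  unfold tau
  rw [← rho_transpose, ← rho_mul, ← rot_transpose, ← rot_mul, Matrix.transpose_transpose, h1,
    rot_one, rho_one]

theorem gb_unitary_GLo {u : M2} (hu : u ∈ Matrix.unitaryGroup (Fin 2) ℂ) : u ∈ GLo := by
  have h1 := (Matrix.mem_unitaryGroup_iff).1 hu
  have h2 := congrArg Matrix.det h1
  rw [Matrix.det_mul, Matrix.det_one] at h2
  exact left_ne_zero_of_mul (h2 ▸ one_ne_zero)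

theorem gb_act {Γ : Subgroup (Mat 3)ˣ} (h : Klein Γ) {γ : (Mat 3)ˣ} (hγ : γ ∈ Γ) {p : UH}
    (hp : p ∈ UHs) : ∃ z : ℂ, z ≠ 0 ∧ ∃ g ∈ GLo, Phi g = (γ : Mat 3) ∧
      ∃ u ∈ Matrix.unitaryGroup (Fin 2) ℂ, sec (act (γ : Mat 3) p) = z • (g * sec p * u) := by
  obtain ⟨g, hg, he⟩ := Phi_surj (Klein_SO h hγ)
  obtain ⟨z, hz, u, hu, hs⟩ := act_sec hg hp
  exact ⟨z, hz, g, hg, he, u, hu, by rw [← he]; exact hs⟩

theorem gb_inv_sect {k : ℕ} {Γ : Subgroup (Mat 3)ˣ} (h : Klein Γ) {F : M2 → Ix k → ℂ}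
    (hF : F ∈ Sect (tau k) Γ) {γ : (Mat 3)ˣ} (hγ : γ ∈ Γ) {p : UH} (hp : p ∈ UHs) :
    gbN (F (sec (act (γ : Mat 3) p))) = gbN (F (sec p)) := by
  obtain ⟨z, hz, g, hg, he, u, hu, hs⟩ := gb_act h hγ hp
  obtain ⟨-, -, h3, h4, h5⟩ := hF
  have hsp := sec_mem hp
  have hgs : g * sec p ∈ GLo := GLo_mul hg hsp
  rw [hs, h3 z hz _ (GLo_mul hgs (gb_unitary_GLo hu)), h5 u hu _ hgs, h4 γ hγ g hg he _ hsp]
  exact gbN_unitary (gb_tau_unitary k (Phi_unitary hu).2.1) _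

theorem gb_inv_vec {k : ℕ} {Γ : Subgroup (Mat 3)ˣ} (h : Klein Γ) {H : Fin 3 → M2 → Ix k → ℂ}
    (hH : Vec k Γ H) {γ : (Mat 3)ˣ} (hγ : γ ∈ Γ) {p : UH} (hp : p ∈ UHs) :
    ∑ i, gbN (H i (sec (act (γ : Mat 3) p))) = ∑ i, gbN (H i (sec p)) := by
  obtain ⟨z, hz, g, hg, he, u, hu, hs⟩ := gb_act h hγ hp
  have hsp := sec_mem hp
  have hgs : g * sec p ∈ GLo := GLo_mul hg hsp
  have hR := (Phi_unitary hu).2.1
  have h1 : ∀ i, H i (sec (act (γ : Mat 3) p))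
      = ∑ j, (Rot u j i : ℂ) • (tau k (Rot u)ᵀ *ᵥ H j (sec p)) := by
    intro i
    rw [hs, hH.scal i z hz _ (GLo_mul hgs (gb_unitary_GLo hu)), hH.equiv u hu _ hgs i]
    refine Finset.sum_congr rfl fun j _ => ?_
    rw [hH.inv j γ hγ g hg he _ hsp]
  set w : Fin 3 → Ix k → ℂ := fun j => tau k (Rot u)ᵀ *ᵥ H j (sec p) with hw
  have hw1 : ∀ j, gbN (w j) = gbN (H j (sec p)) := fun j =>
    gbN_unitary (gb_tau_unitary k hR) _
  have hU : ((((Rot u)ᵀ).map (fun x : ℝ => (x : ℂ))))ᴴ * (((Rot u)ᵀ).map (fun x : ℝ => (x : ℂ))) = 1 := by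
    have h2 : Rot u * (Rot u)ᵀ = 1 := by
      have := (Matrix.mem_orthogonalGroup_iff (Fin 3) ℝ).1 hR
      exact this
    ext a b
    have h3 := congrFun (congrFun h2 a) b
    rw [Matrix.mul_apply] at h3 ⊢
    simp only [Matrix.conjTranspose_apply, Matrix.map_apply, Matrix.transpose_apply,
      Complex.star_def, Complex.conj_ofReal] at h3 ⊢
    have h4 : ((∑ x, Rot u a x * Rot u b x : ℝ) : ℂ) = (((1 : Matrix (Fin 3) (Fin 3) ℝ) a b : ℝ) : ℂ) := by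
      rw [h3]
    push_cast at h4
    rw [h4, Matrix.one_apply, Matrix.one_apply]
    split_ifs <;> simp
  calc ∑ i, gbN (H i (sec (act (γ : Mat 3) p)))
      = ∑ i, ∑ I, ‖∑ j, (Rot u j i : ℂ) * w j I‖ ^ 2 := by
        refine Finset.sum_congr rfl fun i _ => ?_
        rw [h1 i]
        unfold gbN
        refine Finset.sum_congr rfl fun I _ => ?_
        rw [Finset.sum_apply]
        simp only [Pi.smul_apply, smul_eq_mul, hw]
    _ = ∑ I, gbN (((((Rot u)ᵀ).map (fun x : ℝ => (x : ℂ)))) *ᵥ (fun j => w j I)) := by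
        rw [Finset.sum_comm]
        refine Finset.sum_congr rfl fun I _ => ?_
        unfold gbN
        refine Finset.sum_congr rfl fun i _ => ?_
        rfl
    _ = ∑ I, ∑ j, ‖w j I‖ ^ 2 := by
        refine Finset.sum_congr rfl fun I _ => ?_
        rw [gbN_unitary hU]
        rfl
    _ = ∑ j, gbN (w j) := by
        rw [Finset.sum_comm]
        rfl
    _ = _ := Finset.sum_congr rfl fun j _ => hw1 j

/-! Comparison of measures -/

theorem gb_mu_le {S : Set UH} (hS : MeasurableSet S) (hSs : S ⊆ UHs) {c : ℝ} (hc : 0 < c)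
    (h : ∀ p ∈ S, c ≤ p.2) :
    mu.restrict S ≤ ENNReal.ofReal (c ^ (-3 : ℤ)) • volume.restrict S := by
  unfold mu
  rw [restrict_withDensity hS, Measure.restrict_restrict hS, Set.inter_eq_left.2 hSs,
    ← withDensity_const]
  refine withDensity_mono ?_
  filter_upwards [ae_restrict_mem hS] with p hp
  apply ENNReal.ofReal_le_ofReal
  have h1 := h p hp
  rw [_root_.zpow_neg, _root_.zpow_neg]
  norm_cast
  gcongr

theorem gb_le_mu {S : Set UH} (hS : MeasurableSet S) (hSs : S ⊆ UHs) {c : ℝ} (hc : 0 < c)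
    (h : ∀ p ∈ S, p.2 ≤ c) :
    volume.restrict S ≤ ENNReal.ofReal (c ^ 3) • mu.restrict S := by
  unfold mu
  rw [restrict_withDensity hS, Measure.restrict_restrict hS, Set.inter_eq_left.2 hSs]
  have h1 : (volume.restrict S).withDensity 1 ≤ (volume.restrict S).withDensity
      (ENNReal.ofReal (c ^ 3) • fun p : UH => ENNReal.ofReal (p.2 ^ (-3 : ℤ))) := by
    refine withDensity_mono ?_
    filter_upwards [ae_restrict_mem hS] with p hp
    have h1 := h p hp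
    have h2 : 0 < p.2 := hSs hp
    rw [Pi.one_apply, Pi.smul_apply, smul_eq_mul, ← ENNReal.ofReal_mul (by positivity),
      ← ENNReal.ofReal_one]
    apply ENNReal.ofReal_le_ofReal
    rw [_root_.zpow_neg]
    norm_cast
    rw [← div_eq_mul_inv, one_le_div (by positivity)]
    gcongr
  rwa [withDensity_one, withDensity_smul' _ _ ENNReal.ofReal_ne_top] at h1

theorem gb_lower {K : Set UH} (hK : IsCompact K) (hKs : K ⊆ UHs) :
    ∃ c : ℝ, 0 < c ∧ ∀ p ∈ K, c ≤ p.2 := by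
  rcases K.eq_empty_or_nonempty with rfl | hne
  · exact ⟨1, one_pos, fun p hp => absurd hp (Set.notMem_empty p)⟩
  · obtain ⟨q, hq, hmin⟩ := hK.exists_isMinOn hne (continuous_snd.continuousOn)
    exact ⟨q.2, hKs hq, fun p hp => hmin hp⟩

theorem gb_upper {K : Set UH} (hK : IsCompact K) : ∃ c : ℝ, 0 < c ∧ ∀ p ∈ K, p.2 ≤ c := by
  rcases K.eq_empty_or_nonempty with rfl | hne
  · exact ⟨1, one_pos, fun p hp => absurd hp (Set.notMem_empty p)⟩
  · obtain ⟨q, hq, hmax⟩ := hK.exists_isMaxOn hne (continuous_snd.continuousOn)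
    exact ⟨max q.2 1, lt_max_of_lt_right one_pos, fun p hp => (hmax hp).trans (le_max_left _ _)⟩

theorem gb_int {Γ : Subgroup (Mat 3)ˣ} {D : Set UH} (hD : FD Γ D) {W : Type*}
    [NormedAddCommGroup W] {φ : UH → W} (hφ : ContinuousOn φ UHs) :
    IntegrableOn φ D mu := by
  obtain ⟨K, hK, hKs, hDK⟩ := hD.bdd
  obtain ⟨c, hc, hcK⟩ := gb_lower hK hKs
  have h1 : IntegrableOn φ D volume :=
    ((hφ.mono hKs).integrableOn_compact hK).mono_set hDK
  have h2 := gb_mu_le hD.meas hD.sub hc (fun p hp => hcK p (hDK hp))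
  exact (Integrable.smul_measure h1 ENNReal.ofReal_ne_top).mono_measure h2

theorem gb_closure {Γ : Subgroup (Mat 3)ˣ} {D : Set UH} (hD : FD Γ D) :
    IsCompact (closure D) ∧ closure D ⊆ UHs := by
  obtain ⟨K, hK, hKs, hDK⟩ := hD.bdd
  have h1 : closure D ⊆ K := closure_minimal hDK hK.isClosed
  exact ⟨hK.of_isClosed_subset isClosed_closure h1, h1.trans hKs⟩

theorem gb_up {Γ : Subgroup (Mat 3)ˣ} {D : Set UH} (hD : FD Γ D) :
    ∃ M : ℝ, 0 ≤ M ∧ ∀ φ : UH → ℝ, ContinuousOn φ UHs → (∀ p ∈ UHs, 0 ≤ φ p) →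
      ∫ p in D, φ p ∂mu ≤ M * ∫ p in closure D, φ p := by
  obtain ⟨hcl, hcls⟩ := gb_closure hD
  obtain ⟨c, hc, hcK⟩ := gb_lower hcl hcls
  refine ⟨c ^ (-3 : ℤ), by positivity, ?_⟩
  intro φ hφ h0
  have hm : MeasurableSet (closure D) := isClosed_closure.measurableSet
  have h2 := gb_mu_le hD.meas hD.sub hc (fun p hp => hcK p (subset_closure hp))
  have h3 : IntegrableOn φ (closure D) volume := (hφ.mono hcls).integrableOn_compact hcl
  have h4 : (volume.restrict D : Measure UH) ≤ volume.restrict (closure D) :=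
    Measure.restrict_mono subset_closure le_rfl
  have h5 : mu.restrict D ≤ ENNReal.ofReal (c ^ (-3 : ℤ)) • volume.restrict (closure D) :=
    h2.trans (by gcongr)
  calc ∫ p in D, φ p ∂mu
      ≤ ∫ p, φ p ∂(ENNReal.ofReal (c ^ (-3 : ℤ)) • volume.restrict (closure D)) := by
        refine integral_mono_measure h5 ?_ (Integrable.smul_measure h3 ENNReal.ofReal_ne_top)
        refine Measure.ae_smul_measure ?_ _
        filter_upwards [ae_restrict_mem hm] with p hp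
        exact h0 p (hcls hp)
    _ = c ^ (-3 : ℤ) * ∫ p in closure D, φ p := by
        rw [integral_smul_measure, ENNReal.toReal_ofReal (by positivity), smul_eq_mul]

theorem gb_down {Γ : Subgroup (Mat 3)ˣ} {D : Set UH} (h : Klein Γ) (hD : FD Γ D) {K : Set UH}
    (hK : IsCompact K) (hKs : K ⊆ UHs) :
    ∃ M : ℝ, 0 ≤ M ∧ ∀ φ : UH → ℝ, ContinuousOn φ UHs → (∀ p ∈ UHs, 0 ≤ φ p) →
      (∀ γ ∈ Γ, ∀ p ∈ UHs, φ (act ((γ : (Mat 3)ˣ) : Mat 3) p) = φ p) →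
      ∫ p in K, φ p ≤ M * ∫ p in D, φ p ∂mu := by
  classical
  obtain ⟨c, hc, hcK⟩ := gb_upper hK
  obtain ⟨M, hM, hMf⟩ := FD_compact h hD hK hKs
  refine ⟨c ^ 3 * M.toReal, by positivity, ?_⟩
  intro φ hφ h0 hinv
  have hmK : MeasurableSet K := hK.measurableSet
  have hmU : MeasurableSet UHs := UHs_open.measurableSet
  have h1 := gb_le_mu hmK hKs hc hcK
  obtain ⟨c', hc', hcK'⟩ := gb_lower hK hKs
  have h3 : IntegrableOn φ K volume := (hφ.mono hKs).integrableOn_compact hK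
  have h3' : IntegrableOn φ K mu := by
    have h2 := gb_mu_le hmK hKs hc' hcK'
    exact (Integrable.smul_measure h3 ENNReal.ofReal_ne_top).mono_measure h2
  have h4 : ∫ p in K, φ p ≤ c ^ 3 * ∫ p in K, φ p ∂mu := by
    calc ∫ p in K, φ p ≤ ∫ p, φ p ∂(ENNReal.ofReal (c ^ 3) • mu.restrict K) := by
          refine integral_mono_measure h1 ?_ (Integrable.smul_measure h3' ENNReal.ofReal_ne_top)
          refine Measure.ae_smul_measure ?_ _
          filter_upwards [ae_restrict_mem hmK] with p hp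
          exact h0 p (hKs hp)
      _ = _ := by
          rw [integral_smul_measure, ENNReal.toReal_ofReal (by positivity), smul_eq_mul]
  -- the measurable function
  set f : UH → ENNReal := fun p => ENNReal.ofReal (UHs.piecewise φ (fun _ => 0) p) with hf
  have hfm : Measurable f :=
    (ContinuousOn.measurable_piecewise hφ continuousOn_const hmU).ennreal_ofReal
  have hfe : ∀ p ∈ UHs, f p = ENNReal.ofReal (φ p) := fun p hp => by
    rw [hf]; simp only [Set.piecewise_eq_of_mem _ _ _ hp]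
  have hfi : ∀ γ ∈ Γ, ∀ p ∈ UHs, f (act ((γ : (Mat 3)ˣ) : Mat 3) p) = f p := by
    intro γ hγ p hp
    have hm : act ((γ : (Mat 3)ˣ) : Mat 3) p ∈ UHs := act_mem (Klein_SO h hγ).1 hp
    rw [hfe _ hm, hfe _ hp, hinv γ hγ p hp]
  have h5 := hMf f hfm hfi
  have h6 : ∀ S : Set UH, MeasurableSet S → S ⊆ UHs → IntegrableOn φ S mu →
      ∫ p in S, φ p ∂mu = (∫⁻ p in S, f p ∂mu).toReal := by
    intro S hS hSs hi
    rw [integral_eq_lintegral_of_nonneg_ae _ hi.aestronglyMeasurable]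
    · congr 1
      exact setLIntegral_congr_fun hS fun p hp => (hfe p (hSs hp)).symm
    · filter_upwards [ae_restrict_mem hS] with p hp
      exact h0 p (hSs hp)
  have hDi := gb_int hD hφ
  have h7 : ∫⁻ p in D, f p ∂mu ≠ ⊤ := by
    have h8 : ∫⁻ p in D, f p ∂mu = ∫⁻ p in D, ENNReal.ofReal (φ p) ∂mu :=
      setLIntegral_congr_fun hD.meas fun p hp => hfe p (hD.sub hp)
    rw [h8]
    exact hDi.lintegral_lt_top.ne
  have h9 : ∫ p in K, φ p ∂mu ≤ M.toReal * ∫ p in D, φ p ∂mu := by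
    rw [h6 K hmK hKs h3', h6 D hD.meas hD.sub hDi, ← ENNReal.toReal_mul]
    exact ENNReal.toReal_mono (ENNReal.mul_ne_top hM.ne h7) h5
  calc ∫ p in K, φ p ≤ c ^ 3 * ∫ p in K, φ p ∂mu := h4
    _ ≤ c ^ 3 * (M.toReal * ∫ p in D, φ p ∂mu) := by gcongr
    _ = _ := by ring

/-! The derivative in coordinates -/

/-- the linear part of `sec` -/
def gbL : UH →L[ℝ] M2 := LinearMap.toContinuousLinearMap
  { toFun := fun v => !![(v.2 : ℂ), v.1; 0, 0]
    map_add' := fun v w => by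
      ext i j; fin_cases i <;> fin_cases j <;> simp
    map_smul' := fun c v => by
      ext i j; fin_cases i <;> fin_cases j <;> simp }

theorem gb_sec_deriv (p : UH) : HasFDerivAt sec gbL p := by
  have h1 : sec = fun q => gbL q + !![0, 0; 0, 1] := by
    funext q
    ext i j
    fin_cases i <;> fin_cases j <;> simp [sec, gbL]
  rw [h1]
  exact gbL.hasFDerivAt.add_const _

theorem gb_dir {p : UH} (hp : p ∈ UHs) (v : UH) :
    gbL v = sec p * ((p.2)⁻¹ • ((v.2 • eX 2 + ((v.2 / 2 : ℝ) : ℂ) • (1 : M2)) +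
      (v.1.re • (eX 0 + rX 1) + v.1.im • (rX 0 + (-1 : ℝ) • eX 1)))) := by
  have ht : (p.2 : ℂ) ≠ 0 := by exact_mod_cast (show (0 : ℝ) < p.2 from hp).ne'
  have h1 : (v.1.re : ℂ) + v.1.im * Complex.I = v.1 := Complex.re_add_im _
  ext i j
  fin_cases i <;> fin_cases j <;>
    simp [gbL, sec, eX, rX, pauli, Matrix.mul_apply, Fin.sum_univ_two] <;>
    field_simp <;> ring_nf
  · linear_combination (-(p.1 * v.1.re)) * Complex.I_sq
  · linear_combination ((p.2 : ℂ) * v.1.re) * Complex.I_sq - 2 * (p.2 : ℂ) * h1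
  · linear_combination (-(v.1.re : ℂ)) * Complex.I_sq

theorem gb_fderiv {k : ℕ} {Γ : Subgroup (Mat 3)ˣ} {F : M2 → Ix k → ℂ}
    (hF : F ∈ Sect (tau k) Γ) {p : UH} (hp : p ∈ UHs) (v : UH) :
    fderiv ℝ (fun q => F (sec q)) p v = (p.2)⁻¹ • (v.2 • E (eX 2) F (sec p) +
      (v.1.re • (E (eX 0) F (sec p) + E (rX 1) F (sec p)) +
        v.1.im • (E (rX 0) F (sec p) + (-1 : ℝ) • E (eX 1) F (sec p)))) := by
  obtain ⟨-, h2, h3, -, -⟩ := hF
  have hs := sec_mem hp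
  have h4 : DifferentiableAt ℝ F (sec p) :=
    (h2.contDiffAt (GLo_open.mem_nhds hs)).differentiableAt (by simp)
  have h5 : HasFDerivAt (fun q => F (sec q)) ((fderiv ℝ F (sec p)).comp gbL) p :=
    HasFDerivAt.comp p h4.hasFDerivAt (gb_sec_deriv p)
  rw [h5.fderiv]
  show fderiv ℝ F (sec p) (gbL v) = _
  rw [gb_dir hp v]
  show E ((p.2)⁻¹ • ((v.2 • eX 2 + ((v.2 / 2 : ℝ) : ℂ) • (1 : M2)) +
      (v.1.re • (eX 0 + rX 1) + v.1.im • (rX 0 + (-1 : ℝ) • eX 1)))) F (sec p) = _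
  simp only [E_smul_dir, E_add_dir, E_scalar h2 h3 _ hs, add_zero]

/-- an elementary estimate -/
theorem gb_elem {V : Type*} [NormedAddCommGroup V] [NormedSpace ℝ V] {c t : ℝ} (hc : 0 < c)
    (hct : c ≤ t) {B0 B1 b : ℝ} (hB0 : 0 ≤ B0) (hB1 : 0 ≤ B1) (hb : 0 ≤ b) (L : UH →L[ℝ] V)
    (x0 x1 x2 y0 y1 : V) (h0 : ‖y0‖ ≤ B0 * b) (h1 : ‖y1‖ ≤ B1 * b)
    (hL : ∀ v : UH, L v = t⁻¹ • (v.2 • x2 + (v.1.re • (x0 + y1) + v.1.im • (y0 + (-1 : ℝ) • x1)))) :
    ‖L‖ ≤ c⁻¹ * (‖x0‖ + ‖x1‖ + ‖x2‖ + (B0 + B1) * b) := by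
  refine ContinuousLinearMap.opNorm_le_bound _ (by positivity) fun v => ?_
  have ht : 0 < t := hc.trans_le hct
  rw [hL v, norm_smul, Real.norm_eq_abs, abs_of_pos (inv_pos.2 ht)]
  have hv2 : |v.2| ≤ ‖v‖ := by
    rw [← Real.norm_eq_abs]; exact norm_snd_le v
  have hv1 : ‖v.1‖ ≤ ‖v‖ := norm_fst_le v
  have hre : |v.1.re| ≤ ‖v‖ := (Complex.abs_re_le_norm _).trans hv1
  have him : |v.1.im| ≤ ‖v‖ := (Complex.abs_im_le_norm _).trans hv1
  have hci : t⁻¹ ≤ c⁻¹ := inv_anti₀ hc hct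
  have e1 : ‖v.2 • x2‖ ≤ ‖v‖ * ‖x2‖ := by
    rw [norm_smul, Real.norm_eq_abs]
    exact mul_le_mul_of_nonneg_right hv2 (norm_nonneg _)
  have e2 : ‖x0 + y1‖ ≤ ‖x0‖ + B1 * b := (norm_add_le _ _).trans (add_le_add le_rfl h1)
  have e3 : ‖y0 + (-1 : ℝ) • x1‖ ≤ B0 * b + ‖x1‖ := by
    refine (norm_add_le _ _).trans (add_le_add h0 ?_)
    rw [norm_smul, norm_neg, norm_one, one_mul]
  have e4 : ‖v.1.re • (x0 + y1)‖ ≤ ‖v‖ * (‖x0‖ + B1 * b) := by
    rw [norm_smul, Real.norm_eq_abs]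
    exact mul_le_mul hre e2 (norm_nonneg _) (norm_nonneg _)
  have e5 : ‖v.1.im • (y0 + (-1 : ℝ) • x1)‖ ≤ ‖v‖ * (B0 * b + ‖x1‖) := by
    rw [norm_smul, Real.norm_eq_abs]
    exact mul_le_mul him e3 (norm_nonneg _) (norm_nonneg _)
  have e6 : ‖v.2 • x2 + (v.1.re • (x0 + y1) + v.1.im • (y0 + (-1 : ℝ) • x1))‖
      ≤ ‖v‖ * ‖x2‖ + (‖v‖ * (‖x0‖ + B1 * b) + ‖v‖ * (B0 * b + ‖x1‖)) :=
    (norm_add_le _ _).trans (add_le_add e1 ((norm_add_le _ _).trans (add_le_add e4 e5)))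
  calc t⁻¹ * _ ≤ c⁻¹ * (‖v‖ * ‖x2‖ + (‖v‖ * (‖x0‖ + B1 * b) + ‖v‖ * (B0 * b + ‖x1‖))) :=
        mul_le_mul hci e6 (norm_nonneg _) (by positivity)
    _ = c⁻¹ * (‖x0‖ + ‖x1‖ + ‖x2‖ + (B0 + B1) * b) * ‖v‖ := by ring

theorem gb_elem2 {c A a0 a1 a2 b n0 n1 n2 n3 : ℝ} (hc : 0 ≤ c) (h0 : a0 ^ 2 ≤ n0)
    (h1 : a1 ^ 2 ≤ n1) (h2 : a2 ^ 2 ≤ n2) (h3 : b ^ 2 ≤ n3) :
    (c * (a0 + a1 + a2 + A * b)) ^ 2 ≤ (c ^ 2 * (4 * (1 + A ^ 2))) * (n3 + (n0 + n1 + n2)) := by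
  have e0 : (a0 + a1 + a2 + A * b) ^ 2 ≤ 4 * (a0 ^ 2 + a1 ^ 2 + a2 ^ 2 + (A * b) ^ 2) := by
    nlinarith [sq_nonneg (a0 - a1), sq_nonneg (a0 - a2), sq_nonneg (a1 - a2),
      sq_nonneg (a0 - A * b), sq_nonneg (a1 - A * b), sq_nonneg (a2 - A * b)]
  have m0 : 0 ≤ n0 := (sq_nonneg _).trans h0
  have m1 : 0 ≤ n1 := (sq_nonneg _).trans h1
  have m2 : 0 ≤ n2 := (sq_nonneg _).trans h2
  have m3 : 0 ≤ n3 := (sq_nonneg _).trans h3
  have e5 : 0 ≤ A ^ 2 := sq_nonneg _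
  have e6 : A ^ 2 * b ^ 2 ≤ A ^ 2 * n3 := mul_le_mul_of_nonneg_left h3 e5
  have e7 : 0 ≤ A ^ 2 * (n0 + n1 + n2) := by positivity
  have e8 : a0 ^ 2 + a1 ^ 2 + a2 ^ 2 + (A * b) ^ 2 ≤ (1 + A ^ 2) * (n3 + (n0 + n1 + n2)) := by
    nlinarith
  calc (c * (a0 + a1 + a2 + A * b)) ^ 2 = c ^ 2 * (a0 + a1 + a2 + A * b) ^ 2 := by ring
    _ ≤ c ^ 2 * (4 * ((1 + A ^ 2) * (n3 + (n0 + n1 + n2)))) :=
        mul_le_mul_of_nonneg_left (by linarith) (sq_nonneg _)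
    _ = _ := by ring

/-- The derivative is controlled by the covariant derivatives. -/
theorem gb_fderiv_le (k : ℕ) {K : Set UH} (hK : IsCompact K) (hKs : K ⊆ UHs) :
    ∃ C : ℝ, 0 ≤ C ∧ ∀ (Γ : Subgroup (Mat 3)ˣ) (F : M2 → Ix k → ℂ), F ∈ Sect (tau k) Γ →
      ∀ p ∈ K, ‖fderiv ℝ (fun q => F (sec q)) p‖ ^ 2 ≤
        C * (gbN (F (sec p)) + ∑ i, gbN (E (eX i) F (sec p))) := by
  obtain ⟨c, hc, hcK⟩ := gb_lower hK hKs
  obtain ⟨B0, hB0', hb0⟩ : ∃ B0 : ℝ, 0 ≤ B0 ∧ ∀ v : Ix k → ℂ, ‖drho k (rY 0) *ᵥ v‖ ≤ B0 * ‖v‖ :=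
    ⟨_, norm_nonneg _, fun v =>
      (LinearMap.toContinuousLinearMap (Matrix.mulVecLin (drho k (rY 0)))).le_opNorm v⟩
  obtain ⟨B1, hB1', hb1⟩ : ∃ B1 : ℝ, 0 ≤ B1 ∧ ∀ v : Ix k → ℂ, ‖drho k (rY 1) *ᵥ v‖ ≤ B1 * ‖v‖ :=
    ⟨_, norm_nonneg _, fun v =>
      (LinearMap.toContinuousLinearMap (Matrix.mulVecLin (drho k (rY 1)))).le_opNorm v⟩
  refine ⟨(c⁻¹) ^ 2 * (4 * (1 + (B0 + B1) ^ 2)), by positivity, ?_⟩
  intro Γ F hF p hpK
  have hp : p ∈ UHs := hKs hpK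
  have hs := sec_mem hp
  have hr1 : ‖E (rX 1) F (sec p)‖ ≤ B1 * ‖F (sec p)‖ := by
    rw [Sect_E hF 1 hs, norm_neg]; exact hb1 _
  have hr0 : ‖E (rX 0) F (sec p)‖ ≤ B0 * ‖F (sec p)‖ := by
    rw [Sect_E hF 0 hs, norm_neg]; exact hb0 _
  have hbd := gb_elem hc (hcK p hpK) hB0' hB1' (norm_nonneg (F (sec p)))
    (fderiv ℝ (fun q => F (sec q)) p) (E (eX 0) F (sec p)) (E (eX 1) F (sec p))
    (E (eX 2) F (sec p)) (E (rX 0) F (sec p)) (E (rX 1) F (sec p)) hr0 hr1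
    (fun v => gb_fderiv hF hp v)
  rw [Fin.sum_univ_three]
  refine le_trans (pow_le_pow_left₀ (norm_nonneg _) hbd 2) ?_
  exact gb_elem2 (inv_pos.2 hc).le (gbN_norm_le _) (gbN_norm_le _) (gbN_norm_le _) (gbN_norm_le _)

theorem gb_cont {k : ℕ} {F : M2 → Ix k → ℂ} (hF : ContDiffOn ℝ ∞ F GLo) :
    ContinuousOn (fun p => F (sec p)) UHs :=
  hF.continuousOn.comp sec_smooth.continuous.continuousOn fun _ hp => sec_mem hp

theorem gb_ip {k : ℕ} (D : Set UH) (F : M2 → Ix k → ℂ) :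
    (ip k D F F).re = ∫ p in D, gbN (F (sec p)) ∂mu := by
  have h1 : ip k D F F = ∫ p in D, ((gbN (F (sec p)) : ℝ) : ℂ) ∂mu := by
    unfold ip
    simp only [gbN_eq]
  rw [h1]
  exact (congrArg Complex.re integral_complex_ofReal).trans (Complex.ofReal_re _)

theorem grad_bound {k : ℕ} {Γ : Subgroup (Mat 3)ˣ} {D : Set UH} (h : Klein Γ) (hD : FD Γ D)
    {K : Set UH} (hK : IsCompact K) (hKs : K ⊆ UHs) :
    ∃ M : ℝ, ∀ F : Sect (tau k) Γ,
      (∫ p in K, ‖fderiv ℝ (fun q => F.1 (sec q)) p‖ ^ 2 ≤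
        M * ((ip k D F.1 F.1).re + ∑ i, (ip k D (E (eX i) F.1) (E (eX i) F.1)).re)) ∧
      (∫ p in K, ‖F.1 (sec p)‖ ^ 2 ≤ M * (ip k D F.1 F.1).re) ∧
      ((ip k D F.1 F.1).re ≤ M * ∫ p in closure D, ‖F.1 (sec p)‖ ^ 2) := by
  obtain ⟨M1, hM1, h1⟩ := gb_down h hD hK hKs
  obtain ⟨M2, hM2, h2⟩ := gb_up hD
  obtain ⟨C, hC, h3⟩ := gb_fderiv_le k hK hKs
  refine ⟨C * M1 + M1 + M2 * Fintype.card (Ix k), ?_⟩
  rintro ⟨F, hF⟩
  have hFs : ContDiffOn ℝ ∞ F GLo := hF.2.1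
  have hV := Vec_E hF
  -- the functions
  have c1 : ContinuousOn (fun p => gbN (F (sec p))) UHs := gbN_cont.comp_continuousOn (gb_cont hFs)
  have c2 : ∀ i, ContinuousOn (fun p => gbN (E (eX i) F (sec p))) UHs := fun i =>
    gbN_cont.comp_continuousOn (gb_cont (E_smooth hFs (eX i)))
  have c3 : ContinuousOn (fun p => ∑ i, gbN (E (eX i) F (sec p))) UHs :=
    continuousOn_finsetSum _ fun i _ => c2 i
  have c4 : ContinuousOn (fun p => gbN (F (sec p)) + ∑ i, gbN (E (eX i) F (sec p))) UHs := c1.add c3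
  have n3 : ∀ p, 0 ≤ ∑ i, gbN (E (eX i) F (sec p)) := fun p =>
    Finset.sum_nonneg fun i _ => gbN_nonneg _
  have i1 : ∀ γ ∈ Γ, ∀ p ∈ UHs, gbN (F (sec (act ((γ : (Mat 3)ˣ) : Mat 3) p))) = gbN (F (sec p)) :=
    fun γ hγ p hp => gb_inv_sect h hF hγ hp
  have i3 : ∀ γ ∈ Γ, ∀ p ∈ UHs, ∑ i, gbN (E (eX i) F (sec (act ((γ : (Mat 3)ˣ) : Mat 3) p)))
      = ∑ i, gbN (E (eX i) F (sec p)) := fun γ hγ p hp => gb_inv_vec h hV hγ hp
  have e1 : (ip k D F F).re = ∫ p in D, gbN (F (sec p)) ∂mu := gb_ip D F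
  have e2 : ∑ i, (ip k D (E (eX i) F) (E (eX i) F)).re
      = ∫ p in D, ∑ i, gbN (E (eX i) F (sec p)) ∂mu := by
    rw [integral_finsetSum _ fun i _ => gb_int hD (c2 i)]
    exact Finset.sum_congr rfl fun i _ => gb_ip D _
  have e3 : (ip k D F F).re + ∑ i, (ip k D (E (eX i) F) (E (eX i) F)).re
      = ∫ p in D, (gbN (F (sec p)) + ∑ i, gbN (E (eX i) F (sec p))) ∂mu := by
    rw [e1, e2, ← integral_add (gb_int hD c1) (gb_int hD c3)]
  have n1 : 0 ≤ (ip k D F F).re := by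
    rw [e1]; exact integral_nonneg fun p => gbN_nonneg _
  have n2 : 0 ≤ (ip k D F F).re + ∑ i, (ip k D (E (eX i) F) (E (eX i) F)).re := by
    rw [e3]; exact integral_nonneg fun p => add_nonneg (gbN_nonneg _) (n3 p)
  have hcard : (0 : ℝ) ≤ Fintype.card (Ix k) := Nat.cast_nonneg _
  refine ⟨?_, ?_, ?_⟩
  · have s1 : ∫ p in K, ‖fderiv ℝ (fun q => F (sec q)) p‖ ^ 2
        ≤ ∫ p in K, C * (gbN (F (sec p)) + ∑ i, gbN (E (eX i) F (sec p))) := by
      refine integral_mono_of_nonneg (Filter.Eventually.of_forall fun p => by positivity) ?_ ?_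
      · exact ((continuousOn_const.mul c4).mono hKs).integrableOn_compact hK
      · filter_upwards [ae_restrict_mem hK.measurableSet] with p hp
        exact h3 Γ F hF p hp
    rw [integral_const_mul] at s1
    have s2 := h1 (fun p => gbN (F (sec p)) + ∑ i, gbN (E (eX i) F (sec p))) c4
      (fun p _ => add_nonneg (gbN_nonneg _) (n3 p)) (fun γ hγ p hp => by
        simp only [i1 γ hγ p hp, i3 γ hγ p hp])
    rw [← e3] at s2
    calc ∫ p in K, ‖fderiv ℝ (fun q => F (sec q)) p‖ ^ 2 ≤ _ := s1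
      _ ≤ C * (M1 * ((ip k D F F).re + ∑ i, (ip k D (E (eX i) F) (E (eX i) F)).re)) := by gcongr
      _ = (C * M1) * ((ip k D F F).re + ∑ i, (ip k D (E (eX i) F) (E (eX i) F)).re) := by ring
      _ ≤ (C * M1 + M1 + M2 * Fintype.card (Ix k)) *
          ((ip k D F F).re + ∑ i, (ip k D (E (eX i) F) (E (eX i) F)).re) := by
        apply mul_le_mul_of_nonneg_right _ n2
        have : 0 ≤ M2 * Fintype.card (Ix k) := by positivity
        linarith
  · have s1 : ∫ p in K, ‖F (sec p)‖ ^ 2 ≤ ∫ p in K, gbN (F (sec p)) := by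
      refine integral_mono_of_nonneg (Filter.Eventually.of_forall fun p => by positivity) ?_ ?_
      · exact (c1.mono hKs).integrableOn_compact hK
      · exact Filter.Eventually.of_forall fun p => gbN_norm_le _
    have s2 := h1 (fun p => gbN (F (sec p))) c1 (fun p _ => gbN_nonneg _) i1
    rw [← e1] at s2
    calc ∫ p in K, ‖F (sec p)‖ ^ 2 ≤ M1 * (ip k D F F).re := s1.trans s2
      _ ≤ (C * M1 + M1 + M2 * Fintype.card (Ix k)) * (ip k D F F).re := by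
        apply mul_le_mul_of_nonneg_right _ n1
        have e5 : 0 ≤ M2 * Fintype.card (Ix k) := by positivity
        have e6 : 0 ≤ C * M1 := by positivity
        linarith
  · have s1 := h2 (fun p => gbN (F (sec p))) c1 (fun p _ => gbN_nonneg _)
    rw [← e1] at s1
    obtain ⟨hcl, hcls⟩ := gb_closure hD
    have s2 : ∫ p in closure D, gbN (F (sec p)) ≤
        ∫ p in closure D, Fintype.card (Ix k) * ‖F (sec p)‖ ^ 2 := by
      refine integral_mono_of_nonneg (Filter.Eventually.of_forall fun p => gbN_nonneg _) ?_ ?_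
      · exact ((continuousOn_const.mul ((gb_cont hFs).norm.pow 2)).mono hcls).integrableOn_compact hcl
      · exact Filter.Eventually.of_forall fun p => gbN_le_norm _
    rw [integral_const_mul] at s2
    have n4 : 0 ≤ ∫ p in closure D, ‖F (sec p)‖ ^ 2 := integral_nonneg fun p => by positivity
    calc (ip k D F F).re ≤ M2 * ∫ p in closure D, gbN (F (sec p)) := s1
      _ ≤ M2 * (Fintype.card (Ix k) * ∫ p in closure D, ‖F (sec p)‖ ^ 2) := by gcongr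
      _ = (M2 * Fintype.card (Ix k)) * ∫ p in closure D, ‖F (sec p)‖ ^ 2 := by ring
      _ ≤ (C * M1 + M1 + M2 * Fintype.card (Ix k)) * ∫ p in closure D, ‖F (sec p)‖ ^ 2 := by
        apply mul_le_mul_of_nonneg_right _ n4
        have e6 : 0 ≤ C * M1 := by positivity
        linarith

end

end Pool.Agent.Work.MP_14c213_gt
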