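import Pool.Agent.Work.MP_14c213_gt.ADefs

/-!
Finite dimensional approximation (Poincaré inequality on small boxes). K' = closed δ-neighbourhood of
K in ℂ × ℝ; the Q_j are the half open cubes of side s = s(ε) (of a grid in ℂ × ℝ ≅ ℝ³) which meet K,
all contained in K'. On a cube (a convex set of diameter ≤ d) ∫_Q |f - mean|² ≤ 8 d² ∫_Q |f'|² for
C¹ functions: integrate f(x) - f(y) along the segment, Cauchy-Schwarz, Fubini; for τ ≤ 1/2 substitute
u = (1 - τ) x + τ y in the variable x, for τ ≥ 1/2 in the variable y.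
-/

namespace Pool.Agent.Work.MP_14c213_gt

open Matrix MeasureTheory
open scoped Matrix ContDiff Matrix.Norms.Elementwise ENNReal

noncomputable section

/-- Cauchy-Schwarz -/
private theorem poi_cs {α : Type*} [MeasurableSpace α] (μ : Measure α) {h : α → ℝ≥0∞}
    (hh : AEMeasurable h μ) : (∫⁻ x, h x ∂μ) ^ 2 ≤ μ Set.univ * ∫⁻ x, h x ^ 2 ∂μ := by
  have h1 := ENNReal.lintegral_mul_le_Lp_mul_Lq μ (p := 2) (q := 2)
    Real.HolderConjugate.two_two hh (g := fun _ => 1) aemeasurable_const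
  have h2 : ∫⁻ x, (h * (fun _ => (1 : ℝ≥0∞)) : α → ℝ≥0∞) x ∂μ = ∫⁻ x, h x ∂μ := by simp
  rw [h2] at h1
  have h3 := pow_le_pow_left₀ (bot_le) h1 2
  refine h3.trans ?_
  rw [mul_pow, mul_comm]
  have h4 : ∀ a : ℝ≥0∞, (a ^ (1 / 2 : ℝ)) ^ 2 = a := by
    intro a
    rw [← ENNReal.rpow_natCast, ← ENNReal.rpow_mul]
    norm_num
  rw [h4, h4]
  simp

/-- scaling in dimension three -/
private theorem poi_scale {G : UH → ℝ≥0∞} (hG : Measurable G) {r : ℝ} (hr : 1 / 2 ≤ r)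
    (c : UH) : ∫⁻ x : UH, G (r • x + c) ≤ 8 * ∫⁻ x, G x := by
  have hr0 : r ≠ 0 := by linarith
  have : (volume : Measure UH).IsAddHaarMeasure := by
    rw [Measure.volume_eq_prod]; infer_instance
  have h1 : ∫⁻ x : UH, G (r • x + c) = ENNReal.ofReal |(r ^ 3)⁻¹| * ∫⁻ x, G x := by
    have h2 : ∫⁻ x : UH, G (r • x + c)
        = ∫⁻ x, G (x + c) ∂(Measure.map (fun x : UH => r • x) volume) := by
      exact (lintegral_map (f := fun x : UH => G (x + c)) (hG.comp (measurable_add_const c))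
        (measurable_const_smul r)).symm
    rw [h2, Measure.map_addHaar_smul _ hr0, lintegral_smul_measure, lintegral_add_right_eq_self]
    simp [Module.finrank_prod, Complex.finrank_real_complex]
  rw [h1]
  gcongr
  rw [abs_of_pos (by positivity), show (8 : ℝ≥0∞) = ENNReal.ofReal 8 by norm_num]
  apply ENNReal.ofReal_le_ofReal
  rw [inv_le_comm₀ (by positivity) (by norm_num)]
  have : (1 / 2 : ℝ) ^ 3 ≤ r ^ 3 := pow_le_pow_left₀ (by norm_num) hr 3
  linarith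

/-- Claim C -/
private theorem poi_double {Q : Set UH} (hQ : MeasurableSet Q) (hc : Convex ℝ Q)
    {g : UH → ℝ≥0∞} (hg : Measurable g) :
    ∫⁻ x in Q, ∫⁻ y in Q, ∫⁻ τ in Set.Icc (0 : ℝ) 1, g ((1 - τ) • x + τ • y) ≤
      8 * volume Q * ∫⁻ x in Q, g x := by
  have hGm : Measurable (Q.indicator g) := hg.indicator hQ
  have hmeas : Measurable fun p : UH × UH × ℝ => Q.indicator g ((1 - p.2.2) • p.1 + p.2.2 • p.2.1) :=
    hGm.comp (by fun_prop)
  -- replace g by its indicator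
  have h1 : ∫⁻ x in Q, ∫⁻ y in Q, ∫⁻ τ in Set.Icc (0 : ℝ) 1, g ((1 - τ) • x + τ • y)
      = ∫⁻ x in Q, ∫⁻ y in Q, ∫⁻ τ in Set.Icc (0 : ℝ) 1,
        Q.indicator g ((1 - τ) • x + τ • y) := by
    refine setLIntegral_congr_fun hQ fun x hx => ?_
    refine setLIntegral_congr_fun hQ fun y hy => ?_
    refine setLIntegral_congr_fun measurableSet_Icc fun τ hτ => ?_
    have : (1 - τ) • x + τ • y ∈ Q := hc hx hy (by linarith [hτ.2]) hτ.1 (by ring)
    rw [Set.indicator_of_mem this]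
  rw [h1]
  -- bring the variable τ outside
  have h2 : ∫⁻ x in Q, ∫⁻ y in Q, ∫⁻ τ in Set.Icc (0 : ℝ) 1,
        Q.indicator g ((1 - τ) • x + τ • y)
      = ∫⁻ τ in Set.Icc (0 : ℝ) 1, ∫⁻ x in Q, ∫⁻ y in Q,
        Q.indicator g ((1 - τ) • x + τ • y) := by
    have h3 : ∀ x, ∫⁻ y in Q, ∫⁻ τ in Set.Icc (0 : ℝ) 1, Q.indicator g ((1 - τ) • x + τ • y)
        = ∫⁻ τ in Set.Icc (0 : ℝ) 1, ∫⁻ y in Q, Q.indicator g ((1 - τ) • x + τ • y) := by
      intro x
      refine lintegral_lintegral_swap ?_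
      exact (hGm.comp (f := fun p : UH × ℝ => (1 - p.2) • x + p.2 • p.1)
        (by fun_prop)).aemeasurable
    simp only [h3]
    refine lintegral_lintegral_swap ?_
    refine Measurable.aemeasurable ?_
    refine Measurable.lintegral_prod_right' (f := fun p : (UH × ℝ) × UH =>
      Q.indicator g ((1 - p.1.2) • p.1.1 + p.1.2 • p.2)) ?_
    exact hGm.comp (by fun_prop)
  rw [h2]
  have h4 : ∀ τ ∈ Set.Icc (0 : ℝ) 1, ∫⁻ x in Q, ∫⁻ y in Q,
      Q.indicator g ((1 - τ) • x + τ • y) ≤ 8 * volume Q * ∫⁻ x in Q, g x := by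
    intro τ hτ
    rcases le_total τ (1 / 2) with h | h
    · rw [lintegral_lintegral_swap]
      · calc ∫⁻ y in Q, ∫⁻ x in Q, Q.indicator g ((1 - τ) • x + τ • y)
            ≤ ∫⁻ _y in Q, 8 * ∫⁻ x in Q, g x := by
              refine lintegral_mono fun y => ?_
              calc ∫⁻ x in Q, Q.indicator g ((1 - τ) • x + τ • y)
                  ≤ ∫⁻ x, Q.indicator g ((1 - τ) • x + τ • y) := setLIntegral_le_lintegral _ _
                _ ≤ 8 * ∫⁻ x, Q.indicator g x := poi_scale hGm (by linarith) _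
                _ = _ := by rw [lintegral_indicator hQ]
          _ = _ := by
              rw [setLIntegral_const]; ring
      · exact (hGm.comp (f := fun p : UH × UH => (1 - τ) • p.1 + τ • p.2)
          (by fun_prop)).aemeasurable
    · calc ∫⁻ x in Q, ∫⁻ y in Q, Q.indicator g ((1 - τ) • x + τ • y)
          ≤ ∫⁻ _x in Q, 8 * ∫⁻ x in Q, g x := by
            refine lintegral_mono fun x => ?_
            calc ∫⁻ y in Q, Q.indicator g ((1 - τ) • x + τ • y)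
                ≤ ∫⁻ y, Q.indicator g (τ • y + (1 - τ) • x) := by
                  refine (setLIntegral_le_lintegral _ _).trans (le_of_eq ?_)
                  simp only [add_comm]
              _ ≤ 8 * ∫⁻ x, Q.indicator g x := poi_scale hGm h _
              _ = _ := by rw [lintegral_indicator hQ]
        _ = _ := by
            rw [setLIntegral_const]; ring
  calc ∫⁻ τ in Set.Icc (0 : ℝ) 1, ∫⁻ x in Q, ∫⁻ y in Q, Q.indicator g ((1 - τ) • x + τ • y)
      ≤ ∫⁻ _τ in Set.Icc (0 : ℝ) 1, 8 * volume Q * ∫⁻ x in Q, g x :=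
        setLIntegral_mono' measurableSet_Icc h4
    _ = _ := by
        rw [setLIntegral_const, Real.volume_Icc]
        simp

private theorem poi_open : IsOpen UHs := isOpen_lt continuous_const continuous_snd

private theorem poi_convex : Convex ℝ UHs := by
  intro x hx y hy a b ha hb hab
  simp only [UHs, Set.mem_ofPred_eq, Prod.snd_add, Prod.smul_snd, smul_eq_mul] at *
  rcases ha.eq_or_lt with h | h
  · have : b = 1 := by linarith
    subst this; rw [← h]; simpa using hy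
  · nlinarith [mul_pos h hx, mul_nonneg hb hy.le]

/-- Claim A -/
private theorem poi_seg {J : Type} [Fintype J] {f : UH → J → ℂ} (hf : ContDiffOn ℝ 1 f UHs)
    {d : ℝ} {x y : UH} (hx : x ∈ UHs) (hy : y ∈ UHs) (hxy : ‖x - y‖ ≤ d) :
    ‖f x - f y‖ₑ ^ 2 ≤ ENNReal.ofReal (d ^ 2) *
      ∫⁻ τ in Set.Icc (0 : ℝ) 1, ‖fderiv ℝ f ((1 - τ) • x + τ • y)‖ₑ ^ 2 := by
  have hd0 : 0 ≤ d := (norm_nonneg _).trans hxy
  have hseg : ∀ τ ∈ Set.Icc (0 : ℝ) 1, (1 - τ) • x + τ • y ∈ UHs := fun τ hτ =>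
    poi_convex hx hy (by linarith [hτ.2]) hτ.1 (by ring)
  have hcd : ContinuousOn (fderiv ℝ f) UHs := hf.continuousOn_fderiv_of_isOpen poi_open le_rfl
  have hcont : ContinuousOn (fun τ : ℝ => fderiv ℝ f ((1 - τ) • x + τ • y) (y - x))
      (Set.uIcc 0 1) := by
    rw [Set.uIcc_of_le zero_le_one]
    refine ContinuousOn.clm_apply ?_ continuousOn_const
    exact hcd.comp (by fun_prop) hseg
  have hder : ∀ τ ∈ Set.uIcc (0 : ℝ) 1, HasDerivAt (fun τ : ℝ => f ((1 - τ) • x + τ • y))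
      (fderiv ℝ f ((1 - τ) • x + τ • y) (y - x)) τ := by
    intro τ hτ
    rw [Set.uIcc_of_le zero_le_one] at hτ
    have h1 : DifferentiableAt ℝ f ((1 - τ) • x + τ • y) :=
      (hf.differentiableOn one_ne_zero _ (hseg τ hτ)).differentiableAt
        (poi_open.mem_nhds (hseg τ hτ))
    have h2 : HasDerivAt (fun τ : ℝ => (1 - τ) • x + τ • y) (y - x) τ := by
      have h3 : HasDerivAt (fun τ : ℝ => (1 - τ) • x + τ • y) ((-1 : ℝ) • x + (1 : ℝ) • y) τ :=
        (((hasDerivAt_id τ).const_sub 1).smul_const x).add ((hasDerivAt_id τ).smul_const y)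
      convert h3 using 1
      simp [sub_eq_neg_add]
    exact h1.hasFDerivAt.comp_hasDerivAt τ h2
  have hint := intervalIntegral.integral_eq_sub_of_hasDerivAt hder hcont.intervalIntegrable
  have h5 : f y - f x = ∫ τ in (0 : ℝ)..1, fderiv ℝ f ((1 - τ) • x + τ • y) (y - x) := by
    rw [hint]; simp
  have h6 : ‖f x - f y‖ₑ ≤ ENNReal.ofReal d *
      ∫⁻ τ in Set.Icc (0 : ℝ) 1, ‖fderiv ℝ f ((1 - τ) • x + τ • y)‖ₑ := by
    rw [← enorm_neg, neg_sub, h5, intervalIntegral.integral_of_le zero_le_one,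
      ← integral_Icc_eq_integral_Ioc]
    refine (enorm_integral_le_lintegral_enorm _).trans ?_
    rw [← lintegral_const_mul' _ _ ENNReal.ofReal_ne_top]
    refine lintegral_mono fun τ => ?_
    refine (ContinuousLinearMap.le_opENorm _ _).trans ?_
    rw [mul_comm]
    gcongr
    rw [← ofReal_norm]
    apply ENNReal.ofReal_le_ofReal
    rwa [norm_sub_rev]
  have hmeas : Measurable fun τ : ℝ => ‖fderiv ℝ f ((1 - τ) • x + τ • y)‖ₑ :=
    ((measurable_fderiv ℝ f).comp (by fun_prop)).enorm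
  calc ‖f x - f y‖ₑ ^ 2 ≤ (ENNReal.ofReal d *
      ∫⁻ τ in Set.Icc (0 : ℝ) 1, ‖fderiv ℝ f ((1 - τ) • x + τ • y)‖ₑ) ^ 2 :=
        pow_le_pow_left₀ bot_le h6 2
    _ ≤ _ := by
        rw [mul_pow, ← ENNReal.ofReal_pow hd0]
        gcongr
        refine (poi_cs _ hmeas.aemeasurable).trans (le_of_eq ?_)
        simp

/-- Poincaré inequality on a convex set. -/
private theorem poi_convexSet {Q K' : Set UH} (hQ : MeasurableSet Q) (hc : Convex ℝ Q)
    (hQK : Q ⊆ K') (hK' : IsCompact K') (hKs : K' ⊆ UHs) {d : ℝ}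
    (hd : ∀ x ∈ Q, ∀ y ∈ Q, ‖x - y‖ ≤ d)
    {J : Type} [Fintype J] {f : UH → J → ℂ} (hf : ContDiffOn ℝ 1 f UHs)
    (h0 : ∫ p in Q, f p = 0) :
    ∫⁻ x in Q, ‖f x‖ₑ ^ 2 ≤ ENNReal.ofReal (8 * d ^ 2) * ∫⁻ x in Q, ‖fderiv ℝ f x‖ₑ ^ 2 := by
  have hvfin : volume Q ≠ ⊤ := (measure_mono hQK |>.trans_lt hK'.measure_lt_top).ne
  rcases eq_or_ne (volume Q) 0 with hv | hv
  · rw [Measure.restrict_eq_zero.2 hv]; simp
  have hcont : ContinuousOn f K' := hf.continuousOn.mono hKs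
  have hfi : IntegrableOn f Q := (hcont.integrableOn_compact hK').mono_set hQK
  have hB : ∀ x ∈ Q, ‖f x‖ₑ ^ 2 ≤ (volume Q)⁻¹ * ∫⁻ y in Q, ‖f x - f y‖ₑ ^ 2 := by
    intro x hx
    have h1 : (volume Q).toReal • f x = ∫ y in Q, (f x - f y) := by
      have hci : IntegrableOn (fun _ : UH => f x) Q := integrableOn_const hvfin
      rw [integral_sub hci hfi, h0, sub_zero, setIntegral_const]
      rfl
    have h2 : volume Q * ‖f x‖ₑ ≤ ∫⁻ y in Q, ‖f x - f y‖ₑ := by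
      have h3 := enorm_integral_le_lintegral_enorm (μ := volume.restrict Q) fun y => f x - f y
      rw [← h1, enorm_smul] at h3
      convert h3 using 2
      rw [Real.enorm_eq_ofReal ENNReal.toReal_nonneg, ENNReal.ofReal_toReal hvfin]
    have hmeas : AEMeasurable (fun y => ‖f x - f y‖ₑ) (volume.restrict Q) :=
      (aemeasurable_const.sub hfi.aemeasurable).enorm
    have h4 : (volume Q * ‖f x‖ₑ) ^ 2 ≤ volume Q * ∫⁻ y in Q, ‖f x - f y‖ₑ ^ 2 := by
      refine (pow_le_pow_left₀ bot_le h2 2).trans ?_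
      refine (poi_cs _ hmeas).trans (le_of_eq ?_)
      simp
    calc ‖f x‖ₑ ^ 2 = ((volume Q)⁻¹ * (volume Q)⁻¹) * (volume Q * ‖f x‖ₑ) ^ 2 := by
          rw [mul_pow, ← mul_assoc, sq (volume Q)]
          rw [show (volume Q)⁻¹ * (volume Q)⁻¹ * (volume Q * volume Q)
            = ((volume Q)⁻¹ * volume Q) * ((volume Q)⁻¹ * volume Q) by ring,
            ENNReal.inv_mul_cancel hv hvfin]
          simp
      _ ≤ ((volume Q)⁻¹ * (volume Q)⁻¹) * (volume Q * ∫⁻ y in Q, ‖f x - f y‖ₑ ^ 2) := by gcongr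
      _ = (volume Q)⁻¹ * ((volume Q)⁻¹ * volume Q) * ∫⁻ y in Q, ‖f x - f y‖ₑ ^ 2 := by ring
      _ = _ := by rw [ENNReal.inv_mul_cancel hv hvfin, mul_one]
  have hgm : Measurable fun p : UH => ‖fderiv ℝ f p‖ₑ ^ 2 :=
    (measurable_fderiv ℝ f).enorm.pow_const 2
  calc ∫⁻ x in Q, ‖f x‖ₑ ^ 2
      ≤ ∫⁻ x in Q, (volume Q)⁻¹ * ∫⁻ y in Q, ENNReal.ofReal (d ^ 2) *
        ∫⁻ τ in Set.Icc (0 : ℝ) 1, ‖fderiv ℝ f ((1 - τ) • x + τ • y)‖ₑ ^ 2 := by
        refine setLIntegral_mono' hQ fun x hx => ?_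
        refine (hB x hx).trans ?_
        exact mul_le_mul' le_rfl (setLIntegral_mono' hQ fun y hy =>
          poi_seg hf (hKs (hQK hx)) (hKs (hQK hy)) (hd x hx y hy))
    _ = (volume Q)⁻¹ * (ENNReal.ofReal (d ^ 2) * ∫⁻ x in Q, ∫⁻ y in Q,
        ∫⁻ τ in Set.Icc (0 : ℝ) 1, ‖fderiv ℝ f ((1 - τ) • x + τ • y)‖ₑ ^ 2) := by
        rw [lintegral_const_mul' _ _ (ENNReal.inv_ne_top.2 hv)]
        congr 1
        rw [← lintegral_const_mul' _ _ ENNReal.ofReal_ne_top]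
        refine lintegral_congr fun x => ?_
        rw [lintegral_const_mul' _ _ ENNReal.ofReal_ne_top]
    _ ≤ (volume Q)⁻¹ * (ENNReal.ofReal (d ^ 2) * (8 * volume Q *
        ∫⁻ x in Q, ‖fderiv ℝ f x‖ₑ ^ 2)) := by
        gcongr
        exact poi_double hQ hc hgm
    _ = ((volume Q)⁻¹ * volume Q) * (8 * ENNReal.ofReal (d ^ 2) *
        ∫⁻ x in Q, ‖fderiv ℝ f x‖ₑ ^ 2) := by ring
    _ = _ := by
        rw [ENNReal.inv_mul_cancel hv hvfin, one_mul, ENNReal.ofReal_mul (by norm_num)]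
        norm_num

/-- index of the cube which contains a point -/
private def poi_c (s : ℝ) (p : UH) : ℤ × ℤ × ℤ := (⌊p.1.re / s⌋, ⌊p.1.im / s⌋, ⌊p.2 / s⌋)

private theorem poi_c_meas (s : ℝ) : Measurable (poi_c s) := by
  unfold poi_c
  refine Measurable.prodMk ?_ (Measurable.prodMk ?_ ?_)
  · exact Int.measurable_floor.comp (by fun_prop)
  · exact Int.measurable_floor.comp (by fun_prop)
  · exact Int.measurable_floor.comp (by fun_prop)

private theorem poi_c_iff {s : ℝ} (hs : 0 < s) (m : ℤ × ℤ × ℤ) (p : UH) :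
    poi_c s p = m ↔ (m.1 * s ≤ p.1.re ∧ p.1.re < (m.1 + 1) * s) ∧
      (m.2.1 * s ≤ p.1.im ∧ p.1.im < (m.2.1 + 1) * s) ∧
      (m.2.2 * s ≤ p.2 ∧ p.2 < (m.2.2 + 1) * s) := by
  obtain ⟨a, b, c⟩ := m
  simp only [poi_c, Prod.mk.injEq, Int.floor_eq_iff, le_div_iff₀ hs, div_lt_iff₀ hs]

private theorem poi_c_convex {s : ℝ} (hs : 0 < s) (m : ℤ × ℤ × ℤ) :
    Convex ℝ (poi_c s ⁻¹' {m}) := by
  intro x hx y hy a b ha hb hab
  simp only [Set.mem_preimage, Set.mem_singleton_iff, poi_c_iff hs] at *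
  have key : ∀ {l u X Y : ℝ}, (l ≤ X ∧ X < u) → (l ≤ Y ∧ Y < u) →
      (l ≤ a * X + b * Y ∧ a * X + b * Y < u) := by
    intro l u X Y h1 h2
    have hb' : b = 1 - a := by linarith
    subst hb'
    constructor
    · nlinarith [mul_nonneg ha (sub_nonneg.2 h1.1), mul_nonneg hb (sub_nonneg.2 h2.1)]
    · rcases ha.eq_or_lt with h | h
      · rw [← h]; linarith [h2.2]
      · nlinarith [mul_pos h (sub_pos.2 h1.2), mul_nonneg hb (sub_pos.2 h2.2).le]
  obtain ⟨x1, x2, x3⟩ := hx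
  obtain ⟨y1, y2, y3⟩ := hy
  have e1 : (a • x + b • y).1.re = a * x.1.re + b * y.1.re := by simp
  have e2 : (a • x + b • y).1.im = a * x.1.im + b * y.1.im := by simp
  have e3 : (a • x + b • y).2 = a * x.2 + b * y.2 := by simp
  rw [e1, e2, e3]
  exact ⟨key x1 y1, key x2 y2, key x3 y3⟩

private theorem poi_c_diam {s : ℝ} (hs : 0 < s) {x y : UH} (h : poi_c s x = poi_c s y) :
    ‖x - y‖ ≤ 2 * s := by
  have hx := (poi_c_iff hs (poi_c s y) x).1 h
  have hy := (poi_c_iff hs (poi_c s y) y).1 rfl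
  obtain ⟨x1, x2, x3⟩ := hx
  obtain ⟨y1, y2, y3⟩ := hy
  rw [Prod.norm_def]
  refine max_le ?_ ?_
  · refine (Complex.norm_le_abs_re_add_abs_im _).trans ?_
    have h1 : |(x - y).1.re| ≤ s := by
      rw [Prod.fst_sub, Complex.sub_re, abs_le]
      constructor <;> nlinarith
    have h2 : |(x - y).1.im| ≤ s := by
      rw [Prod.fst_sub, Complex.sub_im, abs_le]
      constructor <;> nlinarith
    linarith
  · rw [Prod.snd_sub, Real.norm_eq_abs, abs_le]
    constructor <;> nlinarith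

private theorem poi_c_finite {s : ℝ} (hs : 0 < s) {K : Set UH} (hK : IsCompact K) :
    (poi_c s '' K).Finite := by
  obtain ⟨R, hR⟩ := hK.isBounded.exists_norm_le
  have hfin : (Set.Icc (⌊-R / s⌋) (⌊R / s⌋) ×ˢ (Set.Icc (⌊-R / s⌋) (⌊R / s⌋) ×ˢ
      Set.Icc (⌊-R / s⌋) (⌊R / s⌋)) : Set (ℤ × ℤ × ℤ)).Finite :=
    (Set.finite_Icc _ _).prod ((Set.finite_Icc _ _).prod (Set.finite_Icc _ _))
  refine hfin.subset ?_
  rintro _ ⟨p, hp, rfl⟩
  have h1 := hR p hp
  have key : ∀ t : ℝ, |t| ≤ R → ⌊t / s⌋ ∈ Set.Icc (⌊-R / s⌋) (⌊R / s⌋) := by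
    intro t ht
    rw [abs_le] at ht
    exact ⟨Int.floor_le_floor (by gcongr; exact ht.1), Int.floor_le_floor (by gcongr; exact ht.2)⟩
  have h2 : ‖p.1‖ ≤ R := (norm_fst_le p).trans h1
  have h3 : ‖p.2‖ ≤ R := (norm_snd_le p).trans h1
  exact ⟨key _ ((Complex.abs_re_le_norm _).trans h2), key _ ((Complex.abs_im_le_norm _).trans h2),
    key _ h3⟩

theorem poincare {K : Set UH} (hK : IsCompact K) (hKs : K ⊆ UHs) :
    ∃ K' : Set UH, IsCompact K' ∧ K' ⊆ UHs ∧ K ⊆ K' ∧ ∀ ε > (0 : ℝ), ∃ (N : ℕ) (Q : Fin N → Set UH),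
      (∀ j, MeasurableSet (Q j) ∧ Q j ⊆ K') ∧
      ∀ (J : Type) [Fintype J] (f : UH → J → ℂ), ContDiffOn ℝ 1 f UHs →
        (∀ j, ∫ p in Q j, f p = 0) →
        ∫ p in K, ‖f p‖ ^ 2 ≤ ε * ∫ p in K', ‖fderiv ℝ f p‖ ^ 2 := by
  obtain ⟨δ, hδ, hδs⟩ := hK.exists_cthickening_subset_open poi_open hKs
  have hK' : IsCompact (Metric.cthickening δ K) := hK.cthickening
  refine ⟨Metric.cthickening δ K, hK', hδs, Metric.self_subset_cthickening _, fun ε hε => ?_⟩
  -- the side of the cubes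
  set s : ℝ := min (δ / 2) (√(ε / 32)) with hs
  have hs0 : 0 < s := lt_min (by positivity) (Real.sqrt_pos.2 (by positivity))
  have hs1 : 2 * s ≤ δ := by have := min_le_left (δ / 2) (√(ε / 32)); linarith
  have hs2 : 8 * (2 * s) ^ 2 ≤ ε := by
    have h1 : s ≤ √(ε / 32) := min_le_right _ _
    have h2 : s ^ 2 ≤ ε / 32 := by
      calc s ^ 2 ≤ (√(ε / 32)) ^ 2 := pow_le_pow_left₀ hs0.le h1 2
        _ = ε / 32 := Real.sq_sqrt (by positivity)
    linarith
  have hfin := poi_c_finite hs0 hK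
  let I : Finset (ℤ × ℤ × ℤ) := hfin.toFinset
  let e := I.equivFin
  have hQm : ∀ m : ℤ × ℤ × ℤ, MeasurableSet (poi_c s ⁻¹' {m}) := fun m =>
    poi_c_meas s (measurableSet_singleton m)
  have hQK : ∀ m ∈ I, poi_c s ⁻¹' {m} ⊆ Metric.cthickening δ K := by
    intro m hm q hq
    obtain ⟨p, hp, hpm⟩ := hfin.mem_toFinset.1 hm
    refine Metric.mem_cthickening_of_dist_le q p δ K hp ?_
    rw [dist_eq_norm]
    refine (poi_c_diam hs0 ?_).trans hs1
    rw [hpm]; exact hq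
  refine ⟨I.card, fun j => poi_c s ⁻¹' {((e.symm j : I) : ℤ × ℤ × ℤ)}, fun j =>
    ⟨hQm _, hQK _ (e.symm j).2⟩, ?_⟩
  intro J _ f hf h0
  have h0' : ∀ m ∈ I, ∫ p in poi_c s ⁻¹' {m}, f p = 0 := by
    intro m hm
    have := h0 (e ⟨m, hm⟩)
    simpa using this
  -- the inequality for lower integrals
  have hmain : ∫⁻ p in K, ‖f p‖ₑ ^ 2 ≤ ENNReal.ofReal ε *
      ∫⁻ p in Metric.cthickening δ K, ‖fderiv ℝ f p‖ₑ ^ 2 := by
    have hdisj : (I : Set (ℤ × ℤ × ℤ)).PairwiseDisjoint fun m => poi_c s ⁻¹' {m} := by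
      intro m _ n _ hmn
      exact Disjoint.preimage _ (Set.disjoint_singleton.2 hmn)
    calc ∫⁻ p in K, ‖f p‖ₑ ^ 2 ≤ ∫⁻ p in ⋃ m ∈ I, poi_c s ⁻¹' {m}, ‖f p‖ₑ ^ 2 := by
          refine lintegral_mono_set fun p hp => ?_
          simp only [Set.mem_iUnion]
          exact ⟨poi_c s p, hfin.mem_toFinset.2 ⟨p, hp, rfl⟩, rfl⟩
      _ = ∑ m ∈ I, ∫⁻ p in poi_c s ⁻¹' {m}, ‖f p‖ₑ ^ 2 :=
          lintegral_biUnion_finset hdisj (fun m _ => hQm m) _
      _ ≤ ∑ m ∈ I, ENNReal.ofReal (8 * (2 * s) ^ 2) *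
          ∫⁻ p in poi_c s ⁻¹' {m}, ‖fderiv ℝ f p‖ₑ ^ 2 := by
          refine Finset.sum_le_sum fun m hm => ?_
          refine poi_convexSet (hQm m) (poi_c_convex hs0 m) (hQK m hm) hK' hδs ?_ hf (h0' m hm)
          intro x hx y hy
          refine poi_c_diam hs0 ?_
          rw [Set.mem_preimage, Set.mem_singleton_iff] at hx hy
          rw [hx, hy]
      _ = ENNReal.ofReal (8 * (2 * s) ^ 2) *
          ∫⁻ p in ⋃ m ∈ I, poi_c s ⁻¹' {m}, ‖fderiv ℝ f p‖ₑ ^ 2 := by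
          rw [← Finset.mul_sum, lintegral_biUnion_finset hdisj (fun m _ => hQm m)]
      _ ≤ _ := by
          gcongr
          exact Set.iUnion₂_subset hQK
  -- back to Bochner integrals
  have hcf : ContinuousOn (fun p => ‖f p‖ ^ 2) (Metric.cthickening δ K) :=
    ((hf.continuousOn.mono hδs).norm).pow 2
  have hcd : ContinuousOn (fun p => ‖fderiv ℝ f p‖ ^ 2) (Metric.cthickening δ K) :=
    (((hf.continuousOn_fderiv_of_isOpen poi_open le_rfl).mono hδs).norm).pow 2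
  have hi2 : IntegrableOn (fun p => ‖fderiv ℝ f p‖ ^ 2) (Metric.cthickening δ K) :=
    hcd.integrableOn_compact hK'
  have hi1 : IntegrableOn (fun p => ‖f p‖ ^ 2) K :=
    (hcf.integrableOn_compact hK').mono_set (Metric.self_subset_cthickening _)
  have e1 : ∀ (E : Type) [NormedAddCommGroup E] (g : UH → E) (A : Set UH),
      ∫⁻ p in A, ‖g p‖ₑ ^ 2 = ∫⁻ p in A, ENNReal.ofReal (‖g p‖ ^ 2) := by
    intro E _ g A
    refine lintegral_congr fun p => ?_
    rw [ENNReal.ofReal_pow (norm_nonneg _), ofReal_norm]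
  rw [integral_eq_lintegral_of_nonneg_ae (Filter.Eventually.of_forall fun p => by positivity)
      hi1.aestronglyMeasurable,
    integral_eq_lintegral_of_nonneg_ae (Filter.Eventually.of_forall fun p => by positivity)
      hi2.aestronglyMeasurable, ← e1, ← e1]
  have hfin2 : ∫⁻ p in Metric.cthickening δ K, ‖fderiv ℝ f p‖ₑ ^ 2 ≠ ⊤ := by
    rw [e1]
    exact (hi2.lintegral_lt_top).ne
  calc (∫⁻ p in K, ‖f p‖ₑ ^ 2).toReal
      ≤ (ENNReal.ofReal ε * ∫⁻ p in Metric.cthickening δ K, ‖fderiv ℝ f p‖ₑ ^ 2).toReal :=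
        ENNReal.toReal_mono (ENNReal.mul_ne_top ENNReal.ofReal_ne_top hfin2) hmain
    _ = _ := by rw [ENNReal.toReal_mul, ENNReal.toReal_ofReal hε.le]

end

end Pool.Agent.Work.MP_14c213_gt
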