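import Pool.Agent.Work.MP_14c213_gt.A.Green
import Pool.Agent.Work.MP_14c213_gt.A.Poinc
import Pool.Agent.Work.MP_14c213_gt.A.GradB

/-!
Finiteness of multiplicities and discreteness of the spectrum of Cas. Let W be the span of the F i.
Eigenvectors for different eigenvalues are ip-orthogonal (Cas_symm), so for F ∈ W, energy gives
∑ ‖E_i F‖² ≤ (R + |ck|) ‖F‖². If dim W > N · card (Ix k) there is F ≠ 0 in W with ∫_{Q j} F∘sec = 0 for
all j (Poincaré cubes for K ⊇ closure D, ε small), contradiction.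
Cas_real: eigenvalues are real; Cas_bdd: they are bounded below by -‖ck‖ (energy ≥ 0).
-/

namespace Pool.Agent.Work.MP_14c213_gt

open Matrix MeasureTheory
open scoped Matrix ContDiff Matrix.Norms.Elementwise

noncomputable section

/-! the inner product -/

theorem fm_cont {k : ℕ} {Γ : Subgroup (Mat 3)ˣ} (F : Sect (tau k) Γ) : ContinuousOn F.1 GLo :=
  F.2.2.1.continuousOn

theorem fm_zero {k : ℕ} {D : Set UH} (F : M2 → Ix k → ℂ) : ip k D F 0 = 0 := by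
  unfold ip
  simp

/-- `ip` as a linear form in the second argument. -/
def fmL {k : ℕ} {Γ : Subgroup (Mat 3)ˣ} {D : Set UH} (h : Klein Γ) (hD : FD Γ D)
    (F : Sect (tau k) Γ) : Sect (tau k) Γ →ₗ[ℂ] ℂ where
  toFun G := ip k D F.1 G.1
  map_add' G H := by
    have h1 := (ip_sesq (k := k) h hD (fm_cont F) (fm_cont G) (fm_cont H) 1).1
    rw [one_smul, one_mul] at h1
    exact h1
  map_smul' c G := by
    have h1 := (ip_sesq (k := k) (G := 0) h hD (fm_cont F) continuousOn_const (fm_cont G) c).1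
    rw [fm_zero, zero_add, zero_add] at h1
    exact h1

theorem fmL_apply {k : ℕ} {Γ : Subgroup (Mat 3)ˣ} {D : Set UH} (h : Klein Γ) (hD : FD Γ D)
    (F G : Sect (tau k) Γ) : fmL h hD F G = ip k D F.1 G.1 := rfl

theorem fmL_star {k : ℕ} {Γ : Subgroup (Mat 3)ˣ} {D : Set UH} (h : Klein Γ) (hD : FD Γ D)
    (F G : Sect (tau k) Γ) : star (fmL h hD F G) = fmL h hD G F :=
  (ip_sesq (k := k) h hD (fm_cont F) (fm_cont G) (fm_cont G) 1).2

theorem fmL_sum_left {k : ℕ} {Γ : Subgroup (Mat 3)ˣ} {D : Set UH} (h : Klein Γ) (hD : FD Γ D)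
    {α : Type*} (s : Finset α) (F : α → Sect (tau k) Γ) (G : Sect (tau k) Γ) :
    fmL h hD (∑ a ∈ s, F a) G = ∑ a ∈ s, fmL h hD (F a) G := by
  rw [← fmL_star h hD G, map_sum, star_sum]
  exact Finset.sum_congr rfl fun a _ => fmL_star h hD _ _

theorem fmL_eig {k : ℕ} {Γ : Subgroup (Mat 3)ˣ} {D : Set UH} (h : Klein Γ) (hD : FD Γ D)
    {lam lam' : ℝ} (hne : lam ≠ lam') {F G : Sect (tau k) Γ} (hF : CasL k Γ F = (lam : ℂ) • F)
    (hG : CasL k Γ G = (lam' : ℂ) • G) : fmL h hD F G = 0 := by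
  have h1 : fmL h hD (CasL k Γ F) G = fmL h hD F (CasL k Γ G) := Cas_symm h hD F G
  rw [hG, map_smul, ← fmL_star h hD G, hF, map_smul, smul_eq_mul, smul_eq_mul, star_mul',
    fmL_star h hD G F, Complex.star_def, Complex.conj_ofReal] at h1
  have h2 : ((lam : ℂ) - lam') * fmL h hD F G = 0 := by linear_combination h1
  rcases mul_eq_zero.1 h2 with h3 | h3
  · exfalso
    apply hne
    have : (lam : ℂ) = lam' := by linear_combination h3
    exact_mod_cast this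
  · exact h3

/-- multiplication by the constant matrix `ck` -/
def fmC {k : ℕ} {Γ : Subgroup (Mat 3)ˣ} (F : Sect (tau k) Γ) : Sect (tau k) Γ :=
  ⟨fun g => ck k *ᵥ F.1 g, Sect_ck F.2⟩

theorem fm_energy {k : ℕ} {Γ : Subgroup (Mat 3)ˣ} {D : Set UH} (h : Klein Γ) (hD : FD Γ D)
    (F : Sect (tau k) Γ) : ∑ i, ip k D (E (eX i) F.1) (E (eX i) F.1) =
      fmL h hD F (CasL k Γ F) - fmL h hD F (fmC F) := by
  rw [energy h hD F]
  have h1 := (ip_sesq (k := k) h hD (fm_cont F) (fm_cont (CasL k Γ F)) (fm_cont (fmC F)) (-1)).1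
  have h2 : (fun g => Cas F.1 g - ck k *ᵥ F.1 g) = (CasL k Γ F).1 + (-1 : ℂ) • (fmC F).1 := by
    funext g
    show Cas F.1 g - ck k *ᵥ F.1 g = Cas F.1 g + (-1 : ℂ) • (ck k *ᵥ F.1 g)
    rw [neg_one_smul, sub_eq_add_neg]
  rw [h2, h1, fmL_apply, fmL_apply]
  ring

theorem fm_matrix {J : Type} [Fintype J] (A : Matrix J J ℂ) : ∃ B : ℝ, 0 ≤ B ∧ ∀ v : J → ℂ,
    ‖star v ⬝ᵥ (A *ᵥ v)‖ ≤ B * gbN v := by
  obtain ⟨C, hC, hb⟩ : ∃ C : ℝ, 0 ≤ C ∧ ∀ v : J → ℂ, ‖A *ᵥ v‖ ≤ C * ‖v‖ :=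
    ⟨_, norm_nonneg _, fun v =>
      (LinearMap.toContinuousLinearMap (Matrix.mulVecLin A)).le_opNorm v⟩
  refine ⟨1 + Fintype.card J * C ^ 2, by positivity, fun v => ?_⟩
  have h1 : ‖star v ⬝ᵥ (A *ᵥ v)‖ ≤ ∑ j, (‖v j‖ ^ 2 + ‖(A *ᵥ v) j‖ ^ 2) := by
    unfold dotProduct
    refine (norm_sum_le _ _).trans (Finset.sum_le_sum fun j _ => ?_)
    rw [norm_mul, Pi.star_apply, norm_star]
    nlinarith [sq_nonneg (‖v j‖ - ‖(A *ᵥ v) j‖), norm_nonneg (v j), norm_nonneg ((A *ᵥ v) j)]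
  rw [Finset.sum_add_distrib] at h1
  have h2 : ∑ j, ‖(A *ᵥ v) j‖ ^ 2 ≤ Fintype.card J * ‖A *ᵥ v‖ ^ 2 := gbN_le_norm _
  have h3 : ‖A *ᵥ v‖ ^ 2 ≤ C ^ 2 * ‖v‖ ^ 2 := by
    rw [← mul_pow]
    exact pow_le_pow_left₀ (norm_nonneg _) (hb v) 2
  have h4 := gbN_norm_le v
  have h5 : (0 : ℝ) ≤ Fintype.card J := Nat.cast_nonneg _
  calc ‖star v ⬝ᵥ (A *ᵥ v)‖ ≤ gbN v + ∑ j, ‖(A *ᵥ v) j‖ ^ 2 := h1
    _ ≤ gbN v + Fintype.card J * (C ^ 2 * gbN v) := by
        have h6 : Fintype.card J * ‖A *ᵥ v‖ ^ 2 ≤ Fintype.card J * (C ^ 2 * gbN v) :=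
          mul_le_mul_of_nonneg_left
            (h3.trans (mul_le_mul_of_nonneg_left h4 (sq_nonneg _))) h5
        linarith
    _ = (1 + Fintype.card J * C ^ 2) * gbN v := by ring

theorem fm_ck (k : ℕ) : ∃ B : ℝ, 0 ≤ B ∧ ∀ (Γ : Subgroup (Mat 3)ˣ) (D : Set UH) (h : Klein Γ)
    (hD : FD Γ D) (F : Sect (tau k) Γ),
      ‖fmL h hD F (fmC F)‖ ≤ B * (fmL h hD F F).re := by
  obtain ⟨B, hB, hb⟩ := fm_matrix (ck k)
  refine ⟨B, hB, fun Γ D h hD F => ?_⟩
  rw [fmL_apply, fmL_apply, gb_ip, ← integral_const_mul]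
  have hc : ContinuousOn (fun p => gbN (F.1 (sec p))) UHs :=
    gbN_cont.comp_continuousOn (gb_cont F.2.2.1)
  refine norm_integral_le_of_norm_le ((gb_int hD hc).const_mul B) ?_
  exact Filter.Eventually.of_forall fun p => hb _

theorem fm_re_nonneg {k : ℕ} {Γ : Subgroup (Mat 3)ˣ} {D : Set UH} (h : Klein Γ) (hD : FD Γ D)
    (F : Sect (tau k) Γ) : 0 ≤ (fmL h hD F F).re := by
  rw [fmL_apply, gb_ip]
  exact integral_nonneg fun p => gbN_nonneg _

theorem fm_re_pos {k : ℕ} {Γ : Subgroup (Mat 3)ˣ} {D : Set UH} (h : Klein Γ) (hD : FD Γ D)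
    {F : Sect (tau k) Γ} (hF : F ≠ 0) : 0 < (fmL h hD F F).re := by
  refine lt_of_le_of_ne (fm_re_nonneg h hD F) fun h1 => hF ?_
  refine ip_pos h hD F (Complex.ext h1.symm ?_)
  exact (ip_nonneg (k := k) h hD (fm_cont F)).2

/-- decomposition of a combination of eigenvectors -/
theorem fm_decomp {k : ℕ} {Γ : Subgroup (Mat 3)ˣ} {D : Set UH} (h : Klein Γ) (hD : FD Γ D)
    {ι : Type} [Fintype ι] (F : ι → Sect (tau k) Γ) (lam : ι → ℝ) {R : ℝ}
    (hF : ∀ i, CasL k Γ (F i) = (lam i : ℂ) • F i) (hR : ∀ i, lam i ≤ R) (c : ι → ℂ) :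
    (fmL h hD (∑ i, c i • F i) (CasL k Γ (∑ i, c i • F i))).re
      ≤ R * (fmL h hD (∑ i, c i • F i) (∑ i, c i • F i)).re := by
  classical
  set S : Finset ℝ := Finset.univ.image lam with hS
  set G : ℝ → Sect (tau k) Γ := fun l => ∑ i ∈ Finset.univ.filter (fun i => lam i = l), c i • F i
    with hG
  have hsum : ∑ i, c i • F i = ∑ l ∈ S, G l :=
    (Finset.sum_fiberwise_of_maps_to (fun i _ => Finset.mem_image_of_mem lam (Finset.mem_univ i))
      _).symm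
  have hGe : ∀ l, CasL k Γ (G l) = (l : ℂ) • G l := by
    intro l
    rw [hG]
    simp only
    rw [map_sum, Finset.smul_sum]
    refine Finset.sum_congr rfl fun i hi => ?_
    rw [map_smul, hF i, (Finset.mem_filter.1 hi).2, smul_comm]
  have horth : ∀ l l' : ℝ, l ≠ l' → fmL h hD (G l) (G l') = 0 := fun l l' hne =>
    fmL_eig h hD hne (hGe l) (hGe l')
  have h1 : fmL h hD (∑ l ∈ S, G l) (∑ l ∈ S, G l) = ∑ l ∈ S, fmL h hD (G l) (G l) := by
    rw [fmL_sum_left]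
    refine Finset.sum_congr rfl fun l hl => ?_
    rw [map_sum]
    exact Finset.sum_eq_single l (fun l' _ hne => horth l l' hne.symm) fun h => absurd hl h
  have h2 : fmL h hD (∑ l ∈ S, G l) (CasL k Γ (∑ l ∈ S, G l))
      = ∑ l ∈ S, (l : ℂ) * fmL h hD (G l) (G l) := by
    rw [fmL_sum_left]
    refine Finset.sum_congr rfl fun l hl => ?_
    rw [map_sum, map_sum]
    rw [Finset.sum_eq_single l (fun l' _ hne => by
      rw [hGe, map_smul, horth l l' hne.symm, smul_zero]) fun h => absurd hl h]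
    rw [hGe, map_smul, smul_eq_mul]
  rw [hsum, h1, h2, Complex.re_sum, Complex.re_sum, Finset.mul_sum]
  refine Finset.sum_le_sum fun l hl => ?_
  rw [Complex.re_ofReal_mul]
  obtain ⟨i, -, hi⟩ := Finset.mem_image.1 hl
  exact mul_le_mul_of_nonneg_right (hi ▸ hR i) (fm_re_nonneg h hD _)

/-- integrals over small boxes -/
def fmT {k : ℕ} (Γ : Subgroup (Mat 3)ˣ) {K' : Set UH} (hK' : IsCompact K') (hKs' : K' ⊆ UHs)
    {N : ℕ} (Q : Fin N → Set UH) (hQ : ∀ j, MeasurableSet (Q j) ∧ Q j ⊆ K') :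
    Sect (tau k) Γ →ₗ[ℂ] (Fin N → Ix k → ℂ) where
  toFun F := fun j => ∫ p in Q j, F.1 (sec p)
  map_add' F G := by
    funext j
    have hi : ∀ F : Sect (tau k) Γ, IntegrableOn (fun p => F.1 (sec p)) (Q j) := fun F =>
      (((gb_cont F.2.2.1).mono hKs').integrableOn_compact hK').mono_set (hQ j).2
    exact integral_add (hi F) (hi G)
  map_smul' c F := by
    funext j
    exact integral_smul c _

theorem fin_mult {Γ : Subgroup (Mat 3)ˣ} (h : Klein Γ) (k : ℕ) (R : ℝ) :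
    ∃ N : ℕ, ∀ (ι : Type) [Fintype ι] (F : ι → Sect (tau k) Γ) (lam : ι → ℝ),
      (∀ i, CasL k Γ (F i) = (lam i : ℂ) • F i) → (∀ i, lam i ≤ R) → LinearIndependent ℂ F →
      Fintype.card ι ≤ N := by
  obtain ⟨D, hD⟩ := FD_exists h
  obtain ⟨hcl, hcls⟩ := gb_closure hD
  obtain ⟨K', hK', hKs', -, hP⟩ := poincare hcl hcls
  obtain ⟨M1, hM1⟩ := grad_bound (k := k) h hD hK' hKs'
  obtain ⟨B, hB, hck⟩ := fm_ck k
  obtain ⟨M, hM, hM0⟩ : ∃ M : ℝ, M1 ≤ M ∧ 0 ≤ M := ⟨max M1 0, le_max_left _ _, le_max_right _ _⟩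
  obtain ⟨W, hW, hW0⟩ : ∃ W : ℝ, 1 + R + B ≤ W ∧ 0 ≤ W :=
    ⟨max (1 + R + B) 0, le_max_left _ _, le_max_right _ _⟩
  set ε : ℝ := 1 / (2 * (M * M * W + 1)) with hε
  have hε0 : 0 < ε := by positivity
  obtain ⟨N, Q, hQ, hQP⟩ := hP ε hε0
  refine ⟨N * Fintype.card (Ix k), ?_⟩
  intro ι _ F lam hF hR hli
  -- the key
  have key : ∀ c : ι → ℂ, fmT Γ hK' hKs' Q hQ (∑ i, c i • F i) = 0 → ∑ i, c i • F i = 0 := by
    intro c hc
    set G := ∑ i, c i • F i with hG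
    by_contra hne
    have hpos := fm_re_pos h hD hne
    have h1 := fm_decomp h hD F lam hF hR c
    rw [← hG] at h1
    have h2 := congrArg Complex.re (fm_energy h hD G)
    rw [Complex.sub_re, Complex.re_sum] at h2
    have h3 := hck Γ D h hD G
    have h4 : -(fmL h hD G (fmC G)).re ≤ ‖fmL h hD G (fmC G)‖ :=
      (neg_le_abs _).trans (Complex.abs_re_le_norm _)
    have h5 : ∑ i, (ip k D (E (eX i) G.1) (E (eX i) G.1)).re ≤ (R + B) * (fmL h hD G G).re := by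
      rw [h2]; linarith
    obtain ⟨g1, -, g3⟩ := hM1 G
    have h6 : (ip k D G.1 G.1).re + ∑ i, (ip k D (E (eX i) G.1) (E (eX i) G.1)).re
        ≤ W * (fmL h hD G G).re := by
      have e1 : (1 + R + B) * (fmL h hD G G).re ≤ W * (fmL h hD G G).re :=
        mul_le_mul_of_nonneg_right hW hpos.le
      have e2 : (ip k D G.1 G.1).re = (fmL h hD G G).re := rfl
      linarith
    have n6 : 0 ≤ (ip k D G.1 G.1).re + ∑ i, (ip k D (E (eX i) G.1) (E (eX i) G.1)).re := by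
      refine add_nonneg hpos.le (Finset.sum_nonneg fun i _ => ?_)
      rw [gb_ip]
      exact integral_nonneg fun p => gbN_nonneg _
    have h7 : ∫ p in K', ‖fderiv ℝ (fun q => G.1 (sec q)) p‖ ^ 2
        ≤ M * (W * (fmL h hD G G).re) := by
      refine g1.trans ((mul_le_mul_of_nonneg_right hM n6).trans ?_)
      exact mul_le_mul_of_nonneg_left h6 hM0
    have hsm : ContDiffOn ℝ 1 (fun p => G.1 (sec p)) UHs :=
      (G.2.2.1.comp sec_smooth.contDiffOn fun _ hp => sec_mem hp).of_le (by simp)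
    have h8 := hQP (Ix k) (fun p => G.1 (sec p)) hsm (fun j => congrFun hc j)
    have n8 : 0 ≤ ∫ p in closure D, ‖G.1 (sec p)‖ ^ 2 := integral_nonneg fun p => by positivity
    have h9 : (fmL h hD G G).re ≤ M * (ε * (M * (W * (fmL h hD G G).re))) := by
      calc (fmL h hD G G).re ≤ M1 * ∫ p in closure D, ‖G.1 (sec p)‖ ^ 2 := g3
        _ ≤ M * ∫ p in closure D, ‖G.1 (sec p)‖ ^ 2 :=
            mul_le_mul_of_nonneg_right hM n8
        _ ≤ M * (ε * ∫ p in K', ‖fderiv ℝ (fun q => G.1 (sec q)) p‖ ^ 2) :=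
            mul_le_mul_of_nonneg_left h8 hM0
        _ ≤ _ := mul_le_mul_of_nonneg_left (mul_le_mul_of_nonneg_left h7 hε0.le) hM0
    have h10 : ε * (M * M * W) < 1 := by
      rw [hε, div_mul_eq_mul_div, one_mul, div_lt_one (by positivity)]
      have : 0 ≤ M * M * W := by positivity
      linarith
    have h11 : M * (ε * (M * (W * (fmL h hD G G).re))) = (ε * (M * M * W)) * (fmL h hD G G).re := by
      ring
    rw [h11] at h9
    have h12 : (ε * (M * M * W)) * (fmL h hD G G).re < 1 * (fmL h hD G G).re :=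
      mul_lt_mul_of_pos_right h10 hpos
    linarith
  have hinj : Function.Injective
      ((fmT Γ hK' hKs' Q hQ).comp (Fintype.linearCombination ℂ F)) := by
    rw [← LinearMap.ker_eq_bot, LinearMap.ker_eq_bot']
    intro c hc
    have h1 := key c (by simpa [Fintype.linearCombination_apply] using hc)
    exact funext fun i => (Fintype.linearIndependent_iff.1 hli) c h1 i
  have h1 := LinearMap.finrank_le_finrank_of_injective hinj
  rwa [Module.finrank_fintype_fun_eq_card, Module.finrank_pi_fintype, Finset.sum_const,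
    Finset.card_univ, Fintype.card_fin, Module.finrank_fintype_fun_eq_card, smul_eq_mul] at h1

theorem fm_mem {k : ℕ} {Γ : Subgroup (Mat 3)ˣ} {lam : ℝ} {F : Sect (tau k) Γ} :
    F ∈ EL k Γ lam ↔ CasL k Γ F = (lam : ℂ) • F := Module.End.mem_eigenspace_iff

theorem fm_abs {V : Type} [AddCommGroup V] [Module ℂ V] (W : Submodule ℂ V) (N : ℕ)
    (h : ∀ (s : Type) [Fintype s] (F : s → V), (∀ i, F i ∈ W) → LinearIndependent ℂ F →
      Fintype.card s ≤ N) : FiniteDimensional ℂ W := by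
  have h1 : Module.rank ℂ W ≤ N := by
    refine rank_le fun s hs => ?_
    have h2 : LinearIndependent ℂ (fun i : s => ((i : W) : V)) :=
      hs.map' W.subtype (Submodule.ker_subtype _)
    have h3 := h s _ (fun i => i.1.2) h2
    rwa [Fintype.card_coe] at h3
  exact Module.rank_lt_aleph0_iff.1 (h1.trans_lt (Cardinal.natCast_lt_aleph0))

theorem EL_fin {Γ : Subgroup (Mat 3)ˣ} (h : Klein Γ) (k : ℕ) (lam : ℝ) :
    FiniteDimensional ℂ (EL k Γ lam) := by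
  obtain ⟨N, hN⟩ := fin_mult h k lam
  exact fm_abs (EL k Γ lam) N fun s _ F hF hli =>
    hN s F (fun _ => lam) (fun i => fm_mem.1 (hF i)) (fun _ => le_rfl) hli

theorem EL_discrete {Γ : Subgroup (Mat 3)ˣ} (h : Klein Γ) (k : ℕ) (R : ℝ) :
    {lam : ℝ | lam ≤ R ∧ EL k Γ lam ≠ ⊥}.Finite := by
  obtain ⟨N, hN⟩ := fin_mult h k R
  by_contra hinf
  obtain ⟨T, hT, hTc⟩ := Set.Infinite.exists_subset_card_eq hinf (N + 1)
  have hex : ∀ l : T, ∃ F : Sect (tau k) Γ, F ∈ EL k Γ (l : ℝ) ∧ F ≠ 0 := fun l =>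
    (Submodule.ne_bot_iff _).1 (hT l.2).2
  choose F hF hF0 using hex
  have hli : LinearIndependent ℂ F := by
    refine Module.End.eigenvectors_linearIndependent' (CasL k Γ) (fun l : T => ((l : ℝ) : ℂ)) ?_ F ?_
    · intro a b hab
      exact Subtype.ext (Complex.ofReal_injective hab)
    · exact fun l => ⟨hF l, hF0 l⟩
  have h1 := hN T F (fun l => (l : ℝ)) (fun l => fm_mem.1 (hF l)) (fun l => (hT l.2).1) hli
  rw [Fintype.card_coe, hTc] at h1
  omega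

theorem EL_bdd {Γ : Subgroup (Mat 3)ˣ} (h : Klein Γ) (k : ℕ) :
    ∃ c : ℝ, ∀ lam : ℝ, EL k Γ lam ≠ ⊥ → -c ≤ lam := by
  obtain ⟨D, hD⟩ := FD_exists h
  obtain ⟨B, hB, hck⟩ := fm_ck k
  refine ⟨B, fun lam hlam => ?_⟩
  obtain ⟨F, hF, hF0⟩ := (Submodule.ne_bot_iff _).1 hlam
  have hpos := fm_re_pos h hD hF0
  have h2 := congrArg Complex.re (fm_energy h hD F)
  rw [Complex.sub_re, Complex.re_sum, fm_mem.1 hF, map_smul, smul_eq_mul,
    Complex.re_ofReal_mul] at h2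
  have h3 := hck Γ D h hD F
  have h4 : -(fmL h hD F (fmC F)).re ≤ ‖fmL h hD F (fmC F)‖ :=
    (neg_le_abs _).trans (Complex.abs_re_le_norm _)
  have h5 : 0 ≤ ∑ i, (ip k D (E (eX i) F.1) (E (eX i) F.1)).re := by
    refine Finset.sum_nonneg fun i _ => ?_
    rw [gb_ip]
    exact integral_nonneg fun p => gbN_nonneg _
  have h6 : 0 ≤ (lam + B) * (fmL h hD F F).re := by linarith
  have h7 := nonneg_of_mul_nonneg_left h6 hpos
  linarith

theorem EL_orth {Γ : Subgroup (Mat 3)ˣ} {D : Set UH} (h : Klein Γ) (hD : FD Γ D) (k : ℕ)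
    {lam lam' : ℝ} (hne : lam ≠ lam') {F G : Sect (tau k) Γ} (hF : F ∈ EL k Γ lam)
    (hG : G ∈ EL k Γ lam') : ip k D F.1 G.1 = 0 :=
  fmL_eig h hD hne (fm_mem.1 hF) (fm_mem.1 hG)

end

end Pool.Agent.Work.MP_14c213_gt
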