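import Pool.Agent.Work.MP_14c213_gt.A.TAM

/-!
Totality: if all T_A with smooth profile kill f then f = 0. Let φ = ρ(SS q) f(q), extended
equivariantly to the finitely many translates of D near D. Smooth profiles A_n supported in
[2, 2 + 1/(n+1)²] give ∫ A_n(2 cosh d(p, q)) φ(q) dmu = 0 for almost every p in D, and at a Lebesgue
point this forces φ p = 0.
-/

namespace Pool.Agent.Work.MP_14c213_gt

open Matrix MeasureTheory Filter Topology
open scoped Matrix ContDiff Matrix.Norms.Elementwise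

noncomputable section

/-! ### Lebesgue points -/

/-- twice the hyperbolic cosine of the distance -/
private def tdd (p q : UH) : ℝ := 2 * ((SS p)⁻¹ * SS q) 0 0

/-- smooth profile equal to `1` on `[2, 2 + ε / 2]` and to `0` after `2 + ε` -/
private def tbmp (ε v : ℝ) : ℝ := Real.smoothTransition (2 * (2 + ε - v) / ε)

private theorem tbmp_smooth (ε : ℝ) : ContDiff ℝ ∞ (tbmp ε) := by
  unfold tbmp
  exact Real.smoothTransition.contDiff.comp
    ((contDiff_const.mul (contDiff_const.sub contDiff_id)).div_const ε)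

private theorem tbmp_zero {ε v : ℝ} (hε : 0 < ε) (hv : 2 + ε ≤ v) : tbmp ε v = 0 := by
  unfold tbmp
  apply Real.smoothTransition.zero_of_nonpos
  apply div_nonpos_of_nonpos_of_nonneg _ hε.le
  linarith

private theorem tbmp_one {ε v : ℝ} (hε : 0 < ε) (hv : v ≤ 2 + ε / 2) : tbmp ε v = 1 := by
  unfold tbmp
  apply Real.smoothTransition.one_of_one_le
  rw [le_div_iff₀ hε]
  linarith

private theorem tbmp_prof {ε : ℝ} (hε : 0 < ε) : Prof (tbmp ε) :=
  ⟨(tbmp_smooth ε).continuous, 2 + ε, fun _ hv => tbmp_zero hε hv⟩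

private theorem tot_far {p q : UH} (hp : p ∈ UHs) (hq : q ∈ UHs) {δ : ℝ} (h0 : 0 < δ) (h1 : δ ≤ 1)
    (h : tdd p q < 2 + δ ^ 2) : q ∈ Metric.closedBall p (2 * δ * p.2) := by
  have hp' : 0 < p.2 := hp
  have hq' : 0 < q.2 := hq
  unfold tdd at h
  rw [SS_dist hp hq, div_lt_iff₀ (mul_pos hp' hq')] at h
  have hn : 0 ≤ ‖p.1 - q.1‖ ^ 2 := by positivity
  have hδ : δ ^ 2 ≤ 1 := by nlinarith
  have hpq := mul_pos hp' hq'
  have h3 : q.2 ≤ 3 * p.2 := by
    by_contra hc
    push Not at hc
    nlinarith [mul_le_mul_of_nonneg_right hδ hpq.le]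
  have h4 : δ ^ 2 * (p.2 * q.2) ≤ 3 * (δ * p.2) ^ 2 := by
    have := mul_le_mul_of_nonneg_left (mul_le_mul_of_nonneg_left h3 hp'.le) (sq_nonneg δ)
    nlinarith
  have h5 : 0 < δ * p.2 := mul_pos h0 hp'
  rw [Metric.mem_closedBall, Prod.dist_eq, max_le_iff]
  constructor
  · rw [dist_comm, dist_eq_norm]
    apply (pow_le_pow_iff_left₀ (norm_nonneg _) (by positivity : (0:ℝ) ≤ 2 * δ * p.2) two_ne_zero).mp
    nlinarith [sq_nonneg (p.2 - q.2)]
  · rw [dist_comm, Real.dist_eq]
    apply abs_le_of_sq_le_sq' _ (by positivity) |> abs_le.mpr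
    nlinarith [sq_nonneg (p.2 - q.2)]

private theorem tot_near {p q : UH} (hp : p ∈ UHs) {δ : ℝ} (h0 : 0 < δ) (h1 : δ ≤ 1)
    (h : q ∈ Metric.closedBall p (2 * δ * p.2 * (1 / 8))) : q ∈ UHs ∧ tdd p q ≤ 2 + δ ^ 2 / 2 := by
  have hp' : 0 < p.2 := hp
  have h5 : 0 < δ * p.2 := mul_pos h0 hp'
  rw [Metric.mem_closedBall, Prod.dist_eq, max_le_iff, dist_comm, dist_eq_norm, dist_comm,
    Real.dist_eq] at h
  obtain ⟨ha, hb⟩ := h
  have hb' := abs_le.mp hb
  have h6 : δ * p.2 ≤ p.2 := by nlinarith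
  have hq' : 3 / 4 * p.2 ≤ q.2 := by nlinarith
  have hq : q ∈ UHs := by
    show 0 < q.2
    nlinarith
  refine ⟨hq, ?_⟩
  have hq0 : 0 < q.2 := hq
  unfold tdd
  rw [SS_dist hp hq, div_le_iff₀ (mul_pos hp' hq0)]
  have ha2 : ‖p.1 - q.1‖ ^ 2 ≤ (δ * p.2 / 4) ^ 2 := by
    apply pow_le_pow_left₀ (norm_nonneg _)
    linarith
  have hb2 : (p.2 - q.2) ^ 2 ≤ (δ * p.2 / 4) ^ 2 := by
    apply sq_le_sq'
    · nlinarith
    · nlinarith
  have h7 : δ ^ 2 * (p.2 * (3 / 4 * p.2)) ≤ δ ^ 2 * (p.2 * q.2) := by gcongr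
  nlinarith

private theorem tot_leb {h : UH → ℂ} (hh : Integrable h volume) :
    ∀ᵐ p ∂(volume : Measure UH), p ∈ UHs →
      (∀ n : ℕ, ∫ q in UHs, ((tbmp ((1 / ((n : ℝ) + 1)) ^ 2) (tdd p q) : ℝ) : ℂ) * h q = 0) →
      h p = 0 := by
  filter_upwards [IsUnifLocDoublingMeasure.ae_tendsto_average_norm_sub (μ := (volume : Measure UH))
    hh.locallyIntegrable 1] with p hp hpU hn
  have hp' : 0 < p.2 := hpU
  set d : ℕ → ℝ := fun n => 1 / ((n : ℝ) + 1) with hd
  have hd0 : ∀ n, 0 < d n := fun n => by positivity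
  have hd1 : ∀ n, d n ≤ 1 := fun n => by
    rw [hd]
    simp only
    rw [div_le_one (by positivity)]
    linarith [(Nat.cast_nonneg n : (0:ℝ) ≤ n)]
  have hdl : Tendsto d atTop (𝓝 0) := tendsto_one_div_add_atTop_nhds_zero_nat
  set r : ℕ → ℝ := fun n => 2 * d n * p.2 with hr
  have hr0 : ∀ n, 0 < r n := fun n => by
    have := hd0 n
    simp only [hr]
    positivity
  have hrl : Tendsto r atTop (𝓝[>] 0) := by
    refine tendsto_nhdsWithin_iff.mpr ⟨?_, Eventually.of_forall fun n => hr0 n⟩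
    have := (hdl.const_mul 2).mul_const p.2
    simpa using this
  have hlim := hp (fun _ : ℕ => p) r hrl (Eventually.of_forall fun n => by
    rw [one_mul]
    exact Metric.mem_closedBall_self (hr0 n).le)
  set κ : ℝ := (1 / 8 : ℝ) ^ (Module.finrank ℝ UH) with hκ
  have hκ0 : 0 < κ := by positivity
  have key : ∀ n, ‖h p‖ * κ ≤ ⨍ y in Metric.closedBall p (r n), ‖h y - h p‖ := by
    intro n
    set w : UH → ℝ := UHs.indicator fun q => tbmp (d n ^ 2) (tdd p q) with hw
    have hdn : 0 < d n ^ 2 := by have := hd0 n; positivity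
    have w0 : ∀ q, 0 ≤ w q := fun q => Set.indicator_nonneg
      (fun q _ => Real.smoothTransition.nonneg _) q
    have w1 : ∀ q, w q ≤ 1 := fun q => Set.indicator_le' (fun q _ => Real.smoothTransition.le_one _)
      (fun _ _ => zero_le_one) q
    have wf : ∀ q, q ∉ Metric.closedBall p (r n) → w q = 0 := by
      intro q hq
      by_cases hqU : q ∈ UHs
      · rw [hw, Set.indicator_of_mem hqU]
        apply tbmp_zero hdn
        by_contra hc
        push Not at hc
        exact hq (tot_far hpU hqU (hd0 n) (hd1 n) hc)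
      · rw [hw, Set.indicator_of_notMem hqU]
    have wn : ∀ q, q ∈ Metric.closedBall p (r n * (1 / 8)) → w q = 1 := by
      intro q hq
      obtain ⟨h1, h2⟩ := tot_near hpU (hd0 n) (hd1 n) hq
      rw [hw, Set.indicator_of_mem h1]
      exact tbmp_one hdn h2
    have wm : AEStronglyMeasurable w volume := by
      rw [hw, aestronglyMeasurable_indicator_iff UHs_open.measurableSet]
      apply ContinuousOn.aestronglyMeasurable _ UHs_open.measurableSet
      apply (tbmp_smooth (d n ^ 2)).continuous.comp_continuousOn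
      unfold tdd
      apply continuousOn_const.mul
      have hS : ContinuousOn SS UHs := SS_smooth.continuousOn
      have h2 : ContinuousOn (fun q => (SS p)⁻¹ * SS q) UHs :=
        continuousOn_const.mul hS
      exact (continuous_apply 0).comp_continuousOn ((continuous_apply 0).comp_continuousOn h2)
    have hV : volume (Metric.closedBall p (r n)) < ⊤ := measure_closedBall_lt_top
    have hV0 : 0 < (volume (Metric.closedBall p (r n))).toReal :=
      ENNReal.toReal_pos (Metric.measure_closedBall_pos _ _ (hr0 n)).ne' hV.ne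
    have hvol : (volume (Metric.closedBall p (r n * (1 / 8)))).toReal =
        κ * (volume (Metric.closedBall p (r n))).toReal := by
      have : (volume : Measure UH).IsAddHaarMeasure :=
        Measure.prod.instIsAddHaarMeasure (volume : Measure ℂ) (volume : Measure ℝ)
      rw [mul_comm (r n), Measure.addHaar_closedBall_mul volume p (by norm_num) (hr0 n).le,
        ENNReal.toReal_mul, ENNReal.toReal_ofReal (by positivity),
        Measure.addHaar_closedBall_center volume p]
    have wi : Integrable w volume := by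
      refine Integrable.mono' (g := (Metric.closedBall p (r n)).indicator fun _ => (1:ℝ)) ?_ wm ?_
      · rw [integrable_indicator_iff measurableSet_closedBall]
        exact integrableOn_const hV.ne
      · refine Eventually.of_forall fun q => ?_
        by_cases hq : q ∈ Metric.closedBall p (r n)
        · rw [Set.indicator_of_mem hq, Real.norm_eq_abs, abs_of_nonneg (w0 q)]
          exact w1 q
        · rw [Set.indicator_of_notMem hq, wf q hq, norm_zero]
    have hwi : Integrable (fun q => ((w q : ℝ) : ℂ) * h q) volume := by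
      refine hh.bdd_mul (c := 1) (Complex.continuous_ofReal.comp_aestronglyMeasurable wm)
        (Eventually.of_forall fun q => ?_)
      rw [Complex.norm_real, Real.norm_eq_abs, abs_of_nonneg (w0 q)]
      exact w1 q
    have e0 : ∫ q, ((w q : ℝ) : ℂ) * h q = 0 := by
      have := hn n
      rw [← integral_indicator UHs_open.measurableSet] at this
      rw [← this]
      congr 1
      ext q
      by_cases hqU : q ∈ UHs
      · rw [Set.indicator_of_mem hqU, hw, Set.indicator_of_mem hqU]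
      · rw [Set.indicator_of_notMem hqU, hw, Set.indicator_of_notMem hqU]
        simp
    have e1 : ∫ q, ((w q : ℝ) : ℂ) * (h q - h p) = - (((∫ q, w q : ℝ) : ℂ) * h p) := by
      have : ∀ q, ((w q : ℝ) : ℂ) * (h q - h p) = ((w q : ℝ) : ℂ) * h q - ((w q : ℝ) : ℂ) * h p :=
        fun q => by ring
      simp_rw [this]
      have wc : Integrable (fun q => ((w q : ℝ) : ℂ)) volume := wi.ofReal
      rw [integral_sub hwi (wc.mul_const _), e0, zero_sub, integral_mul_const,
        integral_complex_ofReal]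
    have e2 : ‖h p‖ * ∫ q, w q ≤ ∫ q in Metric.closedBall p (r n), ‖h q - h p‖ := by
      have e3 : ‖h p‖ * ∫ q, w q = ‖∫ q, ((w q : ℝ) : ℂ) * (h q - h p)‖ := by
        rw [e1, norm_neg, norm_mul, Complex.norm_real, Real.norm_eq_abs,
          abs_of_nonneg (integral_nonneg w0), mul_comm]
      rw [e3]
      refine (norm_integral_le_integral_norm _).trans ?_
      rw [← integral_indicator measurableSet_closedBall]
      apply integral_mono_of_nonneg (Eventually.of_forall fun _ => norm_nonneg _)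
      · rw [integrable_indicator_iff measurableSet_closedBall]
        apply Integrable.norm
        exact hh.integrableOn.sub (integrableOn_const hV.ne)
      · refine Eventually.of_forall fun q => ?_
        by_cases hq : q ∈ Metric.closedBall p (r n)
        · simp only [Set.indicator_of_mem hq]
          rw [norm_mul, Complex.norm_real, Real.norm_eq_abs, abs_of_nonneg (w0 q)]
          exact mul_le_of_le_one_left (norm_nonneg _) (w1 q)
        · simp only [Set.indicator_of_notMem hq]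
          rw [wf q hq]
          simp
    have e4 : (volume (Metric.closedBall p (r n * (1 / 8)))).toReal ≤ ∫ q, w q := by
      have : (volume (Metric.closedBall p (r n * (1 / 8)))).toReal =
          ∫ q, (Metric.closedBall p (r n * (1 / 8))).indicator (fun _ => (1:ℝ)) q := by
        rw [integral_indicator measurableSet_closedBall]
        simp [Measure.real]
      rw [this]
      apply integral_mono_of_nonneg (Eventually.of_forall fun _ =>
        Set.indicator_nonneg (fun _ _ => zero_le_one) _) wi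
      refine Eventually.of_forall fun q => ?_
      by_cases hq : q ∈ Metric.closedBall p (r n * (1 / 8))
      · simp only [Set.indicator_of_mem hq]
        exact (wn q hq).ge
      · simp only [Set.indicator_of_notMem hq]
        exact w0 q
    rw [setAverage_eq, smul_eq_mul]
    rw [hvol] at e4
    have e5 : ‖h p‖ * (κ * (volume (Metric.closedBall p (r n))).toReal) ≤
        ∫ q in Metric.closedBall p (r n), ‖h q - h p‖ :=
      (mul_le_mul_of_nonneg_left e4 (norm_nonneg _)).trans e2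
    rw [inv_mul_eq_div, Measure.real, le_div_iff₀ hV0]
    linarith
  have h0 : ‖h p‖ * κ ≤ 0 := ge_of_tendsto hlim (Eventually.of_forall key)
  have h1 : ‖h p‖ ≤ 0 := by
    by_contra hc
    push Not at hc
    nlinarith [mul_pos hc hκ0]
  exact norm_le_zero_iff.mp h1

private theorem tot_rest : mu.restrict UHs = mu :=
  Measure.restrict_eq_self_of_ae_mem (by
    rw [ae_iff]
    exact mu_compl)

private theorem tot_dens : Measurable fun p : UH => ENNReal.ofReal (p.2 ^ (-3 : ℤ)) :=
  ENNReal.measurable_ofReal.comp (measurable_snd.pow_const (-3 : ℤ))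

private theorem tot_leb_mu {φ : UH → ℂ} (hφ : Integrable φ mu) :
    ∀ᵐ p ∂mu, (∀ n : ℕ, ∫ q, ((tbmp ((1 / ((n : ℝ) + 1)) ^ 2) (tdd p q) : ℝ) : ℂ) * φ q ∂mu = 0) →
      φ p = 0 := by
  have hfin : ∀ᵐ p ∂(volume.restrict UHs : Measure UH), ENNReal.ofReal (p.2 ^ (-3 : ℤ)) < ⊤ :=
    Eventually.of_forall fun p => ENNReal.ofReal_lt_top
  have hi : Integrable (fun p : UH => (ENNReal.ofReal (p.2 ^ (-3 : ℤ))).toReal • φ p)
      (volume.restrict UHs) := by
    rw [← integrable_withDensity_iff_integrable_smul' tot_dens hfin]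
    exact hφ
  have hi2 : Integrable (UHs.indicator fun p : UH => (ENNReal.ofReal (p.2 ^ (-3 : ℤ))).toReal • φ p)
      volume := by
    rw [integrable_indicator_iff UHs_open.measurableSet]
    exact hi
  have hac : mu ≪ (volume : Measure UH) :=
    (withDensity_absolutelyContinuous _ _).trans Measure.absolutelyContinuous_restrict
  have hU : ∀ᵐ p ∂mu, p ∈ UHs := by
    rw [ae_iff]
    exact mu_compl
  filter_upwards [hac.ae_le (tot_leb hi2), hU] with p hp hpU hn
  have h := hp hpU (fun n => ?_)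
  · rw [Set.indicator_of_mem hpU] at h
    have hp' : 0 < p.2 := hpU
    rw [ENNReal.toReal_ofReal (by positivity)] at h
    exact (smul_eq_zero.mp h).resolve_left (by positivity)
  · rw [← hn n]
    unfold mu
    rw [integral_withDensity_eq_integral_toReal_smul tot_dens hfin]
    apply setIntegral_congr_fun UHs_open.measurableSet
    intro q hq
    simp only [Set.indicator_of_mem hq, Complex.real_smul]
    ring

/-! ### Invariance of the measure -/

private theorem tot_im {A : Mat 3} (hA : A ∈ Frames 3) : act A '' UHs = UHs := by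
  obtain ⟨hi, -, -, h1, -⟩ := Frames_inv hA
  refine Set.Subset.antisymm ?_ ?_
  · rintro _ ⟨p, hp, rfl⟩
    exact act_mem hA hp
  · intro p hp
    exact ⟨act A⁻¹ p, act_mem hi hp, by rw [← act_mul hA hi hp, h1, act_one hp]⟩

private theorem tot_subst {A : Mat 3} (hA : A ∈ SO) (f : UH → ℂ) :
    ∫ p, f (act A p) ∂mu = ∫ p, f p ∂mu := by
  have h := act_integral hA f UHs_open.measurableSet (le_refl UHs)
  rw [tot_im hA.1, tot_rest] at h
  exact h.symm

private theorem tot_aem {A : Mat 3} (hA : A ∈ Frames 3) : AEMeasurable (act A) mu := by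
  have := (act_cont hA).aemeasurable (μ := mu) UHs_open.measurableSet
  rwa [tot_rest] at this

private theorem tot_map {A : Mat 3} (hA : A ∈ SO) : mu.map (act A) = mu := by
  refine Measure.ext fun s hs => ?_
  rw [Measure.map_apply_of_aemeasurable (tot_aem hA.1) hs]
  have h := act_lintegral hA (f := s.indicator 1) (measurable_one.indicator hs)
  rw [tot_rest, lintegral_indicator_one hs] at h
  rw [← h]
  have h2 : ∀ p, (s.indicator 1 (act A p) : ENNReal) = (act A ⁻¹' s).indicator 1 p := fun p => rfl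
  simp_rw [h2]
  rw [lintegral_indicator_one₀]
  exact (tot_aem hA.1).nullMeasurableSet_preimage hs

private theorem tot_comp {A : Mat 3} (hA : A ∈ SO) {g : UH → ℂ} (hg : Integrable g mu) :
    Integrable (fun p => g (act A p)) mu := by
  have h : Integrable g (mu.map (act A)) := by rwa [tot_map hA]
  exact (integrable_map_measure h.aestronglyMeasurable (tot_aem hA.1)).mp h

/-! ### Continuity -/

private theorem tot_mul_cont (X : Mat 3) : ContinuousOn (fun q => X * SS q) UHs :=
  continuousOn_const.mul SS_smooth.continuousOn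

private theorem tot_ent (X : Mat 3) (i j : Fin 4) : ContinuousOn (fun q => (X * SS q) i j) UHs :=
  (continuous_apply j).comp_continuousOn ((continuous_apply i).comp_continuousOn (tot_mul_cont X))

private theorem tot_rho (k : ℕ) (X : Mat 3) (a b : Ix k) :
    ContinuousOn (fun q => rho k (X * SS q) a b) UHs :=
  (continuous_apply b).comp_continuousOn ((continuous_apply a).comp_continuousOn
    ((rho_smooth k).continuous.comp_continuousOn (tot_mul_cont X)))

private theorem tot_bdd {D K : Set UH} (hDm : MeasurableSet D) (hK : IsCompact K) (hKs : K ⊆ UHs)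
    (hDK : D ⊆ K) {m : UH → ℂ} (hm : ContinuousOn m UHs) {g : UH → ℂ}
    (hg : IntegrableOn g D mu) : IntegrableOn (fun q => m q * g q) D mu := by
  obtain ⟨C, hC⟩ := hK.exists_bound_of_continuousOn (hm.mono hKs)
  refine Integrable.bdd_mul (c := C) hg ((hm.mono (hDK.trans hKs)).aestronglyMeasurable hDm) ?_
  filter_upwards [ae_restrict_mem hDm] with q hq using hC q (hDK hq)

private theorem tot_coord {k : ℕ} {D : Set UH} [IsFiniteMeasure (mu.restrict D)] (f : Hk k D)
    (b : Ix k) : IntegrableOn (fun q => (f : UH → EuclideanSpace ℂ (Ix k)) q b) D mu := by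
  have h1 : Integrable (f : UH → EuclideanSpace ℂ (Ix k)) (mu.restrict D) :=
    (Lp.memLp f).integrable (by norm_num)
  exact ((EuclideanSpace.proj b : EuclideanSpace ℂ (Ix k) →L[ℂ] ℂ)).integrable_comp h1

/-- the sum over `b` of `rho (γ SS q) a b * f q b` -/
private def tg (k : ℕ) (f : UH → EuclideanSpace ℂ (Ix k)) (X : Mat 3) (a : Ix k) (q : UH) : ℂ :=
  ∑ b, rho k (X * SS q) a b * f q b

/-- `2 ((SS p)⁻¹ γ (SS q))₀₀` -/
private theorem tdd_act {A : Mat 3} (hA : A ∈ SO) {p q : UH} (hq : q ∈ UHs) :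
    tdd p (act A q) = 2 * ((SS p)⁻¹ * A * SS q) 0 0 := by
  obtain ⟨k, -, -, hk⟩ := act_SS hA hq
  unfold tdd
  have h2 : ∀ X : Mat 3, (X * rot k) 0 0 = X 0 0 := by
    intro X
    rw [Matrix.mul_apply, Fin.sum_univ_succ]
    simp [rot]
  rw [hk, ← Matrix.mul_assoc, ← Matrix.mul_assoc, h2]

theorem TA_total {k : ℕ} {Γ : Subgroup (Mat 3)ˣ} {D : Set UH} (h : Klein Γ) (hD : FD Γ D)
    (f : Hk k D) (hf : ∀ A : ℝ → ℝ, Prof A → ContDiff ℝ ∞ A → ∀ T : Hk k D →L[ℂ] Hk k D,
      HasKer (mu.restrict D) T (kD k Γ D A) → T f = 0) : f = 0 := by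
  classical
  obtain ⟨K, hK, hKs, hDK⟩ := hD.bdd
  have : IsFiniteMeasure (mu.restrict D) :=
    ⟨by rw [Measure.restrict_apply_univ]; exact (FD_vol h hD).2⟩
  set S : Finset Γ := (Klein_proper h hK hKs 2).toFinset with hS
  have hSO : ∀ γ : Γ, (((γ : (Mat 3)ˣ)) : Mat 3) ∈ SO := fun γ => Klein_SO h γ.2
  have hSm : ∀ γ : Γ, γ ∉ S → ∀ p ∈ D, ∀ q ∈ D,
      2 < ((SS p)⁻¹ * ((γ : (Mat 3)ˣ) : Mat 3) * SS q) 0 0 := by
    intro γ hγ p hp q hq
    by_contra hc
    push Not at hc
    exact hγ ((Set.Finite.mem_toFinset _).mpr ⟨p, hDK hp, q, hDK hq, hc⟩)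
  have hinv : ∀ γ : Γ, ((((γ : (Mat 3)ˣ)) : Mat 3))⁻¹ = (((γ⁻¹ : Γ) : (Mat 3)ˣ) : Mat 3) := by
    intro γ
    rw [Subgroup.coe_inv, Matrix.coe_units_inv]
  have hcancel : ∀ γ : Γ, ∀ q ∈ UHs, act ((γ⁻¹ : Γ) : (Mat 3)ˣ) (act ((γ : (Mat 3)ˣ) : Mat 3) q) = q := by
    intro γ q hq
    rw [← act_mul (hSO _).1 (hSO _).1 hq, ← Units.val_mul, ← Subgroup.coe_mul, inv_mul_cancel,
      Subgroup.coe_one, Units.val_one, act_one hq]
  -- the integrable extension of `rho(SS q) f q`
  let φ : Ix k → UH → ℂ := fun a q => ∑ γ ∈ S,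
    D.indicator (tg k f ((γ : (Mat 3)ˣ) : Mat 3) a) (act ((γ⁻¹ : Γ) : (Mat 3)ˣ) q)
  have hgi : ∀ (γ : Γ) a, IntegrableOn (tg k f ((γ : (Mat 3)ˣ) : Mat 3) a) D mu := fun γ a =>
    integrable_finsetSum _ fun b _ => tot_bdd hD.meas hK hKs hDK (tot_rho k _ a b) (tot_coord f b)
  have hgI : ∀ (γ : Γ) a, Integrable (D.indicator (tg k f ((γ : (Mat 3)ˣ) : Mat 3) a)) mu :=
    fun γ a => (integrable_indicator_iff hD.meas).mpr (hgi γ a)
  have hφ : ∀ a, Integrable (φ a) mu := fun a =>
    integrable_finsetSum _ fun γ _ => tot_comp (hSO _) (hgI γ a)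
  -- values on `D`
  have hφD : ∀ a, ∀ p ∈ D, φ a p = tg k f 1 a p := by
    intro a p hp
    have h1 : (1 : Γ) ∈ S := by
      refine (Set.Finite.mem_toFinset _).mpr ⟨p, hDK hp, p, hDK hp, ?_⟩
      rw [Subgroup.coe_one, Units.val_one, Matrix.mul_one,
        (Frames_inv (SS_SO (hD.sub hp)).1).2.2.2.2, Matrix.one_apply_eq]
      norm_num
    show ∑ γ ∈ S, _ = _
    rw [Finset.sum_eq_single_of_mem 1 h1]
    · rw [inv_one, Subgroup.coe_one, Units.val_one, act_one (hD.sub hp), Set.indicator_of_mem hp]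
    · intro γ _ hγ
      apply Set.indicator_of_notMem
      intro hc
      apply hγ
      have := hD.uniq p hp _ (γ⁻¹).2 hc
      rwa [Subgroup.coe_inv, inv_eq_one, OneMemClass.coe_eq_one] at this
  -- the integral against a profile
  have key : ∀ A : ℝ → ℝ, Prof A → (∀ v, 4 < v → A v = 0) → ∀ p ∈ D, ∀ a,
      ∫ q, ((A (tdd p q) : ℝ) : ℂ) * φ a q ∂mu =
      ∑ c, rho k (SS p) a c * ∫ q in D, ∑ b, kD k Γ D A p q c b *
        (f : UH → EuclideanSpace ℂ (Ix k)) q b ∂mu := by
    intro A hA hA4 p hp a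
    have hpU := hD.sub hp
    have hAc : ContinuousOn (fun q => ((A (tdd p q) : ℝ) : ℂ)) UHs := by
      refine Complex.continuous_ofReal.comp_continuousOn (hA.cont.comp_continuousOn ?_)
      exact continuousOn_const.mul (tot_ent _ 0 0)
    have hAg : ∀ γ : Γ, ContinuousOn (fun q => ((A (2 * ((SS p)⁻¹ * ((γ : (Mat 3)ˣ) : Mat 3) *
        SS q) 0 0) : ℝ) : ℂ)) UHs := fun γ =>
      Complex.continuous_ofReal.comp_continuousOn (hA.cont.comp_continuousOn
        (continuousOn_const.mul (tot_ent _ 0 0)))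
    have hAb : ∃ C, ∀ q ∈ UHs, ‖((A (tdd p q) : ℝ) : ℂ)‖ ≤ C := by
      obtain ⟨M, hM⟩ := hA.supp
      obtain ⟨C, hC⟩ := (isCompact_Icc (a := (2:ℝ)) (b := M)).exists_bound_of_continuousOn
        hA.cont.continuousOn
      refine ⟨max C 0, fun q hq => ?_⟩
      have h2 : 2 ≤ tdd p q := by
        have := Frames_one_le (Frames_mul (Frames_inv (SS_SO hpU).1).1 (SS_SO hq).1)
        unfold tdd
        linarith
      rw [Complex.norm_real]
      rcases le_total (tdd p q) M with h3 | h3
      · exact (hC _ ⟨h2, h3⟩).trans (le_max_left _ _)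
      · rw [hM _ h3, norm_zero]
        exact le_max_right _ _
    have hAm : AEStronglyMeasurable (fun q => ((A (tdd p q) : ℝ) : ℂ)) mu := by
      have := hAc.aestronglyMeasurable (μ := mu) UHs_open.measurableSet
      rwa [tot_rest] at this
    obtain ⟨C, hC⟩ := hAb
    have hUae : ∀ᵐ p ∂mu, p ∈ UHs := by
      rw [ae_iff]
      exact mu_compl
    have hint : ∀ γ : Γ, Integrable (fun q => ((A (tdd p q) : ℝ) : ℂ) *
        D.indicator (tg k f ((γ : (Mat 3)ˣ) : Mat 3) a) (act ((γ⁻¹ : Γ) : (Mat 3)ˣ) q)) mu := by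
      intro γ
      refine Integrable.bdd_mul (c := C) (tot_comp (hSO _) (hgI γ a)) hAm ?_
      filter_upwards [hUae] with q hq using hC q hq
    have e1 : ∫ q, ((A (tdd p q) : ℝ) : ℂ) * φ a q ∂mu = ∑ γ ∈ S,
        ∫ q in D, ((A (2 * ((SS p)⁻¹ * ((γ : (Mat 3)ˣ) : Mat 3) * SS q) 0 0) : ℝ) : ℂ) *
          tg k f ((γ : (Mat 3)ˣ) : Mat 3) a q ∂mu := by
      simp only [φ, Finset.mul_sum]
      rw [integral_finsetSum _ fun γ _ => hint γ]
      refine Finset.sum_congr rfl fun γ _ => ?_
      rw [← tot_subst (hSO γ), ← integral_indicator hD.meas]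
      apply integral_congr_ae
      filter_upwards [hUae] with q hq
      rw [hcancel γ q hq, tdd_act (hSO γ) hq]
      by_cases hqD : q ∈ D
      · rw [Set.indicator_of_mem hqD, Set.indicator_of_mem hqD]
      · rw [Set.indicator_of_notMem hqD, Set.indicator_of_notMem hqD, mul_zero]
    have hkD : ∀ c b, Integrable (fun q => kD k Γ D A p q c b *
        (f : UH → EuclideanSpace ℂ (Ix k)) q b) (mu.restrict D) := by
      intro c b
      obtain ⟨M, hM⟩ := (kD_ker h hD hA (k := k)).bdd
      have hm : Measurable fun q => kD k Γ D A p q c b :=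
        ((kD_ker h hD hA (k := k)).meas c b).comp (measurable_const.prodMk measurable_id)
      exact Integrable.bdd_mul (c := M) (tot_coord f b) hm.aestronglyMeasurable
        (Eventually.of_forall fun q => hM p q c b)
    rw [e1, ← integral_finsetSum _ fun γ _ => tot_bdd hD.meas hK hKs hDK (hAg γ) (hgi γ a)]
    have e2 : ∀ c, rho k (SS p) a c * ∫ q in D, ∑ b, kD k Γ D A p q c b *
        (f : UH → EuclideanSpace ℂ (Ix k)) q b ∂mu = ∫ q in D, rho k (SS p) a c *
          ∑ b, kD k Γ D A p q c b * (f : UH → EuclideanSpace ℂ (Ix k)) q b ∂mu := fun c =>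
      (integral_const_mul _ _).symm
    simp_rw [e2]
    rw [← integral_finsetSum _ fun c _ => (integrable_finsetSum _ fun b _ => hkD c b).const_mul _]
    apply setIntegral_congr_fun hD.meas
    intro q hq
    have e3 : kD k Γ D A p q = ∑ γ ∈ S, ((A (2 * ((SS p)⁻¹ * ((γ : (Mat 3)ˣ) : Mat 3) *
        SS q) 0 0) : ℝ) : ℂ) • rho k ((SS p)⁻¹ * ((γ : (Mat 3)ˣ) : Mat 3) * SS q) := by
      unfold kD
      rw [if_pos ⟨hp, hq⟩]
      unfold ker
      apply finsum_eq_sum_of_support_subset
      intro γ hγ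
      by_contra hc
      apply hγ
      have h4 := hSm γ hc p hp q hq
      show _ • _ = _
      rw [hA4 _ (by linarith), Complex.ofReal_zero, zero_smul]
    have e4 : ∀ γ : Γ, rho k (((γ : (Mat 3)ˣ) : Mat 3) * SS q) =
        rho k (SS p) * rho k ((SS p)⁻¹ * ((γ : (Mat 3)ˣ) : Mat 3) * SS q) := by
      intro γ
      rw [← rho_mul, ← Matrix.mul_assoc, ← Matrix.mul_assoc,
        (Frames_inv (SS_SO hpU).1).2.2.2.1, Matrix.one_mul]
    set v : Ix k → ℂ := fun b => (f : UH → EuclideanSpace ℂ (Ix k)) q b with hv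
    have e5 : ∀ (M : Matrix (Ix k) (Ix k) ℂ) (c : Ix k), ∑ b, M c b *
        (f : UH → EuclideanSpace ℂ (Ix k)) q b = (M *ᵥ v) c := fun _ _ => rfl
    simp only [tg, e3, e4, e5]
    have e6 : ∀ w : Ix k → ℂ, ∑ c, rho k (SS p) a c * w c = (rho k (SS p) *ᵥ w) a := fun _ => rfl
    rw [e6, Matrix.mulVec_mulVec, Matrix.mul_sum, Matrix.sum_mulVec, Finset.sum_apply]
    refine Finset.sum_congr rfl fun γ _ => ?_
    rw [Matrix.mul_smul, Matrix.smul_mulVec, Pi.smul_apply, smul_eq_mul]
  -- almost everywhere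
  have hd0 : ∀ n : ℕ, 0 < (1 / ((n : ℝ) + 1)) ^ 2 := fun n => by positivity
  have hd1 : ∀ n : ℕ, (1 / ((n : ℝ) + 1)) ^ 2 ≤ 1 := fun n => by
    have : (1 / ((n : ℝ) + 1)) ≤ 1 := by
      rw [div_le_one (by positivity)]
      linarith [(Nat.cast_nonneg n : (0:ℝ) ≤ n)]
    have h0 : 0 < 1 / ((n : ℝ) + 1) := by positivity
    nlinarith
  have hae : ∀ n : ℕ, ∀ᵐ p ∂(mu.restrict D), ∀ c, ∫ q in D, ∑ b,
      kD k Γ D (tbmp ((1 / ((n : ℝ) + 1)) ^ 2)) p q c b *
        (f : UH → EuclideanSpace ℂ (Ix k)) q b ∂mu = 0 := by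
    intro n
    obtain ⟨T, hT⟩ := hasKer_exists (mu.restrict D) (kD_ker h hD (k := k) (tbmp_prof (hd0 n)))
    have hT0 := hf _ (tbmp_prof (hd0 n)) (tbmp_smooth _) T hT
    have h2 := hT f
    rw [hT0] at h2
    filter_upwards [h2, Lp.coeFn_zero (EuclideanSpace ℂ (Ix k)) 2 (mu.restrict D)] with p hp hp0 c
    rw [← hp c, hp0]
    rfl
  rw [Lp.eq_zero_iff_ae_eq_zero]
  have hleb : ∀ᵐ p ∂(mu.restrict D), ∀ a, (∀ n : ℕ,
      ∫ q, ((tbmp ((1 / ((n : ℝ) + 1)) ^ 2) (tdd p q) : ℝ) : ℂ) * φ a q ∂mu = 0) → φ a p = 0 :=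
    ae_restrict_of_ae (ae_all_iff.mpr fun a => tot_leb_mu (hφ a))
  filter_upwards [ae_all_iff.mpr hae, hleb, ae_restrict_mem hD.meas] with p hp1 hp2 hpD
  have h3 : ∀ a, tg k f 1 a p = 0 := by
    intro a
    rw [← hφD a p hpD]
    refine hp2 a fun n => ?_
    rw [key _ (tbmp_prof (hd0 n)) (fun v hv => tbmp_zero (hd0 n) (by linarith [hd1 n])) p hpD a]
    exact Finset.sum_eq_zero fun c _ => by rw [hp1 n c, mul_zero]
  have h4 : rho k (SS p) *ᵥ (fun b => (f : UH → EuclideanSpace ℂ (Ix k)) p b) = 0 := by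
    ext a
    have := h3 a
    unfold tg at this
    rw [Matrix.one_mul] at this
    exact this
  have h5 := congrArg (fun w => rho k (SS p)⁻¹ *ᵥ w) h4
  simp only [Matrix.mulVec_mulVec, Matrix.mulVec_zero] at h5
  rw [← rho_mul, (Frames_inv (SS_SO (hD.sub hpD)).1).2.2.2.2, rho_one, Matrix.one_mulVec] at h5
  ext b
  exact congrFun h5 b

end

end Pool.Agent.Work.MP_14c213_gt
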