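import Pool.Agent.Work.MP_14c213_gt.A.SpecD
import Pool.Agent.Work.MP_14c213_gt.A.AdjM
import Pool.Agent.Work.MP_14c213_gt.A.TotM
import Pool.Agent.Work.MP_14c213_gt.A.FinMul

/-!
Completeness of the eigensections (from SpecD with 𝒯 = {T_A, T_A* : A smooth}), in the form: a smooth
section orthogonal to all eigenspaces is 0.
-/

namespace Pool.Agent.Work.MP_14c213_gt

open Matrix MeasureTheory
open scoped Matrix ContDiff Matrix.Norms.Elementwise

noncomputable section

theorem EL_dense {k : ℕ} {Γ : Subgroup (Mat 3)ˣ} {D : Set UH} (h : Klein Γ) (hD : FD Γ D)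
    (G : Sect (tau k) Γ) (hG : ∀ lam : ℝ, ∀ F ∈ EL k Γ lam, ip k D F.1 G.1 = 0) : G = 0 := by
  haveI : IsFiniteMeasure (mu.restrict D) := ⟨by
    rw [Measure.restrict_apply_univ]
    exact (FD_vol h hD).2⟩
  obtain ⟨ι, hinj, hι, hip⟩ := emb_exists (k := k) h hD
  set 𝒯 : Set (Hk k D →L[ℂ] Hk k D) := {T | ∃ A : ℝ → ℝ, Prof A ∧ ContDiff ℝ ∞ A ∧
    (HasKer (mu.restrict D) T (kD k Γ D A) ∨
      HasKer (mu.restrict D) (ContinuousLinearMap.adjoint T) (kD k Γ D A))} with h𝒯
  have hadj2 : ∀ T : Hk k D →L[ℂ] Hk k D,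
      ContinuousLinearMap.adjoint (ContinuousLinearMap.adjoint T) = T :=
    fun T => ContinuousLinearMap.adjoint_adjoint T
  have h0 : ι G = 0 := by
    refine spectral_dense ι hinj (CasL k Γ) ?_ 𝒯 ?_ ?_ ?_ ?_ ?_ (ι G) ?_
    · intro F F'
      rw [hip, hip]
      exact Cas_symm h hD F F'
    · rintro T ⟨A, hA, -, hT | hT⟩
      · exact hasKer_compact (mu.restrict D) (kD_ker h hD hA) hT
      · have hK := kD_ker (k := k) h hD hA
        have h1 := hasKer_adjoint (mu.restrict D) hK hT
        rw [hadj2] at h1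
        refine hasKer_compact (mu.restrict D) (K := fun x y => (kD k Γ D A y x)ᴴ) ⟨?_, ?_⟩ h1
        · intro a b
          have h2 := (hK.meas b a).comp measurable_swap
          exact Complex.continuous_conj.measurable.comp h2
        · obtain ⟨M, hM⟩ := hK.bdd
          refine ⟨M, fun x y a b => ?_⟩
          rw [Matrix.conjTranspose_apply, norm_star]
          exact hM _ _ _ _
    · rintro T ⟨A, hA, hs, hT | hT⟩
      · refine ⟨A, hA, hs, Or.inr ?_⟩
        rw [hadj2]
        exact hT
      · exact ⟨A, hA, hs, Or.inl hT⟩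
    · rintro T ⟨A, hA, hs, hT | hT⟩ f
      · exact TA_smooth h hD hA hs hι hT f
      · have h1 := TA_adj_smooth h hD hA hs hι hT f
        rwa [hadj2] at h1
    · rintro T ⟨A, hA, hs, hT | hT⟩ F F' hF
      · exact TA_Cas h hD hA hinj hι hT F F' hF
      · have h1 := TA_adj_Cas h hD hA hinj hι hT F F' (by rw [hadj2]; exact hF)
        rwa [hadj2] at h1
    · intro f hf
      refine TA_total h hD f fun A hA hs T hT => ?_
      exact hf T ⟨A, hA, hs, Or.inl hT⟩
    · intro lam F hF
      rw [hip]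
      refine hG lam F ?_
      unfold EL
      rw [Module.End.mem_eigenspace_iff]
      exact hF
  exact hinj (by rw [h0, map_zero])

end

end Pool.Agent.Work.MP_14c213_gt
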