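import Pool.Agent.Work.MP_14c213_gt.A.Unf
import Pool.Agent.Work.MP_14c213_gt.A.Calc
import Pool.Agent.Work.MP_14c213_gt.A.PhiCurve

/-!
A smooth partition of unity: χ = ψ / ∑_γ ψ(γ·), ψ ≥ 0 smooth with compact support in UHs,
positive on a compact set which meets every orbit. χ̂ g = χ (cor (Phi g)) on GLo.
-/

namespace Pool.Agent.Work.MP_14c213_gt

open Matrix MeasureTheory
open scoped Matrix ContDiff Matrix.Norms.Elementwise

noncomputable section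

namespace PU

variable {Γ : Subgroup (Mat 3)ˣ}

/-- Only finitely many translates of a compact set meet it. -/
theorem pu_fin (h : Klein Γ) {K : Set UH} (hK : IsCompact K) (hKs : K ⊆ UHs) :
    {γ : Γ | ∃ q ∈ K, act ((γ : (Mat 3)ˣ) : Mat 3) q ∈ K}.Finite := by
  refine (Klein_proper h hK hKs 1).subset ?_
  rintro γ ⟨q, hq, hγq⟩
  have hqs := hKs hq
  refine ⟨_, hγq, q, hq, ?_⟩
  obtain ⟨k, hk, -, hkS⟩ := act_SS (Klein_SO h γ.2) hqs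
  have hr := rot_mem_Frames hk
  have e1 : SS (act ((γ : (Mat 3)ˣ) : Mat 3) q) * (rot k)⁻¹ = ((γ : (Mat 3)ˣ) : Mat 3) * SS q := by
    rw [hkS, mul_assoc, (Frames_inv hr).2.2.2.1, mul_one]
  have hSF := (SS_SO (act_mem (Klein_SO h γ.2).1 hqs)).1
  rw [mul_assoc, ← e1, ← mul_assoc, (Frames_inv hSF).2.2.2.2, one_mul, (Frames_inv hr).2.2.1]
  exact le_of_eq rfl

theorem cor_Phi_smooth : ContDiffOn ℝ ∞ (fun g => cor (Phi g)) GLo := by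
  have he : ∀ a b, ContDiffOn ℝ ∞ (fun g => Phi g a b) GLo := fun a b =>
    (contDiffOn_pi.1 ((contDiffOn_pi.1 Phi_smooth) a)) b
  have hc : ∀ a b, ContDiffOn ℝ ∞ (fun g => (Phi g a b : ℂ)) GLo := fun a b =>
    Complex.ofRealCLM.contDiff.comp_contDiffOn (he a b)
  have hne : ∀ g ∈ GLo, Phi g 0 0 - Phi g 3 0 ≠ 0 := by
    intro g hg h0
    have h1 : (cor (Phi g)).2 = 0 := by
      show 1 / (Phi g 0 0 - Phi g 3 0) = 0
      rw [h0, div_zero]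
    have h2 : 0 < (cor (Phi g)).2 := cor_mem (Phi_SO hg).1
    exact absurd h1 h2.ne'
  have hne' : ∀ g ∈ GLo, (Phi g 0 0 : ℂ) - Phi g 3 0 ≠ 0 := by
    intro g hg h0
    apply hne g hg
    exact_mod_cast h0
  refine ContDiffOn.prodMk ?_ ?_
  · intro g hg
    have h1 := ((hc 1 0) g hg).sub (contDiffWithinAt_const (c := Complex.I) |>.mul ((hc 2 0) g hg))
    have h2 := (((hc 0 0) g hg).sub ((hc 3 0) g hg)).inv (hne' g hg)
    have h3 := h1.mul h2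
    refine h3.congr (fun x _ => ?_) ?_
    · rw [div_eq_mul_inv]
      rfl
    · rw [div_eq_mul_inv]
      rfl
  · intro g hg
    have h2 := (((he 0 0) g hg).sub ((he 3 0) g hg)).inv (hne g hg)
    refine h2.congr (fun x _ => ?_) ?_
    · rw [one_div]
      rfl
    · rw [one_div]
      rfl

/-- a bump function. -/
theorem bump {K0 : Set UH} (hK0 : IsCompact K0) (hK0s : K0 ⊆ UHs) :
    ∃ ψ : UH → ℝ, ContDiff ℝ ∞ ψ ∧ (∀ p, 0 ≤ ψ p) ∧ (∀ p ∈ K0, 0 < ψ p) ∧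
      ∃ K, IsCompact K ∧ K ⊆ UHs ∧ ∀ p, p ∉ K → ψ p = 0 := by
  obtain ⟨V, hV, hKV, hVs, hVc⟩ := exists_open_between_and_isCompact_closure hK0 UHs_open hK0s
  obtain ⟨ψ, h1, h2, h3⟩ := IsOpen.exists_contDiff_support_eq (n := ⊤) hV
  refine ⟨ψ, h2, fun p => (h3 (Set.mem_range_self p)).1, fun p hp => ?_, closure V, hVc, hVs,
    fun p hp => ?_⟩
  · have h4 : 0 ≤ ψ p := (h3 (Set.mem_range_self p)).1
    refine lt_of_le_of_ne h4 (Ne.symm ?_)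
    have : p ∈ Function.support ψ := by
      rw [h1]
      exact hKV hp
    exact this
  · by_contra h5
    exact hp (subset_closure (h1 ▸ (show p ∈ Function.support ψ from h5)))

theorem SO_of (h : Klein Γ) (γ : Γ) : ((γ : (Mat 3)ˣ) : Mat 3) ∈ SO := Klein_SO h γ.2

/-- local finiteness. -/
theorem local_fin (h : Klein Γ) {ψ : UH → ℝ} {K : Set UH} (hK : IsCompact K) (hKs : K ⊆ UHs)
    (hψ : ∀ p, p ∉ K → ψ p = 0) {p : UH} (hp : p ∈ UHs) :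
    ∃ S : Finset Γ, ∀ᶠ q in nhds p, q ∈ UHs ∧
      ∀ γ : Γ, γ ∉ S → ψ (act ((γ : (Mat 3)ˣ) : Mat 3) q) = 0 := by
  obtain ⟨N, hN, hpN, hNs⟩ := exists_compact_subset UHs_open hp
  have hfin := pu_fin h (hK.union hN) (Set.union_subset hKs hNs)
  refine ⟨hfin.toFinset, ?_⟩
  filter_upwards [mem_interior_iff_mem_nhds.1 hpN] with q hq
  refine ⟨hNs hq, fun γ hγ => hψ _ fun hKq => hγ ?_⟩
  rw [Set.Finite.mem_toFinset]
  exact ⟨q, Or.inr hq, Or.inl hKq⟩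

end PU

theorem partition {Γ : Subgroup (Mat 3)ˣ} (h : Klein Γ) :
    ∃ χ : M2 → ℝ, ContDiffOn ℝ ∞ χ GLo ∧ (∀ z : ℂ, z ≠ 0 → ∀ g ∈ GLo, χ (z • g) = χ g) ∧
      (∀ u ∈ Matrix.unitaryGroup (Fin 2) ℂ, ∀ g ∈ GLo, χ (g * u) = χ g) ∧
      (∃ K, IsCompact K ∧ K ⊆ UHs ∧ ∀ g ∈ GLo, cor (Phi g) ∉ K → χ g = 0) ∧
      (∀ g ∈ GLo, ∑ᶠ γ : Γ, χ (sec (act ((γ : (Mat 3)ˣ) : Mat 3) (cor (Phi g)))) = 1) := by
  obtain ⟨D, hD⟩ := FD_exists h
  obtain ⟨K0, hK0, hK0s, hDK⟩ := hD.bdd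
  obtain ⟨ψ, p1, p2, p3, K, hK, hKs, p4⟩ := PU.bump hK0 hK0s
  obtain ⟨Ψ, hΨ⟩ : ∃ Ψ : UH → ℝ, Ψ = fun p => ∑ᶠ γ : Γ, ψ (act ((γ : (Mat 3)ˣ) : Mat 3) p) := ⟨_, rfl⟩
  have hsum : ∀ p ∈ UHs, ∃ S : Finset Γ, (∀ᶠ q in nhds p, Ψ q =
      ∑ γ ∈ S, ψ (act ((γ : (Mat 3)ˣ) : Mat 3) q)) ∧
      ∀ γ : Γ, γ ∉ S → ψ (act ((γ : (Mat 3)ˣ) : Mat 3) p) = 0 := by
    intro p hp
    obtain ⟨S, hS⟩ := PU.local_fin h hK hKs p4 hp
    refine ⟨S, ?_, hS.self_of_nhds.2⟩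
    filter_upwards [hS] with q hq
    rw [hΨ]
    simp only
    rw [finsum_eq_sum_of_support_subset (s := S)]
    intro γ hγ
    by_contra hc
    exact hγ (hq.2 γ hc)
  have hpos : ∀ p ∈ UHs, 0 < Ψ p := by
    intro p hp
    obtain ⟨S, hS, hS0⟩ := hsum p hp
    obtain ⟨γ, hγ, hγD⟩ := hD.ex p hp
    rw [hS.self_of_nhds]
    have h1 : 0 < ψ (act (γ : Mat 3) p) := p3 _ (hDK hγD)
    refine Finset.sum_pos' (fun γ _ => p2 _) ⟨⟨γ, hγ⟩, ?_, h1⟩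
    by_contra hc
    exact h1.ne' (hS0 ⟨γ, hγ⟩ hc)
  have hsm : ContDiffOn ℝ ∞ (fun p => ψ p / Ψ p) UHs := by
    intro p hp
    obtain ⟨S, hS, -⟩ := hsum p hp
    have h1 : ContDiffAt ℝ ∞ Ψ p := by
      have h2 : ContDiffAt ℝ ∞ (fun q => ∑ γ ∈ S, ψ (act ((γ : (Mat 3)ˣ) : Mat 3) q)) p := by
        refine ContDiffAt.sum fun γ _ => ?_
        exact p1.contDiffAt.comp p
          (((act_smooth (PU.SO_of h γ).1) p hp).contDiffAt (UHs_open.mem_nhds hp))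
      exact h2.congr_of_eventuallyEq hS
    exact (p1.contDiffAt.div h1 (hpos p hp).ne').contDiffWithinAt
  have hinv : ∀ δ : Γ, ∀ p ∈ UHs, Ψ (act ((δ : (Mat 3)ˣ) : Mat 3) p) = Ψ p := by
    intro δ p hp
    rw [hΨ]
    simp only
    refine Eq.trans ?_ (finsum_comp_equiv (Equiv.mulRight δ)
      (f := fun γ : Γ => ψ (act ((γ : (Mat 3)ˣ) : Mat 3) p)))
    refine finsum_congr fun γ => ?_
    rw [← act_mul (PU.SO_of h γ).1 (PU.SO_of h δ).1 hp]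
    rfl
  refine ⟨fun g => ψ (cor (Phi g)) / Ψ (cor (Phi g)), ?_, fun z hz g hg => ?_,
    fun u hu g hg => ?_, ⟨K, hK, hKs, fun g hg hc => ?_⟩, fun g hg => ?_⟩
  · exact hsm.comp PU.cor_Phi_smooth fun g hg => cor_mem (Phi_SO hg).1
  · simp only
    rw [Phi_smul hz]
  · have hu' : u ∈ GLo := by
      intro h0
      have h1 := congrArg Matrix.det (Matrix.mem_unitaryGroup_iff.mp hu)
      rw [det_mul, h0, zero_mul, det_one] at h1
      exact zero_ne_one h1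
    have e : cor (Phi (g * u)) = cor (Phi g) := by
      rw [Phi_mul hg hu', (Phi_unitary hu).1]
      apply cor_col
      intro a
      rw [Matrix.mul_apply, Fin.sum_univ_succ]
      simp [rot]
    simp only
    rw [e]
  · simp only
    rw [p4 _ hc, zero_div]
  · have hp : cor (Phi g) ∈ UHs := cor_mem (Phi_SO hg).1
    obtain ⟨p, hpe⟩ : ∃ p, p = cor (Phi g) := ⟨_, rfl⟩
    rw [← hpe] at hp ⊢
    have e : ∀ γ : Γ, ψ (cor (Phi (sec (act ((γ : (Mat 3)ˣ) : Mat 3) p)))) /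
        Ψ (cor (Phi (sec (act ((γ : (Mat 3)ˣ) : Mat 3) p)))) =
        ψ (act ((γ : (Mat 3)ˣ) : Mat 3) p) * (Ψ p)⁻¹ := by
      intro γ
      have h1 : cor (Phi (sec (act ((γ : (Mat 3)ˣ) : Mat 3) p))) =
        act ((γ : (Mat 3)ˣ) : Mat 3) p := cor_SS (act_mem (PU.SO_of h γ).1 hp)
      rw [h1, hinv γ p hp, div_eq_mul_inv]
    simp only [e]
    obtain ⟨S, hS, hS0⟩ := hsum p hp
    rw [finsum_eq_sum_of_support_subset (s := S), ← Finset.sum_mul, ← hS.self_of_nhds,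
      mul_inv_cancel₀ (hpos p hp).ne']
    intro γ hγ
    by_contra hc
    apply hγ
    show ψ (act ((γ : (Mat 3)ˣ) : Mat 3) p) * (Ψ p)⁻¹ = 0
    rw [hS0 γ hc, zero_mul]

end

end Pool.Agent.Work.MP_14c213_gt
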