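import Pool.Agent.Work.MP_14c213_gt.ADefs

/-!
Tensor powers of matrices. rho_deriv: product rule for finite products.
-/

namespace Pool.Agent.Work.MP_14c213_gt

open Matrix MeasureTheory
open scoped Matrix ContDiff Matrix.Norms.Elementwise

noncomputable section

/-- tensor products of matrices -/
def rhoT (k : ℕ) (M : Fin k → Mat 3) : Matrix (Ix k) (Ix k) ℂ :=
  Matrix.of fun I L => ∏ a, (M a (I a) (L a) : ℂ)

theorem rhoT_mul (k : ℕ) (A B : Fin k → Mat 3) :
    rhoT k A * rhoT k B = rhoT k (fun a => A a * B a) := by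
  ext I L
  rw [Matrix.mul_apply]
  show ∑ J : Ix k, (∏ a, (A a (I a) (J a) : ℂ)) * ∏ a, (B a (J a) (L a) : ℂ) =
    ∏ a, (((A a * B a) (I a) (L a) : ℝ) : ℂ)
  have h1 : ∀ a, (((A a * B a) (I a) (L a) : ℝ) : ℂ) =
      ∑ c : Fin 4, (A a (I a) c : ℂ) * (B a c (L a) : ℂ) := by
    intro a
    rw [Matrix.mul_apply]
    push_cast
    rfl
  simp only [h1]
  rw [Finset.prod_univ_sum, Fintype.piFinset_univ]
  exact Finset.sum_congr rfl fun J _ => Finset.prod_mul_distrib.symm

theorem rho_mul (k : ℕ) (A B : Mat 3) : rho k (A * B) = rho k A * rho k B :=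
  (rhoT_mul k (fun _ => A) (fun _ => B)).symm

theorem rho_one (k : ℕ) : rho k 1 = 1 := by
  ext I L
  show ∏ a, (((1 : Mat 3) (I a) (L a) : ℝ) : ℂ) = (1 : Matrix (Ix k) (Ix k) ℂ) I L
  rw [Matrix.one_apply]
  split_ifs with h
  · subst h
    exact Finset.prod_eq_one fun a _ => by simp
  · obtain ⟨a, ha⟩ := Function.ne_iff.mp h
    apply Finset.prod_eq_zero (Finset.mem_univ a)
    rw [Matrix.one_apply, if_neg ha]
    simp

theorem rho_transpose (k : ℕ) (A : Mat 3) : rho k Aᵀ = (rho k A)ᴴ := by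
  ext I L
  rw [Matrix.conjTranspose_apply]
  show ∏ a, ((Aᵀ (I a) (L a) : ℝ) : ℂ) = star (∏ a, (A (L a) (I a) : ℂ))
  rw [star_prod]
  exact Finset.prod_congr rfl fun a _ => (Complex.conj_ofReal _).symm

theorem rho_trace (k : ℕ) (A : Mat 3) : (rho k A).trace = ((A.trace ^ k : ℝ) : ℂ) := by
  show ∑ I : Ix k, ∏ a, (A (I a) (I a) : ℂ) = _
  have h1 : ∏ _a : Fin k, ∑ c : Fin 4, (A c c : ℂ) = ∑ I : Ix k, ∏ a, (A (I a) (I a) : ℂ) := by
    rw [Finset.prod_univ_sum, Fintype.piFinset_univ]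
  rw [← h1, Finset.prod_const, Finset.card_univ, Fintype.card_fin]
  unfold Matrix.trace
  push_cast
  rfl

theorem rho_smooth (k : ℕ) : ContDiff ℝ ∞ (rho k) := by
  rw [show rho k = fun A => Matrix.of fun I L => ∏ a, (A (I a) (L a) : ℂ) from rfl]
  refine contDiff_pi.mpr fun I => contDiff_pi.mpr fun L => ?_
  have h1 : ∀ a : Fin k, ContDiff ℝ ∞ fun A : Mat 3 => ((A (I a) (L a) : ℝ) : ℂ) := fun a =>
    Complex.ofRealCLM.contDiff.comp
      (contDiff_apply_apply ℝ ℝ (I a) (L a) : ContDiff ℝ ∞ fun A : Fin 4 → Fin 4 → ℝ => A (I a) (L a))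
  exact contDiff_prod (t := Finset.univ) fun a _ => h1 a

theorem drho_apply (k : ℕ) (Y : Mat 3) (I L : Ix k) : drho k Y I L =
    ∑ a, (Y (I a) (L a) : ℂ) * ((∏ b ∈ Finset.univ.erase a, (1 : Mat 3) (I b) (L b) : ℝ) : ℂ) := rfl

theorem drho_add (k : ℕ) (X Y : Mat 3) : drho k (X + Y) = drho k X + drho k Y := by
  ext I L
  rw [Matrix.add_apply, drho_apply, drho_apply, drho_apply, ← Finset.sum_add_distrib]
  refine Finset.sum_congr rfl fun a _ => ?_
  rw [← add_mul, Matrix.add_apply, Complex.ofReal_add]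

theorem drho_smul (k : ℕ) (c : ℝ) (X : Mat 3) : drho k (c • X) = (c : ℂ) • drho k X := by
  ext I L
  rw [Matrix.smul_apply, smul_eq_mul, drho_apply, drho_apply, Finset.mul_sum]
  refine Finset.sum_congr rfl fun a _ => ?_
  rw [← mul_assoc, Matrix.smul_apply, smul_eq_mul, Complex.ofReal_mul]

theorem drho_transpose (k : ℕ) (X : Mat 3) : drho k Xᵀ = (drho k X)ᴴ := by
  ext I L
  rw [Matrix.conjTranspose_apply, drho_apply, drho_apply, star_sum]
  refine Finset.sum_congr rfl fun a _ => ?_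
  rw [star_mul', Complex.star_def, Complex.conj_ofReal, Complex.conj_ofReal,
    Matrix.transpose_apply]
  congr 2
  refine Finset.prod_congr rfl fun b _ => ?_
  rw [Matrix.one_apply, Matrix.one_apply]
  simp only [eq_comm]

/-- derivative of `rho k` at `A` in the direction `Z` -/
def rhoD (k : ℕ) (A Z : Mat 3) : Matrix (Ix k) (Ix k) ℂ :=
  Matrix.of fun I L => ∑ a, (∏ b ∈ Finset.univ.erase a, (A (I b) (L b) : ℂ)) * (Z (I a) (L a) : ℂ)

theorem rhoD_one (k : ℕ) (Z : Mat 3) : rhoD k 1 Z = drho k Z := by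
  ext I L
  rw [drho_apply]
  show ∑ a, (∏ b ∈ Finset.univ.erase a, (((1 : Mat 3) (I b) (L b) : ℝ) : ℂ)) *
    (Z (I a) (L a) : ℂ) = _
  refine Finset.sum_congr rfl fun a _ => ?_
  rw [mul_comm, Complex.ofReal_prod]

theorem rhoD_deriv (k : ℕ) {c : ℝ → Mat 3} {Z : Mat 3} {t : ℝ} (hc : HasDerivAt c Z t) :
    HasDerivAt (fun s => rho k (c s)) (rhoD k (c t) Z) t := by
  refine hasDerivAt_pi.mpr fun I => hasDerivAt_pi.mpr fun L => ?_
  have h1 : ∀ a, HasDerivAt (fun s => ((c s (I a) (L a) : ℝ) : ℂ)) (Z (I a) (L a) : ℂ) t := by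
    intro a
    have h2 : HasDerivAt (fun s => c s (I a) (L a)) (Z (I a) (L a)) t :=
      hasDerivAt_pi.mp (hasDerivAt_pi.mp hc (I a)) (L a)
    exact h2.ofReal_comp
  have h3 := HasDerivAt.fun_finsetProd (u := Finset.univ) (fun a _ => h1 a)
  exact h3

theorem rhoD_left (k : ℕ) (A B Z : Mat 3) : rho k A * rhoD k B Z = rhoD k (A * B) (A * Z) := by
  have h1 : HasDerivAt (fun s : ℝ => B + s • Z) Z 0 := by
    have := ((hasDerivAt_id (0 : ℝ)).smul_const Z).const_add B
    rwa [one_smul] at this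
  have h2 := rhoD_deriv k h1
  have h4 : HasDerivAt (fun s : ℝ => A * (B + s • Z)) (A * Z) 0 := by
    have h5 : (fun s : ℝ => A * (B + s • Z)) = fun s => A * B + s • (A * Z) := by
      funext s
      rw [mul_add, mul_smul_comm]
    rw [h5]
    have := ((hasDerivAt_id (0 : ℝ)).smul_const (A * Z)).const_add (A * B)
    rwa [one_smul] at this
  have h6 := rhoD_deriv k h4
  simp only [zero_smul, add_zero] at h2 h6
  have h7 : HasDerivAt (fun s : ℝ => rho k A * rho k (B + s • Z)) (rho k A * rhoD k B Z) 0 :=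
    (LinearMap.toContinuousLinearMap (LinearMap.mulLeft ℝ (rho k A))).hasFDerivAt.comp_hasDerivAt 0 h2
  have h8 : (fun s : ℝ => rho k A * rho k (B + s • Z)) = fun s => rho k (A * (B + s • Z)) := by
    funext s
    rw [rho_mul]
  rw [h8] at h7
  exact h7.unique h6

theorem rhoD_right (k : ℕ) (A B Z : Mat 3) : rhoD k B Z * rho k A = rhoD k (B * A) (Z * A) := by
  have h1 : HasDerivAt (fun s : ℝ => B + s • Z) Z 0 := by
    have := ((hasDerivAt_id (0 : ℝ)).smul_const Z).const_add B
    rwa [one_smul] at this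
  have h2 := rhoD_deriv k h1
  have h4 : HasDerivAt (fun s : ℝ => (B + s • Z) * A) (Z * A) 0 := by
    have h5 : (fun s : ℝ => (B + s • Z) * A) = fun s => B * A + s • (Z * A) := by
      funext s
      rw [add_mul, smul_mul_assoc]
    rw [h5]
    have := ((hasDerivAt_id (0 : ℝ)).smul_const (Z * A)).const_add (B * A)
    rwa [one_smul] at this
  have h6 := rhoD_deriv k h4
  simp only [zero_smul, add_zero] at h2 h6
  have h7 : HasDerivAt (fun s : ℝ => rho k (B + s • Z) * rho k A) (rhoD k B Z * rho k A) 0 :=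
    (LinearMap.toContinuousLinearMap (LinearMap.mulRight ℝ (rho k A))).hasFDerivAt.comp_hasDerivAt 0 h2
  have h8 : (fun s : ℝ => rho k (B + s • Z) * rho k A) = fun s => rho k ((B + s • Z) * A) := by
    funext s
    rw [rho_mul]
  rw [h8] at h7
  exact h7.unique h6

theorem rho_deriv (k : ℕ) {c : ℝ → Mat 3} {Y : Mat 3} {t : ℝ} (hc : HasDerivAt c (c t * Y) t) :
    HasDerivAt (fun s => rho k (c s)) (rho k (c t) * drho k Y) t := by
  have h1 := rhoD_deriv k hc
  have h2 := rhoD_left k (c t) 1 Y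
  rw [rhoD_one, mul_one] at h2
  rw [h2]
  exact h1

theorem drho_conj (k : ℕ) (A B Y : Mat 3) (h : A * B = 1) :
    rho k A * drho k Y * rho k B = drho k (A * Y * B) := by
  rw [← rhoD_one, ← rhoD_one, rhoD_left, mul_one, rhoD_right, h]

theorem drho_eq_sum (k : ℕ) (X : Mat 3) :
    drho k X = ∑ a, rhoT k (Function.update (fun _ => 1) a X) := by
  ext I L
  rw [drho_apply, Matrix.sum_apply]
  refine Finset.sum_congr rfl fun a _ => ?_
  show _ = ∏ c, (((Function.update (fun _ => (1 : Mat 3)) a X) c (I c) (L c) : ℝ) : ℂ)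
  rw [← Finset.mul_prod_erase Finset.univ _ (Finset.mem_univ a), Function.update_self,
    Complex.ofReal_prod]
  congr 1
  refine Finset.prod_congr rfl fun b hb => ?_
  rw [Function.update_of_ne (Finset.ne_of_mem_erase hb)]

theorem drho_comm (k : ℕ) (X Y : Mat 3) :
    drho k X * drho k Y - drho k Y * drho k X = drho k (X * Y - Y * X) := by
  have h1 : drho k (X * Y - Y * X) = drho k (X * Y) - drho k (Y * X) := by
    have h2 := drho_add k (X * Y - Y * X) (Y * X)
    rw [sub_add_cancel] at h2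
    rw [h2, add_sub_cancel_right]
  rw [h1]
  have h3 : ∀ X Y : Mat 3, drho k X * drho k Y = ∑ a, ∑ b, rhoT k (fun c =>
      Function.update (fun _ => (1 : Mat 3)) a X c * Function.update (fun _ => (1 : Mat 3)) b Y c) := by
    intro X Y
    rw [drho_eq_sum, drho_eq_sum, Finset.sum_mul_sum]
    exact Finset.sum_congr rfl fun a _ => Finset.sum_congr rfl fun b _ => rhoT_mul k _ _
  have h4 : ∀ (X Y : Mat 3) (a : Fin k), (fun c => Function.update (fun _ => (1 : Mat 3)) a X c *
      Function.update (fun _ => (1 : Mat 3)) a Y c) = Function.update (fun _ => 1) a (X * Y) := by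
    intro X Y a
    funext c
    by_cases h : c = a
    · subst h
      rw [Function.update_self, Function.update_self, Function.update_self]
    · rw [Function.update_of_ne h, Function.update_of_ne h, Function.update_of_ne h, mul_one]
  have h5 : ∀ a b : Fin k, a ≠ b → (fun c => Function.update (fun _ => (1 : Mat 3)) a X c *
      Function.update (fun _ => (1 : Mat 3)) b Y c) = fun c =>
      Function.update (fun _ => (1 : Mat 3)) b Y c *
        Function.update (fun _ => (1 : Mat 3)) a X c := by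
    intro a b hab
    funext c
    by_cases h : c = a
    · subst h
      rw [Function.update_of_ne hab, mul_one, one_mul]
    · rw [Function.update_of_ne h, mul_one, one_mul]
  rw [h3 X Y, h3 Y X, Finset.sum_comm (f := fun a b => rhoT k (fun c =>
      Function.update (fun _ => (1 : Mat 3)) a Y c * Function.update (fun _ => (1 : Mat 3)) b X c)),
    ← Finset.sum_sub_distrib, drho_eq_sum k (X * Y), drho_eq_sum k (Y * X),
    ← Finset.sum_sub_distrib]
  refine Finset.sum_congr rfl fun a _ => ?_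
  rw [← Finset.sum_sub_distrib, Finset.sum_eq_single a]
  · rw [h4, h4]
  · intro b _ hb
    rw [h5 a b (Ne.symm hb), sub_self]
  · intro h
    exact absurd (Finset.mem_univ a) h

end

end Pool.Agent.Work.MP_14c213_gt
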