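import Pool.Agent.Work.MP_14c213_gt.A.PhiMul
import Pool.Agent.Work.MP_14c213_gt.A.PhiCurve
import Pool.Agent.Work.MP_14c213_gt.A.RotM
import Pool.Agent.Work.MP_14c213_gt.A.CasM
import Pool.Agent.Work.MP_14c213_gt.A.RhoM

/-!
Operators on sections. Sect_rt: differentiate F(g rt i t) = tau k (Rot (rt i t))ᵀ F(g) at t = 0.
Vec_E: E (eX i) F(·u))(g) = E (u⁻¹ e_i u) F (gu) and u⁻¹ e_i u = ∑_j (Rot u)_{ij}.. e_j; similarly
rot(k)⁻¹ bY i rot(k) = ∑_j k_{ij} bY j. Check the index positions with Vec.equiv.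
-/

namespace Pool.Agent.Work.MP_14c213_gt

open Matrix MeasureTheory
open scoped Matrix ContDiff Matrix.Norms.Elementwise

noncomputable section

namespace SM

/-! ### General helpers -/

theorem secm_lin {A B : Type*} [NormedAddCommGroup A] [NormedSpace ℝ A] [FiniteDimensional ℝ A]
    [NormedAddCommGroup B] [NormedSpace ℝ B] (f : A →ₗ[ℝ] B) {c : ℝ → A} {c' : A} {t : ℝ}
    (hc : HasDerivAt c c' t) : HasDerivAt (fun s => f (c s)) (f c') t :=
  (LinearMap.toContinuousLinearMap f).hasFDerivAt.comp_hasDerivAt t hc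

/-- multiplication with a constant matrix -/
def secmL {k : ℕ} (M : Matrix (Ix k) (Ix k) ℂ) : (Ix k → ℂ) →L[ℝ] (Ix k → ℂ) :=
  LinearMap.toContinuousLinearMap ((Matrix.mulVecLin M).restrictScalars ℝ)

theorem secmL_apply {k : ℕ} (M : Matrix (Ix k) (Ix k) ℂ) (v : Ix k → ℂ) : secmL M v = M *ᵥ v := rfl

theorem E_mulVec {k : ℕ} {F : M2 → Ix k → ℂ} (hF : ContDiffOn ℝ ∞ F GLo)
    (M : Matrix (Ix k) (Ix k) ℂ) (X : M2) {g : M2} (hg : g ∈ GLo) :
    E X (fun g => M *ᵥ F g) g = M *ᵥ E X F g := E_clm hF (secmL M) X hg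

theorem mulVec_smooth {k : ℕ} {F : M2 → Ix k → ℂ} (hF : ContDiffOn ℝ ∞ F GLo)
    (M : Matrix (Ix k) (Ix k) ℂ) : ContDiffOn ℝ ∞ (fun g => M *ᵥ F g) GLo :=
  (secmL M).contDiff.comp_contDiffOn hF

theorem E_sum3 {V : Type*} [NormedAddCommGroup V] [NormedSpace ℝ V] {G : Fin 3 → M2 → V}
    (hG : ∀ i, ContDiffOn ℝ ∞ (G i) GLo) (X : M2) {g : M2} (hg : g ∈ GLo) :
    E X (fun x => ∑ i, G i x) g = ∑ i, E X (G i) g := by
  have e1 : (fun x => ∑ i, G i x) = (G 0 + G 1) + G 2 := by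
    funext x
    rw [Fin.sum_univ_three]
    rfl
  have e3 : ContDiffOn ℝ ∞ (G 0 + G 1) GLo := (hG 0).add (hG 1)
  rw [e1, E_add e3 (hG 2) X hg, E_add (hG 0) (hG 1) X hg, Fin.sum_univ_three]

theorem E_dir_sum {V : Type*} [NormedAddCommGroup V] [NormedSpace ℝ V] (F : M2 → V)
    (Y : Fin 3 → M2) (g : M2) : E (∑ j, Y j) F g = ∑ j, E (Y j) F g := by
  rw [Fin.sum_univ_three, Fin.sum_univ_three, E_add_dir, E_add_dir]

theorem unitary_GLo {u : M2} (hu : u ∈ Matrix.unitaryGroup (Fin 2) ℂ) : u ∈ GLo := by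
  intro h0
  have h1 := congrArg Matrix.det (Matrix.mem_unitaryGroup_iff.mp hu)
  rw [det_mul, h0, zero_mul, det_one] at h1
  exact zero_ne_one h1

theorem unitary_det {u : M2} (hu : u ∈ Matrix.unitaryGroup (Fin 2) ℂ) : ‖u.det‖ = 1 := by
  have h1 := congrArg Matrix.det (Matrix.mem_unitaryGroup_iff.mp hu)
  rw [det_mul, det_one, Matrix.star_eq_conjTranspose, det_conjTranspose] at h1
  have h2 : Complex.normSq u.det = 1 := by
    have h3 : (Complex.normSq u.det : ℂ) = 1 := by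
      rw [Complex.normSq_eq_conj_mul_self, mul_comm]; exact h1
    exact_mod_cast h3
  rw [Complex.norm_def, h2, Real.sqrt_one]

theorem unitary_inv {u : M2} (hu : u ∈ Matrix.unitaryGroup (Fin 2) ℂ) : u⁻¹ = uᴴ :=
  Matrix.inv_eq_right_inv (Matrix.mem_unitaryGroup_iff.mp hu)

theorem orth_left {m : Matrix (Fin 3) (Fin 3) ℝ} (hm : m ∈ Matrix.orthogonalGroup (Fin 3) ℝ) :
    m * mᵀ = 1 := by
  rw [Matrix.mem_orthogonalGroup_iff] at hm
  exact hm

theorem orth_right {m : Matrix (Fin 3) (Fin 3) ℝ} (hm : m ∈ Matrix.orthogonalGroup (Fin 3) ℝ) :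
    mᵀ * m = 1 := by
  rw [Matrix.mem_orthogonalGroup_iff'] at hm
  exact hm

theorem rY_transpose (i : Fin 3) : (rY i)ᵀ = -rY i := by
  unfold rY
  rw [transpose_sub, transpose_single, transpose_single, neg_sub]

/-! ### Rotations of the basis -/

theorem pauli_herm (a : Fin 4) : (pauli a)ᴴ = pauli a := by
  fin_cases a <;> ext i j <;> fin_cases i <;> fin_cases j <;>
    simp [pauli, Matrix.conjTranspose_apply]

theorem conj_pauli {u : M2} (hu : u ∈ Matrix.unitaryGroup (Fin 2) ℂ) (i : Fin 3) :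
    u * pauli i.succ * uᴴ = ∑ j, (Rot u j i : ℂ) • pauli j.succ := by
  have h0 : (u * pauli i.succ * uᴴ).trace = 0 := by
    rw [Matrix.trace_mul_comm, ← mul_assoc]
    have : uᴴ * u = 1 := Matrix.mem_unitaryGroup_iff'.mp hu
    rw [this, one_mul]
    exact casm_trace i
  rw [casm_complete _ h0]
  refine Finset.sum_congr rfl fun j _ => ?_
  congr 1
  have h1 : (u * pauli i.succ * uᴴ * pauli j.succ).trace =
      (pauli j.succ * u * pauli i.succ * uᴴ).trace := by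
    rw [Matrix.trace_mul_comm, ← mul_assoc, ← mul_assoc]
  have h2 : star (u * pauli i.succ * uᴴ * pauli j.succ).trace =
      (u * pauli i.succ * uᴴ * pauli j.succ).trace := by
    rw [← Matrix.trace_conjTranspose]
    simp only [conjTranspose_mul, pauli_herm, conjTranspose_conjTranspose]
    rw [Matrix.trace_mul_comm, ← mul_assoc]
  have h3 : ((u * pauli i.succ * uᴴ * pauli j.succ).trace.re : ℂ) =
      (u * pauli i.succ * uᴴ * pauli j.succ).trace := Complex.conj_eq_iff_re.mp h2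
  have h4 : Rot u j i = (u * pauli i.succ * uᴴ * pauli j.succ).trace.re / 2 := by
    unfold Rot Phi
    rw [of_apply, of_apply, unitary_det hu, div_one, ← h1]
    rw [show (2⁻¹ : ℂ) = ((2⁻¹ : ℝ) : ℂ) by push_cast; rfl, Complex.re_ofReal_mul]
    ring
  rw [h4, Complex.ofReal_div, h3]
  norm_num

theorem conj_eX {u : M2} (hu : u ∈ Matrix.unitaryGroup (Fin 2) ℂ) (i : Fin 3) :
    u * eX i * u⁻¹ = ∑ j, Rot u j i • eX j := by
  rw [unitary_inv hu]
  unfold eX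
  rw [mul_smul_comm, smul_mul_assoc, conj_pauli hu, Finset.smul_sum]
  refine Finset.sum_congr rfl fun j _ => ?_
  rw [smul_comm]
  rfl

theorem rot00 (m : Matrix (Fin 3) (Fin 3) ℝ) : rot m 0 0 = 1 := rfl
theorem rot0s (m : Matrix (Fin 3) (Fin 3) ℝ) (j : Fin 3) : rot m 0 j.succ = 0 := rfl
theorem rots0 (m : Matrix (Fin 3) (Fin 3) ℝ) (i : Fin 3) : rot m i.succ 0 = 0 := rfl
theorem rotss (m : Matrix (Fin 3) (Fin 3) ℝ) (i j : Fin 3) : rot m i.succ j.succ = m i j := rfl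

theorem bY00 (i : Fin 3) : bY i 0 0 = 0 := by
  simp [bY]
theorem bY0s (i j : Fin 3) : bY i 0 j.succ = if i = j then 1 else 0 := by
  simp [bY, Matrix.single_apply]
theorem bYs0 (i j : Fin 3) : bY i j.succ 0 = if i = j then 1 else 0 := by
  simp [bY, Matrix.single_apply]
theorem bYss (i a b : Fin 3) : bY i a.succ b.succ = 0 := by
  simp [bY, (Fin.succ_ne_zero a).symm, (Fin.succ_ne_zero b).symm]

theorem rot_bY (m : Matrix (Fin 3) (Fin 3) ℝ) (i : Fin 3) :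
    rot m * bY i * rot mᵀ = ∑ j, m j i • bY j := by
  ext a b
  rw [Matrix.sum_apply]
  simp only [Matrix.smul_apply, smul_eq_mul]
  rw [Matrix.mul_apply, Fin.sum_univ_succ]
  simp only [Matrix.mul_apply, Fin.sum_univ_succ (n := 3)]
  refine Fin.cases ?_ (fun a => ?_) a <;> refine Fin.cases ?_ (fun b => ?_) b <;>
    simp only [rot00, rot0s, rots0, rotss, bY00, bY0s, bYs0, bYss] <;>
    simp

/-! ### The rotation generators -/

/-- 3 by 3 block of `rY` -/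
def ry3 (i : Fin 3) : Matrix (Fin 3) (Fin 3) ℝ :=
  Matrix.single (i + 1) (i + 2) 1 - Matrix.single (i + 2) (i + 1) 1

/-- embedding of 3 by 3 matrices as blocks -/
def blk (M : Matrix (Fin 3) (Fin 3) ℝ) : Mat 3 :=
  Matrix.of (Fin.cons (fun _ => 0) fun i => Fin.cons 0 (M i))

theorem blk00 (m : Matrix (Fin 3) (Fin 3) ℝ) : blk m 0 0 = 0 := rfl
theorem blk0s (m : Matrix (Fin 3) (Fin 3) ℝ) (j : Fin 3) : blk m 0 j.succ = 0 := rfl
theorem blks0 (m : Matrix (Fin 3) (Fin 3) ℝ) (i : Fin 3) : blk m i.succ 0 = 0 := rfl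
theorem blkss (m : Matrix (Fin 3) (Fin 3) ℝ) (i j : Fin 3) : blk m i.succ j.succ = m i j := rfl

theorem rY_blk (i : Fin 3) : rY i = blk (ry3 i) := by
  ext a b
  refine Fin.cases ?_ (fun a => ?_) a <;> refine Fin.cases ?_ (fun b => ?_) b
  · simp [rY, blk00]
  · simp [rY, blk0s]
  · simp [rY, blks0]
  · simp [rY, blkss, ry3, Matrix.single_apply]

theorem rot_blk (m M n : Matrix (Fin 3) (Fin 3) ℝ) : rot m * blk M * rot n = blk (m * M * n) := by
  ext a b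
  rw [Matrix.mul_apply, Fin.sum_univ_succ]
  simp only [Matrix.mul_apply, Fin.sum_univ_succ (n := 3)]
  refine Fin.cases ?_ (fun a => ?_) a <;> refine Fin.cases ?_ (fun b => ?_) b <;>
    simp only [rot00, rot0s, rots0, rotss, blk00, blk0s, blks0, blkss, Matrix.mul_apply] <;>
    simp

theorem blk_sum (c : Fin 3 → ℝ) (M : Fin 3 → Matrix (Fin 3) (Fin 3) ℝ) :
    blk (∑ j, c j • M j) = ∑ j, c j • blk (M j) := by
  ext a b
  rw [Matrix.sum_apply]
  simp only [Matrix.smul_apply, smul_eq_mul]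
  refine Fin.cases ?_ (fun a => ?_) a <;> refine Fin.cases ?_ (fun b => ?_) b <;>
    simp only [blk00, blk0s, blks0, blkss, Matrix.sum_apply, Matrix.smul_apply, smul_eq_mul] <;>
    simp

theorem anti_complete {X : Matrix (Fin 3) (Fin 3) ℝ} (hX : Xᵀ = -X) :
    X = ∑ j : Fin 3, X (j + 1) (j + 2) • ry3 j := by
  have h : ∀ a b, X b a = -X a b := fun a b => congrFun (congrFun hX a) b
  have h00 : X 0 0 = 0 := by have := h 0 0; linarith
  have h11 : X 1 1 = 0 := by have := h 1 1; linarith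
  have h22 : X 2 2 = 0 := by have := h 2 2; linarith
  have h10 := h 0 1
  have h02 := h 2 0
  have h21 := h 1 2
  ext a b
  rw [Matrix.sum_apply]
  simp only [Matrix.smul_apply, smul_eq_mul, Fin.sum_univ_three, ry3, Matrix.sub_apply,
    Matrix.single_apply]
  fin_cases a <;> fin_cases b <;> simp [h00, h11, h22, h10, h02, h21]

theorem ry3_trace (i j : Fin 3) : (ry3 i * ry3 j).trace = if i = j then -2 else 0 := by
  rw [Matrix.trace_fin_three]
  simp only [Matrix.mul_apply, Fin.sum_univ_three, ry3, Matrix.sub_apply, Matrix.single_apply]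
  fin_cases i <;> fin_cases j <;> simp <;> norm_num

theorem ry3_transpose (i : Fin 3) : (ry3 i)ᵀ = -ry3 i := by
  unfold ry3
  rw [transpose_sub, transpose_single, transpose_single, neg_sub]

/-- coefficients of the adjoint action -/
def ryC (m : Matrix (Fin 3) (Fin 3) ℝ) (i j : Fin 3) : ℝ := (m * ry3 i * mᵀ) (j + 1) (j + 2)

theorem ryC_spec (m : Matrix (Fin 3) (Fin 3) ℝ) (i : Fin 3) :
    m * ry3 i * mᵀ = ∑ j, ryC m i j • ry3 j := by
  apply anti_complete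
  rw [transpose_mul, transpose_mul, transpose_transpose, ry3_transpose]
  simp only [neg_mul, mul_neg, mul_assoc]

theorem ryC_ortho {m : Matrix (Fin 3) (Fin 3) ℝ} (hm : m ∈ Matrix.orthogonalGroup (Fin 3) ℝ)
    (j k : Fin 3) : ∑ i, ryC m i j * ryC m i k = if j = k then 1 else 0 := by
  have hmm : mᵀ * m = 1 := orth_right hm
  let c : Matrix (Fin 3) (Fin 3) ℝ := Matrix.of (ryC m)
  have h1 : c * cᵀ = 1 := by
    ext i l
    rw [Matrix.mul_apply, Matrix.one_apply]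
    have h2 : ((m * ry3 i * mᵀ) * (m * ry3 l * mᵀ)).trace = if i = l then -2 else 0 := by
      rw [← ry3_trace i l, show (m * ry3 i * mᵀ) * (m * ry3 l * mᵀ) =
        m * (ry3 i * (mᵀ * m) * ry3 l) * mᵀ by simp only [mul_assoc],
        hmm, mul_one, Matrix.trace_mul_comm, ← mul_assoc, hmm, one_mul]
    rw [ryC_spec, ryC_spec, Finset.sum_mul_sum, Matrix.trace_sum] at h2
    simp only [Matrix.trace_sum, smul_mul_assoc, mul_smul_comm, Matrix.trace_smul, ry3_trace,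
      smul_eq_mul, mul_ite, mul_zero, Finset.sum_ite_eq, Finset.mem_univ, if_true] at h2
    have h3 : ∑ x, c i x * cᵀ x l = (∑ x, ryC m l x * (ryC m i x * -2)) / -2 := by
      rw [Finset.sum_div]
      refine Finset.sum_congr rfl fun x _ => ?_
      show ryC m i x * ryC m l x = _
      ring
    rw [h3, h2]
    split_ifs <;> norm_num
  have h4 : cᵀ * c = 1 := mul_eq_one_comm.mp h1
  have h5 := congrFun (congrFun h4 j) k
  rw [Matrix.mul_apply, Matrix.one_apply] at h5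
  exact h5

theorem rot_rY (m : Matrix (Fin 3) (Fin 3) ℝ) (i : Fin 3) :
    rot m * rY i * rot mᵀ = ∑ j, ryC m i j • rY j := by
  rw [rY_blk, rot_blk, ryC_spec, blk_sum]
  refine Finset.sum_congr rfl fun j _ => ?_
  rw [rY_blk]

theorem drho_sum (k : ℕ) (c : Fin 3 → ℝ) (Y : Fin 3 → Mat 3) :
    drho k (∑ j, c j • Y j) = ∑ j, (c j : ℂ) • drho k (Y j) := by
  rw [Fin.sum_univ_three, Fin.sum_univ_three, drho_add, drho_add, drho_smul, drho_smul, drho_smul]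

theorem rot_mul_transpose {m : Matrix (Fin 3) (Fin 3) ℝ}
    (hm : m ∈ Matrix.orthogonalGroup (Fin 3) ℝ) : rot m * rot mᵀ = 1 ∧ rot mᵀ * rot m = 1 := by
  rw [← rot_mul, ← rot_mul, orth_left hm,
    orth_right hm, rot_one]
  exact ⟨rfl, rfl⟩

theorem tau_mul (k : ℕ) (m n : Matrix (Fin 3) (Fin 3) ℝ) : tau k (m * n) = tau k m * tau k n := by
  unfold tau
  rw [rot_mul, rho_mul]

theorem tau_one (k : ℕ) : tau k 1 = 1 := by
  unfold tau
  rw [rot_one, rho_one]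

theorem tau_left {k : ℕ} {m : Matrix (Fin 3) (Fin 3) ℝ}
    (hm : m ∈ Matrix.orthogonalGroup (Fin 3) ℝ) : tau k m * tau k mᵀ = 1 ∧
      tau k mᵀ * tau k m = 1 := by
  rw [← tau_mul, ← tau_mul, orth_left hm,
    orth_right hm, tau_one]
  exact ⟨rfl, rfl⟩

theorem tau_drho {k : ℕ} {m : Matrix (Fin 3) (Fin 3) ℝ}
    (hm : m ∈ Matrix.orthogonalGroup (Fin 3) ℝ) (Y : Mat 3) :
    tau k m * drho k Y = drho k (rot m * Y * rot mᵀ) * tau k m := by
  rw [← drho_conj k (rot m) (rot mᵀ) Y (rot_mul_transpose hm).1]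
  show _ = tau k m * drho k Y * tau k mᵀ * tau k m
  rw [mul_assoc _ (tau k mᵀ), (tau_left hm).2, mul_one]

theorem ck_tau (k : ℕ) {m : Matrix (Fin 3) (Fin 3) ℝ} (hm : m ∈ Matrix.orthogonalGroup (Fin 3) ℝ) :
    tau k m * ck k = ck k * tau k m := by
  have h1 : tau k m * ck k =
      (∑ i, drho k (rot m * rY i * rot mᵀ) * drho k (rot m * rY i * rot mᵀ)) * tau k m := by
    unfold ck
    rw [Finset.mul_sum, Finset.sum_mul]
    refine Finset.sum_congr rfl fun i _ => ?_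
    rw [← mul_assoc, tau_drho hm, mul_assoc, tau_drho hm, ← mul_assoc]
  rw [h1]
  congr 1
  unfold ck
  have h0 : ∀ i, drho k (rot m * rY i * rot mᵀ) * drho k (rot m * rY i * rot mᵀ) =
      ∑ j, ∑ l, ((ryC m i j : ℂ) * (ryC m i l : ℂ)) • (drho k (rY j) * drho k (rY l)) := by
    intro i
    rw [rot_rY, drho_sum, Finset.sum_mul_sum]
    refine Finset.sum_congr rfl fun j _ => Finset.sum_congr rfl fun l _ => ?_
    rw [smul_mul_smul_comm]
  simp only [h0]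
  rw [Finset.sum_comm]
  refine Finset.sum_congr rfl fun j _ => ?_
  rw [Finset.sum_comm]
  have h2 : ∀ l, ∑ i, ((ryC m i j : ℂ) * (ryC m i l : ℂ)) • (drho k (rY j) * drho k (rY l)) =
      if j = l then drho k (rY j) * drho k (rY l) else 0 := by
    intro l
    rw [← Finset.sum_smul]
    have h3 := ryC_ortho hm j l
    have h4 : ∑ i, ((ryC m i j : ℂ) * (ryC m i l : ℂ)) = ((if j = l then 1 else 0 : ℝ) : ℂ) := by
      rw [← h3]; push_cast; rfl
    rw [h4]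
    split_ifs <;> simp
  simp only [h2, Finset.sum_ite_eq, Finset.mem_univ, if_true]

/-! ### Sections -/

variable {k : ℕ} {Γ : Subgroup (Mat 3)ˣ}

theorem smul_one_GLo {z : ℂ} (hz : z ≠ 0) : (z • (1 : M2)) ∈ GLo := by
  show (z • (1 : M2)).det ≠ 0
  rw [det_smul, det_one, mul_one]
  exact pow_ne_zero _ hz

theorem smul_GLo {z : ℂ} (hz : z ≠ 0) {g : M2} (hg : g ∈ GLo) : (z • g) ∈ GLo := by
  have := GLo_mul (smul_one_GLo hz) hg
  rwa [smul_mul_assoc, one_mul] at this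

theorem E_scal {V : Type*} [NormedAddCommGroup V] [NormedSpace ℝ V] {F : M2 → V}
    (hF : ContDiffOn ℝ ∞ F GLo) (hs : ∀ z : ℂ, z ≠ 0 → ∀ g ∈ GLo, F (z • g) = F g) (X : M2)
    {z : ℂ} (hz : z ≠ 0) {g : M2} (hg : g ∈ GLo) : E X F (z • g) = E X F g := by
  have h1 := E_left hF X hg (smul_one_GLo hz)
  rw [smul_mul_assoc, one_mul] at h1
  rw [← h1]
  apply E_congr _ _ hg
  intro x hx
  rw [smul_mul_assoc, one_mul, hs z hz x hx]

theorem E_invl {V : Type*} [NormedAddCommGroup V] [NormedSpace ℝ V] {F : M2 → V}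
    (hF : ContDiffOn ℝ ∞ F GLo) {h : M2} (hh : h ∈ GLo) (hs : ∀ g ∈ GLo, F (h * g) = F g) (X : M2)
    {g : M2} (hg : g ∈ GLo) : E X F (h * g) = E X F g := by
  rw [← E_left hF X hg hh]
  exact E_congr hs _ hg

theorem E_unit {V : Type*} [NormedAddCommGroup V] [NormedSpace ℝ V] {F : M2 → V}
    (hF : ContDiffOn ℝ ∞ F GLo) {u : M2} (hu : u ∈ Matrix.unitaryGroup (Fin 2) ℂ) (i : Fin 3)
    {g : M2} (hg : g ∈ GLo) :
    E (eX i) F (g * u) = ∑ j, Rot u j i • E (eX j) (fun x => F (x * u)) g := by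
  have hug := unitary_GLo hu
  have h1 := E_right hF (u * eX i * u⁻¹) hg hug
  have h2 : u⁻¹ * (u * eX i * u⁻¹) * u = eX i := by
    have h3 : u⁻¹ * u = 1 := nonsing_inv_mul u (isUnit_iff_ne_zero.mpr hug)
    calc u⁻¹ * (u * eX i * u⁻¹) * u = (u⁻¹ * u) * eX i * (u⁻¹ * u) := by simp only [mul_assoc]
      _ = _ := by rw [h3, one_mul, mul_one]
  rw [h2] at h1
  rw [← h1, conj_eX hu, E_dir_sum]
  refine Finset.sum_congr rfl fun j _ => ?_
  rw [E_smul_dir]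

theorem Sect_E {k : ℕ} {Γ : Subgroup (Mat 3)ˣ} {F : M2 → Ix k → ℂ} (hF : F ∈ Sect (tau k) Γ)
    (i : Fin 3) {g : M2} (hg : g ∈ GLo) : E (rX i) F g = -(drho k (rY i) *ᵥ F g) := by
  obtain ⟨_, hs, _, _, heq⟩ := hF
  have h1 : HasDerivAt (fun t => F (g * rt i t)) (E (rX i) F (g * rt i 0)) 0 := by
    have h2 : HasDerivAt (fun t => g * rt i t) (g * rt i 0 * rX i) 0 := by
      have h3 := secm_lin (LinearMap.mulLeft ℝ g) (rt_deriv i 0)
      rw [LinearMap.mulLeft_apply, ← mul_assoc] at h3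
      exact h3
    exact E_curve hs h2 (GLo_mul hg (unitary_GLo (rt_unitary i 0)))
  rw [rt_zero, mul_one] at h1
  have h4 : (fun t => F (g * rt i t)) = fun t => rho k (Phi (rt i t))ᵀ *ᵥ F g := by
    funext t
    rw [heq _ (rt_unitary i t) g hg]
    unfold tau
    rw [rot_transpose, ← (Phi_unitary (rt_unitary i t)).1]
  have h5 : HasDerivAt (fun t => (Phi (rt i t))ᵀ) ((Phi (rt i 0))ᵀ * (rY i)ᵀ) 0 := by
    have h6 : HasDerivAt (fun t => (Phi (rt i t))ᵀ) ((Phi (rt i 0) * rY i)ᵀ) 0 :=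
      secm_lin (Matrix.transposeLinearEquiv (Fin 4) (Fin 4) ℝ ℝ).toLinearMap (Phi_rt_deriv i 0)
    rw [rt_zero, Phi_one, one_mul] at h6
    rw [rt_zero, Phi_one, transpose_one, one_mul]
    exact h6
  have h7 := rho_deriv k h5
  rw [rt_zero, Phi_one, transpose_one, rho_one, one_mul, rY_transpose] at h7
  have h8 : HasDerivAt (fun t => rho k (Phi (rt i t))ᵀ *ᵥ F g) (drho k (-rY i) *ᵥ F g) 0 :=
    secm_lin (((Matrix.mulVecBilin ℂ ℂ).flip (F g)).restrictScalars ℝ) h7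
  rw [h4] at h1
  rw [h1.unique h8, show -rY i = (-1 : ℝ) • rY i by rw [neg_one_smul], drho_smul]
  push_cast
  rw [neg_one_smul, neg_mulVec]

theorem Cas_eq {k : ℕ} {Γ : Subgroup (Mat 3)ˣ} {F : M2 → Ix k → ℂ} (hF : F ∈ Sect (tau k) Γ)
    {g : M2} (hg : g ∈ GLo) :
    Cas F g = -(∑ i, E (eX i) (E (eX i) F) g) + ck k *ᵥ F g := by
  unfold Cas ck
  congr 1
  rw [Matrix.sum_mulVec]
  refine Finset.sum_congr rfl fun i _ => ?_
  have h1 : E (rX i) (E (rX i) F) g = E (rX i) (fun x => (-drho k (rY i)) *ᵥ F x) g := by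
    apply E_congr _ _ hg
    intro x hx
    rw [Sect_E hF i hx, neg_mulVec]
  rw [h1, E_mulVec hF.2.1 _ _ hg, Sect_E hF i hg, mulVec_neg, neg_mulVec, neg_neg, mulVec_mulVec]

theorem Vec_E {k : ℕ} {Γ : Subgroup (Mat 3)ˣ} {F : M2 → Ix k → ℂ} (hF : F ∈ Sect (tau k) Γ) :
    Vec k Γ (fun i => E (eX i) F) := by
  obtain ⟨h0, hs, hsc, hinv, heq⟩ := hF
  refine ⟨fun i g hg => E_off h0 _ hg, fun i => E_smooth hs _, fun i z hz g hg =>
    E_scal hs hsc _ hz hg, fun i γ hγ h hh hPh g hg =>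
    E_invl hs hh (fun g hg => hinv γ hγ h hh hPh g hg) _ hg, ?_⟩
  intro u hu g hg i
  rw [E_unit hs hu i hg]
  refine Finset.sum_congr rfl fun j _ => ?_
  have h1 : E (eX j) (fun x => F (x * u)) g = tau k (Rot u)ᵀ *ᵥ E (eX j) F g := by
    rw [← E_mulVec hs _ _ hg]
    exact E_congr (fun x hx => heq u hu x hx) _ hg
  rw [h1]
  exact (Complex.coe_smul _ _).symm

theorem tau_bY {u : Matrix (Fin 3) (Fin 3) ℝ} (hu : u ∈ Matrix.orthogonalGroup (Fin 3) ℝ)
    (i : Fin 3) :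
    drho k (bY i) * tau k uᵀ = tau k uᵀ * ∑ j, (u j i : ℂ) • drho k (bY j) := by
  have h1 := tau_drho (k := k) hu (bY i)
  rw [rot_bY, drho_sum] at h1
  have h2 := congrArg (fun M => tau k uᵀ * M * tau k uᵀ) h1
  beta_reduce at h2
  rw [← mul_assoc, (tau_left hu).2, one_mul, ← mul_assoc, mul_assoc _ (tau k u), (tau_left hu).1,
    mul_one] at h2
  exact h2

theorem Vec_b {k : ℕ} {Γ : Subgroup (Mat 3)ˣ} {F : M2 → Ix k → ℂ} (hF : F ∈ Sect (tau k) Γ) :
    Vec k Γ (fun i g => drho k (bY i) *ᵥ F g) := by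
  obtain ⟨h0, hs, hsc, hinv, heq⟩ := hF
  refine ⟨fun i g hg => ?_, fun i => mulVec_smooth hs _, fun i z hz g hg => ?_,
    fun i γ hγ h hh hPh g hg => ?_, ?_⟩
  · rw [h0 g hg, mulVec_zero]
  · rw [hsc z hz g hg]
  · rw [hinv γ hγ h hh hPh g hg]
  intro u hu g hg i
  rw [heq u hu g hg, mulVec_mulVec, tau_bY (Phi_unitary hu).2.1, ← mulVec_mulVec,
    Matrix.sum_mulVec, Matrix.mulVec_sum]
  refine Finset.sum_congr rfl fun j _ => ?_
  rw [smul_mulVec, mulVec_smul]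

theorem Vec_add {H H' : Fin 3 → M2 → Ix k → ℂ} (hH : Vec k Γ H) (hH' : Vec k Γ H') (c : ℝ) :
    Vec k Γ (fun i g => c • H i g + H' i g) := by
  refine ⟨fun i g hg => ?_, fun i => ((hH.smooth i).const_smul c).add (hH'.smooth i),
    fun i z hz g hg => ?_, fun i γ hγ h hh hPh g hg => ?_, ?_⟩
  · rw [hH.zero i g hg, hH'.zero i g hg, smul_zero, add_zero]
  · rw [hH.scal i z hz g hg, hH'.scal i z hz g hg]
  · rw [hH.inv i γ hγ h hh hPh g hg, hH'.inv i γ hγ h hh hPh g hg]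
  intro u hu g hg i
  rw [hH.equiv u hu g hg i, hH'.equiv u hu g hg i, Finset.smul_sum, ← Finset.sum_add_distrib]
  refine Finset.sum_congr rfl fun j _ => ?_
  rw [mulVec_add, mulVec_smul, smul_add, smul_comm]

theorem rot_sum {u : M2} (hu : u ∈ Matrix.unitaryGroup (Fin 2) ℂ) (j l : Fin 3) :
    ∑ i, (Rot u l i : ℂ) * (Rot u j i : ℂ) = if j = l then 1 else 0 := by
  have h1 := congrFun (congrFun (orth_left (Phi_unitary hu).2.1) l) j
  rw [Matrix.mul_apply, Matrix.one_apply] at h1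
  have h2 : ∑ i, (Rot u l i : ℂ) * (Rot u j i : ℂ) = ((∑ i, Rot u l i * (Rot u)ᵀ i j : ℝ) : ℂ) := by
    push_cast
    rfl
  rw [h2, h1]
  by_cases h : j = l
  · simp [h]
  · simp [h, Ne.symm h]

theorem Sect_div {k : ℕ} {Γ : Subgroup (Mat 3)ˣ} {H : Fin 3 → M2 → Ix k → ℂ} (hH : Vec k Γ H) :
    (fun g => ∑ i, E (eX i) (H i) g) ∈ Sect (tau k) Γ := by
  refine ⟨fun g hg => ?_, ContDiffOn.sum fun i _ => E_smooth (hH.smooth i) _, fun z hz g hg => ?_,
    fun γ hγ h hh hPh g hg => ?_, fun u hu g hg => ?_⟩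
  · exact Finset.sum_eq_zero fun i _ => E_off (hH.zero i) _ hg
  · exact Finset.sum_congr rfl fun i _ => E_scal (hH.smooth i) (hH.scal i) _ hz hg
  · exact Finset.sum_congr rfl fun i _ =>
      E_invl (hH.smooth i) hh (fun g hg => hH.inv i γ hγ h hh hPh g hg) _ hg
  · simp only
    have h1 : ∀ i l : Fin 3, E (eX l) (fun x => H i (x * u)) g =
        ∑ j, (Rot u j i : ℂ) • (tau k (Rot u)ᵀ *ᵥ E (eX l) (H j) g) := by
      intro i l
      have h2 : E (eX l) (fun x => H i (x * u)) g =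
          E (eX l) (fun x => ∑ j, ((Rot u j i : ℂ) • tau k (Rot u)ᵀ) *ᵥ H j x) g := by
        apply E_congr _ _ hg
        intro x hx
        rw [hH.equiv u hu x hx i]
        exact Finset.sum_congr rfl fun j _ => (smul_mulVec _ _ _).symm
      rw [h2, E_sum3 (fun j => mulVec_smooth (hH.smooth j) _) _ hg]
      refine Finset.sum_congr rfl fun j _ => ?_
      rw [E_mulVec (hH.smooth j) _ _ hg, smul_mulVec]
    have h3 : ∀ i, E (eX i) (H i) (g * u) = ∑ j, ∑ l,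
        ((Rot u l i : ℂ) * (Rot u j i : ℂ)) • (tau k (Rot u)ᵀ *ᵥ E (eX l) (H j) g) := by
      intro i
      rw [E_unit (hH.smooth i) hu i hg, Finset.sum_comm]
      refine Finset.sum_congr rfl fun l _ => ?_
      rw [h1, Finset.smul_sum]
      refine Finset.sum_congr rfl fun j _ => ?_
      rw [mul_smul]
      exact (Complex.coe_smul _ _).symm
    simp only [h3]
    rw [Finset.sum_comm, Matrix.mulVec_sum]
    refine Finset.sum_congr rfl fun j _ => ?_
    rw [Finset.sum_comm]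
    have h4 : ∀ l, ∑ i, ((Rot u l i : ℂ) * (Rot u j i : ℂ)) •
        (tau k (Rot u)ᵀ *ᵥ E (eX l) (H j) g) =
        if j = l then tau k (Rot u)ᵀ *ᵥ E (eX l) (H j) g else 0 := by
      intro l
      rw [← Finset.sum_smul, rot_sum hu]
      split_ifs <;> simp
    simp only [h4, Finset.sum_ite_eq, Finset.mem_univ, if_true]

theorem Sect_bdiv {k : ℕ} {Γ : Subgroup (Mat 3)ˣ} {H : Fin 3 → M2 → Ix k → ℂ} (hH : Vec k Γ H) :
    (fun g => ∑ i, drho k (bY i) *ᵥ H i g) ∈ Sect (tau k) Γ := by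
  refine ⟨fun g hg => ?_, ContDiffOn.sum fun i _ => mulVec_smooth (hH.smooth i) _,
    fun z hz g hg => ?_, fun γ hγ h hh hPh g hg => ?_, fun u hu g hg => ?_⟩
  · exact Finset.sum_eq_zero fun i _ => by rw [hH.zero i g hg, mulVec_zero]
  · exact Finset.sum_congr rfl fun i _ => by rw [hH.scal i z hz g hg]
  · exact Finset.sum_congr rfl fun i _ => by rw [hH.inv i γ hγ h hh hPh g hg]
  · simp only
    have h3 : ∀ i, drho k (bY i) *ᵥ H i (g * u) = ∑ j, ∑ l,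
        ((Rot u l i : ℂ) * (Rot u j i : ℂ)) • (tau k (Rot u)ᵀ *ᵥ (drho k (bY l) *ᵥ H j g)) := by
      intro i
      rw [hH.equiv u hu g hg i, Matrix.mulVec_sum]
      refine Finset.sum_congr rfl fun j _ => ?_
      rw [mulVec_smul, mulVec_mulVec, tau_bY (Phi_unitary hu).2.1, ← mulVec_mulVec,
        Matrix.sum_mulVec, Matrix.mulVec_sum, Finset.smul_sum]
      refine Finset.sum_congr rfl fun l _ => ?_
      rw [smul_mulVec, mulVec_smul, smul_smul, mul_comm]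
    simp only [h3]
    rw [Finset.sum_comm, Matrix.mulVec_sum]
    refine Finset.sum_congr rfl fun j _ => ?_
    rw [Finset.sum_comm]
    have h4 : ∀ l, ∑ i, ((Rot u l i : ℂ) * (Rot u j i : ℂ)) •
        (tau k (Rot u)ᵀ *ᵥ (drho k (bY l) *ᵥ H j g)) =
        if j = l then tau k (Rot u)ᵀ *ᵥ (drho k (bY l) *ᵥ H j g) else 0 := by
      intro l
      rw [← Finset.sum_smul, rot_sum hu]
      split_ifs <;> simp
    simp only [h4, Finset.sum_ite_eq, Finset.mem_univ, if_true]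

theorem Sect_ck {k : ℕ} {Γ : Subgroup (Mat 3)ˣ} {F : M2 → Ix k → ℂ} (hF : F ∈ Sect (tau k) Γ) :
    (fun g => ck k *ᵥ F g) ∈ Sect (tau k) Γ := by
  obtain ⟨h0, hs, hsc, hinv, heq⟩ := hF
  refine ⟨fun g hg => ?_, mulVec_smooth hs _, fun z hz g hg => ?_, fun γ hγ h hh hPh g hg => ?_,
    fun u hu g hg => ?_⟩
  · simp only
    rw [h0 g hg, mulVec_zero]
  · simp only
    rw [hsc z hz g hg]
  · simp only
    rw [hinv γ hγ h hh hPh g hg]
  · simp only
    have hut : (Rot u)ᵀ ∈ Matrix.orthogonalGroup (Fin 3) ℝ := by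
      rw [Matrix.mem_orthogonalGroup_iff, transpose_transpose]
      exact orth_right (Phi_unitary hu).2.1
    rw [heq u hu g hg, mulVec_mulVec, mulVec_mulVec, ck_tau k hut]

theorem Cas_off {F : M2 → Ix k → ℂ} (h0 : ∀ g, g ∉ GLo → F g = 0) {g : M2} (hg : g ∉ GLo) :
    Cas F g = 0 := by
  unfold Cas
  have h1 : ∀ Y : M2, E Y (E Y F) g = 0 := fun Y => E_off (fun x hx => E_off h0 Y hx) Y hg
  simp only [h1, Finset.sum_const_zero, neg_zero, add_zero]

theorem Cas_congr {V : Type*} [NormedAddCommGroup V] [NormedSpace ℝ V] {F G : M2 → V}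
    (h : ∀ g ∈ GLo, F g = G g) {g : M2} (hg : g ∈ GLo) : Cas F g = Cas G g := by
  unfold Cas
  have h1 : ∀ Y : M2, E Y (E Y F) g = E Y (E Y G) g :=
    fun Y => E_congr (fun x hx => E_congr h Y hx) Y hg
  simp only [h1]

theorem Cas_mem {k : ℕ} {Γ : Subgroup (Mat 3)ˣ} {F : M2 → Ix k → ℂ} (hF : F ∈ Sect (tau k) Γ) :
    Cas F ∈ Sect (tau k) Γ := by
  obtain ⟨h0, hs, hsc, hinv, heq⟩ := hF
  refine ⟨fun g hg => Cas_off h0 hg, Cas_smooth hs, fun z hz g hg => ?_,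
    fun γ hγ h hh hPh g hg => ?_, fun u hu g hg => ?_⟩
  · have h1 := Cas_left hs hg (smul_one_GLo hz)
    rw [smul_mul_assoc, one_mul] at h1
    rw [← h1]
    apply Cas_congr _ hg
    intro x hx
    rw [smul_mul_assoc, one_mul, hsc z hz x hx]
  · rw [← Cas_left hs hg hh]
    exact Cas_congr (fun x hx => hinv γ hγ h hh hPh x hx) hg
  · rw [← Cas_right hs hg (unitary_GLo hu), ← secmL_apply, ← Cas_clm hs _ hg]
    exact Cas_congr (fun x hx => heq u hu x hx) hg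

theorem Pop_mem {k : ℕ} {Γ : Subgroup (Mat 3)ˣ} {F : M2 → Ix k → ℂ} (hF : F ∈ Sect (tau k) Γ) :
    Pop k F ∈ Sect (tau k) Γ := by
  have h1 := Vec_add (Vec_E hF) (Vec_b hF) 1
  have h2 := (Sect (tau k) Γ).neg_mem ((Sect (tau k) Γ).add_mem (Sect_div h1) (Sect_bdiv h1))
  have h3 : Pop k F = -((fun g => ∑ i, E (eX i) (fun g => (1 : ℝ) • E (eX i) F g +
      drho k (bY i) *ᵥ F g) g) + fun g => ∑ i, drho k (bY i) *ᵥ ((1 : ℝ) • E (eX i) F g +
      drho k (bY i) *ᵥ F g)) := by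
    funext g
    rw [Pi.neg_apply, Pi.add_apply, ← Finset.sum_add_distrib]
    unfold Pop Dfl
    simp only [one_smul]
  rw [h3]
  exact h2

theorem PopS_mem {k : ℕ} {Γ : Subgroup (Mat 3)ˣ} {F : M2 → Ix k → ℂ} (hF : F ∈ Sect (tau k) Γ) :
    PopS k F ∈ Sect (tau k) Γ := by
  have h1 := Vec_add (Vec_E hF) (Vec_b hF) (-1)
  have h2 := (Sect (tau k) Γ).add_mem (Sect_div h1)
    ((Sect (tau k) Γ).neg_mem (Sect_bdiv h1))
  have h3 : PopS k F = (fun g => ∑ i, E (eX i) (fun g => (-1 : ℝ) • E (eX i) F g +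
      drho k (bY i) *ᵥ F g) g) + -(fun g => ∑ i, drho k (bY i) *ᵥ ((-1 : ℝ) • E (eX i) F g +
      drho k (bY i) *ᵥ F g)) := by
    funext g
    rw [Pi.add_apply, Pi.neg_apply, ← sub_eq_add_neg, ← Finset.sum_sub_distrib]
    unfold PopS DflS
    rw [← Finset.sum_neg_distrib]
    refine Finset.sum_congr rfl fun i _ => ?_
    simp only [neg_one_smul]
    abel
  rw [h3]
  exact h2

end SM

theorem Sect_E {k : ℕ} {Γ : Subgroup (Mat 3)ˣ} {F : M2 → Ix k → ℂ} (hF : F ∈ Sect (tau k) Γ)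
    (i : Fin 3) {g : M2} (hg : g ∈ GLo) : E (rX i) F g = -(drho k (rY i) *ᵥ F g) :=
  SM.Sect_E hF i hg

theorem Cas_eq {k : ℕ} {Γ : Subgroup (Mat 3)ˣ} {F : M2 → Ix k → ℂ} (hF : F ∈ Sect (tau k) Γ)
    {g : M2} (hg : g ∈ GLo) :
    Cas F g = -(∑ i, E (eX i) (E (eX i) F) g) + ck k *ᵥ F g :=
  SM.Cas_eq hF hg

theorem Vec_E {k : ℕ} {Γ : Subgroup (Mat 3)ˣ} {F : M2 → Ix k → ℂ} (hF : F ∈ Sect (tau k) Γ) :
    Vec k Γ (fun i => E (eX i) F) :=
  SM.Vec_E hF

theorem Vec_b {k : ℕ} {Γ : Subgroup (Mat 3)ˣ} {F : M2 → Ix k → ℂ} (hF : F ∈ Sect (tau k) Γ) :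
    Vec k Γ (fun i g => drho k (bY i) *ᵥ F g) :=
  SM.Vec_b hF

theorem Sect_div {k : ℕ} {Γ : Subgroup (Mat 3)ˣ} {H : Fin 3 → M2 → Ix k → ℂ} (hH : Vec k Γ H) :
    (fun g => ∑ i, E (eX i) (H i) g) ∈ Sect (tau k) Γ :=
  SM.Sect_div hH

theorem Sect_bdiv {k : ℕ} {Γ : Subgroup (Mat 3)ˣ} {H : Fin 3 → M2 → Ix k → ℂ} (hH : Vec k Γ H) :
    (fun g => ∑ i, drho k (bY i) *ᵥ H i g) ∈ Sect (tau k) Γ :=
  SM.Sect_bdiv hH

theorem ck_tau (k : ℕ) {m : Matrix (Fin 3) (Fin 3) ℝ} (hm : m ∈ Matrix.orthogonalGroup (Fin 3) ℝ) :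
    tau k m * ck k = ck k * tau k m :=
  SM.ck_tau k hm

theorem Sect_ck {k : ℕ} {Γ : Subgroup (Mat 3)ˣ} {F : M2 → Ix k → ℂ} (hF : F ∈ Sect (tau k) Γ) :
    (fun g => ck k *ᵥ F g) ∈ Sect (tau k) Γ :=
  SM.Sect_ck hF

theorem Cas_mem {k : ℕ} {Γ : Subgroup (Mat 3)ˣ} {F : M2 → Ix k → ℂ} (hF : F ∈ Sect (tau k) Γ) :
    Cas F ∈ Sect (tau k) Γ :=
  SM.Cas_mem hF

theorem Pop_mem {k : ℕ} {Γ : Subgroup (Mat 3)ˣ} {F : M2 → Ix k → ℂ} (hF : F ∈ Sect (tau k) Γ) :
    Pop k F ∈ Sect (tau k) Γ :=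
  SM.Pop_mem hF

theorem PopS_mem {k : ℕ} {Γ : Subgroup (Mat 3)ˣ} {F : M2 → Ix k → ℂ} (hF : F ∈ Sect (tau k) Γ) :
    PopS k F ∈ Sect (tau k) Γ :=
  SM.PopS_mem hF

end

end Pool.Agent.Work.MP_14c213_gt
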