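import Pool.Agent.Work.MP_14c213_gt.A.DivC
import Pool.Agent.Work.MP_14c213_gt.A.PartU
import Pool.Agent.Work.MP_14c213_gt.A.SectM

/-!
Divergence theorem on Γ\H³. ∫_D div w = ∫_D ∑_γ χ(γ·) div w = ∫_{H³} χ div w
= ∫_{H³} div(χ w) - ∫_{H³} ∑ E_i χ w_i = - ∫_D ∑_i (E_i ∑_γ χ(γ·)) w_i = 0.
-/

namespace Pool.Agent.Work.MP_14c213_gt

open Matrix MeasureTheory
open scoped Matrix ContDiff Matrix.Norms.Elementwise

noncomputable section

namespace DM

/-- multiplication of a vector field with an invariant function. -/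
theorem VecEq_mul {w : Fin 3 → M2 → ℂ} (hw : VecEq w) {χ : M2 → ℝ} (h1 : ContDiffOn ℝ ∞ χ GLo)
    (h2 : ∀ z : ℂ, z ≠ 0 → ∀ g ∈ GLo, χ (z • g) = χ g)
    (h3 : ∀ u ∈ Matrix.unitaryGroup (Fin 2) ℂ, ∀ g ∈ GLo, χ (g * u) = χ g) :
    VecEq (fun i g => (χ g : ℂ) * w i g) := by
  refine ⟨fun i => ?_, fun i z hz g hg => ?_, fun u hu g hg i => ?_⟩
  · exact (Complex.ofRealCLM.contDiff.comp_contDiffOn h1).mul (hw.1 i)
  · simp only
    rw [h2 z hz g hg, hw.2.1 i z hz g hg]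
  · simp only
    rw [h3 u hu g hg, hw.2.2 u hu g hg i, Finset.mul_sum]
    exact Finset.sum_congr rfl fun j _ => by ring

/-- translates of invariant functions. -/
theorem left_props {χ : M2 → ℝ} (h1 : ContDiffOn ℝ ∞ χ GLo)
    (h2 : ∀ z : ℂ, z ≠ 0 → ∀ g ∈ GLo, χ (z • g) = χ g)
    (h3 : ∀ u ∈ Matrix.unitaryGroup (Fin 2) ℂ, ∀ g ∈ GLo, χ (g * u) = χ g) {x : M2} (hx : x ∈ GLo) :
    ContDiffOn ℝ ∞ (fun g => χ (x * g)) GLo ∧
    (∀ z : ℂ, z ≠ 0 → ∀ g ∈ GLo, χ (x * (z • g)) = χ (x * g)) ∧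
    (∀ u ∈ Matrix.unitaryGroup (Fin 2) ℂ, ∀ g ∈ GLo, χ (x * (g * u)) = χ (x * g)) := by
  refine ⟨?_, fun z hz g hg => ?_, fun u hu g hg => ?_⟩
  · exact h1.comp (cgMk (LinearMap.mulLeft ℝ x)).contDiff.contDiffOn (fun g hg => GLo_mul hx hg)
  · rw [mul_smul_comm, h2 z hz _ (GLo_mul hx hg)]
  · rw [← mul_assoc, h3 u hu _ (GLo_mul hx hg)]

/-- the divergence is a function on the quotient. -/
theorem dv_unit {w : Fin 3 → M2 → ℂ} (hw : VecEq w) {u : M2}
    (hu : u ∈ Matrix.unitaryGroup (Fin 2) ℂ) {g : M2} (hg : g ∈ GLo) :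
    ∑ i, E (eX i) (w i) (g * u) = ∑ i, E (eX i) (w i) g := by
  have h1 : ∀ i l : Fin 3, E (eX l) (fun x => w i (x * u)) g =
      ∑ j, (Rot u j i : ℂ) * E (eX l) (w j) g := by
    intro i l
    have h2 : E (eX l) (fun x => w i (x * u)) g =
        E (eX l) (fun x => ∑ j, (Rot u j i : ℂ) * w j x) g := by
      apply E_congr _ _ hg
      intro x hx
      rw [hw.2.2 u hu x hx i]
    rw [h2, SM.E_sum3 (G := fun j x => (Rot u j i : ℂ) * w j x)
      (fun j => contDiffOn_const.mul (hw.1 j)) _ hg]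
    refine Finset.sum_congr rfl fun j _ => ?_
    have h4 := E_clm (hw.1 j) (LinearMap.toContinuousLinearMap
      (LinearMap.mulLeft ℝ (Rot u j i : ℂ)) : ℂ →L[ℝ] ℂ) (eX l) hg
    exact h4
  have h3 : ∀ i, E (eX i) (w i) (g * u) = ∑ j, ∑ l,
      ((Rot u l i : ℂ) * (Rot u j i : ℂ)) * E (eX l) (w j) g := by
    intro i
    rw [SM.E_unit (hw.1 i) hu i hg, Finset.sum_comm]
    refine Finset.sum_congr rfl fun l _ => ?_
    rw [h1, Finset.smul_sum]
    refine Finset.sum_congr rfl fun j _ => ?_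
    rw [Complex.real_smul, mul_assoc]
  simp only [h3]
  rw [Finset.sum_comm]
  refine Finset.sum_congr rfl fun j _ => ?_
  rw [Finset.sum_comm]
  have h4 : ∀ l, ∑ i, ((Rot u l i : ℂ) * (Rot u j i : ℂ)) * E (eX l) (w j) g =
      if j = l then E (eX l) (w j) g else 0 := by
    intro l
    rw [← Finset.sum_mul, SM.rot_sum hu]
    split_ifs <;> simp
  simp only [h4, Finset.sum_ite_eq, Finset.mem_univ, if_true]

theorem dv_scal {w : Fin 3 → M2 → ℂ} (hw : VecEq w) {z : ℂ} (hz : z ≠ 0) {g : M2} (hg : g ∈ GLo) :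
    ∑ i, E (eX i) (w i) (z • g) = ∑ i, E (eX i) (w i) g :=
  Finset.sum_congr rfl fun i _ => SM.E_scal (hw.1 i) (hw.2.1 i) _ hz hg

/-- the divergence at translated points. -/
theorem dv_act {w : Fin 3 → M2 → ℂ} (hw : VecEq w) {x : M2} (hx : x ∈ GLo) {p : UH} (hp : p ∈ UHs) :
    ∑ i, E (eX i) (w i) (sec (act (Phi x) p)) = ∑ i, E (eX i) (fun g => w i (x * g)) (sec p) := by
  obtain ⟨z, hz, u, hu, he⟩ := act_sec hx hp
  have hs := sec_mem hp
  have hxs := GLo_mul hx hs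
  rw [he, dv_scal hw hz (GLo_mul hxs (SM.unitary_GLo hu)), dv_unit hw hu hxs]
  refine Finset.sum_congr rfl fun i _ => ?_
  rw [E_left (hw.1 i) _ hs hx]

/-- differentiability in coordinates. -/
theorem coord_diff {f : M2 → ℂ} (hf : ContDiffOn ℝ ∞ f GLo) {p : UH} (hp : p ∈ UHs) :
    DifferentiableAt ℝ (fun q => f (sec q)) p := by
  have h1 := (hf.contDiffAt (GLo_open.mem_nhds (sec_mem hp))).comp p sec_smooth.contDiffAt
  exact h1.differentiableAt (by simp)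

/-- the divergence is local in coordinates. -/
theorem dv_zero {w : Fin 3 → M2 → ℂ} (hw : VecEq w) {p : UH} (hp : p ∈ UHs)
    (h : ∀ᶠ q in nhds p, ∀ i, w i (sec q) = 0) : ∑ i, E (eX i) (w i) (sec p) = 0 := by
  have h1 : ∀ i, fderiv ℝ (fun q => w i (sec q)) p = 0 := by
    intro i
    have : (fun q => w i (sec q)) =ᶠ[nhds p] fun _ => (0 : ℂ) := by
      filter_upwards [h] with q hq
      exact hq i
    rw [this.fderiv_eq]
    simp
  rw [div_coord hw hp, h1, h1, h1, h.self_of_nhds 2]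
  simp

theorem dv_sum {ι : Type*} {w : Fin 3 → M2 → ℂ} (hw : VecEq w) (S : Finset ι)
    {v : ι → Fin 3 → M2 → ℂ} (hv : ∀ γ, VecEq (v γ)) {p : UH} (hp : p ∈ UHs)
    (h : ∀ᶠ q in nhds p, ∀ i, ∑ γ ∈ S, v γ i (sec q) = w i (sec q)) :
    ∑ γ ∈ S, ∑ i, E (eX i) (v γ i) (sec p) = ∑ i, E (eX i) (w i) (sec p) := by
  have h1 : ∀ i, ∑ γ ∈ S, fderiv ℝ (fun q => v γ i (sec q)) p = fderiv ℝ (fun q => w i (sec q)) p := by
    intro i
    have e : (fun q => w i (sec q)) =ᶠ[nhds p] fun q => ∑ γ ∈ S, v γ i (sec q) := by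
      filter_upwards [h] with q hq
      exact (hq i).symm
    rw [e.fderiv_eq, fderiv_fun_sum fun γ _ => coord_diff ((hv γ).1 i) hp]
  have h2 : ∀ i, ∀ V : UH, ∑ γ ∈ S, fderiv ℝ (fun q => v γ i (sec q)) p V =
      fderiv ℝ (fun q => w i (sec q)) p V := by
    intro i V
    rw [← h1 i, _root_.sum_apply]
  have h3 : ∀ γ ∈ S, ∑ i, E (eX i) (v γ i) (sec p) = _ := fun γ _ => div_coord (hv γ) hp
  rw [Finset.sum_congr rfl h3, div_coord hw hp, Finset.sum_sub_distrib, ← Finset.mul_sum,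
    Finset.sum_add_distrib, Finset.sum_sub_distrib, h2, h2, h2, ← Finset.mul_sum,
    h.self_of_nhds 2]

end DM

theorem div_thm {Γ : Subgroup (Mat 3)ˣ} {D : Set UH} (h : Klein Γ) (hD : FD Γ D)
    {w : Fin 3 → M2 → ℂ} (hw : VecEq w)
    (hinv : ∀ i, ∀ γ ∈ Γ, ∀ x ∈ GLo, Phi x = (γ : Mat 3) → ∀ g ∈ GLo, w i (x * g) = w i g) :
    ∫ p in D, ∑ i, E (eX i) (w i) (sec p) ∂mu = 0 := by
  obtain ⟨χ, c1, c2, c3, ⟨K, hK, hKs, c4⟩, c5⟩ := partition h
  have hw' : VecEq (fun i g => (χ g : ℂ) * w i g) := DM.VecEq_mul hw c1 c2 c3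
  have h0 := div_compact hw' hK hKs (fun i g hg hc => by simp [c4 g hg hc])
  have hvan : ∀ q ∈ UHs, q ∉ K → χ (sec q) = 0 := by
    intro q hq hqK
    refine c4 _ (sec_mem hq) ?_
    have : cor (Phi (sec q)) = q := cor_SS hq
    rw [this]
    exact hqK
  -- integrability
  have hint : IntegrableOn (fun p => ∑ i, E (eX i) (fun g => (χ g : ℂ) * w i g) (sec p)) UHs mu := by
    have hcont : ContinuousOn (fun p => ∑ i, E (eX i) (fun g => (χ g : ℂ) * w i g) (sec p)) UHs := by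
      refine continuousOn_finsetSum _ fun i _ => ?_
      exact (E_smooth (hw'.1 i) (eX i)).continuousOn.comp sec_smooth.continuous.continuousOn
        (fun p hp => sec_mem hp)
    have hfin : mu K < ⊤ := mu_finite hK hKs
    have hiK : IntegrableOn (fun p => ∑ i, E (eX i) (fun g => (χ g : ℂ) * w i g) (sec p)) K mu := by
      obtain ⟨C, hC⟩ := hK.exists_bound_of_continuousOn (hcont.mono hKs)
      have : IsFiniteMeasure (mu.restrict K) := ⟨by rw [Measure.restrict_apply_univ]; exact hfin⟩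
      refine Integrable.of_bound ((hcont.mono hKs).aestronglyMeasurable hK.measurableSet) C ?_
      exact (ae_restrict_iff' hK.measurableSet).2 (Filter.Eventually.of_forall hC)
    refine hiK.of_forall_sdiff_eq_zero UHs_open.measurableSet fun p hp => ?_
    refine DM.dv_zero hw' hp.1 ?_
    filter_upwards [UHs_open.mem_nhds hp.1, hK.isClosed.isOpen_compl.mem_nhds hp.2] with q h1 h2 i
    simp [hvan q h1 h2]
  rw [unfold_integral h hD hint] at h0
  rw [← h0]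
  refine setIntegral_congr_fun hD.meas fun p hpD => ?_
  have hp : p ∈ UHs := hD.sub hpD
  -- lifts of the group elements
  have hlift : ∀ γ : Γ, ∃ x ∈ GLo, Phi x = ((γ : (Mat 3)ˣ) : Mat 3) :=
    fun γ => Phi_surj (Klein_SO h γ.2)
  choose x hx hxP using hlift
  have hvec : ∀ γ : Γ, VecEq (fun i g => (χ (x γ * g) : ℂ) * w i g) := by
    intro γ
    obtain ⟨d1, d2, d3⟩ := DM.left_props c1 c2 c3 (hx γ)
    exact DM.VecEq_mul hw d1 d2 d3
  have hχact : ∀ γ : Γ, ∀ q ∈ UHs, χ (x γ * sec q) = χ (sec (act ((γ : (Mat 3)ˣ) : Mat 3) q)) := by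
    intro γ q hq
    obtain ⟨z, hz, u, hu, he⟩ := act_sec (hx γ) hq
    rw [hxP] at he
    have h1 := GLo_mul (hx γ) (sec_mem hq)
    rw [he, c2 z hz _ (GLo_mul h1 (SM.unitary_GLo hu)), c3 u hu _ h1]
  have hterm : ∀ γ : Γ, ∑ i, E (eX i) (fun g => (χ g : ℂ) * w i g)
      (sec (act ((γ : (Mat 3)ˣ) : Mat 3) p)) =
      ∑ i, E (eX i) (fun g => (χ (x γ * g) : ℂ) * w i g) (sec p) := by
    intro γ
    rw [← hxP γ, DM.dv_act hw' (hx γ) hp]
    refine Finset.sum_congr rfl fun i _ => E_congr (fun g hg => ?_) _ (sec_mem hp)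
    rw [hinv i _ γ.2 (x γ) (hx γ) (hxP γ) g hg]
  -- local finiteness
  obtain ⟨N, hN, hpN, hNs⟩ := exists_compact_subset UHs_open hp
  have hKN : IsCompact (K ∪ N) := hK.union hN
  have hKNs : K ∪ N ⊆ UHs := Set.union_subset hKs hNs
  have hfin := Klein_proper h hKN hKNs 1
  have hout : ∀ γ : Γ, γ ∉ hfin.toFinset → ∀ q ∈ N, χ (x γ * sec q) = 0 := by
    intro γ hγ q hqN
    have hq := hNs hqN
    rw [hχact γ q hq]
    refine hvan _ (act_mem (Klein_SO h γ.2).1 hq) fun hKq => hγ ?_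
    rw [Set.Finite.mem_toFinset]
    refine ⟨_, Or.inl hKq, q, Or.inr hqN, ?_⟩
    obtain ⟨k, hk, -, hkS⟩ := act_SS (Klein_SO h γ.2) hq
    have hF : ((γ : (Mat 3)ˣ) : Mat 3) * SS q ∈ Frames 3 := Frames_mul (Klein_SO h γ.2).1 (SS_SO hq).1
    have hr := rot_mem_Frames hk
    have e1 : SS (act ((γ : (Mat 3)ˣ) : Mat 3) q) * (rot k)⁻¹ = ((γ : (Mat 3)ˣ) : Mat 3) * SS q := by
      rw [hkS, mul_assoc, (Frames_inv hr).2.2.2.1, mul_one]
    have hSF := (SS_SO (act_mem (Klein_SO h γ.2).1 hq)).1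
    rw [mul_assoc, ← e1, ← mul_assoc, (Frames_inv hSF).2.2.2.2, one_mul, (Frames_inv hr).2.2.1]
    exact le_of_eq rfl
  have hnhds : ∀ᶠ q in nhds p, q ∈ N := mem_interior_iff_mem_nhds.1 hpN
  have hsum1 : ∀ q ∈ N, ∑ γ ∈ hfin.toFinset, χ (x γ * sec q) = 1 := by
    intro q hqN
    have hq := hNs hqN
    have h1 := c5 (sec q) (sec_mem hq)
    have h2 : cor (Phi (sec q)) = q := cor_SS hq
    rw [h2, finsum_eq_sum_of_support_subset (s := hfin.toFinset)] at h1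
    · exact (Finset.sum_congr rfl fun γ _ => hχact γ q hq).trans h1
    · intro γ hγ
      by_contra hc
      apply hγ
      show χ (sec (act ((γ : (Mat 3)ˣ) : Mat 3) q)) = 0
      rw [← hχact γ q hq]
      exact hout γ hc q hqN
  show ∑ i, E (eX i) (w i) (sec p) = ∑' γ : Γ, ∑ i, E (eX i) (fun g => (χ g : ℂ) * w i g)
      (sec (act ((γ : (Mat 3)ˣ) : Mat 3) p))
  simp only [hterm]
  rw [tsum_eq_sum (s := hfin.toFinset), DM.dv_sum hw hfin.toFinset hvec hp]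
  · filter_upwards [hnhds] with q hq i
    rw [← Finset.sum_mul, ← Complex.ofReal_sum, hsum1 q hq]
    simp
  · intro γ hγ
    refine DM.dv_zero (hvec γ) hp ?_
    filter_upwards [hnhds] with q hq i
    simp [hout γ hγ q hq]

end

end Pool.Agent.Work.MP_14c213_gt
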