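import Pool.Agent.Work.MP_14c213_gt.A.SectM

/-!
Cas, P and its formal adjoint as linear endomorphisms of the space of sections.
Cas_Pop_comm: Cas commutes with E_X (Cas_E) and with constant matrices (Cas_clm).
-/

namespace Pool.Agent.Work.MP_14c213_gt

open Matrix MeasureTheory
open scoped Matrix ContDiff Matrix.Norms.Elementwise

noncomputable section

/-! ### Auxiliary first order operators -/

section aux

variable {W : Type*} [NormedAddCommGroup W] [NormedSpace ℝ W]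

/-- multiplication by a complex number as a real linear map -/
def linSm {J : Type} [Fintype J] (c : ℂ) : (J → ℂ) →L[ℝ] (J → ℂ) :=
  (c • ContinuousLinearMap.id ℂ (J → ℂ)).restrictScalars ℝ

theorem linSm_apply {J : Type} [Fintype J] (c : ℂ) (v : J → ℂ) : linSm c v = c • v := rfl

/-- multiplication by a constant matrix as a real linear map -/
def linMv {J : Type} [Fintype J] (M : Matrix J J ℂ) : (J → ℂ) →L[ℝ] (J → ℂ) :=
  (LinearMap.toContinuousLinearMap (Matrix.mulVecLin M)).restrictScalars ℝ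

theorem linMv_apply {J : Type} [Fintype J] (M : Matrix J J ℂ) (v : J → ℂ) :
    linMv M v = M *ᵥ v := rfl

/-- the operator `c E_X + L`. -/
def linOp (c : ℝ) (X : M2) (L : W →L[ℝ] W) (F : M2 → W) : M2 → W :=
  fun g => c • E X F g + L (F g)

theorem linOp_smooth (c : ℝ) (X : M2) (L : W →L[ℝ] W) {F : M2 → W} (hF : ContDiffOn ℝ ∞ F GLo) :
    ContDiffOn ℝ ∞ (linOp c X L F) GLo :=
  ((E_smooth hF X).const_smul c).add (L.contDiff.comp_contDiffOn hF)

theorem linOp_congr (c : ℝ) (X : M2) (L : W →L[ℝ] W) {F G : M2 → W}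
    (h : ∀ g ∈ GLo, F g = G g) {g : M2} (hg : g ∈ GLo) : linOp c X L F g = linOp c X L G g := by
  unfold linOp
  rw [E_congr h X hg, h g hg]

theorem linOp_add (c : ℝ) (X : M2) (L : W →L[ℝ] W) {F G : M2 → W} (hF : ContDiffOn ℝ ∞ F GLo)
    (hG : ContDiffOn ℝ ∞ G GLo) {g : M2} (hg : g ∈ GLo) :
    linOp c X L (F + G) g = linOp c X L F g + linOp c X L G g := by
  unfold linOp
  rw [E_add hF hG X hg, Pi.add_apply, map_add, smul_add]
  abel

theorem linOp_clm (c : ℝ) (X : M2) (L : W →L[ℝ] W) {F : M2 → W} (hF : ContDiffOn ℝ ∞ F GLo)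
    (M : W →L[ℝ] W) (hML : ∀ v, L (M v) = M (L v)) {g : M2} (hg : g ∈ GLo) :
    linOp c X L (fun g => M (F g)) g = M (linOp c X L F g) := by
  unfold linOp
  rw [E_clm hF M X hg, map_add, map_smul, hML]

theorem lin_cas_congr {F G : M2 → W} (h : ∀ g ∈ GLo, F g = G g) {g : M2} (hg : g ∈ GLo) :
    Cas F g = Cas G g := by
  have h1 : ∀ Y : M2, E Y (E Y F) g = E Y (E Y G) g := fun Y =>
    E_congr (fun x hx => E_congr h Y hx) Y hg
  unfold Cas
  simp only [h1]

theorem lin_cas_add {F G : M2 → W} (hF : ContDiffOn ℝ ∞ F GLo) (hG : ContDiffOn ℝ ∞ G GLo) {g : M2}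
    (hg : g ∈ GLo) : Cas (F + G) g = Cas F g + Cas G g := by
  have h1 : ∀ Y : M2, E Y (E Y (F + G)) g = E Y (E Y F) g + E Y (E Y G) g := by
    intro Y
    have a1 : E Y (E Y (F + G)) g = E Y (E Y F + E Y G) g :=
      E_congr (fun x hx => E_add hF hG Y hx) Y hg
    rw [a1, E_add (E_smooth hF _) (E_smooth hG _) Y hg]
  unfold Cas
  simp only [h1, Finset.sum_add_distrib]
  abel

theorem linOp_cas (c : ℝ) (X : M2) (L : W →L[ℝ] W) {F : M2 → W} (hF : ContDiffOn ℝ ∞ F GLo)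
    {g : M2} (hg : g ∈ GLo) : Cas (linOp c X L F) g = linOp c X L (Cas F) g := by
  have e : linOp c X L F = (fun g => (c • ContinuousLinearMap.id ℝ W) (E X F g)) +
      (fun g => L (F g)) := rfl
  have s1 : ContDiffOn ℝ ∞ (fun g => (c • ContinuousLinearMap.id ℝ W) (E X F g)) GLo :=
    (E_smooth hF X).const_smul c
  have s2 : ContDiffOn ℝ ∞ (fun g => L (F g)) GLo := L.contDiff.comp_contDiffOn hF
  rw [e, lin_cas_add s1 s2 hg, Cas_clm (E_smooth hF X) _ hg, Cas_clm hF L hg, Cas_E hF X hg]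
  rfl

end aux

variable {k : ℕ}

theorem lin_Pop (F : M2 → Ix k → ℂ) (g : M2) : Pop k F g =
    -∑ i, linOp 1 (eX i) (linMv (drho k (bY i))) (linOp 1 (eX i) (linMv (drho k (bY i))) F) g := by
  have e : ∀ i (F : M2 → Ix k → ℂ), Dfl k i F = linOp 1 (eX i) (linMv (drho k (bY i))) F := by
    intro i F
    funext g
    unfold Dfl linOp
    rw [one_smul, linMv_apply]
  unfold Pop
  simp only [e]

theorem lin_PopS (F : M2 → Ix k → ℂ) (g : M2) : PopS k F g =
    -∑ i, linOp (-1) (eX i) (linMv (drho k (bY i)))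
      (linOp (-1) (eX i) (linMv (drho k (bY i))) F) g := by
  have e : ∀ i (F : M2 → Ix k → ℂ), DflS k i F = linOp (-1) (eX i) (linMv (drho k (bY i))) F := by
    intro i F
    funext g
    unfold DflS linOp
    rw [neg_one_smul, linMv_apply]
  unfold PopS
  simp only [e]

/-- `-∑ D_i²` for `D_i = c E_i + L_i`. -/
def linP (c : ℝ) (k : ℕ) (F : M2 → Ix k → ℂ) : M2 → Ix k → ℂ := fun g =>
  -∑ i, linOp c (eX i) (linMv (drho k (bY i))) (linOp c (eX i) (linMv (drho k (bY i))) F) g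

theorem lin_PopP (F : M2 → Ix k → ℂ) : Pop k F = linP 1 k F := funext fun g => lin_Pop F g

theorem lin_PopSP (F : M2 → Ix k → ℂ) : PopS k F = linP (-1) k F := funext fun g => lin_PopS F g

theorem linP_add (c : ℝ) {F G : M2 → Ix k → ℂ} (hF : ContDiffOn ℝ ∞ F GLo)
    (hG : ContDiffOn ℝ ∞ G GLo) {g : M2} (hg : g ∈ GLo) :
    linP c k (F + G) g = linP c k F g + linP c k G g := by
  unfold linP
  have h : ∀ i, linOp c (eX i) (linMv (drho k (bY i)))
      (linOp c (eX i) (linMv (drho k (bY i))) (F + G)) g =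
      linOp c (eX i) (linMv (drho k (bY i))) (linOp c (eX i) (linMv (drho k (bY i))) F) g +
      linOp c (eX i) (linMv (drho k (bY i))) (linOp c (eX i) (linMv (drho k (bY i))) G) g := by
    intro i
    rw [← linOp_add c _ _ (linOp_smooth _ _ _ hF) (linOp_smooth _ _ _ hG) hg]
    exact linOp_congr _ _ _ (fun x hx => linOp_add c _ _ hF hG hx) hg
  simp only [h, Finset.sum_add_distrib]
  abel

theorem linP_smul (c : ℝ) (a : ℂ) {F : M2 → Ix k → ℂ} (hF : ContDiffOn ℝ ∞ F GLo)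
    {g : M2} (hg : g ∈ GLo) : linP c k (a • F) g = a • linP c k F g := by
  have hc : ∀ i v, linMv (drho k (bY i)) (linSm a v) = linSm a (linMv (drho k (bY i)) v) := by
    intro i v
    rw [linMv_apply, linMv_apply, linSm_apply, linSm_apply, Matrix.mulVec_smul]
  have h : ∀ i, linOp c (eX i) (linMv (drho k (bY i)))
      (linOp c (eX i) (linMv (drho k (bY i))) (a • F)) g =
      a • linOp c (eX i) (linMv (drho k (bY i))) (linOp c (eX i) (linMv (drho k (bY i))) F) g := by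
    intro i
    have := linOp_clm c (eX i) (linMv (drho k (bY i))) (linOp_smooth c (eX i)
      (linMv (drho k (bY i))) hF) (linSm a) (hc i) hg
    rw [linSm_apply] at this
    rw [← this]
    exact linOp_congr _ _ _ (fun x hx => linOp_clm c _ _ hF (linSm a) (hc i) hx) hg
  unfold linP
  simp only [h]
  rw [← Finset.smul_sum, smul_neg]

theorem linP_cas (c : ℝ) {F : M2 → Ix k → ℂ} (hF : ContDiffOn ℝ ∞ F GLo) {g : M2}
    (hg : g ∈ GLo) : Cas (linP c k F) g = linP c k (Cas F) g := by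
  set G : Fin 3 → M2 → Ix k → ℂ := fun i =>
    linOp c (eX i) (linMv (drho k (bY i))) (linOp c (eX i) (linMv (drho k (bY i))) F) with hG
  have hGs : ∀ i, ContDiffOn ℝ ∞ (G i) GLo := fun i =>
    linOp_smooth _ _ _ (linOp_smooth _ _ _ hF)
  have e : linP c k F = fun g => linSm (-1) ((G 0 + G 1 + G 2) g) := by
    funext g
    unfold linP
    rw [linSm_apply, neg_one_smul, Fin.sum_univ_three]
    rfl
  have hGc : ∀ i, Cas (G i) g =
      linOp c (eX i) (linMv (drho k (bY i))) (linOp c (eX i) (linMv (drho k (bY i))) (Cas F)) g := by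
    intro i
    rw [hG]
    simp only
    rw [linOp_cas c _ _ (linOp_smooth _ _ _ hF) hg]
    exact linOp_congr _ _ _ (fun x hx => linOp_cas c _ _ hF hx) hg
  have s2 : ContDiffOn ℝ ∞ (G 0 + G 1) GLo := (hGs 0).add (hGs 1)
  have s3 : ContDiffOn ℝ ∞ (G 0 + G 1 + G 2) GLo := s2.add (hGs 2)
  rw [e, Cas_clm s3 _ hg, lin_cas_add s2 (hGs 2) hg, lin_cas_add (hGs 0) (hGs 1) hg, linSm_apply,
    neg_one_smul, hGc, hGc, hGc]
  unfold linP
  rw [Fin.sum_univ_three]

theorem lin_cas_smul (a : ℂ) {F : M2 → Ix k → ℂ} (hF : ContDiffOn ℝ ∞ F GLo) {g : M2}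
    (hg : g ∈ GLo) : Cas (a • F) g = a • Cas F g :=
  Cas_clm hF (linSm a) hg

/-- two sections are equal if they agree on `GLo`. -/
theorem lin_sect_ext {Γ : Subgroup (Mat 3)ˣ} {F G : Sect (tau k) Γ}
    (h : ∀ g ∈ GLo, F.1 g = G.1 g) : F = G := by
  apply Subtype.ext
  funext g
  by_cases hg : g ∈ GLo
  · exact h g hg
  · rw [F.2.1 g hg, G.2.1 g hg]

/-- `Cas` on sections. -/
def CasL (k : ℕ) (Γ : Subgroup (Mat 3)ˣ) : Module.End ℂ (Sect (tau k) Γ) where
  toFun F := ⟨Cas F.1, Cas_mem F.2⟩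
  map_add' := by
    intro F G
    exact lin_sect_ext fun g hg => lin_cas_add F.2.2.1 G.2.2.1 hg
  map_smul' := by
    intro c F
    exact lin_sect_ext fun g hg => lin_cas_smul c F.2.2.1 hg

/-- `P` on sections. -/
def PL (k : ℕ) (Γ : Subgroup (Mat 3)ˣ) : Module.End ℂ (Sect (tau k) Γ) where
  toFun F := ⟨Pop k F.1, Pop_mem F.2⟩
  map_add' := by
    intro F G
    refine lin_sect_ext fun g hg => ?_
    show Pop k (F.1 + G.1) g = Pop k F.1 g + Pop k G.1 g
    rw [lin_PopP, lin_PopP, lin_PopP]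
    exact linP_add 1 F.2.2.1 G.2.2.1 hg
  map_smul' := by
    intro c F
    refine lin_sect_ext fun g hg => ?_
    show Pop k (c • F.1) g = c • Pop k F.1 g
    rw [lin_PopP, lin_PopP]
    exact linP_smul 1 c F.2.2.1 hg

/-- The formal adjoint of `P` on sections. -/
def PSL (k : ℕ) (Γ : Subgroup (Mat 3)ˣ) : Module.End ℂ (Sect (tau k) Γ) where
  toFun F := ⟨PopS k F.1, PopS_mem F.2⟩
  map_add' := by
    intro F G
    refine lin_sect_ext fun g hg => ?_
    show PopS k (F.1 + G.1) g = PopS k F.1 g + PopS k G.1 g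
    rw [lin_PopSP, lin_PopSP, lin_PopSP]
    exact linP_add (-1) F.2.2.1 G.2.2.1 hg
  map_smul' := by
    intro c F
    refine lin_sect_ext fun g hg => ?_
    show PopS k (c • F.1) g = c • PopS k F.1 g
    rw [lin_PopSP, lin_PopSP]
    exact linP_smul (-1) c F.2.2.1 hg

theorem Cas_P_comm (k : ℕ) (Γ : Subgroup (Mat 3)ˣ) : Commute (CasL k Γ) (PL k Γ) := by
  apply LinearMap.ext
  intro F
  refine lin_sect_ext fun g hg => ?_
  show Cas (Pop k F.1) g = Pop k (Cas F.1) g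
  rw [lin_PopP, lin_PopP]
  exact linP_cas 1 F.2.2.1 hg

theorem Cas_PS_comm (k : ℕ) (Γ : Subgroup (Mat 3)ˣ) : Commute (CasL k Γ) (PSL k Γ) := by
  apply LinearMap.ext
  intro F
  refine lin_sect_ext fun g hg => ?_
  show Cas (PopS k F.1) g = PopS k (Cas F.1) g
  rw [lin_PopSP, lin_PopSP]
  exact linP_cas (-1) F.2.2.1 hg

theorem PL_zero (Γ : Subgroup (Mat 3)ˣ) : PL 0 Γ = CasL 0 Γ := by
  have hd : ∀ Y : Mat 3, drho 0 Y = 0 := by
    intro Y
    ext I L
    simp [drho]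
  apply LinearMap.ext
  intro F
  refine lin_sect_ext fun g hg => ?_
  show Pop 0 F.1 g = Cas F.1 g
  rw [Cas_eq F.2 hg]
  have hc : ck 0 = 0 := by
    unfold ck
    simp [hd]
  have hD : ∀ i (G : M2 → Ix 0 → ℂ), Dfl 0 i G = E (eX i) G := by
    intro i G
    funext g
    unfold Dfl
    rw [hd, Matrix.zero_mulVec, add_zero]
  unfold Pop
  simp only [hD, hc, Matrix.zero_mulVec, add_zero]

/-- The eigenspaces of `Cas`. -/
def EL (k : ℕ) (Γ : Subgroup (Mat 3)ˣ) (lam : ℝ) : Submodule ℂ (Sect (tau k) Γ) :=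
  Module.End.eigenspace (CasL k Γ) (lam : ℂ)

instance instELg (k : ℕ) (Γ : Subgroup (Mat 3)ˣ) (lam : ℝ) : AddCommGroup (EL k Γ lam) :=
  inferInstance

instance instELm (k : ℕ) (Γ : Subgroup (Mat 3)ˣ) (lam : ℝ) : Module ℂ (EL k Γ lam) :=
  inferInstance

theorem PL_mapsTo (k : ℕ) (Γ : Subgroup (Mat 3)ˣ) (lam : ℝ) :
    ∀ F ∈ EL k Γ lam, PL k Γ F ∈ EL k Γ lam := by
  intro F hF
  unfold EL at hF ⊢
  rw [Module.End.mem_eigenspace_iff] at hF ⊢
  have h := LinearMap.congr_fun (Cas_P_comm k Γ).eq F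
  rw [Module.End.mul_apply, Module.End.mul_apply, hF, map_smul] at h
  exact h

/-- `P` on an eigenspace of `Cas`. -/
def PE (k : ℕ) (Γ : Subgroup (Mat 3)ˣ) (lam : ℝ) : Module.End ℂ (EL k Γ lam) :=
  (PL k Γ).restrict (PL_mapsTo k Γ lam)

end

end Pool.Agent.Work.MP_14c213_gt
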