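import Pool.Agent.Work.MP_14c213_gt.A.Calc

/-!
Differentiation under the integral sign for `g ↦ ∫ q in K, B (φ (g, q)) (b q)`, where `φ` is jointly
smooth on `U ×ˢ O`, `K ⊆ O` is compact, `b` is integrable on `K` and `B` is a fixed bilinear map
(auxiliary file for RAM, RAP, TAM).
-/

namespace Pool.Agent.Work.MP_14c213_gt

open MeasureTheory Set Filter
open scoped Topology ContDiff

noncomputable section

section param

variable {X : Type} [NormedAddCommGroup X] [NormedSpace ℝ X] [SecondCountableTopology X]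
  [MeasurableSpace X] [BorelSpace X]
variable {A : Type} [NormedAddCommGroup A] [NormedSpace ℝ A]
variable {Y : Type} [NormedAddCommGroup Y] [NormedSpace ℝ Y]

/-- the standing hypotheses -/
structure PM (ν : Measure X) (K : Set X) (U : Set A) (O : Set X) (b : X → Y) : Prop where
  op : IsOpen U
  op2 : IsOpen O
  cpt : IsCompact K
  sub : K ⊆ O
  int : IntegrableOn b K ν

/-- the operator -/
def pmT (ν : Measure X) (K : Set X) {V W : Type} [NormedAddCommGroup V]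
    [NormedSpace ℝ V] [NormedAddCommGroup W] [NormedSpace ℝ W] (B : V →L[ℝ] Y →L[ℝ] W)
    (b : X → Y) (φ : A × X → V) (g : A) : W := ∫ q in K, B (φ (g, q)) (b q) ∂ν

variable {V W : Type} [NormedAddCommGroup V] [NormedSpace ℝ V] [NormedAddCommGroup W]
  [NormedSpace ℝ W] {ν : Measure X} {K O : Set X} {U : Set A} {b : X → Y}
  {B : V →L[ℝ] Y →L[ℝ] W}

/-- derivative in the first variable -/
def pmD (φ : A × X → V) : A × X → (A →L[ℝ] V) := fun p =>
  (fderiv ℝ φ p).comp (ContinuousLinearMap.inl ℝ A X)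

/-- the bilinear map for the derivative -/
def pmB (A : Type) [NormedAddCommGroup A] [NormedSpace ℝ A] (B : V →L[ℝ] Y →L[ℝ] W) :
    (A →L[ℝ] V) →L[ℝ] Y →L[ℝ] (A →L[ℝ] W) :=
  ((ContinuousLinearMap.compL ℝ A V W).comp B.flip).flip

theorem pmB_le (B : V →L[ℝ] Y →L[ℝ] W) (L : A →L[ℝ] V) (y : Y) :
    ‖pmB A B L y‖ ≤ ‖B‖ * ‖L‖ * ‖y‖ := by
  refine ContinuousLinearMap.opNorm_le_bound _ (by positivity) fun Z => ?_
  calc ‖B (L Z) y‖ ≤ ‖B‖ * ‖L Z‖ * ‖y‖ := B.le_opNorm₂ _ _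
    _ ≤ ‖B‖ * (‖L‖ * ‖Z‖) * ‖y‖ := by gcongr; exact L.le_opNorm _
    _ = _ := by ring

omit [SecondCountableTopology X] [MeasurableSpace X] [BorelSpace X] in
theorem pmD_smooth (hU : IsOpen U) (hO : IsOpen O) {φ : A × X → V}
    (hφ : ContDiffOn ℝ ∞ φ (U ×ˢ O)) : ContDiffOn ℝ ∞ (pmD φ) (U ×ˢ O) :=
  (hφ.fderiv_of_isOpen (hU.prod hO) (by simp)).clm_comp contDiffOn_const

omit [SecondCountableTopology X] [MeasurableSpace X] [BorelSpace X] in
theorem pmD_hasFDerivAt (hU : IsOpen U) (hO : IsOpen O) {φ : A × X → V}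
    (hφ : ContDiffOn ℝ ∞ φ (U ×ˢ O)) {g : A} (hg : g ∈ U) {q : X} (hq : q ∈ O) :
    HasFDerivAt (fun x => φ (x, q)) (pmD φ (g, q)) g := by
  have h1 : DifferentiableAt ℝ φ (g, q) := cg_diffAt (hU.prod hO) hφ ⟨hg, hq⟩
  have h2 : HasFDerivAt (fun x : A => (x, q)) (ContinuousLinearMap.inl ℝ A X) g :=
    hasFDerivAt_prodMk_left g q
  exact h1.hasFDerivAt.comp g h2

omit [NormedSpace ℝ X] [NormedSpace ℝ A] in
theorem pm_aesm (h : PM ν K U O b) {φ : A × X → V} (hφ : ContinuousOn φ (U ×ˢ O)) {g : A}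
    (hg : g ∈ U) : AEStronglyMeasurable (fun q => B (φ (g, q)) (b q)) (ν.restrict K) := by
  have h0 : ContinuousOn (fun q => φ (g, q)) K :=
    hφ.comp (continuousOn_const.prodMk continuousOn_id) fun q hq => ⟨hg, h.sub hq⟩
  have h1 : AEStronglyMeasurable (fun q => φ (g, q)) (ν.restrict K) :=
    h0.aestronglyMeasurable h.cpt.measurableSet
  exact B.aestronglyMeasurable_comp₂ h1 h.int.aestronglyMeasurable

omit [NormedSpace ℝ X] [NormedSpace ℝ A] in
theorem pm_int (h : PM ν K U O b) {φ : A × X → V} (hφ : ContinuousOn φ (U ×ˢ O)) {g : A}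
    (hg : g ∈ U) : IntegrableOn (fun q => B (φ (g, q)) (b q)) K ν := by
  have h0 : ContinuousOn (fun q => φ (g, q)) K :=
    hφ.comp (continuousOn_const.prodMk continuousOn_id) fun q hq => ⟨hg, h.sub hq⟩
  obtain ⟨C, hC⟩ := h.cpt.exists_bound_of_continuousOn h0
  refine Integrable.mono' (h.int.norm.const_mul (‖B‖ * C)) (pm_aesm h hφ hg) ?_
  refine (ae_restrict_iff' h.cpt.measurableSet).2 (ae_of_all _ fun q hq => ?_)
  calc ‖B (φ (g, q)) (b q)‖ ≤ ‖B‖ * ‖φ (g, q)‖ * ‖b q‖ := B.le_opNorm₂ _ _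
    _ ≤ ‖B‖ * C * ‖b q‖ := by gcongr; exact hC q hq

variable [FiniteDimensional ℝ A]

theorem pm_hasFDerivAt (h : PM ν K U O b) {φ : A × X → V}
    (hφ : ContDiffOn ℝ ∞ φ (U ×ˢ O)) {g : A} (hg : g ∈ U) :
    HasFDerivAt (pmT ν K B b φ) (pmT ν K (pmB A B) b (pmD φ) g) g := by
  obtain ⟨ε, hε, hball⟩ := Metric.nhds_basis_closedBall.mem_iff.1 (h.op.mem_nhds hg)
  have hD := pmD_smooth h.op h.op2 hφ
  have hcpt : IsCompact (Metric.closedBall g ε ×ˢ K) := (isCompact_closedBall g ε).prod h.cpt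
  have hcont : ContinuousOn (pmD φ) (Metric.closedBall g ε ×ˢ K) :=
    hD.continuousOn.mono (prod_mono hball h.sub)
  obtain ⟨C, hC⟩ := hcpt.exists_bound_of_continuousOn hcont
  refine hasFDerivAt_integral_of_dominated_of_fderiv_le
    (F' := fun x q => pmB A B (pmD φ (x, q)) (b q)) (bound := fun q => ‖B‖ * C * ‖b q‖)
    (Metric.ball_mem_nhds g hε) ?_ (pm_int h hφ.continuousOn hg)
    (pm_aesm h hD.continuousOn hg) ?_ (h.int.norm.const_mul _) ?_
  · filter_upwards [h.op.mem_nhds hg] with x hx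
    exact pm_aesm h hφ.continuousOn hx
  · refine (ae_restrict_iff' h.cpt.measurableSet).2 (ae_of_all _ fun q hq x hx => ?_)
    calc ‖pmB A B (pmD φ (x, q)) (b q)‖ ≤ ‖B‖ * ‖pmD φ (x, q)‖ * ‖b q‖ := pmB_le B _ _
      _ ≤ ‖B‖ * C * ‖b q‖ := by
          gcongr
          exact hC (x, q) ⟨Metric.ball_subset_closedBall hx, hq⟩
  · refine (ae_restrict_iff' h.cpt.measurableSet).2 (ae_of_all _ fun q hq x hx => ?_)
    have hxU : x ∈ U := hball (Metric.ball_subset_closedBall hx)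
    exact (B.flip (b q)).hasFDerivAt.comp x (pmD_hasFDerivAt h.op h.op2 hφ hxU (h.sub hq))

theorem pm_smooth_nat (n : ℕ) : ∀ {V W : Type} [NormedAddCommGroup V] [NormedSpace ℝ V]
    [NormedAddCommGroup W] [NormedSpace ℝ W] {B : V →L[ℝ] Y →L[ℝ] W} (_ : PM ν K U O b)
    {φ : A × X → V} (_ : ContDiffOn ℝ ∞ φ (U ×ˢ O)), ContDiffOn ℝ n (pmT ν K B b φ) U := by
  induction n with
  | zero =>
    intro V W _ _ _ _ B h φ hφ
    rw [Nat.cast_zero, contDiffOn_zero]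
    exact fun g hg => (pm_hasFDerivAt h hφ hg).continuousAt.continuousWithinAt
  | succ n ih =>
    intro V W _ _ _ _ B h φ hφ
    have h1 : ((n + 1 : ℕ) : WithTop ℕ∞) = (n : WithTop ℕ∞) + 1 := by norm_cast
    rw [h1, contDiffOn_succ_iff_fderiv_of_isOpen h.op]
    refine ⟨fun g hg => (pm_hasFDerivAt h hφ hg).differentiableAt.differentiableWithinAt,
      fun hn => absurd hn (by simp), ?_⟩
    refine (ih (B := pmB A B) h (pmD_smooth h.op h.op2 hφ)).congr fun g hg => ?_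
    exact (pm_hasFDerivAt h hφ hg).fderiv

theorem pm_smooth (h : PM ν K U O b) {φ : A × X → V} (hφ : ContDiffOn ℝ ∞ φ (U ×ˢ O)) :
    ContDiffOn ℝ ∞ (pmT ν K B b φ) U :=
  contDiffOn_infty.2 fun n => pm_smooth_nat n h hφ

theorem pm_fderiv (h : PM ν K U O b) {φ : A × X → V}
    (hφ : ContDiffOn ℝ ∞ φ (U ×ˢ O)) {g : A} (hg : g ∈ U) (Z : A) :
    fderiv ℝ (pmT ν K B b φ) g Z = ∫ q in K, B (pmD φ (g, q) Z) (b q) ∂ν := by
  rw [(pm_hasFDerivAt h hφ hg).fderiv]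
  have h1 := pm_int (B := pmB A B) h (pmD_smooth h.op h.op2 hφ).continuousOn hg
  exact ContinuousLinearMap.integral_apply h1 Z

/-- the family differentiated along a linear vector field -/
def pmE (S : A →L[ℝ] A) (φ : A × X → V) : A × X → V := fun p => cgE S (fun x => φ (x, p.2)) p.1

omit [SecondCountableTopology X] [MeasurableSpace X] [BorelSpace X] [FiniteDimensional ℝ A] in
theorem pmE_eq (hU : IsOpen U) (hO : IsOpen O) {φ : A × X → V}
    (hφ : ContDiffOn ℝ ∞ φ (U ×ˢ O)) (S : A →L[ℝ] A) {p : A × X} (hp : p ∈ U ×ˢ O) :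
    pmE S φ p = pmD φ p (S p.1) := by
  unfold pmE cgE
  rw [(pmD_hasFDerivAt hU hO hφ hp.1 hp.2).fderiv]

omit [SecondCountableTopology X] [MeasurableSpace X] [BorelSpace X] [FiniteDimensional ℝ A] in
theorem pmE_smooth (hU : IsOpen U) (hO : IsOpen O) {φ : A × X → V}
    (hφ : ContDiffOn ℝ ∞ φ (U ×ˢ O)) (S : A →L[ℝ] A) : ContDiffOn ℝ ∞ (pmE S φ) (U ×ˢ O) := by
  have h1 : ContDiffOn ℝ ∞ (fun p : A × X => S p.1) (U ×ˢ O) :=
    (S.contDiff.comp contDiff_fst).contDiffOn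
  exact ((pmD_smooth hU hO hφ).clm_apply h1).congr fun p hp => pmE_eq hU hO hφ S hp

theorem pm_cgE (h : PM ν K U O b) {φ : A × X → V}
    (hφ : ContDiffOn ℝ ∞ φ (U ×ˢ O)) {g : A} (hg : g ∈ U) (S : A →L[ℝ] A) :
    cgE S (pmT ν K B b φ) g = pmT ν K B b (pmE S φ) g := by
  unfold cgE
  rw [pm_fderiv h hφ hg]
  refine setIntegral_congr_fun h.cpt.measurableSet fun q hq => ?_
  rw [pmE_eq h.op h.op2 hφ S ⟨hg, h.sub hq⟩]

theorem pm_cgE2 (h : PM ν K U O b) {φ : A × X → V}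
    (hφ : ContDiffOn ℝ ∞ φ (U ×ˢ O)) {g : A} (hg : g ∈ U) (S : A →L[ℝ] A) :
    cgE S (cgE S (pmT ν K B b φ)) g = pmT ν K B b (pmE S (pmE S φ)) g := by
  have e1 : cgE S (cgE S (pmT ν K B b φ)) g = cgE S (pmT ν K B b (pmE S φ)) g := by
    have := cg_congr h.op (fun x hx => pm_cgE (B := B) h hφ hx S) hg
    unfold cgE at this ⊢
    rw [this]
  rw [e1, pm_cgE h (pmE_smooth h.op h.op2 hφ S) hg]

end param

end

end Pool.Agent.Work.MP_14c213_gt
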