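import Pool.Agent.Work.MP_14c213_gt.A.SectM
import Pool.Agent.Work.MP_14c213_gt.A.Lin
import Pool.Agent.Work.MP_14c213_gt.A.MuInv
import Pool.Agent.Work.MP_14c213_gt.A.ParamM

/-!
The operator RA on sections: RA F g = ∫ A(2 (SS q)₀₀) rho(SS q) F(g sec q) dmu.
Smoothness in g: differentiate under the integral sign (F smooth, A continuous with compact support
in q). Equivariance under u ∈ U(2): substitute q ↦ act (Phi u) q (act_integral, act_sec). RA commutes
with Cas by Cas_right and differentiation under the integral, and with P because in the flat picture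
F^fl g = rho(Phi g) F g the operator is ∫ A(..) F^fl(g sec q) dmu = ∫ A(2((Phi g)⁻¹ SS q)₀₀) F^fl(sec q),
and P is -∑ E_i² on F^fl (right translations and equivariance).
-/

namespace Pool.Agent.Work.MP_14c213_gt

open Matrix MeasureTheory
open scoped Matrix ContDiff Matrix.Norms.Elementwise

noncomputable section

/-! ### Auxiliary facts -/

theorem ram_SS_one : SS (0, 1) = 1 := by
  unfold SS
  have h : sec (0, 1) = 1 := by
    unfold sec
    ext i j
    fin_cases i <;> fin_cases j <;> simp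
  rw [h, Phi_one]

theorem ram_cpt {A : ℝ → ℝ} (hA : Prof A) :
    ∃ K : Set UH, IsCompact K ∧ K ⊆ UHs ∧ ∀ q ∈ UHs, q ∉ K → A (2 * SS q 0 0) = 0 := by
  obtain ⟨M, hM⟩ := hA.supp
  have h1 : ({((0 : ℂ), (1 : ℝ))} : Set UH) ⊆ UHs := by
    rintro p rfl
    show (0 : ℝ) < 1
    exact one_pos
  refine ⟨{q | q ∈ UHs ∧ ∃ p ∈ ({((0 : ℂ), (1 : ℝ))} : Set UH), ((SS p)⁻¹ * SS q) 0 0 ≤ M / 2},
    dist_compact isCompact_singleton h1 (M / 2), fun q hq => hq.1, fun q hq hn => ?_⟩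
  apply hM
  by_contra hc
  apply hn
  refine ⟨hq, (0, 1), rfl, ?_⟩
  rw [ram_SS_one, inv_one, one_mul]
  linarith

theorem ram_SS_cont (a b : Fin 4) : ContinuousOn (fun q => SS q a b) UHs := by
  have h := SS_smooth.continuousOn
  exact (continuous_apply_apply a b).comp_continuousOn h

theorem ram_PM {A : ℝ → ℝ} (hA : Prof A) {K : Set UH} (hK : IsCompact K) (hKs : K ⊆ UHs) :
    PM mu K GLo UHs (fun q => A (2 * SS q 0 0)) where
  op := GLo_open
  op2 := UHs_open
  cpt := hK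
  sub := hKs
  int := by
    have h1 : ContinuousOn (fun q => A (2 * SS q 0 0)) K :=
      hA.cont.comp_continuousOn (continuousOn_const.mul ((ram_SS_cont 0 0).mono hKs))
    obtain ⟨C, hC⟩ := hK.exists_bound_of_continuousOn h1
    have : IsFiniteMeasure (mu.restrict K) :=
      ⟨by rw [Measure.restrict_apply_univ]; exact mu_finite hK hKs⟩
    exact Integrable.of_bound (h1.aestronglyMeasurable hK.measurableSet) C
      ((ae_restrict_iff' hK.measurableSet).2 (ae_of_all _ hC))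

/-- scalar multiplication as a bilinear map -/
def ramB (V : Type) [NormedAddCommGroup V] [NormedSpace ℝ V] : V →L[ℝ] ℝ →L[ℝ] V :=
  (ContinuousLinearMap.lsmul ℝ ℝ).flip

theorem ramB_apply {V : Type} [NormedAddCommGroup V] [NormedSpace ℝ V] (v : V) (c : ℝ) :
    ramB V v c = c • v := rfl

/-- the family -/
def ramPhi (k : ℕ) (F : M2 → Ix k → ℂ) : M2 × UH → Ix k → ℂ :=
  fun p => rho k (SS p.2) *ᵥ F (p.1 * sec p.2)

theorem ram_mulVec_smooth {k : ℕ} {S : Set (M2 × UH)} {M : M2 × UH → Matrix (Ix k) (Ix k) ℂ}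
    {v : M2 × UH → Ix k → ℂ} (hM : ContDiffOn ℝ ∞ M S) (hv : ContDiffOn ℝ ∞ v S) :
    ContDiffOn ℝ ∞ (fun p => M p *ᵥ v p) S := by
  rw [contDiffOn_pi]
  intro a
  unfold Matrix.mulVec dotProduct
  refine ContDiffOn.sum fun b _ => ?_
  refine ContDiffOn.mul ?_ ?_
  · exact (contDiffOn_pi.1 ((contDiffOn_pi.1 hM) a)) b
  · exact (contDiffOn_pi.1 hv) b

theorem ram_mul_smooth {V : Type} [NormedAddCommGroup V] [NormedSpace ℝ V]
    {F : M2 → V} (hF : ContDiffOn ℝ ∞ F GLo) :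
    ContDiffOn ℝ ∞ (fun p : M2 × UH => F (p.1 * sec p.2)) (GLo ×ˢ UHs) := by
  have h1 : ContDiff ℝ ∞ fun p : M2 × UH => p.1 * sec p.2 := by
    have a1 : ContDiff ℝ ∞ fun p : M2 × UH => sec p.2 := sec_smooth.comp contDiff_snd
    refine contDiff_pi.2 fun i => contDiff_pi.2 fun j => ?_
    simp only [Matrix.mul_apply]
    refine ContDiff.sum fun l _ => ContDiff.mul ?_ ?_
    · exact (contDiff_pi.1 ((contDiff_pi.1 contDiff_fst) i)) l
    · exact (contDiff_pi.1 ((contDiff_pi.1 a1) l)) j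
  exact hF.comp h1.contDiffOn fun p hp => GLo_mul hp.1 (sec_mem hp.2)

theorem ramPhi_smooth {k : ℕ} {F : M2 → Ix k → ℂ} (hF : ContDiffOn ℝ ∞ F GLo) :
    ContDiffOn ℝ ∞ (ramPhi k F) (GLo ×ˢ UHs) := by
  refine ram_mulVec_smooth ?_ (ram_mul_smooth hF)
  have h1 : ContDiffOn ℝ ∞ (fun q => rho k (SS q)) UHs := (rho_smooth k).comp_contDiffOn SS_smooth
  exact h1.comp contDiff_snd.contDiffOn fun p hp => hp.2

theorem ram_int {k : ℕ} {A : ℝ → ℝ} (hA : Prof A) {F : M2 → Ix k → ℂ}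
    (hF : ContDiffOn ℝ ∞ F GLo) {g : M2} (hg : g ∈ GLo) :
    IntegrableOn (fun q => ((A (2 * SS q 0 0) : ℝ) : ℂ) • (rho k (SS q) *ᵥ F (g * sec q))) UHs
      mu := by
  obtain ⟨K, hK, hKs, h0⟩ := ram_cpt hA
  have h1 := pm_int (B := ramB (Ix k → ℂ)) (ram_PM hA hK hKs) (ramPhi_smooth hF).continuousOn hg
  refine IntegrableOn.of_forall_sdiff_eq_zero (s := K) ?_ UHs_open.measurableSet ?_
  · refine h1.congr_fun (fun q hq => ?_) hK.measurableSet
    simp only [ramB_apply, ramPhi, Complex.coe_smul]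
  · intro q hq
    simp only [h0 q hq.1 hq.2, Complex.ofReal_zero, zero_smul]

theorem ram_eq {k : ℕ} {A : ℝ → ℝ} {K : Set UH} (hK : IsCompact K) (hKs : K ⊆ UHs)
    (h0 : ∀ q ∈ UHs, q ∉ K → A (2 * SS q 0 0) = 0) (F : M2 → Ix k → ℂ) {g : M2} (hg : g ∈ GLo) :
    RA k A F g = pmT mu K (ramB (Ix k → ℂ)) (fun q => A (2 * SS q 0 0)) (ramPhi k F) g := by
  unfold RA pmT
  rw [if_neg hg]
  rw [setIntegral_eq_of_subset_of_forall_sdiff_eq_zero UHs_open.measurableSet hKs]
  · refine setIntegral_congr_fun hK.measurableSet fun q hq => ?_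
    simp only [ramB_apply, ramPhi, Complex.coe_smul]
  · intro q hq
    simp only [h0 q hq.1 hq.2, Complex.ofReal_zero, zero_smul]

theorem ram_smooth {k : ℕ} {A : ℝ → ℝ} (hA : Prof A) {F : M2 → Ix k → ℂ}
    (hF : ContDiffOn ℝ ∞ F GLo) : ContDiffOn ℝ ∞ (RA k A F) GLo := by
  obtain ⟨K, hK, hKs, h0⟩ := ram_cpt hA
  exact (pm_smooth (B := ramB (Ix k → ℂ)) (ram_PM hA hK hKs) (ramPhi_smooth hF)).congr
    fun g hg => ram_eq hK hKs h0 F hg

theorem ram_unitary_GLo {u : M2} (hu : u ∈ Matrix.unitaryGroup (Fin 2) ℂ) : u ∈ GLo := by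
  intro h0
  have h1 := (Matrix.mem_unitaryGroup_iff).1 hu
  have h2 := congrArg Matrix.det h1
  rw [Matrix.det_mul, h0, zero_mul, Matrix.det_one] at h2
  exact zero_ne_one h2

theorem ram_act_image {A : Mat 3} (hA : A ∈ SO) : act A '' UHs = UHs := by
  obtain ⟨h1, -, -, h2, -⟩ := Frames_inv hA.1
  apply Set.Subset.antisymm
  · rintro _ ⟨p, hp, rfl⟩
    exact act_mem hA.1 hp
  · intro p hp
    refine ⟨act A⁻¹ p, act_mem h1 hp, ?_⟩
    rw [← act_mul hA.1 h1 hp, h2, act_one hp]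

theorem ram_rot_col (a : Matrix (Fin 3) (Fin 3) ℝ) (M : Mat 3) (b : Matrix (Fin 3) (Fin 3) ℝ) :
    (rot a * M * rot b) 0 0 = M 0 0 := by
  simp [Matrix.mul_apply, rot, Fin.sum_univ_succ]

/-- how frames and sections change under a rotation at the base point -/
theorem ram_act {k : ℕ} {Γ : Subgroup (Mat 3)ˣ} {F : M2 → Ix k → ℂ} (hF : F ∈ Sect (tau k) Γ)
    {u : M2} (hu : u ∈ Matrix.unitaryGroup (Fin 2) ℂ) {g : M2} (hg : g ∈ GLo) {q : UH}
    (hq : q ∈ UHs) : SS (act (Phi u) q) 0 0 = SS q 0 0 ∧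
      rho k (SS (act (Phi u) q)) *ᵥ F (g * sec (act (Phi u) q)) =
        tau k (Rot u) *ᵥ (rho k (SS q) *ᵥ F (g * u * sec q)) := by
  obtain ⟨z, hz, v, hv, he⟩ := act_sec (ram_unitary_GLo hu) hq
  have huG := ram_unitary_GLo hu
  have hvG := ram_unitary_GLo hv
  have hsG := sec_mem hq
  have h1 : SS (act (Phi u) q) = rot (Rot u) * SS q * rot (Rot v) := by
    unfold SS
    rw [he, Phi_smul hz, Phi_mul (GLo_mul huG hsG) hvG, Phi_mul huG hsG, (Phi_unitary hu).1,
      (Phi_unitary hv).1]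
  have h2 : F (g * sec (act (Phi u) q)) = tau k (Rot v)ᵀ *ᵥ F (g * u * sec q) := by
    rw [he, mul_smul_comm]
    have a1 : g * (u * sec q * v) = (g * u * sec q) * v := by simp only [mul_assoc]
    have a2 : g * u * sec q ∈ GLo := GLo_mul (GLo_mul hg huG) hsG
    rw [a1, hF.2.2.1 z hz _ (GLo_mul a2 hvG), hF.2.2.2.2 v hv _ a2]
  refine ⟨?_, ?_⟩
  · rw [h1, ram_rot_col]
  · rw [h1, h2]
    unfold tau
    simp only [Matrix.mulVec_mulVec]
    rw [← rho_mul, ← rho_mul]
    congr 2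
    have h3 : rot (Rot v) * rot (Rot v)ᵀ = 1 := by
      rw [← rot_mul, (Matrix.mem_orthogonalGroup_iff (Fin 3) ℝ).1 (Phi_unitary hv).2.1, rot_one]
    rw [mul_assoc, h3, mul_one]

theorem RA_mem {k : ℕ} {Γ : Subgroup (Mat 3)ˣ} {A : ℝ → ℝ} (hA : Prof A) {F : M2 → Ix k → ℂ}
    (hF : F ∈ Sect (tau k) Γ) : RA k A F ∈ Sect (tau k) Γ := by
  refine ⟨?_, ram_smooth hA hF.2.1, ?_, ?_, ?_⟩
  · intro g hg
    have h0 : g.det = 0 := not_not.1 hg
    unfold RA
    rw [if_pos h0]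
  · intro z hz g hg
    have hzg : z • g ∈ GLo := by
      show (z • g).det ≠ 0
      rw [Matrix.det_smul]
      exact mul_ne_zero (pow_ne_zero _ hz) hg
    unfold RA
    rw [if_neg hg, if_neg hzg]
    refine setIntegral_congr_fun UHs_open.measurableSet fun q hq => ?_
    rw [smul_mul_assoc, hF.2.2.1 z hz _ (GLo_mul hg (sec_mem hq))]
  · intro γ hγ h hh he g hg
    unfold RA
    rw [if_neg hg, if_neg (GLo_mul hh hg)]
    refine setIntegral_congr_fun UHs_open.measurableSet fun q hq => ?_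
    rw [mul_assoc, hF.2.2.2.1 γ hγ h hh he _ (GLo_mul hg (sec_mem hq))]
  · intro u hu g hg
    have huG := ram_unitary_GLo hu
    have hSO : Phi u ∈ SO := Phi_SO huG
    have h1 : RA k A F g = tau k (Rot u) *ᵥ RA k A F (g * u) := by
      have hgu := GLo_mul hg huG
      have e1 : RA k A F g = ∫ q in UHs, tau k (Rot u) *ᵥ
          (((A (2 * SS q 0 0) : ℝ) : ℂ) • (rho k (SS q) *ᵥ F (g * u * sec q))) ∂mu := by
        unfold RA
        rw [if_neg hg]
        conv_lhs => rw [← ram_act_image hSO]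
        rw [act_integral hSO _ UHs_open.measurableSet subset_rfl]
        refine setIntegral_congr_fun UHs_open.measurableSet fun q hq => ?_
        obtain ⟨a1, a2⟩ := ram_act hF hu hg hq
        rw [a1, a2, Matrix.mulVec_smul]
      rw [e1]
      have h2 := ram_int hA hF.2.1 hgu
      have h3 := (linMv (tau k (Rot u))).integral_comp_comm h2
      simp only [linMv_apply] at h3
      rw [h3]
      unfold RA
      rw [if_neg hgu]
    rw [h1, Matrix.mulVec_mulVec]
    unfold tau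
    rw [← rho_mul, ← rot_mul, (Matrix.mem_orthogonalGroup_iff' (Fin 3) ℝ).1
      (Phi_unitary hu).2.1, rot_one, rho_one, Matrix.one_mulVec]

theorem RA_add {k : ℕ} {Γ : Subgroup (Mat 3)ˣ} {A : ℝ → ℝ} (hA : Prof A) {F G : M2 → Ix k → ℂ}
    (hF : F ∈ Sect (tau k) Γ) (hG : G ∈ Sect (tau k) Γ) : RA k A (F + G) = RA k A F + RA k A G := by
  funext g
  rw [Pi.add_apply]
  by_cases hg : g ∈ GLo
  · unfold RA
    rw [if_neg hg, if_neg hg, if_neg hg, ← integral_add (ram_int hA hF.2.1 hg)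
      (ram_int hA hG.2.1 hg)]
    refine setIntegral_congr_fun UHs_open.measurableSet fun q hq => ?_
    simp only [Pi.add_apply, Matrix.mulVec_add, smul_add]
  · have h0 : g.det = 0 := not_not.1 hg
    unfold RA
    rw [if_pos h0, if_pos h0, if_pos h0, add_zero]

theorem RA_smul {k : ℕ} {A : ℝ → ℝ} (c : ℂ) (F : M2 → Ix k → ℂ) :
    RA k A (c • F) = c • RA k A F := by
  funext g
  rw [Pi.smul_apply]
  unfold RA
  split_ifs with h
  · rw [smul_zero]
  · rw [← integral_smul]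
    refine integral_congr_ae (ae_of_all _ fun q => ?_)
    simp only [Pi.smul_apply, Matrix.mulVec_smul]
    rw [smul_comm]

/-- RA on sections. -/
def RL (k : ℕ) (Γ : Subgroup (Mat 3)ˣ) (A : ℝ → ℝ) (hA : Prof A) :
    Module.End ℂ (Sect (tau k) Γ) where
  toFun F := ⟨RA k A F.1, RA_mem hA F.2⟩
  map_add' F G := Subtype.ext (RA_add hA F.2 G.2)
  map_smul' c F := Subtype.ext (RA_smul c F.1)

/-- `Cas` can be applied under the integral sign. -/
theorem ram_Cas_pm {Y V W : Type} [NormedAddCommGroup Y] [NormedSpace ℝ Y] [NormedAddCommGroup V]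
    [NormedSpace ℝ V] [NormedAddCommGroup W] [NormedSpace ℝ W] {K : Set UH} {b : UH → Y}
    {B : V →L[ℝ] Y →L[ℝ] W} (h : PM mu K GLo UHs b) {φ : M2 × UH → V}
    (hφ : ContDiffOn ℝ ∞ φ (GLo ×ˢ UHs)) {g : M2} (hg : g ∈ GLo) :
    Cas (pmT mu K B b φ) g = ∫ q in K, B (Cas (fun x => φ (x, q)) g) (b q) ∂mu := by
  have h1 : ∀ X : M2, E X (E X (pmT mu K B b φ)) g =
      ∫ q in K, B (E X (E X (fun x => φ (x, q))) g) (b q) ∂mu := fun X =>
    pm_cgE2 h hφ hg (cgMk (LinearMap.mulRight ℝ X))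
  have h2 : ∀ X : M2, IntegrableOn (fun q => B (E X (E X (fun x => φ (x, q))) g) (b q)) K mu :=
    fun X => pm_int h (pmE_smooth h.op h.op2 (pmE_smooth h.op h.op2 hφ
      (cgMk (LinearMap.mulRight ℝ X))) (cgMk (LinearMap.mulRight ℝ X))).continuousOn hg
  unfold Cas
  simp only [h1]
  rw [← integral_finsetSum _ fun i _ => h2 (eX i), ← integral_finsetSum _ fun i _ => h2 (rX i),
    ← integral_neg, ← integral_add]
  · refine setIntegral_congr_fun h.cpt.measurableSet fun q hq => ?_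
    simp only [map_add, map_neg, map_sum, _root_.add_apply, _root_.neg_apply,
      _root_.sum_apply]
  · exact (integrable_finsetSum _ fun i _ => h2 (eX i)).neg
  · exact integrable_finsetSum _ fun i _ => h2 (rX i)

theorem RL_Cas (k : ℕ) (Γ : Subgroup (Mat 3)ˣ) (A : ℝ → ℝ) (hA : Prof A) :
    Commute (RL k Γ A hA) (CasL k Γ) := by
  apply LinearMap.ext
  intro F
  refine lin_sect_ext fun g hg => ?_
  show RA k A (Cas F.1) g = Cas (RA k A F.1) g
  obtain ⟨K, hK, hKs, h0⟩ := ram_cpt hA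
  have hPM := ram_PM hA hK hKs
  rw [lin_cas_congr (fun x hx => ram_eq hK hKs h0 F.1 hx) hg,
    ram_Cas_pm hPM (ramPhi_smooth F.2.2.1) hg, ram_eq hK hKs h0 _ hg]
  unfold pmT
  refine setIntegral_congr_fun hK.measurableSet fun q hq => ?_
  have hs := sec_mem (hKs hq)
  have h1 : ContDiffOn ℝ ∞ (fun x => F.1 (x * sec q)) GLo := by
    have := (ram_mul_smooth F.2.2.1)
    exact this.comp (contDiff_id.prodMk contDiff_const).contDiffOn fun x hx => ⟨hx, hKs hq⟩
  have h2 : Cas (fun x => ramPhi k F.1 (x, q)) g = rho k (SS q) *ᵥ Cas F.1 (g * sec q) := by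
    have := Cas_clm h1 (linMv (rho k (SS q))) hg
    rw [Cas_right F.2.2.1 hg hs] at this
    exact this
  simp only [h2]
  rfl

end

end Pool.Agent.Work.MP_14c213_gt
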