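import Pool.Agent.Work.MP_14c213_gt.A.SphM
import Pool.Agent.Work.MP_14c213_gt.A.RAM

/-!
RA acts on eigensections of P by the spherical transform: apply sph_mean to
F^fl g = rho (Phi g) F g, for which -∑ E_i² F^fl g = rho (Phi g) (Pop k F g) (Phi_bst_deriv, rho_deriv).
-/

namespace Pool.Agent.Work.MP_14c213_gt

open Matrix MeasureTheory
open scoped Matrix ContDiff Matrix.Norms.Elementwise

noncomputable section

private theorem EigM_mulVec_deriv {k : ℕ} {M : ℝ → Matrix (Ix k) (Ix k) ℂ} {v : ℝ → Ix k → ℂ}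
    {M' : Matrix (Ix k) (Ix k) ℂ} {v' : Ix k → ℂ} {t : ℝ} (hM : HasDerivAt M M' t)
    (hv : HasDerivAt v v' t) :
    HasDerivAt (fun s => M s *ᵥ v s) (M' *ᵥ v t + M t *ᵥ v') t := by
  rw [hasDerivAt_pi]
  intro a
  have h1 : ∀ b, HasDerivAt (fun s => M s a b) (M' a b) t := fun b =>
    hasDerivAt_pi.mp (hasDerivAt_pi.mp hM a) b
  have h2 : ∀ b, HasDerivAt (fun s => v s b) (v' b) t := fun b => hasDerivAt_pi.mp hv b
  have h3 : HasDerivAt (fun s => ∑ b, M s a b * v s b) (∑ b, (M' a b * v t b + M t a b * v' b)) t :=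
    HasDerivAt.fun_sum fun b _ => (h1 b).mul (h2 b)
  have h4 : (M' *ᵥ v t + M t *ᵥ v') a = ∑ b, (M' a b * v t b + M t a b * v' b) := by
    rw [Finset.sum_add_distrib]
    rfl
  rw [h4]
  exact h3

private theorem EigM_smooth {k : ℕ} {G : M2 → Ix k → ℂ} (hG : ContDiffOn ℝ ∞ G GLo) :
    ContDiffOn ℝ ∞ (fun g => rho k (Phi g) *ᵥ G g) GLo := by
  rw [contDiffOn_pi]
  intro a
  have h1 : ∀ b, ContDiffOn ℝ ∞ (fun g => rho k (Phi g) a b) GLo := fun b =>
    contDiffOn_pi.mp (contDiffOn_pi.mp ((rho_smooth k).comp_contDiffOn Phi_smooth) a) b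
  have h2 : ∀ b, ContDiffOn ℝ ∞ (fun g => G g b) GLo := fun b => contDiffOn_pi.mp hG b
  have h3 : ContDiffOn ℝ ∞ (fun g => ∑ b, rho k (Phi g) a b * G g b) GLo :=
    ContDiffOn.sum fun b _ => (h1 b).mul (h2 b)
  exact h3

private theorem EigM_E {k : ℕ} {G : M2 → Ix k → ℂ} (hG : ContDiffOn ℝ ∞ G GLo) (i : Fin 3) {g : M2}
    (hg : g ∈ GLo) :
    E (eX i) (fun g => rho k (Phi g) *ᵥ G g) g = rho k (Phi g) *ᵥ Dfl k i G g := by
  set c : ℝ → M2 := fun s => g * bst i s with hc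
  have hc0 : c 0 = g := by simp [hc, bst_zero]
  have hcd : HasDerivAt c (c 0 * eX i) 0 := by
    have h1 := bst_deriv i 0
    have h2 : HasDerivAt (fun s => cgMk (LinearMap.mulLeft ℝ g) (bst i s))
        (cgMk (LinearMap.mulLeft ℝ g) (bst i 0 * eX i)) 0 :=
      (cgMk (LinearMap.mulLeft ℝ g)).hasFDerivAt.comp_hasDerivAt 0 h1
    have h3 : cgMk (LinearMap.mulLeft ℝ g) (bst i 0 * eX i) = c 0 * eX i := by
      rw [cgMk_apply, LinearMap.mulLeft_apply, hc]
      simp only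
      rw [Matrix.mul_assoc]
    rw [h3] at h2
    exact h2
  have hbst : ∀ s, bst i s ∈ GLo := by
    intro s
    show (bst i s).det ≠ 0
    rw [bst_det]
    exact one_ne_zero
  have h0 : c 0 ∈ GLo := by rw [hc0]; exact hg
  have h1 := E_curve (EigM_smooth hG) hcd h0
  have h2 := E_curve hG hcd h0
  have hP : HasDerivAt (fun s => Phi g * Phi (bst i s)) ((Phi g * Phi (bst i 0)) * bY i) 0 := by
    have h3 := Phi_bst_deriv i 0
    have h4 : HasDerivAt (fun s => cgMk (LinearMap.mulLeft ℝ (Phi g)) (Phi (bst i s)))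
        (cgMk (LinearMap.mulLeft ℝ (Phi g)) (Phi (bst i 0) * bY i)) 0 :=
      (cgMk (LinearMap.mulLeft ℝ (Phi g))).hasFDerivAt.comp_hasDerivAt 0 h3
    have h5 : cgMk (LinearMap.mulLeft ℝ (Phi g)) (Phi (bst i 0) * bY i)
        = (Phi g * Phi (bst i 0)) * bY i := by
      rw [cgMk_apply, LinearMap.mulLeft_apply, Matrix.mul_assoc]
    rw [h5] at h4
    exact h4
  have h3 := EigM_mulVec_deriv (rho_deriv k hP) h2
  have h4 : (fun s => rho k (Phi g * Phi (bst i s)) *ᵥ G (c s))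
      = fun s => (fun g => rho k (Phi g) *ᵥ G g) (c s) := by
    funext s
    simp only [hc]
    rw [Phi_mul hg (hbst s)]
  rw [h4] at h3
  have h5 := h1.unique h3
  rw [hc0] at h5
  rw [h5, bst_zero, Phi_one, Matrix.mul_one]
  unfold Dfl
  rw [Matrix.mulVec_add, Matrix.mulVec_mulVec, add_comm]

private theorem EigM_Dfl_smooth {k : ℕ} {G : M2 → Ix k → ℂ} (hG : ContDiffOn ℝ ∞ G GLo) (i : Fin 3) :
    ContDiffOn ℝ ∞ (Dfl k i G) GLo := by
  unfold Dfl
  apply (E_smooth hG _).add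
  rw [contDiffOn_pi]
  intro a
  have h2 : ∀ b, ContDiffOn ℝ ∞ (fun g => G g b) GLo := fun b => contDiffOn_pi.mp hG b
  have h3 : ContDiffOn ℝ ∞ (fun g => ∑ b, drho k (bY i) a b * G g b) GLo :=
    ContDiffOn.sum fun b _ => contDiffOn_const.mul (h2 b)
  exact h3

theorem RL_eig {k : ℕ} {Γ : Subgroup (Mat 3)ˣ} {F : Sect (tau k) Γ} {x : ℂ}
    (hF : PL k Γ F = x • F) {A : ℝ → ℝ} (hA : Prof A) :
    RL k Γ A hA F = ahat A x • F := by
  apply Subtype.ext
  show RA k A F.1 = ahat A x • F.1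
  funext g
  by_cases hg : g ∈ GLo
  swap
  · have hd : g.det = 0 := not_not.mp hg
    show (if g.det = 0 then 0 else _) = ahat A x • F.1 g
    rw [if_pos hd, F.2.1 g hg, smul_zero]
  obtain ⟨hF0, hFs, hFz, hFΓ, hFu⟩ := F.2
  have hpop : ∀ g, Pop k F.1 g = x • F.1 g := fun g => congrFun (congrArg Subtype.val hF) g
  -- the flat picture
  have hz : ∀ z : ℂ, z ≠ 0 → ∀ g ∈ GLo, (fun g => rho k (Phi g) *ᵥ F.1 g) (z • g)
      = (fun g => rho k (Phi g) *ᵥ F.1 g) g := by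
    intro z hz g hg
    simp only
    rw [Phi_smul hz, hFz z hz g hg]
  have hu : ∀ u ∈ Matrix.unitaryGroup (Fin 2) ℂ, ∀ g ∈ GLo,
      (fun g => rho k (Phi g) *ᵥ F.1 g) (g * u) = (fun g => rho k (Phi g) *ᵥ F.1 g) g := by
    intro u hu g hg
    simp only
    have huG : u ∈ GLo := by
      show u.det ≠ 0
      intro h0
      have h1 : u * star u = 1 := Unitary.mul_star_self_of_mem hu
      have h2 := congrArg Matrix.det h1
      rw [Matrix.det_mul, h0, zero_mul, Matrix.det_one] at h2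
      exact zero_ne_one h2
    obtain ⟨hPu, hRu, -⟩ := Phi_unitary hu
    rw [hFu u hu g hg, Phi_mul hg huG, rho_mul, hPu]
    unfold tau
    rw [Matrix.mulVec_mulVec, Matrix.mul_assoc, ← rho_mul, ← rot_mul]
    have h3 : Rot u * (Rot u)ᵀ = 1 := (Matrix.mem_orthogonalGroup_iff (Fin 3) ℝ).mp hRu
    rw [h3, rot_one, rho_one, Matrix.mul_one]
  have hx : ∀ g ∈ GLo, -∑ i, E (eX i) (E (eX i) (fun g => rho k (Phi g) *ᵥ F.1 g)) g
      = x • (fun g => rho k (Phi g) *ᵥ F.1 g) g := by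
    intro g hg
    have h1 : ∀ i, E (eX i) (E (eX i) (fun g => rho k (Phi g) *ᵥ F.1 g)) g
        = rho k (Phi g) *ᵥ Dfl k i (Dfl k i F.1) g := by
      intro i
      rw [E_congr (G := fun g => rho k (Phi g) *ᵥ Dfl k i F.1 g)
        (fun g hg => EigM_E hFs i hg) (eX i) hg]
      exact EigM_E (EigM_Dfl_smooth hFs i) i hg
    simp only [h1]
    have h2 := hpop g
    unfold Pop at h2
    rw [← Matrix.mulVec_smul, ← h2, Matrix.mulVec_neg, Matrix.mulVec_sum]
  have hmean := sph_mean (EigM_smooth hFs) hz hu x hx hA hg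
  -- the invertible matrix
  have hinv := Frames_inv (Phi_SO hg).1
  have e1 : rho k (Phi g) * rho k (Phi g)⁻¹ = 1 := by rw [← rho_mul, hinv.2.2.2.1, rho_one]
  have e2 : rho k (Phi g)⁻¹ * rho k (Phi g) = 1 := by rw [← rho_mul, hinv.2.2.2.2, rho_one]
  set L : (Ix k → ℂ) ≃ₗ[ℂ] (Ix k → ℂ) :=
    { toFun := fun v => rho k (Phi g) *ᵥ v
      invFun := fun v => rho k (Phi g)⁻¹ *ᵥ v
      map_add' := fun v w => Matrix.mulVec_add _ v w
      map_smul' := fun c v => Matrix.mulVec_smul _ c v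
      left_inv := fun v => by simp only; rw [Matrix.mulVec_mulVec, e2, Matrix.one_mulVec]
      right_inv := fun v => by simp only; rw [Matrix.mulVec_mulVec, e1, Matrix.one_mulVec] }
      with hL
  set Lc : (Ix k → ℂ) ≃L[ℂ] (Ix k → ℂ) := L.toContinuousLinearEquiv with hLc
  have hLc' : ∀ v, Lc v = rho k (Phi g) *ᵥ v := fun v => rfl
  have h6 : ∀ q ∈ UHs, ((A (2 * SS q 0 0) : ℝ) : ℂ) • ((fun g => rho k (Phi g) *ᵥ F.1 g) (g * sec q))
      = Lc (((A (2 * SS q 0 0) : ℝ) : ℂ) • (rho k (SS q) *ᵥ F.1 (g * sec q))) := by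
    intro q hq
    rw [hLc']
    simp only
    rw [Phi_mul hg (sec_mem hq), rho_mul, Matrix.mulVec_smul, Matrix.mulVec_mulVec]
    rfl
  rw [setIntegral_congr_fun UHs_open.measurableSet h6, Lc.integral_comp_comm] at hmean
  have h7 : RA k A F.1 g = ∫ q in UHs, ((A (2 * SS q 0 0) : ℝ) : ℂ) •
      (rho k (SS q) *ᵥ F.1 (g * sec q)) ∂mu := by
    show (if g.det = 0 then 0 else _) = _
    rw [if_neg hg]
  rw [← h7] at hmean
  apply Lc.injective
  rw [hmean]
  show ahat A x • (rho k (Phi g) *ᵥ F.1 g) = rho k (Phi g) *ᵥ (ahat A x • F.1 g)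
  rw [Matrix.mulVec_smul]

end

end Pool.Agent.Work.MP_14c213_gt
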