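import Pool.Agent.Work.MP_14c213_gt.ADefs

/-!
Integral operators with bounded kernels on L² of a finite measure space (Mathlib only).
T f x = ∫ K x y *ᵥ f y. Adjoint and product by Fubini. Compactness: ∑ ‖T b_i‖² < ∞ for a Hilbert
basis (Bessel on the rows), so T is a norm limit of finite rank operators. Trace pairing: true for
kernels 1_A(x) 1_B(y) E_cd (Parseval), then for indicators of measurable subsets of X × X
(induction_on_inter, both sides are controlled by the Hilbert-Schmidt norm), simple functions and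
bounded measurable functions.
-/

namespace Pool.Agent.Work.MP_14c213_gt

open Matrix MeasureTheory
open scoped Matrix ContDiff Matrix.Norms.Elementwise

noncomputable section

section

variable {X : Type} [MeasurableSpace X] (ν : Measure X) [IsFiniteMeasure ν] {J : Type} [Fintype J]

/-- Bounded measurable kernels. -/
structure Ker (K : X → X → Matrix J J ℂ) : Prop where
  meas : ∀ a b, Measurable fun p : X × X => K p.1 p.2 a b
  bdd : ∃ M : ℝ, ∀ x y a b, ‖K x y a b‖ ≤ M

/-- The operator `T` is the integral operator with kernel `K`. -/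
def HasKer (T : Lp (EuclideanSpace ℂ J) 2 ν →L[ℂ] Lp (EuclideanSpace ℂ J) 2 ν)
    (K : X → X → Matrix J J ℂ) : Prop :=
  ∀ f, ∀ᵐ x ∂ν, ∀ a, (T f : X → EuclideanSpace ℂ J) x a =
    ∫ y, ∑ b, K x y a b * (f : X → EuclideanSpace ℂ J) y b ∂ν

/-! ### rows -/

private theorem io_eucl_norm_le {v : EuclideanSpace ℂ J} {M : ℝ} (h : ∀ b, ‖v b‖ ≤ M) :
    ‖v‖ ≤ √(Fintype.card J * M ^ 2) := by
  rw [EuclideanSpace.norm_eq]
  apply Real.sqrt_le_sqrt
  calc ∑ i, ‖v i‖ ^ 2 ≤ ∑ _i : J, M ^ 2 :=
        Finset.sum_le_sum fun i _ => pow_le_pow_left₀ (norm_nonneg _) (h i) 2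
    _ = Fintype.card J * M ^ 2 := by simp

private theorem io_eucl_inner (v w : EuclideanSpace ℂ J) :
    inner ℂ v w = ∑ b, starRingEnd ℂ (v b) * w b := by
  simp [PiLp.inner_apply, RCLike.inner_apply, mul_comm]

private def io_rowF (K : X → X → Matrix J J ℂ) (x : X) (a : J) : X → EuclideanSpace ℂ J :=
  fun y => WithLp.toLp 2 fun b => starRingEnd ℂ (K x y a b)

private theorem io_toLp_meas {Y : Type} [MeasurableSpace Y] {g : Y → J → ℂ}
    (hg : ∀ b, StronglyMeasurable fun y => g y b) :
    StronglyMeasurable fun y => (WithLp.toLp 2 (g y) : EuclideanSpace ℂ J) := by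
  have h1 : StronglyMeasurable g :=
    (measurable_pi_iff.2 fun b => (hg b).measurable).stronglyMeasurable
  exact (PiLp.continuous_toLp 2 (fun _ : J => ℂ)).comp_stronglyMeasurable h1

private theorem io_coord_meas {Y : Type} [MeasurableSpace Y] {g : Y → EuclideanSpace ℂ J}
    (hg : StronglyMeasurable g) (b : J) : StronglyMeasurable fun y => g y b := by
  have : Continuous fun v : EuclideanSpace ℂ J => v b := by fun_prop
  exact this.comp_stronglyMeasurable hg

private theorem io_rowF_memLp {K : X → X → Matrix J J ℂ} (hK : Ker K) (x : X) (a : J) :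
    MemLp (io_rowF K x a) 2 ν := by
  obtain ⟨M, hM⟩ := hK.bdd
  refine MemLp.of_bound (C := √(Fintype.card J * M ^ 2)) ?_ ?_
  · refine (io_toLp_meas fun b => ?_).aestronglyMeasurable
    have h1 : Measurable fun y => K x y a b := (hK.meas a b).comp measurable_prodMk_left
    exact (Complex.continuous_conj.measurable.comp h1).stronglyMeasurable
  · refine Filter.Eventually.of_forall fun y => io_eucl_norm_le fun b => ?_
    simp only [io_rowF, RCLike.norm_conj]
    exact hM _ _ _ _

private def io_row {K : X → X → Matrix J J ℂ} (hK : Ker K) (x : X) (a : J) :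
    Lp (EuclideanSpace ℂ J) 2 ν := (io_rowF_memLp ν hK x a).toLp

private theorem io_inner_row {K : X → X → Matrix J J ℂ} (hK : Ker K) (x : X) (a : J)
    (f : Lp (EuclideanSpace ℂ J) 2 ν) :
    inner ℂ (io_row ν hK x a) f = ∫ y, ∑ b, K x y a b * (f : X → EuclideanSpace ℂ J) y b ∂ν := by
  rw [L2.inner_def]
  refine integral_congr_ae ?_
  filter_upwards [MemLp.coeFn_toLp (io_rowF_memLp ν hK x a)] with y hy
  rw [io_row, hy, io_eucl_inner]
  simp [io_rowF]

private theorem io_row_sq {K : X → X → Matrix J J ℂ} (hK : Ker K) (x : X) (a : J) :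
    ‖io_row ν hK x a‖ ^ 2 = ∫ y, ∑ b, ‖K x y a b‖ ^ 2 ∂ν := by
  have h1 : ((‖io_row ν hK x a‖ ^ 2 : ℝ) : ℂ) = ((∫ y, ∑ b, ‖K x y a b‖ ^ 2 ∂ν : ℝ) : ℂ) := by
    have h2 := inner_self_eq_norm_sq_to_K (𝕜 := ℂ) (io_row ν hK x a)
    rw [Complex.ofReal_pow]
    refine h2.symm.trans ?_
    rw [L2.inner_def, ← integral_complex_ofReal]
    refine integral_congr_ae ?_
    filter_upwards [MemLp.coeFn_toLp (io_rowF_memLp ν hK x a)] with y hy
    rw [io_row, hy, inner_self_eq_norm_sq_to_K, EuclideanSpace.norm_eq]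
    have h3 : ∀ b, ‖(io_rowF K x a y) b‖ = ‖K x y a b‖ := fun b => by
      simp only [io_rowF, RCLike.norm_conj]
    simp only [h3]
    rw [← Complex.coe_algebraMap, ← map_pow, Real.sq_sqrt (by positivity)]
  exact_mod_cast h1

private theorem io_row_norm_le {K : X → X → Matrix J J ℂ} (hK : Ker K) :
    ∃ C : ℝ, 0 ≤ C ∧ ∀ x a, ‖io_row ν hK x a‖ ≤ C := by
  obtain ⟨M, hM⟩ := hK.bdd
  refine ⟨(measureUnivNNReal ν : ℝ) ^ (2 : ENNReal).toReal⁻¹ * √(Fintype.card J * M ^ 2),
    by positivity, fun x a => ?_⟩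
  refine Lp.norm_le_of_ae_bound (Real.sqrt_nonneg _) ?_
  filter_upwards [MemLp.coeFn_toLp (io_rowF_memLp ν hK x a)] with y hy
  rw [io_row, hy]
  refine io_eucl_norm_le fun b => ?_
  simp only [io_rowF, RCLike.norm_conj]
  exact hM _ _ _ _

/-- the function `x ↦ ∫ K(x, y) f(y) dy` -/
private def io_g (K : X → X → Matrix J J ℂ) (f : Lp (EuclideanSpace ℂ J) 2 ν) :
    X → EuclideanSpace ℂ J :=
  fun x => WithLp.toLp 2 fun a => ∫ y, ∑ b, K x y a b * (f : X → EuclideanSpace ℂ J) y b ∂ν

private theorem io_int_meas {K : X → X → Matrix J J ℂ} (hK : Ker K)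
    (f : Lp (EuclideanSpace ℂ J) 2 ν) (a : J) :
    StronglyMeasurable fun x => ∫ y, ∑ b, K x y a b * (f : X → EuclideanSpace ℂ J) y b ∂ν := by
  refine StronglyMeasurable.integral_prod_right' (f := fun p : X × X =>
    ∑ b, K p.1 p.2 a b * (f : X → EuclideanSpace ℂ J) p.2 b) ?_
  refine Finset.stronglyMeasurable_fun_sum _ fun b _ => ?_
  exact (hK.meas a b).stronglyMeasurable.mul
    ((io_coord_meas (Lp.stronglyMeasurable f) b).comp_measurable measurable_snd)

private theorem io_g_meas {K : X → X → Matrix J J ℂ} (hK : Ker K)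
    (f : Lp (EuclideanSpace ℂ J) 2 ν) : StronglyMeasurable (io_g ν K f) :=
  io_toLp_meas fun a => io_int_meas ν hK f a

private theorem io_g_le {K : X → X → Matrix J J ℂ} (hK : Ker K) {C : ℝ}
    (hC : ∀ x a, ‖io_row ν hK x a‖ ≤ C) (f : Lp (EuclideanSpace ℂ J) 2 ν) (x : X) :
    ‖io_g ν K f x‖ ≤ √(Fintype.card J * (C * ‖f‖) ^ 2) := by
  refine io_eucl_norm_le fun a => ?_
  simp only [io_g]
  rw [← io_inner_row ν hK]
  exact (norm_inner_le_norm _ _).trans (mul_le_mul_of_nonneg_right (hC _ _) (norm_nonneg _))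

private theorem io_g_memLp {K : X → X → Matrix J J ℂ} (hK : Ker K)
    (f : Lp (EuclideanSpace ℂ J) 2 ν) : MemLp (io_g ν K f) 2 ν := by
  obtain ⟨C, -, hC⟩ := io_row_norm_le ν hK
  exact MemLp.of_bound (io_g_meas ν hK f).aestronglyMeasurable _
    (Filter.Eventually.of_forall fun x => io_g_le ν hK hC f x)

theorem hasKer_exists {K : X → X → Matrix J J ℂ} (hK : Ker K) : ∃ T, HasKer ν T K := by
  obtain ⟨C, hC0, hC⟩ := io_row_norm_le ν hK
  let L : Lp (EuclideanSpace ℂ J) 2 ν →ₗ[ℂ] Lp (EuclideanSpace ℂ J) 2 ν :=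
    { toFun := fun f => (io_g_memLp ν hK f).toLp
      map_add' := fun f g => by
        rw [← MemLp.toLp_add]
        congr 1
        funext x
        simp only [io_g, Pi.add_apply, ← io_inner_row ν hK, inner_add_right]
        rfl
      map_smul' := fun c f => by
        simp only [RingHom.id_apply]
        rw [← MemLp.toLp_const_smul]
        congr 1
        funext x
        simp only [io_g, Pi.smul_apply, ← io_inner_row ν hK, inner_smul_right]
        rfl }
  refine ⟨L.mkContinuous ((measureUnivNNReal ν : ℝ) ^ (2 : ENNReal).toReal⁻¹ *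
    (√(Fintype.card J) * C)) ?_, ?_⟩
  · intro f
    have h1 : ‖L f‖ ≤ (measureUnivNNReal ν : ℝ) ^ (2 : ENNReal).toReal⁻¹ *
        √(Fintype.card J * (C * ‖f‖) ^ 2) := by
      refine Lp.norm_le_of_ae_bound (Real.sqrt_nonneg _) ?_
      filter_upwards [MemLp.coeFn_toLp (io_g_memLp ν hK f)] with x hx
      change ‖((io_g_memLp ν hK f).toLp : X → EuclideanSpace ℂ J) x‖ ≤ _
      rw [hx]
      exact io_g_le ν hK hC f x
    rw [Real.sqrt_mul (by positivity), Real.sqrt_sq (by positivity)] at h1
    calc ‖L f‖ ≤ _ := h1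
      _ = _ := by ring
  · intro f
    filter_upwards [MemLp.coeFn_toLp (io_g_memLp ν hK f)] with x hx a
    change ((io_g_memLp ν hK f).toLp : X → EuclideanSpace ℂ J) x a = _
    rw [hx]
    rfl

theorem hasKer_unique {K : X → X → Matrix J J ℂ}
    {T T' : Lp (EuclideanSpace ℂ J) 2 ν →L[ℂ] Lp (EuclideanSpace ℂ J) 2 ν}
    (h : HasKer ν T K) (h' : HasKer ν T' K) : T = T' := by
  ext f
  filter_upwards [h f, h' f] with x h1 h2
  ext a
  rw [h1, h2]

/-- integrability of products on `X × X` -/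
private theorem io_prod_int {K : X → X → Matrix J J ℂ} (hK : Ker K)
    (f g : Lp (EuclideanSpace ℂ J) 2 ν) (a b : J) :
    Integrable (fun p : X × X => starRingEnd ℂ ((g : X → EuclideanSpace ℂ J) p.1 a) *
      K p.1 p.2 a b * (f : X → EuclideanSpace ℂ J) p.2 b) (ν.prod ν) := by
  obtain ⟨M, hM⟩ := hK.bdd
  have hcoord : ∀ (f : Lp (EuclideanSpace ℂ J) 2 ν) (b : J),
      Integrable (fun y => (f : X → EuclideanSpace ℂ J) y b) ν := by
    intro f b
    have h1 : Integrable (f : X → EuclideanSpace ℂ J) ν := (Lp.memLp f).integrable (by norm_num)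
    refine h1.mono (io_coord_meas (Lp.stronglyMeasurable f) b).aestronglyMeasurable
      (Filter.Eventually.of_forall fun y => ?_)
    exact PiLp.norm_apply_le _ _
  have h2 : Integrable (fun y => starRingEnd ℂ ((g : X → EuclideanSpace ℂ J) y a)) ν :=
    (Complex.conjLIE.toContinuousLinearEquiv.toContinuousLinearMap).integrable_comp (hcoord g a)
  have h3 := h2.mul_prod (hcoord f b)
  have h4 := h3.bdd_mul (f := fun p : X × X => K p.1 p.2 a b) (c := M)
    (hK.meas a b).aestronglyMeasurable (Filter.Eventually.of_forall fun p => hM _ _ _ _)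
  refine h4.congr (Filter.Eventually.of_forall fun p => ?_)
  simp only
  ring

private theorem io_prod_int2 {K : X → X → Matrix J J ℂ} (hK : Ker K)
    (f g : Lp (EuclideanSpace ℂ J) 2 ν) :
    Integrable (fun p : X × X => ∑ a, ∑ b, starRingEnd ℂ ((g : X → EuclideanSpace ℂ J) p.1 a) *
      K p.1 p.2 a b * (f : X → EuclideanSpace ℂ J) p.2 b) (ν.prod ν) :=
  integrable_finsetSum _ fun a _ => integrable_finsetSum _ fun b _ => io_prod_int ν hK f g a b

/-- the sesquilinear form -/
private theorem io_inner_T {K : X → X → Matrix J J ℂ} (hK : Ker K)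
    {T : Lp (EuclideanSpace ℂ J) 2 ν →L[ℂ] Lp (EuclideanSpace ℂ J) 2 ν} (h : HasKer ν T K)
    (f g : Lp (EuclideanSpace ℂ J) 2 ν) :
    inner ℂ g (T f) = ∫ x, ∫ y, ∑ a, ∑ b, starRingEnd ℂ ((g : X → EuclideanSpace ℂ J) x a) *
      K x y a b * (f : X → EuclideanSpace ℂ J) y b ∂ν ∂ν := by
  rw [L2.inner_def]
  refine integral_congr_ae ?_
  have h0 := fun (a : J) => (io_row ν hK · a)
  filter_upwards [h f] with x hx
  rw [io_eucl_inner]
  have h1 : ∀ a, Integrable (fun y => ∑ b, K x y a b * (f : X → EuclideanSpace ℂ J) y b) ν := by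
    intro a
    have h2 : Integrable (fun y => inner ℂ ((io_row ν hK x a : X → EuclideanSpace ℂ J) y)
      ((f : X → EuclideanSpace ℂ J) y)) ν := L2.integrable_inner _ _
    refine h2.congr ?_
    filter_upwards [MemLp.coeFn_toLp (io_rowF_memLp ν hK x a)] with y hy
    rw [io_row, hy, io_eucl_inner]
    simp [io_rowF]
  simp only [hx]
  rw [show (fun y => ∑ a, ∑ b, starRingEnd ℂ ((g : X → EuclideanSpace ℂ J) x a) *
      K x y a b * (f : X → EuclideanSpace ℂ J) y b) = fun y => ∑ a,
        starRingEnd ℂ ((g : X → EuclideanSpace ℂ J) x a) *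
        ∑ b, K x y a b * (f : X → EuclideanSpace ℂ J) y b by
    funext y
    refine Finset.sum_congr rfl fun a _ => ?_
    rw [Finset.mul_sum]
    exact Finset.sum_congr rfl fun b _ => by ring]
  rw [integral_finsetSum _ fun a _ => (h1 a).const_mul _]
  refine Finset.sum_congr rfl fun a _ => ?_
  rw [integral_const_mul]

private theorem io_ker_adj {K : X → X → Matrix J J ℂ} (hK : Ker K) :
    Ker fun x y => (K y x)ᴴ := by
  refine ⟨fun a b => ?_, ?_⟩
  · have h1 : Measurable fun p : X × X => K p.2 p.1 b a := (hK.meas b a).comp measurable_swap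
    exact Complex.continuous_conj.measurable.comp h1
  · obtain ⟨M, hM⟩ := hK.bdd
    refine ⟨M, fun x y a b => ?_⟩
    simp only [Matrix.conjTranspose_apply, RCLike.star_def, RCLike.norm_conj]
    exact hM _ _ _ _

theorem hasKer_adjoint {K : X → X → Matrix J J ℂ} (hK : Ker K)
    {T : Lp (EuclideanSpace ℂ J) 2 ν →L[ℂ] Lp (EuclideanSpace ℂ J) 2 ν} (h : HasKer ν T K) :
    HasKer ν (ContinuousLinearMap.adjoint T) fun x y => (K y x)ᴴ := by
  obtain ⟨T', hT'⟩ := hasKer_exists ν (io_ker_adj hK)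
  have : T' = ContinuousLinearMap.adjoint T := by
    rw [ContinuousLinearMap.eq_adjoint_iff]
    intro f g
    rw [← inner_conj_symm, io_inner_T ν (io_ker_adj hK) hT', io_inner_T ν hK h]
    refine Eq.trans ?_ (integral_integral_swap (io_prod_int2 ν hK g f)).symm
    rw [← integral_conj]
    refine integral_congr_ae (Filter.Eventually.of_forall fun x => ?_)
    simp only
    rw [← integral_conj]
    refine integral_congr_ae (Filter.Eventually.of_forall fun y => ?_)
    simp only [map_sum, map_mul, Complex.conj_conj, Matrix.conjTranspose_apply, RCLike.star_def,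
      RingHomCompTriple.comp_apply, RingHom.id_apply]
    rw [Finset.sum_comm]
    refine Finset.sum_congr rfl fun a _ => Finset.sum_congr rfl fun b _ => ?_
    ring
  rw [← this]
  exact hT'

theorem hasKer_mul {K L : X → X → Matrix J J ℂ} (hK : Ker K) (hL : Ker L)
    {T S : Lp (EuclideanSpace ℂ J) 2 ν →L[ℂ] Lp (EuclideanSpace ℂ J) 2 ν} (h : HasKer ν T K)
    (h' : HasKer ν S L) :
    HasKer ν (T * S) fun x y => Matrix.of fun a b => ∫ z, (K x z * L z y) a b ∂ν := by
  intro f
  obtain ⟨M, hM⟩ := hK.bdd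
  obtain ⟨N, hN⟩ := hL.bdd
  have hf : ∀ c, Integrable (fun y => (f : X → EuclideanSpace ℂ J) y c) ν := by
    intro c
    have h1 : Integrable (f : X → EuclideanSpace ℂ J) ν := (Lp.memLp f).integrable (by norm_num)
    refine h1.mono (io_coord_meas (Lp.stronglyMeasurable f) c).aestronglyMeasurable
      (Filter.Eventually.of_forall fun y => ?_)
    exact PiLp.norm_apply_le _ _
  filter_upwards [h (S f)] with x hx a
  have hKx : ∀ b, Measurable fun y => K x y a b := fun b =>
    (hK.meas a b).comp measurable_prodMk_left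
  have hLw : ∀ w b c, Measurable fun y => L y w b c := fun w b c =>
    (hL.meas b c).comp measurable_prodMk_right
  have hint : ∀ b c, Integrable (fun p : X × X => K x p.1 a b * L p.1 p.2 b c *
      (f : X → EuclideanSpace ℂ J) p.2 c) (ν.prod ν) := by
    intro b c
    refine ((hf c).comp_snd ν).bdd_mul (c := M * N)
      (((hKx b).comp measurable_fst).mul (hL.meas b c)).aestronglyMeasurable
      (Filter.Eventually.of_forall fun p => ?_)
    rw [norm_mul]
    exact mul_le_mul (hM _ _ _ _) (hN _ _ _ _) (norm_nonneg _) ((norm_nonneg _).trans (hM x x a a))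
  have hbd : ∀ w b c, Integrable (fun y => K x y a b * L y w b c) ν := by
    intro w b c
    refine Integrable.of_bound ((hKx b).mul (hLw w b c)).aestronglyMeasurable (M * N)
      (Filter.Eventually.of_forall fun p => ?_)
    rw [norm_mul]
    exact mul_le_mul (hM _ _ _ _) (hN _ _ _ _) (norm_nonneg _) ((norm_nonneg _).trans (hM x x a a))
  have hT : ((T * S) f : X → EuclideanSpace ℂ J) x a = (T (S f) : X → EuclideanSpace ℂ J) x a := rfl
  rw [hT, hx a]
  calc ∫ y, ∑ b, K x y a b * (S f : X → EuclideanSpace ℂ J) y b ∂ν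
      = ∫ y, ∫ w, ∑ b, ∑ c, K x y a b * L y w b c * (f : X → EuclideanSpace ℂ J) w c ∂ν ∂ν := by
        refine integral_congr_ae ?_
        filter_upwards [h' f] with y hy
        have h1 : ∀ b, Integrable (fun w => ∑ c, L y w b c * (f : X → EuclideanSpace ℂ J) w c)
            ν := by
          intro b
          refine integrable_finsetSum _ fun c _ => ?_
          exact (hf c).bdd_mul (c := N) ((hL.meas b c).comp measurable_prodMk_left).aestronglyMeasurable
            (Filter.Eventually.of_forall fun p => hN _ _ _ _)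
        rw [show (fun w => ∑ b, ∑ c, K x y a b * L y w b c * (f : X → EuclideanSpace ℂ J) w c)
          = fun w => ∑ b, K x y a b * ∑ c, L y w b c * (f : X → EuclideanSpace ℂ J) w c by
            funext w
            refine Finset.sum_congr rfl fun b _ => ?_
            rw [Finset.mul_sum]
            exact Finset.sum_congr rfl fun c _ => by ring]
        rw [integral_finsetSum _ fun b _ => (h1 b).const_mul _]
        refine Finset.sum_congr rfl fun b _ => ?_
        rw [integral_const_mul, hy b]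
    _ = ∫ w, ∫ y, ∑ b, ∑ c, K x y a b * L y w b c * (f : X → EuclideanSpace ℂ J) w c ∂ν ∂ν :=
        integral_integral_swap
          (integrable_finsetSum _ fun b _ => integrable_finsetSum _ fun c _ => hint b c)
    _ = _ := by
        refine integral_congr_ae (Filter.Eventually.of_forall fun w => ?_)
        simp only [Matrix.of_apply, Matrix.mul_apply]
        rw [integral_finsetSum _ fun b _ => integrable_finsetSum _ fun c _ =>
          (hbd w b c).mul_const _]
        have h2 : ∀ b, ∫ y, ∑ c, K x y a b * L y w b c * (f : X → EuclideanSpace ℂ J) w c ∂ν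
            = ∑ c, (∫ y, K x y a b * L y w b c ∂ν) * (f : X → EuclideanSpace ℂ J) w c := by
          intro b
          rw [integral_finsetSum _ fun c _ => (hbd w b c).mul_const _]
          exact Finset.sum_congr rfl fun c _ => integral_mul_const _ _
        simp only [h2]
        rw [Finset.sum_comm]
        refine Finset.sum_congr rfl fun c _ => ?_
        rw [← Finset.sum_mul, integral_finsetSum _ fun b _ => hbd w b c]

/-! ### Hilbert-Schmidt bounds -/

/-- the square of the Hilbert-Schmidt norm -/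
private def io_mm (K : X → X → Matrix J J ℂ) : ℝ :=
  ∫ p : X × X, ∑ a, ∑ b, ‖K p.1 p.2 a b‖ ^ 2 ∂(ν.prod ν)

private theorem io_mm_int {K : X → X → Matrix J J ℂ} (hK : Ker K) :
    Integrable (fun p : X × X => ∑ a, ∑ b, ‖K p.1 p.2 a b‖ ^ 2) (ν.prod ν) := by
  obtain ⟨M, hM⟩ := hK.bdd
  refine integrable_finsetSum _ fun a _ => integrable_finsetSum _ fun b _ => ?_
  refine Integrable.of_bound ((hK.meas a b).norm.pow_const 2).aestronglyMeasurable (M ^ 2)
    (Filter.Eventually.of_forall fun p => ?_)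
  rw [Real.norm_of_nonneg (by positivity)]
  exact pow_le_pow_left₀ (norm_nonneg _) (hM _ _ _ _) 2

private theorem io_mm_adj {K : X → X → Matrix J J ℂ} (hK : Ker K) :
    io_mm ν (fun x y => (K y x)ᴴ) = io_mm ν K := by
  unfold io_mm
  rw [integral_prod _ (io_mm_int ν (io_ker_adj hK)), integral_prod_symm _ (io_mm_int ν hK)]
  refine integral_congr_ae (Filter.Eventually.of_forall fun x => ?_)
  refine integral_congr_ae (Filter.Eventually.of_forall fun y => ?_)
  simp only [Matrix.conjTranspose_apply, RCLike.star_def, RCLike.norm_conj]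
  exact Finset.sum_comm

private theorem io_mm_nonneg (K : X → X → Matrix J J ℂ) : 0 ≤ io_mm ν K :=
  integral_nonneg fun p => Finset.sum_nonneg fun a _ => Finset.sum_nonneg fun b _ => by positivity

private theorem io_mm_row {K : X → X → Matrix J J ℂ} (hK : Ker K) :
    Integrable (fun x => ∑ a, ‖io_row ν hK x a‖ ^ 2) ν ∧
      ∫ x, ∑ a, ‖io_row ν hK x a‖ ^ 2 ∂ν = io_mm ν K := by
  have h1 : (fun x => ∑ a, ‖io_row ν hK x a‖ ^ 2) =
      fun x => ∫ y, ∑ a, ∑ b, ‖K x y a b‖ ^ 2 ∂ν := by
    funext x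
    simp only [io_row_sq]
    rw [integral_finsetSum]
    intro a _
    obtain ⟨M, hM⟩ := hK.bdd
    refine integrable_finsetSum _ fun b _ => ?_
    refine Integrable.of_bound (((hK.meas a b).comp measurable_prodMk_left).norm.pow_const
      2).aestronglyMeasurable (M ^ 2) (Filter.Eventually.of_forall fun p => ?_)
    rw [Real.norm_of_nonneg (by positivity)]
    exact pow_le_pow_left₀ (norm_nonneg _) (hM _ _ _ _) 2
  rw [h1]
  refine ⟨(io_mm_int ν hK).integral_prod_left, ?_⟩
  unfold io_mm
  rw [integral_prod _ (io_mm_int ν hK)]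

private theorem io_norm_sq (g : Lp (EuclideanSpace ℂ J) 2 ν) :
    Integrable (fun x => ‖(g : X → EuclideanSpace ℂ J) x‖ ^ 2) ν ∧
      ‖g‖ ^ 2 = ∫ x, ‖(g : X → EuclideanSpace ℂ J) x‖ ^ 2 ∂ν := by
  refine ⟨(Lp.memLp g).norm.integrable_sq, ?_⟩
  have h1 : ((‖g‖ ^ 2 : ℝ) : ℂ)
      = ((∫ x, ‖(g : X → EuclideanSpace ℂ J) x‖ ^ 2 ∂ν : ℝ) : ℂ) := by
    have h2 := inner_self_eq_norm_sq_to_K (𝕜 := ℂ) g
    rw [Complex.ofReal_pow]
    refine h2.symm.trans ?_
    rw [L2.inner_def, ← integral_complex_ofReal]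
    refine integral_congr_ae (Filter.Eventually.of_forall fun x => ?_)
    simp only [inner_self_eq_norm_sq_to_K, Complex.coe_algebraMap]
    push_cast
    rfl
  exact_mod_cast h1

private theorem io_bessel {K : X → X → Matrix J J ℂ} (hK : Ker K)
    {T : Lp (EuclideanSpace ℂ J) 2 ν →L[ℂ] Lp (EuclideanSpace ℂ J) 2 ν} (h : HasKer ν T K)
    {ι : Type*} (b : HilbertBasis ι ℂ (Lp (EuclideanSpace ℂ J) 2 ν)) (F : Finset ι) :
    ∑ i ∈ F, ‖T (b i)‖ ^ 2 ≤ io_mm ν K := by
  have h1 : ∑ i ∈ F, ‖T (b i)‖ ^ 2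
      = ∫ x, ∑ i ∈ F, ‖(T (b i) : X → EuclideanSpace ℂ J) x‖ ^ 2 ∂ν := by
    rw [integral_finsetSum _ fun i _ => (io_norm_sq ν (T (b i))).1]
    exact Finset.sum_congr rfl fun i _ => (io_norm_sq ν (T (b i))).2
  rw [h1, ← (io_mm_row ν hK).2]
  refine integral_mono_ae (integrable_finsetSum _ fun i _ => (io_norm_sq ν (T (b i))).1)
    (io_mm_row ν hK).1 ?_
  have h2 : ∀ᵐ x ∂ν, ∀ i ∈ F, ∀ a, (T (b i) : X → EuclideanSpace ℂ J) x a =
      inner ℂ (io_row ν hK x a) (b i) := by
    rw [Filter.eventually_all_finset]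
    intro i _
    filter_upwards [h (b i)] with x hx a
    rw [hx a, io_inner_row]
  filter_upwards [h2] with x hx
  calc ∑ i ∈ F, ‖(T (b i) : X → EuclideanSpace ℂ J) x‖ ^ 2
      = ∑ i ∈ F, ∑ a, ‖(T (b i) : X → EuclideanSpace ℂ J) x a‖ ^ 2 :=
        Finset.sum_congr rfl fun i _ => EuclideanSpace.norm_sq_eq _
    _ = ∑ i ∈ F, ∑ a, ‖inner ℂ (b i) (io_row ν hK x a)‖ ^ 2 := by
        refine Finset.sum_congr rfl fun i hi => Finset.sum_congr rfl fun a _ => ?_
        rw [hx i hi a, norm_inner_symm]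
    _ = ∑ a, ∑ i ∈ F, ‖inner ℂ (b i) (io_row ν hK x a)‖ ^ 2 := Finset.sum_comm
    _ ≤ ∑ a, ‖io_row ν hK x a‖ ^ 2 :=
        Finset.sum_le_sum fun a _ => Orthonormal.sum_inner_products_le _ b.orthonormal

private theorem io_hs {K : X → X → Matrix J J ℂ} (hK : Ker K)
    {T : Lp (EuclideanSpace ℂ J) 2 ν →L[ℂ] Lp (EuclideanSpace ℂ J) 2 ν} (h : HasKer ν T K)
    {ι : Type*} (b : HilbertBasis ι ℂ (Lp (EuclideanSpace ℂ J) 2 ν)) :
    Summable (fun i => ‖T (b i)‖ ^ 2) ∧ ∑' i, ‖T (b i)‖ ^ 2 ≤ io_mm ν K := by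
  have h1 : Summable (fun i => ‖T (b i)‖ ^ 2) :=
    summable_of_sum_le (fun i => by positivity) (io_bessel ν hK h b)
  exact ⟨h1, h1.tsum_le_of_sum_le (io_bessel ν hK h b)⟩

theorem hasKer_compact {K : X → X → Matrix J J ℂ} (hK : Ker K)
    {T : Lp (EuclideanSpace ℂ J) 2 ν →L[ℂ] Lp (EuclideanSpace ℂ J) 2 ν} (h : HasKer ν T K) :
    IsCompactOperator T := by
  classical
  obtain ⟨w, b, -⟩ := exists_hilbertBasis ℂ (Lp (EuclideanSpace ℂ J) 2 ν)
  have hs := (io_hs ν hK h b).1
  let TF : Finset w → (Lp (EuclideanSpace ℂ J) 2 ν →L[ℂ] Lp (EuclideanSpace ℂ J) 2 ν) := fun F =>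
    ∑ i ∈ F, (innerSL ℂ (b i)).smulRight (T (b i))
  have hTF : ∀ F f, TF F f = ∑ i ∈ F, inner ℂ (b i) f • T (b i) := by
    intro F f
    simp only [TF, _root_.sum_apply, ContinuousLinearMap.smulRight_apply,
      innerSL_apply_apply]
  refine isCompactOperator_of_tendsto (F := TF) (l := Filter.atTop) ?_ ?_
  · rw [Metric.tendsto_atTop]
    intro ε hε
    obtain ⟨F0, hF0⟩ := (summable_iff_vanishing_norm.1 hs) ((ε / 2) ^ 2) (by positivity)
    refine ⟨F0, fun F hF => ?_⟩
    have hle : ‖TF F - T‖ ≤ ε / 2 := by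
      refine ContinuousLinearMap.opNorm_le_bound _ (by positivity) fun f => ?_
      have h1 : HasSum (fun i => inner ℂ (b i) f • T (b i)) (T f) := by
        have h2 := (b.hasSum_repr f).mapL T
        simpa only [map_smul, b.repr_apply_apply] using h2
      have h3 : Filter.Tendsto (fun G : Finset w => ‖∑ i ∈ G, inner ℂ (b i) f • T (b i) - TF F f‖)
          Filter.atTop (nhds ‖T f - TF F f‖) := (h1.sub_const _).norm
      rw [_root_.sub_apply, norm_sub_rev]
      refine le_of_tendsto h3 ?_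
      filter_upwards [Filter.eventually_ge_atTop F] with G hG
      rw [hTF, ← Finset.sum_sdiff hG, add_sub_cancel_right]
      have h4 : ‖∑ i ∈ G \ F, ‖T (b i)‖ ^ 2‖ < (ε / 2) ^ 2 :=
        hF0 _ (Finset.sdiff_disjoint.mono_right hF)
      rw [Real.norm_of_nonneg (Finset.sum_nonneg fun i _ => by positivity)] at h4
      calc ‖∑ i ∈ G \ F, inner ℂ (b i) f • T (b i)‖
          ≤ ∑ i ∈ G \ F, ‖inner ℂ (b i) f‖ * ‖T (b i)‖ := by
            refine (norm_sum_le _ _).trans (Finset.sum_le_sum fun i _ => ?_)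
            rw [norm_smul]
        _ ≤ √(∑ i ∈ G \ F, ‖inner ℂ (b i) f‖ ^ 2) * √(∑ i ∈ G \ F, ‖T (b i)‖ ^ 2) :=
            Real.sum_mul_le_sqrt_mul_sqrt _ _ _
        _ ≤ ‖f‖ * (ε / 2) := by
            refine mul_le_mul ?_ ?_ (Real.sqrt_nonneg _) (norm_nonneg _)
            · exact Real.sqrt_le_left (norm_nonneg _) |>.2
                (Orthonormal.sum_inner_products_le _ b.orthonormal)
            · exact Real.sqrt_le_left (by positivity) |>.2 h4.le
        _ = ε / 2 * ‖f‖ := mul_comm _ _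
    rw [dist_eq_norm]
    linarith
  · refine Filter.Eventually.of_forall fun F => ?_
    induction F using Finset.induction_on with
    | empty => 
      simp only [TF, Finset.sum_empty]
      exact isCompactOperator_zero
    | insert i F hi ih =>
      simp only [TF] at ih ⊢
      rw [Finset.sum_insert hi]
      refine IsCompactOperator.add ?_ ih
      have h3 : IsCompactOperator (innerSL ℂ (b i)) :=
        isCompactOperator_of_locallyCompactSpace_dom ((innerSL ℂ) (b i))
      exact h3.clm_comp (ContinuousLinearMap.toSpanSingleton ℂ (T (b i)))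

/-! ### the trace formula -/

private theorem io_kint {K : X → X → Matrix J J ℂ} (hK : Ker K) (x : X) (a : J)
    (f : Lp (EuclideanSpace ℂ J) 2 ν) :
    Integrable (fun y => ∑ b, K x y a b * (f : X → EuclideanSpace ℂ J) y b) ν := by
  have h2 : Integrable (fun y => inner ℂ ((io_row ν hK x a : X → EuclideanSpace ℂ J) y)
    ((f : X → EuclideanSpace ℂ J) y)) ν := L2.integrable_inner _ _
  refine h2.congr ?_
  filter_upwards [MemLp.coeFn_toLp (io_rowF_memLp ν hK x a)] with y hy
  rw [io_row, hy, io_eucl_inner]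
  simp [io_rowF]

private theorem io_ker_add {K L : X → X → Matrix J J ℂ} (hK : Ker K) (hL : Ker L) :
    Ker fun x y => K x y + L x y := by
  obtain ⟨M, hM⟩ := hK.bdd
  obtain ⟨N, hN⟩ := hL.bdd
  refine ⟨fun a b => (hK.meas a b).add (hL.meas a b), M + N, fun x y a b => ?_⟩
  exact (norm_add_le _ _).trans (add_le_add (hM _ _ _ _) (hN _ _ _ _))

private theorem io_ker_smul {K : X → X → Matrix J J ℂ} (hK : Ker K) (c : ℂ) :
    Ker fun x y => c • K x y := by
  obtain ⟨M, hM⟩ := hK.bdd
  refine ⟨fun a b => (hK.meas a b).const_mul c, ‖c‖ * M, fun x y a b => ?_⟩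
  rw [Matrix.smul_apply, norm_smul]
  exact mul_le_mul_of_nonneg_left (hM _ _ _ _) (norm_nonneg _)

private theorem io_has_add {K L : X → X → Matrix J J ℂ} (hK : Ker K) (hL : Ker L)
    {T S : Lp (EuclideanSpace ℂ J) 2 ν →L[ℂ] Lp (EuclideanSpace ℂ J) 2 ν}
    (h : HasKer ν T K) (h' : HasKer ν S L) : HasKer ν (T + S) fun x y => K x y + L x y := by
  intro f
  have h1 : ((T + S) f : X → EuclideanSpace ℂ J) =ᵐ[ν] (T f : X → EuclideanSpace ℂ J) + S f :=
    Lp.coeFn_add (T f) (S f)
  filter_upwards [h1, h f, h' f] with x hx hx1 hx2 a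
  rw [hx, Pi.add_apply, PiLp.add_apply, hx1 a, hx2 a,
    ← integral_add (io_kint ν hK x a f) (io_kint ν hL x a f)]
  refine integral_congr_ae (Filter.Eventually.of_forall fun y => ?_)
  simp only [Matrix.add_apply, add_mul, Finset.sum_add_distrib]

private theorem io_has_smul {K : X → X → Matrix J J ℂ} (c : ℂ)
    {T : Lp (EuclideanSpace ℂ J) 2 ν →L[ℂ] Lp (EuclideanSpace ℂ J) 2 ν}
    (h : HasKer ν T K) : HasKer ν (c • T) fun x y => c • K x y := by
  intro f
  have h1 : ((c • T) f : X → EuclideanSpace ℂ J) =ᵐ[ν] c • (T f : X → EuclideanSpace ℂ J) :=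
    Lp.coeFn_smul c (T f)
  filter_upwards [h1, h f] with x hx hx1 a
  rw [hx, Pi.smul_apply, PiLp.smul_apply, hx1 a, smul_eq_mul, ← integral_const_mul]
  refine integral_congr_ae (Filter.Eventually.of_forall fun y => ?_)
  simp only [Matrix.smul_apply, smul_eq_mul, Finset.mul_sum, mul_assoc]

private theorem io_tr_int {K L : X → X → Matrix J J ℂ} (hK : Ker K) (hL : Ker L) :
    Integrable (fun p : X × X => ∑ a, ∑ b, K p.1 p.2 a b * L p.2 p.1 b a) (ν.prod ν) := by
  obtain ⟨M, hM⟩ := hK.bdd
  obtain ⟨N, hN⟩ := hL.bdd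
  refine integrable_finsetSum _ fun a _ => integrable_finsetSum _ fun b _ => ?_
  refine Integrable.of_bound ((hK.meas a b).mul ((hL.meas b a).comp
    measurable_swap)).aestronglyMeasurable (M * N) (Filter.Eventually.of_forall fun p => ?_)
  simp only [norm_mul]
  exact mul_le_mul (hM _ _ _ _) (hN _ _ _ _) (norm_nonneg _)
    ((norm_nonneg _).trans (hM p.1 p.2 a b))

private def io_I (K L : X → X → Matrix J J ℂ) : ℂ :=
  ∫ p : X × X, ∑ a, ∑ b, K p.1 p.2 a b * L p.2 p.1 b a ∂(ν.prod ν)

private theorem io_amgm {t u v : ℝ} (ht : 0 < t) : u * v ≤ (t * u ^ 2 + v ^ 2 / t) / 2 := by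
  have h1 : 0 ≤ (t * u - v) ^ 2 / t := by positivity
  have h2 : (t * u - v) ^ 2 / t = t * u ^ 2 - 2 * (u * v) + v ^ 2 / t := by
    field_simp
    ring
  linarith

private theorem io_I_bound {K L : X → X → Matrix J J ℂ} (hK : Ker K) (hL : Ker L) {t : ℝ}
    (ht : 0 < t) : ‖io_I ν K L‖ ≤ (t * io_mm ν K + io_mm ν L / t) / 2 := by
  have h1 : io_mm ν L = ∫ p : X × X, ∑ a, ∑ b, ‖L p.2 p.1 b a‖ ^ 2 ∂(ν.prod ν) := by
    rw [← io_mm_adj ν hL]
    unfold io_mm
    simp only [Matrix.conjTranspose_apply, RCLike.star_def, RCLike.norm_conj]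
  have h2 : Integrable (fun p : X × X => ∑ a, ∑ b, ‖L p.2 p.1 b a‖ ^ 2) (ν.prod ν) := by
    have := io_mm_int ν (io_ker_adj hL)
    simpa only [Matrix.conjTranspose_apply, RCLike.star_def, RCLike.norm_conj] using this
  calc ‖io_I ν K L‖ ≤ ∫ p : X × X, (t * (∑ a, ∑ b, ‖K p.1 p.2 a b‖ ^ 2) +
        (∑ a, ∑ b, ‖L p.2 p.1 b a‖ ^ 2) / t) / 2 ∂(ν.prod ν) := by
        refine norm_integral_le_of_norm_le ((((io_mm_int ν hK).const_mul t).add
          (h2.div_const t)).div_const 2) (Filter.Eventually.of_forall fun p => ?_)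
        calc ‖∑ a, ∑ b, K p.1 p.2 a b * L p.2 p.1 b a‖
            ≤ ∑ a, ∑ b, ‖K p.1 p.2 a b‖ * ‖L p.2 p.1 b a‖ := by
              refine (norm_sum_le _ _).trans (Finset.sum_le_sum fun a _ => ?_)
              refine (norm_sum_le _ _).trans (Finset.sum_le_sum fun b _ => ?_)
              rw [norm_mul]
          _ ≤ ∑ a, ∑ b, (t * ‖K p.1 p.2 a b‖ ^ 2 + ‖L p.2 p.1 b a‖ ^ 2 / t) / 2 :=
              Finset.sum_le_sum fun a _ => Finset.sum_le_sum fun b _ => io_amgm ht
          _ = (t * (∑ a, ∑ b, ‖K p.1 p.2 a b‖ ^ 2) +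
                (∑ a, ∑ b, ‖L p.2 p.1 b a‖ ^ 2) / t) / 2 := by
              simp only [← Finset.sum_div, Finset.sum_add_distrib, ← Finset.mul_sum]
    _ = (t * io_mm ν K + io_mm ν L / t) / 2 := by
        rw [h1]
        unfold io_mm
        rw [integral_div, integral_add ((io_mm_int ν hK).const_mul t) (h2.div_const t),
          integral_const_mul, integral_div]

private theorem io_V_bound {K L : X → X → Matrix J J ℂ} (hK : Ker K) (hL : Ker L)
    {T S : Lp (EuclideanSpace ℂ J) 2 ν →L[ℂ] Lp (EuclideanSpace ℂ J) 2 ν} (h : HasKer ν T K)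
    (h' : HasKer ν S L) {ι : Type} (b : HilbertBasis ι ℂ (Lp (EuclideanSpace ℂ J) 2 ν)) :
    Summable (fun i => ‖inner ℂ (b i) (T (S (b i)))‖) ∧ ∀ t : ℝ, 0 < t →
      ‖∑' i, inner ℂ (b i) (T (S (b i)))‖ ≤ (t * io_mm ν K + io_mm ν L / t) / 2 := by
  obtain ⟨s1, b1⟩ := io_hs ν (io_ker_adj hK) (hasKer_adjoint ν hK h) b
  obtain ⟨s2, b2⟩ := io_hs ν hL h' b
  rw [io_mm_adj ν hK] at b1
  have hle : ∀ (t : ℝ), 0 < t → ∀ i, ‖inner ℂ (b i) (T (S (b i)))‖ ≤
      (t * ‖ContinuousLinearMap.adjoint T (b i)‖ ^ 2 + ‖S (b i)‖ ^ 2 / t) / 2 := by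
    intro t ht i
    rw [← ContinuousLinearMap.adjoint_inner_left]
    exact (norm_inner_le_norm _ _).trans (io_amgm ht)
  have hsum : ∀ t : ℝ, Summable fun i =>
      (t * ‖ContinuousLinearMap.adjoint T (b i)‖ ^ 2 + ‖S (b i)‖ ^ 2 / t) / 2 := fun t =>
    ((s1.mul_left t).add (s2.div_const t)).div_const 2
  have hs : Summable (fun i => ‖inner ℂ (b i) (T (S (b i)))‖) :=
    Summable.of_nonneg_of_le (fun i => norm_nonneg _) (hle 1 one_pos) (hsum 1)
  refine ⟨hs, fun t ht => ?_⟩
  calc ‖∑' i, inner ℂ (b i) (T (S (b i)))‖ ≤ ∑' i, ‖inner ℂ (b i) (T (S (b i)))‖ :=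
        norm_tsum_le_tsum_norm hs
    _ ≤ ∑' i, (t * ‖ContinuousLinearMap.adjoint T (b i)‖ ^ 2 + ‖S (b i)‖ ^ 2 / t) / 2 :=
        hs.tsum_le_tsum (hle t ht) (hsum t)
    _ = (t * (∑' i, ‖ContinuousLinearMap.adjoint T (b i)‖ ^ 2)
          + (∑' i, ‖S (b i)‖ ^ 2) / t) / 2 := by
        rw [tsum_div_const, (s1.mul_left t).tsum_add (s2.div_const t), tsum_mul_left,
          tsum_div_const]
    _ ≤ _ := by gcongr

/-- the trace formula for one kernel `K` -/
private def io_P (L : X → X → Matrix J J ℂ)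
    (S : Lp (EuclideanSpace ℂ J) 2 ν →L[ℂ] Lp (EuclideanSpace ℂ J) 2 ν)
    {ι : Type} (b : HilbertBasis ι ℂ (Lp (EuclideanSpace ℂ J) 2 ν))
    (K : X → X → Matrix J J ℂ) : Prop :=
  ∀ T, HasKer ν T K → ∑' i, inner ℂ (b i) (T (S (b i))) = io_I ν K L

section P

variable {L : X → X → Matrix J J ℂ} (hL : Ker L)
  {S : Lp (EuclideanSpace ℂ J) 2 ν →L[ℂ] Lp (EuclideanSpace ℂ J) 2 ν} (hS : HasKer ν S L)
  {ι : Type} (b : HilbertBasis ι ℂ (Lp (EuclideanSpace ℂ J) 2 ν))

include hL hS

private theorem io_P_add {K K' : X → X → Matrix J J ℂ} (hK : Ker K) (hK' : Ker K')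
    (h : io_P ν L S b K) (h' : io_P ν L S b K') : io_P ν L S b fun x y => K x y + K' x y := by
  intro T hT
  obtain ⟨T1, h1⟩ := hasKer_exists ν hK
  obtain ⟨T2, h2⟩ := hasKer_exists ν hK'
  have h3 : T = T1 + T2 := hasKer_unique ν hT (io_has_add ν hK hK' h1 h2)
  have s1 := (io_V_bound ν hK hL h1 hS b).1.of_norm
  have s2 := (io_V_bound ν hK' hL h2 hS b).1.of_norm
  rw [h3]
  simp only [_root_.add_apply, inner_add_right]
  rw [s1.tsum_add s2, h T1 h1, h' T2 h2]
  unfold io_I
  rw [← integral_add (io_tr_int ν hK hL) (io_tr_int ν hK' hL)]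
  refine integral_congr_ae (Filter.Eventually.of_forall fun p => ?_)
  simp only [Matrix.add_apply, add_mul, Finset.sum_add_distrib]

private theorem io_P_smul {K : X → X → Matrix J J ℂ} (hK : Ker K) (c : ℂ)
    (h : io_P ν L S b K) : io_P ν L S b fun x y => c • K x y := by
  intro T hT
  obtain ⟨T1, h1⟩ := hasKer_exists ν hK
  have h3 : T = c • T1 := hasKer_unique ν hT (io_has_smul ν c h1)
  rw [h3]
  simp only [_root_.smul_apply, inner_smul_right]
  rw [tsum_mul_left, h T1 h1]
  unfold io_I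
  rw [← integral_const_mul]
  refine integral_congr_ae (Filter.Eventually.of_forall fun p => ?_)
  simp only [Matrix.smul_apply, smul_eq_mul, Finset.mul_sum, mul_assoc]

private theorem io_P_close {K : X → X → Matrix J J ℂ} (hK : Ker K)
    (h : ∀ ε : ℝ, 0 < ε → ∃ K' D : X → X → Matrix J J ℂ, Ker K' ∧ Ker D ∧ io_P ν L S b K' ∧
      (∀ x y, K x y = K' x y + D x y) ∧ io_mm ν D ≤ ε) : io_P ν L S b K := by
  intro T hT
  rw [← sub_eq_zero, ← norm_le_zero_iff]
  refine le_of_forall_pos_le_add fun δ hδ => ?_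
  rw [zero_add]
  have hm := io_mm_nonneg ν L
  set t : ℝ := 2 * (io_mm ν L + 1) / δ with ht
  have ht0 : 0 < t := by positivity
  obtain ⟨K', D, hK', hD, hP, hKD, hle⟩ := h (δ / (2 * t)) (by positivity)
  obtain ⟨T1, h1⟩ := hasKer_exists ν hK'
  obtain ⟨T2, h2⟩ := hasKer_exists ν hD
  have hKD' : K = fun x y => K' x y + D x y := by funext x y; exact hKD x y
  have h3 : T = T1 + T2 := hasKer_unique ν (hKD' ▸ hT) (io_has_add ν hK' hD h1 h2)
  have s1 := (io_V_bound ν hK' hL h1 hS b).1.of_norm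
  obtain ⟨s2, s3⟩ := io_V_bound ν hD hL h2 hS b
  have h4 : io_I ν K L = io_I ν K' L + io_I ν D L := by
    unfold io_I
    rw [← integral_add (io_tr_int ν hK' hL) (io_tr_int ν hD hL)]
    refine integral_congr_ae (Filter.Eventually.of_forall fun p => ?_)
    simp only [hKD, Matrix.add_apply, add_mul, Finset.sum_add_distrib]
  rw [h3, h4]
  simp only [_root_.add_apply, inner_add_right]
  rw [s1.tsum_add s2.of_norm, hP T1 h1, add_sub_add_left_eq_sub]
  have h5 := s3 t ht0
  have h6 := io_I_bound ν hD hL ht0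
  have h7 : t * io_mm ν D ≤ δ / 2 := by
    calc t * io_mm ν D ≤ t * (δ / (2 * t)) := by gcongr
      _ = δ / 2 := by field_simp
  have h8 : io_mm ν L / t ≤ δ / 2 := by
    rw [div_le_iff₀ ht0, ht]
    have : δ / 2 * (2 * (io_mm ν L + 1) / δ) = io_mm ν L + 1 := by field_simp
    rw [this]; linarith
  calc ‖∑' i, inner ℂ (b i) (T2 (S (b i))) - io_I ν D L‖
      ≤ ‖∑' i, inner ℂ (b i) (T2 (S (b i)))‖ + ‖io_I ν D L‖ := norm_sub_le _ _
    _ ≤ δ := by linarith

end P

section Q

variable [DecidableEq J]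

/-- kernels with one entry -/
private def io_kf (a b : J) (k : X × X → ℂ) : X → X → Matrix J J ℂ :=
  fun x y => Matrix.single a b (k (x, y))

private theorem io_kf_ker (a b : J) {k : X × X → ℂ} (hk : Measurable k) {M : ℝ}
    (hM : ∀ p, ‖k p‖ ≤ M) : Ker (io_kf a b k) := by
  refine ⟨fun c d => ?_, M, fun x y c d => ?_⟩
  · simp only [io_kf, Matrix.single_apply]
    by_cases h : a = c ∧ b = d
    · simp only [h, and_self, if_true]; exact hk
    · simp only [h, if_false]; exact measurable_const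
  · simp only [io_kf, Matrix.single_apply]
    split_ifs
    · exact hM _
    · rw [norm_zero]; exact (norm_nonneg _).trans (hM (x, y))

private theorem io_kf_mm (a b : J) (k : X × X → ℂ) :
    io_mm ν (io_kf a b k) = ∫ p, ‖k p‖ ^ 2 ∂(ν.prod ν) := by
  unfold io_mm
  refine integral_congr_ae (Filter.Eventually.of_forall fun p => ?_)
  simp only [io_kf, Matrix.single_apply]
  rw [Finset.sum_eq_single a, Finset.sum_eq_single b]
  · simp
  · intro d _ hd; simp [Ne.symm hd]
  · simp
  · intro c _ hc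
    exact Finset.sum_eq_zero fun d _ => by simp [Ne.symm hc]
  · simp

private theorem io_rect {A B : Set X} (hA : MeasurableSet A) (hB : MeasurableSet B) (a b : J) :
    HasKer ν ((innerSL ℂ (indicatorConstLp (μ := ν) 2 hB (measure_ne_top ν B)
      (EuclideanSpace.single b (1 : ℂ)))).smulRight
      (indicatorConstLp (μ := ν) 2 hA (measure_ne_top ν A) (EuclideanSpace.single a (1 : ℂ))))
      (io_kf a b ((A ×ˢ B).indicator fun _ => 1)) := by
  intro f
  rw [ContinuousLinearMap.smulRight_apply, innerSL_apply_apply]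
  have hc : inner ℂ (indicatorConstLp (μ := ν) 2 hB (measure_ne_top ν B)
      (EuclideanSpace.single b (1 : ℂ))) f
      = ∫ y, B.indicator (fun _ => (1 : ℂ)) y * (f : X → EuclideanSpace ℂ J) y b ∂ν := by
    rw [L2.inner_def]
    refine integral_congr_ae ?_
    filter_upwards [indicatorConstLp_coeFn (p := 2) (hs := hB) (hμs := measure_ne_top ν B)
      (c := EuclideanSpace.single b (1 : ℂ))] with y hy
    rw [hy]
    by_cases h : y ∈ B
    · rw [Set.indicator_of_mem h, Set.indicator_of_mem h, io_eucl_inner,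
        Finset.sum_eq_single b]
      · simp
      · intro d _ hd; simp [hd]
      · simp
    · simp [h]
  filter_upwards [Lp.coeFn_smul (inner ℂ (indicatorConstLp (μ := ν) 2 hB (measure_ne_top ν B)
      (EuclideanSpace.single b (1 : ℂ))) f) (indicatorConstLp (μ := ν) 2 hA (measure_ne_top ν A)
      (EuclideanSpace.single a (1 : ℂ))),
    indicatorConstLp_coeFn (p := 2) (hs := hA) (hμs := measure_ne_top ν A)
      (c := EuclideanSpace.single a (1 : ℂ))] with x hx hx2 c
  rw [hx, Pi.smul_apply, PiLp.smul_apply, hx2, hc, smul_eq_mul, ← integral_mul_const]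
  refine integral_congr_ae (Filter.Eventually.of_forall fun y => ?_)
  simp only [io_kf, Matrix.single_apply]
  by_cases h : a = c
  · subst h
    rw [Finset.sum_eq_single b]
    · by_cases h1 : x ∈ A <;> by_cases h2 : y ∈ B <;> simp [h1, h2]
    · intro d _ hd; simp [Ne.symm hd]
    · simp
  · have h3 : (A.indicator (fun _ => EuclideanSpace.single a (1 : ℂ)) x : EuclideanSpace ℂ J) c
        = 0 := by
      by_cases h1 : x ∈ A
      · simp [h1, Ne.symm h]
      · simp [h1]
    rw [h3]
    simp [h]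

variable {L : X → X → Matrix J J ℂ} (hL : Ker L)
  {S : Lp (EuclideanSpace ℂ J) 2 ν →L[ℂ] Lp (EuclideanSpace ℂ J) 2 ν} (hS : HasKer ν S L)
  {ι : Type} (b : HilbertBasis ι ℂ (Lp (EuclideanSpace ℂ J) 2 ν))

include hL hS

private theorem io_P_rect {A B : Set X} (hA : MeasurableSet A) (hB : MeasurableSet B) (c d : J) :
    io_P ν L S b (io_kf c d ((A ×ˢ B).indicator fun _ => 1)) := by
  intro T hT
  rw [hasKer_unique ν hT (io_rect ν hA hB c d)]
  set uA := indicatorConstLp (μ := ν) 2 hA (measure_ne_top ν A) (EuclideanSpace.single c (1 : ℂ))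
    with huA
  set uB := indicatorConstLp (μ := ν) 2 hB (measure_ne_top ν B) (EuclideanSpace.single d (1 : ℂ))
    with huB
  have h1 : ∀ i, inner ℂ (b i) (((innerSL ℂ uB).smulRight uA) (S (b i)))
      = inner ℂ (ContinuousLinearMap.adjoint S uB) (b i) * inner ℂ (b i) uA := by
    intro i
    rw [ContinuousLinearMap.smulRight_apply, innerSL_apply_apply, inner_smul_right,
      ContinuousLinearMap.adjoint_inner_left]
  simp only [h1]
  rw [(b.hasSum_inner_mul_inner _ _).tsum_eq, ContinuousLinearMap.adjoint_inner_left,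
    io_inner_T ν hL hS]
  have hk : Ker (io_kf c d ((A ×ˢ B).indicator fun _ => (1 : ℂ))) :=
    io_kf_ker c d (measurable_const.indicator (hA.prod hB)) (M := 1) fun p => by
      by_cases h : p ∈ A ×ˢ B
      · rw [Set.indicator_of_mem h]; simp
      · rw [Set.indicator_of_notMem h]; simp
  unfold io_I
  rw [integral_prod_symm _ (io_tr_int ν hk hL)]
  refine integral_congr_ae ?_
  filter_upwards [indicatorConstLp_coeFn (p := 2) (hs := hB) (hμs := measure_ne_top ν B)
    (c := EuclideanSpace.single d (1 : ℂ))] with x hx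
  refine integral_congr_ae ?_
  filter_upwards [indicatorConstLp_coeFn (p := 2) (hs := hA) (hμs := measure_ne_top ν A)
    (c := EuclideanSpace.single c (1 : ℂ))] with y hy
  rw [huA, huB, hx, hy]
  simp only [io_kf, Matrix.single_apply]
  rw [Finset.sum_eq_single d, Finset.sum_eq_single c]
  · rw [Finset.sum_eq_single c, Finset.sum_eq_single d]
    · by_cases h1 : x ∈ B <;> by_cases h2 : y ∈ A <;> simp [h1, h2]
    · intro e _ he; simp [Ne.symm he]
    · simp
    · intro e _ he
      exact Finset.sum_eq_zero fun g _ => by simp [Ne.symm he]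
    · simp
  · intro e _ he
    have : (A.indicator (fun _ => EuclideanSpace.single c (1 : ℂ)) y : EuclideanSpace ℂ J) e
        = 0 := by
      by_cases h1 : y ∈ A
      · simp [h1, he]
      · simp [h1]
    rw [this, mul_zero]
  · simp
  · intro e _ he
    have : (B.indicator (fun _ => EuclideanSpace.single d (1 : ℂ)) x : EuclideanSpace ℂ J) e
        = 0 := by
      by_cases h1 : x ∈ B
      · simp [h1, he]
      · simp [h1]
    simp [this]
  · simp

private theorem io_P_kf_add (c d : J) {k k' : X × X → ℂ} (hk : Measurable k) (hk' : Measurable k')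
    {M M' : ℝ} (hM : ∀ p, ‖k p‖ ≤ M) (hM' : ∀ p, ‖k' p‖ ≤ M')
    (h : io_P ν L S b (io_kf c d k)) (h' : io_P ν L S b (io_kf c d k')) :
    io_P ν L S b (io_kf c d fun p => k p + k' p) := by
  have := io_P_add ν hL hS b (io_kf_ker c d hk hM) (io_kf_ker c d hk' hM') h h'
  have h2 : (fun x y => io_kf c d k x y + io_kf c d k' x y) = io_kf c d fun p => k p + k' p := by
    funext x y
    simp only [io_kf, ← Matrix.single_add]
  rwa [h2] at this

private theorem io_P_kf_smul (c d : J) {k : X × X → ℂ} (hk : Measurable k)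
    {M : ℝ} (hM : ∀ p, ‖k p‖ ≤ M) (z : ℂ)
    (h : io_P ν L S b (io_kf c d k)) :
    io_P ν L S b (io_kf c d fun p => z * k p) := by
  have := io_P_smul ν hL hS b (io_kf_ker c d hk hM) z h
  have h2 : (fun x y => z • io_kf c d k x y) = io_kf c d fun p => z * k p := by
    funext x y
    simp only [io_kf, Matrix.smul_single, smul_eq_mul]
  rwa [h2] at this

omit hL hS in
private theorem io_ind_le (E : Set (X × X)) (p : X × X) :
    ‖E.indicator (fun _ => (1 : ℂ)) p‖ ≤ 1 := by
  by_cases h : p ∈ E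
  · rw [Set.indicator_of_mem h]; simp
  · rw [Set.indicator_of_notMem h]; simp

private theorem io_P_close_kf (c d : J) {k : X × X → ℂ} (hk : Measurable k)
    {M : ℝ} (hM : ∀ p, ‖k p‖ ≤ M)
    (h : ∀ ε : ℝ, 0 < ε → ∃ k' : X × X → ℂ, Measurable k' ∧ (∃ M', ∀ p, ‖k' p‖ ≤ M') ∧
      io_P ν L S b (io_kf c d k') ∧ ∫ p, ‖k p - k' p‖ ^ 2 ∂(ν.prod ν) ≤ ε) :
    io_P ν L S b (io_kf c d k) := by
  refine io_P_close ν hL hS b (io_kf_ker c d hk hM) fun ε hε => ?_
  obtain ⟨k', hk', ⟨M', hM'⟩, hP, hle⟩ := h ε hε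
  refine ⟨io_kf c d k', io_kf c d fun p => k p - k' p, io_kf_ker c d hk' hM',
    io_kf_ker c d (hk.sub hk') (M := M + M') fun p => ?_, hP, fun x y => ?_, ?_⟩
  · exact (norm_sub_le _ _).trans (add_le_add (hM p) (hM' p))
  · simp only [io_kf, ← Matrix.single_add, add_sub_cancel]
  · rw [io_kf_mm]; exact hle

private theorem io_P_set (c d : J) {E : Set (X × X)} (hE : MeasurableSet E) :
    io_P ν L S b (io_kf c d (E.indicator fun _ => 1)) := by
  induction E, hE using MeasurableSpace.induction_on_inter generateFrom_prod.symm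
    isPiSystem_prod with
  | empty =>
    have := io_P_rect ν hL hS b (MeasurableSet.empty (α := X)) (MeasurableSet.empty (α := X)) c d
    simpa using this
  | basic t ht =>
    obtain ⟨A, hA, B, hB, rfl⟩ := ht
    exact io_P_rect ν hL hS b hA hB c d
  | compl t htm ih =>
    have h1 := io_P_rect ν hL hS b (MeasurableSet.univ (α := X)) (MeasurableSet.univ (α := X)) c d
    have h2 := io_P_kf_smul ν hL hS b c d (measurable_const.indicator htm) (io_ind_le t) (-1) ih
    have h3 := io_P_kf_add ν hL hS b c d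
      (measurable_const.indicator (MeasurableSet.univ.prod MeasurableSet.univ))
      ((measurable_const.indicator htm).const_mul (-1)) (io_ind_le _) (M' := 1)
      (fun p => by rw [norm_mul, norm_neg, norm_one, one_mul]; exact io_ind_le t p) h1 h2
    have h4 : (fun p : X × X => ((Set.univ : Set X) ×ˢ (Set.univ : Set X)).indicator
        (fun _ => (1 : ℂ)) p + -1 * t.indicator (fun _ => (1 : ℂ)) p)
        = tᶜ.indicator fun _ => 1 := by
      funext p
      by_cases h : p ∈ t <;> simp [h]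
    rwa [h4] at h3
  | iUnion f hd hm ih =>
    refine io_P_close_kf ν hL hS b c d (measurable_const.indicator (MeasurableSet.iUnion hm))
      (io_ind_le _) fun ε hε => ?_
    have hfin : ∀ n : ℕ, io_P ν L S b
        (io_kf c d ((⋃ i ∈ Finset.range n, f i).indicator fun _ => 1)) := by
      intro n
      induction n with
      | zero =>
        have := io_P_rect ν hL hS b (MeasurableSet.empty (α := X)) (MeasurableSet.empty (α := X))
          c d
        simpa using this
      | succ n ihn =>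
        have hmn : MeasurableSet (⋃ i ∈ Finset.range n, f i) :=
          Finset.measurableSet_biUnion _ fun i _ => hm i
        have h3 := io_P_kf_add ν hL hS b c d (measurable_const.indicator hmn)
          (measurable_const.indicator (hm n)) (io_ind_le _) (io_ind_le _) ihn (ih n)
        have h4 : (fun p : X × X => (⋃ i ∈ Finset.range n, f i).indicator (fun _ => (1 : ℂ)) p
            + (f n).indicator (fun _ => (1 : ℂ)) p)
            = (⋃ i ∈ Finset.range (n + 1), f i).indicator fun _ => 1 := by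
          funext p
          have hdisj : p ∈ f n → p ∉ ⋃ i ∈ Finset.range n, f i := by
            intro h1 h2
            simp only [Set.mem_iUnion, Finset.mem_range] at h2
            obtain ⟨i, hi, hp⟩ := h2
            exact (Set.disjoint_left.1 (hd hi.ne) hp) h1
          have hun : (⋃ i ∈ Finset.range (n + 1), f i) = (⋃ i ∈ Finset.range n, f i) ∪ f n := by
            ext q
            simp only [Set.mem_iUnion, Finset.mem_range, Set.mem_union]
            constructor
            · rintro ⟨i, hi, hq⟩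
              rcases Nat.lt_succ_iff_lt_or_eq.1 hi with h | h
              · exact Or.inl ⟨i, h, hq⟩
              · exact Or.inr (h ▸ hq)
            · rintro (⟨i, hi, hq⟩ | hq)
              · exact ⟨i, hi.trans (Nat.lt_succ_self n), hq⟩
              · exact ⟨n, Nat.lt_succ_self n, hq⟩
          rw [hun]
          by_cases h1 : p ∈ f n
          · have h2 := hdisj h1
            rw [Set.indicator_of_notMem h2, Set.indicator_of_mem h1,
              Set.indicator_of_mem (Set.mem_union_right _ h1), zero_add]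
          · rw [Set.indicator_of_notMem h1, add_zero]
            by_cases h2 : p ∈ ⋃ i ∈ Finset.range n, f i
            · rw [Set.indicator_of_mem h2, Set.indicator_of_mem (Set.mem_union_left _ h2)]
            · rw [Set.indicator_of_notMem h2, Set.indicator_of_notMem (by
                rintro (h | h); exacts [h2 h, h1 h])]
        rwa [h4] at h3
    have htend : Filter.Tendsto (fun n : ℕ => ∫ p, ‖(⋃ i, f i).indicator (fun _ => (1 : ℂ)) p
        - (⋃ i ∈ Finset.range n, f i).indicator (fun _ => (1 : ℂ)) p‖ ^ 2 ∂(ν.prod ν))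
        Filter.atTop (nhds (∫ _p : X × X, (0 : ℝ) ∂(ν.prod ν))) := by
      refine tendsto_integral_of_dominated_convergence (fun _ => 4) (fun n => ?_)
        (integrable_const _) (fun n => Filter.Eventually.of_forall fun p => ?_)
        (Filter.Eventually.of_forall fun p => ?_)
      · exact (((measurable_const.indicator (MeasurableSet.iUnion hm)).sub
          (measurable_const.indicator (Finset.measurableSet_biUnion _ fun i _ => hm i))).norm.pow_const
          2).aestronglyMeasurable
      · rw [Real.norm_of_nonneg (by positivity)]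
        have h1 := norm_sub_le ((⋃ i, f i).indicator (fun _ => (1 : ℂ)) p)
          ((⋃ i ∈ Finset.range n, f i).indicator (fun _ => (1 : ℂ)) p)
        have h2 := io_ind_le (⋃ i, f i) p
        have h3 := io_ind_le (⋃ i ∈ Finset.range n, f i) p
        nlinarith [norm_nonneg ((⋃ i, f i).indicator (fun _ => (1 : ℂ)) p -
          (⋃ i ∈ Finset.range n, f i).indicator (fun _ => (1 : ℂ)) p)]
      · refine tendsto_const_nhds.congr' ?_
        by_cases hp : p ∈ ⋃ i, f i
        · obtain ⟨j, hj⟩ := Set.mem_iUnion.1 hp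
          filter_upwards [Filter.eventually_gt_atTop j] with n hn
          have h2 : p ∈ ⋃ i ∈ Finset.range n, f i := by
            simp only [Set.mem_iUnion, Finset.mem_range]
            exact ⟨j, hn, hj⟩
          change (0 : ℝ) = ‖(⋃ i, f i).indicator (fun _ => (1 : ℂ)) p -
            (⋃ i ∈ Finset.range n, f i).indicator (fun _ => (1 : ℂ)) p‖ ^ 2
          rw [Set.indicator_of_mem hp, Set.indicator_of_mem h2]
          simp
        · refine Filter.Eventually.of_forall fun n => ?_
          have h2 : p ∉ ⋃ i ∈ Finset.range n, f i := by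
            intro h
            simp only [Set.mem_iUnion, Finset.mem_range] at h hp
            obtain ⟨i, -, hi⟩ := h
            exact hp ⟨i, hi⟩
          change (0 : ℝ) = ‖(⋃ i, f i).indicator (fun _ => (1 : ℂ)) p -
            (⋃ i ∈ Finset.range n, f i).indicator (fun _ => (1 : ℂ)) p‖ ^ 2
          rw [Set.indicator_of_notMem hp, Set.indicator_of_notMem h2]
          simp
    rw [integral_zero] at htend
    obtain ⟨n, hn⟩ := (htend.eventually (gt_mem_nhds hε)).exists
    exact ⟨_, measurable_const.indicator (Finset.measurableSet_biUnion _ fun i _ => hm i),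
      ⟨1, io_ind_le _⟩, hfin n, hn.le⟩

private theorem io_P_simple (c d : J) (s : SimpleFunc (X × X) ℂ) :
    io_P ν L S b (io_kf c d s) := by
  induction s using SimpleFunc.induction with
  | const z hs =>
    rename_i E
    have h1 := io_P_kf_smul ν hL hS b c d (measurable_const.indicator hs) (io_ind_le E) z
      (io_P_set ν hL hS b c d hs)
    have h2 : (fun p : X × X => z * E.indicator (fun _ => (1 : ℂ)) p)
        = (SimpleFunc.piecewise E hs (SimpleFunc.const (X × X) z) (SimpleFunc.const (X × X) 0)) := by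
      funext p
      by_cases h : p ∈ E <;> simp [h]
    rwa [h2] at h1
  | add hfg hf hg =>
    rename_i f g
    obtain ⟨M, hM⟩ := f.exists_forall_norm_le
    obtain ⟨N, hN⟩ := g.exists_forall_norm_le
    exact io_P_kf_add ν hL hS b c d f.measurable g.measurable hM hN hf hg

private theorem io_P_bdd (c d : J) {k : X × X → ℂ} (hk : Measurable k)
    {M : ℝ} (hM : ∀ p, ‖k p‖ ≤ M) : io_P ν L S b (io_kf c d k) := by
  refine io_P_close_kf ν hL hS b c d hk hM fun ε hε => ?_
  have hsm := hk.stronglyMeasurable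
  have hle : ∀ n p, ‖hsm.approxBounded (max M 0) n p‖ ≤ max M 0 := fun n p =>
    hsm.norm_approxBounded_le (le_max_right _ _) n p
  have htend : Filter.Tendsto (fun n : ℕ => ∫ p, ‖k p - hsm.approxBounded (max M 0) n p‖ ^ 2
      ∂(ν.prod ν)) Filter.atTop (nhds (∫ _p : X × X, (0 : ℝ) ∂(ν.prod ν))) := by
    refine tendsto_integral_of_dominated_convergence (fun _ => (2 * max M 0) ^ 2) (fun n => ?_)
      (integrable_const _) (fun n => Filter.Eventually.of_forall fun p => ?_)
      (Filter.Eventually.of_forall fun p => ?_)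
    · exact ((hk.sub (SimpleFunc.measurable _)).norm.pow_const 2).aestronglyMeasurable
    · rw [Real.norm_of_nonneg (by positivity)]
      have h1 := norm_sub_le (k p) (hsm.approxBounded (max M 0) n p)
      have h2 := hle n p
      have h3 := (hM p).trans (le_max_left M 0)
      exact pow_le_pow_left₀ (norm_nonneg _) (by linarith) 2
    · have h1 := hsm.tendsto_approxBounded_of_norm_le ((hM p).trans (le_max_left M 0))
      have h2 := ((tendsto_const_nhds (x := k p)).sub h1).norm.pow 2
      simpa using h2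
  rw [integral_zero] at htend
  obtain ⟨n, hn⟩ := (htend.eventually (gt_mem_nhds hε)).exists
  exact ⟨_, SimpleFunc.measurable _, ⟨_, hle n⟩, io_P_simple ν hL hS b c d _, hn.le⟩

private theorem io_P_all {K : X → X → Matrix J J ℂ} (hK : Ker K) : io_P ν L S b K := by
  obtain ⟨M, hM⟩ := hK.bdd
  have h1 : ∀ (F : Finset (J × J)), Ker (fun x y => ∑ q ∈ F,
      io_kf q.1 q.2 (fun p => K p.1 p.2 q.1 q.2) x y) ∧
      io_P ν L S b fun x y => ∑ q ∈ F, io_kf q.1 q.2 (fun p => K p.1 p.2 q.1 q.2) x y := by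
    intro F
    induction F using Finset.induction_on with
    | empty =>
      simp only [Finset.sum_empty]
      refine ⟨⟨fun _ _ => by simpa using measurable_const, 0, fun _ _ _ _ => by simp⟩, ?_⟩
      intro T hT
      have h0 : HasKer ν (0 : Lp (EuclideanSpace ℂ J) 2 ν →L[ℂ] Lp (EuclideanSpace ℂ J) 2 ν)
          (fun _ _ => (0 : Matrix J J ℂ)) := by
        intro f
        filter_upwards [Lp.coeFn_zero (EuclideanSpace ℂ J) 2 ν] with x hx a
        rw [_root_.zero_apply, hx]
        simp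
      rw [hasKer_unique ν hT h0]
      simp [io_I]
    | insert q F hq ih =>
      simp only [Finset.sum_insert hq]
      have h2 : Ker (io_kf q.1 q.2 fun p => K p.1 p.2 q.1 q.2) :=
        io_kf_ker q.1 q.2 (hK.meas q.1 q.2) fun p => hM _ _ _ _
      exact ⟨io_ker_add h2 ih.1, io_P_add ν hL hS b h2 ih.1
        (io_P_bdd ν hL hS b q.1 q.2 (hK.meas q.1 q.2) fun p => hM _ _ _ _) ih.2⟩
  have h2 := (h1 Finset.univ).2
  have h3 : (fun x y => ∑ q : J × J, io_kf q.1 q.2 (fun p => K p.1 p.2 q.1 q.2) x y) = K := by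
    funext x y
    rw [Fintype.sum_prod_type]
    exact (Matrix.matrix_eq_sum_single (K x y)).symm
  rwa [h3] at h2

end Q

theorem hasKer_trace {K L : X → X → Matrix J J ℂ} (hK : Ker K) (hL : Ker L)
    {T S : Lp (EuclideanSpace ℂ J) 2 ν →L[ℂ] Lp (EuclideanSpace ℂ J) 2 ν} (h : HasKer ν T K)
    (h' : HasKer ν S L) {ι : Type} (b : HilbertBasis ι ℂ (Lp (EuclideanSpace ℂ J) 2 ν)) :
    Summable (fun i => ‖inner ℂ (b i) (T (S (b i)))‖) ∧
    HasSum (fun i => inner ℂ (b i) (T (S (b i))))
      (∫ x, ∫ y, (K x y * L y x).trace ∂ν ∂ν) := by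
  classical
  have h1 := (io_V_bound ν hK hL h h' b).1
  refine ⟨h1, ?_⟩
  have h2 : ∫ x, ∫ y, (K x y * L y x).trace ∂ν ∂ν = io_I ν K L := by
    unfold io_I
    rw [integral_prod _ (io_tr_int ν hK hL)]
    simp only [Matrix.trace, Matrix.diag_apply, Matrix.mul_apply]
  rw [h2, ← io_P_all ν hL h' b hK T h]
  exact h1.of_norm.hasSum

end

end

end Pool.Agent.Work.MP_14c213_gt
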