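import Pool.Agent.Work.MP_14c213_gt.A.Green
import Pool.Agent.Work.MP_14c213_gt.A.IntOp

/-!
The embedding of smooth sections in L²(D). F ↦ F ∘ sec restricted to D (bounded, D relatively
compact).
-/

namespace Pool.Agent.Work.MP_14c213_gt

open Matrix MeasureTheory
open scoped Matrix ContDiff Matrix.Norms.Elementwise

noncomputable section

/-- `F ∘ sec` as a function with values in the euclidean space -/
def embF {k : ℕ} (F : M2 → Ix k → ℂ) (p : UH) : EuclideanSpace ℂ (Ix k) :=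
  WithLp.toLp 2 (F (sec p))

theorem embF_cont {k : ℕ} {F : M2 → Ix k → ℂ} (hF : ContinuousOn F GLo) :
    ContinuousOn (embF F) UHs := by
  have h1 : ContinuousOn (fun p => F (sec p)) UHs :=
    hF.comp sec_smooth.continuous.continuousOn fun p hp => sec_mem hp
  exact (PiLp.continuous_toLp 2 (fun _ : Ix k => ℂ)).comp_continuousOn h1

theorem emb_finite {Γ : Subgroup (Mat 3)ˣ} {D : Set UH} (hD : FD Γ D) :
    IsFiniteMeasure (mu.restrict D) := by
  obtain ⟨K, hK, hKs, hDK⟩ := hD.bdd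
  exact ⟨by rw [Measure.restrict_apply_univ]; exact (measure_mono hDK).trans_lt (mu_finite hK hKs)⟩

theorem embF_memLp {k : ℕ} {Γ : Subgroup (Mat 3)ˣ} {D : Set UH} (hD : FD Γ D)
    {F : M2 → Ix k → ℂ} (hF : ContinuousOn F GLo) : MemLp (embF F) 2 (mu.restrict D) := by
  have := emb_finite hD
  obtain ⟨K, hK, hKs, hDK⟩ := hD.bdd
  obtain ⟨C, hC⟩ := hK.exists_bound_of_continuousOn ((embF_cont hF).mono hKs)
  refine MemLp.of_bound (((embF_cont hF).mono hD.sub).aestronglyMeasurable hD.meas) C ?_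
  exact (ae_restrict_iff' hD.meas).2 (Filter.Eventually.of_forall fun p hp => hC p (hDK hp))

/-- F ∘ sec as an element of L². -/
theorem emb_exists {k : ℕ} {Γ : Subgroup (Mat 3)ˣ} {D : Set UH} (h : Klein Γ) (hD : FD Γ D) :
    ∃ ι : Sect (tau k) Γ →ₗ[ℂ] Hk k D, Function.Injective ι ∧
      (∀ F, ∀ᵐ p ∂(mu.restrict D), ∀ a, (ι F : UH → EuclideanSpace ℂ (Ix k)) p a = F.1 (sec p) a) ∧
      ∀ F G, inner ℂ (ι F) (ι G) = ip k D F.1 G.1 := by
  have hm : ∀ F : Sect (tau k) Γ, MemLp (embF F.1) 2 (mu.restrict D) := fun F =>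
    embF_memLp hD F.2.2.1.continuousOn
  let ι : Sect (tau k) Γ →ₗ[ℂ] Hk k D :=
    { toFun := fun F => (hm F).toLp _
      map_add' := fun F G => by
        rw [← MemLp.toLp_add (hm F) (hm G)]
        rfl
      map_smul' := fun c F => by
        rw [RingHom.id_apply, ← MemLp.toLp_const_smul c (hm F)]
        rfl }
  have hι : ∀ F, (ι F : UH → EuclideanSpace ℂ (Ix k)) =ᵐ[mu.restrict D] embF F.1 := fun F =>
    (hm F).coeFn_toLp
  have hin : ∀ F G, inner ℂ (ι F) (ι G) = ip k D F.1 G.1 := by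
    intro F G
    rw [L2.inner_def]
    unfold ip
    refine integral_congr_ae ?_
    filter_upwards [hι F, hι G] with p h1 h2
    rw [h1, h2, EuclideanSpace.inner_eq_star_dotProduct, dotProduct_comm]
    rfl
  refine ⟨ι, ?_, fun F => ?_, hin⟩
  · rw [← LinearMap.ker_eq_bot, LinearMap.ker_eq_bot']
    intro F hF
    apply ip_pos h hD F
    rw [← hin, hF, inner_zero_left]
  · filter_upwards [hι F] with p hp a
    rw [hp]
    rfl

end

end Pool.Agent.Work.MP_14c213_gt
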