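import Pool.Agent.Work.MP_14c213_gt.A.LoxM
import Pool.Agent.Work.MP_14c213_gt.A.MuInv

/-!
Existence of a strict, measurable, relatively compact fundamental domain.
Take a compact C ⊆ UHs meeting every orbit (from Klein.coc with g = SS p: (γ SS p) 0 0 ≤ R bounds
act γ p in a compact set). Every point has an open neighbourhood U, relatively compact in UHs, with
act γ U ∩ U = ∅ for γ ≠ 1 (finitely many γ with act γ p close to p by `disc`, none fixes p). Finitely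
many U_i cover C; D = ∪_i (U_i \ ∪_{j<i} ∪_γ act γ U_j).
-/

namespace Pool.Agent.Work.MP_14c213_gt

open Matrix MeasureTheory
open scoped Matrix ContDiff Matrix.Norms.Elementwise

noncomputable section

private theorem fde_SSF {p : UH} (hp : p ∈ UHs) : SS p ∈ Frames 3 := (SS_SO hp).1

private theorem fde_F {Γ : Subgroup (Mat 3)ˣ} (h : Klein Γ) {γ : (Mat 3)ˣ} (hγ : γ ∈ Γ) :
    (γ : Mat 3) ∈ Frames 3 := (Klein_SO h hγ).1

private theorem fde_col (A : Mat 3) (k : Matrix (Fin 3) (Fin 3) ℝ) (a : Fin 4) :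
    (A * rot k) a 0 = A a 0 := by
  simp only [Matrix.mul_apply, rot, Matrix.of_apply]
  rw [Fin.sum_univ_succ]
  simp

private theorem fde_SS_act_col {A : Mat 3} (hA : A ∈ SO) {p : UH} (hp : p ∈ UHs) (a : Fin 4) :
    SS (act A p) a 0 = (A * SS p) a 0 := by
  obtain ⟨k, _, _, e⟩ := act_SS hA hp
  rw [e, fde_col]

/-- Only finitely many translates of a compact set meet a compact set. -/
theorem Klein_proper {Γ : Subgroup (Mat 3)ˣ} (h : Klein Γ) {K : Set UH} (hK : IsCompact K)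
    (hKs : K ⊆ UHs) (R : ℝ) :
    {γ : Γ | ∃ p ∈ K, ∃ q ∈ K, ((SS p)⁻¹ * ((γ : (Mat 3)ˣ) : Mat 3) * SS q) 0 0 ≤ R}.Finite := by
  obtain ⟨M, hM⟩ := SS_bounded hK hKs
  have hfin := h.disc (∑ _a : Fin 4, ∑ _b : Fin 4, |M| * |R| * |M|)
  refine (hfin.preimage (f := fun γ : Γ => (γ : (Mat 3)ˣ)) (Subtype.coe_injective.injOn)).subset ?_
  rintro γ ⟨p, hp, q, hq, hle⟩
  refine ⟨γ.2, ?_⟩
  have hpF := fde_SSF (hKs hp)
  have hqF := fde_SSF (hKs hq)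
  obtain ⟨hpi, _, _, hp1, hp2⟩ := Frames_inv hpF
  obtain ⟨hqi, _, _, hq1, hq2⟩ := Frames_inv hqF
  set X : Mat 3 := (SS p)⁻¹ * ((γ : (Mat 3)ˣ) : Mat 3) * SS q with hX
  have hXF : X ∈ Frames 3 := Frames_mul (Frames_mul hpi (fde_F h γ.2)) hqF
  have hγ : ((γ : (Mat 3)ˣ) : Mat 3) = SS p * X * (SS q)⁻¹ := by
    rw [hX]
    calc ((γ : (Mat 3)ˣ) : Mat 3) = (SS p * (SS p)⁻¹) * ((γ : (Mat 3)ˣ) : Mat 3) * (SS q * (SS q)⁻¹) := by
          rw [hp1, hq1, Matrix.one_mul, Matrix.mul_one]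
      _ = _ := by simp only [Matrix.mul_assoc]
  rw [hγ, Matrix.mul_apply]
  have e1 : ∀ b, (SS p * X) 0 b * (SS q)⁻¹ b 0 = ∑ a, SS p 0 a * X a b * (SS q)⁻¹ b 0 := by
    intro b
    rw [Matrix.mul_apply, Finset.sum_mul]
  simp only [e1]
  rw [Finset.sum_comm]
  refine Finset.sum_le_sum fun a _ => Finset.sum_le_sum fun b _ => ?_
  have hXR : |X a b| ≤ |R| := (Frames_entry hXF a b).trans (hle.trans (le_abs_self R))
  have h1 : |SS p 0 a| ≤ |M| := ((hM p hp 0 a).1).trans (le_abs_self M)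
  have h2 : |(SS q)⁻¹ b 0| ≤ |M| := ((hM q hq b 0).2).trans (le_abs_self M)
  calc SS p 0 a * X a b * (SS q)⁻¹ b 0 ≤ |SS p 0 a * X a b * (SS q)⁻¹ b 0| := le_abs_self _
    _ = |SS p 0 a| * |X a b| * |(SS q)⁻¹ b 0| := by rw [abs_mul, abs_mul]
    _ ≤ |M| * |R| * |M| :=
      mul_le_mul (mul_le_mul h1 hXR (abs_nonneg _) (abs_nonneg _)) h2 (abs_nonneg _)
        (mul_nonneg (abs_nonneg _) (abs_nonneg _))

theorem Klein_countable {Γ : Subgroup (Mat 3)ˣ} (h : Klein Γ) : Countable Γ := by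
  have h1 : (Γ : Set (Mat 3)ˣ) ⊆ ⋃ n : ℕ, {γ : (Mat 3)ˣ | γ ∈ Γ ∧ (γ : Mat 3) 0 0 ≤ (n : ℝ)} := by
    intro γ hγ
    obtain ⟨n, hn⟩ := exists_nat_ge ((γ : Mat 3) 0 0)
    exact Set.mem_iUnion.2 ⟨n, hγ, hn⟩
  have h2 : (Γ : Set (Mat 3)ˣ).Countable :=
    (Set.countable_iUnion fun n : ℕ => (h.disc (n : ℝ)).countable).mono h1
  exact h2.to_subtype

private theorem fde_inv_act {Γ : Subgroup (Mat 3)ˣ} (h : Klein Γ) {γ : (Mat 3)ˣ} (hγ : γ ∈ Γ)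
    {p : UH} (hp : p ∈ UHs) : act ((γ⁻¹ : (Mat 3)ˣ) : Mat 3) (act (γ : Mat 3) p) = p := by
  have hγ' : γ⁻¹ ∈ Γ := Γ.inv_mem hγ
  rw [← act_mul (fde_F h hγ') (fde_F h hγ) hp, ← Units.val_mul, inv_mul_cancel, Units.val_one,
    act_one hp]

private theorem fde_mul_act {Γ : Subgroup (Mat 3)ˣ} (h : Klein Γ) {γ δ : (Mat 3)ˣ} (hγ : γ ∈ Γ)
    (hδ : δ ∈ Γ) {p : UH} (hp : p ∈ UHs) :
    act ((γ * δ : (Mat 3)ˣ) : Mat 3) p = act (γ : Mat 3) (act (δ : Mat 3) p) := by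
  rw [Units.val_mul, act_mul (fde_F h hγ) (fde_F h hδ) hp]

/-- A compact set which meets every orbit. -/
private theorem fde_compact {Γ : Subgroup (Mat 3)ˣ} (h : Klein Γ) :
    ∃ C : Set UH, IsCompact C ∧ C ⊆ UHs ∧ ∀ p ∈ UHs, ∃ γ ∈ Γ, act (γ : Mat 3) p ∈ C := by
  obtain ⟨R, hR⟩ := h.coc
  set o : UH := (0, 1) with ho
  have hoU : o ∈ UHs := by
    change (0 : ℝ) < 1
    norm_num
  have hSo : SS o = 1 := by
    have : sec o = 1 := by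
      ext i j
      fin_cases i <;> fin_cases j <;> simp [sec, ho]
    rw [SS, this, Phi_one]
  refine ⟨{q | q ∈ UHs ∧ ∃ p ∈ ({o} : Set UH), ((SS p)⁻¹ * SS q) 0 0 ≤ R},
    dist_compact isCompact_singleton (by simpa using hoU) R, fun q hq => hq.1, ?_⟩
  intro p hp
  obtain ⟨γ, hγ, hle⟩ := hR (SS p) (fde_SSF hp)
  refine ⟨γ, hγ, act_mem (fde_F h hγ) hp, o, rfl, ?_⟩
  rw [hSo, inv_one, Matrix.one_mul, fde_SS_act_col (Klein_SO h hγ) hp]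
  exact hle

/-- Good neighbourhoods. -/
private theorem fde_nhd {Γ : Subgroup (Mat 3)ˣ} (h : Klein Γ) {p : UH} (hp : p ∈ UHs) :
    ∃ U K : Set UH, IsOpen U ∧ p ∈ U ∧ IsCompact K ∧ K ⊆ UHs ∧ U ⊆ K ∧
      ∀ γ ∈ Γ, ∀ q ∈ U, act (γ : Mat 3) q ∈ U → γ = 1 := by
  classical
  obtain ⟨K, hKn, hKs, hK⟩ := (compact_basis_nhds p).mem_iff.1 (UHs_open.mem_nhds hp) |>.imp
    (fun K hK => (⟨hK.1.1, hK.2, hK.1.2⟩ : K ∈ nhds p ∧ K ⊆ UHs ∧ IsCompact K))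
  have hfin := Klein_proper h hK hKs 1
  have key : ∀ γ : Γ, (γ : (Mat 3)ˣ) ≠ 1 → ∃ U : Set UH, IsOpen U ∧ p ∈ U ∧
      ∀ q ∈ U, q ∈ UHs → act ((γ : (Mat 3)ˣ) : Mat 3) q ∉ U := by
    intro γ hne
    obtain ⟨z, hz⟩ := h.lox γ γ.2 hne
    have hnp := Lox_free hz hp
    obtain ⟨V, W, hV, hW, hVp, hWp, hdis⟩ := t2_separation hnp
    have hcont := act_cont (fde_F h γ.2)
    have hop : IsOpen (UHs ∩ act ((γ : (Mat 3)ˣ) : Mat 3) ⁻¹' V) :=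
      hcont.isOpen_inter_preimage UHs_open hV
    refine ⟨(UHs ∩ act ((γ : (Mat 3)ˣ) : Mat 3) ⁻¹' V) ∩ W, hop.inter hW, ⟨⟨hp, hVp⟩, hWp⟩, ?_⟩
    rintro q ⟨⟨_, hqV⟩, _⟩ _ ⟨_, hqW⟩
    exact Set.disjoint_left.1 hdis hqV hqW
  choose! U hUo hUp hUd using key
  set S := hfin.toFinset with hS
  refine ⟨interior K ∩ ⋂ γ ∈ S.filter (fun γ : Γ => (γ : (Mat 3)ˣ) ≠ 1), U γ, K, ?_, ?_, hK, hKs,
    ?_, ?_⟩
  · refine isOpen_interior.inter (isOpen_biInter_finset fun γ hγ => ?_)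
    exact hUo γ (Finset.mem_filter.1 hγ).2
  · refine ⟨mem_interior_iff_mem_nhds.2 hKn, ?_⟩
    simp only [Set.mem_iInter]
    intro γ hγ
    exact hUp γ (Finset.mem_filter.1 hγ).2
  · exact fun q hq => interior_subset hq.1
  · intro γ hγ q hq hγq
    by_contra hne
    have hqK : q ∈ K := interior_subset hq.1
    have hγqK : act (γ : Mat 3) q ∈ K := interior_subset hγq.1
    have hin : (⟨γ, hγ⟩ : Γ) ∈ S := by
      rw [hS, Set.Finite.mem_toFinset]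
      refine ⟨act (γ : Mat 3) q, hγqK, q, hqK, ?_⟩
      change ((SS (act (γ : Mat 3) q))⁻¹ * (γ : Mat 3) * SS q) 0 0 ≤ 1
      rw [Matrix.mul_assoc, Matrix.mul_apply]
      have e1 : ∀ a, (SS (act (γ : Mat 3) q))⁻¹ 0 a * ((γ : Mat 3) * SS q) a 0 =
          (SS (act (γ : Mat 3) q))⁻¹ 0 a * SS (act (γ : Mat 3) q) a 0 := by
        intro a
        rw [fde_SS_act_col (Klein_SO h hγ) (hKs hqK)]
      simp only [e1]
      rw [← Matrix.mul_apply, (Frames_inv (fde_SSF (hKs hγqK))).2.2.2.2]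
      simp
    have hmem : (⟨γ, hγ⟩ : Γ) ∈ S.filter (fun γ : Γ => (γ : (Mat 3)ˣ) ≠ 1) :=
      Finset.mem_filter.2 ⟨hin, hne⟩
    have h1 : q ∈ U ⟨γ, hγ⟩ := by
      have := hq.2
      simp only [Set.mem_iInter] at this
      exact this _ hmem
    have h2 : act (γ : Mat 3) q ∈ U ⟨γ, hγ⟩ := by
      have := hγq.2
      simp only [Set.mem_iInter] at this
      exact this _ hmem
    exact hUd ⟨γ, hγ⟩ hne q h1 (hKs hqK) h2

/-- Partial domains, by induction over the cover. -/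
private theorem fde_step {Γ : Subgroup (Mat 3)ˣ} (h : Klein Γ) (U K : UH → Set UH)
    (hUo : ∀ p ∈ UHs, IsOpen (U p)) (hKs : ∀ p ∈ UHs, K p ⊆ UHs) (hUK : ∀ p ∈ UHs, U p ⊆ K p)
    (hUf : ∀ p ∈ UHs, ∀ γ ∈ Γ, ∀ q ∈ U p, act (γ : Mat 3) q ∈ U p → γ = 1)
    (t : Finset UH) : (∀ p ∈ t, p ∈ UHs) →
    ∃ D : Set UH, MeasurableSet D ∧ D ⊆ ⋃ p ∈ t, U p ∧
      (∀ q ∈ UHs, (∃ γ ∈ Γ, act (γ : Mat 3) q ∈ ⋃ p ∈ t, U p) → ∃ γ ∈ Γ, act (γ : Mat 3) q ∈ D) ∧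
      ∀ q ∈ D, ∀ γ ∈ Γ, act (γ : Mat 3) q ∈ D → γ = 1 := by
  classical
  have hctb := Klein_countable h
  induction t using Finset.induction_on with
  | empty =>
    intro _
    refine ⟨∅, MeasurableSet.empty, by simp, ?_, by simp⟩
    rintro q _ ⟨γ, hγ, hm⟩
    simp at hm
  | insert p t hpt ih =>
    intro ht
    obtain ⟨D, hDm, hDs, hDe, hDu⟩ := ih fun q hq => ht q (Finset.mem_insert_of_mem hq)
    have hp : p ∈ UHs := ht p (Finset.mem_insert_self p t)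
    have hDU : D ⊆ UHs := by
      intro q hq
      obtain ⟨r, hr, hqr⟩ := Set.mem_iUnion₂.1 (hDs hq)
      have hrU := ht r (Finset.mem_insert_of_mem hr)
      exact hKs r hrU (hUK r hrU hqr)
    have hUU : U p ⊆ UHs := (hUK p hp).trans (hKs p hp)
    set S : Set UH := ⋃ γ : Γ, act ((γ : (Mat 3)ˣ) : Mat 3) '' D with hS
    have hSm : MeasurableSet S :=
      MeasurableSet.iUnion fun γ => (act_image_measure (Klein_SO h γ.2) hDm hDU).1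
    have hSmem : ∀ q ∈ UHs, q ∈ S ↔ ∃ γ ∈ Γ, act (γ : Mat 3) q ∈ D := by
      intro q hq
      rw [hS, Set.mem_iUnion]
      constructor
      · rintro ⟨γ, r, hr, hrq⟩
        refine ⟨(γ : (Mat 3)ˣ)⁻¹, Γ.inv_mem γ.2, ?_⟩
        rw [← hrq, fde_inv_act h γ.2 (hDU hr)]
        exact hr
      · rintro ⟨γ, hγ, hm⟩
        exact ⟨⟨γ⁻¹, Γ.inv_mem hγ⟩, act (γ : Mat 3) q, hm, fde_inv_act h hγ hq⟩
    refine ⟨D ∪ (U p \ S), hDm.union (((hUo p hp).measurableSet).diff hSm), ?_, ?_, ?_⟩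
    · rintro q (hq | hq)
      · obtain ⟨r, hr, hqr⟩ := Set.mem_iUnion₂.1 (hDs hq)
        exact Set.mem_iUnion₂.2 ⟨r, Finset.mem_insert_of_mem hr, hqr⟩
      · exact Set.mem_iUnion₂.2 ⟨p, Finset.mem_insert_self p t, hq.1⟩
    · intro q hq hex
      by_cases hqS : ∃ γ ∈ Γ, act (γ : Mat 3) q ∈ D
      · obtain ⟨γ, hγ, hm⟩ := hqS
        exact ⟨γ, hγ, Or.inl hm⟩
      · obtain ⟨γ, hγ, hm⟩ := hex
        obtain ⟨r, hr, hqr⟩ := Set.mem_iUnion₂.1 hm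
        rcases Finset.mem_insert.1 hr with hrp | hrt
        · rw [hrp] at hqr
          refine ⟨γ, hγ, Or.inr ⟨hqr, ?_⟩⟩
          rw [hSmem _ (hUU hqr)]
          rintro ⟨δ, hδ, hδm⟩
          exact hqS ⟨δ * γ, Γ.mul_mem hδ hγ, by rw [fde_mul_act h hδ hγ hq]; exact hδm⟩
        · exact absurd (hDe q hq ⟨γ, hγ, Set.mem_iUnion₂.2 ⟨r, hrt, hqr⟩⟩) hqS
    · rintro q (hq | hq) γ hγ (hm | hm)
      · exact hDu q hq γ hγ hm
      · exfalso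
        refine hm.2 ?_
        rw [hSmem _ (hUU hm.1)]
        exact ⟨γ⁻¹, Γ.inv_mem hγ, by rw [fde_inv_act h hγ (hDU hq)]; exact hq⟩
      · exfalso
        refine hq.2 ?_
        rw [hSmem _ (hUU hq.1)]
        exact ⟨γ, hγ, hm⟩
      · exact hUf p hp γ hγ q hq.1 hm.1

theorem FD_exists {Γ : Subgroup (Mat 3)ˣ} (h : Klein Γ) : ∃ D, FD Γ D := by
  classical
  obtain ⟨C, hC, hCs, hCe⟩ := fde_compact h
  choose! U K hUo hUp hKc hKs hUK hUf using fun (p : UH) (hp : p ∈ UHs) => fde_nhd h hp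
  obtain ⟨t, htC, htcov⟩ := hC.elim_nhds_subcover U
    (fun p hp => (hUo p (hCs hp)).mem_nhds (hUp p (hCs hp)))
  obtain ⟨D, hDm, hDs, hDe, hDu⟩ := fde_step h U K hUo hKs hUK hUf t fun p hp => hCs (htC p hp)
  have hbK : D ⊆ ⋃ p ∈ t, K p := by
    intro q hq
    obtain ⟨r, hr, hqr⟩ := Set.mem_iUnion₂.1 (hDs hq)
    exact Set.mem_iUnion₂.2 ⟨r, hr, hUK r (hCs (htC r hr)) hqr⟩
  have hKU : (⋃ p ∈ t, K p) ⊆ UHs := Set.iUnion₂_subset fun p hp => hKs p (hCs (htC p hp))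
  refine ⟨D, hDm, hbK.trans hKU, ⟨⋃ p ∈ t, K p, ?_, hKU, hbK⟩, ?_, hDu⟩
  · exact t.isCompact_biUnion fun p hp => hKc p (hCs (htC p hp))
  · intro q hq
    obtain ⟨γ, hγ, hm⟩ := hCe q hq
    exact hDe q hq ⟨γ, hγ, htcov hm⟩

theorem FD_vol {Γ : Subgroup (Mat 3)ˣ} {D : Set UH} (h : Klein Γ) (hD : FD Γ D) :
    0 < mu D ∧ mu D < ⊤ := by
  obtain ⟨K, hK, hKs, hDK⟩ := hD.bdd
  have hfin : mu D < ⊤ := (measure_mono hDK).trans_lt (mu_finite hK hKs)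
  refine ⟨?_, hfin⟩
  rw [pos_iff_ne_zero]
  intro h0
  have := Klein_countable h
  have hne : UHs.Nonempty := ⟨(0, 1), by change (0 : ℝ) < 1; norm_num⟩
  have hpos := mu_pos UHs_open (le_refl _) hne
  have hsub : UHs ⊆ ⋃ γ : Γ, act ((γ : (Mat 3)ˣ) : Mat 3) '' D := by
    intro p hp
    obtain ⟨γ, hγ, hm⟩ := hD.ex p hp
    refine Set.mem_iUnion.2 ⟨⟨γ⁻¹, Γ.inv_mem hγ⟩, act (γ : Mat 3) p, hm, ?_⟩
    exact fde_inv_act h hγ hp
  have hz : mu (⋃ γ : Γ, act ((γ : (Mat 3)ˣ) : Mat 3) '' D) = 0 := by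
    rw [measure_iUnion_null_iff]
    intro γ
    rw [(act_image_measure (Klein_SO h γ.2) hD.meas hD.sub).2, h0]
  exact absurd (measure_mono_null hsub hz) hpos.ne'

end

end Pool.Agent.Work.MP_14c213_gt
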