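import Pool.Agent.Work.MP_14c213_gt.A.RhoM
import Pool.Agent.Work.MP_14c213_gt.A.RotM

/-!
The representations tens 3 p and tau k of O(3).
-/

namespace Pool.Agent.Work.MP_14c213_gt

open Matrix MeasureTheory
open scoped Matrix ContDiff Matrix.Norms.Elementwise

noncomputable section

private theorem RepM_rot_cont : Continuous (fun k : Matrix (Fin 3) (Fin 3) ℝ => rot k) := by
  refine continuous_matrix fun i j => ?_
  refine Fin.cases ?_ (fun i' => ?_) i
  · refine Fin.cases ?_ (fun j' => ?_) j
    · simp only [rot, Matrix.of_apply, Fin.cons_zero]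
      exact continuous_const
    · simp only [rot, Matrix.of_apply, Fin.cons_zero, Fin.cons_succ]
      exact continuous_const
  · refine Fin.cases ?_ (fun j' => ?_) j
    · simp only [rot, Matrix.of_apply, Fin.cons_zero, Fin.cons_succ]
      exact continuous_const
    · simp only [rot, Matrix.of_apply, Fin.cons_succ]
      exact (continuous_apply j').comp (continuous_apply i')

theorem tau_rep (k : ℕ) : IsRep (tau k) := by
  refine ⟨?_, ?_, ?_, ?_⟩
  · exact ((rho_smooth k).continuous.comp RepM_rot_cont).continuousOn
  · show rho k (rot 1) = 1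
    rw [rot_one, rho_one]
  · intro m _ l _
    show rho k (rot (m * l)) = rho k (rot m) * rho k (rot l)
    rw [rot_mul, rho_mul]
  · intro m hm
    show (rho k (rot m))ᴴ * rho k (rot m) = 1
    rw [← rho_transpose, ← rho_mul, ← rot_transpose, ← rot_mul]
    have h1 : mᵀ * m = 1 := (Matrix.mem_orthogonalGroup_iff' (Fin 3) ℝ).1 hm
    rw [h1, rot_one, rho_one]

private theorem RepM_tens_mul (p : ℕ) (k l : Matrix (Fin 3) (Fin 3) ℝ) :
    tens 3 p (k * l) = tens 3 p k * tens 3 p l := by
  ext I L
  simp only [tens, Matrix.of_apply, Matrix.mul_apply]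
  push_cast
  rw [Finset.prod_univ_sum]
  simp only [Fintype.piFinset_univ]
  refine Finset.sum_congr rfl fun M _ => ?_
  rw [Finset.prod_mul_distrib]

private theorem RepM_tens_one (p : ℕ) : tens 3 p 1 = 1 := by
  ext I L
  simp only [tens, Matrix.of_apply, Matrix.one_apply]
  by_cases h : I = L
  · subst h
    simp
  · rw [if_neg h]
    obtain ⟨a, ha⟩ := Function.ne_iff.1 h
    refine Finset.prod_eq_zero (Finset.mem_univ a) ?_
    simp [ha]

theorem tens_rep (p : ℕ) : IsRep (tens 3 p) := by
  refine ⟨?_, RepM_tens_one p, fun k _ l _ => RepM_tens_mul p k l, ?_⟩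
  · refine Continuous.continuousOn ?_
    refine continuous_matrix fun I L => ?_
    simp only [tens, Matrix.of_apply]
    refine continuous_finsetProd _ fun a _ => ?_
    exact Complex.continuous_ofReal.comp ((continuous_apply (L a)).comp (continuous_apply (I a)))
  · intro m hm
    have h1 : mᵀ * m = 1 := (Matrix.mem_orthogonalGroup_iff' (Fin 3) ℝ).1 hm
    have h2 : (tens 3 p m)ᴴ = tens 3 p mᵀ := by
      ext I L
      simp only [tens, Matrix.of_apply, Matrix.conjTranspose_apply, Matrix.transpose_apply]
      rw [star_prod]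
      refine Finset.prod_congr rfl fun a _ => ?_
      simp
    rw [h2, ← RepM_tens_mul, h1, RepM_tens_one]

end

end Pool.Agent.Work.MP_14c213_gt
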