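import Pool.Agent.Work.MP_14c213_gt.A.Pull
import Pool.Agent.Work.MP_14c213_gt.A.RepM
import Pool.Agent.Work.MP_14c213_gt.A.Lin

/-!
Differential forms in the frame bundle picture on `GL₂(ℂ)`: the multiplicities `formMult` in terms
of the pulled back operators `extE`, `coE`, `hodgeE`.
-/

namespace Pool.Agent.Work.MP_14c213_gt

open Matrix MeasureTheory
open scoped Matrix ContDiff Matrix.Norms.Elementwise

noncomputable section

/-- Exterior derivative on `GL₂(ℂ)`. -/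
def extE {p : ℕ} (H : M2 → (Fin p → Fin 3) → ℂ) : M2 → (Fin (p + 1) → Fin 3) → ℂ :=
  fun g I => ∑ a : Fin (p + 1), (-1 : ℂ) ^ (a : ℕ) * E (eX (I a)) H g (I ∘ a.succAbove)

/-- Codifferential on `GL₂(ℂ)`. -/
def coE {p : ℕ} (H : M2 → (Fin (p + 1) → Fin 3) → ℂ) : M2 → (Fin p → Fin 3) → ℂ :=
  fun g I => -∑ j : Fin 3, E (eX j) H g (Fin.cons j I)

/-- The Hodge Laplacian on `GL₂(ℂ)`. -/
def hodgeE : (p : ℕ) → (M2 → (Fin p → Fin 3) → ℂ) → (M2 → (Fin p → Fin 3) → ℂ)
  | 0, H => coE (extE H)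
  | _ + 1, H => extE (coE H) + coE (extE H)

/-- Eigenforms on `GL₂(ℂ)`. -/
def EigE (p : ℕ) (Γ : Subgroup (Mat 3)ˣ) (lam : ℝ) : Set (M2 → (Fin p → Fin 3) → ℂ) :=
  {H | H ∈ Sect (tens 3 p) Γ ∧
    (∀ g I (σ : Equiv.Perm (Fin p)), H g (I ∘ σ) = ((Equiv.Perm.sign σ : ℤ) : ℂ) * H g I) ∧
    hodgeE p H = (lam : ℂ) • H}

section

variable {J : Type} [Fintype J]

/-- parity under the central symmetry of the frames -/
private def FKPar (s : ℂ) (F : Mat 3 → J → ℂ) : Prop :=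
  ∀ g ∈ Frames 3, F (g * rot (-1)) = s • F g

private theorem FK_rot_boost (i : Fin 3) (t : ℝ) :
    rot (-1 : Matrix (Fin 3) (Fin 3) ℝ) * boost 3 i t = boost 3 i (-t) * rot (-1) := by
  ext a b
  fin_cases i <;> fin_cases a <;> fin_cases b <;>
    simp [rot, boost, Matrix.mul_apply, Fin.sum_univ_four, Fin.cons, Fin.cases,
      Fin.induction, Fin.induction.go, Matrix.one_apply]

private theorem FK_boost_mem (i : Fin 3) (t : ℝ) : boost 3 i t ∈ Frames 3 := by
  rw [← Phi_bst]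
  have h : bst i t ∈ GLo := by
    show (bst i t).det ≠ 0
    rw [bst_det]
    exact one_ne_zero
  exact (Phi_SO h).1

private theorem FKPar_nabla {s : ℂ} {F : Mat 3 → J → ℂ} (h : FKPar s F) (i : Fin 3) :
    FKPar (-s) (nabla i F) := by
  intro g hg
  show deriv (fun t : ℝ => F (g * rot (-1) * boost 3 i t)) 0 =
    -s • deriv (fun t : ℝ => F (g * boost 3 i t)) 0
  have h1 : (fun t : ℝ => F (g * rot (-1) * boost 3 i t)) =
      fun t : ℝ => s • (fun u : ℝ => F (g * boost 3 i u)) (-t) := by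
    funext t
    rw [mul_assoc, FK_rot_boost, ← mul_assoc]
    exact h _ (Frames_mul hg (FK_boost_mem i (-t)))
  rw [h1]
  rw [deriv_fun_const_smul_field]
  have h2 := deriv_comp_neg (fun u : ℝ => F (g * boost 3 i u)) (0 : ℝ)
  rw [neg_zero] at h2
  rw [neg_smul, ← smul_neg, ← h2]

private theorem FK_ext {s : ℂ} (hs : s ≠ 0) {F G : Mat 3 → J → ℂ}
    (hF : ∀ g, g ∉ Frames 3 → F g = 0) (hG : ∀ g, g ∉ Frames 3 → G g = 0)
    (pF : FKPar s F) (pG : FKPar s G) (h : pull F = pull G) : F = G := by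
  have key : ∀ g ∈ SO, F g = G g := by
    intro g hg
    obtain ⟨x, hx, rfl⟩ := Phi_surj hg
    have h1 := congrFun h x
    simp only [pull] at h1
    rw [if_neg hx, if_neg hx] at h1
    exact h1
  funext g
  by_cases hg : g ∈ Frames 3
  · rcases Frames_det hg with hd | hd
    · exact key g ⟨hg, hd⟩
    · have hm : (-1 : Matrix (Fin 3) (Fin 3) ℝ) ∈ Matrix.orthogonalGroup (Fin 3) ℝ := by
        rw [Matrix.mem_orthogonalGroup_iff]
        simp
      have h2 : g * rot (-1) ∈ SO := by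
        refine ⟨Frames_mul hg (rot_mem_Frames hm), ?_⟩
        rw [det_mul, rot_det, hd, det_neg]
        norm_num
      have h3 := key _ h2
      rw [pF g hg, pG g hg] at h3
      exact smul_right_injective _ hs h3
  · rw [hF g hg, hG g hg]

end

private theorem FK_par_tens {p : ℕ} {Γ : Subgroup (Mat 3)ˣ} {F : Mat 3 → (Fin p → Fin 3) → ℂ}
    (hF : F ∈ Sec (tens 3 p) Γ) : FKPar ((-1 : ℂ) ^ p) F := by
  intro g hg
  have hm : (-1 : Matrix (Fin 3) (Fin 3) ℝ) ∈ Matrix.orthogonalGroup (Fin 3) ℝ := by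
    rw [Matrix.mem_orthogonalGroup_iff]
    simp
  rw [hF.2.2.2 _ hm g hg]
  have h1 : tens 3 p ((-1 : Matrix (Fin 3) (Fin 3) ℝ)ᵀ) = (-1 : ℂ) ^ p • 1 := by
    rw [← (tens_rep p).one]
    ext I L
    simp only [tens, Matrix.of_apply, Matrix.smul_apply, Matrix.transpose_neg,
      Matrix.transpose_one, Matrix.neg_apply, smul_eq_mul]
    push_cast
    rw [Finset.prod_neg]
    simp
  rw [h1, Matrix.smul_mulVec, Matrix.one_mulVec]

private theorem FK_ext_sm {p : ℕ} {F : Mat 3 → (Fin p → Fin 3) → ℂ} (hF : SmF F) :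
    SmF (extD F) := by
  refine ⟨fun g hg => ?_, ?_⟩
  · funext I
    simp only [extD, Pi.zero_apply]
    refine Finset.sum_eq_zero fun a _ => ?_
    rw [(nabla_smF hF (I a)).1 g hg]
    simp
  · rw [contDiffOn_pi]
    intro I
    simp only [extD]
    refine ContDiffOn.sum fun a _ => contDiffOn_const.mul ?_
    exact contDiffOn_pi.1 (nabla_smF hF (I a)).2 _

private theorem FK_co_sm {p : ℕ} {F : Mat 3 → (Fin (p + 1) → Fin 3) → ℂ} (hF : SmF F) :
    SmF (coD F) := by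
  refine ⟨fun g hg => ?_, ?_⟩
  · funext I
    simp only [coD, Pi.zero_apply]
    rw [neg_eq_zero]
    refine Finset.sum_eq_zero fun j _ => ?_
    rw [(nabla_smF hF j).1 g hg]
    simp
  · rw [contDiffOn_pi]
    intro I
    simp only [coD]
    refine ContDiffOn.neg (ContDiffOn.sum fun j _ => ?_)
    exact contDiffOn_pi.1 (nabla_smF hF j).2 _

private theorem FK_add_sm {J : Type} [Fintype J] {F G : Mat 3 → J → ℂ} (hF : SmF F)
    (hG : SmF G) : SmF (F + G) := by
  refine ⟨fun g hg => ?_, hF.2.add hG.2⟩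
  rw [Pi.add_apply, hF.1 g hg, hG.1 g hg, add_zero]

private theorem FK_hodge_sm (p : ℕ) {F : Mat 3 → (Fin p → Fin 3) → ℂ} (hF : SmF F) :
    SmF (hodge p F) := by
  cases p with
  | zero => exact FK_co_sm (FK_ext_sm hF)
  | succ p => exact FK_add_sm (FK_ext_sm (FK_co_sm hF)) (FK_co_sm (FK_ext_sm hF))

private theorem FK_ext_par {p : ℕ} {s : ℂ} {F : Mat 3 → (Fin p → Fin 3) → ℂ} (hF : FKPar s F) :
    FKPar (-s) (extD F) := by
  intro g hg
  funext I
  simp only [extD, Pi.smul_apply, smul_eq_mul]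
  rw [Finset.mul_sum]
  refine Finset.sum_congr rfl fun a _ => ?_
  rw [FKPar_nabla hF (I a) g hg]
  simp only [Pi.smul_apply, smul_eq_mul]
  ring

private theorem FK_co_par {p : ℕ} {s : ℂ} {F : Mat 3 → (Fin (p + 1) → Fin 3) → ℂ}
    (hF : FKPar s F) : FKPar (-s) (coD F) := by
  intro g hg
  funext I
  simp only [coD, Pi.smul_apply, smul_eq_mul]
  rw [mul_neg, Finset.mul_sum, neg_inj]
  refine Finset.sum_congr rfl fun a _ => ?_
  rw [FKPar_nabla hF a g hg]
  simp only [Pi.smul_apply, smul_eq_mul]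

private theorem FK_hodge_par (p : ℕ) {s : ℂ} {F : Mat 3 → (Fin p → Fin 3) → ℂ}
    (hF : FKPar s F) : FKPar s (hodge p F) := by
  cases p with
  | zero =>
    have h := FK_co_par (FK_ext_par hF)
    rw [neg_neg] at h
    exact h
  | succ p =>
    have h1 := FK_co_par (FK_ext_par hF)
    have h2 := FK_ext_par (FK_co_par hF)
    rw [neg_neg] at h1 h2
    intro g hg
    show extD (coD F) (g * rot (-1)) + coD (extD F) (g * rot (-1)) =
      s • (extD (coD F) g + coD (extD F) g)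
    rw [h1 g hg, h2 g hg, smul_add]

theorem pull_extD {p : ℕ} {F : Mat 3 → (Fin p → Fin 3) → ℂ} (hF : SmF F) :
    pull (extD F) = extE (pull F) := by
  funext g I
  simp only [extE]
  have h1 : ∀ i : Fin 3, E (eX i) (pull F) g = pull (nabla i F) g := fun i => by
    rw [pull_nabla hF]
  by_cases hg : g.det = 0
  · simp only [h1, pull, if_pos hg]
    simp
  · simp only [h1, pull, if_neg hg, extD]

theorem pull_coD {p : ℕ} {F : Mat 3 → (Fin (p + 1) → Fin 3) → ℂ} (hF : SmF F) :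
    pull (coD F) = coE (pull F) := by
  funext g I
  simp only [coE]
  have h1 : ∀ i : Fin 3, E (eX i) (pull F) g = pull (nabla i F) g := fun i => by
    rw [pull_nabla hF]
  by_cases hg : g.det = 0
  · simp only [h1, pull, if_pos hg]
    simp
  · simp only [h1, pull, if_neg hg, coD]

theorem pull_hodge (p : ℕ) {F : Mat 3 → (Fin p → Fin 3) → ℂ} (hF : SmF F) :
    pull (hodge p F) = hodgeE p (pull F) := by
  cases p with
  | zero =>
    show pull (coD (extD F)) = coE (extE (pull F))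
    rw [pull_coD (FK_ext_sm hF), pull_extD hF]
  | succ p =>
    show pull (extD (coD F) + coD (extD F)) = extE (coE (pull F)) + coE (extE (pull F))
    rw [← pull_extD hF, ← pull_coD hF, ← pull_coD (FK_ext_sm hF), ← pull_extD (FK_co_sm hF)]
    funext g
    simp only [pull, Pi.add_apply]
    split_ifs
    · simp
    · rfl

/-- pull back as a linear map -/
private def FKpull (J : Type) : (Mat 3 → J → ℂ) →ₗ[ℂ] (M2 → J → ℂ) where
  toFun F := pull F
  map_add' F G := by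
    funext g
    simp only [pull, Pi.add_apply]
    split_ifs
    · simp
    · rfl
  map_smul' c F := by
    funext g
    simp only [pull, Pi.smul_apply, RingHom.id_apply]
    split_ifs
    · simp
    · rfl

/-- Ranks of spans under a linear map which is injective on the span. -/
theorem rank_span_map {X Y : Type} [AddCommGroup X] [Module ℂ X] [AddCommGroup Y] [Module ℂ Y]
    (f : X →ₗ[ℂ] Y) (S : Set X) (T : Set Y) (h1 : ∀ x ∈ S, f x ∈ T) (h2 : ∀ y ∈ T, ∃ x ∈ S, f x = y)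
    (h3 : ∀ x ∈ Submodule.span ℂ S, f x = 0 → x = 0) :
    Module.rank ℂ (Submodule.span ℂ S) = Module.rank ℂ (Submodule.span ℂ T) := by
  have hT : T = f '' S := by
    ext y
    constructor
    · intro hy
      obtain ⟨x, hx, rfl⟩ := h2 y hy
      exact ⟨x, hx, rfl⟩
    · rintro ⟨x, hx, rfl⟩
      exact h1 x hx
  rw [hT, ← Submodule.map_span]
  refine LinearEquiv.rank_eq (LinearEquiv.ofBijective
    (f.restrict (p := Submodule.span ℂ S) (q := (Submodule.span ℂ S).map f)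
      (fun x hx => Submodule.mem_map_of_mem hx)) ⟨?_, ?_⟩)
  · rw [← LinearMap.ker_eq_bot, LinearMap.ker_eq_bot']
    intro x hx
    have h4 : f x.1 = 0 := congrArg Subtype.val hx
    exact Subtype.ext (h3 x.1 x.2 h4)
  · rintro ⟨y, hy⟩
    obtain ⟨x, hx, rfl⟩ := hy
    exact ⟨⟨x, hx⟩, rfl⟩

theorem formMult_pull {Γ : Subgroup (Mat 3)ˣ} (hΓ : ∀ γ ∈ Γ, (γ : Mat 3) ∈ SO) (p : ℕ)
    (lam : ℝ) : formMult p Γ lam = Module.rank ℂ (Submodule.span ℂ (EigE p Γ lam)) := by
  have hsub : ∀ F ∈ Submodule.span ℂ {F | IsForm p Γ F ∧ hodge p F = (lam : ℂ) • F},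
      F ∈ Sec (tens 3 p) Γ := by
    intro F hF
    refine Submodule.span_le.2 ?_ hF
    intro G hG
    exact hG.1.1
  refine rank_span_map (FKpull (Fin p → Fin 3)) _ _ ?_ ?_ ?_
  · rintro F ⟨⟨hF, ha⟩, he⟩
    have hs : SmF F := ⟨hF.1, hF.2.1⟩
    refine ⟨pull_mem hF, ?_, ?_⟩
    · intro g I σ
      show pull F g (I ∘ σ) = _ * pull F g I
      simp only [pull]
      split_ifs
      · simp
      · exact ha _ I σ
    · show hodgeE p (pull F) = (lam : ℂ) • pull F
      rw [← pull_hodge p hs, he]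
      exact (FKpull (Fin p → Fin 3)).map_smul _ _
  · rintro H ⟨hH, ha, he⟩
    obtain ⟨F, hF, rfl⟩ := pull_surj (tens_rep p) hΓ hH
    have hs : SmF F := ⟨hF.1, hF.2.1⟩
    have hp := FK_par_tens hF
    have hne : ((-1 : ℂ) ^ p) ≠ 0 := pow_ne_zero _ (by norm_num)
    refine ⟨F, ⟨⟨hF, ?_⟩, ?_⟩, rfl⟩
    · intro g I σ
      have key : ∀ g ∈ SO, F g (I ∘ σ) = ((Equiv.Perm.sign σ : ℤ) : ℂ) * F g I := by
        intro g hg
        obtain ⟨x, hx, rfl⟩ := Phi_surj hg
        have h1 := ha x I σ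
        simp only [pull] at h1
        rw [if_neg hx] at h1
        exact h1
      by_cases hg : g ∈ Frames 3
      · rcases Frames_det hg with hd | hd
        · exact key g ⟨hg, hd⟩
        · have hm : (-1 : Matrix (Fin 3) (Fin 3) ℝ) ∈ Matrix.orthogonalGroup (Fin 3) ℝ := by
            rw [Matrix.mem_orthogonalGroup_iff]
            simp
          have h2 : g * rot (-1) ∈ SO := by
            refine ⟨Frames_mul hg (rot_mem_Frames hm), ?_⟩
            rw [det_mul, rot_det, hd, det_neg]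
            norm_num
          have h3 := key _ h2
          rw [hp g hg] at h3
          simp only [Pi.smul_apply, smul_eq_mul] at h3
          refine mul_left_cancel₀ hne ?_
          rw [h3]
          ring
      · rw [hF.1 g hg]
        simp
    · refine FK_ext hne (FK_hodge_sm p hs).1 ?_ (FK_hodge_par p hp) ?_ ?_
      · intro g hg
        rw [Pi.smul_apply, hF.1 g hg, smul_zero]
      · intro g hg
        rw [Pi.smul_apply, Pi.smul_apply, hp g hg, smul_comm]
      · rw [pull_hodge p hs, he]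
        exact ((FKpull (Fin p → Fin 3)).map_smul _ _).symm
  · intro F hF h0
    refine pull_inj (tens_rep p) (hsub F hF) (Submodule.zero_mem _) ?_
    rw [show pull F = 0 from h0]
    exact (map_zero (FKpull (Fin p → Fin 3))).symm

/-! ### Constant matrices and components -/

theorem E_mulVec {J J' : Type} [Fintype J] [Fintype J'] (B : Matrix J' J ℂ) {H : M2 → J → ℂ}
    (hH : ContDiffOn ℝ ∞ H GLo) (X : M2) {g : M2} (hg : g ∈ GLo) :
    E X (fun x => B *ᵥ H x) g = B *ᵥ E X H g :=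
  E_clm hH (LinearMap.toContinuousLinearMap ((Matrix.mulVecLin B).restrictScalars ℝ)) X hg

theorem smooth_mulVec {J J' : Type} [Fintype J] [Fintype J'] (B : Matrix J' J ℂ) {H : M2 → J → ℂ}
    (hH : ContDiffOn ℝ ∞ H GLo) : ContDiffOn ℝ ∞ (fun x => B *ᵥ H x) GLo :=
  (LinearMap.toContinuousLinearMap
    ((Matrix.mulVecLin B).restrictScalars ℝ)).contDiff.comp_contDiffOn hH

theorem E_compn {J : Type} [Fintype J] {H : M2 → J → ℂ} (hH : ContDiffOn ℝ ∞ H GLo) (I : J)
    (X : M2) {g : M2} (hg : g ∈ GLo) : E X H g I = E X (fun x => H x I) g :=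
  (E_clm hH (ContinuousLinearMap.proj (R := ℝ) (φ := fun _ : J => ℂ) I) X hg).symm

theorem smooth_compn {J : Type} [Fintype J] {H : M2 → J → ℂ} (hH : ContDiffOn ℝ ∞ H GLo) (I : J) :
    ContDiffOn ℝ ∞ (fun x => H x I) GLo :=
  contDiffOn_pi.1 hH I

theorem E_lin {ι : Type} [Fintype ι] {f : ι → M2 → ℂ} (hf : ∀ i, ContDiffOn ℝ ∞ (f i) GLo)
    (c : ι → ℂ) (X : M2) {g : M2} (hg : g ∈ GLo) :
    E X (fun x => ∑ i, c i * f i x) g = ∑ i, c i * E X (f i) g := by
  have hF : ContDiffOn ℝ ∞ (fun x i => f i x) GLo := contDiffOn_pi.2 hf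
  have h1 := E_clm hF (LinearMap.toContinuousLinearMap
    ((∑ i, c i • LinearMap.proj (R := ℂ) (φ := fun _ : ι => ℂ) i).restrictScalars ℝ)) X hg
  have h2 : (fun x => (LinearMap.toContinuousLinearMap
      ((∑ i, c i • LinearMap.proj (R := ℂ) (φ := fun _ : ι => ℂ) i).restrictScalars ℝ))
        ((fun x i => f i x) x)) = fun x => ∑ i, c i * f i x := by
    funext x
    simp [LinearMap.sum_apply]
  rw [h2] at h1
  rw [h1]
  simp only [LinearMap.coe_toContinuousLinearMap', LinearMap.coe_restrictScalars,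
    LinearMap.sum_apply, LinearMap.smul_apply, LinearMap.proj_apply, smul_eq_mul]
  refine Finset.sum_congr rfl fun i _ => ?_
  rw [E_compn hF i X hg]

theorem smooth_lin {ι : Type} [Fintype ι] {f : ι → M2 → ℂ} (hf : ∀ i, ContDiffOn ℝ ∞ (f i) GLo)
    (c : ι → ℂ) : ContDiffOn ℝ ∞ (fun x => ∑ i, c i * f i x) GLo :=
  ContDiffOn.sum fun i _ => contDiffOn_const.mul (hf i)

theorem E_neg' {f : M2 → ℂ} (hf : ContDiffOn ℝ ∞ f GLo) (X : M2) {g : M2} (hg : g ∈ GLo) :
    E X (fun x => -f x) g = -E X f g := by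
  have h := E_lin (ι := Unit) (f := fun _ => f) (fun _ => hf) (fun _ => -1) X hg
  simpa using h

theorem extE_smooth {p : ℕ} {H : M2 → (Fin p → Fin 3) → ℂ} (hH : ContDiffOn ℝ ∞ H GLo) :
    ContDiffOn ℝ ∞ (extE H) GLo := by
  rw [contDiffOn_pi]
  intro I
  exact ContDiffOn.sum fun a _ => contDiffOn_const.mul (smooth_compn (E_smooth hH (eX (I a))) _)

theorem coE_smooth {p : ℕ} {H : M2 → (Fin (p + 1) → Fin 3) → ℂ} (hH : ContDiffOn ℝ ∞ H GLo) :
    ContDiffOn ℝ ∞ (coE H) GLo := by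
  rw [contDiffOn_pi]
  intro I
  exact ContDiffOn.neg (ContDiffOn.sum fun j _ => smooth_compn (E_smooth hH (eX j)) _)

theorem extE_off {p : ℕ} {H : M2 → (Fin p → Fin 3) → ℂ} (hH : ∀ g, g ∉ GLo → H g = 0) {g : M2}
    (hg : g ∉ GLo) : extE H g = 0 := by
  funext I
  simp only [extE, Pi.zero_apply]
  refine Finset.sum_eq_zero fun a _ => ?_
  rw [E_off hH (eX (I a)) hg]
  simp

theorem coE_off {p : ℕ} {H : M2 → (Fin (p + 1) → Fin 3) → ℂ} (hH : ∀ g, g ∉ GLo → H g = 0)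
    {g : M2} (hg : g ∉ GLo) : coE H g = 0 := by
  funext I
  simp only [coE, Pi.zero_apply]
  rw [neg_eq_zero]
  refine Finset.sum_eq_zero fun j _ => ?_
  rw [E_off hH (eX j) hg]
  simp

theorem hodgeE_off (p : ℕ) {H : M2 → (Fin p → Fin 3) → ℂ} (hH : ∀ g, g ∉ GLo → H g = 0) {g : M2}
    (hg : g ∉ GLo) : hodgeE p H g = 0 := by
  cases p with
  | zero => exact coE_off (fun g hg => extE_off hH hg) hg
  | succ p =>
    show extE (coE H) g + coE (extE H) g = 0
    rw [extE_off (fun g hg => coE_off hH hg) hg, coE_off (fun g hg => extE_off hH hg) hg, add_zero]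

theorem Sect_map {J J' : Type} [Fintype J] [Fintype J']
    {τ : Matrix (Fin 3) (Fin 3) ℝ → Matrix J J ℂ} {τ' : Matrix (Fin 3) (Fin 3) ℝ → Matrix J' J' ℂ}
    (B : Matrix J' J ℂ)
    (hB : ∀ k ∈ Matrix.orthogonalGroup (Fin 3) ℝ, k.det = 1 → B * τ kᵀ = τ' kᵀ * B)
    {Γ : Subgroup (Mat 3)ˣ} {H : M2 → J → ℂ} (hH : H ∈ Sect τ Γ) :
    (fun g => B *ᵥ H g) ∈ Sect τ' Γ := by
  obtain ⟨h1, h2, h3, h4, h5⟩ := hH
  refine ⟨fun g hg => ?_, smooth_mulVec B h2, fun z hz g hg => ?_, fun γ hγ x hx e g hg => ?_,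
    fun u hu g hg => ?_⟩
  · show B *ᵥ H g = 0
    rw [h1 g hg, Matrix.mulVec_zero]
  · show B *ᵥ H (z • g) = B *ᵥ H g
    rw [h3 z hz g hg]
  · show B *ᵥ H (x * g) = B *ᵥ H g
    rw [h4 γ hγ x hx e g hg]
  · show B *ᵥ H (g * u) = τ' (Rot u)ᵀ *ᵥ (B *ᵥ H g)
    obtain ⟨-, hu1, hu2⟩ := Phi_unitary hu
    rw [h5 u hu g hg, Matrix.mulVec_mulVec, Matrix.mulVec_mulVec, hB _ hu1 hu2]

/-- The rank of `EL`. -/
theorem EL_rank (k : ℕ) (Γ : Subgroup (Mat 3)ˣ) (lam : ℝ) (P : Sect (tau k) Γ → Prop)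
    (U : Submodule ℂ (Sect (tau k) Γ)) (hU : ∀ F, F ∈ U ↔ F ∈ EL k Γ lam ∧ P F) :
    Module.rank ℂ U =
      Module.rank ℂ (Submodule.span ℂ {y | ∃ F : Sect (tau k) Γ, (F ∈ EL k Γ lam ∧ P F) ∧ F.1 = y}) := by
  have h := rank_span_map (Sect (tau k) Γ).subtype (U : Set (Sect (tau k) Γ))
    {y | ∃ F : Sect (tau k) Γ, (F ∈ EL k Γ lam ∧ P F) ∧ F.1 = y}
    (fun x hx => ⟨x, (hU x).1 hx, rfl⟩)
    (fun y ⟨F, hF, e⟩ => ⟨F, (hU F).2 hF, e⟩)
    (fun x _ hx => Subtype.ext hx)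
  rw [Submodule.span_eq] at h
  exact h

end

end Pool.Agent.Work.MP_14c213_gt
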