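import Pool.Agent.Work.MP_14c213_gt.A.ActM

/-!
Loxodromic elements: γ = Phi(g diag(z,1) g⁻¹), |z| > 1. Phi_trace gives tr γ = |z+1|²/|z|.
-/

namespace Pool.Agent.Work.MP_14c213_gt

open Matrix MeasureTheory
open scoped Matrix ContDiff Matrix.Norms.Elementwise

noncomputable section

private def dzL (z : ℂ) : M2 := !![z, 0; 0, 1]

private lemma dzL_det (z : ℂ) : (dzL z).det = z := by simp [dzL, Matrix.det_fin_two]

private lemma dzL_mem {z : ℂ} (hz : z ≠ 0) : dzL z ∈ GLo := by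
  simp only [GLo, Set.mem_ofPred_eq, dzL_det]; exact hz

private lemma dzL_mul (z w : ℂ) : dzL z * dzL w = dzL (z * w) := by
  ext i j; fin_cases i <;> fin_cases j <;> simp [dzL, Matrix.mul_apply, Fin.sum_univ_two]

private lemma dzL_one : dzL 1 = 1 := by
  ext i j; fin_cases i <;> fin_cases j <;> simp [dzL]

private lemma GLoL_inv {g : M2} (hg : g ∈ GLo) : g⁻¹ ∈ GLo := by
  have h : g.det ≠ 0 := hg
  have : (g⁻¹).det = (g.det)⁻¹ := by
    rw [Matrix.det_nonsing_inv]; simp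
  simp only [GLo, Set.mem_ofPred_eq, this]
  exact inv_ne_zero h

private lemma GLoL_mul {g h : M2} (hg : g ∈ GLo) (hh : h ∈ GLo) : g * h ∈ GLo := by
  simp only [GLo, Set.mem_ofPred_eq, Matrix.det_mul] at *
  exact mul_ne_zero hg hh

private lemma conjL_mul {g : M2} (hg : g ∈ GLo) (z w : ℂ) :
    g * dzL z * g⁻¹ * (g * dzL w * g⁻¹) = g * dzL (z * w) * g⁻¹ := by
  have hu : IsUnit g.det := isUnit_iff_ne_zero.mpr hg
  have : g⁻¹ * g = 1 := Matrix.nonsing_inv_mul g hu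
  calc g * dzL z * g⁻¹ * (g * dzL w * g⁻¹) = g * dzL z * (g⁻¹ * g) * dzL w * g⁻¹ := by
        simp only [Matrix.mul_assoc]
    _ = g * (dzL z * dzL w) * g⁻¹ := by rw [this]; simp [Matrix.mul_assoc]
    _ = _ := by rw [dzL_mul]

private lemma conjL_mem {g : M2} (hg : g ∈ GLo) {z : ℂ} (hz : z ≠ 0) : g * dzL z * g⁻¹ ∈ GLo :=
  GLoL_mul (GLoL_mul hg (dzL_mem hz)) (GLoL_inv hg)

private lemma z_ne {z : ℂ} (hz : 1 < ‖z‖) : z ≠ 0 := by
  rintro rfl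
  simp at hz
  linarith

theorem Lox_SO {γ : (Mat 3)ˣ} {z : ℂ} (h : Lox γ z) : (γ : Mat 3) ∈ SO := by
  obtain ⟨hz, g, hg, e⟩ := h
  rw [e]
  exact Phi_SO (conjL_mem hg (z_ne hz))

theorem Klein_SO {Γ : Subgroup (Mat 3)ˣ} (h : Klein Γ) {γ : (Mat 3)ˣ} (hγ : γ ∈ Γ) :
    (γ : Mat 3) ∈ SO := by
  by_cases h1 : γ = 1
  · rw [h1, Units.val_one, ← Phi_one]
    refine Phi_SO ?_
    simp [GLo]
  · obtain ⟨z, hz⟩ := h.lox γ hγ h1
    exact Lox_SO hz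

private lemma trL {g : M2} (hg : g ∈ GLo) (z : ℂ) :
    (Phi (g * dzL z * g⁻¹)).trace = ‖z + 1‖ ^ 2 / ‖z‖ := by
  have hu : IsUnit g.det := isUnit_iff_ne_zero.mpr hg
  have h1 : (g * dzL z * g⁻¹).trace = z + 1 := by
    rw [Matrix.trace_mul_comm, ← Matrix.mul_assoc, Matrix.nonsing_inv_mul g hu, Matrix.one_mul]
    simp [dzL, Matrix.trace_fin_two]
  have h2 : (g * dzL z * g⁻¹).det = z := by
    rw [Matrix.det_mul, Matrix.det_mul, dzL_det, Matrix.det_nonsing_inv]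
    have : g.det * Ring.inverse g.det = 1 := Ring.mul_inverse_cancel _ hu
    calc g.det * z * Ring.inverse g.det = z * (g.det * Ring.inverse g.det) := by ring
      _ = z := by rw [this, mul_one]
  rw [Phi_trace, h1, h2]

private lemma nsq (z : ℂ) : ‖z‖ ^ 2 = z.re ^ 2 + z.im ^ 2 := by
  rw [← Complex.normSq_eq_norm_sq, Complex.normSq_apply]
  ring

theorem Lox_chl {γ : (Mat 3)ˣ} {z : ℂ} (h : Lox γ z) :
    chl (γ : Mat 3) = Real.cosh (Real.log ‖z‖) ∧ cth (γ : Mat 3) = z.re / ‖z‖ ∧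
      (γ : Mat 3).trace = 2 * chl (γ : Mat 3) + 2 * cth (γ : Mat 3) ∧ 1 < chl (γ : Mat 3) ∧
      |cth (γ : Mat 3)| ≤ 1 := by
  obtain ⟨hz, g, hg, e⟩ := h
  have hg' : g ∈ GLo := hg
  have hz0 := z_ne hz
  have hzp : 0 < ‖z‖ := by linarith
  have e' : (γ : Mat 3) = Phi (g * dzL z * g⁻¹) := e
  set c : ℝ := Real.cosh (Real.log ‖z‖) with hc
  set k : ℝ := z.re / ‖z‖ with hk
  have hc' : c = (‖z‖ + ‖z‖⁻¹) / 2 := by
    rw [hc, Real.cosh_eq, Real.exp_neg, Real.exp_log hzp]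
  have hc1 : 1 < c := by
    rw [hc']
    have h1 : ‖z‖ * ‖z‖⁻¹ = 1 := mul_inv_cancel₀ hzp.ne'
    have h2 : 0 < ‖z‖⁻¹ := by positivity
    nlinarith
  have hk1 : |k| ≤ 1 := by
    rw [hk, abs_div, abs_of_pos hzp, div_le_one hzp]
    exact Complex.abs_re_le_norm z
  have hT : (γ : Mat 3).trace = 2 * c + 2 * k := by
    rw [e', trL hg', hc', hk]
    have h1 : ‖z + 1‖ ^ 2 = ‖z‖ ^ 2 + 2 * z.re + 1 := by
      rw [nsq, nsq]
      simp
      ring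
    rw [h1]
    field_simp
    ring
  have hT2 : ((γ : Mat 3) * (γ : Mat 3)).trace = 4 * c ^ 2 + 4 * k ^ 2 - 4 := by
    rw [e', ← Phi_mul (conjL_mem hg' hz0) (conjL_mem hg' hz0), conjL_mul hg', trL hg', hc', hk]
    have h1 : ‖z * z + 1‖ ^ 2 = (‖z‖ ^ 2) ^ 2 + 4 * z.re ^ 2 - 2 * ‖z‖ ^ 2 + 1 := by
      rw [nsq, nsq]
      simp
      ring
    rw [h1, norm_mul]
    field_simp
    ring
  have hsq : Real.sqrt ((((γ : Mat 3) * (γ : Mat 3)).trace + 4) / 2 -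
      ((γ : Mat 3).trace / 2) ^ 2) = c - k := by
    rw [hT, hT2]
    have : (4 * c ^ 2 + 4 * k ^ 2 - 4 + 4) / 2 - ((2 * c + 2 * k) / 2) ^ 2 = (c - k) ^ 2 := by ring
    rw [this, Real.sqrt_sq]
    have := (abs_le.1 hk1).2
    linarith
  have h1 : chl (γ : Mat 3) = c := by
    unfold chl
    rw [hsq, hT]
    ring
  have h2 : cth (γ : Mat 3) = k := by
    unfold cth
    rw [hsq, hT]
    ring
  refine ⟨h1, h2, ?_, ?_, ?_⟩
  · rw [h1, h2, hT]
  · rw [h1]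
    exact hc1
  · rw [h2]
    exact hk1

theorem chl_conj (A B : Mat 3) (γ : Mat 3) (h : A * B = 1) :
    chl (A * γ * B) = chl γ ∧ cth (A * γ * B) = cth γ := by
  have hBA : B * A = 1 := mul_eq_one_comm.1 h
  have h1 : (A * γ * B).trace = γ.trace := by
    rw [Matrix.trace_mul_comm, ← Matrix.mul_assoc, hBA, Matrix.one_mul]
  have h2 : (A * γ * B * (A * γ * B)).trace = (γ * γ).trace := by
    have e : A * γ * B * (A * γ * B) = A * (γ * γ) * B := by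
      calc A * γ * B * (A * γ * B) = A * γ * (B * A) * γ * B := by simp only [Matrix.mul_assoc]
        _ = _ := by rw [hBA]; simp only [Matrix.mul_assoc, Matrix.mul_one]
    rw [e, Matrix.trace_mul_comm, ← Matrix.mul_assoc, hBA, Matrix.one_mul]
  unfold chl cth
  rw [h1, h2]
  exact ⟨rfl, rfl⟩

theorem Lox_pow {γ : (Mat 3)ˣ} {z : ℂ} (h : Lox γ z) (n : ℕ) (hn : n ≠ 0) : Lox (γ ^ n) (z ^ n) := by
  obtain ⟨hz, g, hg, e⟩ := h
  have hg' : g ∈ GLo := hg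
  have hz0 := z_ne hz
  refine ⟨?_, g, hg, ?_⟩
  · rw [norm_pow]
    exact one_lt_pow₀ hz hn
  · have e' : (γ : Mat 3) = Phi (g * dzL z * g⁻¹) := e
    have key : ∀ m : ℕ, ((γ ^ (m + 1) : (Mat 3)ˣ) : Mat 3) = Phi (g * dzL (z ^ (m + 1)) * g⁻¹) := by
      intro m
      induction m with
      | zero => simpa using e'
      | succ m ih =>
        rw [pow_succ, Units.val_mul, ih, e', ← Phi_mul (conjL_mem hg' (pow_ne_zero _ hz0))
          (conjL_mem hg' hz0), conjL_mul hg', ← pow_succ]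
    obtain ⟨m, rfl⟩ := Nat.exists_eq_succ_of_ne_zero hn
    exact key m

/-- Schur's inequality for 2 by 2 matrices with eigenvalues `z` and `1` -/
private lemma schur2 (a b c d z : ℂ) (h1 : a + d = z + 1) (h2 : a * d - b * c = z) :
    ‖z‖ ^ 2 + 1 ≤ ‖a‖ ^ 2 + ‖b‖ ^ 2 + ‖c‖ ^ 2 + ‖d‖ ^ 2 := by
  have hbc : b * c = (a - 1) * (d - 1) := by linear_combination -h2 + h1
  have h3 : ‖b‖ * ‖c‖ = ‖a - 1‖ * ‖d - 1‖ := by rw [← norm_mul, hbc, norm_mul]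
  have hz : z = a + (d - 1) := by linear_combination -h1
  have h4 : (starRingEnd ℂ (a - 1) * (d - 1)).re ≤ ‖a - 1‖ * ‖d - 1‖ := by
    refine (Complex.re_le_norm _).trans ?_
    rw [norm_mul, Complex.norm_conj]
  have h5 : ‖a‖ ^ 2 + ‖d‖ ^ 2 - 1 - ‖z‖ ^ 2 = -2 * (starRingEnd ℂ (a - 1) * (d - 1)).re := by
    rw [hz, nsq, nsq, nsq]
    simp
    ring
  have h6 : 2 * (‖b‖ * ‖c‖) ≤ ‖b‖ ^ 2 + ‖c‖ ^ 2 := by nlinarith [sq_nonneg (‖b‖ - ‖c‖)]
  nlinarith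

private lemma phi00 {h : M2} (hh : h ∈ GLo) {z : ℂ} (hz : 1 < ‖z‖) :
    Real.cosh (Real.log ‖z‖) ≤ Phi (h * dzL z * h⁻¹) 0 0 := by
  have hu : IsUnit h.det := isUnit_iff_ne_zero.mpr hh
  have hzp : 0 < ‖z‖ := by linarith
  have h1 : (h * dzL z * h⁻¹).trace = z + 1 := by
    rw [Matrix.trace_mul_comm, ← Matrix.mul_assoc, Matrix.nonsing_inv_mul h hu, Matrix.one_mul]
    simp [dzL, Matrix.trace_fin_two]
  have h2 : (h * dzL z * h⁻¹).det = z := by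
    rw [Matrix.det_mul, Matrix.det_mul, dzL_det, Matrix.det_nonsing_inv]
    have : h.det * Ring.inverse h.det = 1 := Ring.mul_inverse_cancel _ hu
    calc h.det * z * Ring.inverse h.det = z * (h.det * Ring.inverse h.det) := by ring
      _ = z := by rw [this, mul_one]
  rw [Phi_zero_zero, h2]
  set M := h * dzL z * h⁻¹ with hM
  have h3 := schur2 (M 0 0) (M 0 1) (M 1 0) (M 1 1) z
    (by rw [← h1, Matrix.trace_fin_two]) (by rw [← Matrix.det_fin_two, h2])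
  rw [Real.cosh_eq, Real.exp_neg, Real.exp_log hzp, le_div_iff₀ (by positivity)]
  have h4 : (‖z‖ + ‖z‖⁻¹) / 2 * (2 * ‖z‖) = ‖z‖ ^ 2 + 1 := by
    field_simp
  rw [h4]
  exact h3

/-- A loxodromic element moves every point by at least its translation length. -/
theorem Lox_disp {γ : (Mat 3)ˣ} {z : ℂ} (h : Lox γ z) {p : UH} (hp : p ∈ UHs) :
    chl (γ : Mat 3) ≤ ((SS p)⁻¹ * (γ : Mat 3) * SS p) 0 0 := by
  rw [(Lox_chl h).1]
  obtain ⟨hz, g, hg, e⟩ := h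
  have hg' : g ∈ GLo := hg
  have hz0 := z_ne hz
  have e' : (γ : Mat 3) = Phi (g * dzL z * g⁻¹) := e
  have hs : sec p ∈ GLo := sec_mem hp
  have hsu : IsUnit (sec p).det := isUnit_iff_ne_zero.mpr hs
  have hinv : (SS p)⁻¹ = Phi (sec p)⁻¹ := by
    apply Matrix.inv_eq_right_inv
    rw [SS, ← Phi_mul hs (GLoL_inv hs), Matrix.mul_nonsing_inv _ hsu, Phi_one]
  have e2 : (SS p)⁻¹ * (γ : Mat 3) * SS p =
      Phi (((sec p)⁻¹ * g) * dzL z * ((sec p)⁻¹ * g)⁻¹) := by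
    have e3 : ((sec p)⁻¹ * g)⁻¹ = g⁻¹ * sec p := by
      rw [Matrix.mul_inv_rev, Matrix.nonsing_inv_nonsing_inv _ hsu]
    have e4 : ((sec p)⁻¹ * g) * dzL z * (g⁻¹ * sec p) =
        (sec p)⁻¹ * (g * dzL z * g⁻¹) * sec p := by simp only [Matrix.mul_assoc]
    rw [e3, e4, Phi_mul (GLoL_mul (GLoL_inv hs) (conjL_mem hg' hz0)) hs,
      Phi_mul (GLoL_inv hs) (conjL_mem hg' hz0), hinv, e', SS]
  rw [e2]
  exact phi00 (GLoL_mul (GLoL_inv hs) hg') hz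

private lemma mul_rot_colL (A : Mat 3) (k : Matrix (Fin 3) (Fin 3) ℝ) (a : Fin 4) :
    (A * rot k) a 0 = A a 0 := by
  simp [Matrix.mul_apply, rot, Fin.sum_univ_succ]

theorem Lox_free {γ : (Mat 3)ˣ} {z : ℂ} (h : Lox γ z) {p : UH} (hp : p ∈ UHs) :
    act (γ : Mat 3) p ≠ p := by
  intro he
  obtain ⟨k, -, -, hk⟩ := act_SS (Lox_SO h) hp
  rw [he] at hk
  have hinv := (Frames_inv (SS_SO hp).1).2.2.2.2
  have h1 : (SS p)⁻¹ * (γ : Mat 3) * SS p * rot k = 1 := by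
    calc (SS p)⁻¹ * (γ : Mat 3) * SS p * rot k = (SS p)⁻¹ * ((γ : Mat 3) * SS p * rot k) := by
          simp only [Matrix.mul_assoc]
      _ = 1 := by rw [← hk, hinv]
  have h2 : ((SS p)⁻¹ * (γ : Mat 3) * SS p) 0 0 = 1 := by
    have h5 := mul_rot_colL ((SS p)⁻¹ * (γ : Mat 3) * SS p) k 0
    rw [h1, Matrix.one_apply_eq] at h5
    exact h5.symm
  have h3 := Lox_disp h hp
  have h4 := (Lox_chl h).2.2.2.1
  rw [h2] at h3
  linarith

private lemma mul00 {A B : Mat 3} (hA : A ∈ Frames 3) (hB : B ∈ Frames 3) :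
    (A * B) 0 0 ≤ 4 * (A 0 0 * B 0 0) := by
  rw [Matrix.mul_apply]
  have h1 : ∀ a : Fin 4, A 0 a * B a 0 ≤ A 0 0 * B 0 0 := by
    intro a
    have hA1 := Frames_one_le hA
    calc A 0 a * B a 0 ≤ |A 0 a * B a 0| := le_abs_self _
      _ = |A 0 a| * |B a 0| := abs_mul _ _
      _ ≤ A 0 0 * B 0 0 := mul_le_mul (Frames_entry hA 0 a) (Frames_entry hB a 0) (abs_nonneg _)
          (by linarith)
  calc ∑ a : Fin 4, A 0 a * B a 0 ≤ ∑ _a : Fin 4, A 0 0 * B 0 0 := Finset.sum_le_sum fun a _ => h1 a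
    _ = 4 * (A 0 0 * B 0 0) := by
        rw [Finset.sum_const, Finset.card_univ, Fintype.card_fin, nsmul_eq_mul]
        norm_num

/-- The geometric length spectrum of a Kleinian group is locally finite. -/
theorem Klein_lengths {Γ : Subgroup (Mat 3)ˣ} (h : Klein Γ) (R : ℝ) :
    {c : ConjClasses Γ | chl ((Quotient.out c : Γ) : (Mat 3)ˣ) ≤ R}.Finite := by
  obtain ⟨R0, hR0⟩ := h.coc
  have hfin := h.disc (16 * (R0 * |R| * R0))
  have hfin2 : (((↑) : Γ → (Mat 3)ˣ) ⁻¹' {γ : (Mat 3)ˣ | γ ∈ Γ ∧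
      (γ : Mat 3) 0 0 ≤ 16 * (R0 * |R| * R0)}).Finite :=
    hfin.preimage Subtype.val_injective.injOn
  refine ((hfin2.union (Set.finite_singleton (1 : Γ))).image ConjClasses.mk).subset ?_
  intro c hc
  have hc' : chl ((Quotient.out c : Γ) : (Mat 3)ˣ) ≤ R := hc
  set γ : Γ := Quotient.out c with hγ
  have hcγ : ConjClasses.mk γ = c := Quotient.out_eq c
  by_cases h1 : γ = 1
  · refine ⟨1, Or.inr rfl, ?_⟩
    rw [← h1, hcγ]
  · have h1' : (γ : (Mat 3)ˣ) ≠ 1 := fun h0 => h1 (Subtype.ext h0)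
    obtain ⟨z, hz⟩ := h.lox γ γ.2 h1'
    have hchl := (Lox_chl hz).1
    have hchl1 := (Lox_chl hz).2.2.2.1
    obtain ⟨hz1, g, hg, e⟩ := hz
    have hg' : g ∈ GLo := hg
    have hu : IsUnit g.det := isUnit_iff_ne_zero.mpr hg'
    have hz0 := z_ne hz1
    have hzp : 0 < ‖z‖ := by linarith
    have e' : ((γ : (Mat 3)ˣ) : Mat 3) = Phi (g * dzL z * g⁻¹) := e
    have hF : Phi g ∈ Frames 3 := (Phi_SO hg').1
    obtain ⟨η, hη, hηR⟩ := hR0 _ hF
    have hηF : (η : Mat 3) * Phi g ∈ Frames 3 := Frames_mul (Klein_SO h hη).1 hF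
    have hinv := Frames_inv hηF
    have hdz : Phi (dzL z) ∈ Frames 3 := (Phi_SO (dzL_mem hz0)).1
    have hdz0 : Phi (dzL z) 0 0 = chl ((γ : (Mat 3)ˣ) : Mat 3) := by
      rw [hchl, Phi_zero_zero, dzL_det, Real.cosh_eq, Real.exp_neg, Real.exp_log hzp]
      simp [dzL]
      field_simp
    -- the conjugate
    have e5 : ((η * γ * η⁻¹ : (Mat 3)ˣ) : Mat 3) =
        ((η : Mat 3) * Phi g) * Phi (dzL z) * ((η : Mat 3) * Phi g)⁻¹ := by
      have e6 : Phi g⁻¹ = (Phi g)⁻¹ := by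
        symm
        apply Matrix.inv_eq_right_inv
        rw [← Phi_mul hg' (GLoL_inv hg'), Matrix.mul_nonsing_inv g hu, Phi_one]
      rw [Units.val_mul, Units.val_mul, e', Phi_mul (GLoL_mul hg' (dzL_mem hz0)) (GLoL_inv hg'),
        Phi_mul hg' (dzL_mem hz0), e6, Matrix.mul_inv_rev, Matrix.coe_units_inv]
      simp only [Matrix.mul_assoc]
    have hA1 := Frames_one_le hηF
    have hR0' : 1 ≤ R0 := hA1.trans hηR
    have hb : ((η * γ * η⁻¹ : (Mat 3)ˣ) : Mat 3) 0 0 ≤ 16 * (R0 * |R| * R0) := by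
      rw [e5]
      have b1 := mul00 (Frames_mul hηF hdz) hinv.1
      have b2 := mul00 hηF hdz
      rw [hinv.2.2.1] at b1
      rw [hdz0] at b2
      have hRR : chl ((γ : (Mat 3)ˣ) : Mat 3) ≤ |R| := hc'.trans (le_abs_self R)
      set x := ((η : Mat 3) * Phi g) 0 0 with hx
      set y := chl ((γ : (Mat 3)ˣ) : Mat 3) with hy
      calc _ ≤ 4 * (((η : Mat 3) * Phi g * Phi (dzL z)) 0 0 * x) := b1
        _ ≤ 4 * (4 * (x * y) * x) := by gcongr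
        _ = 16 * (x * y * x) := by ring
        _ ≤ 16 * (R0 * |R| * R0) := by gcongr
    refine ⟨⟨η, hη⟩ * γ * ⟨η, hη⟩⁻¹, Or.inl ⟨?_, ?_⟩, ?_⟩
    · exact (⟨η, hη⟩ * γ * ⟨η, hη⟩⁻¹ : Γ).2
    · exact hb
    · rw [← hcγ, ConjClasses.mk_eq_mk_iff_isConj, isConj_comm, isConj_iff]
      exact ⟨⟨η, hη⟩, rfl⟩

end

end Pool.Agent.Work.MP_14c213_gt
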