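import Pool.Agent.Work.MP_14c213_gt.A.Pull
import Pool.Agent.Work.MP_14c213_gt.A.RepM
import Pool.Agent.Work.MP_14c213_gt.A.Lin
import Pool.Agent.Work.MP_14c213_gt.A.FormKit
import Pool.Agent.Work.MP_14c213_gt.A.LoxM

/-!
0-forms: Fin 0 → Fin 3 and Ix 0 = Fin 0 → Fin 4 are one-point types; hodge 0 F = -∑ ∇_i∇_i F and
Cas = -∑ E_i² + 0 on Sect (tau 0) (ck 0 = 0).
-/

namespace Pool.Agent.Work.MP_14c213_gt

open Matrix MeasureTheory
open scoped Matrix ContDiff Matrix.Norms.Elementwise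

noncomputable section

/-- `hodgeE 0` in terms of second derivatives -/
theorem hodgeE_zero {H : M2 → (Fin 0 → Fin 3) → ℂ} (hH : ContDiffOn ℝ ∞ H GLo) {g : M2}
    (hg : g ∈ GLo) (I : Fin 0 → Fin 3) :
    hodgeE 0 H g I = -∑ i, E (eX i) (E (eX i) H) g I := by
  show -∑ j : Fin 3, E (eX j) (extE H) g (Fin.cons j I) = _
  congr 1
  refine Finset.sum_congr rfl fun j _ => ?_
  rw [E_compn (extE_smooth hH) _ _ hg, E_compn (E_smooth hH (eX j)) _ _ hg]
  refine E_congr (fun x _ => ?_) _ hg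
  simp only [extE]
  rw [Fin.sum_univ_succ, Finset.univ_eq_empty, Finset.sum_empty, add_zero]
  have h1 : (Fin.cons j I : Fin (0 + 1) → Fin 3) ∘ (0 : Fin (0 + 1)).succAbove = I :=
    funext fun a => a.elim0
  rw [h1]
  simp

private theorem F0_ck : ck 0 = 0 := by
  have h : ∀ Y : Mat 3, drho 0 Y = 0 := by
    intro Y
    ext I L
    simp [drho]
  simp [ck, h]

/-- change of index type -/
private def F0B : Matrix (Ix 0) (Fin 0 → Fin 3) ℂ := Matrix.of fun _ _ => 1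
private def F0C : Matrix (Fin 0 → Fin 3) (Ix 0) ℂ := Matrix.of fun _ _ => 1

private theorem F0_BC : F0B * F0C = 1 := by
  ext I L
  have h : I = L := funext fun a => a.elim0
  subst h
  simp [F0B, F0C, Matrix.mul_apply]

private theorem F0_CB : F0C * F0B = 1 := by
  ext I L
  have h : I = L := funext fun a => a.elim0
  subst h
  simp [F0B, F0C, Matrix.mul_apply]

private theorem F0_tens (k : Matrix (Fin 3) (Fin 3) ℝ) : tens 3 0 k = 1 := by
  ext I L
  have h : I = L := funext fun a => a.elim0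
  subst h
  simp [tens]

private theorem F0_tau (k : Matrix (Fin 3) (Fin 3) ℝ) : tau 0 k = 1 := by
  ext I L
  have h : I = L := funext fun a => a.elim0
  subst h
  simp [tau, rho]

private theorem F0_key {H : M2 → (Fin 0 → Fin 3) → ℂ} (h0 : ∀ g, g ∉ GLo → H g = 0)
    (hH : ContDiffOn ℝ ∞ H GLo) {Γ : Subgroup (Mat 3)ˣ}
    (hK : (fun g => F0B *ᵥ H g) ∈ Sect (tau 0) Γ) :
    Cas (fun g => F0B *ᵥ H g) = fun g => F0B *ᵥ hodgeE 0 H g := by
  funext g
  by_cases hg : g ∈ GLo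
  · rw [Cas_eq hK hg, F0_ck, Matrix.zero_mulVec, add_zero]
    have h1 : ∀ i, E (eX i) (E (eX i) (fun g => F0B *ᵥ H g)) g =
        F0B *ᵥ (E (eX i) (E (eX i) H) g) := by
      intro i
      rw [← E_mulVec F0B (E_smooth hH (eX i)) (eX i) hg]
      exact E_congr (fun x hx => E_mulVec F0B hH (eX i) hx) _ hg
    simp only [h1]
    have h2 : hodgeE 0 H g = -∑ i, E (eX i) (E (eX i) H) g := by
      funext I
      rw [hodgeE_zero hH hg]
      simp
    rw [h2, Matrix.mulVec_neg, Matrix.mulVec_sum]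
  · have h1 : Cas (fun g => F0B *ᵥ H g) ∈ Sect (tau 0) Γ := Cas_mem hK
    rw [h1.1 g hg, hodgeE_off 0 h0 hg, Matrix.mulVec_zero]

theorem form0 {Γ : Subgroup (Mat 3)ˣ} (h : Klein Γ) (lam : ℝ)
    (hf : FiniteDimensional ℂ (EL 0 Γ lam)) :
    formMult 0 Γ lam = (Module.finrank ℂ (EL 0 Γ lam) : Cardinal) := by
  rw [formMult_pull (fun γ hγ => Klein_SO h hγ), Module.finrank_eq_rank,
    EL_rank 0 Γ lam (fun _ => True) (EL 0 Γ lam) (fun F => by simp)]
  have hBt : ∀ k ∈ Matrix.orthogonalGroup (Fin 3) ℝ, k.det = 1 →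
      F0B * tens 3 0 kᵀ = tau 0 kᵀ * F0B := by
    intro k _ _
    rw [F0_tens, F0_tau, Matrix.mul_one, Matrix.one_mul]
  have hCt : ∀ k ∈ Matrix.orthogonalGroup (Fin 3) ℝ, k.det = 1 →
      F0C * tau 0 kᵀ = tens 3 0 kᵀ * F0C := by
    intro k _ _
    rw [F0_tens, F0_tau, Matrix.mul_one, Matrix.one_mul]
  refine rank_span_map
    ((Matrix.mulVecLin F0B).compLeft M2) _ _ ?_ ?_ ?_
  · rintro H ⟨hH, -, he⟩
    have hK := Sect_map F0B hBt hH
    refine ⟨⟨fun g => F0B *ᵥ H g, hK⟩, ⟨?_, trivial⟩, rfl⟩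
    rw [EL, Module.End.mem_eigenspace_iff]
    refine Subtype.ext ?_
    show Cas (fun g => F0B *ᵥ H g) = (lam : ℂ) • fun g => F0B *ᵥ H g
    rw [F0_key hH.1 hH.2.1 hK, he]
    funext g
    simp only [Pi.smul_apply]
    rw [Matrix.mulVec_smul]
  · rintro y ⟨F, ⟨hF, -⟩, rfl⟩
    have hH := Sect_map F0C hCt F.2
    have e1 : (fun g => F0B *ᵥ (F0C *ᵥ F.1 g)) = F.1 := by
      funext g
      rw [Matrix.mulVec_mulVec, F0_BC, Matrix.one_mulVec]
    refine ⟨fun g => F0C *ᵥ F.1 g, ⟨hH, ?_, ?_⟩, e1⟩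
    · intro g I σ
      have h1 : σ = 1 := Subsingleton.elim _ _
      subst h1
      have h2 : I ∘ (1 : Equiv.Perm (Fin 0)) = I := rfl
      rw [h2]
      simp
    · have hK : (fun g => F0B *ᵥ (F0C *ᵥ F.1 g)) ∈ Sect (tau 0) Γ := by
        rw [e1]; exact F.2
      have h1 := F0_key hH.1 hH.2.1 hK
      rw [e1] at h1
      rw [EL, Module.End.mem_eigenspace_iff] at hF
      have h2 : Cas F.1 = (lam : ℂ) • F.1 := congrArg Subtype.val hF
      funext g
      have h3 := congrFun h1 g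
      have h4 : F0C *ᵥ (F0B *ᵥ hodgeE 0 (fun g => F0C *ᵥ F.1 g) g) =
          F0C *ᵥ (Cas F.1 g) := by rw [h3]
      rw [Matrix.mulVec_mulVec, F0_CB, Matrix.one_mulVec, h2] at h4
      rw [h4]
      simp only [Pi.smul_apply]
      rw [Matrix.mulVec_smul]
  · intro H _ h0
    funext g
    have h1 : F0B *ᵥ H g = 0 := congrFun h0 g
    have h2 : F0C *ᵥ (F0B *ᵥ H g) = 0 := by rw [h1, Matrix.mulVec_zero]
    rw [Matrix.mulVec_mulVec, F0_CB, Matrix.one_mulVec] at h2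
    exact h2

end

end Pool.Agent.Work.MP_14c213_gt
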