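import Pool.Agent.Work.MP_14c213_gt.A.Green

/-!
The bundle of tau 1 = ℂ ⊕ ℂ³. Index: Ix 1 = Fin 1 → Fin 4. A section F = (f, ω): f g = F g (fun _ => 0),
ω i g = F g (fun _ => i.succ). drho 1 (bY i) exchanges the components 0 and i.succ, ck 1 = 0 on f and
-2 on ω. P(f,ω) = (-∑E_i²f - 2 div ω - 3 f, -∑E_i²ω_j - 2 E_j f - ω_j).
grad : Sect 0 → Sect 1, g ↦ (0, E_j g) ; inc : g ↦ (g, 0); fun part and div : Sect 1 → Sect 0.
All commute with Cas. P (inc f) = (λ-3) inc f - 2 grad f, P (grad g) = 2λ inc g + (λ+1) grad g on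
λ-eigensections (div grad g = -λ g).
-/

namespace Pool.Agent.Work.MP_14c213_gt

open Matrix MeasureTheory
open scoped Matrix ContDiff Matrix.Norms.Elementwise

noncomputable section

namespace V1

/-! ### Index types -/

theorem ix1 (I : Ix 1) : I = fun _ => I 0 := by
  funext a
  rw [Subsingleton.elim a 0]

theorem ix1_cases {P : Ix 1 → Prop} (h0 : P (fun _ => 0)) (h1 : ∀ i : Fin 3, P (fun _ => i.succ))
    (I : Ix 1) : P I := by
  rw [ix1 I]
  exact Fin.cases (motive := fun a => P fun _ => a) h0 h1 (I 0)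

theorem sum_ix1 {M : Type*} [AddCommMonoid M] (f : Ix 1 → M) :
    ∑ I, f I = f (fun _ => 0) + ∑ i : Fin 3, f (fun _ => i.succ) := by
  rw [← Fin.sum_univ_succ (fun a : Fin 4 => f (fun _ => a))]
  exact Fintype.sum_equiv (Equiv.funUnique (Fin 1) (Fin 4)) _ _ fun I => by
    show f I = f (fun _ => I 0)
    rw [← ix1 I]

theorem ix0 (I : Ix 0) : I = fun a => a.elim0 := Subsingleton.elim _ _

theorem tau1_apply (m : Matrix (Fin 3) (Fin 3) ℝ) (I L : Ix 1) :
    tau 1 m I L = (rot m (I 0) (L 0) : ℂ) := by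
  unfold tau rho
  simp

theorem tau0_mulVec (m : Matrix (Fin 3) (Fin 3) ℝ) (v : Ix 0 → ℂ) : tau 0 m *ᵥ v = v := by
  have h : tau 0 m = 1 := by
    ext I L
    rw [Subsingleton.elim I L, Matrix.one_apply_eq]
    unfold tau rho
    simp
  rw [h, one_mulVec]

theorem drho1_apply (Y : Mat 3) (I L : Ix 1) : drho 1 Y I L = (Y (I 0) (L 0) : ℂ) := by
  rw [drho_apply]
  simp

theorem tau1_zero (m : Matrix (Fin 3) (Fin 3) ℝ) (v : Ix 1 → ℂ) :
    (tau 1 m *ᵥ v) (fun _ => 0) = v (fun _ => 0) := by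
  rw [mulVec, dotProduct, sum_ix1]
  simp [tau1_apply, SM.rot00, SM.rot0s]

theorem tau1_succ (m : Matrix (Fin 3) (Fin 3) ℝ) (v : Ix 1 → ℂ) (i : Fin 3) :
    (tau 1 m *ᵥ v) (fun _ => i.succ) = ∑ j : Fin 3, (m i j : ℂ) * v (fun _ => j.succ) := by
  rw [mulVec, dotProduct, sum_ix1]
  simp [tau1_apply, SM.rots0, SM.rotss]

theorem b_zero (i : Fin 3) (v : Ix 1 → ℂ) :
    (drho 1 (bY i) *ᵥ v) (fun _ => 0) = v (fun _ => i.succ) := by
  have h : ∀ j, ((bY i 0 j.succ : ℝ) : ℂ) = if i = j then 1 else 0 := by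
    intro j
    rw [SM.bY0s]
    split_ifs <;> simp
  rw [mulVec, dotProduct, sum_ix1]
  simp [drho1_apply, SM.bY00, h]

theorem b_succ (i j : Fin 3) (v : Ix 1 → ℂ) :
    (drho 1 (bY i) *ᵥ v) (fun _ => j.succ) = if i = j then v (fun _ => 0) else 0 := by
  have h : ((bY i j.succ 0 : ℝ) : ℂ) = if i = j then 1 else 0 := by
    rw [SM.bYs0]
    split_ifs <;> simp
  rw [mulVec, dotProduct, sum_ix1]
  simp [drho1_apply, h, SM.bYss]

theorem ck1_apply (v : Ix 1 → ℂ) : (ck 1 *ᵥ v) (fun _ => 0) = 0 ∧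
    ∀ j : Fin 3, (ck 1 *ᵥ v) (fun _ => j.succ) = -2 * v (fun _ => j.succ) := by
  have h0 : ∀ (i : Fin 3) (w : Ix 1 → ℂ), (drho 1 (rY i) *ᵥ w) (fun _ => 0) = 0 := by
    intro i w
    rw [mulVec, dotProduct, sum_ix1]
    simp [drho1_apply, SM.rY_blk, SM.blk00, SM.blk0s]
  have h1 : ∀ (i j : Fin 3) (w : Ix 1 → ℂ), (drho 1 (rY i) *ᵥ w) (fun _ => j.succ) =
      ∑ l : Fin 3, (SM.ry3 i j l : ℂ) * w (fun _ => l.succ) := by
    intro i j w
    rw [mulVec, dotProduct, sum_ix1]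
    simp [drho1_apply, SM.rY_blk, SM.blks0, SM.blkss]
  have h2 : ck 1 *ᵥ v = ∑ i, drho 1 (rY i) *ᵥ (drho 1 (rY i) *ᵥ v) := by
    unfold ck
    rw [Matrix.sum_mulVec]
    exact Finset.sum_congr rfl fun i _ => (mulVec_mulVec _ _ _).symm
  constructor
  · rw [h2, Finset.sum_apply]
    exact Finset.sum_eq_zero fun i _ => h0 i _
  · intro j
    rw [h2, Finset.sum_apply]
    simp only [h1]
    fin_cases j <;> simp [Fin.sum_univ_three, SM.ry3, Matrix.single_apply] <;> ring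

/-! ### Components -/

theorem clm_smooth {V W : Type*} [NormedAddCommGroup V] [NormedSpace ℝ V] [NormedAddCommGroup W]
    [NormedSpace ℝ W] (L : V →L[ℝ] W) {F : M2 → V} (hF : ContDiffOn ℝ ∞ F GLo) :
    ContDiffOn ℝ ∞ (fun g => L (F g)) GLo := L.contDiff.comp_contDiffOn hF

/-- Coordinates as real linear maps. -/
def pr {J : Type} [Fintype J] (I : J) : (J → ℂ) →L[ℝ] ℂ := ContinuousLinearMap.proj I

theorem E_pr {J : Type} [Fintype J] {F : M2 → J → ℂ} (hF : ContDiffOn ℝ ∞ F GLo) (X : M2) {g : M2}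
    (hg : g ∈ GLo) (I : J) : E X (fun x => F x I) g = E X F g I :=
  E_clm hF (pr I) X hg

/-- Functions as sections of the trivial bundle. -/
def cst : ℂ →L[ℝ] (Ix 0 → ℂ) := ContinuousLinearMap.pi fun _ => ContinuousLinearMap.id ℝ ℂ

theorem cst_apply (z : ℂ) : cst z = fun _ => z := rfl

/-- `I`-component as a function into `Ix 0 → ℂ`. -/
def co {J : Type} [Fintype J] (I : J) : (J → ℂ) →L[ℝ] (Ix 0 → ℂ) := cst.comp (pr I)

theorem co_apply {J : Type} [Fintype J] (I : J) (v : J → ℂ) : co I v = fun _ => v I := rfl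

/-- inclusion of a component. -/
def em (a : Fin 4) : (Ix 0 → ℂ) →L[ℝ] (Ix 1 → ℂ) := ContinuousLinearMap.pi fun I =>
  if I 0 = a then pr (fun a => a.elim0) else 0

theorem em_apply (a : Fin 4) (v : Ix 0 → ℂ) (I : Ix 1) :
    em a v I = if I 0 = a then v (fun a => a.elim0) else 0 := by
  show (if I 0 = a then pr (fun a => a.elim0) else 0 : (Ix 0 → ℂ) →L[ℝ] ℂ) v = _
  split_ifs
  · rfl
  · rfl

theorem vec_co {Γ : Subgroup (Mat 3)ˣ} {F : M2 → Ix 1 → ℂ} (hF : F ∈ Sect (tau 1) Γ) :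
    Vec 0 Γ (fun i g => co (fun _ => i.succ) (F g)) := by
  obtain ⟨h0, hs, hsc, hinv, heq⟩ := hF
  refine ⟨fun i g hg => ?_, fun i => clm_smooth _ hs, fun i z hz g hg => ?_,
    fun i γ hγ h hh hPh g hg => ?_, ?_⟩
  · rw [h0 g hg, map_zero]
  · rw [hsc z hz g hg]
  · rw [hinv γ hγ h hh hPh g hg]
  · intro u hu g hg i
    rw [heq u hu g hg, co_apply, tau1_succ]
    funext _
    rw [Finset.sum_apply]
    refine Finset.sum_congr rfl fun j _ => ?_
    rw [Pi.smul_apply, tau0_mulVec, transpose_apply, smul_eq_mul, co_apply]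

/-! ### The maps -/

variable (Γ : Subgroup (Mat 3)ˣ)

theorem inc_mem {f : M2 → Ix 0 → ℂ} (hf : f ∈ Sect (tau 0) Γ) :
    (fun g => em 0 (f g)) ∈ Sect (tau 1) Γ := by
  obtain ⟨h0, hs, hsc, hinv, heq⟩ := hf
  refine ⟨fun g hg => ?_, (em 0).contDiff.comp_contDiffOn hs, fun z hz g hg => ?_,
    fun γ hγ h hh hPh g hg => ?_, fun u hu g hg => ?_⟩
  · simp only
    rw [h0 g hg, map_zero]
  · simp only
    rw [hsc z hz g hg]
  · simp only
    rw [hinv γ hγ h hh hPh g hg]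
  · simp only
    rw [heq u hu g hg, tau0_mulVec]
    refine funext (ix1_cases ?_ fun i => ?_)
    · rw [tau1_zero]
    · rw [tau1_succ]
      simp [em_apply]

theorem grad_mem {f : M2 → Ix 0 → ℂ} (hf : f ∈ Sect (tau 0) Γ) :
    (fun g => ∑ i : Fin 3, em i.succ (E (eX i) f g)) ∈ Sect (tau 1) Γ := by
  obtain ⟨v0, vs, vsc, vinv, veq⟩ := Vec_E hf
  have hval : ∀ (g : M2) (j : Fin 3), (∑ i : Fin 3, em i.succ (E (eX i) f g)) (fun _ => j.succ) =
      E (eX j) f g (fun a => a.elim0) := by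
    intro g j
    rw [Finset.sum_apply]
    simp [em_apply]
  have hval0 : ∀ (g : M2), (∑ i : Fin 3, em i.succ (E (eX i) f g)) (fun _ => 0) = 0 := by
    intro g
    rw [Finset.sum_apply]
    refine Finset.sum_eq_zero fun i _ => ?_
    rw [em_apply, if_neg]
    exact (Fin.succ_ne_zero i).symm
  refine ⟨fun g hg => ?_, ContDiffOn.sum fun i _ => (em _).contDiff.comp_contDiffOn (vs i),
    fun z hz g hg => ?_, fun γ hγ h hh hPh g hg => ?_, fun u hu g hg => ?_⟩
  · refine Finset.sum_eq_zero fun i _ => ?_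
    rw [v0 i g hg, map_zero]
  · refine Finset.sum_congr rfl fun i _ => ?_
    rw [vsc i z hz g hg]
  · refine Finset.sum_congr rfl fun i _ => ?_
    rw [vinv i γ hγ h hh hPh g hg]
  · refine funext (ix1_cases ?_ fun j => ?_)
    · rw [tau1_zero]
      simp only
      rw [hval0, hval0]
    · rw [tau1_succ]
      simp only
      simp only [hval]
      rw [veq u hu g hg j, Finset.sum_apply]
      refine Finset.sum_congr rfl fun l _ => ?_
      rw [Pi.smul_apply, tau0_mulVec, transpose_apply, smul_eq_mul]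

theorem fn_mem {F : M2 → Ix 1 → ℂ} (hF : F ∈ Sect (tau 1) Γ) :
    (fun g => co (fun _ => 0) (F g)) ∈ Sect (tau 0) Γ := by
  obtain ⟨h0, hs, hsc, hinv, heq⟩ := hF
  refine ⟨fun g hg => ?_, clm_smooth _ hs, fun z hz g hg => ?_,
    fun γ hγ h hh hPh g hg => ?_, fun u hu g hg => ?_⟩
  · simp only
    rw [h0 g hg, map_zero]
  · simp only
    rw [hsc z hz g hg]
  · simp only
    rw [hinv γ hγ h hh hPh g hg]
  · simp only
    rw [heq u hu g hg, tau0_mulVec, co_apply, tau1_zero]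
    rfl

/-- inclusion of functions. -/
def inc : Sect (tau 0) Γ →ₗ[ℂ] Sect (tau 1) Γ where
  toFun f := ⟨fun g => em 0 (f.1 g), inc_mem Γ f.2⟩
  map_add' f f' := by
    refine lin_sect_ext fun g _ => ?_
    show em 0 (f.1 g + f'.1 g) = em 0 (f.1 g) + em 0 (f'.1 g)
    rw [map_add]
  map_smul' c f := by
    refine lin_sect_ext fun g _ => ?_
    show em 0 (c • f.1 g) = c • em 0 (f.1 g)
    funext I
    rw [Pi.smul_apply, em_apply, em_apply]
    split_ifs <;> simp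

theorem em_smul (a : Fin 4) (c : ℂ) (v : Ix 0 → ℂ) : em a (c • v) = c • em a v := by
  funext I
  rw [Pi.smul_apply, em_apply, em_apply]
  split_ifs <;> simp

theorem co_smul {J : Type} [Fintype J] (I : J) (c : ℂ) (v : J → ℂ) : co I (c • v) = c • co I v := rfl

theorem E_smulc {J : Type} [Fintype J] {F : M2 → J → ℂ} (hF : ContDiffOn ℝ ∞ F GLo) (c : ℂ) (X : M2)
    {g : M2} (hg : g ∈ GLo) : E X (c • F) g = c • E X F g :=
  E_clm hF (linSm c) X hg

/-- gradient. -/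
def grad : Sect (tau 0) Γ →ₗ[ℂ] Sect (tau 1) Γ where
  toFun f := ⟨fun g => ∑ i : Fin 3, em i.succ (E (eX i) f.1 g), grad_mem Γ f.2⟩
  map_add' f f' := by
    refine lin_sect_ext fun g hg => ?_
    show ∑ i : Fin 3, em i.succ (E (eX i) (f.1 + f'.1) g) =
      ∑ i : Fin 3, em i.succ (E (eX i) f.1 g) + ∑ i : Fin 3, em i.succ (E (eX i) f'.1 g)
    rw [← Finset.sum_add_distrib]
    refine Finset.sum_congr rfl fun i _ => ?_
    rw [E_add f.2.2.1 f'.2.2.1 _ hg, map_add]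
  map_smul' c f := by
    refine lin_sect_ext fun g hg => ?_
    show ∑ i : Fin 3, em i.succ (E (eX i) (c • f.1) g) =
      c • ∑ i : Fin 3, em i.succ (E (eX i) f.1 g)
    rw [Finset.smul_sum]
    refine Finset.sum_congr rfl fun i _ => ?_
    rw [E_smulc f.2.2.1 c _ hg, em_smul]

/-- function part. -/
def fn : Sect (tau 1) Γ →ₗ[ℂ] Sect (tau 0) Γ where
  toFun F := ⟨fun g => co (fun _ => 0) (F.1 g), fn_mem Γ F.2⟩
  map_add' f f' := by
    refine lin_sect_ext fun g _ => ?_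
    show co _ (f.1 g + f'.1 g) = co _ (f.1 g) + co _ (f'.1 g)
    rw [map_add]
  map_smul' c f := rfl

theorem dv_eq {F : M2 → Ix 1 → ℂ} (hF : F ∈ Sect (tau 1) Γ) (g : M2) :
    ∑ i : Fin 3, E (eX i) (fun g => co (fun _ => i.succ) (F g)) g =
      ∑ i : Fin 3, co (fun _ => i.succ) (E (eX i) F g) := by
  by_cases hg : g ∈ GLo
  · exact Finset.sum_congr rfl fun i _ => E_clm hF.2.1 _ _ hg
  · refine Finset.sum_congr rfl fun i _ => ?_
    rw [E_off hF.1 _ hg, map_zero]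
    exact E_off (fun g hg => by rw [hF.1 g hg, map_zero]) _ hg

/-- divergence. -/
def dv : Sect (tau 1) Γ →ₗ[ℂ] Sect (tau 0) Γ where
  toFun F := ⟨fun g => ∑ i : Fin 3, co (fun _ => i.succ) (E (eX i) F.1 g), by
    have h := Sect_div (vec_co F.2)
    simp only [dv_eq Γ F.2] at h
    exact h⟩
  map_add' f f' := by
    refine lin_sect_ext fun g hg => ?_
    show ∑ i : Fin 3, co (fun _ => i.succ) (E (eX i) (f.1 + f'.1) g) =
      ∑ i : Fin 3, co (fun _ => i.succ) (E (eX i) f.1 g) +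
        ∑ i : Fin 3, co (fun _ => i.succ) (E (eX i) f'.1 g)
    rw [← Finset.sum_add_distrib]
    refine Finset.sum_congr rfl fun i _ => ?_
    rw [E_add f.2.2.1 f'.2.2.1 _ hg, map_add]
  map_smul' c f := by
    refine lin_sect_ext fun g hg => ?_
    show ∑ i : Fin 3, co (fun _ => i.succ) (E (eX i) (c • f.1) g) =
      c • ∑ i : Fin 3, co (fun _ => i.succ) (E (eX i) f.1 g)
    rw [Finset.smul_sum]
    refine Finset.sum_congr rfl fun i _ => ?_
    rw [E_smulc f.2.2.1 c _ hg, co_smul]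

/-! ### Identities -/

variable {Γ}

theorem cas_sum3 {W : Type*} [NormedAddCommGroup W] [NormedSpace ℝ W] {G : Fin 3 → M2 → W}
    (hG : ∀ i, ContDiffOn ℝ ∞ (G i) GLo) {g : M2} (hg : g ∈ GLo) :
    Cas (fun x => ∑ i, G i x) g = ∑ i, Cas (G i) g := by
  have e1 : (fun x => ∑ i, G i x) = (G 0 + G 1) + G 2 := by
    funext x
    rw [Fin.sum_univ_three]
    rfl
  have e3 : ContDiffOn ℝ ∞ (G 0 + G 1) GLo := (hG 0).add (hG 1)
  rw [e1, lin_cas_add e3 (hG 2) hg, lin_cas_add (hG 0) (hG 1) hg, Fin.sum_univ_three]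

theorem cas_inc (f : Sect (tau 0) Γ) : CasL 1 Γ (inc Γ f) = inc Γ (CasL 0 Γ f) :=
  lin_sect_ext fun _ hg => Cas_clm f.2.2.1 (em 0) hg

theorem cas_fn (F : Sect (tau 1) Γ) : CasL 0 Γ (fn Γ F) = fn Γ (CasL 1 Γ F) :=
  lin_sect_ext fun _ hg => Cas_clm F.2.2.1 (co (fun _ => 0)) hg

theorem cas_grad (f : Sect (tau 0) Γ) : CasL 1 Γ (grad Γ f) = grad Γ (CasL 0 Γ f) := by
  refine lin_sect_ext fun g hg => ?_
  show Cas (fun g => ∑ i : Fin 3, em i.succ (E (eX i) f.1 g)) g =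
    ∑ i : Fin 3, em i.succ (E (eX i) (Cas f.1) g)
  rw [cas_sum3 (fun i => clm_smooth (em i.succ) (E_smooth f.2.2.1 (eX i))) hg]
  refine Finset.sum_congr rfl fun i _ => ?_
  rw [← Cas_E f.2.2.1 _ hg]
  exact Cas_clm (E_smooth f.2.2.1 _) (em i.succ) hg

theorem cas_dv (F : Sect (tau 1) Γ) : CasL 0 Γ (dv Γ F) = dv Γ (CasL 1 Γ F) := by
  refine lin_sect_ext fun g hg => ?_
  show Cas (fun g => ∑ i : Fin 3, co (fun _ => i.succ) (E (eX i) F.1 g)) g =
    ∑ i : Fin 3, co (fun _ => i.succ) (E (eX i) (Cas F.1) g)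
  rw [cas_sum3 (fun i => clm_smooth (co (fun _ => i.succ)) (E_smooth F.2.2.1 (eX i))) hg]
  refine Finset.sum_congr rfl fun i _ => ?_
  rw [← Cas_E F.2.2.1 _ hg]
  exact Cas_clm (E_smooth F.2.2.1 _) (co (fun _ => i.succ)) hg

theorem fn_inc (f : Sect (tau 0) Γ) : fn Γ (inc Γ f) = f := by
  refine lin_sect_ext fun g _ => ?_
  show co (fun _ => 0) (em 0 (f.1 g)) = f.1 g
  funext I
  rw [co_apply, em_apply, if_pos rfl, ix0 I]

theorem fn_grad (f : Sect (tau 0) Γ) : fn Γ (grad Γ f) = 0 := by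
  refine lin_sect_ext fun g _ => ?_
  show co (fun _ => 0) (∑ i : Fin 3, em i.succ (E (eX i) f.1 g)) = 0
  funext I
  rw [co_apply, Finset.sum_apply]
  refine Finset.sum_eq_zero fun i _ => ?_
  rw [em_apply, if_neg]
  exact (Fin.succ_ne_zero i).symm

theorem dv_inc (f : Sect (tau 0) Γ) : dv Γ (inc Γ f) = 0 := by
  refine lin_sect_ext fun g hg => ?_
  show ∑ i : Fin 3, co (fun _ => i.succ) (E (eX i) (fun g => em 0 (f.1 g)) g) = 0
  refine Finset.sum_eq_zero fun i _ => ?_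
  rw [E_clm f.2.2.1 (em 0) _ hg, co_apply, em_apply, if_neg (Fin.succ_ne_zero i)]
  rfl

theorem ck_zero : ck 0 = 0 := by
  unfold ck
  refine Finset.sum_eq_zero fun i _ => ?_
  have : drho 0 (rY i) = 0 := by
    ext I L
    simp [drho]
  rw [this, mul_zero]

theorem dv_grad (f : Sect (tau 0) Γ) : dv Γ (grad Γ f) = -(CasL 0 Γ f) := by
  refine lin_sect_ext fun g hg => ?_
  show ∑ i : Fin 3, co (fun _ => i.succ)
    (E (eX i) (fun g => ∑ j : Fin 3, em j.succ (E (eX j) f.1 g)) g) = -(Cas f.1 g)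
  rw [Cas_eq f.2 hg, ck_zero, Matrix.zero_mulVec, add_zero, neg_neg]
  refine Finset.sum_congr rfl fun i _ => ?_
  rw [SM.E_sum3 (G := fun j g => em j.succ (E (eX j) f.1 g))
    (fun j => (em j.succ).contDiff.comp_contDiffOn (E_smooth f.2.2.1 _)) _ hg]
  have h1 : ∀ j : Fin 3, E (eX i) (fun g => em j.succ (E (eX j) f.1 g)) g =
      em j.succ (E (eX i) (E (eX j) f.1) g) := fun j => E_clm (E_smooth f.2.2.1 _) (em j.succ) _ hg
  simp only [h1]
  funext I
  rw [co_apply, Finset.sum_apply, Finset.sum_eq_single i]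
  · rw [em_apply, if_pos rfl, ix0 I]
  · intro j _ hj
    rw [em_apply, if_neg]
    exact fun h => hj (Fin.succ_injective _ h).symm
  · intro h
    exact absurd (Finset.mem_univ i) h

theorem linP_expand (c : ℝ) {k : ℕ} {F : M2 → Ix k → ℂ} (hF : ContDiffOn ℝ ∞ F GLo) {g : M2}
    (hg : g ∈ GLo) : linP c k F g = -((c * c) • ∑ i, E (eX i) (E (eX i) F) g +
      (2 * c) • ∑ i, drho k (bY i) *ᵥ E (eX i) F g +
        ∑ i, drho k (bY i) *ᵥ (drho k (bY i) *ᵥ F g)) := by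
  have h1 : ∀ i, linOp c (eX i) (linMv (drho k (bY i)))
      (linOp c (eX i) (linMv (drho k (bY i))) F) g = (c * c) • E (eX i) (E (eX i) F) g +
        (2 * c) • (drho k (bY i) *ᵥ E (eX i) F g) + drho k (bY i) *ᵥ (drho k (bY i) *ᵥ F g) := by
    intro i
    have e0 : linOp c (eX i) (linMv (drho k (bY i))) F =
        (fun g => (c • ContinuousLinearMap.id ℝ (Ix k → ℂ)) (E (eX i) F g)) +
          (fun g => linMv (drho k (bY i)) (F g)) := rfl
    have s1 : ContDiffOn ℝ ∞ (fun g => (c • ContinuousLinearMap.id ℝ (Ix k → ℂ)) (E (eX i) F g))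
      GLo := (E_smooth hF _).const_smul c
    have s2 : ContDiffOn ℝ ∞ (fun g => linMv (drho k (bY i)) (F g)) GLo :=
      clm_smooth _ hF
    have e1 : E (eX i) (linOp c (eX i) (linMv (drho k (bY i))) F) g =
        c • E (eX i) (E (eX i) F) g + drho k (bY i) *ᵥ E (eX i) F g := by
      rw [e0, E_add s1 s2 _ hg, E_clm (E_smooth hF _) _ _ hg, E_clm hF _ _ hg]
      rfl
    unfold linOp at e1 ⊢
    rw [e1, linMv_apply, linMv_apply, mulVec_add, mulVec_smul, smul_add, smul_smul, two_mul,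
      add_smul]
    abel
  unfold linP
  simp only [h1, Finset.sum_add_distrib, ← Finset.smul_sum]

theorem PL_one (F : Sect (tau 1) Γ) : PL 1 Γ F = CasL 1 Γ F + F -
    inc Γ ((4 : ℂ) • fn Γ F + (2 : ℂ) • dv Γ F) - (2 : ℂ) • grad Γ (fn Γ F) := by
  refine lin_sect_ext fun g hg => ?_
  show Pop 1 F.1 g = Cas F.1 g + F.1 g - em 0 ((4 : ℂ) • co (fun _ => 0) (F.1 g) +
    (2 : ℂ) • ∑ i : Fin 3, co (fun _ => i.succ) (E (eX i) F.1 g)) -
    (2 : ℂ) • ∑ i : Fin 3, em i.succ (E (eX i) (fun g => co (fun _ => 0) (F.1 g)) g)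
  have h1 : ∀ i : Fin 3, E (eX i) (fun g => co (fun _ => 0) (F.1 g)) g =
      co (fun _ => 0) (E (eX i) F.1 g) := fun i => E_clm F.2.2.1 _ _ hg
  simp only [h1]
  rw [lin_PopP, linP_expand 1 F.2.2.1 hg, Cas_eq F.2 hg]
  obtain ⟨c0, c1⟩ := ck1_apply (F.1 g)
  refine funext (ix1_cases ?_ fun j => ?_)
  · simp only [Pi.neg_apply, Pi.add_apply, Pi.sub_apply, Pi.smul_apply, Finset.sum_apply, b_zero,
      b_succ, c0, em_apply, co_apply]
    simp [Fin.sum_univ_three]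
    ring
  · simp only [Pi.neg_apply, Pi.add_apply, Pi.sub_apply, Pi.smul_apply, Finset.sum_apply, b_zero,
      b_succ, c1, em_apply, co_apply]
    simp
    ring

end V1

/-- The function part. -/
theorem V1_maps (Γ : Subgroup (Mat 3)ˣ) :
    ∃ (inc grad : Sect (tau 0) Γ →ₗ[ℂ] Sect (tau 1) Γ) (fn dv : Sect (tau 1) Γ →ₗ[ℂ] Sect (tau 0) Γ),
      (∀ f g, (inc f).1 g = fun I => if I 0 = 0 then f.1 g (fun a => a.elim0) else 0) ∧
      (∀ f g, (grad f).1 g = fun I =>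
        if h : I 0 = 0 then 0 else E (eX ((I 0).pred h)) f.1 g (fun a => a.elim0)) ∧
      (∀ F g, (fn F).1 g = fun _ => F.1 g (fun _ => 0)) ∧
      (∀ F g, (dv F).1 g = fun _ => ∑ i : Fin 3, E (eX i) F.1 g (fun _ => i.succ)) ∧
      (∀ f, CasL 1 Γ (inc f) = inc (CasL 0 Γ f)) ∧ (∀ f, CasL 1 Γ (grad f) = grad (CasL 0 Γ f)) ∧
      (∀ F, CasL 0 Γ (fn F) = fn (CasL 1 Γ F)) ∧ (∀ F, CasL 0 Γ (dv F) = dv (CasL 1 Γ F)) ∧
      (∀ f, dv (grad f) = -(CasL 0 Γ f)) ∧ (∀ f, fn (inc f) = f) ∧ (∀ f, fn (grad f) = 0) ∧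
      (∀ f, dv (inc f) = 0) ∧
      (∀ f, PL 1 Γ (inc f) = inc (CasL 0 Γ f - (3 : ℂ) • f) - (2 : ℂ) • grad f) ∧
      (∀ f, PL 1 Γ (grad f) = inc ((2 : ℂ) • CasL 0 Γ f) + grad (CasL 0 Γ f + f)) ∧
      (∀ F, fn F = 0 → dv F = 0 → PL 1 Γ F = CasL 1 Γ F + F) := by
  refine ⟨V1.inc Γ, V1.grad Γ, V1.fn Γ, V1.dv Γ, fun f g => ?_, fun f g => ?_, fun F g => rfl,
    fun F g => ?_, V1.cas_inc, V1.cas_grad, V1.cas_fn, V1.cas_dv, V1.dv_grad, V1.fn_inc,
    V1.fn_grad, V1.dv_inc, fun f => ?_, fun f => ?_, fun F h1 h2 => ?_⟩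
  · funext I
    exact V1.em_apply 0 _ I
  · show ∑ i : Fin 3, V1.em i.succ (E (eX i) f.1 g) = _
    refine funext (V1.ix1_cases ?_ fun j => ?_)
    · rw [Finset.sum_apply, dif_pos rfl]
      refine Finset.sum_eq_zero fun i _ => ?_
      rw [V1.em_apply, if_neg]
      exact (Fin.succ_ne_zero i).symm
    · rw [Finset.sum_apply, dif_neg (Fin.succ_ne_zero j)]
      simp [V1.em_apply]
  · show ∑ i : Fin 3, V1.co (fun _ => i.succ) (E (eX i) F.1 g) = _
    funext I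
    rw [Finset.sum_apply]
    rfl
  · rw [V1.PL_one, V1.fn_inc, V1.dv_inc, V1.cas_inc, map_sub, map_add, map_smul, map_smul, map_smul,
      map_zero]
    module
  · rw [V1.PL_one, V1.fn_grad, V1.dv_grad, V1.cas_grad, map_add, map_add, map_smul, map_smul,
      map_smul, map_zero, map_zero, map_neg]
    module
  · rw [V1.PL_one, h1, h2]
    simp

/-- Harmonic functions are constant, so a divergence which is harmonic vanishes. -/
theorem V1_harm {Γ : Subgroup (Mat 3)ˣ} (h : Klein Γ) :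
    (∀ f ∈ EL 0 Γ 0, ∀ i, ∀ g ∈ GLo, E (eX i) f.1 g = 0) ∧
    (∀ (F : Sect (tau 1) Γ) (f : Sect (tau 0) Γ), f ∈ EL 0 Γ 0 →
      (∀ g, f.1 g = fun _ => ∑ i : Fin 3, E (eX i) F.1 g (fun _ => i.succ)) → f = 0) := by
  obtain ⟨D, hD⟩ := FD_exists h
  have hE : ∀ f ∈ EL 0 Γ 0, ∀ i, ∀ g ∈ GLo, E (eX i) f.1 g = 0 := by
    intro f hf
    unfold EL at hf
    rw [Module.End.mem_eigenspace_iff, Complex.ofReal_zero, zero_smul] at hf
    have hf1 : Cas f.1 = 0 := congrArg Subtype.val hf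
    have h1 := energy h hD f
    have h2 : ip 0 D f.1 (fun g => Cas f.1 g - ck 0 *ᵥ f.1 g) = 0 := by
      unfold ip
      rw [hf1, V1.ck_zero]
      simp
    rw [h2] at h1
    have h3 : ∀ i, ip 0 D (E (eX i) f.1) (E (eX i) f.1) = 0 := by
      have h4 : ∀ i, 0 ≤ (ip 0 D (E (eX i) f.1) (E (eX i) f.1)).re ∧
          (ip 0 D (E (eX i) f.1) (E (eX i) f.1)).im = 0 := fun i =>
        ip_nonneg h hD (E_smooth f.2.2.1 _).continuousOn
      have h5 : ∑ i, (ip 0 D (E (eX i) f.1) (E (eX i) f.1)).re = 0 := by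
        rw [← Complex.re_sum, h1, Complex.zero_re]
      intro i
      refine Complex.ext ?_ (h4 i).2
      exact (Finset.sum_eq_zero_iff_of_nonneg fun j _ => (h4 j).1).1 h5 i (Finset.mem_univ i)
    have h6 : ip 1 D (V1.grad Γ f).1 (V1.grad Γ f).1 = 0 := by
      have h7 : ip 1 D (V1.grad Γ f).1 (V1.grad Γ f).1 =
          ∑ i, ip 0 D (E (eX i) f.1) (E (eX i) f.1) := by
        unfold ip
        rw [← integral_finsetSum _ fun i _ => GR.ip_int hD (E_smooth f.2.2.1 (eX i)).continuousOn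
          (E_smooth f.2.2.1 (eX i)).continuousOn]
        refine integral_congr_ae (Filter.Eventually.of_forall fun p => ?_)
        show star (∑ i : Fin 3, V1.em i.succ (E (eX i) f.1 (sec p))) ⬝ᵥ
          (∑ i : Fin 3, V1.em i.succ (E (eX i) f.1 (sec p))) = _
        rw [dotProduct, V1.sum_ix1]
        simp only [Pi.star_apply, Finset.sum_apply, V1.em_apply]
        have hz : ∀ x : Fin 3, ¬ (0 : Fin 4) = x.succ := fun x => (Fin.succ_ne_zero x).symm
        simp only [dotProduct, Fin.succ_inj, hz, if_false, Finset.sum_const_zero, star_zero,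
          zero_mul, zero_add, Fintype.sum_unique, Pi.star_apply, Finset.sum_ite_eq,
          Finset.mem_univ, if_true]
        refine Finset.sum_congr rfl fun x _ => ?_
        have hd : ∀ I : Ix 0, E (eX x) f.1 (sec p) I = E (eX x) f.1 (sec p) fun a => a.elim0 :=
          fun I => by rw [V1.ix0 I]
        exact (congrArg₂ (fun a b : ℂ => star a * b) (hd _) (hd _)).symm
      rw [h7]
      exact Finset.sum_eq_zero fun i _ => h3 i
    have h8 := ip_pos h hD _ h6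
    intro i g _
    have h9 : (∑ j : Fin 3, V1.em j.succ (E (eX j) f.1 g)) (fun _ => i.succ) = 0 := by
      have : (V1.grad Γ f).1 g = 0 := by rw [h8]; rfl
      exact congrFun this _
    rw [Finset.sum_apply] at h9
    simp only [V1.em_apply] at h9
    funext I
    rw [V1.ix0 I]
    simpa using h9
  refine ⟨hE, fun F f hf hF => ?_⟩
  apply ip_pos h hD
  have h1 := green h hD (V1.vec_co F.2) f.2
  have h2 : (fun g => ∑ i, E (eX i) (fun g => V1.co (fun _ => i.succ) (F.1 g)) g) = f.1 := by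
    funext g
    rw [V1.dv_eq Γ F.2, hF]
    funext I
    rw [Finset.sum_apply]
    rfl
  rw [h2] at h1
  rw [h1, neg_eq_zero]
  refine Finset.sum_eq_zero fun i _ => ?_
  rw [GR.ip_congr hD (F' := 0) (hE f hf i) (fun _ _ => rfl)]
  unfold ip
  simp

end

end Pool.Agent.Work.MP_14c213_gt
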