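import Pool.Agent.Work.MP_14c213_gt.A.Pull
import Pool.Agent.Work.MP_14c213_gt.A.RepM
import Pool.Agent.Work.MP_14c213_gt.A.V1
import Pool.Agent.Work.MP_14c213_gt.A.FormKit
import Pool.Agent.Work.MP_14c213_gt.A.LoxM

/-!
1-forms: F : frames → (Fin 1 → Fin 3) → ℂ. hodge 1 = dδ + δd = -∑∇_i² ω_j + ∑_i [∇_i,∇_j] ω_i, and
[E_i,E_j] = E_{[e_i,e_j]} = E of a rotation, given by equivariance, so hodge = -∑∇_i² - 2 = Cas on the
vector block. The 1-forms with eigenvalue lam are the kernel of fn : EL 1 Γ lam → EL 0 Γ lam, which is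
onto (inc).
-/

namespace Pool.Agent.Work.MP_14c213_gt

open Matrix MeasureTheory
open scoped Matrix ContDiff Matrix.Norms.Elementwise

noncomputable section

/-- components of `coE` -/
theorem coE_one {H : M2 → (Fin 1 → Fin 3) → ℂ} (hH : ContDiffOn ℝ ∞ H GLo) {g : M2}
    (hg : g ∈ GLo) (I : Fin 0 → Fin 3) :
    coE H g I = -∑ j, E (eX j) (fun x => H x (fun _ => j)) g := by
  simp only [coE]
  congr 1
  refine Finset.sum_congr rfl fun j _ => ?_
  have h1 : (Fin.cons j I : Fin (0 + 1) → Fin 3) = fun _ => j := by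
    funext a
    fin_cases a
    rfl
  rw [h1]
  exact E_compn hH _ _ hg

/-- components of `extE` of a 1-form -/
theorem extE_one {H : M2 → (Fin 1 → Fin 3) → ℂ} (hH : ContDiffOn ℝ ∞ H GLo) {g : M2}
    (hg : g ∈ GLo) (I : Fin 2 → Fin 3) :
    extE H g I = E (eX (I 0)) (fun x => H x (fun _ => I 1)) g -
      E (eX (I 1)) (fun x => H x (fun _ => I 0)) g := by
  simp only [extE]
  rw [Fin.sum_univ_two]
  have h1 : I ∘ (0 : Fin 2).succAbove = fun _ => I 1 := by
    funext a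
    fin_cases a
    rfl
  have h2 : I ∘ (1 : Fin 2).succAbove = fun _ => I 0 := by
    funext a
    fin_cases a
    rfl
  rw [h1, h2, E_compn hH _ _ hg, E_compn hH _ _ hg]
  simp
  ring

/-- components of `extE` of a function -/
theorem extE_zero {f : M2 → (Fin 0 → Fin 3) → ℂ} (g : M2) (I : Fin 1 → Fin 3) :
    extE f g I = E (eX (I 0)) f g Fin.elim0 := by
  simp only [extE]
  rw [Fin.sum_univ_succ, Finset.univ_eq_empty, Finset.sum_empty, add_zero]
  have h1 : I ∘ (0 : Fin (0 + 1)).succAbove = Fin.elim0 :=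
    funext fun a => a.elim0
  rw [h1]
  simp

/-- The Hodge Laplacian on 1-forms as a sum of second derivatives. -/
theorem hodgeE_one {H : M2 → (Fin 1 → Fin 3) → ℂ} (hH : ContDiffOn ℝ ∞ H GLo) {g : M2}
    (hg : g ∈ GLo) (i : Fin 3) :
    hodgeE 1 H g (fun _ => i) = -∑ j, E (eX j) (E (eX j) (fun x => H x (fun _ => i))) g +
      ∑ j, (E (eX j) (E (eX i) (fun x => H x (fun _ => j))) g -
        E (eX i) (E (eX j) (fun x => H x (fun _ => j))) g) := by
  have hc : ∀ j : Fin 3, ContDiffOn ℝ ∞ (fun x => H x (fun _ => j)) GLo :=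
    fun j => smooth_compn hH _
  have hcc : ∀ i j : Fin 3, ContDiffOn ℝ ∞ (E (eX i) (fun x => H x (fun _ => j))) GLo :=
    fun i j => E_smooth (hc j) _
  show extE (coE H) g (fun _ => i) + coE (extE H) g (fun _ => i) = _
  have e1 : extE (coE H) g (fun _ => i) =
      -∑ j, E (eX i) (E (eX j) (fun x => H x (fun _ => j))) g := by
    rw [extE_zero, E_compn (coE_smooth hH) _ _ hg]
    rw [E_congr (G := fun x => ∑ j, (-1 : ℂ) * E (eX j) (fun x => H x (fun _ => j)) x)
      (fun x hx => by rw [coE_one hH hx]; simp) _ hg]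
    rw [E_lin (fun j => hcc j j) _ _ hg]
    simp
  have e2 : coE (extE H) g (fun _ => i) =
      -∑ j, (E (eX j) (E (eX j) (fun x => H x (fun _ => i))) g -
        E (eX j) (E (eX i) (fun x => H x (fun _ => j))) g) := by
    simp only [coE]
    congr 1
    refine Finset.sum_congr rfl fun j _ => ?_
    rw [E_compn (extE_smooth hH) _ _ hg]
    rw [E_congr (G := fun x => ∑ l : Fin 2, (![(1 : ℂ), -1] l) *
        (![E (eX j) (fun x => H x (fun _ => i)), E (eX i) (fun x => H x (fun _ => j))] l) x)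
      (fun x hx => ?_) _ hg]
    · rw [E_lin (fun l => ?_) _ _ hg]
      · simp [Fin.sum_univ_two]
        ring
      · fin_cases l
        · exact hcc j i
        · exact hcc i j
    · rw [extE_one hH hx]
      simp [Fin.sum_univ_two]
      ring
  rw [e1, e2, Finset.sum_sub_distrib, Finset.sum_sub_distrib]
  ring

private theorem F1_sum {α : Type} [Fintype α] (f : (Fin 1 → α) → ℂ) :
    ∑ M : Fin 1 → α, f M = ∑ m : α, f (fun _ => m) := by
  refine (Fintype.sum_equiv (Equiv.funUnique (Fin 1) α) _ _ fun M => ?_)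
  congr 1
  funext a
  have h : a = default := Subsingleton.elim _ _
  rw [h]
  rfl

private theorem F1_const {α : Type} (I : Fin 1 → α) : I = fun _ => I 0 := by
  funext a
  have h : a = 0 := Subsingleton.elim _ _
  rw [h]

private theorem F1_drho (Y : Mat 3) (v : Ix 1 → ℂ) (a : Fin 4) :
    (drho 1 Y *ᵥ v) (fun _ => a) = ∑ b, (Y a b : ℂ) * v (fun _ => b) := by
  rw [Matrix.mulVec, dotProduct, F1_sum]
  refine Finset.sum_congr rfl fun b _ => ?_
  simp [drho]

/-- inclusion of the vector block -/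
private def F1B : Matrix (Ix 1) (Fin 1 → Fin 3) ℂ :=
  Matrix.of fun I L => if I 0 = (L 0).succ then 1 else 0

private theorem F1B_succ (v : (Fin 1 → Fin 3) → ℂ) (i : Fin 3) :
    (F1B *ᵥ v) (fun _ => i.succ) = v (fun _ => i) := by
  rw [Matrix.mulVec, dotProduct, F1_sum]
  simp [F1B]

private theorem F1B_zero (v : (Fin 1 → Fin 3) → ℂ) : (F1B *ᵥ v) (fun _ => 0) = 0 := by
  rw [Matrix.mulVec, dotProduct, F1_sum]
  refine Finset.sum_eq_zero fun m _ => ?_
  have h : ¬ ((0 : Fin 4) = m.succ) := fun h => Fin.succ_ne_zero m h.symm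
  simp [F1B, h]

private theorem F1C_apply (v : Ix 1 → ℂ) (i : Fin 3) :
    (F1Bᵀ *ᵥ v) (fun _ => i) = v (fun _ => i.succ) := by
  rw [Matrix.mulVec, dotProduct, F1_sum]
  simp [F1B]

private theorem F1_CB : F1Bᵀ * F1B = 1 := by
  refine Matrix.ext_of_mulVec_single fun j => ?_
  funext I
  rw [F1_const I, ← Matrix.mulVec_mulVec, F1C_apply, F1B_succ, Matrix.one_mulVec]

private theorem F1_BC (v : Ix 1 → ℂ) (h0 : v (fun _ => 0) = 0) : F1B *ᵥ (F1Bᵀ *ᵥ v) = v := by
  funext I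
  rw [F1_const I]
  refine Fin.cases ?_ (fun i => ?_) (I 0)
  · rw [F1B_zero, h0]
  · rw [F1B_succ, F1C_apply]

private theorem F1_tens (k : Matrix (Fin 3) (Fin 3) ℝ) (v : (Fin 1 → Fin 3) → ℂ) (i : Fin 3) :
    (tens 3 1 k *ᵥ v) (fun _ => i) = ∑ j, (k i j : ℂ) * v (fun _ => j) := by
  rw [Matrix.mulVec, dotProduct, F1_sum]
  simp [tens]

private theorem F1_tau (k : Matrix (Fin 3) (Fin 3) ℝ) (v : Ix 1 → ℂ) (a : Fin 4) :
    (tau 1 k *ᵥ v) (fun _ => a) = ∑ b, (rot k a b : ℂ) * v (fun _ => b) := by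
  rw [Matrix.mulVec, dotProduct, F1_sum]
  simp [tau, rho]

private theorem F1_inter (k : Matrix (Fin 3) (Fin 3) ℝ) :
    F1B * tens 3 1 k = tau 1 k * F1B := by
  refine Matrix.ext_of_mulVec_single fun j => ?_
  generalize (Pi.single j 1 : (Fin 1 → Fin 3) → ℂ) = v
  funext I
  rw [F1_const I, ← Matrix.mulVec_mulVec, ← Matrix.mulVec_mulVec, F1_tau, Fin.sum_univ_succ,
    F1B_zero, mul_zero, zero_add]
  refine Fin.cases ?_ (fun i => ?_) (I 0)
  · rw [F1B_zero]
    symm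
    refine Finset.sum_eq_zero fun b _ => ?_
    simp [rot]
  · rw [F1B_succ, F1_tens]
    refine Finset.sum_congr rfl fun b _ => ?_
    rw [F1B_succ]
    simp [rot]

private theorem F1_inter' (k : Matrix (Fin 3) (Fin 3) ℝ) :
    F1Bᵀ * tau 1 k = tens 3 1 k * F1Bᵀ := by
  refine Matrix.ext_of_mulVec_single fun j => ?_
  generalize (Pi.single j 1 : Ix 1 → ℂ) = v
  funext I
  rw [F1_const I, ← Matrix.mulVec_mulVec, ← Matrix.mulVec_mulVec, F1_tens, F1C_apply, F1_tau,
    Fin.sum_univ_succ]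
  have h0 : rot k (I 0).succ 0 = 0 := by simp [rot]
  rw [h0, Complex.ofReal_zero, zero_mul, zero_add]
  refine Finset.sum_congr rfl fun b _ => ?_
  rw [F1C_apply]
  simp [rot]

private theorem F1_ck (v : Ix 1 → ℂ) (i : Fin 3) :
    (ck 1 *ᵥ v) (fun _ => i.succ) = -2 * v (fun _ => i.succ) := by
  have h : ck 1 *ᵥ v = ∑ i, drho 1 (rY i) *ᵥ (drho 1 (rY i) *ᵥ v) := by
    rw [ck, Matrix.sum_mulVec]
    refine Finset.sum_congr rfl fun i _ => ?_
    rw [Matrix.mulVec_mulVec]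
  rw [h]
  simp only [Finset.sum_apply, F1_drho]
  fin_cases i <;>
    simp [rY, Fin.sum_univ_succ, Matrix.single_apply] <;> ring

private theorem F1_ck0 (v : Ix 1 → ℂ) : (ck 1 *ᵥ v) (fun _ => 0) = 0 := by
  have h : ck 1 *ᵥ v = ∑ i, drho 1 (rY i) *ᵥ (drho 1 (rY i) *ᵥ v) := by
    rw [ck, Matrix.sum_mulVec]
    refine Finset.sum_congr rfl fun i _ => ?_
    rw [Matrix.mulVec_mulVec]
  rw [h]
  simp only [Finset.sum_apply, F1_drho]
  simp [rY, Fin.sum_univ_succ, Matrix.single_apply]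

private theorem F1_br (i j : Fin 3) : eX j * eX i - eX i * eX j =
    ((if j = i + 1 then (-1 : ℝ) else if j = i + 2 then 1 else 0) •
      rX (if j = i + 1 then i + 2 else i + 1)) := by
  fin_cases i <;> fin_cases j <;> ext a b <;> fin_cases a <;> fin_cases b <;>
    simp [eX, rX, pauli, Matrix.mul_apply, Fin.sum_univ_two] <;> ring_nf <;>
      simp [Complex.I_sq] <;> ring_nf

private theorem F1_comm {Γ : Subgroup (Mat 3)ˣ} {H : M2 → (Fin 1 → Fin 3) → ℂ}
    (hH : ContDiffOn ℝ ∞ H GLo) (hK : (fun g => F1B *ᵥ H g) ∈ Sect (tau 1) Γ) {g : M2}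
    (hg : g ∈ GLo) (i : Fin 3) :
    ∑ j, (E (eX j) (E (eX i) (fun x => H x (fun _ => j))) g -
        E (eX i) (E (eX j) (fun x => H x (fun _ => j))) g) = -2 * H g (fun _ => i) := by
  have hc : ∀ j : Fin 3, ContDiffOn ℝ ∞ (fun x => H x (fun _ => j)) GLo :=
    fun j => smooth_compn hH _
  have hr : ∀ k j : Fin 3, E (rX k) (fun x => H x (fun _ => j)) g =
      -∑ b, (rY k j.succ b : ℂ) * (F1B *ᵥ H g) (fun _ => b) := by
    intro k j
    rw [← F1_drho]
    have h1 := congrFun (Sect_E hK k hg) (fun _ => j.succ)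
    rw [Pi.neg_apply] at h1
    rw [← h1, E_compn hK.2.1 _ _ hg]
    refine E_congr (fun x _ => ?_) _ hg
    rw [F1B_succ]
  have h1 : ∀ j : Fin 3, E (eX j) (E (eX i) (fun x => H x (fun _ => j))) g -
        E (eX i) (E (eX j) (fun x => H x (fun _ => j))) g =
      ((if j = i + 1 then (-1 : ℝ) else if j = i + 2 then 1 else 0) : ℝ) •
        -∑ b, (rY (if j = i + 1 then i + 2 else i + 1) j.succ b : ℂ) *
          (F1B *ᵥ H g) (fun _ => b) := by
    intro j
    rw [E_comm (hc j) _ _ hg, F1_br, E_smul_dir, hr]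
  simp only [h1]
  have h2 : ∀ j : Fin 3, H g (fun _ => j) = (F1B *ᵥ H g) (fun _ => j.succ) := fun j =>
    (F1B_succ _ _).symm
  rw [h2]
  generalize F1B *ᵥ H g = v
  fin_cases i <;>
    simp [rY, Fin.sum_univ_succ, Matrix.single_apply] <;> ring

private theorem F1_key {H : M2 → (Fin 1 → Fin 3) → ℂ} (h0 : ∀ g, g ∉ GLo → H g = 0)
    (hH : ContDiffOn ℝ ∞ H GLo) {Γ : Subgroup (Mat 3)ˣ}
    (hK : (fun g => F1B *ᵥ H g) ∈ Sect (tau 1) Γ) :
    Cas (fun g => F1B *ᵥ H g) = fun g => F1B *ᵥ hodgeE 1 H g := by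
  funext g
  by_cases hg : g ∈ GLo
  · rw [Cas_eq hK hg]
    have h1 : ∀ i, E (eX i) (E (eX i) (fun g => F1B *ᵥ H g)) g =
        F1B *ᵥ (E (eX i) (E (eX i) H) g) := by
      intro i
      rw [← E_mulVec F1B (E_smooth hH (eX i)) (eX i) hg]
      exact E_congr (fun x hx => E_mulVec F1B hH (eX i) hx) _ hg
    simp only [h1]
    funext I
    rw [F1_const I]
    refine Fin.cases ?_ (fun i => ?_) (I 0)
    · simp only [Pi.add_apply, Pi.neg_apply, Finset.sum_apply, F1B_zero, F1_ck0]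
      simp
    · simp only [Pi.add_apply, Pi.neg_apply, Finset.sum_apply, F1B_succ, F1_ck]
      rw [hodgeE_one hH hg, F1_comm hH hK hg]
      congr 2
      refine Finset.sum_congr rfl fun j _ => ?_
      rw [E_compn (E_smooth hH (eX j)) _ _ hg]
      exact E_congr (fun x hx => E_compn hH _ _ hx) _ hg
  · have h1 : Cas (fun g => F1B *ᵥ H g) ∈ Sect (tau 1) Γ := Cas_mem hK
    rw [h1.1 g hg, hodgeE_off 1 h0 hg, Matrix.mulVec_zero]

theorem form1 {Γ : Subgroup (Mat 3)ˣ} (h : Klein Γ) (lam : ℝ)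
    (hf : FiniteDimensional ℂ (EL 0 Γ lam)) (hf' : FiniteDimensional ℂ (EL 1 Γ lam)) :
    formMult 1 Γ lam + (Module.finrank ℂ (EL 0 Γ lam) : Cardinal) =
      (Module.finrank ℂ (EL 1 Γ lam) : Cardinal) := by
  obtain ⟨inc, grad, fn, dv, hinc, hgrad, hfn, hdv, c1, c2, c3, c4, c5, c6, c7, c8, -⟩ := V1_maps Γ
  have hmap : ∀ F ∈ EL 1 Γ lam, fn F ∈ EL 0 Γ lam := by
    intro F hF
    rw [EL, Module.End.mem_eigenspace_iff] at hF ⊢
    rw [c3, hF, map_smul]
  have hmap' : ∀ F ∈ EL 0 Γ lam, inc F ∈ EL 1 Γ lam := by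
    intro F hF
    rw [EL, Module.End.mem_eigenspace_iff] at hF ⊢
    rw [c1, hF, map_smul]
  have hfn0 : ∀ F : Sect (tau 1) Γ, fn F = 0 ↔ ∀ g, F.1 g (fun _ => 0) = 0 := by
    intro F
    constructor
    · intro h1 g
      have h2 := congrFun (hfn F g) (fun a => a.elim0)
      rw [h1] at h2
      exact h2.symm
    · intro h1
      refine Subtype.ext ?_
      funext g I
      rw [hfn F g]
      exact h1 g
  have e1 : formMult 1 Γ lam =
      Module.rank ℂ (EL 1 Γ lam ⊓ LinearMap.ker fn : Submodule ℂ (Sect (tau 1) Γ)) := by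
    rw [formMult_pull (fun γ hγ => Klein_SO h hγ),
      EL_rank 1 Γ lam (fun F => fn F = 0) (EL 1 Γ lam ⊓ LinearMap.ker fn)
        (fun F => by rw [Submodule.mem_inf, LinearMap.mem_ker])]
    refine rank_span_map ((Matrix.mulVecLin F1B).compLeft M2) _ _ ?_ ?_ ?_
    · rintro H ⟨hH, -, he⟩
      have hK := Sect_map (τ' := tau 1) F1B (fun k _ _ => F1_inter kᵀ) hH
      refine ⟨⟨fun g => F1B *ᵥ H g, hK⟩, ⟨?_, ?_⟩, rfl⟩
      · rw [EL, Module.End.mem_eigenspace_iff]
        refine Subtype.ext ?_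
        show Cas (fun g => F1B *ᵥ H g) = (lam : ℂ) • fun g => F1B *ᵥ H g
        rw [F1_key hH.1 hH.2.1 hK, he]
        funext g
        simp only [Pi.smul_apply]
        rw [Matrix.mulVec_smul]
      · rw [hfn0]
        intro g
        exact F1B_zero _
    · rintro y ⟨F, ⟨hF, hP⟩, rfl⟩
      rw [hfn0] at hP
      have hH := Sect_map (τ' := tens 3 1) F1Bᵀ (fun k _ _ => F1_inter' kᵀ) F.2
      have e1 : (fun g => F1B *ᵥ (F1Bᵀ *ᵥ F.1 g)) = F.1 := by
        funext g
        exact F1_BC _ (hP g)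
      refine ⟨fun g => F1Bᵀ *ᵥ F.1 g, ⟨hH, ?_, ?_⟩, e1⟩
      · intro g I σ
        have h1 : σ = 1 := Subsingleton.elim _ _
        subst h1
        have h2 : I ∘ (1 : Equiv.Perm (Fin 1)) = I := rfl
        rw [h2]
        simp
      · have hK : (fun g => F1B *ᵥ (F1Bᵀ *ᵥ F.1 g)) ∈ Sect (tau 1) Γ := by
          rw [e1]; exact F.2
        have h1 := F1_key hH.1 hH.2.1 hK
        rw [e1] at h1
        rw [EL, Module.End.mem_eigenspace_iff] at hF
        have h2 : Cas F.1 = (lam : ℂ) • F.1 := congrArg Subtype.val hF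
        funext g
        have h3 := congrFun h1 g
        have h4 : F1Bᵀ *ᵥ (F1B *ᵥ hodgeE 1 (fun g => F1Bᵀ *ᵥ F.1 g) g) =
            F1Bᵀ *ᵥ (Cas F.1 g) := by rw [h3]
        rw [Matrix.mulVec_mulVec, F1_CB, Matrix.one_mulVec, h2] at h4
        rw [h4]
        simp only [Pi.smul_apply]
        rw [Matrix.mulVec_smul]
    · intro H _ h0
      funext g
      have h1 : F1B *ᵥ H g = 0 := congrFun h0 g
      have h2 : F1Bᵀ *ᵥ (F1B *ᵥ H g) = 0 := by rw [h1, Matrix.mulVec_zero]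
      rw [Matrix.mulVec_mulVec, F1_CB, Matrix.one_mulVec] at h2
      exact h2
  let fr : EL 1 Γ lam →ₗ[ℂ] EL 0 Γ lam := fn.restrict hmap
  have hsurj : LinearMap.range fr = ⊤ := by
    rw [LinearMap.range_eq_top]
    intro f
    exact ⟨⟨inc f.1, hmap' f.1 f.2⟩, Subtype.ext (c6 f.1)⟩
  have hrn := LinearMap.finrank_range_add_finrank_ker fr
  rw [hsurj, finrank_top] at hrn
  have hker : Module.rank ℂ (EL 1 Γ lam ⊓ LinearMap.ker fn : Submodule ℂ (Sect (tau 1) Γ)) =
      Module.rank ℂ (LinearMap.ker fr) := by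
    have h1 : (LinearMap.ker fr).map (EL 1 Γ lam).subtype = EL 1 Γ lam ⊓ LinearMap.ker fn := by
      ext F
      constructor
      · rintro ⟨G, hG, rfl⟩
        refine ⟨G.2, ?_⟩
        have h2 : fn.restrict hmap G = 0 := hG
        exact congrArg Subtype.val h2
      · rintro ⟨h1, h2⟩
        refine ⟨⟨F, h1⟩, ?_, rfl⟩
        show fn.restrict hmap ⟨F, h1⟩ = 0
        exact Subtype.ext h2
    rw [← h1]
    exact (LinearEquiv.rank_eq (Submodule.equivMapOfInjective _
      (Submodule.injective_subtype _) _)).symm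
  rw [e1, hker, ← Module.finrank_eq_rank, ← hrn]
  push_cast
  ring

end

end Pool.Agent.Work.MP_14c213_gt
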