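import Pool.Agent.Work.MP_14c213_gt.A.FDex
import Pool.Agent.Work.MP_14c213_gt.A.RhoM

/-!
The automorphic kernel. Only finitely many γ contribute for p, q in a compact set (Klein_proper).
Invariance: ker(g, γ₀ h), ker(γ₀ g, h), ker(g rot k, h rot l) = rho(rot k)ᵀ ker(g,h) rho(rot l).
-/

namespace Pool.Agent.Work.MP_14c213_gt

open Matrix MeasureTheory
open scoped Matrix ContDiff Matrix.Norms.Elementwise

noncomputable section

theorem ker_inv_left {k : ℕ} {Γ : Subgroup (Mat 3)ˣ} (hΓ : Klein Γ) {A : ℝ → ℝ} {γ : (Mat 3)ˣ}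
    (hγ : γ ∈ Γ) {g h : Mat 3} (hg : g ∈ SO) (hh : h ∈ SO) :
    ker k Γ A ((γ : Mat 3) * g) h = ker k Γ A g h := by
  unfold ker
  rw [← finsum_comp_equiv (Equiv.mulLeft (⟨γ, hγ⟩ : Γ))]
  refine finsum_congr fun δ => ?_
  have e : ((γ : Mat 3) * g)⁻¹ * (((Equiv.mulLeft (⟨γ, hγ⟩ : Γ) δ : Γ) : (Mat 3)ˣ) : Mat 3) * h =
      g⁻¹ * ((δ : (Mat 3)ˣ) : Mat 3) * h := by
    have e1 : (((Equiv.mulLeft (⟨γ, hγ⟩ : Γ) δ : Γ) : (Mat 3)ˣ) : Mat 3) =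
        (γ : Mat 3) * ((δ : (Mat 3)ˣ) : Mat 3) := rfl
    rw [e1, Matrix.mul_inv_rev]
    have e2 : ((γ : Mat 3))⁻¹ * (γ : Mat 3) = 1 :=
      Matrix.nonsing_inv_mul _ ((Matrix.isUnit_iff_isUnit_det _).1 γ.isUnit)
    calc g⁻¹ * (γ : Mat 3)⁻¹ * ((γ : Mat 3) * ((δ : (Mat 3)ˣ) : Mat 3)) * h
        = g⁻¹ * ((γ : Mat 3)⁻¹ * (γ : Mat 3)) * ((δ : (Mat 3)ˣ) : Mat 3) * h := by
          simp only [mul_assoc]
      _ = _ := by rw [e2, mul_one]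
  rw [e]

theorem ker_inv_right {k : ℕ} {Γ : Subgroup (Mat 3)ˣ} (hΓ : Klein Γ) {A : ℝ → ℝ} {γ : (Mat 3)ˣ}
    (hγ : γ ∈ Γ) {g h : Mat 3} (hg : g ∈ SO) (hh : h ∈ SO) :
    ker k Γ A g ((γ : Mat 3) * h) = ker k Γ A g h := by
  unfold ker
  rw [← finsum_comp_equiv (Equiv.mulRight (⟨γ, hγ⟩ : Γ))
    (f := fun δ : Γ => ((A (2 * (g⁻¹ * ((δ : (Mat 3)ˣ) : Mat 3) * h) 0 0) : ℝ) : ℂ) •
      rho k (g⁻¹ * ((δ : (Mat 3)ˣ) : Mat 3) * h))]
  refine finsum_congr fun δ => ?_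
  have e : g⁻¹ * (((Equiv.mulRight (⟨γ, hγ⟩ : Γ) δ : Γ) : (Mat 3)ˣ) : Mat 3) * h =
      g⁻¹ * ((δ : (Mat 3)ˣ) : Mat 3) * ((γ : Mat 3) * h) := by
    have e1 : (((Equiv.mulRight (⟨γ, hγ⟩ : Γ) δ : Γ) : (Mat 3)ˣ) : Mat 3) =
        ((δ : (Mat 3)ˣ) : Mat 3) * (γ : Mat 3) := rfl
    rw [e1]
    simp only [mul_assoc]
  rw [e]

private theorem kerm_col (a : Matrix (Fin 3) (Fin 3) ℝ) (M : Mat 3)
    (b : Matrix (Fin 3) (Fin 3) ℝ) : (rot a * M * rot b) 0 0 = M 0 0 := by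
  simp [Matrix.mul_apply, rot, Fin.sum_univ_succ]

/-- sandwiching a finite sum -/
private theorem kerm_sandwich {k : ℕ} {ι : Type*} (c : ι → ℂ) (R : ι → Matrix (Ix k) (Ix k) ℂ)
    {P Q P' Q' : Matrix (Ix k) (Ix k) ℂ} (hP : P' * P = 1) (hQ : Q * Q' = 1) :
    ∑ᶠ i, c i • (P * R i * Q) = P * (∑ᶠ i, c i • R i) * Q := by
  have h := AddMonoidHom.map_finsum_of_preimage_zero
    ((AddMonoidHom.mulRight Q).comp (AddMonoidHom.mulLeft P)) (fun x hx => by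
      have h1 : P * x * Q = 0 := hx
      have h2 : P' * (P * x * Q) * Q' = 0 := by rw [h1, mul_zero, zero_mul]
      calc x = (P' * P) * x * (Q * Q') := by rw [hP, hQ, one_mul, mul_one]
        _ = P' * (P * x * Q) * Q' := by simp only [mul_assoc]
        _ = 0 := h2) (fun i => c i • R i)
  refine Eq.trans ?_ h.symm
  refine finsum_congr fun i => ?_
  show c i • (P * R i * Q) = P * (c i • R i) * Q
  rw [mul_smul_comm, smul_mul_assoc]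

theorem ker_rot {k : ℕ} {Γ : Subgroup (Mat 3)ˣ} (hΓ : Klein Γ) {A : ℝ → ℝ} {g h : Mat 3}
    (hg : g ∈ SO) (hh : h ∈ SO) {a b : Matrix (Fin 3) (Fin 3) ℝ}
    (ha : a ∈ Matrix.orthogonalGroup (Fin 3) ℝ) (hb : b ∈ Matrix.orthogonalGroup (Fin 3) ℝ) :
    ker k Γ A (g * rot a) (h * rot b) = tau k aᵀ * ker k Γ A g h * tau k b := by
  have ha1 : a * aᵀ = 1 := (Matrix.mem_orthogonalGroup_iff (Fin 3) ℝ).1 ha
  have ha2 : aᵀ * a = 1 := (Matrix.mem_orthogonalGroup_iff' (Fin 3) ℝ).1 ha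
  have hb1 : b * bᵀ = 1 := (Matrix.mem_orthogonalGroup_iff (Fin 3) ℝ).1 hb
  have h1 : tau k a * tau k aᵀ = 1 := by
    unfold tau
    rw [← rho_mul, ← rot_mul, ha1, rot_one, rho_one]
  have h2 : tau k b * tau k bᵀ = 1 := by
    unfold tau
    rw [← rho_mul, ← rot_mul, hb1, rot_one, rho_one]
  unfold ker
  rw [← kerm_sandwich _ _ h1 h2]
  refine finsum_congr fun γ => ?_
  have e : (g * rot a)⁻¹ * ((γ : (Mat 3)ˣ) : Mat 3) * (h * rot b) =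
      rot aᵀ * (g⁻¹ * ((γ : (Mat 3)ˣ) : Mat 3) * h) * rot b := by
    have e1 : (rot a)⁻¹ = rot aᵀ := by
      apply Matrix.inv_eq_left_inv
      rw [← rot_mul, ha2, rot_one]
    rw [Matrix.mul_inv_rev, e1]
    simp only [mul_assoc]
  rw [e, kerm_col, rho_mul, rho_mul]
  rfl

theorem ker_star {k : ℕ} {Γ : Subgroup (Mat 3)ˣ} (hΓ : Klein Γ) {A : ℝ → ℝ} {g h : Mat 3}
    (hg : g ∈ SO) (hh : h ∈ SO) :
    (ker k Γ A h g)ᴴ = rho k (eta 3) * ker k Γ A g h * rho k (eta 3) := by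
  have hJ : rho k (eta 3) * rho k (eta 3) = 1 := by
    rw [← rho_mul, RM.eta_sq, rho_one]
  unfold ker
  rw [← kerm_sandwich _ _ hJ hJ]
  have h1 := AddMonoidHom.map_finsum_of_preimage_zero
    ((Matrix.conjTransposeAddEquiv (Ix k) (Ix k) ℂ).toAddMonoidHom) (fun x hx => by
      have h1 : xᴴ = 0 := hx
      exact Matrix.conjTranspose_eq_zero.1 h1) (fun γ : Γ =>
        ((A (2 * (h⁻¹ * ((γ : (Mat 3)ˣ) : Mat 3) * g) 0 0) : ℝ) : ℂ) •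
          rho k (h⁻¹ * ((γ : (Mat 3)ˣ) : Mat 3) * g))
  refine Eq.trans h1 ?_
  rw [← finsum_comp_equiv (Equiv.inv Γ)]
  refine finsum_congr fun γ => ?_
  show (((A (2 * (h⁻¹ * (((γ⁻¹ : Γ) : (Mat 3)ˣ) : Mat 3) * g) 0 0) : ℝ) : ℂ) •
    rho k (h⁻¹ * (((γ⁻¹ : Γ) : (Mat 3)ˣ) : Mat 3) * g))ᴴ = _
  have hγ := Klein_SO hΓ γ.2
  have hX : g⁻¹ * ((γ : (Mat 3)ˣ) : Mat 3) * h ∈ SO := SO_mul (SO_mul (SO_inv hg) hγ) hh
  obtain ⟨-, x2, x3, x4, x5⟩ := Frames_inv hX.1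
  have hgg := (Frames_inv hg.1).2.2.2
  have e : h⁻¹ * (((γ⁻¹ : Γ) : (Mat 3)ˣ) : Mat 3) * g = (g⁻¹ * ((γ : (Mat 3)ˣ) : Mat 3) * h)⁻¹ := by
    rw [Matrix.mul_inv_rev, Matrix.mul_inv_rev]
    have e1 : (((γ⁻¹ : Γ) : (Mat 3)ˣ) : Mat 3) = (((γ : (Mat 3)ˣ) : Mat 3))⁻¹ := by
      rw [Subgroup.coe_inv, Matrix.coe_units_inv]
    have e2 : (g⁻¹)⁻¹ = g := Matrix.inv_eq_right_inv hgg.2
    rw [e1, e2, mul_assoc]
  rw [e, x3, Matrix.conjTranspose_smul, ← rho_transpose, x2]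
  have e3 : (eta 3 * (g⁻¹ * ((γ : (Mat 3)ˣ) : Mat 3) * h)ᵀ * eta 3)ᵀ =
      eta 3 * (g⁻¹ * ((γ : (Mat 3)ˣ) : Mat 3) * h) * eta 3 := by
    rw [Matrix.transpose_mul, Matrix.transpose_mul, Matrix.transpose_transpose, RM.eta_transpose]
    simp only [mul_assoc]
  rw [e3, rho_mul, rho_mul, Complex.star_def, Complex.conj_ofReal]

/-- finite sum representation on compact sets -/
theorem kerm_finite {k : ℕ} {Γ : Subgroup (Mat 3)ˣ} (hΓ : Klein Γ) {A : ℝ → ℝ} (hA : Prof A)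
    {K : Set UH} (hK : IsCompact K) (hKs : K ⊆ UHs) : ∃ s : Finset Γ, ∀ X Y : Mat 3,
      (∃ p ∈ K, ∃ q ∈ K, ∀ γ : Γ, (X⁻¹ * ((γ : (Mat 3)ˣ) : Mat 3) * Y) 0 0 =
        ((SS p)⁻¹ * ((γ : (Mat 3)ˣ) : Mat 3) * SS q) 0 0) →
      ker k Γ A X Y = ∑ γ ∈ s, ((A (2 * (X⁻¹ * ((γ : (Mat 3)ˣ) : Mat 3) * Y) 0 0) : ℝ) : ℂ) •
        rho k (X⁻¹ * ((γ : (Mat 3)ˣ) : Mat 3) * Y) := by
  obtain ⟨M, hM⟩ := hA.supp
  refine ⟨(Klein_proper hΓ hK hKs (M / 2)).toFinset, fun X Y hXY => ?_⟩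
  obtain ⟨p, hp, q, hq, he⟩ := hXY
  unfold ker
  apply finsum_eq_sum_of_support_subset
  intro γ hγ
  rw [Function.mem_support] at hγ
  simp only [Set.Finite.coe_toFinset, Set.mem_ofPred_eq]
  refine ⟨p, hp, q, hq, ?_⟩
  by_contra hc
  apply hγ
  have h1 : A (2 * (X⁻¹ * ((γ : (Mat 3)ˣ) : Mat 3) * Y) 0 0) = 0 := by
    apply hM
    rw [he γ]
    push Not at hc
    linarith
  rw [h1, Complex.ofReal_zero, zero_smul]

private theorem kerm_term_cont {k : ℕ} {A : ℝ → ℝ} (hA : Prof A) (C : Mat 3) :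
    ContinuousOn (fun p : UH × UH => ((A (2 * ((SS p.1)⁻¹ * C * SS p.2) 0 0) : ℝ) : ℂ) •
      rho k ((SS p.1)⁻¹ * C * SS p.2)) (UHs ×ˢ UHs) := by
  have h0 : ContinuousOn SS UHs := SS_smooth.continuousOn
  have h1 : ContinuousOn (fun p : UH × UH => SS p.1) (UHs ×ˢ UHs) :=
    h0.comp continuousOn_fst fun p hp => hp.1
  have h2 : ContinuousOn (fun p : UH × UH => SS p.2) (UHs ×ˢ UHs) :=
    h0.comp continuousOn_snd fun p hp => hp.2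
  have h3 : ContinuousOn (fun p : UH × UH => (SS p.1)⁻¹ * C * SS p.2) (UHs ×ˢ UHs) := by
    have h4 : ContinuousOn (fun p : UH × UH => eta 3 * (SS p.1)ᵀ * eta 3 * C * SS p.2)
        (UHs ×ˢ UHs) := by
      have a1 : ContinuousOn (fun p : UH × UH => (SS p.1)ᵀ) (UHs ×ˢ UHs) :=
        (continuous_id.matrix_transpose).comp_continuousOn h1
      exact (((continuousOn_const.mul a1).mul continuousOn_const).mul continuousOn_const).mul h2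
    refine h4.congr fun p hp => ?_
    simp only
    rw [(Frames_inv (SS_SO hp.1).1).2.1]
  have h5 : ContinuousOn (fun p : UH × UH => rho k ((SS p.1)⁻¹ * C * SS p.2)) (UHs ×ˢ UHs) :=
    (rho_smooth k).continuous.comp_continuousOn h3
  have h6 : ContinuousOn (fun p : UH × UH => ((SS p.1)⁻¹ * C * SS p.2) 0 0) (UHs ×ˢ UHs) :=
    (continuous_apply_apply 0 0).comp_continuousOn h3
  have h7 : ContinuousOn (fun p : UH × UH => ((A (2 * ((SS p.1)⁻¹ * C * SS p.2) 0 0) : ℝ) : ℂ))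
      (UHs ×ˢ UHs) :=
    (Complex.continuous_ofReal.comp hA.cont).comp_continuousOn (continuousOn_const.mul h6)
  exact h7.smul h5

theorem ker_cont {k : ℕ} {Γ : Subgroup (Mat 3)ˣ} (hΓ : Klein Γ) {A : ℝ → ℝ} (hA : Prof A) :
    ContinuousOn (fun p : UH × UH => ker k Γ A (SS p.1) (SS p.2)) (UHs ×ˢ UHs) := by
  rintro ⟨p₀, q₀⟩ ⟨hp, hq⟩
  apply ContinuousAt.continuousWithinAt
  obtain ⟨K1, hK1, hp1, hK1s⟩ := exists_compact_subset UHs_open hp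
  obtain ⟨K2, hK2, hq2, hK2s⟩ := exists_compact_subset UHs_open hq
  obtain ⟨s, hs⟩ := kerm_finite (k := k) hΓ hA (hK1.union hK2) (Set.union_subset hK1s hK2s)
  have h1 : ContinuousAt (fun p : UH × UH => ∑ γ ∈ s,
      ((A (2 * ((SS p.1)⁻¹ * ((γ : (Mat 3)ˣ) : Mat 3) * SS p.2) 0 0) : ℝ) : ℂ) •
        rho k ((SS p.1)⁻¹ * ((γ : (Mat 3)ˣ) : Mat 3) * SS p.2)) (p₀, q₀) := by
    refine tendsto_finsetSum _ fun γ _ => ?_
    exact (kerm_term_cont hA _).continuousAt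
      ((UHs_open.prod UHs_open).mem_nhds ⟨hp, hq⟩)
  refine h1.congr ?_
  filter_upwards [(isOpen_interior.prod isOpen_interior).mem_nhds
    (show (p₀, q₀) ∈ interior K1 ×ˢ interior K2 from ⟨hp1, hq2⟩)] with x hx
  exact (hs _ _ ⟨x.1, Or.inl (interior_subset hx.1), x.2, Or.inr (interior_subset hx.2),
    fun γ => rfl⟩).symm

theorem ker_bdd {k : ℕ} {Γ : Subgroup (Mat 3)ˣ} (hΓ : Klein Γ) {A : ℝ → ℝ} (hA : Prof A)
    {K : Set UH} (hK : IsCompact K) (hKs : K ⊆ UHs) :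
    ∃ M : ℝ, ∀ p ∈ K, ∀ q ∈ K, ∀ a b, ‖ker k Γ A (SS p) (SS q) a b‖ ≤ M := by
  obtain ⟨M, hM⟩ := (hK.prod hK).exists_bound_of_continuousOn
    ((ker_cont (k := k) hΓ hA).mono (Set.prod_mono hKs hKs))
  exact ⟨M, fun p hp q hq a b => (Matrix.norm_entry_le_entrywise_sup_norm _).trans
    (hM (p, q) ⟨hp, hq⟩)⟩

/-- Locally in `g` and uniformly for `q` in a compact set, the kernel is a fixed finite sum. -/
theorem ker_local {k : ℕ} {Γ : Subgroup (Mat 3)ˣ} (hΓ : Klein Γ) {A : ℝ → ℝ} (hA : Prof A)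
    {K : Set UH} (hK : IsCompact K) (hKs : K ⊆ UHs) {g₀ : M2} (hg₀ : g₀ ∈ GLo) :
    ∃ (s : Finset Γ), ∀ᶠ g in nhds g₀, ∀ q ∈ K, ker k Γ A (Phi g) (SS q) =
      ∑ γ ∈ s, ((A (2 * ((Phi g)⁻¹ * ((γ : (Mat 3)ˣ) : Mat 3) * SS q) 0 0) : ℝ) : ℂ) •
        rho k ((Phi g)⁻¹ * ((γ : (Mat 3)ˣ) : Mat 3) * SS q) := by
  have hop : IsOpen GLo := by
    have h : Continuous fun g : M2 => g.det := Continuous.matrix_det continuous_id
    exact isOpen_ne.preimage h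
  have hcor : ContinuousAt (fun g => cor (Phi g)) g₀ := by
    have h1 : ContinuousAt Phi g₀ := Phi_smooth.continuousOn.continuousAt (hop.mem_nhds hg₀)
    have he : ∀ a b : Fin 4, ContinuousAt (fun g => Phi g a b) g₀ := fun a b =>
      (continuous_apply_apply a b).continuousAt.comp h1
    have h2 := cor_mem (Phi_SO hg₀).1
    have h3 : (0 : ℝ) < 1 / (Phi g₀ 0 0 - Phi g₀ 3 0) := h2
    have h4 : Phi g₀ 0 0 - Phi g₀ 3 0 ≠ 0 := by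
      intro h0
      rw [h0, div_zero] at h3
      exact lt_irrefl _ h3
    have h5 : ((Phi g₀ 0 0 : ℂ) - Phi g₀ 3 0) ≠ 0 := by
      rw [← Complex.ofReal_sub]
      exact Complex.ofReal_ne_zero.2 h4
    have hec : ∀ a b : Fin 4, ContinuousAt (fun g => (Phi g a b : ℂ)) g₀ := fun a b =>
      Complex.continuous_ofReal.continuousAt.comp (he a b)
    refine ContinuousAt.prodMk ?_ ?_
    · exact ((hec 1 0).sub (continuousAt_const.mul (hec 2 0))).div ((hec 0 0).sub (hec 3 0)) h5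
    · exact continuousAt_const.div ((he 0 0).sub (he 3 0)) h4
  obtain ⟨K1, hK1, hp1, hK1s⟩ := exists_compact_subset UHs_open (cor_mem (Phi_SO hg₀).1)
  obtain ⟨s, hs⟩ := kerm_finite (k := k) hΓ hA (hK1.union hK) (Set.union_subset hK1s hKs)
  refine ⟨s, ?_⟩
  filter_upwards [hop.mem_nhds hg₀, hcor.preimage_mem_nhds (isOpen_interior.mem_nhds hp1)]
    with g hg hgc q hq
  apply hs
  refine ⟨cor (Phi g), Or.inl (interior_subset hgc), q, Or.inr hq, fun γ => ?_⟩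
  obtain ⟨a, ha, he, -⟩ := SS_cor (Phi_SO hg).1
  have ha2 : aᵀ * a = 1 := (Matrix.mem_orthogonalGroup_iff' (Fin 3) ℝ).1 ha
  have e1 : (rot a)⁻¹ = rot aᵀ := by
    apply Matrix.inv_eq_left_inv
    rw [← rot_mul, ha2, rot_one]
  rw [he, Matrix.mul_inv_rev, e1]
  have e2 := kerm_col aᵀ ((Phi g)⁻¹ * ((γ : (Mat 3)ˣ) : Mat 3) * SS q) 1
  rw [rot_one, mul_one] at e2
  rw [← e2]
  simp only [mul_assoc]

end

end Pool.Agent.Work.MP_14c213_gt
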