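import Pool.Agent.Work.MP_14c213_gt.A.CenM
import Pool.Agent.Work.MP_14c213_gt.A.KerM

/-!
The geometric side. trace (ker k Γ B (SS p) (SS p)) = ∑_γ B(2((SS p)⁻¹γSS p)₀₀) (tr γ)^k (rho_trace),
split into γ = 1 and conjugacy classes (finitely many contribute: Lox_disp, Klein_lengths), insert
class_sum and expand (2L + 2 cth)^k; the inner sum over classes with chl = L is lenData.
-/

namespace Pool.Agent.Work.MP_14c213_gt

open Matrix MeasureTheory
open scoped Matrix ContDiff Matrix.Norms.Elementwise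

noncomputable section

/-- The matrix of a group element. -/
private abbrev geo_m {Γ : Subgroup (Mat 3)ˣ} (γ : Γ) : Mat 3 := ((γ : (Mat 3)ˣ) : Mat 3)

private def geo_b {Γ : Subgroup (Mat 3)ˣ} (B : ℝ → ℝ) (γ : Γ) (p : UH) : ℝ :=
  B (2 * ((SS p)⁻¹ * geo_m γ * SS p) 0 0)

private lemma geo_SS {p : UH} (hp : p ∈ UHs) : (SS p)⁻¹ * SS p = 1 ∧ SS p * (SS p)⁻¹ = 1 := by
  have h1 : IsUnit (SS p).det := by rw [(SS_SO hp).2]; exact isUnit_one
  exact ⟨Matrix.nonsing_inv_mul _ h1, Matrix.mul_nonsing_inv _ h1⟩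

private lemma geo_tr (A C G : Mat 3) (h : C * A = 1) : (A * G * C).trace = G.trace := by
  rw [Matrix.trace_mul_comm, ← Matrix.mul_assoc, h, Matrix.one_mul]

private lemma geo_conj {Γ : Subgroup (Mat 3)ˣ} {γ δ : Γ} (h : IsConj γ δ) :
    (geo_m γ).trace = (geo_m δ).trace ∧ chl (geo_m γ) = chl (geo_m δ) ∧
      cth (geo_m γ) = cth (geo_m δ) := by
  obtain ⟨u, hu⟩ := isConj_iff.1 h
  have h1 : geo_m δ = geo_m u * geo_m γ * geo_m u⁻¹ := by
    rw [← hu]; rfl
  have h2 : geo_m u⁻¹ * geo_m u = 1 := by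
    show (((u : (Mat 3)ˣ)⁻¹ : (Mat 3)ˣ) : Mat 3) * ((u : (Mat 3)ˣ) : Mat 3) = 1
    exact Units.inv_mul _
  have h3 : geo_m u * geo_m u⁻¹ = 1 := by
    show ((u : (Mat 3)ˣ) : Mat 3) * (((u : (Mat 3)ˣ)⁻¹ : (Mat 3)ˣ) : Mat 3) = 1
    exact Units.mul_inv _
  rw [h1]
  exact ⟨(geo_tr _ _ _ h2).symm, (chl_conj _ _ _ h3).1.symm, (chl_conj _ _ _ h3).2.symm⟩

private lemma geo_cont {Γ : Subgroup (Mat 3)ˣ} {B : ℝ → ℝ} (hB : Continuous B) (γ : Γ) :
    ContinuousOn (geo_b B γ) UHs := by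
  have hS : ContinuousOn SS UHs := SS_smooth.continuousOn
  have hI : ContinuousOn (fun p => (SS p)⁻¹) UHs := by
    have h1 : Set.EqOn (fun p => (SS p)⁻¹) (fun p => (SS p).adjugate) UHs := by
      intro p hp
      simp only [Matrix.inv_def, (SS_SO hp).2, Ring.inverse_one, one_smul]
    refine ContinuousOn.congr ?_ h1
    exact (Continuous.matrix_adjugate continuous_id).comp_continuousOn hS
  have h2 : ContinuousOn (fun p => (SS p)⁻¹ * geo_m γ * SS p) UHs :=
    (hI.mul continuousOn_const).mul hS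
  have h3 : ContinuousOn (fun p => 2 * ((SS p)⁻¹ * geo_m γ * SS p) 0 0) UHs := by
    have h4 : Continuous (fun M : Mat 3 => 2 * M 0 0) := by fun_prop
    exact h4.comp_continuousOn h2
  exact hB.comp_continuousOn h3

private lemma geo_int {Γ : Subgroup (Mat 3)ˣ} {D : Set UH} (hD : FD Γ D) {B : ℝ → ℝ}
    (hB : Continuous B) (γ : Γ) : IntegrableOn (geo_b B γ) D mu := by
  obtain ⟨K, hK, hKs, hDK⟩ := hD.bdd
  have hfin : mu D < ⊤ := lt_of_le_of_lt (measure_mono hDK) (mu_finite hK hKs)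
  obtain ⟨C, hC⟩ := (hK.image_of_continuousOn ((geo_cont hB γ).mono hKs)).isBounded.exists_norm_le
  have hf : IsFiniteMeasure (mu.restrict D) := ⟨by rw [Measure.restrict_apply_univ]; exact hfin⟩
  refine Integrable.of_bound (((geo_cont hB γ).mono hD.sub).aestronglyMeasurable hD.meas) C ?_
  refine (ae_restrict_iff' hD.meas).2 (Filter.Eventually.of_forall fun p hp => ?_)
  exact hC _ ⟨p, hDK hp, rfl⟩

/-- Only finitely many elements contribute. -/
private lemma geo_fin {Γ : Subgroup (Mat 3)ˣ} {D : Set UH} (h : Klein Γ) (hD : FD Γ D)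
    {B : ℝ → ℝ} {M : ℝ} (hM : ∀ v, M ≤ v → B v = 0) :
    ∃ F : Finset Γ, 1 ∈ F ∧ ∀ γ ∉ F, ∀ p ∈ D, geo_b B γ p = 0 := by
  classical
  obtain ⟨K, hK, hKs, hDK⟩ := hD.bdd
  have hf := Klein_proper h hK hKs (M / 2)
  refine ⟨insert 1 hf.toFinset, Finset.mem_insert_self _ _, fun γ hγ p hp => ?_⟩
  have h1 : γ ∉ hf.toFinset := fun h => hγ (Finset.mem_insert_of_mem h)
  rw [Set.Finite.mem_toFinset] at h1
  have h2 : M / 2 < ((SS p)⁻¹ * geo_m γ * SS p) 0 0 := by
    by_contra hc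
    exact h1 ⟨p, hDK hp, p, hDK hp, not_lt.1 hc⟩
  unfold geo_b
  apply hM
  linarith

private lemma geo_trace {k : ℕ} {Γ : Subgroup (Mat 3)ˣ} {D : Set UH} (hD : FD Γ D)
    {B : ℝ → ℝ} {F : Finset Γ} (hF : ∀ γ ∉ F, ∀ p ∈ D, geo_b B γ p = 0) {p : UH} (hp : p ∈ D) :
    (ker k Γ B (SS p) (SS p)).trace =
      ((∑ γ ∈ F, (geo_m γ).trace ^ k * geo_b B γ p : ℝ) : ℂ) := by
  unfold ker
  rw [finsum_eq_sum_of_support_subset (s := F)]
  · rw [Matrix.trace_sum]
    push_cast
    refine Finset.sum_congr rfl fun γ _ => ?_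
    rw [Matrix.trace_smul, rho_trace, geo_tr _ _ _ (geo_SS (hD.sub hp)).2, smul_eq_mul]
    unfold geo_b
    push_cast
    ring
  · intro γ hγ
    by_contra hc
    apply hγ
    have := hF γ hc p hp
    unfold geo_b at this
    show _ • _ = _
    rw [this]
    simp

private lemma geo_one {Γ : Subgroup (Mat 3)ˣ} {D : Set UH} (hD : FD Γ D) (B : ℝ → ℝ) :
    ∫ p in D, geo_b B (1 : Γ) p ∂mu = (mu D).toReal * B 2 := by
  have h1 : ∫ p in D, geo_b B (1 : Γ) p ∂mu = ∫ p in D, B 2 ∂mu := by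
    refine setIntegral_congr_fun hD.meas fun p hp => ?_
    unfold geo_b
    have h2 : geo_m (1 : Γ) = 1 := rfl
    simp only [h2, Matrix.mul_one, (geo_SS (hD.sub hp)).1]
    simp
  rw [h1, setIntegral_const, smul_eq_mul]
  rfl

/-- The contribution of a class. -/
private def geo_G {Γ : Subgroup (Mat 3)ˣ} (k : ℕ) (B : ℝ → ℝ) (γ : Γ) : ℝ :=
  Real.arcosh (chl (geo_m γ)) * (Real.pi / 2) * (∫ v in Set.Ioi (2 * chl (geo_m γ)), B v) *
    ∑ j ∈ Finset.range (k + 1), (k.choose j : ℝ) * (2 * chl (geo_m γ)) ^ (k - j) * 2 ^ j *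
      (cen γ * cth (geo_m γ) ^ j / (chl (geo_m γ) - cth (geo_m γ)))

private lemma geo_mk_out {Γ : Subgroup (Mat 3)ˣ} (c : ConjClasses Γ) :
    ConjClasses.mk (Quotient.out c : Γ) = c := Quotient.out_eq c

private lemma geo_class {k : ℕ} {Γ : Subgroup (Mat 3)ˣ} {D : Set UH} (h : Klein Γ) (hD : FD Γ D)
    {B : ℝ → ℝ} (hB : Prof B) {F : Finset Γ}
    (hF : ∀ γ ∉ F, ∀ p ∈ D, geo_b B γ p = 0) [DecidableEq (ConjClasses Γ)] [DecidableEq Γ]
    {c : ConjClasses Γ} (hc : c ≠ ConjClasses.mk 1) :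
    ∑ γ ∈ F.erase 1 with ConjClasses.mk γ = c,
      (geo_m γ).trace ^ k * ∫ p in D, geo_b B γ p ∂mu = geo_G k B (Quotient.out c : Γ) := by
  set γ₀ : Γ := Quotient.out c with hγ₀
  have hmk : ConjClasses.mk γ₀ = c := geo_mk_out c
  have hne : γ₀ ≠ 1 := by
    intro e
    apply hc
    rw [← hmk, e]
  have h0 : ∀ γ ∉ F, ∫ p in D, geo_b B γ p ∂mu = 0 := by
    intro γ hγ
    exact setIntegral_eq_zero_of_forall_eq_zero fun p hp => hF γ hγ p hp
  have h1 : ∑ γ ∈ F.erase 1 with ConjClasses.mk γ = c,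
      (geo_m γ).trace ^ k * ∫ p in D, geo_b B γ p ∂mu =
      (geo_m γ₀).trace ^ k * ∑ γ ∈ F.erase 1 with ConjClasses.mk γ = c,
        ∫ p in D, geo_b B γ p ∂mu := by
    rw [Finset.mul_sum]
    refine Finset.sum_congr rfl fun γ hγ => ?_
    have h2 : ConjClasses.mk γ = c := (Finset.mem_filter.1 hγ).2
    have h3 : IsConj γ γ₀ := ConjClasses.mk_eq_mk_iff_isConj.1 (h2.trans hmk.symm)
    rw [(geo_conj h3).1]
  have h4 : ∑ᶠ δ : {δ : Γ // IsConj γ₀ δ}, ∫ p in D, geo_b B (δ : Γ) p ∂mu =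
      ∑ γ ∈ F.erase 1 with ConjClasses.mk γ = c, ∫ p in D, geo_b B γ p ∂mu := by
    rw [finsum_subtype_eq_finsum_cond (f := fun γ : Γ => ∫ p in D, geo_b B γ p ∂mu)
      (fun δ => IsConj γ₀ δ)]
    refine finsum_cond_eq_sum_of_cond_iff _ fun {x} hx => ?_
    have hxF : x ∈ F := by
      by_contra hcon
      exact hx (h0 x hcon)
    rw [Finset.mem_filter, Finset.mem_erase]
    constructor
    · intro hcj
      have h5 : ConjClasses.mk x = c := by
        rw [← hmk]; exact ConjClasses.mk_eq_mk_iff_isConj.2 hcj.symm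
      refine ⟨⟨?_, hxF⟩, h5⟩
      rintro rfl
      exact hc h5.symm
    · rintro ⟨-, h5⟩
      exact ConjClasses.mk_eq_mk_iff_isConj.1 (hmk.trans h5.symm)
  have h6 := class_sum h hD γ₀ hne hB
  have h7 : ∑ᶠ δ : {δ : Γ // IsConj γ₀ δ}, ∫ p in D, geo_b B (δ : Γ) p ∂mu =
      cen γ₀ * (Real.arcosh (chl (geo_m γ₀)) * (Real.pi / 2) /
      (chl (geo_m γ₀) - cth (geo_m γ₀)) * ∫ v in Set.Ioi (2 * chl (geo_m γ₀)), B v) := h6
  obtain ⟨z, hz⟩ := h.lox γ₀ γ₀.2 (fun e => hne (Subtype.ext e))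
  obtain ⟨-, -, htr, -, -⟩ := Lox_chl hz
  have htr' : (geo_m γ₀).trace = 2 * cth (geo_m γ₀) + 2 * chl (geo_m γ₀) := by
    exact htr.trans (add_comm _ _)
  rw [h1, ← h4, h7, htr', add_pow]
  unfold geo_G
  rw [Finset.mul_sum, Finset.sum_mul]
  refine Finset.sum_congr rfl fun j _ => ?_
  rw [mul_pow 2 (cth (geo_m γ₀)) j]
  ring

private lemma geo_chl_one : chl (1 : Mat 3) = 1 := by
  unfold chl
  rw [Matrix.one_mul, Matrix.trace_one]
  norm_num

theorem geo_side {k : ℕ} {Γ : Subgroup (Mat 3)ˣ} {D : Set UH} (h : Klein Γ) (hD : FD Γ D)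
    {B : ℝ → ℝ} (hB : Prof B) :
    ∫ p in D, (ker k Γ B (SS p) (SS p)).trace ∂mu =
      ((4 ^ k * B 2 * (mu D).toReal + ∑ᶠ L : {L : ℝ // 1 < L},
        Real.arcosh L * (Real.pi / 2) * (∫ v in Set.Ioi (2 * (L : ℝ)), B v) *
          ∑ j ∈ Finset.range (k + 1), (k.choose j : ℝ) * (2 * (L : ℝ)) ^ (k - j) * 2 ^ j *
            lenData Γ j L : ℝ) : ℂ) := by
  classical
  obtain ⟨M, hM⟩ := hB.supp
  obtain ⟨F, hF1, hF⟩ := geo_fin h hD hM
  have hstep : ∫ p in D, (ker k Γ B (SS p) (SS p)).trace ∂mu =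
      ((∑ γ ∈ F, (geo_m γ).trace ^ k * ∫ p in D, geo_b B γ p ∂mu : ℝ) : ℂ) := by
    rw [setIntegral_congr_fun hD.meas (fun p hp => geo_trace (k := k) hD hF hp)]
    rw [integral_complex_ofReal]
    congr 1
    rw [integral_finsetSum]
    · refine Finset.sum_congr rfl fun γ _ => ?_
      rw [integral_const_mul]
    · intro γ _
      exact (geo_int hD hB.cont γ).const_mul _
  rw [hstep]
  congr 1
  rw [← Finset.add_sum_erase F _ hF1, geo_one hD B]
  have h4 : (geo_m (1 : Γ)).trace = 4 := by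
    have h2 : geo_m (1 : Γ) = 1 := rfl
    rw [h2, Matrix.trace_one]; norm_num
  rw [h4]
  congr 1
  · ring
  -- the set of classes
  have hfin := Klein_lengths h (M / 2)
  set T : Finset (ConjClasses Γ) :=
    (hfin.toFinset ∪ (F.erase 1).image ConjClasses.mk).erase (ConjClasses.mk 1) with hT
  have hmaps : ∀ γ ∈ F.erase 1, ConjClasses.mk γ ∈ T := by
    intro γ hγ
    rw [hT, Finset.mem_erase]
    refine ⟨?_, Finset.mem_union_right _ (Finset.mem_image_of_mem _ hγ)⟩
    intro e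
    have := ConjClasses.mk_eq_mk_iff_isConj.1 e
    rw [isConj_one_left] at this
    exact (Finset.mem_erase.1 hγ).1 this
  rw [← Finset.sum_fiberwise_of_maps_to hmaps]
  have hTne : ∀ c ∈ T, c ≠ ConjClasses.mk 1 := fun c hc => (Finset.mem_erase.1 hc).1
  rw [Finset.sum_congr rfl fun c hc => geo_class (k := k) h hD hB hF (hTne c hc)]
  -- lengths
  have hT1 : ∀ c ∈ T, 1 < chl (geo_m (Quotient.out c : Γ)) := by
    intro c hc
    have hne : (Quotient.out c : Γ) ≠ 1 := by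
      intro e
      apply hTne c hc
      rw [← geo_mk_out c, e]
    obtain ⟨z, hz⟩ := h.lox _ (Quotient.out c : Γ).2 (fun e => hne (Subtype.ext e))
    exact (Lox_chl hz).2.2.2.1
  have hH : ∀ L : {L : ℝ // 1 < L}, Real.arcosh L * (Real.pi / 2) *
      (∫ v in Set.Ioi (2 * (L : ℝ)), B v) *
          ∑ j ∈ Finset.range (k + 1), (k.choose j : ℝ) * (2 * (L : ℝ)) ^ (k - j) * 2 ^ j *
            lenData Γ j L =
      ∑ c ∈ T, if chl (geo_m (Quotient.out c : Γ)) = L then geo_G k B (Quotient.out c : Γ)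
        else 0 := by
    rintro ⟨L, hL⟩
    have hzero : ∀ x : ℝ, M / 2 < x → ∫ v in Set.Ioi (2 * x), B v = 0 := by
      intro x hx
      refine setIntegral_eq_zero_of_forall_eq_zero fun v hv => hM v ?_
      have : 2 * x < v := hv
      linarith
    by_cases hLM : L ≤ M / 2
    · have hlen : ∀ j, lenData Γ j L = ∑ c ∈ T, if chl (geo_m (Quotient.out c : Γ)) = L then
          cen (Quotient.out c : Γ) * cth (geo_m (Quotient.out c : Γ)) ^ j /
            (L - cth (geo_m (Quotient.out c : Γ))) else 0 := by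
        intro j
        unfold lenData
        refine finsum_eq_sum_of_support_subset _ ?_
        intro c hc
        have hcL : chl (geo_m (Quotient.out c : Γ)) = L := by
          by_contra hcon
          exact hc (if_neg hcon)
        rw [Finset.mem_coe, hT, Finset.mem_erase]
        refine ⟨?_, Finset.mem_union_left _ ?_⟩
        · rintro rfl
          have h1 : IsConj (Quotient.out (ConjClasses.mk (1 : Γ)) : Γ) 1 :=
            ConjClasses.mk_eq_mk_iff_isConj.1 (geo_mk_out _)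
          have h2 := (geo_conj h1).2.1
          rw [hcL] at h2
          have h3 : geo_m (1 : Γ) = 1 := rfl
          rw [h3, geo_chl_one] at h2
          linarith
        · rw [Set.Finite.mem_toFinset]
          show chl (geo_m (Quotient.out c : Γ)) ≤ M / 2
          rw [hcL]; exact hLM
      simp only [hlen]
      simp only [Finset.mul_sum]
      rw [Finset.sum_comm]
      refine Finset.sum_congr rfl fun c hc => ?_
      by_cases hcL : chl (geo_m (Quotient.out c : Γ)) = L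
      · simp only [if_pos hcL]
        unfold geo_G
        rw [hcL, Finset.mul_sum]
      · simp only [if_neg hcL]
        simp
    · rw [not_le] at hLM
      simp only
      rw [hzero L hLM, mul_zero, zero_mul]
      symm
      refine Finset.sum_eq_zero fun c hc => ?_
      by_cases hcL : chl (geo_m (Quotient.out c : Γ)) = L
      · rw [if_pos hcL]
        unfold geo_G
        rw [hcL, hzero L hLM, mul_zero, zero_mul]
      · rw [if_neg hcL]
  rw [finsum_congr hH, finsum_sum_comm]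
  · refine Finset.sum_congr rfl fun c hc => ?_
    symm
    rw [finsum_eq_single _ (⟨chl (geo_m (Quotient.out c : Γ)), hT1 c hc⟩ : {L : ℝ // 1 < L})]
    · rw [if_pos rfl]
    · intro L hL
      rw [if_neg]
      intro e
      exact hL (Subtype.ext e.symm)
  · intro c hc
    refine (Set.finite_singleton
      (⟨chl (geo_m (Quotient.out c : Γ)), hT1 c hc⟩ : {L : ℝ // 1 < L})).subset ?_
    intro L hL
    rw [Set.mem_singleton_iff]
    by_contra hcon
    apply hL
    show (if _ then _ else _) = _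
    rw [if_neg]
    intro e
    exact hcon (Subtype.ext e.symm)

/-- The lengths form a locally finite set. -/
theorem lenData_supp {Γ : Subgroup (Mat 3)ˣ} (h : Klein Γ) (R : ℝ) :
    {L : ℝ | 1 < L ∧ L ≤ R ∧ ∃ m, lenData Γ m L ≠ 0}.Finite := by
  refine ((Klein_lengths h R).image fun c => chl (geo_m (Quotient.out c : Γ))).subset ?_
  rintro L ⟨-, hLR, m, hm⟩
  have h1 : ∃ c : ConjClasses Γ, chl (geo_m (Quotient.out c : Γ)) = L := by
    by_contra hcon
    push Not at hcon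
    apply hm
    unfold lenData
    exact (finsum_congr fun c => if_neg (hcon c)).trans finsum_zero
  obtain ⟨c, hc⟩ := h1
  refine ⟨c, ?_, hc⟩
  show chl (geo_m (Quotient.out c : Γ)) ≤ R
  rw [hc]; exact hLR

end

end Pool.Agent.Work.MP_14c213_gt
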