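import Pool.Agent.Work.MP_14c213_gt.A.Lin
import Pool.Agent.Work.MP_14c213_gt.A.DivM

/-!
Consequences of the divergence theorem: apply it to w_i g = star (F g) ⬝ᵥ H i g etc.
ip is a finite integral of a bounded continuous function (D is relatively compact).
-/

namespace Pool.Agent.Work.MP_14c213_gt

open Matrix MeasureTheory
open scoped Matrix ContDiff Matrix.Norms.Elementwise

noncomputable section

namespace GR

variable {k : ℕ} {Γ : Subgroup (Mat 3)ˣ} {D : Set UH}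

/-- the hermitian product as a real bilinear map. -/
def gB (k : ℕ) : (Ix k → ℂ) →L[ℝ] (Ix k → ℂ) →L[ℝ] ℂ :=
  LinearMap.toContinuousLinearMap
    ((LinearMap.toContinuousLinearMap : ((Ix k → ℂ) →ₗ[ℝ] ℂ) ≃ₗ[ℝ] ((Ix k → ℂ) →L[ℝ] ℂ)).toLinearMap ∘ₗ
      LinearMap.mk₂ ℝ (fun v w : Ix k → ℂ => star v ⬝ᵥ w)
        (by intro a b c; simp only [star_add, add_dotProduct])
        (by
          intro c a b
          rw [show star (c • a) = c • star a by
            ext i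
            simp, smul_dotProduct])
        (by intro a b c; simp only [dotProduct_add])
        (by intro c a b; rw [dotProduct_smul]))

theorem gB_apply (v w : Ix k → ℂ) : gB k v w = star v ⬝ᵥ w := rfl

theorem tau_unit {m : Matrix (Fin 3) (Fin 3) ℝ} (hm : m ∈ Matrix.orthogonalGroup (Fin 3) ℝ) :
    (tau k mᵀ)ᴴ * tau k mᵀ = 1 := by
  unfold tau
  rw [← rho_transpose, ← rho_mul, rot_transpose, transpose_transpose, ← rot_transpose, ← rot_mul,
    SM.orth_left hm, rot_one, rho_one]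

theorem tau_ip {m : Matrix (Fin 3) (Fin 3) ℝ} (hm : m ∈ Matrix.orthogonalGroup (Fin 3) ℝ)
    (v w : Ix k → ℂ) : star (tau k mᵀ *ᵥ v) ⬝ᵥ (tau k mᵀ *ᵥ w) = star v ⬝ᵥ w := by
  rw [star_mulVec, ← dotProduct_mulVec, mulVec_mulVec, tau_unit hm, one_mulVec]

theorem ip_int (hD : FD Γ D) {F G : M2 → Ix k → ℂ} (hF : ContinuousOn F GLo)
    (hG : ContinuousOn G GLo) :
    IntegrableOn (fun p => star (F (sec p)) ⬝ᵥ G (sec p)) D mu := by
  obtain ⟨K, hK, hKs, hDK⟩ := hD.bdd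
  have h1 : ContinuousOn (fun p => F (sec p)) UHs :=
    hF.comp sec_smooth.continuous.continuousOn fun p hp => sec_mem hp
  have h2 : ContinuousOn (fun p => G (sec p)) UHs :=
    hG.comp sec_smooth.continuous.continuousOn fun p hp => sec_mem hp
  have h3 : ContinuousOn (fun p => star (F (sec p)) ⬝ᵥ G (sec p)) UHs :=
    ((gB k).continuous.comp_continuousOn h1).clm_apply h2
  have hfin : mu K < ⊤ := mu_finite hK hKs
  obtain ⟨C, hC⟩ := hK.exists_bound_of_continuousOn (h3.mono hKs)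
  have : IsFiniteMeasure (mu.restrict K) := ⟨by rw [Measure.restrict_apply_univ]; exact hfin⟩
  have h4 : IntegrableOn (fun p => star (F (sec p)) ⬝ᵥ G (sec p)) K mu := by
    refine Integrable.of_bound ((h3.mono hKs).aestronglyMeasurable hK.measurableSet) C ?_
    exact (ae_restrict_iff' hK.measurableSet).2 (Filter.Eventually.of_forall hC)
  exact h4.mono_set hDK

theorem vec_VecEq {H : Fin 3 → M2 → Ix k → ℂ} (hH : Vec k Γ H) {F : M2 → Ix k → ℂ}
    (hF : F ∈ Sect (tau k) Γ) : VecEq (fun i g => star (F g) ⬝ᵥ H i g) := by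
  obtain ⟨-, hs, hsc, -, heq⟩ := hF
  refine ⟨fun i => ?_, fun i z hz g hg => ?_, fun u hu g hg i => ?_⟩
  · exact ((gB k).contDiff.comp_contDiffOn hs).clm_apply (hH.smooth i)
  · simp only
    rw [hsc z hz g hg, hH.scal i z hz g hg]
  · simp only
    rw [heq u hu g hg, hH.equiv u hu g hg i, dotProduct_sum]
    refine Finset.sum_congr rfl fun j _ => ?_
    rw [dotProduct_smul, tau_ip (Phi_unitary hu).2.1, smul_eq_mul]

theorem E_dot {F G : M2 → Ix k → ℂ} (hF : ContDiffOn ℝ ∞ F GLo) (hG : ContDiffOn ℝ ∞ G GLo)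
    (X : M2) {g : M2} (hg : g ∈ GLo) : E X (fun x => star (F x) ⬝ᵥ G x) g =
      star (E X F g) ⬝ᵥ G g + star (F g) ⬝ᵥ E X G g :=
  E_bilin (gB k) hF hG X hg

theorem green {k : ℕ} {Γ : Subgroup (Mat 3)ˣ} {D : Set UH} (h : Klein Γ) (hD : FD Γ D)
    {H : Fin 3 → M2 → Ix k → ℂ} (hH : Vec k Γ H) {F : M2 → Ix k → ℂ} (hF : F ∈ Sect (tau k) Γ) :
    ip k D F (fun g => ∑ i, E (eX i) (H i) g) = -∑ i, ip k D (E (eX i) F) (H i) := by
  have h1 := div_thm h hD (vec_VecEq hH hF) (by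
    intro i γ hγ x hx hPx g hg
    rw [hF.2.2.2.1 γ hγ x hx hPx g hg, hH.inv i γ hγ x hx hPx g hg])
  have hFs : ContDiffOn ℝ ∞ F GLo := hF.2.1
  have h2 : ∫ p in D, ∑ i, E (eX i) (fun g => star (F g) ⬝ᵥ H i g) (sec p) ∂mu =
      ∫ p in D, ((∑ i, star (E (eX i) F (sec p)) ⬝ᵥ H i (sec p)) +
        star (F (sec p)) ⬝ᵥ ∑ i, E (eX i) (H i) (sec p)) ∂mu := by
    refine setIntegral_congr_fun hD.meas fun p hp => ?_
    rw [dotProduct_sum, ← Finset.sum_add_distrib]
    exact Finset.sum_congr rfl fun i _ => E_dot hFs (hH.smooth i) _ (sec_mem (hD.sub hp))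
  have hi1 : ∀ i, IntegrableOn (fun p => star (E (eX i) F (sec p)) ⬝ᵥ H i (sec p)) D mu := fun i =>
    ip_int hD (E_smooth hFs _).continuousOn (hH.smooth i).continuousOn
  have hi2 : IntegrableOn (fun p => star (F (sec p)) ⬝ᵥ ∑ i, E (eX i) (H i) (sec p)) D mu :=
    ip_int hD (G := fun g => ∑ i, E (eX i) (H i) g) hFs.continuousOn
      (continuousOn_finsetSum _ fun i _ => (E_smooth (hH.smooth i) _).continuousOn)
  rw [h2, integral_add (integrable_finsetSum _ fun i _ => hi1 i) hi2,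
    integral_finsetSum _ fun i _ => hi1 i] at h1
  show ∫ p in D, star (F (sec p)) ⬝ᵥ ∑ i, E (eX i) (H i) (sec p) ∂mu = _
  exact eq_neg_of_add_eq_zero_right h1

theorem ip_star (k : ℕ) (D : Set UH) (F G : M2 → Ix k → ℂ) : star (ip k D F G) = ip k D G F := by
  unfold ip
  rw [Complex.star_def, ← integral_conj]
  refine integral_congr_ae (Filter.Eventually.of_forall fun p => ?_)
  exact (Matrix.star_dotProduct _ _).symm

theorem ip_addsmul (hD : FD Γ D) {F G H : M2 → Ix k → ℂ} (hF : ContinuousOn F GLo)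
    (hG : ContinuousOn G GLo) (hH : ContinuousOn H GLo) (c : ℂ) :
    ip k D F (G + c • H) = ip k D F G + c * ip k D F H := by
  unfold ip
  have h1 := ip_int hD hF hG
  have h2 := ip_int hD hF hH
  rw [← integral_const_mul, ← integral_add h1 (h2.const_mul c)]
  refine integral_congr_ae (Filter.Eventually.of_forall fun p => ?_)
  simp only [Pi.add_apply, Pi.smul_apply]
  rw [dotProduct_add, dotProduct_smul, smul_eq_mul]

/-- congruence. -/
theorem ip_congr (hD : FD Γ D) {F F' G G' : M2 → Ix k → ℂ} (hF : ∀ g ∈ GLo, F g = F' g)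
    (hG : ∀ g ∈ GLo, G g = G' g) : ip k D F G = ip k D F' G' := by
  refine setIntegral_congr_fun hD.meas fun p hp => ?_
  rw [hF _ (sec_mem (hD.sub hp)), hG _ (sec_mem (hD.sub hp))]

theorem ip_addR (hD : FD Γ D) {F G H : M2 → Ix k → ℂ} (hF : ContinuousOn F GLo)
    (hG : ContinuousOn G GLo) (hH : ContinuousOn H GLo) :
    ip k D F (fun g => G g + H g) = ip k D F G + ip k D F H := by
  have := ip_addsmul hD hF hG hH 1
  rw [one_smul, one_mul] at this
  exact this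

theorem ip_negR (k : ℕ) (D : Set UH) (F G : M2 → Ix k → ℂ) :
    ip k D F (fun g => -G g) = -ip k D F G := by
  unfold ip
  rw [← integral_neg]
  refine integral_congr_ae (Filter.Eventually.of_forall fun p => ?_)
  simp only
  rw [dotProduct_neg]

theorem ip_sumR (hD : FD Γ D) {F : M2 → Ix k → ℂ} {G : Fin 3 → M2 → Ix k → ℂ}
    (hF : ContinuousOn F GLo) (hG : ∀ i, ContinuousOn (G i) GLo) :
    ip k D F (fun g => ∑ i, G i g) = ∑ i, ip k D F (G i) := by
  unfold ip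
  rw [← integral_finsetSum _ fun i _ => ip_int hD hF (hG i)]
  refine integral_congr_ae (Filter.Eventually.of_forall fun p => ?_)
  simp only
  rw [dotProduct_sum]

/-- moving a hermitian matrix. -/
theorem ip_herm (k : ℕ) (D : Set UH) {M : Matrix (Ix k) (Ix k) ℂ} (hM : Mᴴ = M)
    (F G : M2 → Ix k → ℂ) : ip k D (fun g => M *ᵥ F g) G = ip k D F (fun g => M *ᵥ G g) := by
  unfold ip
  refine integral_congr_ae (Filter.Eventually.of_forall fun p => ?_)
  simp only
  rw [star_mulVec, ← dotProduct_mulVec, hM]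

theorem bY_transpose (i : Fin 3) : (bY i)ᵀ = bY i := by
  unfold bY
  rw [transpose_add, transpose_single, transpose_single]
  exact add_comm _ _

theorem drho_b_herm (k : ℕ) (i : Fin 3) : (drho k (bY i))ᴴ = drho k (bY i) := by
  rw [← drho_transpose, bY_transpose]

theorem ck_herm (k : ℕ) : (ck k)ᴴ = ck k := by
  unfold ck
  rw [conjTranspose_sum]
  refine Finset.sum_congr rfl fun i _ => ?_
  rw [conjTranspose_mul, ← drho_transpose, SM.rY_transpose, show -rY i = (-1 : ℝ) • rY i by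
    rw [neg_one_smul], drho_smul]
  simp

theorem energy0 (h : Klein Γ) (hD : FD Γ D) {F G : M2 → Ix k → ℂ}
    (hF : F ∈ Sect (tau k) Γ) (hG : G ∈ Sect (tau k) Γ) :
    ip k D F (Cas G) = ∑ i, ip k D (E (eX i) F) (E (eX i) G) + ip k D F (fun g => ck k *ᵥ G g) := by
  have hFs : ContDiffOn ℝ ∞ F GLo := hF.2.1
  have hGs : ContDiffOn ℝ ∞ G GLo := hG.2.1
  have h1 : ip k D F (Cas G) = ip k D F (fun g => (-∑ i, E (eX i) (E (eX i) G) g) + ck k *ᵥ G g) :=
    ip_congr hD (fun g _ => rfl) fun g hg => Cas_eq hG hg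
  have c1 : ContinuousOn (fun g => ∑ i, E (eX i) (E (eX i) G) g) GLo :=
    continuousOn_finsetSum _ fun i _ => (E_smooth (E_smooth hGs _) _).continuousOn
  have h2 := ip_addR hD (G := fun g => -∑ i, E (eX i) (E (eX i) G) g)
    (H := fun g => ck k *ᵥ G g) hFs.continuousOn c1.neg (SM.mulVec_smooth hGs _).continuousOn
  rw [h1, h2, ip_negR k D F (fun g => ∑ i, E (eX i) (E (eX i) G) g), green h hD (Vec_E hG) hF,
    neg_neg]

theorem ip_P (h : Klein Γ) (hD : FD Γ D) {H : Fin 3 → M2 → Ix k → ℂ} (hH : Vec k Γ H)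
    {F : M2 → Ix k → ℂ} (hF : F ∈ Sect (tau k) Γ) (c : ℝ) :
    ip k D F (fun g => -∑ i, (c • E (eX i) (H i) g + drho k (bY i) *ᵥ H i g)) =
      -∑ i, ip k D (fun g => (-c) • E (eX i) F g + drho k (bY i) *ᵥ F g) (H i) := by
  have hFs : ContDiffOn ℝ ∞ F GLo := hF.2.1
  have cE : ContinuousOn (fun g => ∑ i, E (eX i) (H i) g) GLo :=
    continuousOn_finsetSum _ fun i _ => (E_smooth (hH.smooth i) _).continuousOn
  have cb : ∀ i, ContinuousOn (fun g => drho k (bY i) *ᵥ H i g) GLo := fun i =>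
    (SM.mulVec_smooth (hH.smooth i) _).continuousOn
  have cb' : ContinuousOn (fun g => ∑ i, drho k (bY i) *ᵥ H i g) GLo :=
    continuousOn_finsetSum _ fun i _ => cb i
  have h1 : ip k D F (fun g => -∑ i, (c • E (eX i) (H i) g + drho k (bY i) *ᵥ H i g)) =
      -ip k D F (fun g => ∑ i, drho k (bY i) *ᵥ H i g) +
        (-c : ℂ) * ip k D F (fun g => ∑ i, E (eX i) (H i) g) := by
    have h0 := ip_addsmul hD (G := fun g => -∑ i, drho k (bY i) *ᵥ H i g)
      (H := fun g => ∑ i, E (eX i) (H i) g) hFs.continuousOn cb'.neg cE (-c : ℂ)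
    rw [← ip_negR, ← h0]
    refine ip_congr hD (fun _ _ => rfl) fun g _ => ?_
    rw [Pi.add_apply, Pi.smul_apply, Finset.sum_add_distrib, neg_add, ← Finset.smul_sum, add_comm,
      neg_smul, Complex.coe_smul]
  have h2 : ∀ i, ip k D (fun g => (-c) • E (eX i) F g + drho k (bY i) *ᵥ F g) (H i) =
      ip k D F (fun g => drho k (bY i) *ᵥ H i g) + (-c : ℂ) * ip k D (E (eX i) F) (H i) := by
    intro i
    rw [← ip_star, ← ip_herm k D (drho_b_herm k i), ← ip_star k D (H i) (E (eX i) F),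
      ← ip_star k D (H i) (fun g => drho k (bY i) *ᵥ F g)]
    have h3 := ip_addsmul hD (F := H i) (G := fun g => drho k (bY i) *ᵥ F g) (H := E (eX i) F)
      (hH.smooth i).continuousOn (SM.mulVec_smooth hFs _).continuousOn
      (E_smooth hFs _).continuousOn (-c : ℂ)
    have h4 : star (-c : ℂ) = (-c : ℂ) := by simp
    have h5 : ∀ z : ℂ, (-c : ℂ) * star z = star ((-c : ℂ) * z) := by
      intro z
      rw [star_mul', h4]
    rw [h5, ← star_add, ← h3]
    congr 1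
    refine ip_congr hD (fun _ _ => rfl) fun g _ => ?_
    rw [Pi.add_apply, Pi.smul_apply, add_comm]
    congr 1
    rw [neg_smul, neg_smul, Complex.coe_smul]
  rw [h1, Finset.sum_congr rfl fun i _ => h2 i, Finset.sum_add_distrib, ip_sumR hD
    hFs.continuousOn cb, green h hD hH hF, ← Finset.mul_sum]
  ring

theorem dot_self (v : Ix k → ℂ) : star v ⬝ᵥ v = ((∑ I, ‖v I‖ ^ 2 : ℝ) : ℂ) := by
  rw [dotProduct]
  push_cast
  refine Finset.sum_congr rfl fun I _ => ?_
  rw [Pi.star_apply, Complex.star_def, Complex.conj_mul']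

theorem ip_self (k : ℕ) (D : Set UH) (F : M2 → Ix k → ℂ) :
    ip k D F F = ((∫ p in D, ∑ I, ‖F (sec p) I‖ ^ 2 ∂mu : ℝ) : ℂ) := by
  unfold ip
  simp only [dot_self]
  exact integral_ofReal

theorem sect_norm (h : Klein Γ) {F : M2 → Ix k → ℂ} (hF : F ∈ Sect (tau k) Γ) {γ : (Mat 3)ˣ}
    (hγ : γ ∈ Γ) {p : UH} (hp : p ∈ UHs) :
    ∑ I, ‖F (sec (act (γ : Mat 3) p)) I‖ ^ 2 = ∑ I, ‖F (sec p) I‖ ^ 2 := by
  obtain ⟨x, hx, hxP⟩ := Phi_surj (Klein_SO h hγ)
  obtain ⟨z, hz, u, hu, he⟩ := act_sec hx hp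
  have h1 := GLo_mul hx (sec_mem hp)
  have h2 := GLo_mul h1 (SM.unitary_GLo hu)
  rw [hxP] at he
  have h3 : F (sec (act (γ : Mat 3) p)) = tau k (Rot u)ᵀ *ᵥ F (sec p) := by
    rw [he, hF.2.2.1 z hz _ h2, hF.2.2.2.2 u hu _ h1, hF.2.2.2.1 γ hγ x hx hxP _ (sec_mem hp)]
  have h4 := tau_ip (k := k) (Phi_unitary hu).2.1 (F (sec p)) (F (sec p))
  rw [← h3, dot_self, dot_self] at h4
  exact_mod_cast h4

theorem sect_zero {F : M2 → Ix k → ℂ} (hF : F ∈ Sect (tau k) Γ) (h : ∀ p ∈ UHs, F (sec p) = 0) :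
    F = 0 := by
  funext g
  by_cases hg : g ∈ GLo
  · obtain ⟨z, hz, u, hu, he⟩ := iwasawa hg
    have hp : cor (Phi g) ∈ UHs := cor_mem (Phi_SO hg).1
    have h1 := sec_mem hp
    rw [he, hF.2.2.1 z hz _ (GLo_mul h1 (SM.unitary_GLo hu)), hF.2.2.2.2 u hu _ h1, h _ hp,
      mulVec_zero]
    rfl
  · exact hF.1 g hg

theorem ip_pos (h : Klein Γ) (hD : FD Γ D) {F : M2 → Ix k → ℂ} (hF : F ∈ Sect (tau k) Γ)
    (h0 : ip k D F F = 0) : F = 0 := by
  classical
  apply sect_zero hF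
  by_contra hcon
  push Not at hcon
  obtain ⟨p0, hp0, hne⟩ := hcon
  obtain ⟨f, hf⟩ : ∃ f : UH → ℝ, f = fun p => ∑ I, ‖F (sec p) I‖ ^ 2 := ⟨_, rfl⟩
  have hf0 : 0 < f p0 := by
    rw [hf]
    obtain ⟨I, hI⟩ : ∃ I, F (sec p0) I ≠ 0 := by
      by_contra hc
      push Not at hc
      exact hne (funext hc)
    refine Finset.sum_pos' (fun I _ => by positivity) ⟨I, Finset.mem_univ _, ?_⟩
    have := norm_pos_iff.2 hI
    positivity
  have hS : IsOpen (sec ⁻¹' GLo) := GLo_open.preimage sec_smooth.continuous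
  have hFc : ContinuousOn (fun p => F (sec p)) (sec ⁻¹' GLo) :=
    hF.2.1.continuousOn.comp sec_smooth.continuous.continuousOn fun p hp => hp
  have hfc : ContinuousOn f (sec ⁻¹' GLo) := by
    rw [hf]
    refine continuousOn_finsetSum _ fun I _ => ?_
    exact ((continuous_apply I).comp_continuousOn hFc).norm.pow 2
  have hfm : Measurable f := by
    have h1 : f = (sec ⁻¹' GLo).piecewise f (fun _ => 0) := by
      funext p
      by_cases hp : p ∈ sec ⁻¹' GLo
      · rw [Set.piecewise_eq_of_mem _ _ _ hp]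
      · rw [Set.piecewise_eq_of_notMem _ _ _ hp, hf]
        simp only
        rw [hF.1 (sec p) hp]
        simp
    rw [h1]
    exact hfc.measurable_piecewise continuousOn_const hS.measurableSet
  have hUS : UHs ⊆ sec ⁻¹' GLo := fun p hp => sec_mem hp
  have hU : IsOpen (UHs ∩ f ⁻¹' (Set.Ioi (f p0 / 2))) :=
    (hfc.mono hUS).isOpen_inter_preimage UHs_open isOpen_Ioi
  have hp0U : p0 ∈ UHs ∩ f ⁻¹' (Set.Ioi (f p0 / 2)) := ⟨hp0, by
    show f p0 / 2 < f p0
    linarith⟩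
  obtain ⟨K, hK, hpK, hKU⟩ := exists_compact_subset hU hp0U
  have hKs : K ⊆ UHs := fun p hp => (hKU hp).1
  obtain ⟨M, hM, hle⟩ := FD_compact h hD hK hKs
  have h1 := hle (fun p => ENNReal.ofReal (f p)) hfm.ennreal_ofReal (by
    intro γ hγ p hp
    rw [hf]
    simp only
    rw [sect_norm h hF hγ hp])
  have hint : IntegrableOn f D mu := by
    have := ip_int hD hF.2.1.continuousOn hF.2.1.continuousOn
    have h2 := this.re
    refine h2.congr (Filter.Eventually.of_forall fun p => ?_)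
    simp only
    rw [dot_self, hf]
    rfl
  have h2 : ∫⁻ p in D, ENNReal.ofReal (f p) ∂mu = 0 := by
    rw [← ofReal_integral_eq_lintegral_ofReal hint (Filter.Eventually.of_forall fun p => by
      rw [hf]
      exact Finset.sum_nonneg fun I _ => by positivity)]
    rw [ip_self] at h0
    have h3 : ∫ p in D, ∑ I, ‖F (sec p) I‖ ^ 2 ∂mu = 0 := by exact_mod_cast h0
    rw [hf, h3, ENNReal.ofReal_zero]
  rw [h2, mul_zero] at h1
  have h3 : ENNReal.ofReal (f p0 / 2) * mu K ≤ ∫⁻ p in K, ENNReal.ofReal (f p) ∂mu := by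
    rw [← setLIntegral_const]
    refine setLIntegral_mono' hK.measurableSet fun p hp => ?_
    exact ENNReal.ofReal_le_ofReal (le_of_lt (hKU hp).2)
  have h4 : 0 < mu K := (mu_pos isOpen_interior (interior_subset.trans hKs) ⟨p0, hpK⟩).trans_le
    (measure_mono interior_subset)
  have h5 : 0 < ENNReal.ofReal (f p0 / 2) * mu K :=
    ENNReal.mul_pos (by simpa using half_pos hf0) h4.ne'
  exact absurd (h5.trans_le (h3.trans h1)) (lt_irrefl _)

end GR

theorem green {k : ℕ} {Γ : Subgroup (Mat 3)ˣ} {D : Set UH} (h : Klein Γ) (hD : FD Γ D)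
    {H : Fin 3 → M2 → Ix k → ℂ} (hH : Vec k Γ H) {F : M2 → Ix k → ℂ} (hF : F ∈ Sect (tau k) Γ) :
    ip k D F (fun g => ∑ i, E (eX i) (H i) g) = -∑ i, ip k D (E (eX i) F) (H i) :=
  GR.green h hD hH hF

theorem Cas_symm {k : ℕ} {Γ : Subgroup (Mat 3)ˣ} {D : Set UH} (h : Klein Γ) (hD : FD Γ D)
    (F G : Sect (tau k) Γ) : ip k D (CasL k Γ F).1 G.1 = ip k D F.1 (CasL k Γ G).1 := by
  show ip k D (Cas F.1) G.1 = ip k D F.1 (Cas G.1)
  rw [← GR.ip_star, GR.energy0 h hD G.2 F.2, GR.energy0 h hD F.2 G.2, star_add, star_sum,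
    GR.ip_star, GR.ip_herm k D (GR.ck_herm k)]
  congr 1
  exact Finset.sum_congr rfl fun i _ => GR.ip_star _ _ _ _

theorem P_adj {k : ℕ} {Γ : Subgroup (Mat 3)ˣ} {D : Set UH} (h : Klein Γ) (hD : FD Γ D)
    (F G : Sect (tau k) Γ) : ip k D (PL k Γ F).1 G.1 = ip k D F.1 (PSL k Γ G).1 := by
  have v1 := SM.Vec_add (Vec_E F.2) (Vec_b F.2) 1
  have v2 := SM.Vec_add (Vec_E G.2) (Vec_b G.2) (-1)
  have h1 := GR.ip_P h hD v1 G.2 1
  have h2 := GR.ip_P h hD v2 F.2 (-1)
  have e1 : (PL k Γ F).1 = fun g => -∑ i, ((1 : ℝ) • E (eX i) (fun g => (1 : ℝ) • E (eX i) F.1 g +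
      drho k (bY i) *ᵥ F.1 g) g + drho k (bY i) *ᵥ ((1 : ℝ) • E (eX i) F.1 g +
      drho k (bY i) *ᵥ F.1 g)) := by
    show Pop k F.1 = _
    unfold Pop Dfl
    simp only [one_smul]
  have e2 : (PSL k Γ G).1 = fun g => -∑ i, ((-1 : ℝ) • E (eX i) (fun g => (-1 : ℝ) • E (eX i) G.1 g +
      drho k (bY i) *ᵥ G.1 g) g + drho k (bY i) *ᵥ ((-1 : ℝ) • E (eX i) G.1 g +
      drho k (bY i) *ᵥ G.1 g)) := by
    show PopS k G.1 = _
    unfold PopS DflS
    simp only [neg_one_smul]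
  rw [e2, h2, ← GR.ip_star, e1, h1, star_neg, star_sum]
  congr 1
  refine Finset.sum_congr rfl fun i _ => ?_
  rw [GR.ip_star, neg_neg]

theorem energy {k : ℕ} {Γ : Subgroup (Mat 3)ˣ} {D : Set UH} (h : Klein Γ) (hD : FD Γ D)
    (F : Sect (tau k) Γ) : ∑ i, ip k D (E (eX i) F.1) (E (eX i) F.1) =
      ip k D F.1 (fun g => Cas F.1 g - ck k *ᵥ F.1 g) := by
  have hFs : ContDiffOn ℝ ∞ F.1 GLo := F.2.2.1
  have h1 := GR.energy0 h hD F.2 F.2
  have h2 : ip k D F.1 (fun g => Cas F.1 g - ck k *ᵥ F.1 g) =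
      ip k D F.1 (Cas F.1) - ip k D F.1 (fun g => ck k *ᵥ F.1 g) := by
    have := GR.ip_addsmul hD hFs.continuousOn (Cas_smooth hFs).continuousOn
      (SM.mulVec_smooth hFs (ck k)).continuousOn (-1)
    rw [neg_one_mul, ← sub_eq_add_neg] at this
    rw [← this]
    refine GR.ip_congr hD (fun _ _ => rfl) fun g _ => ?_
    rw [neg_one_smul, ← sub_eq_add_neg]
    rfl
  rw [h2, h1]
  ring

theorem ip_nonneg {k : ℕ} {Γ : Subgroup (Mat 3)ˣ} {D : Set UH} (h : Klein Γ) (hD : FD Γ D)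
    {F : M2 → Ix k → ℂ} (hF : ContinuousOn F GLo) :
    0 ≤ (ip k D F F).re ∧ (ip k D F F).im = 0 := by
  rw [GR.ip_self, Complex.ofReal_re, Complex.ofReal_im]
  exact ⟨integral_nonneg fun p => Finset.sum_nonneg fun I _ => by positivity, rfl⟩

theorem ip_pos {k : ℕ} {Γ : Subgroup (Mat 3)ˣ} {D : Set UH} (h : Klein Γ) (hD : FD Γ D)
    (F : Sect (tau k) Γ) (hF : ip k D F.1 F.1 = 0) : F = 0 :=
  Subtype.ext (GR.ip_pos h hD F.2 hF)

theorem ip_sesq {k : ℕ} {Γ : Subgroup (Mat 3)ˣ} {D : Set UH} (h : Klein Γ) (hD : FD Γ D)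
    {F G H : M2 → Ix k → ℂ} (hF : ContinuousOn F GLo) (hG : ContinuousOn G GLo)
    (hH : ContinuousOn H GLo) (c : ℂ) : ip k D F (G + c • H) = ip k D F G + c * ip k D F H ∧
      star (ip k D F G) = ip k D G F :=
  ⟨GR.ip_addsmul hD hF hG hH c, GR.ip_star k D F G⟩

end

end Pool.Agent.Work.MP_14c213_gt
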