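import Pool.Agent.Work.MP_14c213_gt.ADefs

/-!
The function shc w r = ∑ wⁿ r^(2n+1)/(2n+1)!, i.e. sinh(√w r)/√w, and the spherical function phi.
shc_ode: y'' = w y, y(0) = 0, y'(0) = 1. Uniqueness for the linear ODE in the form used in SphM.
-/

namespace Pool.Agent.Work.MP_14c213_gt

open Matrix MeasureTheory
open scoped Matrix ContDiff Matrix.Norms.Elementwise

noncomputable section

theorem shc_zero (w : ℂ) : shc w 0 = 0 := by
  unfold shc
  have : ∀ n : ℕ, w ^ n * ((0 : ℝ) : ℂ) ^ (2 * n + 1) / ((2 * n + 1).factorial : ℂ) = 0 := by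
    intro n
    simp
  simp only [this, tsum_zero]

theorem shc_sinh (w : ℂ) (v : ℂ) (hv : v ≠ 0) (hw : v ^ 2 = w) (r : ℝ) :
    shc w r = Complex.sinh (v * r) / v := by
  unfold shc
  have h := (Complex.hasSum_sinh (v * r)).div_const v
  rw [← h.tsum_eq]
  congr 1
  funext n
  rw [← hw, mul_pow, ← pow_mul]
  field_simp
  ring

private theorem shcM_zero_left (r : ℝ) : shc 0 r = r := by
  unfold shc
  rw [tsum_eq_single 0]
  · simp
  · intro n hn
    simp [hn]

private theorem shcM_bound {M : ℝ} (hM : 1 ≤ M) {w : ℂ} {r : ℝ} (hw : ‖w‖ ≤ M) (hr : |r| ≤ M)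
    (n : ℕ) : ‖w ^ n * (r : ℂ) ^ (2 * n + 1) / ((2 * n + 1).factorial : ℂ)‖ ≤
      M * ((M ^ 3) ^ n / n.factorial) := by
  rw [norm_div, norm_mul, norm_pow, norm_pow, Complex.norm_real, Complex.norm_natCast]
  have h1 : (n.factorial : ℝ) ≤ ((2 * n + 1).factorial : ℝ) := by
    exact_mod_cast Nat.factorial_le (by omega)
  have h0 : (0 : ℝ) < n.factorial := by exact_mod_cast Nat.factorial_pos n
  have hM0 : 0 ≤ M := by linarith
  have h2 : ‖w‖ ^ n * ‖r‖ ^ (2 * n + 1) ≤ M ^ n * M ^ (2 * n + 1) :=
    mul_le_mul (pow_le_pow_left₀ (norm_nonneg _) hw _)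
      (pow_le_pow_left₀ (norm_nonneg _) hr _) (by positivity) (by positivity)
  calc ‖w‖ ^ n * ‖r‖ ^ (2 * n + 1) / ((2 * n + 1).factorial : ℝ)
      ≤ (M ^ n * M ^ (2 * n + 1)) / (n.factorial : ℝ) := by
        apply div_le_div₀ (by positivity) h2 h0 h1
    _ = M * ((M ^ 3) ^ n / n.factorial) := by
        rw [← pow_mul, ← pow_add]
        have : n + (2 * n + 1) = 3 * n + 1 := by ring
        rw [this, pow_succ]
        ring

private theorem shcM_summable (M : ℝ) :
    Summable fun n : ℕ => M * ((M ^ 3) ^ n / (n.factorial : ℝ)) :=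
  (Real.summable_pow_div_factorial (M ^ 3)).mul_left M

theorem shc_cont : Continuous fun p : ℂ × ℝ => shc p.1 p.2 := by
  rw [continuous_iff_continuousAt]
  intro p
  let M : ℝ := 1 + ‖p.1‖ + |p.2|
  have hM : 1 ≤ M := by
    have := norm_nonneg p.1
    have := abs_nonneg p.2
    simp only [M]
    linarith
  have hcont : ContinuousOn (fun p : ℂ × ℝ => shc p.1 p.2) {q | ‖q.1‖ < M ∧ |q.2| < M} := by
    unfold shc
    refine continuousOn_tsum (u := fun n : ℕ => M * ((M ^ 3) ^ n / (n.factorial : ℝ))) ?_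
      (shcM_summable M) ?_
    · intro n
      fun_prop
    · intro n q hq
      exact shcM_bound hM hq.1.le hq.2.le n
  have hopen : IsOpen {q : ℂ × ℝ | ‖q.1‖ < M ∧ |q.2| < M} :=
    (isOpen_lt (f := fun q : ℂ × ℝ => ‖q.1‖) (g := fun _ => M) (by fun_prop)
      continuous_const).inter
      (isOpen_lt (f := fun q : ℂ × ℝ => |q.2|) (g := fun _ => M) (by fun_prop) continuous_const)
  refine hcont.continuousAt (hopen.mem_nhds ⟨?_, ?_⟩)
  · have := abs_nonneg p.2
    simp only [M]
    linarith
  · have := norm_nonneg p.1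
    simp only [M]
    linarith

theorem shc_deriv2 (w : ℂ) (r : ℝ) :
    ∃ d : ℝ → ℂ, (∀ s, HasDerivAt (shc w) (d s) s) ∧ d 0 = 1 ∧ HasDerivAt d (w * shc w r) r := by
  by_cases hw : w = 0
  · subst hw
    refine ⟨fun _ => 1, ?_, rfl, ?_⟩
    · intro s
      have : shc 0 = fun r : ℝ => (r : ℂ) := by
        funext r
        exact shcM_zero_left r
      rw [this]
      exact Complex.ofRealCLM.hasDerivAt
    · rw [zero_mul]
      exact hasDerivAt_const r 1
  · obtain ⟨v, hv⟩ := IsAlgClosed.exists_pow_nat_eq w (n := 2) (by norm_num)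
    have hv0 : v ≠ 0 := by
      rintro rfl
      apply hw
      rw [← hv]
      norm_num
    refine ⟨fun s => Complex.cosh (v * s), ?_, by simp, ?_⟩
    · intro s
      have h1 : shc w = fun r : ℝ => Complex.sinh (v * r) / v := by
        funext r
        exact shc_sinh w v hv0 hv r
      rw [h1]
      have h2 : HasDerivAt (fun s : ℝ => v * (s : ℂ)) v s := by
        have := (Complex.ofRealCLM.hasDerivAt (x := s)).const_mul v
        simpa using this
      have h3 := ((Complex.hasDerivAt_sinh (v * s)).comp s h2).div_const v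
      rw [mul_div_cancel_right₀ _ hv0] at h3
      exact h3
    · have h2 : HasDerivAt (fun s : ℝ => v * (s : ℂ)) v r := by
        have := (Complex.ofRealCLM.hasDerivAt (x := r)).const_mul v
        simpa using this
      have h3 := (Complex.hasDerivAt_cosh (v * r)).comp r h2
      have h4 : w * shc w r = Complex.sinh (v * r) * v := by
        rw [shc_sinh w v hv0 hv r, ← hv]
        field_simp
      rw [h4]
      exact h3

/-- Uniqueness of regular solutions of the radial equation. -/
theorem radial_unique {J : Type} [Fintype J] {f f' f'' : ℝ → J → ℂ} (x : ℂ)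
    (h1 : ∀ r, HasDerivAt f (f' r) r) (h2 : ∀ r, HasDerivAt f' (f'' r) r)
    (hc : Continuous f'')
    (hode : ∀ r, 0 < r → (Real.sinh r : ℂ) • f'' r + (2 * Real.cosh r : ℂ) • f' r
      = -((Real.sinh r : ℂ) * x) • f r) (r : ℝ) (hr : 0 ≤ r) :
    (Real.sinh r : ℂ) • f r = shc (1 - x) r • f 0 := by
  have hcf : Continuous f := continuous_iff_continuousAt.2 fun s => (h1 s).continuousAt
  have hcf' : Continuous f' := continuous_iff_continuousAt.2 fun s => (h2 s).continuousAt
  have hode' : ∀ r, 0 ≤ r → (Real.sinh r : ℂ) • f'' r + (2 * Real.cosh r : ℂ) • f' r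
      = -((Real.sinh r : ℂ) * x) • f r := by
    have hclosed : IsClosed {r : ℝ | (Real.sinh r : ℂ) • f'' r + (2 * Real.cosh r : ℂ) • f' r
      = -((Real.sinh r : ℂ) * x) • f r} := by
      have hs : Continuous fun r : ℝ => (Real.sinh r : ℂ) :=
        Complex.continuous_ofReal.comp Real.continuous_sinh
      have hcc : Continuous fun r : ℝ => (Real.cosh r : ℂ) :=
        Complex.continuous_ofReal.comp Real.continuous_cosh
      apply isClosed_eq
      · exact (hs.smul hc).add ((continuous_const.mul hcc).smul hcf')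
      · exact ((hs.mul continuous_const).neg).smul hcf
    intro r hr
    have hsub : closure (Set.Ioi (0 : ℝ)) ⊆ {r : ℝ | (Real.sinh r : ℂ) • f'' r +
        (2 * Real.cosh r : ℂ) • f' r = -((Real.sinh r : ℂ) * x) • f r} :=
      closure_minimal (fun s hs => hode s hs) hclosed
    rw [closure_Ioi] at hsub
    exact hsub hr
  have hderiv : ∀ s : ℝ, ∃ d : ℝ → ℂ, (∀ s, HasDerivAt (shc (1 - x)) (d s) s) ∧ d 0 = 1 ∧
      HasDerivAt d ((1 - x) * shc (1 - x) s) s := fun s => shc_deriv2 (1 - x) s
  obtain ⟨d, hd1, hd0, -⟩ := hderiv 0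
  have hd2 : ∀ s, HasDerivAt d ((1 - x) * shc (1 - x) s) s := by
    intro s
    obtain ⟨d', hd1', -, hd2'⟩ := hderiv s
    have : d' = d := by
      funext t
      exact (hd1' t).unique (hd1 t)
    rw [← this]
    exact hd2'
  have hsinh : ∀ s : ℝ, HasDerivAt (fun s : ℝ => (Real.sinh s : ℂ)) (Real.cosh s : ℂ) s :=
    fun s => (Real.hasDerivAt_sinh s).ofReal_comp
  have hcosh : ∀ s : ℝ, HasDerivAt (fun s : ℝ => (Real.cosh s : ℂ)) (Real.sinh s : ℂ) s :=
    fun s => (Real.hasDerivAt_cosh s).ofReal_comp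
  let y : ℝ → J → ℂ := fun s => (Real.sinh s : ℂ) • f s - shc (1 - x) s • f 0
  let y' : ℝ → J → ℂ := fun s =>
    ((Real.sinh s : ℂ) • f' s + (Real.cosh s : ℂ) • f s) - d s • f 0
  have hy : ∀ s, HasDerivAt y (y' s) s := by
    intro s
    exact ((hsinh s).smul (h1 s)).sub ((hd1 s).smul_const (f 0))
  have hy' : ∀ s, 0 ≤ s → HasDerivAt y' ((1 - x) • y s) s := by
    intro s hs
    have h3 := (((hsinh s).smul (h2 s)).add ((hcosh s).smul (h1 s))).sub
      ((hd2 s).smul_const (f 0))
    have h4 := hode' s hs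
    have h6 : (1 - x) • y s = (Real.sinh s : ℂ) • f'' s + (Real.cosh s : ℂ) • f' s +
        ((Real.cosh s : ℂ) • f' s + (Real.sinh s : ℂ) • f s) -
        ((1 - x) * shc (1 - x) s) • f 0 := by
      funext j
      have h5 := congrFun h4 j
      simp only [y, Pi.smul_apply, Pi.add_apply, Pi.sub_apply, smul_eq_mul] at h5 ⊢
      linear_combination -h5
    rw [h6]
    exact h3
  let v : (J → ℂ) × (J → ℂ) →L[ℝ] (J → ℂ) × (J → ℂ) :=
    (ContinuousLinearMap.snd ℝ (J → ℂ) (J → ℂ)).prod
      (((1 - x) • (ContinuousLinearMap.id ℂ (J → ℂ))).restrictScalars ℝ ∘L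
        ContinuousLinearMap.fst ℝ (J → ℂ) (J → ℂ))
  have hkey : Set.EqOn (fun s => (y s, y' s)) (fun _ => (0 : (J → ℂ) × (J → ℂ)))
      (Set.Icc 0 r) := by
    refine ODE_solution_unique (v := fun _ => v) (K := ‖v‖₊) ?_ ?_ ?_ ?_ ?_ ?_
    · intro t
      exact v.lipschitz
    · intro s _
      exact ((hy s).continuousAt.prodMk (by
        have : ContinuousAt y' s := by
          have hcd : Continuous d := continuous_iff_continuousAt.2 fun s => (hd2 s).continuousAt
          have hs' : Continuous fun r : ℝ => (Real.sinh r : ℂ) :=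
            Complex.continuous_ofReal.comp Real.continuous_sinh
          have hcc : Continuous fun r : ℝ => (Real.cosh r : ℂ) :=
            Complex.continuous_ofReal.comp Real.continuous_cosh
          exact (((hs'.smul hcf').add (hcc.smul hcf)).sub
            (hcd.smul continuous_const)).continuousAt
        exact this)).continuousWithinAt
    · intro s hs
      have := ((hy s).prodMk (hy' s hs.1)).hasDerivWithinAt (s := Set.Ici s)
      exact this
    · exact continuousOn_const
    · intro s _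
      have : v (0 : (J → ℂ) × (J → ℂ)) = 0 := map_zero v
      simp only [this]
      exact hasDerivWithinAt_const s (Set.Ici s) _
    · simp only [y, y', shc_zero, Real.sinh_zero, Real.cosh_zero, hd0]
      simp
  have h3 := hkey (Set.right_mem_Icc.2 hr)
  have h4 : y r = 0 := congrArg Prod.fst h3
  exact sub_eq_zero.1 h4

private theorem shcM_ratio_cont (w : ℂ) :
    Continuous fun r : ℝ => if r = 0 then (1 : ℂ) else shc w r / (Real.sinh r : ℂ) := by
  rw [continuous_iff_continuousAt]
  intro r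
  by_cases hr : r = 0
  · subst hr
    rw [← continuousWithinAt_compl_self]
    obtain ⟨d, hd1, hd0, -⟩ := shc_deriv2 w 0
    have h1 : HasDerivAt (shc w) 1 0 := by
      rw [← hd0]
      exact hd1 0
    have h2 : HasDerivAt (fun s : ℝ => (Real.sinh s : ℂ)) 1 0 := by
      have := (Real.hasDerivAt_sinh 0).ofReal_comp
      simpa using this
    rw [hasDerivAt_iff_tendsto_slope] at h1 h2
    have h3 := h1.div h2 one_ne_zero
    unfold ContinuousWithinAt
    simp only [if_true]
    rw [div_one] at h3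
    refine h3.congr' ?_
    filter_upwards [self_mem_nhdsWithin] with s hs
    have hs0 : s ≠ 0 := hs
    have hsinh : Real.sinh s ≠ 0 := by
      rw [Ne, Real.sinh_eq_zero]
      exact hs0
    have hsc : (Real.sinh s : ℂ) ≠ 0 := by exact_mod_cast hsinh
    have hs0c : (s : ℂ) ≠ 0 := by exact_mod_cast hs0
    simp only [Pi.div_apply, slope, vsub_eq_sub, sub_zero, shc_zero, Real.sinh_zero,
      Complex.ofReal_zero, hs0, if_false, Complex.real_smul]
    push_cast
    field_simp
  · have h1 : ∀ᶠ s in nhds r, (if s = 0 then (1 : ℂ) else shc w s / (Real.sinh s : ℂ))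
        = shc w s / (Real.sinh s : ℂ) := by
      filter_upwards [isOpen_ne.mem_nhds hr] with s hs
      rw [if_neg hs]
    refine ContinuousAt.congr ?_ (h1.mono fun s hs => hs.symm)
    have h2 : Continuous (shc w) := shc_cont.comp (continuous_const.prodMk continuous_id)
    have h3 : Continuous fun r : ℝ => (Real.sinh r : ℂ) :=
      Complex.continuous_ofReal.comp Real.continuous_sinh
    refine h2.continuousAt.div h3.continuousAt ?_
    have : Real.sinh r ≠ 0 := by
      rw [Ne, Real.sinh_eq_zero]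
      exact hr
    exact_mod_cast this

private theorem shcM_phi_eq (x : ℂ) {c : ℝ} (hc : 1 ≤ c) :
    phi x c = (fun r : ℝ => if r = 0 then (1 : ℂ) else shc (1 - x) r / (Real.sinh r : ℂ))
      (Real.arcosh c) := by
  unfold phi
  by_cases h : c ≤ 1
  · have : c = 1 := le_antisymm h hc
    subst this
    simp
  · rw [if_neg h]
    have h2 := Real.arcosh_pos (not_le.1 h)
    simp [h2.ne']

theorem phi_cont (x : ℂ) : ContinuousOn (phi x) (Set.Ici 1) := by
  have h1 := (shcM_ratio_cont (1 - x)).comp_continuousOn Real.continuousOn_arcosh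
  exact h1.congr fun c hc => shcM_phi_eq x hc

theorem phi_one (x : ℂ) : phi x 1 = 1 := by
  unfold phi
  simp

/-- for real `w = v²`, `shc w r = sinh (v r) / v`. -/
private theorem shcM_real_pos {v : ℝ} (hv : 0 < v) (r : ℝ) :
    shc ((v ^ 2 : ℝ) : ℂ) r = ((Real.sinh (v * r) / v : ℝ) : ℂ) := by
  rw [shc_sinh _ (v : ℂ) (by exact_mod_cast hv.ne') (by push_cast; ring)]
  push_cast
  rfl

private theorem shcM_real_neg {v : ℝ} (hv : 0 < v) (r : ℝ) :
    shc ((-v ^ 2 : ℝ) : ℂ) r = ((Real.sin (v * r) / v : ℝ) : ℂ) := by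
  have hvI : ((v : ℂ) * Complex.I) ≠ 0 :=
    mul_ne_zero (by exact_mod_cast hv.ne') Complex.I_ne_zero
  rw [shc_sinh _ ((v : ℂ) * Complex.I) hvI (by
    rw [mul_pow, Complex.I_sq]
    push_cast
    ring)]
  have : (v : ℂ) * Complex.I * (r : ℂ) = ((v : ℂ) * r) * Complex.I := by ring
  rw [this, Complex.sinh_mul_I]
  push_cast
  field_simp

/-- Comparison: for a real parameter `w ≤ W` with `W > 0`, `|shc w r| ≤ |shc W r|`, `r ≥ 0`. -/
theorem shcM_le {w W : ℝ} (hW : 0 < W) (h : w ≤ W) {r : ℝ} (hr : 0 ≤ r) :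
    ‖shc (w : ℂ) r‖ ≤ ‖shc (W : ℂ) r‖ := by
  have hsinh : ∀ t : ℝ, 0 ≤ t → t ≤ Real.sinh t := fun t ht => Real.self_le_sinh_iff.2 ht
  have hWv : W = (Real.sqrt W) ^ 2 := (Real.sq_sqrt hW.le).symm
  have hsW : 0 < Real.sqrt W := Real.sqrt_pos.2 hW
  have hWr : r ≤ ‖shc (W : ℂ) r‖ := by
    rw [hWv, shcM_real_pos hsW, Complex.norm_real, Real.norm_eq_abs]
    refine le_trans ?_ (le_abs_self _)
    rw [le_div_iff₀ hsW]
    have := hsinh (Real.sqrt W * r) (by positivity)
    linarith
  rcases lt_trichotomy w 0 with hw | hw | hw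
  · refine le_trans ?_ hWr
    have hwv : w = -(Real.sqrt (-w)) ^ 2 := by
      rw [Real.sq_sqrt (by linarith)]
      ring
    have hs : 0 < Real.sqrt (-w) := Real.sqrt_pos.2 (by linarith)
    rw [hwv, shcM_real_neg hs, Complex.norm_real, Real.norm_eq_abs, abs_div, abs_of_pos hs,
      div_le_iff₀ hs]
    calc |Real.sin (Real.sqrt (-w) * r)| ≤ |Real.sqrt (-w) * r| := Real.abs_sin_le_abs
      _ = r * Real.sqrt (-w) := by
        rw [abs_of_nonneg (by positivity)]
        ring
  · subst hw
    simp only [Complex.ofReal_zero]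
    rw [shcM_zero_left, Complex.norm_real, Real.norm_eq_abs, abs_of_nonneg hr]
    exact hWr
  · have hterm : ∀ n : ℕ, w ^ n * r ^ (2 * n + 1) / ((2 * n + 1).factorial : ℝ) ≤
        W ^ n * r ^ (2 * n + 1) / ((2 * n + 1).factorial : ℝ) := by
      intro n
      gcongr
    have hsum : ∀ w : ℝ, Summable fun n : ℕ => w ^ n * r ^ (2 * n + 1) /
        ((2 * n + 1).factorial : ℝ) := by
      intro w
      let M : ℝ := 1 + |w| + |r|
      have hM : 1 ≤ M := by
        have := abs_nonneg w
        have := abs_nonneg r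
        simp only [M]
        linarith
      refine Summable.of_norm_bounded (shcM_summable M) ?_
      intro n
      have := shcM_bound hM (w := (w : ℂ)) (r := r) (by
        rw [Complex.norm_real, Real.norm_eq_abs]
        have := abs_nonneg r
        simp only [M]
        linarith) (by
        have := abs_nonneg w
        simp only [M]
        linarith) n
      refine le_trans (le_of_eq ?_) this
      rw [← Complex.norm_real]
      push_cast
      rfl
    have hre : ∀ w : ℝ, shc (w : ℂ) r = ((∑' n : ℕ, w ^ n * r ^ (2 * n + 1) /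
        ((2 * n + 1).factorial : ℝ) : ℝ) : ℂ) := by
      intro w
      unfold shc
      rw [Complex.ofReal_tsum]
      congr 1
      funext n
      push_cast
      rfl
    rw [hre w, hre W, Complex.norm_real, Complex.norm_real, Real.norm_eq_abs, Real.norm_eq_abs,
      abs_of_nonneg (tsum_nonneg fun n => by positivity),
      abs_of_nonneg (tsum_nonneg fun n => by positivity)]
    exact (hsum w).tsum_le_tsum hterm (hsum W)

theorem phi_bdd (a M : ℝ) : ∃ C : ℝ, ∀ x : ℝ, a ≤ x → ∀ c : ℝ, 1 ≤ c → c ≤ M → ‖phi x c‖ ≤ C := by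
  let W : ℝ := max (1 - a) 1
  have hW : 0 < W := lt_of_lt_of_le one_pos (le_max_right _ _)
  have hcont : ContinuousOn (phi ((1 - W : ℝ) : ℂ)) (Set.Icc 1 M) :=
    (phi_cont _).mono fun c hc => hc.1
  obtain ⟨C, hC⟩ := isCompact_Icc.exists_bound_of_continuousOn hcont
  refine ⟨C, fun x hx c hc1 hc2 => le_trans ?_ (hC c ⟨hc1, hc2⟩)⟩
  unfold phi
  by_cases h : c ≤ 1
  · rw [if_pos h, if_pos h]
  · rw [if_neg h, if_neg h, norm_div, norm_div]
    have h1 : (1 : ℂ) - ((1 - W : ℝ) : ℂ) = (W : ℂ) := by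
      push_cast
      ring
    have h2 : (1 : ℂ) - (x : ℂ) = ((1 - x : ℝ) : ℂ) := by
      push_cast
      ring
    rw [h1, h2]
    have h3 := shcM_le hW (w := 1 - x) (le_trans (by linarith) (le_max_left (1 - a) 1))
      (Real.arcosh_nonneg hc1)
    gcongr

theorem phi_conj (x : ℂ) (c : ℝ) : phi (star x) c = star (phi x c) := by
  unfold phi
  by_cases h : c ≤ 1
  · rw [if_pos h, if_pos h]
    simp
  · rw [if_neg h, if_neg h]
    have h1 : ∀ (w : ℂ) (r : ℝ), shc (star w) r = star (shc w r) := by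
      intro w r
      unfold shc
      rw [tsum_star]
      congr 1
      funext n
      simp only [star_div₀, star_mul', star_pow]
      congr 1
      · congr 1
        simp
      · simp
    have h2 : (1 : ℂ) - star x = star (1 - x) := by simp
    rw [h2, h1, star_div₀]
    congr 1
    exact (Complex.conj_ofReal _).symm

end

end Pool.Agent.Work.MP_14c213_gt
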