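import Pool.Agent.Work.MP_14c213_gt.A.SectM
import Pool.Agent.Work.MP_14c213_gt.A.ShcM
import Pool.Agent.Work.MP_14c213_gt.A.MuInv

/-!
Spherical means. For F smooth on GLo, right U(2)-invariant and scale invariant with -∑ E_i² F = x F:
f(r) = ∫_{U(2)} F (u⁻¹ bst 2 r) du (Haar measure) satisfies f'' + 2 coth r f' = -x f: E_2² gives f'';
for i = 0, 1 use the KAK decomposition of bst 2 r * bst i t, so the average of F is
f (arcosh (cosh r cosh t)) and its second t-derivative at 0 is coth r f'(r). Then radial_unique.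
-/

namespace Pool.Agent.Work.MP_14c213_gt

open Matrix MeasureTheory
open scoped Matrix ContDiff Matrix.Norms.Elementwise

noncomputable section

namespace SphM

/-- The compact group U(2). -/
abbrev KU := Matrix.unitaryGroup (Fin 2) ℂ

theorem KU_compact : CompactSpace KU := by
  refine (isCompact_iff_compactSpace (s := (↑(Matrix.unitaryGroup (Fin 2) ℂ) : Set M2))).1 ?_
  refine Metric.isCompact_of_isClosed_isBounded ?_ ?_
  · have h1 : (↑(Matrix.unitaryGroup (Fin 2) ℂ) : Set M2) = {u | star u * u = 1} := by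
      ext u
      exact Matrix.mem_unitaryGroup_iff'
    rw [h1]
    exact isClosed_eq (Continuous.matrix_mul continuous_star continuous_id) continuous_const
  · refine (Metric.isBounded_closedBall (x := (0 : M2)) (r := 1)).subset fun u hu => ?_
    rw [Metric.mem_closedBall, dist_zero_right]
    exact entrywise_sup_norm_bound_of_unitary hu

attribute [local instance] KU_compact

local instance KU_meas : MeasurableSpace KU := borel KU

local instance KU_borel : BorelSpace KU := ⟨rfl⟩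

theorem KU_second : SecondCountableTopology KU := by
  have : SecondCountableTopology M2 := inferInstanceAs (SecondCountableTopology (Fin 2 → Fin 2 → ℂ))
  exact TopologicalSpace.Subtype.secondCountableTopology _

attribute [local instance] KU_second

/-- Haar probability measure. -/
def hK : Measure KU := Measure.haarMeasure ⊤

theorem hK_prob : IsProbabilityMeasure hK := ⟨Measure.haarMeasure_self⟩

theorem hK_left : hK.IsMulLeftInvariant := by unfold hK; infer_instance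

attribute [local instance] hK_prob hK_left

variable {J : Type} [Fintype J]

/-- Average over U(2) from the left. -/
def avg (H : M2 → J → ℂ) (h : M2) : J → ℂ := ∫ u : KU, H (((u⁻¹ : KU) : M2) * h) ∂hK

theorem KU_GLo (u : KU) : (u : M2) ∈ GLo := by
  intro h
  have h1 := Matrix.mem_unitaryGroup_iff'.1 u.2
  have h2 := congrArg Matrix.det h1
  rw [Matrix.det_mul, h, mul_zero, Matrix.det_one] at h2
  exact zero_ne_one h2

theorem KU_cont : Continuous fun u : KU => ((u⁻¹ : KU) : M2) :=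
  continuous_subtype_val.comp continuous_inv

omit [Fintype J] in
theorem avg_cont {H : M2 → J → ℂ} (hH : ContinuousOn H GLo) {h : M2} (hh : h ∈ GLo) :
    Continuous fun u : KU => H (((u⁻¹ : KU) : M2) * h) := by
  refine hH.comp_continuous (KU_cont.mul continuous_const) fun u => GLo_mul (KU_GLo _) hh

theorem avg_int {H : M2 → J → ℂ} (hH : ContinuousOn H GLo) {h : M2} (hh : h ∈ GLo) :
    Integrable (fun u : KU => H (((u⁻¹ : KU) : M2) * h)) hK :=
  (avg_cont hH hh).integrable_of_hasCompactSupport (HasCompactSupport.of_compactSpace _)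

theorem avg_deriv {H : M2 → J → ℂ} (hH : ContDiffOn ℝ ∞ H GLo) {c : ℝ → M2} {X : M2}
    (hc : ∀ t, HasDerivAt c (c t * X) t) (hc' : ∀ t, c t ∈ GLo) (t : ℝ) :
    HasDerivAt (fun t => avg H (c t)) (avg (E X H) (c t)) t := by
  have hE : ContinuousOn (E X H) GLo := (E_smooth hH X).continuousOn
  have hcc : Continuous c := continuous_iff_continuousAt.2 fun s => (hc s).continuousAt
  have hjc : Continuous fun p : KU × ℝ => E X H (((p.1⁻¹ : KU) : M2) * c p.2) := by
    refine hE.comp_continuous ((KU_cont.comp continuous_fst).mul (hcc.comp continuous_snd))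
      fun p => GLo_mul (KU_GLo _) (hc' _)
  obtain ⟨C, hC⟩ := (isCompact_univ.prod (isCompact_closedBall t 1)).exists_bound_of_continuousOn
    (f := fun p : KU × ℝ => E X H (((p.1⁻¹ : KU) : M2) * c p.2)) hjc.continuousOn
  refine (hasDerivAt_integral_of_dominated_loc_of_deriv_le (bound := fun _ => C)
    (F' := fun s u => E X H (((u⁻¹ : KU) : M2) * c s)) (Metric.closedBall_mem_nhds t one_pos) ?_ ?_ ?_ ?_ ?_ ?_).2
  · exact Filter.Eventually.of_forall fun s => (avg_cont hH.continuousOn (hc' s)).aestronglyMeasurable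
  · exact avg_int hH.continuousOn (hc' t)
  · exact (avg_cont hE (hc' t)).aestronglyMeasurable
  · exact Filter.Eventually.of_forall fun u s hs => hC (u, s) ⟨Set.mem_univ _, hs⟩
  · exact integrable_const C
  · refine Filter.Eventually.of_forall fun u s _ => ?_
    have h1 : HasDerivAt (fun s => ((u⁻¹ : KU) : M2) * c s) (((u⁻¹ : KU) : M2) * c s * X) s := by
      rw [mul_assoc]
      exact (cgMk (LinearMap.mulLeft ℝ ((u⁻¹ : KU) : M2))).hasFDerivAt.comp_hasDerivAt s (hc s)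
    exact E_curve hH h1 (GLo_mul (KU_GLo _) (hc' s))

theorem avg_left {H : M2 → J → ℂ} (v : KU) (h : M2) : avg H ((v : M2) * h) = avg H h := by
  unfold avg
  have h1 := integral_mul_left_eq_self (μ := hK) (fun u : KU => H (((u⁻¹ : KU) : M2) * ((v : M2) * h))) v
  rw [← h1]
  congr 1
  ext1 u
  congr 1
  have h2 : ((u⁻¹ : KU) : M2) = (((v * u)⁻¹ : KU) : M2) * (v : M2) := by
    rw [_root_.mul_inv_rev, ← Submonoid.coe_mul, inv_mul_cancel_right]
  rw [h2, mul_assoc]

/-- Diagonal matrices in terms of boosts. -/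
theorem diag_bst {a b : ℝ} (ha : 0 < a) (hb : 0 < b) :
    ∃ (z : ℝ) (s : ℝ), 0 < z ∧ (!![(a : ℂ), 0; 0, (b : ℂ)] : M2) = (z : ℂ) • bst 2 s := by
  refine ⟨Real.sqrt (a * b), Real.log (a / b), Real.sqrt_pos.2 (mul_pos ha hb), ?_⟩
  have h1 : Real.exp (Real.log (a / b) / 2) = Real.sqrt (a / b) := by
    rw [Real.sqrt_eq_rpow, Real.rpow_def_of_pos (div_pos ha hb)]
    congr 1
    ring
  have h2 : Real.exp (-(Real.log (a / b) / 2)) = Real.sqrt (b / a) := by
    rw [Real.exp_neg, h1, ← Real.sqrt_inv, inv_div]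
  have h3 : Real.sqrt (a * b) * Real.sqrt (a / b) = a := by
    rw [← Real.sqrt_mul (by positivity)]
    have : a * b * (a / b) = a ^ 2 := by field_simp
    rw [this, Real.sqrt_sq ha.le]
  have h4 : Real.sqrt (a * b) * Real.sqrt (b / a) = b := by
    rw [← Real.sqrt_mul (by positivity)]
    have : a * b * (b / a) = b ^ 2 := by field_simp
    rw [this, Real.sqrt_sq hb.le]
  have e1 : (bst 2 (Real.log (a / b)) : M2) = !![((Real.sqrt (a / b) : ℝ) : ℂ), 0; 0, ((Real.sqrt (b / a) : ℝ) : ℂ)] := by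
    have h5 : Real.cosh (Real.log (a / b) / 2) + Real.sinh (Real.log (a / b) / 2) = Real.sqrt (a / b) := by
      rw [Real.cosh_add_sinh, h1]
    have h6 : Real.cosh (Real.log (a / b) / 2) - Real.sinh (Real.log (a / b) / 2) = Real.sqrt (b / a) := by
      rw [Real.cosh_sub_sinh, h2]
    rw [← h5, ← h6]
    unfold bst
    have hp : pauli (Fin.succ 2) = !![1, 0; 0, -1] := rfl
    rw [hp]
    ext i j
    fin_cases i <;> fin_cases j <;> simp [sub_eq_add_neg]
  rw [e1]
  ext i j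
  fin_cases i <;> fin_cases j
  · show ((a : ℝ) : ℂ) = ((Real.sqrt (a * b) : ℝ) : ℂ) * ((Real.sqrt (a / b) : ℝ) : ℂ)
    rw [← Complex.ofReal_mul, h3]
  · simp
  · simp
  · show ((b : ℝ) : ℂ) = ((Real.sqrt (a * b) : ℝ) : ℂ) * ((Real.sqrt (b / a) : ℝ) : ℂ)
    rw [← Complex.ofReal_mul, h4]

open scoped ComplexOrder in
/-- KAK decomposition. -/
theorem kak {g : M2} (hg : g ∈ GLo) : ∃ (z : ℂ) (u v : KU) (s : ℝ), z ≠ 0 ∧
    g = z • ((u : M2) * (bst 2 s * (v : M2))) := by
  have hP := isHermitian_mul_conjTranspose_self g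
  have hpos : ∀ i, 0 < hP.eigenvalues i := by
    intro i
    refine lt_of_le_of_ne ((posSemidef_self_mul_conjTranspose g).eigenvalues_nonneg i) ?_
    intro h0
    have h1 : (g * gᴴ).det = ∏ i, ((hP.eigenvalues i : ℝ) : ℂ) := hP.det_eq_prod_eigenvalues
    have h2 : (g * gᴴ).det ≠ 0 := by
      rw [Matrix.det_mul, Matrix.det_conjTranspose]
      exact mul_ne_zero hg (star_ne_zero.2 hg)
    apply h2
    rw [h1]
    exact Finset.prod_eq_zero (Finset.mem_univ i) (by rw [← h0]; rfl)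
  have hsp := hP.spectral_theorem
  rw [Unitary.conjStarAlgAut_apply] at hsp
  set U : KU := hP.eigenvectorUnitary with hU
  set a : ℝ := Real.sqrt (hP.eigenvalues 0) with ha
  set b : ℝ := Real.sqrt (hP.eigenvalues 1) with hb
  have ha0 : 0 < a := Real.sqrt_pos.2 (hpos 0)
  have hb0 : 0 < b := Real.sqrt_pos.2 (hpos 1)
  have haC : (a : ℂ) ≠ 0 := by exact_mod_cast ha0.ne'
  have hbC : (b : ℂ) ≠ 0 := by exact_mod_cast hb0.ne'
  have hdiag : (diagonal (RCLike.ofReal ∘ hP.eigenvalues) : M2) = !![(a : ℂ) ^ 2, 0; 0, (b : ℂ) ^ 2] := by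
    have h1 : (a : ℂ) ^ 2 = ((hP.eigenvalues 0 : ℝ) : ℂ) := by
      rw [← Complex.ofReal_pow, ha, Real.sq_sqrt (hpos 0).le]
    have h2 : (b : ℂ) ^ 2 = ((hP.eigenvalues 1 : ℝ) : ℂ) := by
      rw [← Complex.ofReal_pow, hb, Real.sq_sqrt (hpos 1).le]
    rw [h1, h2]
    ext i j
    fin_cases i <;> fin_cases j <;> simp
  have hUU : (U : M2) * star (U : M2) = 1 := Matrix.mem_unitaryGroup_iff.1 U.2
  have hUU' : star (U : M2) * (U : M2) = 1 := Matrix.mem_unitaryGroup_iff'.1 U.2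
  let Di : M2 := !![(a : ℂ)⁻¹, 0; 0, (b : ℂ)⁻¹]
  let W : M2 := Di * (star (U : M2) * g)
  have hDi : star Di = Di := by
    ext i j
    fin_cases i <;> fin_cases j <;> simp [Di, Matrix.star_apply]
  have hW : W * star W = 1 := by
    have h1 : star W = star g * (U : M2) * Di := by
      show star (Di * (star (U : M2) * g)) = _
      rw [star_mul, star_mul, star_star, hDi]
    have h2 : W * star W = Di * (star (U : M2) * (g * gᴴ) * (U : M2)) * Di := by
      rw [h1, Matrix.star_eq_conjTranspose g]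
      simp only [W, mul_assoc]
    rw [h2, hsp, hdiag]
    have h3 : star (U : M2) * ((U : M2) * !![(a : ℂ) ^ 2, 0; 0, (b : ℂ) ^ 2] * star (U : M2)) * (U : M2) =
        !![(a : ℂ) ^ 2, 0; 0, (b : ℂ) ^ 2] := by
      calc star (U : M2) * ((U : M2) * !![(a : ℂ) ^ 2, 0; 0, (b : ℂ) ^ 2] * star (U : M2)) * (U : M2)
          = (star (U : M2) * (U : M2)) * !![(a : ℂ) ^ 2, 0; 0, (b : ℂ) ^ 2] * (star (U : M2) * (U : M2)) := by
            simp only [mul_assoc]
        _ = _ := by rw [hUU', one_mul, mul_one]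
    rw [h3]
    simp only [Di, Matrix.mul_fin_two]
    ext i j
    fin_cases i <;> fin_cases j <;> simp <;> field_simp
  obtain ⟨z, s, hz, hzs⟩ := diag_bst ha0 hb0
  refine ⟨z, U, ⟨W, Matrix.mem_unitaryGroup_iff.2 hW⟩, s, by exact_mod_cast hz.ne', ?_⟩
  have h4 : (!![(a : ℂ), 0; 0, (b : ℂ)] : M2) * Di = 1 := by
    simp only [Di, Matrix.mul_fin_two]
    ext i j
    fin_cases i <;> fin_cases j <;> simp [haC, hbC]
  have h5 : (!![(a : ℂ), 0; 0, (b : ℂ)] : M2) * W = star (U : M2) * g := by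
    show !![(a : ℂ), 0; 0, (b : ℂ)] * (Di * (star (U : M2) * g)) = _
    rw [← mul_assoc, h4, one_mul]
  have h6 : ((z : ℝ) : ℂ) • ((U : M2) * (bst 2 s * W)) = (U : M2) * ((((z : ℝ) : ℂ) • bst 2 s) * W) := by
    rw [Matrix.smul_mul, Matrix.mul_smul]
  show g = ((z : ℝ) : ℂ) • ((U : M2) * (bst 2 s * W))
  rw [h6, ← hzs, h5, ← mul_assoc, hUU, one_mul]

theorem rot00 (k l : Matrix (Fin 3) (Fin 3) ℝ) (X : Mat 3) : (rot k * (X * rot l)) 0 0 = X 0 0 := by
  simp only [Matrix.mul_apply, Fin.sum_univ_succ (n := 3)]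
  have h1 : ∀ j : Fin 3, rot k 0 j.succ = 0 := fun j => rfl
  have h2 : ∀ j : Fin 3, rot l j.succ 0 = 0 := fun j => rfl
  have h3 : rot k 0 0 = 1 := rfl
  have h4 : rot l 0 0 = 1 := rfl
  simp [h1, h2, h3, h4]

theorem bst_GLo (i : Fin 3) (t : ℝ) : bst i t ∈ GLo := by
  show (bst i t).det ≠ 0
  rw [bst_det]
  exact one_ne_zero

theorem Phi_kak (u v : KU) {h : M2} (hh : h ∈ GLo) :
    Phi ((u : M2) * (h * (v : M2))) 0 0 = Phi h 0 0 := by
  rw [Phi_mul (KU_GLo u) (GLo_mul hh (KU_GLo v)), Phi_mul hh (KU_GLo v), (Phi_unitary u.2).1,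
    (Phi_unitary v.2).1, rot00]

theorem Phi_bst00 (t : ℝ) : Phi (bst 2 t) 0 0 = Real.cosh t := by
  rw [Phi_bst]
  simp [boost]

/-- The standing assumptions. -/
structure Ass (F : M2 → J → ℂ) (x : ℂ) : Prop where
  sm : ContDiffOn ℝ ∞ F GLo
  sc : ∀ z : ℂ, z ≠ 0 → ∀ g ∈ GLo, F (z • g) = F g
  un : ∀ u ∈ Matrix.unitaryGroup (Fin 2) ℂ, ∀ g ∈ GLo, F (g * u) = F g
  eq : ∀ g ∈ GLo, -∑ i, E (eX i) (E (eX i) F) g = x • F g

section

variable {F : M2 → J → ℂ} {x : ℂ} (hF : Ass F x)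

include hF

theorem avg_kak (z : ℂ) (hz : z ≠ 0) (u v : KU) {h : M2} (hh : h ∈ GLo) :
    avg F (z • ((u : M2) * (h * (v : M2)))) = avg F h := by
  have h1 : avg F (z • ((u : M2) * (h * (v : M2)))) = avg F ((u : M2) * (h * (v : M2))) := by
    unfold avg
    congr 1
    ext1 w
    rw [Matrix.mul_smul]
    exact hF.sc z hz _ (GLo_mul (KU_GLo _) (GLo_mul (KU_GLo _) (GLo_mul hh (KU_GLo _))))
  rw [h1, avg_left]
  unfold avg
  congr 1
  ext1 w
  rw [← mul_assoc]
  exact hF.un v v.2 _ (GLo_mul (KU_GLo _) hh)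

theorem avg_even (s : ℝ) : avg F (bst 2 (-s)) = avg F (bst 2 s) := by
  have hw : (!![0, 1; 1, 0] : M2) ∈ Matrix.unitaryGroup (Fin 2) ℂ := by
    rw [Matrix.mem_unitaryGroup_iff]
    ext i j
    fin_cases i <;> fin_cases j <;> simp [Matrix.mul_apply, Matrix.star_apply, Fin.sum_univ_two]
  have h1 : bst 2 (-s) = (1 : ℂ) • (((⟨_, hw⟩ : KU) : M2) * (bst 2 s * ((⟨_, hw⟩ : KU) : M2))) := by
    rw [one_smul]
    show bst 2 (-s) = !![0, 1; 1, 0] * (bst 2 s * !![0, 1; 1, 0])
    unfold bst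
    have hp : pauli (Fin.succ 2) = !![1, 0; 0, -1] := rfl
    rw [hp]
    ext i j
    fin_cases i <;> fin_cases j <;>
      simp [Matrix.mul_apply, Fin.sum_univ_two, neg_div, Matrix.one_apply]
  rw [h1, avg_kak hF 1 one_ne_zero _ _ (bst_GLo 2 s)]

theorem avg_eq {g : M2} (hg : g ∈ GLo) : avg F g = avg F (bst 2 (Real.arcosh (Phi g 0 0))) := by
  obtain ⟨z, u, v, s, hz, rfl⟩ := kak hg
  rw [avg_kak hF z hz u v (bst_GLo 2 s), Phi_smul hz, Phi_kak u v (bst_GLo 2 s), Phi_bst00]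
  rcases le_total 0 s with h | h
  · rw [Real.arcosh_cosh h]
  · rw [← Real.cosh_neg, Real.arcosh_cosh (by linarith), avg_even hF]

theorem f_deriv1 (r : ℝ) : HasDerivAt (fun r => avg F (bst 2 r)) (avg (E (eX 2) F) (bst 2 r)) r :=
  avg_deriv hF.sm (bst_deriv 2) (bst_GLo 2) r

theorem f_deriv2 (r : ℝ) : HasDerivAt (fun r => avg (E (eX 2) F) (bst 2 r))
    (avg (E (eX 2) (E (eX 2) F)) (bst 2 r)) r :=
  avg_deriv (E_smooth hF.sm _) (bst_deriv 2) (bst_GLo 2) r

theorem f_cont2 : Continuous fun r => avg (E (eX 2) (E (eX 2) F)) (bst 2 r) :=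
  continuous_iff_continuousAt.2 fun r =>
    (avg_deriv (E_smooth (E_smooth hF.sm _) _) (bst_deriv 2) (bst_GLo 2) r).continuousAt

omit [Fintype J] hF in
theorem Phi_two (i : Fin 3) (hi : i ≠ 2) (r t : ℝ) :
    Phi (bst 2 r * bst i t) 0 0 = Real.cosh r * Real.cosh t := by
  rw [Phi_mul (bst_GLo 2 r) (bst_GLo i t), Phi_bst, Phi_bst]
  fin_cases i
  · simp [Matrix.mul_apply, boost, Fin.sum_univ_succ]
  · simp [Matrix.mul_apply, boost, Fin.sum_univ_succ]
  · exact absurd rfl hi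

theorem side (i : Fin 3) (hi : i ≠ 2) {r : ℝ} (hr : 0 < r) :
    avg (E (eX i) (E (eX i) F)) (bst 2 r) =
      (Real.cosh r / Real.sinh r) • avg (E (eX 2) F) (bst 2 r) := by
  have hch : 1 < Real.cosh r := Real.one_lt_cosh.2 hr.ne'
  have hsh : 0 < Real.sinh r := Real.sinh_pos_iff.2 hr
  have hgt : ∀ t, 1 < Real.cosh r * Real.cosh t := fun t => by
    have := Real.one_le_cosh t
    nlinarith
  have hGL : ∀ t, bst 2 r * bst i t ∈ GLo := fun t => GLo_mul (bst_GLo 2 r) (bst_GLo i t)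
  have hcurve : ∀ t, HasDerivAt (fun t => bst 2 r * bst i t) (bst 2 r * bst i t * eX i) t := by
    intro t
    rw [mul_assoc]
    exact (cgMk (LinearMap.mulLeft ℝ (bst 2 r))).hasFDerivAt.comp_hasDerivAt t (bst_deriv i t)
  have h1 : ∀ t, HasDerivAt (fun t => avg F (bst 2 r * bst i t))
      (avg (E (eX i) F) (bst 2 r * bst i t)) t := avg_deriv hF.sm hcurve hGL
  have h2 : HasDerivAt (fun t => avg (E (eX i) F) (bst 2 r * bst i t))
      (avg (E (eX i) (E (eX i) F)) (bst 2 r * bst i 0)) 0 :=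
    avg_deriv (E_smooth hF.sm _) hcurve hGL 0
  rw [bst_zero, mul_one] at h2
  let ρ : ℝ → ℝ := fun t => Real.arcosh (Real.cosh r * Real.cosh t)
  have hρ0 : ρ 0 = r := by simp [ρ, Real.arcosh_cosh hr.le]
  have hsq : ∀ t, 0 < Real.sqrt ((Real.cosh r * Real.cosh t) ^ 2 - 1) := fun t => by
    apply Real.sqrt_pos.2
    have := hgt t
    nlinarith
  have hρ : ∀ t, HasDerivAt ρ ((Real.sqrt ((Real.cosh r * Real.cosh t) ^ 2 - 1))⁻¹ *
      (Real.cosh r * Real.sinh t)) t := by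
    intro t
    exact HasDerivAt.comp (h₂ := Real.arcosh) (h := fun t => Real.cosh r * Real.cosh t) t
      (Real.hasDerivAt_arcosh (hgt t)) ((Real.hasDerivAt_cosh t).const_mul (Real.cosh r))
  have h3 : ∀ t, avg F (bst 2 r * bst i t) = avg F (bst 2 (ρ t)) := by
    intro t
    rw [avg_eq hF (hGL t), Phi_two i hi]
  have h4 : ∀ t, avg (E (eX i) F) (bst 2 r * bst i t) =
      Real.sinh t • ((Real.sqrt ((Real.cosh r * Real.cosh t) ^ 2 - 1))⁻¹ * Real.cosh r) •
        avg (E (eX 2) F) (bst 2 (ρ t)) := by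
    intro t
    have h5 : HasDerivAt (fun t => avg F (bst 2 r * bst i t))
        (((Real.sqrt ((Real.cosh r * Real.cosh t) ^ 2 - 1))⁻¹ *
      (Real.cosh r * Real.sinh t)) • avg (E (eX 2) F) (bst 2 (ρ t))) t := by
      have h6 := (f_deriv1 hF (ρ t)).scomp t (hρ t)
      refine h6.congr_of_eventuallyEq (Filter.Eventually.of_forall fun t => h3 t)
    rw [(h1 t).unique h5, smul_smul]
    congr 1
    ring
  have h7 : (fun t => avg (E (eX i) F) (bst 2 r * bst i t)) = fun t =>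
      Real.sinh t • ((Real.sqrt ((Real.cosh r * Real.cosh t) ^ 2 - 1))⁻¹ * Real.cosh r) •
        avg (E (eX 2) F) (bst 2 (ρ t)) := funext h4
  rw [h7] at h2
  have hρc : Continuous ρ := continuous_iff_continuousAt.2 fun t => (hρ t).continuousAt
  have hmc : Continuous fun t => ((Real.sqrt ((Real.cosh r * Real.cosh t) ^ 2 - 1))⁻¹ * Real.cosh r) •
        avg (E (eX 2) F) (bst 2 (ρ t)) := by
    have h8 : Continuous fun r => avg (E (eX 2) F) (bst 2 r) :=
      continuous_iff_continuousAt.2 fun r => (f_deriv2 hF r).continuousAt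
    have h11 : Continuous fun t => avg (E (eX 2) F) (bst 2 (ρ t)) := h8.comp hρc
    have h12 : Continuous fun t =>
        (Real.sqrt ((Real.cosh r * Real.cosh t) ^ 2 - 1))⁻¹ * Real.cosh r := by
      refine Continuous.mul (Continuous.inv₀ ?_ fun t => (hsq t).ne') continuous_const
      exact Real.continuous_sqrt.comp
        (((continuous_const.mul Real.continuous_cosh).pow 2).sub continuous_const)
    exact h12.smul h11
  have h9 : HasDerivAt (fun t =>
      Real.sinh t • ((Real.sqrt ((Real.cosh r * Real.cosh t) ^ 2 - 1))⁻¹ * Real.cosh r) •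
        avg (E (eX 2) F) (bst 2 (ρ t)))
      (((Real.sqrt ((Real.cosh r * Real.cosh 0) ^ 2 - 1))⁻¹ * Real.cosh r) •
        avg (E (eX 2) F) (bst 2 (ρ 0))) 0 := by
    rw [hasDerivAt_iff_tendsto_slope]
    have hs := (Real.hasDerivAt_sinh 0)
    rw [hasDerivAt_iff_tendsto_slope, Real.cosh_zero] at hs
    have hm := (hmc.tendsto 0).mono_left (nhdsWithin_le_nhds (s := {(0 : ℝ)}ᶜ))
    have := hs.smul hm
    rw [one_smul] at this
    refine this.congr fun t => ?_
    simp only [slope, vsub_eq_sub, sub_zero, Real.sinh_zero, zero_smul]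
    rw [smul_assoc]
  rw [h2.unique h9, hρ0, Real.cosh_zero, mul_one]
  congr 1
  have h10 : Real.sqrt (Real.cosh r ^ 2 - 1) = Real.sinh r := by
    rw [← Real.sinh_sq, Real.sqrt_sq hsh.le]
  rw [h10]
  field_simp

theorem ode {r : ℝ} (hr : 0 < r) : (Real.sinh r : ℂ) • avg (E (eX 2) (E (eX 2) F)) (bst 2 r) +
    (2 * Real.cosh r : ℂ) • avg (E (eX 2) F) (bst 2 r) = -((Real.sinh r : ℂ) * x) • avg F (bst 2 r) := by
  have hsh : 0 < Real.sinh r := Real.sinh_pos_iff.2 hr
  have h0 : x • avg F (bst 2 r) = -∑ i, avg (E (eX i) (E (eX i) F)) (bst 2 r) := by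
    have h1 : x • avg F (bst 2 r) = ∫ u : KU, x • F (((u⁻¹ : KU) : M2) * bst 2 r) ∂hK := by
      rw [integral_smul]; rfl
    have h2 : ∀ u : KU, x • F (((u⁻¹ : KU) : M2) * bst 2 r) =
        -∑ i, E (eX i) (E (eX i) F) (((u⁻¹ : KU) : M2) * bst 2 r) := fun u =>
      (hF.eq _ (GLo_mul (KU_GLo _) (bst_GLo 2 r))).symm
    rw [h1]
    simp_rw [h2]
    rw [integral_neg, integral_finsetSum]
    · rfl
    · intro i _
      exact avg_int (E_smooth (E_smooth hF.sm _) _).continuousOn (bst_GLo 2 r)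
  rw [Fin.sum_univ_three, side hF 0 (by decide) hr, side hF 1 (by decide) hr] at h0
  have h3 : -((Real.sinh r : ℂ) * x) • avg F (bst 2 r) = -((Real.sinh r : ℂ) • (x • avg F (bst 2 r))) := by
    rw [neg_smul, smul_smul]
  rw [h3, h0]
  have hshC : (Real.sinh r : ℂ) ≠ 0 := by exact_mod_cast hsh.ne'
  ext j
  simp only [Pi.add_apply, Pi.smul_apply, Pi.neg_apply, smul_eq_mul, Complex.real_smul]
  rw [Complex.ofReal_sinh] at hshC
  push_cast
  field_simp
  ring

theorem f_eq {r : ℝ} (hr : 0 ≤ r) : avg F (bst 2 r) = phi x (Real.cosh r) • avg F 1 := by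
  have h := radial_unique x (f_deriv1 hF) (f_deriv2 hF) (f_cont2 hF) (fun r hr => ode hF hr) r hr
  simp only [bst_zero] at h
  rcases hr.eq_or_lt with rfl | hr'
  · rw [Real.cosh_zero, phi_one, one_smul, bst_zero]
  · have hch : 1 < Real.cosh r := Real.one_lt_cosh.2 hr'.ne'
    have hsh : 0 < Real.sinh r := Real.sinh_pos_iff.2 hr'
    have hshC : (Real.sinh r : ℂ) ≠ 0 := by exact_mod_cast hsh.ne'
    unfold phi
    rw [if_neg (not_le.2 hch), Real.arcosh_cosh hr]
    rw [div_eq_mul_inv, mul_comm, mul_smul, ← h, smul_smul, inv_mul_cancel₀ hshC, one_smul]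

theorem avg_phi {g : M2} (hg : g ∈ GLo) : avg F g = phi x (Phi g 0 0) • avg F 1 := by
  have h1 : 1 ≤ Phi g 0 0 := Frames_one_le (Phi_SO hg).1
  rw [avg_eq hF hg, f_eq hF (Real.arcosh_nonneg h1), Real.cosh_arcosh h1]

omit hF in
theorem act_im {A : Mat 3} (hA : A ∈ Frames 3) : act A '' UHs = UHs := by
  obtain ⟨hi, -, -, h1, -⟩ := Frames_inv hA
  refine Set.Subset.antisymm ?_ ?_
  · rintro _ ⟨p, hp, rfl⟩
    exact act_mem hA hp
  · intro p hp
    exact ⟨act A⁻¹ p, act_mem hi hp, by rw [← act_mul hA hi hp, h1, act_one hp]⟩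

theorem mean_inv (A : ℝ → ℝ) (u : KU) :
    ∫ q in UHs, ((A (2 * SS q 0 0) : ℝ) : ℂ) • F (((u⁻¹ : KU) : M2) * sec q) ∂mu =
      ∫ q in UHs, ((A (2 * SS q 0 0) : ℝ) : ℂ) • F (sec q) ∂mu := by
  have hv : (((u⁻¹ : KU) : M2)) ∈ GLo := KU_GLo _
  have hSO := Phi_SO hv
  have h1 := act_integral hSO (fun q => ((A (2 * SS q 0 0) : ℝ) : ℂ) • F (sec q)) UHs_open.measurableSet
    subset_rfl
  rw [act_im hSO.1] at h1
  rw [h1]
  refine setIntegral_congr_fun UHs_open.measurableSet fun q hq => ?_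
  obtain ⟨z, hz, w, hw, he⟩ := act_sec hv hq
  have hs := sec_mem hq
  have h2 : SS (act (Phi ((u⁻¹ : KU) : M2)) q) 0 0 = SS q 0 0 := by
    unfold SS
    rw [he, Phi_smul hz, mul_assoc]
    exact Phi_kak u⁻¹ ⟨w, hw⟩ hs
  have h3 : F (sec (act (Phi ((u⁻¹ : KU) : M2)) q)) = F (((u⁻¹ : KU) : M2) * sec q) := by
    rw [he, hF.sc z hz _ (GLo_mul (GLo_mul hv hs) (KU_GLo ⟨w, hw⟩)), hF.un w hw _ (GLo_mul hv hs)]
  simp only [h2, h3]

theorem mean_avg {A : ℝ → ℝ} (hA : Prof A) :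
    ∫ q in UHs, ((A (2 * SS q 0 0) : ℝ) : ℂ) • F (sec q) ∂mu =
      ∫ q in UHs, ((A (2 * SS q 0 0) : ℝ) : ℂ) • avg F (sec q) ∂mu := by
  obtain ⟨M, hM⟩ := hA.supp
  -- the compact set
  have hbase : SS ((0, 1) : UH) = 1 := by
    unfold SS
    have : sec ((0, 1) : UH) = 1 := by
      ext i j
      fin_cases i <;> fin_cases j <;> simp [sec]
    rw [this, Phi_one]
  have hbm : ((0, 1) : UH) ∈ UHs := by
    show (0 : ℝ) < 1
    exact one_pos
  have hK0 := dist_compact (K := {((0, 1) : UH)}) isCompact_singleton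
    (Set.singleton_subset_iff.2 hbm) (M / 2)
  set K0 : Set UH := {q | q ∈ UHs ∧ ∃ p ∈ ({((0, 1) : UH)} : Set UH), ((SS p)⁻¹ * SS q) 0 0 ≤ M / 2} with hK0def
  have hK0s : K0 ⊆ UHs := fun q hq => hq.1
  have hout : ∀ q ∈ UHs \ K0, A (2 * SS q 0 0) = 0 := by
    rintro q ⟨hq, hq2⟩
    apply hM
    by_contra hcon
    push Not at hcon
    exact hq2 ⟨hq, (0, 1), rfl, by rw [hbase, inv_one, one_mul]; linarith⟩
  have hred : ∀ G : UH → J → ℂ, ∫ q in UHs, ((A (2 * SS q 0 0) : ℝ) : ℂ) • G q ∂mu =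
      ∫ q in K0, ((A (2 * SS q 0 0) : ℝ) : ℂ) • G q ∂mu := by
    intro G
    refine setIntegral_eq_of_subset_of_forall_sdiff_eq_zero UHs_open.measurableSet hK0s ?_
    intro q hq
    rw [hout q hq]
    simp
  have : IsFiniteMeasure (mu.restrict K0) :=
    ⟨by rw [Measure.restrict_apply_univ]; exact mu_finite hK0 hK0s⟩
  -- the function on the product
  let Φ : KU → UH → J → ℂ := fun u q => ((A (2 * SS q 0 0) : ℝ) : ℂ) • F (((u⁻¹ : KU) : M2) * sec q)
  have hcont : ContinuousOn (Function.uncurry Φ) (Set.univ ×ˢ K0) := by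
    have h1 : ContinuousOn (fun p : KU × UH => ((A (2 * SS p.2 0 0) : ℝ) : ℂ)) (Set.univ ×ˢ K0) := by
      refine Complex.continuous_ofReal.comp_continuousOn (hA.cont.comp_continuousOn ?_)
      refine continuousOn_const.mul ?_
      have h2 : ContinuousOn SS UHs := SS_smooth.continuousOn
      have h3 : ContinuousOn (fun p : KU × UH => SS p.2) (Set.univ ×ˢ K0) :=
        h2.comp continuousOn_snd fun p hp => hK0s hp.2
      exact (continuous_apply_apply 0 0).comp_continuousOn h3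
    have h4 : ContinuousOn (fun p : KU × UH => F (((p.1⁻¹ : KU) : M2) * sec p.2)) (Set.univ ×ˢ K0) := by
      refine hF.sm.continuousOn.comp ?_ fun p hp => GLo_mul (KU_GLo _) (sec_mem (hK0s hp.2))
      exact ((KU_cont.comp continuous_fst).mul (sec_smooth.continuous.comp continuous_snd)).continuousOn
    exact h1.smul h4
  have hcomp : IsCompact ((Set.univ : Set KU) ×ˢ K0) := isCompact_univ.prod hK0
  obtain ⟨C, hC⟩ := hcomp.exists_bound_of_continuousOn hcont
  have hms : MeasurableSet ((Set.univ : Set KU) ×ˢ K0) := hcomp.measurableSet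
  have hsf : SFinite mu := by unfold mu; infer_instance
  have hprod : hK.prod (mu.restrict K0) = (hK.prod mu).restrict (Set.univ ×ˢ K0) := by
    rw [← Measure.prod_restrict, Measure.restrict_univ]
  have hint : Integrable (Function.uncurry Φ) (hK.prod (mu.restrict K0)) := by
    refine Integrable.of_bound ?_ C ?_
    · rw [hprod]
      exact hcont.aestronglyMeasurable hms
    · rw [hprod]
      exact (ae_restrict_iff' hms).2 (Filter.Eventually.of_forall hC)
  calc ∫ q in UHs, ((A (2 * SS q 0 0) : ℝ) : ℂ) • F (sec q) ∂mu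
      = ∫ u : KU, ∫ q in UHs, Φ u q ∂mu ∂hK := by
        have h5 : ∀ u : KU, ∫ q in UHs, Φ u q ∂mu =
            ∫ q in UHs, ((A (2 * SS q 0 0) : ℝ) : ℂ) • F (sec q) ∂mu := fun u => mean_inv hF A u
        simp_rw [h5]
        simp
    _ = ∫ u : KU, ∫ q in K0, Φ u q ∂mu ∂hK := by
        congr 1
        ext1 u
        exact hred _
    _ = ∫ q in K0, ∫ u : KU, Φ u q ∂hK ∂mu := integral_integral_swap hint
    _ = ∫ q in K0, ((A (2 * SS q 0 0) : ℝ) : ℂ) • avg F (sec q) ∂mu := by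
        congr 1
        ext1 q
        exact integral_smul _ _
    _ = _ := (hred _).symm

end

end SphM

theorem sph_mean {J : Type} [Fintype J] {F : M2 → J → ℂ} (hF : ContDiffOn ℝ ∞ F GLo)
    (hz : ∀ z : ℂ, z ≠ 0 → ∀ g ∈ GLo, F (z • g) = F g)
    (hu : ∀ u ∈ Matrix.unitaryGroup (Fin 2) ℂ, ∀ g ∈ GLo, F (g * u) = F g) (x : ℂ)
    (hx : ∀ g ∈ GLo, -∑ i, E (eX i) (E (eX i) F) g = x • F g) {A : ℝ → ℝ} (hA : Prof A) {g : M2}
    (hg : g ∈ GLo) :
    ∫ q in UHs, ((A (2 * SS q 0 0) : ℝ) : ℂ) • F (g * sec q) ∂mu = ahat A x • F g := by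
  let H : M2 → J → ℂ := fun h => F (g * h)
  have hsm : ContDiffOn ℝ ∞ H GLo := by
    refine hF.comp ?_ fun h hh => GLo_mul hg hh
    exact (cgMk (LinearMap.mulLeft ℝ g)).contDiff.contDiffOn
  have hE : ∀ (X : M2), ∀ h ∈ GLo, E X H h = E X F (g * h) := fun X h hh => E_left hF X hh hg
  have hH : SphM.Ass H x := by
    refine ⟨hsm, fun z hz0 h hh => ?_, fun u hu0 h hh => ?_, fun h hh => ?_⟩
    · show F (g * (z • h)) = F (g * h)
      rw [Matrix.mul_smul]
      exact hz z hz0 _ (GLo_mul hg hh)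
    · show F (g * (h * u)) = F (g * h)
      rw [← mul_assoc]
      exact hu u hu0 _ (GLo_mul hg hh)
    · rw [show x • H h = x • F (g * h) from rfl, ← hx _ (GLo_mul hg hh)]
      congr 1
      refine Finset.sum_congr rfl fun i _ => ?_
      rw [E_congr (hE (eX i)) (eX i) hh]
      exact E_left (E_smooth hF _) (eX i) hh hg
  have h1 : SphM.avg H 1 = F g := by
    unfold SphM.avg
    have h2 : ∀ u : SphM.KU, H (((u⁻¹ : SphM.KU) : M2) * 1) = F g := by
      intro u
      rw [mul_one]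
      exact hu _ (u⁻¹).2 g hg
    simp_rw [h2]
    have := SphM.hK_prob
    simp
  calc ∫ q in UHs, ((A (2 * SS q 0 0) : ℝ) : ℂ) • F (g * sec q) ∂mu
      = ∫ q in UHs, ((A (2 * SS q 0 0) : ℝ) : ℂ) • SphM.avg H (sec q) ∂mu := SphM.mean_avg hH hA
    _ = ∫ q in UHs, (((A (2 * SS q 0 0) : ℝ) : ℂ) * phi x (SS q 0 0)) • F g ∂mu := by
        refine setIntegral_congr_fun UHs_open.measurableSet fun q hq => ?_
        rw [SphM.avg_phi hH (sec_mem hq), h1, smul_smul]
        rfl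
    _ = ahat A x • F g := by
        rw [integral_smul_const]
        rfl

end

end Pool.Agent.Work.MP_14c213_gt
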