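import Pool.Agent.Work.MP_14c213_gt.A.SepM
import Pool.Agent.Work.MP_14c213_gt.A.SphM
import Pool.Agent.Work.MP_14c213_gt.A.MuInv
import Pool.Agent.Work.MP_14c213_gt.A.ConvM

/-!
Separation with profiles. Fix x₀ and choose B = C = G with B̂(x₀ + y) ≠ 0 (ahat_approx), put
b_x = c_x B̂Ĉ𝐺̂ (x + y), summable by hs; ∑ b_x Â(x + y) = ∫ A(2 SS q₀₀) G(SS q₀₀) dmu with
G(c) = ∑ b_x φ_{x+y}(c) continuous, bounded on compact sets (phi_bdd), for all profiles A, so
G(c) = 0 for c > 1 (test with A = bumps; mu_pos); apply separation.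
-/

namespace Pool.Agent.Work.MP_14c213_gt

open Matrix MeasureTheory
open scoped Matrix ContDiff Matrix.Norms.Elementwise

noncomputable section

namespace SA

theorem UHs_meas : MeasurableSet UHs := UHs_open.measurableSet

theorem SS00_cont : ContinuousOn (fun q => SS q 0 0) UHs := by
  have h := SS_smooth.continuousOn
  exact (continuous_apply (0 : Fin 4)).comp_continuousOn
    ((continuous_apply (0 : Fin 4)).comp_continuousOn h)

theorem SS00_one {q : UH} (hq : q ∈ UHs) : 1 ≤ SS q 0 0 := Frames_one_le (SS_SO hq).1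

theorem base_mem : ((0 : ℂ), (1 : ℝ)) ∈ UHs := by
  show (0 : ℝ) < 1
  exact one_pos

theorem base_SS : SS ((0 : ℂ), (1 : ℝ)) = 1 := by
  have h : sec ((0 : ℂ), (1 : ℝ)) = 1 := by
    unfold sec
    ext i j
    fin_cases i <;> fin_cases j <;> simp
  unfold SS
  rw [h, Phi_one]

theorem point {s : ℝ} (hs : 1 ≤ s) : ∃ q ∈ UHs, SS q 0 0 = s := by
  have h1 : ((0 : ℂ), Real.exp (Real.arcosh s)) ∈ UHs := Real.exp_pos _
  refine ⟨_, h1, ?_⟩
  have h2 := Real.cosh_arcosh hs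
  rw [(SS_col h1).1]
  rw [Real.cosh_eq, Real.exp_neg] at h2
  have h3 : Real.exp (Real.arcosh s) ≠ 0 := (Real.exp_pos _).ne'
  refine Eq.trans ?_ h2
  simp only [norm_zero]
  generalize Real.exp (Real.arcosh s) = e at h3
  field_simp
  ring

theorem KM_compact (M : ℝ) : IsCompact {q | q ∈ UHs ∧ SS q 0 0 ≤ M} := by
  have h := dist_compact (K := {((0 : ℂ), (1 : ℝ))}) isCompact_singleton
    (Set.singleton_subset_iff.mpr base_mem) M
  have h2 : {q | q ∈ UHs ∧ ∃ p ∈ ({((0 : ℂ), (1 : ℝ))} : Set UH), ((SS p)⁻¹ * SS q) 0 0 ≤ M} =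
      {q | q ∈ UHs ∧ SS q 0 0 ≤ M} := by
    ext q
    simp [base_SS]
  rwa [h2] at h

theorem cpt_int {W : Type*} [NormedAddCommGroup W] {f : UH → W} (hf : ContinuousOn f UHs) {M : ℝ}
    (h0 : ∀ q ∈ UHs, M ≤ SS q 0 0 → f q = 0) : IntegrableOn f UHs mu := by
  have hK := KM_compact M
  have hKs : {q | q ∈ UHs ∧ SS q 0 0 ≤ M} ⊆ UHs := fun q hq => hq.1
  have hfin : mu {q | q ∈ UHs ∧ SS q 0 0 ≤ M} < ⊤ := mu_finite hK hKs
  have h1 : IntegrableOn f {q | q ∈ UHs ∧ SS q 0 0 ≤ M} mu := by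
    obtain ⟨C, hC⟩ := hK.exists_bound_of_continuousOn (hf.mono hKs)
    have : IsFiniteMeasure (mu.restrict {q | q ∈ UHs ∧ SS q 0 0 ≤ M}) :=
      ⟨by rw [Measure.restrict_apply_univ]; exact hfin⟩
    refine Integrable.of_bound ((hf.mono hKs).aestronglyMeasurable hK.measurableSet) C ?_
    exact (ae_restrict_iff' hK.measurableSet).2 (Filter.Eventually.of_forall hC)
  refine h1.of_forall_sdiff_eq_zero UHs_meas fun q hq => ?_
  refine h0 q hq.1 ?_
  by_contra h2
  exact hq.2 ⟨hq.1, (not_le.1 h2).le⟩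

theorem zero_int {f : UH → ℝ} (hf : ContinuousOn f UHs) (hi : IntegrableOn f UHs mu)
    (hn : ∀ q ∈ UHs, 0 ≤ f q) (h0 : ∫ q in UHs, f q ∂mu = 0) {q : UH} (hq : q ∈ UHs) : f q = 0 := by
  by_contra hne
  have hpos : 0 < f q := lt_of_le_of_ne (hn q hq) (Ne.symm hne)
  have h1 := (setIntegral_eq_zero_iff_of_nonneg_ae
    ((ae_restrict_iff' UHs_meas).2 (Filter.Eventually.of_forall hn)) hi).1 h0
  have hU : IsOpen (UHs ∩ f ⁻¹' (Set.Ioi 0)) := hf.isOpen_inter_preimage UHs_open isOpen_Ioi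
  have h2 := mu_pos hU (Set.inter_subset_left) ⟨q, hq, hpos⟩
  have h3 : mu (UHs ∩ f ⁻¹' (Set.Ioi 0)) = 0 := by
    have h4 := (ae_restrict_iff' UHs_meas).1 h1
    refine measure_mono_null ?_ h4
    intro p hp hc
    have := hc hp.1
    exact absurd this (ne_of_gt hp.2)
  exact h2.ne' h3

theorem phi_SS_cont (x : ℂ) : ContinuousOn (fun q => phi x (SS q 0 0)) UHs :=
  (phi_cont x).comp SS00_cont fun _ hq => SS00_one hq

theorem prof_SS_cont {A : ℝ → ℝ} (hA : Prof A) : ContinuousOn (fun q => A (2 * SS q 0 0)) UHs :=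
  hA.cont.comp_continuousOn (SS00_cont.const_smul (2 : ℝ))

end SA

theorem ahat_approx (x : ℂ) : ∃ A : ℝ → ℝ, Prof A ∧ ahat A x ≠ 0 := by
  have h1 := phi_cont x 1 (Set.self_mem_Ici)
  obtain ⟨δ, hδ, h2⟩ := Metric.continuousWithinAt_iff.1 h1 (1 / 2) (by norm_num)
  have h3 : ∀ c : ℝ, 1 ≤ c → c < 1 + δ → 0 ≤ (phi x c).re := by
    intro c hc1 hc2
    have h4 := h2 hc1 (by
      rw [Real.dist_eq, abs_of_nonneg (by linarith)]
      linarith)
    rw [phi_one, dist_eq_norm] at h4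
    have h5 := (Complex.abs_re_le_norm (phi x c - 1)).trans h4.le
    rw [Complex.sub_re, Complex.one_re, abs_le] at h5
    linarith [h5.1]
  obtain ⟨A, hAd⟩ : ∃ A : ℝ → ℝ, A = fun v => max 0 (2 + 2 * δ - v) := ⟨_, rfl⟩
  have hA : Prof A := by
    rw [hAd]
    refine ⟨by fun_prop, 2 + 2 * δ, fun v hv => ?_⟩
    rw [max_eq_left]
    linarith
  have hA0 : ∀ q, 1 + δ ≤ SS q 0 0 → A (2 * SS q 0 0) = 0 := by
    intro q hq
    rw [hAd]
    simp only
    rw [max_eq_left]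
    linarith
  refine ⟨A, hA, fun h0 => ?_⟩
  have hc : ContinuousOn (fun q => ((A (2 * SS q 0 0) : ℝ) : ℂ) * phi x (SS q 0 0)) UHs :=
    (Complex.continuous_ofReal.comp_continuousOn (SA.prof_SS_cont hA)).mul (SA.phi_SS_cont x)
  have hi : IntegrableOn (fun q => ((A (2 * SS q 0 0) : ℝ) : ℂ) * phi x (SS q 0 0)) UHs mu :=
    SA.cpt_int hc (M := 1 + δ) fun q _ h => by rw [hA0 q h]; simp
  have h4 : ∫ q in UHs, (((A (2 * SS q 0 0) : ℝ) : ℂ) * phi x (SS q 0 0)).re ∂mu = 0 := by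
    have h5 := integral_re hi
    have h6 : ∫ q in UHs, ((A (2 * SS q 0 0) : ℝ) : ℂ) * phi x (SS q 0 0) ∂mu = 0 := h0
    rw [h6] at h5
    exact h5
  have h5 := SA.zero_int (Complex.continuous_re.comp_continuousOn hc) hi.re (fun q hq => by
    show 0 ≤ (((A (2 * SS q 0 0) : ℝ) : ℂ) * phi x (SS q 0 0)).re
    rw [Complex.re_ofReal_mul]
    by_cases hs : SS q 0 0 < 1 + δ
    · refine mul_nonneg ?_ (h3 _ (SA.SS00_one hq) hs)
      rw [hAd]
      exact le_max_left _ _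
    · rw [hA0 q (not_lt.1 hs), zero_mul]) h4 SA.base_mem
  have h6 : A (2 * SS ((0 : ℂ), (1 : ℝ)) 0 0) * (phi x (SS ((0 : ℂ), (1 : ℝ)) 0 0)).re = 0 := by
    rw [← Complex.re_ofReal_mul]
    exact h5
  rw [SA.base_SS, Matrix.one_apply_eq, phi_one, Complex.one_re, mul_one, mul_one, hAd] at h6
  simp only at h6
  rw [max_eq_right (by linarith)] at h6
  linarith

namespace SA

/-- exchange of sum and integral. -/
theorem exch {b : ℝ → ℂ} (hb : Summable fun x => ‖b x‖) {a : ℝ}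
    (ha : ∀ x, b x ≠ 0 → a ≤ x) (hfin : ∀ R : ℝ, {x | x ≤ R ∧ b x ≠ 0}.Finite)
    {A : ℝ → ℝ} (hA : Prof A) :
    ∫ q in UHs, ((A (2 * SS q 0 0) : ℝ) : ℂ) * ∑' t : ℝ, b t * phi t (SS q 0 0) ∂mu =
      ∑' t : ℝ, b t * ahat A t := by
  classical
  obtain ⟨S, hS⟩ : ∃ S : Set ℝ, S = {x | b x ≠ 0} := ⟨_, rfl⟩
  have hSc : S.Countable := by
    have h1 : S ⊆ ⋃ n : ℕ, {x | x ≤ (n : ℝ) ∧ b x ≠ 0} := by
      intro x hx
      obtain ⟨n, hn⟩ := exists_nat_ge x
      rw [hS] at hx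
      exact Set.mem_iUnion.2 ⟨n, hn, hx⟩
    exact (Set.countable_iUnion fun n : ℕ => (hfin n).countable).mono h1
  have : Countable S := hSc.to_subtype
  obtain ⟨M, hM⟩ := hA.supp
  have hM' : ∀ q, M ≤ SS q 0 0 → 1 ≤ SS q 0 0 → A (2 * SS q 0 0) = 0 := by
    intro q hq h1
    exact hM _ (by linarith)
  obtain ⟨C, hC⟩ := phi_bdd a M
  have hC0 : ∀ t ∈ S, ∀ s : ℝ, 1 ≤ s → s ≤ M → ‖phi t s‖ ≤ C := by
    intro t ht s h1 h2
    rw [hS] at ht
    exact hC t (ha t ht) s h1 h2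
  have hcont : ∀ t : S, ContinuousOn (fun q => ((A (2 * SS q 0 0) : ℝ) : ℂ) *
      (b t * phi (t : ℝ) (SS q 0 0))) UHs := fun t =>
    (Complex.continuous_ofReal.comp_continuousOn (prof_SS_cont hA)).mul
      (continuousOn_const.mul (phi_SS_cont _))
  have hint : ∀ t : S, IntegrableOn (fun q => ((A (2 * SS q 0 0) : ℝ) : ℂ) *
      (b t * phi (t : ℝ) (SS q 0 0))) UHs mu := fun t =>
    cpt_int (hcont t) (M := M) fun q hq h => by rw [hM' q h (SS00_one hq)]; simp
  have hAi : IntegrableOn (fun q => ‖A (2 * SS q 0 0)‖) UHs mu :=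
    cpt_int (prof_SS_cont hA).norm (M := M) fun q hq h => by
      rw [hM' q h (SS00_one hq)]
      simp
  have hle : ∀ t : S, ∫ q in UHs, ‖((A (2 * SS q 0 0) : ℝ) : ℂ) *
      (b t * phi (t : ℝ) (SS q 0 0))‖ ∂mu ≤
      ‖b t‖ * (|C| * ∫ q in UHs, ‖A (2 * SS q 0 0)‖ ∂mu) := by
    intro t
    rw [← integral_const_mul, ← integral_const_mul]
    refine setIntegral_mono_on (hint t).norm ((hAi.const_mul _).const_mul _) UHs_meas
      fun q hq => ?_
    rw [norm_mul, norm_mul, Complex.norm_real]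
    by_cases h : SS q 0 0 ≤ M
    · have h1 := (hC0 t t.2 _ (SS00_one hq) h).trans (le_abs_self C)
      calc ‖A (2 * SS q 0 0)‖ * (‖b t‖ * ‖phi (t : ℝ) (SS q 0 0)‖) ≤
          ‖A (2 * SS q 0 0)‖ * (‖b t‖ * |C|) := by gcongr
        _ = _ := by ring
    · rw [hM' q (not_le.1 h).le (SS00_one hq)]
      simp
  have hsum : Summable fun t : S => ∫ q in UHs, ‖((A (2 * SS q 0 0) : ℝ) : ℂ) *
      (b t * phi (t : ℝ) (SS q 0 0))‖ ∂mu := by
    refine Summable.of_nonneg_of_le (fun t => integral_nonneg fun q => norm_nonneg _) hle ?_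
    exact (hb.comp_injective Subtype.val_injective).mul_right _
  have key := integral_tsum_of_summable_integral_norm hint hsum
  have e1 : ∀ q : UH, ∑' t : ℝ, b t * phi t (SS q 0 0) =
      ∑' t : S, b t * phi (t : ℝ) (SS q 0 0) := by
    intro q
    refine (tsum_subtype_eq_of_support_subset (f := fun t : ℝ => b t * phi t (SS q 0 0))
      (s := S) ?_).symm
    intro t ht
    rw [hS]
    exact left_ne_zero_of_mul ht
  have e2 : ∑' t : ℝ, b t * ahat A t = ∑' t : S, b t * ahat A (t : ℝ) := by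
    refine (tsum_subtype_eq_of_support_subset (f := fun t : ℝ => b t * ahat A t)
      (s := S) ?_).symm
    intro t ht
    rw [hS]
    exact left_ne_zero_of_mul ht
  rw [e2]
  have e3 : ∀ t : S, b t * ahat A (t : ℝ) = ∫ q in UHs, ((A (2 * SS q 0 0) : ℝ) : ℂ) *
      (b t * phi (t : ℝ) (SS q 0 0)) ∂mu := by
    intro t
    unfold ahat
    rw [← integral_const_mul]
    congr 1
    funext q
    ring
  simp only [e3]
  rw [key]
  congr 1
  funext q
  rw [e1, tsum_mul_left]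

theorem G_cont {b : ℝ → ℂ} (hb : Summable fun x => ‖b x‖) {a : ℝ}
    (ha : ∀ x, b x ≠ 0 → a ≤ x) (M : ℝ) :
    ContinuousOn (fun s => ∑' t : ℝ, b t * phi t s) (Set.Icc 1 M) := by
  obtain ⟨C, hC⟩ := phi_bdd a M
  refine continuousOn_tsum (u := fun t => ‖b t‖ * |C|) (fun t => ?_) (hb.mul_right _) ?_
  · exact continuousOn_const.mul ((phi_cont _).mono fun s hs => hs.1)
  · intro t s hs
    rw [norm_mul]
    by_cases h : b t = 0
    · rw [h]
      simp
    · have := (hC t (ha t h) s hs.1 hs.2).trans (le_abs_self C)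
      gcongr

/-- testing with profiles. -/
theorem test {G : ℝ → ℝ} {M : ℝ} (hM : 1 ≤ M) (hG : ContinuousOn G (Set.Icc 1 M))
    (h : ∀ A : ℝ → ℝ, Prof A → (∀ v, 2 * M ≤ v → A v = 0) →
      ∫ q in UHs, A (2 * SS q 0 0) * G (SS q 0 0) ∂mu = 0) {s : ℝ} (hs : 1 ≤ s)
    (hsM : s < M) : G s = 0 := by
  obtain ⟨H, hH⟩ : ∃ H : ℝ → ℝ, H = fun s => G (max 1 (min s M)) := ⟨_, rfl⟩
  have hHc : Continuous H := by
    rw [hH]
    refine hG.comp_continuous (by fun_prop) fun s => ⟨le_max_left _ _, ?_⟩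
    exact max_le hM (min_le_right _ _)
  have hHG : ∀ s, 1 ≤ s → s ≤ M → H s = G s := by
    intro s h1 h2
    rw [hH]
    simp only
    rw [min_eq_left h2, max_eq_right h1]
  obtain ⟨A, hAd⟩ : ∃ A : ℝ → ℝ, A = fun v => max 0 (2 * M - v) * H (v / 2) := ⟨_, rfl⟩
  have hA0 : ∀ v, 2 * M ≤ v → A v = 0 := by
    intro v hv
    rw [hAd]
    simp only
    rw [max_eq_left (by linarith), zero_mul]
  have hA : Prof A := by
    refine ⟨?_, 2 * M, hA0⟩
    rw [hAd]
    exact (by fun_prop : Continuous fun v : ℝ => max 0 (2 * M - v)).mul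
      (hHc.comp (by fun_prop))
  have h1 := h A hA hA0
  have e : ∀ q ∈ UHs, A (2 * SS q 0 0) * G (SS q 0 0) =
      max 0 (2 * M - 2 * SS q 0 0) * H (SS q 0 0) ^ 2 := by
    intro q hq
    by_cases hq' : SS q 0 0 ≤ M
    · rw [← hHG _ (SS00_one hq) hq', hAd]
      simp only
      rw [mul_div_cancel_left₀ _ (two_ne_zero)]
      ring
    · rw [hA0 _ (by linarith [not_le.1 hq']), max_eq_left (by linarith [not_le.1 hq'])]
      ring
  rw [setIntegral_congr_fun UHs_meas e] at h1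
  have hc : ContinuousOn (fun q => max 0 (2 * M - 2 * SS q 0 0) * H (SS q 0 0) ^ 2) UHs := by
    have : Continuous fun t : ℝ => max 0 (2 * M - 2 * t) * H t ^ 2 := by
      exact (by fun_prop : Continuous fun t : ℝ => max 0 (2 * M - 2 * t)).mul (hHc.pow 2)
    exact this.comp_continuousOn SS00_cont
  have hi := cpt_int hc (M := M) fun q _ h => by
    rw [max_eq_left (by linarith), zero_mul]
  obtain ⟨q, hq, hqs⟩ := point hs
  have h2 := zero_int hc hi (fun q _ => mul_nonneg (le_max_left _ _) (sq_nonneg _)) h1 hq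
  rw [hqs, hHG s hs hsM.le] at h2
  rcases mul_eq_zero.1 h2 with h3 | h3
  · rw [max_eq_right (by linarith)] at h3
    linarith
  · exact pow_eq_zero_iff (two_ne_zero) |>.1 h3

end SA

theorem sep_profiles {c : ℝ → ℝ} {a : ℝ} (y : ℝ) (ha : ∀ x, c x ≠ 0 → a ≤ x)
    (hfin : ∀ R : ℝ, {x | x ≤ R ∧ c x ≠ 0}.Finite)
    (hs : ∀ B C G : ℝ → ℝ, Prof B → Prof C → Prof G →
      Summable (fun x : ℝ => ‖(c x : ℂ) * (ahat B (x + y) * ahat C (x + y) * ahat G (x + y))‖))
    (hq : ∀ A B C G : ℝ → ℝ, Prof A → Prof B → Prof C → Prof G →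
      ∑' x : ℝ, (c x : ℂ) *
        (ahat A (x + y) * ahat B (x + y) * ahat C (x + y) * ahat G (x + y)) = 0) (x : ℝ) :
    c x = 0 := by
  obtain ⟨B, hB, hB0⟩ := ahat_approx ((x + y : ℝ) : ℂ)
  obtain ⟨b, hbd⟩ : ∃ b : ℝ → ℂ, b = fun t => (c (t - y) : ℂ) * (ahat B t * ahat B t * ahat B t) :=
    ⟨_, rfl⟩
  have hcast : ∀ t : ℝ, (((t - y : ℝ) : ℂ) + (y : ℂ)) = (t : ℂ) := by
    intro t
    push_cast
    ring
  have hb : Summable fun t => ‖b t‖ := by
    have h1 := (Equiv.subRight y).summable_iff.2 (hs B B B hB hB hB)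
    refine h1.congr fun t => ?_
    simp only [Function.comp_apply, Equiv.subRight_apply]
    rw [hcast, hbd]
  have hbc : ∀ t, b t ≠ 0 → c (t - y) ≠ 0 := by
    intro t ht h0
    apply ht
    rw [hbd]
    simp only
    rw [h0]
    simp
  have hba : ∀ t, b t ≠ 0 → a + y ≤ t := by
    intro t ht
    have := ha _ (hbc t ht)
    linarith
  have hbf : ∀ R : ℝ, {t | t ≤ R ∧ b t ≠ 0}.Finite := by
    intro R
    refine ((hfin (R - y)).image fun x => x + y).subset ?_
    rintro t ⟨ht, hbt⟩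
    exact ⟨t - y, ⟨by linarith, hbc t hbt⟩, by ring⟩
  have key : ∀ A : ℝ → ℝ, Prof A → ∑' t : ℝ, b t * ahat A t = 0 := by
    intro A hA
    refine Eq.trans ?_ (((Equiv.subRight y).tsum_eq (fun x : ℝ => (c x : ℂ) *
        (ahat A (x + y) * ahat B (x + y) * ahat B (x + y) * ahat B (x + y)))).trans
          (hq A B B B hA hB hB hB))
    refine tsum_congr fun t => ?_
    rw [Equiv.subRight_apply, hcast, hbd]
    ring
  have hG : ∀ s : ℝ, 1 < s → ∑' t : ℝ, b t * phi t s = 0 := by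
    intro s hs1
    have hc := SA.G_cont hb hba (s + 1)
    have hA : ∀ A : ℝ → ℝ, Prof A →
        ∫ q in UHs, ((A (2 * SS q 0 0) : ℝ) : ℂ) * ∑' t : ℝ, b t * phi t (SS q 0 0) ∂mu = 0 :=
      fun A hA => (SA.exch hb hba hbf hA).trans (key A hA)
    have hAi : ∀ A : ℝ → ℝ, Prof A → (∀ v, 2 * (s + 1) ≤ v → A v = 0) → IntegrableOn
        (fun q => ((A (2 * SS q 0 0) : ℝ) : ℂ) * ∑' t : ℝ, b t * phi t (SS q 0 0)) UHs mu := by
      intro A hA hA0
      obtain ⟨H, hH⟩ : ∃ H : ℝ → ℂ, H = fun r => ∑' t : ℝ, b t * phi t (max 1 (min r (s + 1))) :=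
        ⟨_, rfl⟩
      have hHc : Continuous H := by
        rw [hH]
        refine hc.comp_continuous (f := fun r : ℝ => max 1 (min r (s + 1))) (by fun_prop)
          fun r => ⟨le_max_left _ _, ?_⟩
        exact max_le (by linarith) (min_le_right _ _)
      have h1 : ContinuousOn (fun q => ((A (2 * SS q 0 0) : ℝ) : ℂ) * H (SS q 0 0)) UHs :=
        (Complex.continuous_ofReal.comp_continuousOn (SA.prof_SS_cont hA)).mul
          (hHc.comp_continuousOn SA.SS00_cont)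
      have h2 := SA.cpt_int h1 (M := s + 1) fun q _ h => by
        rw [hA0 _ (by linarith)]
        simp
      refine h2.congr_fun (fun q hq => ?_) SA.UHs_meas
      by_cases hq' : SS q 0 0 ≤ s + 1
      · rw [hH]
        simp only
        rw [min_eq_left hq', max_eq_right (SA.SS00_one hq)]
      · have h0 := hA0 (2 * SS q 0 0) (by linarith [not_le.1 hq'])
        simp only
        rw [h0]
        simp
    refine Complex.ext ?_ ?_
    · refine SA.test (G := fun r => (∑' t : ℝ, b t * phi t r).re) (M := s + 1) (by linarith)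
        (Complex.continuous_re.comp_continuousOn hc) (fun A h1 h2 => ?_) hs1.le (by linarith)
      have h3 := integral_re (hAi A h1 h2)
      rw [hA A h1] at h3
      refine Eq.trans ?_ h3
      congr 1
      funext q
      exact (Complex.re_ofReal_mul _ _).symm
    · refine SA.test (G := fun r => (∑' t : ℝ, b t * phi t r).im) (M := s + 1) (by linarith)
        (Complex.continuous_im.comp_continuousOn hc) (fun A h1 h2 => ?_) hs1.le (by linarith)
      have h3 := integral_im (hAi A h1 h2)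
      rw [hA A h1] at h3
      refine Eq.trans ?_ h3
      congr 1
      funext q
      exact (Complex.im_ofReal_mul _ _).symm
  have h1 := separation hb hba hbf hG (x + y)
  rw [hbd] at h1
  simp only at h1
  rw [add_sub_cancel_right] at h1
  rcases mul_eq_zero.1 h1 with h2 | h2
  · exact_mod_cast h2
  · exfalso
    rcases mul_eq_zero.1 h2 with h3 | h3
    · rcases mul_eq_zero.1 h3 with h4 | h4
      · exact hB0 h4
      · exact hB0 h4
    · exact hB0 h3

end

end Pool.Agent.Work.MP_14c213_gt
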