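import Pool.Agent.Work.MP_14c213_gt.A.Unf

/-!
Volumes are multiplicative for subgroups of finite index: if D is a domain for Γ and η_j are
representatives of Γ'\Γ (right cosets) then ∪ act η_j '' D is a domain for Γ'.
-/

namespace Pool.Agent.Work.MP_14c213_gt

open Matrix MeasureTheory
open scoped Matrix ContDiff Matrix.Norms.Elementwise

noncomputable section

private lemma actU_mul {Γ : Subgroup (Mat 3)ˣ} (h : Klein Γ) {γ δ : (Mat 3)ˣ} (hγ : γ ∈ Γ)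
    (hδ : δ ∈ Γ) {p : UH} (hp : p ∈ UHs) :
    act (γ : Mat 3) (act (δ : Mat 3) p) = act ((γ * δ : (Mat 3)ˣ) : Mat 3) p := by
  rw [Units.val_mul, act_mul (Klein_SO h hγ).1 (Klein_SO h hδ).1 hp]

theorem vol_index {Γ Γ' : Subgroup (Mat 3)ˣ} (h : Klein Γ) (hle : Γ' ≤ Γ)
    (hfin : Γ'.relIndex Γ ≠ 0) {D : Set UH} (hD : FD Γ D) :
    ∃ D', FD Γ' D' ∧ mu D' = Γ'.relIndex Γ * mu D := by
  classical
  set Q := Γ ⧸ Γ'.subgroupOf Γ with hQ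
  have hcard : Γ'.relIndex Γ = Nat.card Q := rfl
  haveI : Finite Q := Nat.finite_of_card_ne_zero (by rw [← hcard]; exact hfin)
  haveI := Fintype.ofFinite Q
  set r : Q → Γ := Quotient.out with hr
  have hrq : ∀ q : Q, ((r q : Γ) : Q) = q := fun q => Quotient.out_eq q
  set η : Q → (Mat 3)ˣ := fun q => ((r q : Γ) : (Mat 3)ˣ)⁻¹ with hη
  have hηΓ : ∀ q, η q ∈ Γ := fun q => Γ.inv_mem (r q).2
  have hηSO : ∀ q, ((η q : (Mat 3)ˣ) : Mat 3) ∈ SO := fun q => Klein_SO h (hηΓ q)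
  -- uniqueness
  have huniq : ∀ q₁ q₂ : Q, ∀ d₁ ∈ D, ∀ d₂ ∈ D, ∀ γ ∈ Γ',
      act (γ : Mat 3) (act (η q₁ : Mat 3) d₁) = act (η q₂ : Mat 3) d₂ → q₁ = q₂ ∧ γ = 1 := by
    intro q₁ q₂ d₁ hd₁ d₂ hd₂ γ hγ he
    have hγΓ := hle hγ
    have hu₁ := hD.sub hd₁
    have hu₂ := hD.sub hd₂
    have hr₂ : ((r q₂ : Γ) : (Mat 3)ˣ) ∈ Γ := (r q₂).2
    have h1 : act ((((r q₂ : Γ) : (Mat 3)ˣ) * (γ * η q₁) : (Mat 3)ˣ) : Mat 3) d₁ = d₂ := by
      rw [← actU_mul h hr₂ (Γ.mul_mem hγΓ (hηΓ q₁)) hu₁, ← actU_mul h hγΓ (hηΓ q₁) hu₁, he,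
        actU_mul h hr₂ (hηΓ q₂) hu₂]
      have : ((r q₂ : Γ) : (Mat 3)ˣ) * η q₂ = 1 := mul_inv_cancel _
      rw [this, Units.val_one, act_one hu₂]
    have h2 := hD.uniq d₁ hd₁ _ (Γ.mul_mem hr₂ (Γ.mul_mem hγΓ (hηΓ q₁))) (by rw [h1]; exact hd₂)
    have h3 : ((r q₂ : Γ) : (Mat 3)ˣ) * γ = ((r q₁ : Γ) : (Mat 3)ˣ) := by
      have : ((r q₂ : Γ) : (Mat 3)ˣ) * (γ * ((r q₁ : Γ) : (Mat 3)ˣ)⁻¹) = 1 := h2
      rw [← mul_assoc] at this
      exact mul_inv_eq_one.1 this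
    have h4 : q₁ = q₂ := by
      rw [← hrq q₁, ← hrq q₂, eq_comm, QuotientGroup.eq, Subgroup.mem_subgroupOf]
      have : (((r q₂)⁻¹ * r q₁ : Γ) : (Mat 3)ˣ) = γ := by
        rw [Subgroup.coe_mul, Subgroup.coe_inv, ← h3]
        group
      rw [this]
      exact hγ
    refine ⟨h4, ?_⟩
    rw [h4] at h3
    exact mul_eq_left.1 h3
  refine ⟨⋃ q : Q, act (η q : Mat 3) '' D, ⟨?_, ?_, ?_, ?_, ?_⟩, ?_⟩
  · exact MeasurableSet.iUnion fun q => (act_image_measure (hηSO q) hD.meas hD.sub).1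
  · refine Set.iUnion_subset fun q => ?_
    rintro _ ⟨d, hd, rfl⟩
    exact act_mem (hηSO q).1 (hD.sub hd)
  · obtain ⟨K, hK, hKs, hDK⟩ := hD.bdd
    refine ⟨⋃ q : Q, act (η q : Mat 3) '' K, ?_, ?_, ?_⟩
    · exact isCompact_iUnion fun q => hK.image_of_continuousOn ((act_cont (hηSO q).1).mono hKs)
    · refine Set.iUnion_subset fun q => ?_
      rintro _ ⟨d, hd, rfl⟩
      exact act_mem (hηSO q).1 (hKs hd)
    · exact Set.iUnion_mono fun q => Set.image_mono hDK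
  · intro p hp
    obtain ⟨γ, hγ, hγD⟩ := hD.ex p hp
    set g : Γ := ⟨γ, hγ⟩ with hg
    set q : Q := (g : Q) with hq
    have h1 : (r q)⁻¹ * g ∈ Γ'.subgroupOf Γ := by
      rw [← QuotientGroup.eq, hrq]
    rw [Subgroup.mem_subgroupOf] at h1
    refine ⟨_, h1, Set.mem_iUnion.2 ⟨q, act (γ : Mat 3) p, hγD, ?_⟩⟩
    rw [actU_mul h (hηΓ q) hγ hp]
    rfl
  · intro p hp γ hγ hγp
    obtain ⟨q₁, d₁, hd₁, rfl⟩ := Set.mem_iUnion.1 hp
    obtain ⟨q₂, d₂, hd₂, he⟩ := Set.mem_iUnion.1 hγp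
    exact (huniq q₁ q₂ d₁ hd₁ d₂ hd₂ γ hγ he.symm).2
  · rw [measure_iUnion]
    · rw [tsum_congr fun q => (act_image_measure (hηSO q) hD.meas hD.sub).2, tsum_fintype,
        Finset.sum_const, Finset.card_univ, hcard, Nat.card_eq_fintype_card, nsmul_eq_mul]
    · intro q₁ q₂ hne
      rw [Function.onFun, Set.disjoint_left]
      rintro _ ⟨d₁, hd₁, rfl⟩ ⟨d₂, hd₂, he⟩
      apply hne
      refine (huniq q₁ q₂ d₁ hd₁ d₂ hd₂ 1 (Γ'.one_mem) ?_).1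
      rw [Units.val_one, act_one (act_mem (hηSO q₁).1 (hD.sub hd₁)), he]
    · exact fun q => (act_image_measure (hηSO q) hD.meas hD.sub).1

private lemma mul00V {A B : Mat 3} (hA : A ∈ Frames 3) (hB : B ∈ Frames 3) :
    (A * B) 0 0 ≤ 4 * (A 0 0 * B 0 0) := by
  rw [Matrix.mul_apply]
  have h1 : ∀ a : Fin 4, A 0 a * B a 0 ≤ A 0 0 * B 0 0 := by
    intro a
    have hA1 := Frames_one_le hA
    calc A 0 a * B a 0 ≤ |A 0 a * B a 0| := le_abs_self _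
      _ = |A 0 a| * |B a 0| := abs_mul _ _
      _ ≤ A 0 0 * B 0 0 := mul_le_mul (Frames_entry hA 0 a) (Frames_entry hB a 0) (abs_nonneg _)
          (by linarith)
  calc ∑ a : Fin 4, A 0 a * B a 0 ≤ ∑ _a : Fin 4, A 0 0 * B 0 0 := Finset.sum_le_sum fun a _ => h1 a
    _ = 4 * (A 0 0 * B 0 0) := by
        rw [Finset.sum_const, Finset.card_univ, Fintype.card_fin, nsmul_eq_mul]
        norm_num

theorem Klein_sub {Γ Γ' : Subgroup (Mat 3)ˣ} (h : Klein Γ) (hle : Γ' ≤ Γ)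
    (hfin : Γ'.relIndex Γ ≠ 0) : Klein Γ' := by
  classical
  refine ⟨fun γ hγ hne => h.lox γ (hle hγ) hne, fun R => ?_, ?_⟩
  · exact (h.disc R).subset fun γ hγ => ⟨hle hγ.1, hγ.2⟩
  · set Q := Γ ⧸ Γ'.subgroupOf Γ with hQ
    have hcard : Γ'.relIndex Γ = Nat.card Q := rfl
    haveI : Finite Q := Nat.finite_of_card_ne_zero (by rw [← hcard]; exact hfin)
    haveI := Fintype.ofFinite Q
    set r : Q → Γ := Quotient.out with hr
    have hrq : ∀ q : Q, ((r q : Γ) : Q) = q := fun q => Quotient.out_eq q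
    set η : Q → (Mat 3)ˣ := fun q => ((r q : Γ) : (Mat 3)ˣ)⁻¹ with hη
    have hηΓ : ∀ q, η q ∈ Γ := fun q => Γ.inv_mem (r q).2
    obtain ⟨R, hR⟩ := h.coc
    refine ⟨∑ q : Q, 4 * ((η q : Mat 3) 0 0 * R), fun g hg => ?_⟩
    obtain ⟨γ, hγ, hγR⟩ := hR g hg
    set q : Q := ((⟨γ, hγ⟩ : Γ) : Q) with hq
    have h1 : (r q)⁻¹ * ⟨γ, hγ⟩ ∈ Γ'.subgroupOf Γ := by
      rw [← QuotientGroup.eq, hrq]
    rw [Subgroup.mem_subgroupOf] at h1
    refine ⟨_, h1, ?_⟩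
    have e1 : ((((r q)⁻¹ * ⟨γ, hγ⟩ : Γ) : (Mat 3)ˣ) : Mat 3) * g =
        (η q : Mat 3) * ((γ : Mat 3) * g) := by
      rw [Subgroup.coe_mul, Units.val_mul, Matrix.mul_assoc]
      rfl
    have hF : (γ : Mat 3) * g ∈ Frames 3 := Frames_mul (Klein_SO h hγ).1 hg
    have hηF : ∀ q, (η q : Mat 3) ∈ Frames 3 := fun q => (Klein_SO h (hηΓ q)).1
    have hR1 : 1 ≤ R := (Frames_one_le hF).trans hγR
    rw [e1]
    calc ((η q : Mat 3) * ((γ : Mat 3) * g)) 0 0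
        ≤ 4 * ((η q : Mat 3) 0 0 * ((γ : Mat 3) * g) 0 0) := mul00V (hηF q) hF
      _ ≤ 4 * ((η q : Mat 3) 0 0 * R) := by
          have := Frames_one_le (hηF q)
          gcongr
      _ ≤ ∑ q : Q, 4 * ((η q : Mat 3) 0 0 * R) := by
          refine Finset.single_le_sum (f := fun q => 4 * ((η q : Mat 3) 0 0 * R)) ?_
            (Finset.mem_univ q)
          intro q' _
          have := Frames_one_le (hηF q')
          positivity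

theorem vol_eq {Γ₁ Γ₂ : Subgroup (Mat 3)ˣ} (h : Pair Γ₁ Γ₂) {D₁ D₂ : Set UH} (h1 : FD Γ₁ D₁)
    (h2 : FD Γ₂ D₂) : mu D₁ = mu D₂ := by
  have hn1 : (Γ₁ ⊓ Γ₂).relIndex Γ₁ ≠ 0 := h.idx0
  have hn2 : (Γ₁ ⊓ Γ₂).relIndex Γ₂ ≠ 0 := by rw [← h.idx]; exact hn1
  obtain ⟨D₁', hD₁', e1⟩ := vol_index h.k1 inf_le_left hn1 h1
  obtain ⟨D₂', hD₂', e2⟩ := vol_index h.k2 inf_le_right hn2 h2
  have hk : Klein (Γ₁ ⊓ Γ₂) := Klein_sub h.k1 inf_le_left hn1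
  have e3 := FD_indep hk hD₁' hD₂' (f := fun _ => 1) measurable_const (fun _ _ _ _ => rfl)
  rw [lintegral_one, lintegral_one, Measure.restrict_apply_univ, Measure.restrict_apply_univ, e1,
    e2, ← h.idx] at e3
  exact (ENNReal.mul_right_inj (by exact_mod_cast hn1) (ENNReal.natCast_ne_top _)).1 e3

end

end Pool.Agent.Work.MP_14c213_gt
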