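import Pool.Agent.Work.MP_14c213_gt.A.TrEig
import Pool.Agent.Work.MP_14c213_gt.A.SepA
import Pool.Agent.Work.MP_14c213_gt.A.GeoM
import Pool.Agent.Work.MP_14c213_gt.A.VolM

/-!
Functions: for k = 0, PL = CasL (PL_zero), so mP 0 Γ lam x = finrank if x = lam and 0 otherwise.
Spectral side (spec_side with A and conv B (conv C G)) = geometric side (geo_side); the geometric
sides of Γ₁ and Γ₂ agree by vol_eq and d0. sep_profiles with y = 0, c = difference of the finranks.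
-/

namespace Pool.Agent.Work.MP_14c213_gt

open Matrix MeasureTheory
open scoped Matrix ContDiff Matrix.Norms.Elementwise

noncomputable section

/-- The geometric sides of the two groups agree for `k ≤ 1`. -/
theorem geo_eq {Γ₁ Γ₂ : Subgroup (Mat 3)ˣ} (h : Pair Γ₁ Γ₂) {k : ℕ} (hk : k ≤ 1)
    {D₁ D₂ : Set UH} (h1 : FD Γ₁ D₁) (h2 : FD Γ₂ D₂) {B : ℝ → ℝ} (hB : Prof B) :
    ∫ p in D₁, (ker k Γ₁ B (SS p) (SS p)).trace ∂mu =
      ∫ p in D₂, (ker k Γ₂ B (SS p) (SS p)).trace ∂mu := by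
  rw [geo_side h.k1 h1 hB, geo_side h.k2 h2 hB, vol_eq h h1 h2]
  congr 2
  apply finsum_congr
  intro L
  congr 1
  apply Finset.sum_congr rfl
  intro j hj
  rw [Finset.mem_range] at hj
  have hj' : j = 0 ∨ j = 1 := by omega
  rcases hj' with rfl | rfl
  · rw [h.d0 L L.2]
  · rw [h.d1 L L.2]

theorem EL_finrank_bot {k : ℕ} {Γ : Subgroup (Mat 3)ˣ} {x : ℝ} (h : EL k Γ x = ⊥) :
    Module.finrank ℂ (EL k Γ x) = 0 := by
  haveI : Subsingleton (EL k Γ x) := by
    rw [h]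
    infer_instance
  exact Module.finrank_zero_of_subsingleton

/-- Comparison of multiplicities from the trace formula. -/
theorem sep_general {Γ₁ Γ₂ : Subgroup (Mat 3)ˣ} (h : Pair Γ₁ Γ₂) {k : ℕ} (hk : k ≤ 1) (y : ℝ)
    (hdiff : ∀ (lam : ℝ) (f : ℂ → ℂ),
      (∑ᶠ x : ℂ, (mP k Γ₁ lam x : ℂ) * f x) - ∑ᶠ x : ℂ, (mP k Γ₂ lam x : ℂ) * f x =
        (((Module.finrank ℂ (EL k Γ₁ lam) : ℝ) - (Module.finrank ℂ (EL k Γ₂ lam) : ℝ) : ℝ) : ℂ) *
          f (lam + y)) (lam : ℝ) :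
    Module.finrank ℂ (EL k Γ₁ lam) = Module.finrank ℂ (EL k Γ₂ lam) := by
  obtain ⟨D₁, hD₁⟩ := FD_exists h.k1
  obtain ⟨D₂, hD₂⟩ := FD_exists h.k2
  set c : ℝ → ℝ := fun x => (Module.finrank ℂ (EL k Γ₁ x) : ℝ) -
    (Module.finrank ℂ (EL k Γ₂ x) : ℝ) with hc
  have hcne : ∀ x, c x ≠ 0 → EL k Γ₁ x ≠ ⊥ ∨ EL k Γ₂ x ≠ ⊥ := by
    intro x hx
    by_contra hcon
    push Not at hcon
    apply hx
    rw [hc]
    beta_reduce
    rw [EL_finrank_bot hcon.1, EL_finrank_bot hcon.2, sub_self]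
  obtain ⟨a₁, ha₁⟩ := EL_bdd h.k1 k
  obtain ⟨a₂, ha₂⟩ := EL_bdd h.k2 k
  have hzero := sep_profiles (c := c) (a := -max a₁ a₂) y ?_ ?_ ?_ ?_ lam
  · rw [hc] at hzero
    beta_reduce at hzero
    have : (Module.finrank ℂ (EL k Γ₁ lam) : ℝ) = (Module.finrank ℂ (EL k Γ₂ lam) : ℝ) := by
      linarith
    exact_mod_cast this
  · intro x hx
    rcases hcne x hx with h' | h'
    · have := ha₁ x h'
      have := le_max_left a₁ a₂
      linarith
    · have := ha₂ x h'
      have := le_max_right a₁ a₂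
      linarith
  · intro R
    refine ((EL_discrete h.k1 k R).union (EL_discrete h.k2 k R)).subset ?_
    rintro x ⟨hx, hx2⟩
    rcases hcne x hx2 with h' | h'
    · exact Or.inl ⟨hx, h'⟩
    · exact Or.inr ⟨hx, h'⟩
  · intro B C G hB hC hG
    have s1 := (spec_side (k := k) h.k1 hD₁ hB (conv_prof hC hG)).1
    have s2 := (spec_side (k := k) h.k2 hD₂ hB (conv_prof hC hG)).1
    refine Summable.of_nonneg_of_le (fun x => norm_nonneg _) (fun x => ?_) (s1.add s2)
    have e1 := tr_RE3 (k := k) h.k1 x hB hC hG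
    have e2 := tr_RE3 (k := k) h.k2 x hB hC hG
    have e3 := hdiff x (fun z => ahat B z * ahat C z * ahat G z)
    have e4 : ((c x : ℝ) : ℂ) * (ahat B (x + y) * ahat C (x + y) * ahat G (x + y)) =
        LinearMap.trace ℂ _ (RE k Γ₁ B hB x * RE k Γ₁ (conv C G) (conv_prof hC hG) x) -
        LinearMap.trace ℂ _ (RE k Γ₂ B hB x * RE k Γ₂ (conv C G) (conv_prof hC hG) x) := by
      rw [e1, e2, e3]
    rw [e4]
    exact norm_sub_le _ _
  · intro A B C G hA hB hC hG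
    have s1 := (spec_side (k := k) h.k1 hD₁ hA (conv_prof hB (conv_prof hC hG))).2
    have s2 := (spec_side (k := k) h.k2 hD₂ hA (conv_prof hB (conv_prof hC hG))).2
    rw [geo_eq h hk hD₁ hD₂ (conv_prof hA (conv_prof hB (conv_prof hC hG)))] at s1
    have s3 := s1.sub s2
    rw [sub_self] at s3
    rw [← s3.tsum_eq]
    apply tsum_congr
    intro x
    have e1 := tr_RE4 (k := k) h.k1 x hA hB hC hG
    have e2 := tr_RE4 (k := k) h.k2 x hA hB hC hG
    have e3 := hdiff x (fun z => ahat A z * ahat B z * ahat C z * ahat G z)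
    rw [e1, e2, e3]

theorem maxGen_scalar {M : Type*} [AddCommGroup M] [Module ℂ M] (f : Module.End ℂ M) (c : ℂ)
    (hf : ∀ v, f v = c • v) (x : ℂ) :
    Module.finrank ℂ (Module.End.maxGenEigenspace f x) =
      if x = c then Module.finrank ℂ M else 0 := by
  have hf' : f = c • (1 : Module.End ℂ M) := by
    ext v
    rw [hf, LinearMap.smul_apply, Module.End.one_apply]
  by_cases hx : x = c
  · rw [if_pos hx, hx, hf']
    have : Module.End.maxGenEigenspace (c • (1 : Module.End ℂ M)) c = ⊤ := by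
      rw [eq_top_iff]
      intro v _
      rw [Module.End.mem_maxGenEigenspace]
      refine ⟨1, ?_⟩
      rw [pow_one, sub_self]
      rfl
    rw [this, finrank_top]
  · rw [if_neg hx, hf']
    have : Module.End.maxGenEigenspace (c • (1 : Module.End ℂ M)) x = ⊥ := by
      rw [eq_bot_iff]
      intro v hv
      rw [Module.End.mem_maxGenEigenspace] at hv
      obtain ⟨n, hn⟩ := hv
      rw [← sub_smul, smul_pow, one_pow] at hn
      have h2 : (c - x) ^ n ≠ 0 := pow_ne_zero _ (sub_ne_zero.2 (Ne.symm hx))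
      rw [LinearMap.smul_apply, Module.End.one_apply] at hn
      exact (smul_eq_zero.1 hn).resolve_left h2
    rw [this, finrank_bot]

/-- Multiplicities of `P` for `k = 0`. -/
theorem mP_zero (Γ : Subgroup (Mat 3)ˣ) (lam : ℝ) (x : ℂ) :
    mP 0 Γ lam x = if x = (lam : ℂ) then Module.finrank ℂ (EL 0 Γ lam) else 0 := by
  refine maxGen_scalar (M := EL 0 Γ lam) (PE 0 Γ lam) lam (fun F => ?_) x
  apply Subtype.ext
  have h1 : ((PE 0 Γ lam) F : Sect (tau 0) Γ) = PL 0 Γ F.1 := rfl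
  rw [h1, PL_zero]
  exact Module.End.mem_eigenspace_iff.1 F.2

theorem mult0 {Γ₁ Γ₂ : Subgroup (Mat 3)ˣ} (h : Pair Γ₁ Γ₂) (lam : ℝ) :
    Module.finrank ℂ (EL 0 Γ₁ lam) = Module.finrank ℂ (EL 0 Γ₂ lam) := by
  refine sep_general h (by norm_num) 0 (fun lam f => ?_) lam
  have key : ∀ Γ : Subgroup (Mat 3)ˣ, (∑ᶠ x : ℂ, (mP 0 Γ lam x : ℂ) * f x) =
      (Module.finrank ℂ (EL 0 Γ lam) : ℂ) * f lam := by
    intro Γ
    rw [finsum_eq_single _ (lam : ℂ)]
    · rw [mP_zero, if_pos rfl]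
    · intro x hx
      rw [mP_zero, if_neg hx]
      simp
  rw [key, key]
  push_cast
  rw [add_zero]
  ring

end

end Pool.Agent.Work.MP_14c213_gt
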