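import Pool.Agent.Work.MP_14c213_gt.A.RAM

/-!
RA commutes with P (see the header of RAM).
-/

namespace Pool.Agent.Work.MP_14c213_gt

open Matrix MeasureTheory
open scoped Matrix ContDiff Matrix.Norms.Elementwise

noncomputable section

/-- matrix times vector as a bilinear map -/
def rapB (k : ℕ) : Matrix (Ix k) (Ix k) ℂ →L[ℝ] (Ix k → ℂ) →L[ℝ] (Ix k → ℂ) :=
  LinearMap.toContinuousLinearMap
    { toFun := fun M => linMv M
      map_add' := fun M N => by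
        ext v a
        simp [linMv_apply, Matrix.add_mulVec]
      map_smul' := fun c M => by
        ext v a
        simp [linMv_apply, Matrix.smul_mulVec] }

theorem rapB_apply {k : ℕ} (M : Matrix (Ix k) (Ix k) ℂ) (v : Ix k → ℂ) :
    rapB k M v = M *ᵥ v := rfl

/-- the flat picture -/
def rapFl (k : ℕ) (F : M2 → Ix k → ℂ) : M2 → Ix k → ℂ := fun g => rho k (Phi g) *ᵥ F g

theorem rap_rho_smooth (k : ℕ) : ContDiffOn ℝ ∞ (fun g => rho k (Phi g)) GLo :=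
  (rho_smooth k).comp_contDiffOn Phi_smooth

theorem rapFl_smooth {k : ℕ} {F : M2 → Ix k → ℂ} (hF : ContDiffOn ℝ ∞ F GLo) :
    ContDiffOn ℝ ∞ (rapFl k F) GLo :=
  ((rapB k).contDiff.comp_contDiffOn (rap_rho_smooth k)).clm_apply hF

theorem rap_bst_GLo (i : Fin 3) (t : ℝ) : bst i t ∈ GLo := by
  show (bst i t).det ≠ 0
  rw [bst_det]
  exact one_ne_zero

/-- derivative along `c t = g * bst i t` -/
theorem rap_curve {W : Type} [NormedAddCommGroup W] [NormedSpace ℝ W] {G : M2 → W}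
    (hG : ContDiffOn ℝ ∞ G GLo) (i : Fin 3) {g : M2} (hg : g ∈ GLo) :
    HasDerivAt (fun s => G (g * bst i s)) (E (eX i) G g) 0 := by
  have h1 : HasDerivAt (fun s => g * bst i s) (g * bst i 0 * eX i) 0 := by
    have := (cgMk (LinearMap.mulLeft ℝ g)).hasFDerivAt.comp_hasDerivAt (0 : ℝ) (bst_deriv i 0)
    rw [mul_assoc]
    exact this
  have h2 := E_curve hG h1 (GLo_mul hg (rap_bst_GLo i 0))
  rw [bst_zero, mul_one] at h2
  exact h2

theorem rap_E_rho (k : ℕ) (i : Fin 3) {g : M2} (hg : g ∈ GLo) :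
    E (eX i) (fun g => rho k (Phi g)) g = rho k (Phi g) * drho k (bY i) := by
  have h1 := rap_curve (rap_rho_smooth k) i hg
  have h2 := rho_deriv k (Phi_bst_deriv i 0)
  have h3 : HasDerivAt (fun s => rho k (Phi g) * rho k (Phi (bst i s)))
      (rho k (Phi g) * (rho k (Phi (bst i 0)) * drho k (bY i))) 0 := by
    have := (LinearMap.toContinuousLinearMap
      (LinearMap.mulLeft ℝ (rho k (Phi g)))).hasFDerivAt.comp_hasDerivAt (0 : ℝ) h2
    exact this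
  have h4 : (fun s => rho k (Phi (g * bst i s))) =
      fun s => rho k (Phi g) * rho k (Phi (bst i s)) := by
    funext s
    rw [Phi_mul hg (rap_bst_GLo i s), rho_mul]
  rw [h4] at h1
  rw [h1.unique h3, bst_zero, Phi_one, rho_one, one_mul]

theorem rap_E {k : ℕ} {F : M2 → Ix k → ℂ} (hF : ContDiffOn ℝ ∞ F GLo) (i : Fin 3) {g : M2}
    (hg : g ∈ GLo) : E (eX i) (rapFl k F) g = rapFl k (Dfl k i F) g := by
  have h1 := E_bilin (rapB k) (rap_rho_smooth k) hF (eX i) hg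
  rw [rap_E_rho k i hg] at h1
  have h2 : E (eX i) (rapFl k F) g =
      (rho k (Phi g) * drho k (bY i)) *ᵥ F g + rho k (Phi g) *ᵥ E (eX i) F g := h1
  rw [h2]
  unfold rapFl Dfl
  rw [Matrix.mulVec_add, Matrix.mulVec_mulVec, add_comm]

theorem rap_Dfl_smooth {k : ℕ} {F : M2 → Ix k → ℂ} (hF : ContDiffOn ℝ ∞ F GLo) (i : Fin 3) :
    ContDiffOn ℝ ∞ (Dfl k i F) GLo :=
  (E_smooth hF (eX i)).add ((linMv (drho k (bY i))).contDiff.comp_contDiffOn hF)

theorem rap_E2 {k : ℕ} {F : M2 → Ix k → ℂ} (hF : ContDiffOn ℝ ∞ F GLo) (i : Fin 3) {g : M2}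
    (hg : g ∈ GLo) : E (eX i) (E (eX i) (rapFl k F)) g = rapFl k (Dfl k i (Dfl k i F)) g := by
  rw [E_congr (fun x hx => rap_E hF i hx) (eX i) hg, rap_E (rap_Dfl_smooth hF i) i hg]

theorem rap_unit {k : ℕ} {Γ : Subgroup (Mat 3)ˣ} {F : M2 → Ix k → ℂ} (hF : F ∈ Sect (tau k) Γ)
    {u : M2} (hu : u ∈ Matrix.unitaryGroup (Fin 2) ℂ) {g : M2} (hg : g ∈ GLo) :
    rapFl k F (g * u) = rapFl k F g := by
  unfold rapFl
  rw [Phi_mul hg (ram_unitary_GLo hu), hF.2.2.2.2 u hu g hg, Matrix.mulVec_mulVec]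
  unfold tau
  rw [← rho_mul, (Phi_unitary hu).1, mul_assoc, ← rot_mul,
    (Matrix.mem_orthogonalGroup_iff (Fin 3) ℝ).1 (Phi_unitary hu).2.1, rot_one, mul_one]

theorem rap_E_rot {W : Type} [NormedAddCommGroup W] [NormedSpace ℝ W] {G : M2 → W}
    (hG : ContDiffOn ℝ ∞ G GLo)
    (hu : ∀ u ∈ Matrix.unitaryGroup (Fin 2) ℂ, ∀ g ∈ GLo, G (g * u) = G g) (i : Fin 3) {g : M2}
    (hg : g ∈ GLo) : E (rX i) G g = 0 := by
  have h1 : HasDerivAt (fun s => g * rt i s) (g * rt i 0 * rX i) 0 := by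
    have := (cgMk (LinearMap.mulLeft ℝ g)).hasFDerivAt.comp_hasDerivAt (0 : ℝ) (rt_deriv i 0)
    rw [mul_assoc]
    exact this
  have h2 := E_curve hG h1 (GLo_mul hg (ram_unitary_GLo (rt_unitary i 0)))
  rw [rt_zero, mul_one] at h2
  have h3 : (fun s => G (g * rt i s)) = fun _ => G g := by
    funext s
    exact hu _ (rt_unitary i s) g hg
  rw [h3] at h2
  exact h2.unique (hasDerivAt_const 0 (G g))

theorem rap_Cas {W : Type} [NormedAddCommGroup W] [NormedSpace ℝ W] {G : M2 → W}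
    (hG : ContDiffOn ℝ ∞ G GLo)
    (hu : ∀ u ∈ Matrix.unitaryGroup (Fin 2) ℂ, ∀ g ∈ GLo, G (g * u) = G g) {g : M2}
    (hg : g ∈ GLo) : Cas G g = -∑ i, E (eX i) (E (eX i) G) g := by
  have h1 : ∀ i, E (rX i) (E (rX i) G) g = 0 := by
    intro i
    rw [E_congr (G := fun _ => (0 : W)) (fun x hx => rap_E_rot hG hu i hx) (rX i) hg]
    unfold E
    simp
  unfold Cas
  simp only [h1, Finset.sum_const_zero, add_zero]

theorem rap_Cas_fl {k : ℕ} {Γ : Subgroup (Mat 3)ˣ} {F : M2 → Ix k → ℂ} (hF : F ∈ Sect (tau k) Γ)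
    {g : M2} (hg : g ∈ GLo) : Cas (rapFl k F) g = rapFl k (Pop k F) g := by
  rw [rap_Cas (rapFl_smooth hF.2.1) (fun u hu x hx => rap_unit hF hu hx) hg]
  simp only [rap_E2 hF.2.1 _ hg]
  unfold rapFl Pop
  rw [Matrix.mulVec_neg, Matrix.mulVec_sum]

/-- the operator in the flat picture -/
theorem rap_flat {k : ℕ} {A : ℝ → ℝ} (hA : Prof A) {K : Set UH} (hK : IsCompact K) (hKs : K ⊆ UHs)
    (h0 : ∀ q ∈ UHs, q ∉ K → A (2 * SS q 0 0) = 0) {F : M2 → Ix k → ℂ}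
    (hF : ContDiffOn ℝ ∞ F GLo) {g : M2} (hg : g ∈ GLo) :
    rapFl k (RA k A F) g = pmT mu K (ramB (Ix k → ℂ)) (fun q => A (2 * SS q 0 0))
      (fun p => rapFl k F (p.1 * sec p.2)) g := by
  have h1 : rapFl k (RA k A F) g = rho k (Phi g) *ᵥ RA k A F g := rfl
  rw [h1, ram_eq hK hKs h0 F hg]
  unfold pmT
  have h2 := pm_int (B := ramB (Ix k → ℂ)) (ram_PM hA hK hKs) (ramPhi_smooth hF).continuousOn hg
  have h3 := (linMv (rho k (Phi g))).integral_comp_comm h2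
  simp only [linMv_apply] at h3
  rw [← h3]
  refine setIntegral_congr_fun hK.measurableSet fun q hq => ?_
  simp only [ramB_apply, ramPhi, rapFl]
  have hs := sec_mem (hKs hq)
  rw [Matrix.mulVec_smul, Matrix.mulVec_mulVec, ← rho_mul, Phi_mul hg hs]
  rfl

theorem RL_P (k : ℕ) (Γ : Subgroup (Mat 3)ˣ) (A : ℝ → ℝ) (hA : Prof A) :
    Commute (RL k Γ A hA) (PL k Γ) := by
  apply LinearMap.ext
  intro F
  refine lin_sect_ext fun g hg => ?_
  show RA k A (Pop k F.1) g = Pop k (RA k A F.1) g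
  obtain ⟨K, hK, hKs, h0⟩ := ram_cpt hA
  have hPM := ram_PM hA hK hKs
  have hfs := rapFl_smooth F.2.2.1
  have e1 : rapFl k (Pop k (RA k A F.1)) g = Cas (rapFl k (RA k A F.1)) g :=
    (rap_Cas_fl (RA_mem hA F.2) hg).symm
  have e2 : Cas (rapFl k (RA k A F.1)) g = rapFl k (RA k A (Pop k F.1)) g := by
    rw [lin_cas_congr (fun x hx => rap_flat hA hK hKs h0 F.2.2.1 hx) hg,
      ram_Cas_pm hPM (ram_mul_smooth hfs) hg,
      rap_flat hA hK hKs h0 (Pop_mem F.2).2.1 hg]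
    unfold pmT
    refine setIntegral_congr_fun hK.measurableSet fun q hq => ?_
    have hs := sec_mem (hKs hq)
    simp only
    rw [Cas_right hfs hg hs, rap_Cas_fl F.2 (GLo_mul hg hs)]
  have e3 : rho k (Phi g) *ᵥ RA k A (Pop k F.1) g = rho k (Phi g) *ᵥ Pop k (RA k A F.1) g :=
    (e1.trans e2).symm
  have e4 := congrArg (fun v => rho k (Phi g)⁻¹ *ᵥ v) e3
  simp only [Matrix.mulVec_mulVec, ← rho_mul, (Frames_inv (Phi_SO hg).1).2.2.2.2, rho_one,
    Matrix.one_mulVec] at e4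
  exact e4

end

end Pool.Agent.Work.MP_14c213_gt
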