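import Pool.Agent.Work.MP_14c213_gt.A.Spec
import Pool.Agent.Work.MP_14c213_gt.A.AdjM
import Pool.Agent.Work.MP_14c213_gt.A.TotM
import Pool.Agent.Work.MP_14c213_gt.A.FinMul
import Pool.Agent.Work.MP_14c213_gt.A.ConvM
import Pool.Agent.Work.MP_14c213_gt.A.RAP

/-!
The spectral side: Spec applied to H = Hk k D, ι = emb, C = CasL, 𝒯 = {T_A, T_A* : A smooth profile},
T₁ = T_A, T₂ = T_B (A, B continuous profiles), hasKer_trace, and ker_conv:
∫_D∫_D tr(kD A p q · kD B q p) = ∫_D tr ker(conv A B)(SS p)(SS p).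
-/

namespace Pool.Agent.Work.MP_14c213_gt

open Matrix MeasureTheory
open scoped Matrix ContDiff Matrix.Norms.Elementwise

noncomputable section

/-- RL maps the eigenspaces of Cas to themselves. -/
theorem RL_mapsTo (k : ℕ) (Γ : Subgroup (Mat 3)ˣ) (A : ℝ → ℝ) (hA : Prof A) (lam : ℝ) :
    ∀ F ∈ EL k Γ lam, RL k Γ A hA F ∈ EL k Γ lam := by
  intro F hF
  have hF' : CasL k Γ F = (lam : ℂ) • F := Module.End.mem_eigenspace_iff.1 hF
  refine Module.End.mem_eigenspace_iff.2 ?_
  have h1 : CasL k Γ (RL k Γ A hA F) = RL k Γ A hA (CasL k Γ F) :=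
    (congrArg (fun T : Module.End ℂ (Sect (tau k) Γ) => T F) (RL_Cas k Γ A hA).eq).symm
  rw [h1, hF', map_smul]

/-- RL on an eigenspace of Cas. -/
def RE (k : ℕ) (Γ : Subgroup (Mat 3)ˣ) (A : ℝ → ℝ) (hA : Prof A) (lam : ℝ) :
    Module.End ℂ (EL k Γ lam) :=
  (RL k Γ A hA).restrict (RL_mapsTo k Γ A hA lam)

theorem specM_ker_star {J : Type} [Fintype J] {K : UH → UH → Matrix J J ℂ} (hK : Ker K) :
    Ker fun x y => (K y x)ᴴ := by
  obtain ⟨M, hM⟩ := hK.bdd
  refine ⟨fun a b => ?_, M, fun x y a b => ?_⟩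
  · have h1 : Measurable fun p : UH × UH => K p.2 p.1 b a :=
      (hK.meas b a).comp measurable_swap
    exact (Complex.continuous_conj.measurable).comp h1
  · rw [Matrix.conjTranspose_apply]
    rw [norm_star]
    exact hM y x b a

theorem spec_side {k : ℕ} {Γ : Subgroup (Mat 3)ˣ} {D : Set UH} (h : Klein Γ) (hD : FD Γ D)
    {A B : ℝ → ℝ} (hA : Prof A) (hB : Prof B) :
    Summable (fun lam : ℝ => ‖LinearMap.trace ℂ _ (RE k Γ A hA lam * RE k Γ B hB lam)‖) ∧
    HasSum (fun lam : ℝ => LinearMap.trace ℂ _ (RE k Γ A hA lam * RE k Γ B hB lam))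
      (∫ p in D, (ker k Γ (conv A B) (SS p) (SS p)).trace ∂mu) := by
  have hfinm : IsFiniteMeasure (mu.restrict D) :=
    ⟨by rw [Measure.restrict_apply_univ]; exact (FD_vol h hD).2⟩
  obtain ⟨ι, hinj, hι, hip⟩ := emb_exists (k := k) h hD
  obtain ⟨TA, hTA⟩ := hasKer_exists (mu.restrict D) (kD_ker (k := k) h hD hA)
  obtain ⟨TB, hTB⟩ := hasKer_exists (mu.restrict D) (kD_ker (k := k) h hD hB)
  set 𝒯 : Set (Hk k D →L[ℂ] Hk k D) := {T | ∃ G : ℝ → ℝ, Prof G ∧ ContDiff ℝ ∞ G ∧
    (HasKer (mu.restrict D) T (kD k Γ D G) ∨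
      HasKer (mu.restrict D) (ContinuousLinearMap.adjoint T) (kD k Γ D G))} with h𝒯
  have hcomp : ∀ T ∈ 𝒯, IsCompactOperator T := by
    rintro T ⟨G, hG, hGs, hT | hT⟩
    · exact hasKer_compact (mu.restrict D) (kD_ker (k := k) h hD hG) hT
    · have h1 := hasKer_adjoint (mu.restrict D) (kD_ker (k := k) h hD hG) hT
      rw [ContinuousLinearMap.adjoint_adjoint] at h1
      exact hasKer_compact (mu.restrict D) (specM_ker_star (kD_ker (k := k) h hD hG)) h1
  have hadj : ∀ T ∈ 𝒯, ContinuousLinearMap.adjoint T ∈ 𝒯 := by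
    rintro T ⟨G, hG, hGs, hT⟩
    refine ⟨G, hG, hGs, ?_⟩
    rw [ContinuousLinearMap.adjoint_adjoint]
    exact hT.symm
  have hran : ∀ T ∈ 𝒯, ∀ f, ∃ F, ι F = T f := by
    rintro T ⟨G, hG, hGs, hT | hT⟩ f
    · exact TA_smooth h hD hG hGs hι hT f
    · have h1 := TA_adj_smooth h hD hG hGs hι hT f
      rwa [ContinuousLinearMap.adjoint_adjoint] at h1
  have hcom : ∀ T ∈ 𝒯, ∀ F G, ι G = T (ι F) → ι (CasL k Γ G) = T (ι (CasL k Γ F)) := by
    rintro T ⟨G, hG, hGs, hT | hT⟩ F F' hF'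
    · exact TA_Cas h hD hG hinj hι hT F F' hF'
    · have h1 := TA_adj_Cas h hD hG hinj hι hT F F'
      rw [ContinuousLinearMap.adjoint_adjoint] at h1
      exact h1 hF'
  have htot : ∀ f, (∀ T ∈ 𝒯, T f = 0) → f = 0 := by
    intro f hf
    exact TA_total h hD f (fun G hG hGs T hT => hf T ⟨G, hG, hGs, Or.inl hT⟩)
  have hC : ∀ F G, inner ℂ (ι (CasL k Γ F)) (ι G) = inner ℂ (ι F) (ι (CasL k Γ G)) := by
    intro F G
    rw [hip, hip, Cas_symm h hD]
  have hR : ∀ F, ι ((RL k Γ A hA * RL k Γ B hB) F) = TA (TB (ι F)) := by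
    intro F
    rw [TA_emb h hD hB hι hTB, TA_emb h hD hA hι hTA]
    rfl
  have hRC : Commute (RL k Γ A hA * RL k Γ B hB) (CasL k Γ) :=
    (RL_Cas k Γ A hA).mul_left (RL_Cas k Γ B hB)
  have hint : ∫ x in D, ∫ y in D, (kD k Γ D A x y * kD k Γ D B y x).trace ∂mu ∂mu =
      ∫ p in D, (ker k Γ (conv A B) (SS p) (SS p)).trace ∂mu := by
    apply setIntegral_congr_fun hD.meas
    intro x hx
    beta_reduce
    have hxU := hD.sub hx
    have hKA := kD_ker (k := k) h hD hA
    have hKB := kD_ker (k := k) h hD hB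
    obtain ⟨MA, hMA⟩ := hKA.bdd
    obtain ⟨MB, hMB⟩ := hKB.bdd
    have hinteg : ∀ a : Ix k, Integrable (fun y => (kD k Γ D A x y * kD k Γ D B y x) a a)
        (mu.restrict D) := by
      intro a
      have e : (fun y => (kD k Γ D A x y * kD k Γ D B y x) a a) =
          fun y => ∑ b, kD k Γ D A x y a b * kD k Γ D B y x b a := by
        funext y
        rw [Matrix.mul_apply]
      rw [e]
      apply integrable_finsetSum
      intro b _
      refine Integrable.of_bound (C := MA * MB) ?_ (Filter.Eventually.of_forall fun y => ?_)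
      · apply Measurable.aestronglyMeasurable
        have m1 : Measurable fun y => kD k Γ D A x y a b :=
          (hKA.meas a b).comp (measurable_const.prodMk measurable_id)
        have m2 : Measurable fun y => kD k Γ D B y x b a :=
          (hKB.meas b a).comp (measurable_id.prodMk measurable_const)
        exact m1.mul m2
      · rw [norm_mul]
        exact mul_le_mul (hMA x y a b) (hMB y x b a) (norm_nonneg _)
          (le_trans (norm_nonneg _) (hMA x y a b))
    calc ∫ y in D, (kD k Γ D A x y * kD k Γ D B y x).trace ∂mu =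
        ∑ a, ∫ y in D, (kD k Γ D A x y * kD k Γ D B y x) a a ∂mu := by
          rw [← integral_finsetSum _ (fun a _ => hinteg a)]
          rfl
      _ = ∑ a, ker k Γ (conv A B) (SS x) (SS x) a a := by
          apply Finset.sum_congr rfl
          intro a _
          rw [← ker_conv h hD hA hB hxU hxU a a]
          apply setIntegral_congr_fun hD.meas
          intro y hy
          beta_reduce
          unfold kD
          rw [if_pos ⟨hx, hy⟩, if_pos ⟨hy, hx⟩]
      _ = _ := rfl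
  have hmain := spectral ι hinj (CasL k Γ) hC 𝒯 hcomp hadj hran hcom htot
    (fun lam => EL_fin h k lam) TA TB (RL k Γ A hA * RL k Γ B hB) hR hRC
    (∫ p in D, (ker k Γ (conv A B) (SS p) (SS p)).trace ∂mu) (by
      intro κ b
      have h1 := hasKer_trace (mu.restrict D) (kD_ker (k := k) h hD hA)
        (kD_ker (k := k) h hD hB) hTA hTB b
      rw [hint] at h1
      exact h1)
  have htr : ∀ lam : ℝ, LinearMap.trace ℂ _ (RE k Γ A hA lam * RE k Γ B hB lam) =
      LinearMap.trace ℂ (Module.End.eigenspace (CasL k Γ) (lam : ℂ))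
      ((RL k Γ A hA * RL k Γ B hB).restrict
        (Module.End.mapsTo_genEigenspace_of_comm hRC.symm (lam : ℂ) 1)) := by
    intro lam
    rfl
  simp_rw [htr]
  exact hmain

end

end Pool.Agent.Work.MP_14c213_gt
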