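import Pool.Agent.Work.MP_14c213_gt.A.EigM
import Pool.Agent.Work.MP_14c213_gt.A.RAP
import Pool.Agent.Work.MP_14c213_gt.A.SpecM
import Pool.Agent.Work.MP_14c213_gt.A.FinMul

/-!
Trace of products of RE on an eigenspace W = EL k Γ lam: generalised eigenspaces of PE. Each RE
commutes with PE; RE(conv B C) = RE B * RE C (RL_conv); on the generalised x-eigenspace the product R
of RE's has the only eigenvalue Â(x)B̂(x)Ĉ(x) (an eigenspace of R restricted there is P-stable, contains
a P-eigenvector, RL_eig).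
-/

namespace Pool.Agent.Work.MP_14c213_gt

open Matrix MeasureTheory
open scoped Matrix ContDiff Matrix.Norms.Elementwise

noncomputable section

/-- Multiplicity of the eigenvalue `x` of `P` on an eigenspace of Cas. -/
def mP (k : ℕ) (Γ : Subgroup (Mat 3)ˣ) (lam : ℝ) (x : ℂ) : ℕ :=
  Module.finrank ℂ (Module.End.maxGenEigenspace (M := EL k Γ lam) (R := ℂ) (PE k Γ lam) x)

/-- An endomorphism of a finite dimensional complex space with a single eigenvalue. -/
theorem TrEig_single {W : Type*} [AddCommGroup W] [Module ℂ W] [FiniteDimensional ℂ W]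
    (R : Module.End ℂ W) (c : ℂ) (h : ∀ μ, R.HasEigenvalue μ → μ = c) :
    LinearMap.trace ℂ W R = (Module.finrank ℂ W : ℂ) * c := by
  have hs : (LinearMap.charpoly R).Splits := IsAlgClosed.splits _
  rw [Module.End.trace_eq_sum_roots_charpoly_of_splits hs]
  have hall : ∀ μ ∈ (LinearMap.charpoly R).roots, μ = c := by
    intro μ hμ
    apply h
    rw [Module.End.hasEigenvalue_iff_isRoot_charpoly]
    exact Polynomial.isRoot_of_mem_roots hμ
  have hrep := Multiset.eq_replicate_of_mem hall
  have hcard : Multiset.card (LinearMap.charpoly R).roots = Module.finrank ℂ W := by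
    rw [← LinearMap.charpoly_natDegree R]
    exact (Polynomial.splits_iff_card_roots.mp hs)
  rw [hrep, hcard, Multiset.sum_replicate, nsmul_eq_mul]

theorem TrEig_key {V : Type*} [AddCommGroup V] [Module ℂ V] [FiniteDimensional ℂ V]
    (P R : Module.End ℂ V) (hc : Commute P R) (r : ℂ → ℂ)
    (hr : ∀ x v, P v = x • v → R v = r x • v) :
    LinearMap.trace ℂ V R =
      ∑ᶠ x : ℂ, (Module.finrank ℂ (P.maxGenEigenspace x) : ℂ) * r x := by
  classical
  have hds := DirectSum.isInternal_submodule_of_iSupIndep_of_iSup_eq_top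
    P.independent_maxGenEigenspace (Module.End.iSup_maxGenEigenspace_eq_top P)
  have h_fin : {μ | P.maxGenEigenspace μ ≠ ⊥}.Finite :=
    WellFoundedGT.finite_ne_bot_of_iSupIndep P.independent_maxGenEigenspace
  have hm := fun μ => Module.End.mapsTo_maxGenEigenspace_of_comm hc μ
  rw [LinearMap.trace_eq_sum_trace_restrict' hds h_fin hm]
  rw [finsum_eq_sum_of_support_subset (s := h_fin.toFinset)]
  · apply Finset.sum_congr rfl
    intro x _
    apply TrEig_single
    intro μ hμ
    -- the eigenspace of the restriction is stable under P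
    set W := P.maxGenEigenspace x with hW
    set R' : Module.End ℂ W := R.restrict (hm x) with hR'
    have hmP : Set.MapsTo P (W : Set V) W :=
      Module.End.mapsTo_maxGenEigenspace_of_comm (Commute.refl P) x
    set P' : Module.End ℂ W := P.restrict hmP with hP'
    have hcomm : Commute R' P' := by
      show R' * P' = P' * R'
      apply LinearMap.ext
      intro v
      have := congrArg (fun T : Module.End ℂ V => T (v : V)) hc.eq
      simp only [Module.End.mul_apply] at this
      exact Subtype.ext this.symm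
    have hst : Set.MapsTo P' (R'.eigenspace μ : Set W) (R'.eigenspace μ) :=
      Module.End.mapsTo_genEigenspace_of_comm hcomm μ 1
    have hne : R'.eigenspace μ ≠ ⊥ := hμ
    have : Nontrivial (R'.eigenspace μ) := Submodule.nontrivial_iff_ne_bot.mpr hne
    obtain ⟨y, hy⟩ := Module.End.exists_eigenvalue (P'.restrict hst)
    obtain ⟨v, hv⟩ := hy.exists_hasEigenvector
    have hv0 : v ≠ 0 := hv.2
    have hPv : P' (v : W) = y • (v : W) := by
      exact congrArg Subtype.val hv.apply_eq_smul
    have hRv : R' (v : W) = μ • (v : W) := by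
      have := v.2
      rwa [Module.End.mem_eigenspace_iff] at this
    have hv1 : ((v : W) : V) ≠ 0 := by
      intro h
      apply hv0
      exact Subtype.ext (Subtype.ext h)
    have hPV : P ((v : W) : V) = y • ((v : W) : V) := by
      exact congrArg Subtype.val hPv
    have hRV : R ((v : W) : V) = μ • ((v : W) : V) := by
      exact congrArg Subtype.val hRv
    -- y = x
    have hyx : y = x := by
      by_contra hyx
      have hd := P.disjoint_genEigenspace hyx ⊤ ⊤
      have h1 : ((v : W) : V) ∈ P.maxGenEigenspace y := by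
        apply Module.End.eigenspace_le_maxGenEigenspace
        rw [Module.End.mem_eigenspace_iff]
        exact hPV
      have h2 : ((v : W) : V) ∈ P.maxGenEigenspace x := (v : W).2
      exact hv1 (by
        have := hd.le_bot ⟨h1, h2⟩
        simpa using this)
    have h3 := hr y _ hPV
    rw [hRV] at h3
    have h4 : (μ - r y) • ((v : W) : V) = 0 := by
      rw [sub_smul, h3, sub_self]
    rcases smul_eq_zero.mp h4 with h5 | h5
    · rw [← hyx]; exact sub_eq_zero.mp h5
    · exact absurd h5 hv1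
  · intro x hx
    simp only [Set.Finite.coe_toFinset, Set.mem_ofPred_eq]
    intro hb
    apply hx
    simp [hb]

theorem TrEig_supp {V : Type*} [AddCommGroup V] [Module ℂ V] [FiniteDimensional ℂ V]
    (P : Module.End ℂ V) : {x | Module.finrank ℂ (P.maxGenEigenspace x) ≠ 0}.Finite ∧
      ∑ᶠ x : ℂ, Module.finrank ℂ (P.maxGenEigenspace x) = Module.finrank ℂ V := by
  have hfin : {x | Module.finrank ℂ (P.maxGenEigenspace x) ≠ 0}.Finite := by
    have h_fin : {μ | P.maxGenEigenspace μ ≠ ⊥}.Finite :=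
      WellFoundedGT.finite_ne_bot_of_iSupIndep P.independent_maxGenEigenspace
    apply h_fin.subset
    intro x hx hb
    apply hx
    rw [hb]
    exact finrank_bot ℂ V
  refine ⟨hfin, ?_⟩
  have h1 := TrEig_key P 1 (Commute.one_right _) (fun _ => 1) (fun x v _ => by simp)
  rw [LinearMap.trace_one] at h1
  have h3 : ((∑ᶠ x : ℂ, Module.finrank ℂ (P.maxGenEigenspace x) : ℕ) : ℂ) =
      ∑ᶠ x : ℂ, (Module.finrank ℂ (P.maxGenEigenspace x) : ℂ) * 1 := by
    rw [finsum_eq_sum_of_support_subset (s := hfin.toFinset) _ (by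
        intro x hx
        simpa [Function.mem_support] using hx),
      finsum_eq_sum_of_support_subset (s := hfin.toFinset) _ (by
        intro x hx
        simpa [Function.mem_support] using hx)]
    push_cast
    simp
  have h4 : ((∑ᶠ x : ℂ, Module.finrank ℂ (P.maxGenEigenspace x) : ℕ) : ℂ) =
      (Module.finrank ℂ V : ℂ) := by
    rw [h3, h1]
  exact_mod_cast h4

theorem TrEig_conv (k : ℕ) (Γ : Subgroup (Mat 3)ˣ) (lam : ℝ) {B C : ℝ → ℝ}
    (hB : Prof B) (hC : Prof C) :
    RE k Γ (conv B C) (conv_prof hB hC) lam = RE k Γ B hB lam * RE k Γ C hC lam := by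
  ext v
  have := congrArg (fun T : Module.End ℂ (Sect (tau k) Γ) => T (v : Sect (tau k) Γ))
    (RL_conv k Γ hB hC)
  simp only [Module.End.mul_apply] at this
  simp only [RE, Module.End.mul_apply, LinearMap.restrict_apply]
  rw [this]

theorem TrEig_comm (k : ℕ) (Γ : Subgroup (Mat 3)ˣ) (lam : ℝ) {A : ℝ → ℝ} (hA : Prof A) :
    Commute (PE k Γ lam) (RE k Γ A hA lam) := by
  show PE k Γ lam * RE k Γ A hA lam = RE k Γ A hA lam * PE k Γ lam
  ext v
  have := congrArg (fun T : Module.End ℂ (Sect (tau k) Γ) => T (v : Sect (tau k) Γ))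
    (RL_P k Γ A hA).eq
  simp only [Module.End.mul_apply] at this
  simp only [RE, PE, Module.End.mul_apply, LinearMap.restrict_apply]
  rw [this]

theorem TrEig_eig {k : ℕ} {Γ : Subgroup (Mat 3)ˣ} {lam : ℝ} {A : ℝ → ℝ} (hA : Prof A)
    {x : ℂ} {v : EL k Γ lam} (hv : PE k Γ lam v = x • v) :
    RE k Γ A hA lam v = ahat A x • v := by
  have h1 : PL k Γ (v : Sect (tau k) Γ) = x • (v : Sect (tau k) Γ) := by
    have := congrArg Subtype.val hv
    simpa [PE, LinearMap.restrict_apply] using this
  have h2 := RL_eig h1 hA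
  apply Subtype.ext
  simpa [RE, LinearMap.restrict_apply] using h2

theorem tr_RE3 {k : ℕ} {Γ : Subgroup (Mat 3)ˣ} (h : Klein Γ) (lam : ℝ) {A B C : ℝ → ℝ}
    (hA : Prof A) (hB : Prof B) (hC : Prof C) :
    LinearMap.trace ℂ _ (RE k Γ A hA lam * RE k Γ (conv B C) (conv_prof hB hC) lam) =
      ∑ᶠ x : ℂ, (mP k Γ lam x : ℂ) * (ahat A x * ahat B x * ahat C x) := by
  have hf := EL_fin h k lam
  rw [TrEig_conv k Γ lam hB hC]
  have hc : Commute (PE k Γ lam) (RE k Γ A hA lam * (RE k Γ B hB lam * RE k Γ C hC lam)) :=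
    (TrEig_comm k Γ lam hA).mul_right
      ((TrEig_comm k Γ lam hB).mul_right (TrEig_comm k Γ lam hC))
  have hr : ∀ (x : ℂ) (v : EL k Γ lam), PE k Γ lam v = x • v →
      (RE k Γ A hA lam * (RE k Γ B hB lam * RE k Γ C hC lam)) v =
        (ahat A x * ahat B x * ahat C x) • v := by
    intro x v hv
    rw [Module.End.mul_apply, Module.End.mul_apply, TrEig_eig hC hv, map_smul,
      TrEig_eig hB hv, map_smul, map_smul, TrEig_eig hA hv, smul_smul, smul_smul]
    congr 1
    ring
  have key := TrEig_key (V := EL k Γ lam) (PE k Γ lam) _ hc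
    (fun x => ahat A x * ahat B x * ahat C x) hr
  rw [key]
  unfold mP
  rfl

theorem tr_RE4 {k : ℕ} {Γ : Subgroup (Mat 3)ˣ} (h : Klein Γ) (lam : ℝ) {A B C G : ℝ → ℝ}
    (hA : Prof A) (hB : Prof B) (hC : Prof C) (hG : Prof G) :
    LinearMap.trace ℂ _ (RE k Γ A hA lam *
      RE k Γ (conv B (conv C G)) (conv_prof hB (conv_prof hC hG)) lam) =
      ∑ᶠ x : ℂ, (mP k Γ lam x : ℂ) * (ahat A x * ahat B x * ahat C x * ahat G x) := by
  have hf := EL_fin h k lam
  rw [TrEig_conv k Γ lam hB (conv_prof hC hG), TrEig_conv k Γ lam hC hG]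
  have hc : Commute (PE k Γ lam)
      (RE k Γ A hA lam * (RE k Γ B hB lam * (RE k Γ C hC lam * RE k Γ G hG lam))) :=
    (TrEig_comm k Γ lam hA).mul_right
      ((TrEig_comm k Γ lam hB).mul_right ((TrEig_comm k Γ lam hC).mul_right
        (TrEig_comm k Γ lam hG)))
  have hr : ∀ (x : ℂ) (v : EL k Γ lam), PE k Γ lam v = x • v →
      (RE k Γ A hA lam * (RE k Γ B hB lam * (RE k Γ C hC lam * RE k Γ G hG lam))) v =
        (ahat A x * ahat B x * ahat C x * ahat G x) • v := by
    intro x v hv
    have e1 : (RE k Γ C hC lam * RE k Γ G hG lam) v = (ahat C x * ahat G x) • v := by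
      rw [Module.End.mul_apply, TrEig_eig hG hv, map_smul, TrEig_eig hC hv, smul_smul]
      congr 1
      ring
    have e2 : (RE k Γ B hB lam * (RE k Γ C hC lam * RE k Γ G hG lam)) v =
        (ahat B x * ahat C x * ahat G x) • v := by
      rw [Module.End.mul_apply, e1, map_smul, TrEig_eig hB hv, smul_smul]
      congr 1
      ring
    rw [Module.End.mul_apply, e2, map_smul, TrEig_eig hA hv, smul_smul]
    congr 1
    ring
  have key := TrEig_key (V := EL k Γ lam) (PE k Γ lam) _ hc
    (fun x => ahat A x * ahat B x * ahat C x * ahat G x) hr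
  rw [key]
  unfold mP
  rfl

theorem mP_fin_aux (k : ℕ) (Γ : Subgroup (Mat 3)ˣ) (lam : ℝ)
    (key : {x | Module.finrank ℂ (Module.End.maxGenEigenspace (M := EL k Γ lam) (R := ℂ)
        (PE k Γ lam) x) ≠ 0}.Finite ∧
      ∑ᶠ x : ℂ, Module.finrank ℂ (Module.End.maxGenEigenspace (M := EL k Γ lam) (R := ℂ)
        (PE k Γ lam) x) = Module.finrank ℂ (EL k Γ lam)) :
    {x : ℂ | mP k Γ lam x ≠ 0}.Finite ∧
      ∑ᶠ x : ℂ, mP k Γ lam x = Module.finrank ℂ (EL k Γ lam) := by
  unfold mP
  exact key

theorem mP_fin {k : ℕ} {Γ : Subgroup (Mat 3)ˣ} (h : Klein Γ) (lam : ℝ) :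
    {x : ℂ | mP k Γ lam x ≠ 0}.Finite ∧
      ∑ᶠ x : ℂ, mP k Γ lam x = Module.finrank ℂ (EL k Γ lam) :=
  mP_fin_aux k Γ lam (@TrEig_supp (EL k Γ lam) _ _ (EL_fin h k lam) (PE k Γ lam))

end

end Pool.Agent.Work.MP_14c213_gt
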