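import Pool.Agent.Work.MP_14c213_gt.A.V1
import Pool.Agent.Work.MP_14c213_gt.A.TrEig

/-!
Multiplicities of P on EL 1 Γ lam. For lam ≠ 0: EL 1 Γ lam = Ec ⊕ E', Ec = {fn F = 0, dv F = 0} with
P = lam + 1, E' = {inc f + grad g : f, g ∈ EL 0 Γ lam} ≅ (EL 0 Γ lam)² with matrix
(λ-3, 2λ; -2, λ+1), eigenvalues (λ-1) ± 2√(1-λ). For lam = 0: Ec has codimension m0 and P (inc f) = -3 inc f.
Here w is any complex square root of 1 - lam.
-/

namespace Pool.Agent.Work.MP_14c213_gt

open Matrix MeasureTheory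
open scoped Matrix ContDiff Matrix.Norms.Elementwise

noncomputable section

namespace P1

variable {V U : Type*} [AddCommGroup V] [Module ℂ V] [FiniteDimensional ℂ V] [AddCommGroup U]
  [Module ℂ U] [FiniteDimensional ℂ U]

theorem smul_tr {M : Type*} [AddCommGroup M] [Module ℂ M] {a x : ℂ} {v : M} (h : a • v = x • v)
    (f : ℂ → ℂ) : f a • v = f x • v := by
  by_cases hv : v = 0
  · rw [hv, smul_zero, smul_zero]
  · rw [smul_left_injective ℂ hv h]

theorem LA1 (I : U →ₗ[ℂ] V) (F : V →ₗ[ℂ] U) (hFI : ∀ u, F (I u) = u) (P : Module.End ℂ V)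
    (a b : ℂ) (hP : ∀ v, P v = a • (v - I (F v)) + b • I (F v)) (f : ℂ → ℂ) :
    ∑ᶠ x : ℂ, (Module.finrank ℂ (P.maxGenEigenspace x) : ℂ) * f x =
      ((Module.finrank ℂ V : ℂ) - Module.finrank ℂ U) * f a + Module.finrank ℂ U * f b := by
  obtain ⟨R, hR⟩ : ∃ R : Module.End ℂ V, R = f a • (1 - I ∘ₗ F) + f b • (I ∘ₗ F) := ⟨_, rfl⟩
  have hRv : ∀ v, R v = f a • (v - I (F v)) + f b • I (F v) := by
    intro v
    rw [hR]
    simp
  have hc : Commute P R := by
    show P * R = R * P
    apply LinearMap.ext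
    intro v
    rw [Module.End.mul_apply, Module.End.mul_apply]
    have e1 : F (R v) = f b • F v := by
      rw [hRv]
      simp [hFI]
    have e2 : F (P v) = b • F v := by
      rw [hP]
      simp [hFI]
    rw [hP (R v), hRv (P v), e1, e2, hP v, hRv v]
    simp only [map_smul]
    module
  rw [← TrEig_key P R hc f (by
    intro x v hv
    have e2 : F (P v) = b • F v := by
      rw [hP]
      simp [hFI]
    rw [hv, map_smul] at e2
    have e3 : f b • F v = f x • F v := smul_tr e2.symm f
    have e4 : a • (v - I (F v)) = x • (v - I (F v)) := by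
      have h1 : x • v = a • (v - I (F v)) + b • I (F v) := by rw [← hv, hP]
      have h2 : b • I (F v) = x • I (F v) := by rw [← map_smul, ← e2, map_smul]
      rw [smul_sub x, h1, h2]
      abel
    have e5 := smul_tr e4 f
    rw [hRv, e5, ← map_smul I (f b), e3, map_smul, ← smul_add]
    congr 1
    abel)]
  rw [hR, map_add, map_smul, map_smul, map_sub, LinearMap.trace_one, LinearMap.trace_comp_comm' F I,
    show F ∘ₗ I = LinearMap.id from LinearMap.ext hFI, LinearMap.trace_id]
  simp only [smul_eq_mul]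
  ring

theorem LA2 (I W : U →ₗ[ℂ] V) (F G : V →ₗ[ℂ] U) (hFI : ∀ u, F (I u) = u) (hGI : ∀ u, G (I u) = 0)
    (hGW : ∀ u, G (W u) = u) (hFW : ∀ u, F (W u) = 0) (P : Module.End ℂ V)
    (a b c : ℂ) (hP : ∀ v, P v = a • (v - I (F v) - W (G v)) + b • I (F v) + c • W (G v) -
      (2 : ℂ) • W (F v)) (f : ℂ → ℂ) :
    ∑ᶠ x : ℂ, (Module.finrank ℂ (P.maxGenEigenspace x) : ℂ) * f x =
      ((Module.finrank ℂ V : ℂ) - 2 * Module.finrank ℂ U) * f a +
        Module.finrank ℂ U * (f c + f b) := by
  obtain ⟨s, hs, hs2⟩ : ∃ s : ℂ, s * (c - b) = -2 * (f c - f b) ∧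
      (c ≠ b → s = -2 * (f c - f b) / (c - b)) := by
    refine ⟨-2 * (f c - f b) / (c - b), ?_, fun _ => rfl⟩
    by_cases h : c = b
    · rw [h]
      simp
    · rw [div_mul_cancel₀]
      exact sub_ne_zero.2 h
  obtain ⟨R, hR⟩ : ∃ R : Module.End ℂ V, R = f a • (1 - I ∘ₗ F - W ∘ₗ G) + f b • (I ∘ₗ F) +
    f c • (W ∘ₗ G) + s • (W ∘ₗ F) := ⟨_, rfl⟩
  have hRv : ∀ v, R v = f a • (v - I (F v) - W (G v)) + f b • I (F v) + f c • W (G v) +
      s • W (F v) := by
    intro v
    rw [hR]
    simp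
  have eRF : ∀ v, F (R v) = f b • F v := by
    intro v
    rw [hRv]
    simp [hFI, hFW]
  have eRG : ∀ v, G (R v) = f c • G v + s • F v := by
    intro v
    rw [hRv]
    simp [hGI, hGW]
  have ePF : ∀ v, F (P v) = b • F v := by
    intro v
    rw [hP]
    simp [hFI, hFW]
  have ePG : ∀ v, G (P v) = c • G v - (2 : ℂ) • F v := by
    intro v
    rw [hP]
    simp [hGI, hGW]
  have hc : Commute P R := by
    show P * R = R * P
    apply LinearMap.ext
    intro v
    rw [Module.End.mul_apply, Module.End.mul_apply]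
    rw [hP (R v), hRv (P v), eRF, eRG, ePF, ePG, hP v, hRv v]
    simp only [map_smul, map_add, map_sub]
    have e : (c * s - 2 * f b - (s * b - 2 * f c)) • W (F v) = 0 := by
      have : c * s - 2 * f b - (s * b - 2 * f c) = 0 := by linear_combination hs
      rw [this, zero_smul]
    rw [← sub_eq_zero, ← e]
    module
  rw [← TrEig_key P R hc f (by
    intro x v hv
    have e2 := ePF v
    have e3 := ePG v
    rw [hv, map_smul] at e2 e3
    have e4 : f b • F v = f x • F v := smul_tr e2.symm f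
    have e5 : a • (v - I (F v) - W (G v)) = x • (v - I (F v) - W (G v)) := by
      have h1 : x • v = a • (v - I (F v) - W (G v)) + b • I (F v) + c • W (G v) -
        (2 : ℂ) • W (F v) := by rw [← hv, hP]
      have h2 : b • I (F v) = x • I (F v) := by rw [← map_smul, ← e2, map_smul]
      have h3 : x • W (G v) = c • W (G v) - (2 : ℂ) • W (F v) := by
        rw [← map_smul, e3, map_sub, map_smul, map_smul]
      rw [smul_sub x, smul_sub x, h1, h2, h3]
      abel
    have e6 := smul_tr e5 f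
    have e7 : f c • G v + s • F v = f x • G v := by
      by_cases hF : F v = 0
      · rw [hF, smul_zero, sub_zero] at e3
        rw [hF, smul_zero, add_zero]
        exact smul_tr e3.symm f
      · have hx : x = b := smul_left_injective ℂ hF e2
        subst hx
        have h1 : (c - x) • G v = (2 : ℂ) • F v := by
          rw [sub_smul, e3]
          abel
        have hcx : c ≠ x := by
          intro hcx
          rw [hcx, sub_self, zero_smul] at h1
          have := smul_eq_zero.1 h1.symm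
          rcases this with h2 | h2
          · norm_num at h2
          · exact hF h2
        have hcx' : c - x ≠ 0 := sub_ne_zero.2 hcx
        have h2 : F v = ((c - x) / 2) • G v := by
          have : F v = (2⁻¹ : ℂ) • ((2 : ℂ) • F v) := by
            rw [smul_smul]
            norm_num
          rw [this, ← h1, smul_smul]
          congr 1
          ring
        rw [h2, smul_smul, ← add_smul, hs2 hcx]
        congr 1
        field_simp
        ring
    rw [hRv, e6, ← map_smul I (f b), e4, map_smul, add_assoc, ← map_smul W (f c), ← map_smul W s,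
      ← map_add, e7, map_smul, ← smul_add, ← smul_add]
    congr 1
    abel)]
  have t1 : LinearMap.trace ℂ V (I ∘ₗ F) = Module.finrank ℂ U := by
    rw [LinearMap.trace_comp_comm' F I,
      show F ∘ₗ I = LinearMap.id from LinearMap.ext hFI, LinearMap.trace_id]
  have t2 : LinearMap.trace ℂ V (W ∘ₗ G) = Module.finrank ℂ U := by
    rw [LinearMap.trace_comp_comm' G W,
      show G ∘ₗ W = LinearMap.id from LinearMap.ext hGW, LinearMap.trace_id]
  have t3 : LinearMap.trace ℂ V (W ∘ₗ F) = 0 := by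
    rw [LinearMap.trace_comp_comm' F W,
      show F ∘ₗ W = 0 from LinearMap.ext hFW, map_zero]
  rw [hR, map_add, map_add, map_add, map_smul, map_smul, map_smul, map_smul, map_sub, map_sub,
    LinearMap.trace_one, t1, t2, t3]
  simp only [smul_eq_mul]
  ring

end P1

theorem P1_mult {Γ : Subgroup (Mat 3)ˣ} (h : Klein Γ) (lam : ℝ) (w : ℂ) (hw : w ^ 2 = 1 - lam)
    (f : ℂ → ℂ) :
    ∑ᶠ x : ℂ, (mP 1 Γ lam x : ℂ) * f x =
      if lam = 0 then
        ((Module.finrank ℂ (EL 1 Γ lam) : ℂ) - Module.finrank ℂ (EL 0 Γ lam)) * f 1 +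
          Module.finrank ℂ (EL 0 Γ lam) * f (-3)
      else
        ((Module.finrank ℂ (EL 1 Γ lam) : ℂ) - 2 * Module.finrank ℂ (EL 0 Γ lam)) * f (lam + 1) +
          Module.finrank ℂ (EL 0 Γ lam) * (f (lam - 1 + 2 * w) + f (lam - 1 - 2 * w)) := by
  have hf1 := EL_fin h 1 lam
  have hf0 := EL_fin h 0 lam
  obtain ⟨inc, grad, fn, dv, i1, i2, i3, i4, ci, cg, cf, cd, dg, fi, fg, di, pi, pg, pc⟩ := V1_maps Γ
  obtain ⟨H1, H2⟩ := V1_harm h
  have mem1 : ∀ F : Sect (tau 1) Γ, F ∈ EL 1 Γ lam ↔ CasL 1 Γ F = (lam : ℂ) • F := fun F =>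
    Module.End.mem_eigenspace_iff
  have mem0 : ∀ F : Sect (tau 0) Γ, F ∈ EL 0 Γ lam ↔ CasL 0 Γ F = (lam : ℂ) • F := fun F =>
    Module.End.mem_eigenspace_iff
  have m1 : ∀ F ∈ EL 0 Γ lam, inc F ∈ EL 1 Γ lam := by
    intro F hF
    rw [mem0] at hF
    rw [mem1, ci, hF, map_smul]
  have m2 : ∀ F ∈ EL 0 Γ lam, grad F ∈ EL 1 Γ lam := by
    intro F hF
    rw [mem0] at hF
    rw [mem1, cg, hF, map_smul]
  have m3 : ∀ F ∈ EL 1 Γ lam, fn F ∈ EL 0 Γ lam := by
    intro F hF
    rw [mem1] at hF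
    rw [mem0, cf, hF, map_smul]
  have m4 : ∀ F ∈ EL 1 Γ lam, dv F ∈ EL 0 Γ lam := by
    intro F hF
    rw [mem1] at hF
    rw [mem0, cd, hF, map_smul]
  unfold mP
  split_ifs with hl
  · -- harmonic case
    refine P1.LA1 (inc.restrict m1) (fn.restrict m3) (fun u => Subtype.ext (fi u)) (PE 1 Γ lam)
      1 (-3) (fun v => Subtype.ext ?_) f
    subst hl
    show PL 1 Γ v.1 = (1 : ℂ) • (v.1 - inc (fn v.1)) + (-3 : ℂ) • inc (fn v.1)
    have hv := (mem1 v.1).1 v.2
    rw [Complex.ofReal_zero, zero_smul] at hv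
    have hdv : dv v.1 = 0 := H2 v.1 (dv v.1) (m4 _ v.2) (i4 v.1)
    have hfn := (mem0 _).1 (m3 _ v.2)
    rw [Complex.ofReal_zero, zero_smul] at hfn
    have hgr : grad (fn v.1) = 0 := by
      have h1 := H1 _ (m3 _ v.2)
      refine lin_sect_ext fun g hg => ?_
      rw [i2]
      funext I
      split_ifs with h0
      · rfl
      · rw [h1 _ g hg]
        rfl
    have e1 := pc (v.1 - inc (fn v.1)) (by rw [map_sub, fi, sub_self]) (by
      rw [map_sub, di, hdv, sub_self])
    rw [map_sub, map_sub, pi, hfn, hgr, ci, hfn, hv] at e1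
    have e2 : PL 1 Γ v.1 = (v.1 - inc (fn v.1)) + inc (-((3 : ℂ) • fn v.1)) := by
      have : PL 1 Γ v.1 = (PL 1 Γ v.1 - (inc (0 - (3 : ℂ) • fn v.1) - (2 : ℂ) • 0)) +
        (inc (0 - (3 : ℂ) • fn v.1) - (2 : ℂ) • 0) := by abel
      rw [this, e1]
      simp
    rw [e2, map_neg, map_smul]
    module
  · -- the other eigenvalues
    have hl' : (lam : ℂ) ≠ 0 := Complex.ofReal_ne_zero.2 hl
    refine P1.LA2 (inc.restrict m1) ((1 - w) • inc.restrict m1 + grad.restrict m2)
      (fn.restrict m3 - (1 - w) • (-(lam : ℂ)⁻¹) • dv.restrict m4)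
      ((-(lam : ℂ)⁻¹) • dv.restrict m4) (fun u => Subtype.ext ?_) (fun u => Subtype.ext ?_)
      (fun u => Subtype.ext ?_) (fun u => Subtype.ext ?_) (PE 1 Γ lam)
      (lam + 1) (lam - 1 - 2 * w) (lam - 1 + 2 * w) (fun v => Subtype.ext ?_) f
    · show fn (inc u.1) - (1 - w) • (-(lam : ℂ)⁻¹) • dv (inc u.1) = u.1
      rw [fi, di]
      simp
    · show (-(lam : ℂ)⁻¹) • dv (inc u.1) = 0
      rw [di, smul_zero]
    · show (-(lam : ℂ)⁻¹) • dv ((1 - w) • inc u.1 + grad u.1) = u.1
      rw [map_add, map_smul, di, dg, (mem0 _).1 u.2, smul_zero, zero_add, smul_neg, neg_smul,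
        neg_neg, smul_smul, inv_mul_cancel₀ hl', one_smul]
    · show fn ((1 - w) • inc u.1 + grad u.1) - (1 - w) • (-(lam : ℂ)⁻¹) •
        dv ((1 - w) • inc u.1 + grad u.1) = 0
      have h1 : (-(lam : ℂ)⁻¹) • dv ((1 - w) • inc u.1 + grad u.1) = u.1 := by
        rw [map_add, map_smul, di, dg, (mem0 _).1 u.2, smul_zero, zero_add, smul_neg, neg_smul,
          neg_neg, smul_smul, inv_mul_cancel₀ hl', one_smul]
      rw [h1, map_add, map_smul, fi, fg, add_zero, sub_self]
    · obtain ⟨G, hG⟩ : ∃ G : Sect (tau 0) Γ, G = (-(lam : ℂ)⁻¹) • dv v.1 := ⟨_, rfl⟩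
      obtain ⟨F, hF⟩ : ∃ F : Sect (tau 0) Γ, F = fn v.1 - (1 - w) • G := ⟨_, rfl⟩
      have hGm : CasL 0 Γ G = (lam : ℂ) • G := by
        rw [hG, map_smul, (mem0 _).1 (m4 _ v.2), smul_comm]
      have hFm : CasL 0 Γ F = (lam : ℂ) • F := by
        rw [hF, map_sub, map_smul, hGm, (mem0 _).1 (m3 _ v.2)]
        module
      have key : PL 1 Γ v.1 = ((lam : ℂ) + 1) • (v.1 - inc F - ((1 - w) • inc G + grad G)) +
          ((lam : ℂ) - 1 - 2 * w) • inc F + ((lam : ℂ) - 1 + 2 * w) • ((1 - w) • inc G + grad G) -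
            (2 : ℂ) • ((1 - w) • inc F + grad F) := by
        have c1 : fn (v.1 - inc F - ((1 - w) • inc G + grad G)) = 0 := by
          rw [map_sub, map_sub, map_add, map_smul, fi, fi, fg, hF]
          module
        have c2 : dv (v.1 - inc F - ((1 - w) • inc G + grad G)) = 0 := by
          rw [map_sub, map_sub, map_add, map_smul, di, di, dg, hGm, hG, smul_zero, sub_zero,
            zero_add, smul_smul, mul_neg, mul_inv_cancel₀ hl']
          module
        have e1 := pc _ c1 c2
        have e3 : CasL 1 Γ (v.1 - inc F - ((1 - w) • inc G + grad G)) =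
            (lam : ℂ) • (v.1 - inc F - ((1 - w) • inc G + grad G)) := by
          rw [map_sub, map_sub, map_add, map_smul, ci, ci, cg, hFm, hGm, (mem1 _).1 v.2, map_smul,
            map_smul, map_smul]
          module
        rw [e3] at e1
        have e4 : PL 1 Γ (inc F) = ((lam : ℂ) - 1 - 2 * w) • inc F -
            (2 : ℂ) • ((1 - w) • inc F + grad F) := by
          rw [pi, hFm, map_sub, map_smul, map_smul]
          module
        have e5 : PL 1 Γ ((1 - w) • inc G + grad G) =
            ((lam : ℂ) - 1 + 2 * w) • ((1 - w) • inc G + grad G) := by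
          rw [map_add, map_smul, pi, pg, hGm, map_sub, map_smul, map_smul, map_smul, map_smul,
            map_add, map_smul]
          have e6 : (((1 - w) * (lam - 3) + 2 * lam - (lam - 1 + 2 * w) * (1 - w) : ℂ)) •
              inc G = 0 := by
            have : (1 - w) * (lam - 3) + 2 * lam - (lam - 1 + 2 * w) * (1 - w) = (0 : ℂ) := by
              linear_combination 2 * hw
            rw [this, zero_smul]
          rw [← sub_eq_zero, ← e6]
          module
        have e7 : PL 1 Γ v.1 = PL 1 Γ (v.1 - inc F - ((1 - w) • inc G + grad G)) +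
            PL 1 Γ (inc F) + PL 1 Γ ((1 - w) • inc G + grad G) := by
          rw [← map_add, ← map_add]
          congr 1
          abel
        rw [e7, e1, e4, e5]
        module
      rw [hF, hG] at key
      exact key

end

end Pool.Agent.Work.MP_14c213_gt
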