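import Pool.Agent.Work.MP_14c213_gt.A.K0
import Pool.Agent.Work.MP_14c213_gt.A.P1

/-!
1-forms. By mult0 and P1_mult the difference of the traces on EL 1 is
(finrank EL 1 Γ₁ lam - finrank EL 1 Γ₂ lam) Â B̂ Ĉ Ĝ (lam + 1); the geometric sides agree for k = 1
(geo_side with d0, d1). sep_profiles with y = 1.
-/

namespace Pool.Agent.Work.MP_14c213_gt

open Matrix MeasureTheory
open scoped Matrix ContDiff Matrix.Norms.Elementwise

noncomputable section

theorem mult1 {Γ₁ Γ₂ : Subgroup (Mat 3)ˣ} (h : Pair Γ₁ Γ₂) (lam : ℝ) :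
    Module.finrank ℂ (EL 1 Γ₁ lam) = Module.finrank ℂ (EL 1 Γ₂ lam) := by
  refine sep_general h le_rfl 1 (fun lam f => ?_) lam
  obtain ⟨w, hw⟩ := IsAlgClosed.exists_pow_nat_eq ((1 : ℂ) - lam) (n := 2) (by norm_num)
  rw [P1_mult h.k1 lam w hw f, P1_mult h.k2 lam w hw f, mult0 h lam]
  by_cases hl : lam = 0
  · rw [if_pos hl, if_pos hl, hl]
    push_cast
    rw [zero_add]
    ring
  · rw [if_neg hl, if_neg hl]
    push_cast
    ring

end

end Pool.Agent.Work.MP_14c213_gt
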