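import Pool.Agent.Work.MP_14c213_gt.A.TrEq
import Pool.Agent.Work.MP_14c213_gt.A.GeoM
import Pool.Agent.Work.MP_14c213_gt.A.VolM

/-!
The second tensor power sees cos² θ. If all traces of powers of P agree on all EL 2 then (TrEq,
tr_RE3, spec_side, geo_side) ∑_L arcosh L (∫_{2L}^∞ 𝔅) (lenData Γ₁ 2 L - lenData Γ₂ 2 L) = 0 for all
𝔅 = conv A (conv B C). Let L₀ be the smallest L > 1 with d2 ≠ (lenData_supp); choose A = B = C ≥ 0,
positive exactly below 2cosh a with 3a slightly larger than arcosh L₀ (conv_supp, conv_pos).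
-/

namespace Pool.Agent.Work.MP_14c213_gt

open Matrix MeasureTheory
open scoped Matrix ContDiff Matrix.Norms.Elementwise

noncomputable section

/-- A profile which is positive exactly below `2 cosh a`. -/
def tent (a : ℝ) : ℝ → ℝ := fun v => max (2 * Real.cosh a - v) 0

theorem tent_prof (a : ℝ) : Prof (tent a) := by
  refine ⟨?_, 2 * Real.cosh a, fun v hv => ?_⟩
  · unfold tent
    fun_prop
  · unfold tent
    exact max_eq_right (by linarith)

theorem tent_nonneg (a v : ℝ) : 0 ≤ tent a v := le_max_right _ _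

theorem tent_zero {a v : ℝ} (hv : 2 * Real.cosh a ≤ v) : tent a v = 0 := by
  unfold tent
  exact max_eq_right (by linarith)

theorem tent_pos {a v : ℝ} (hv : v < 2 * Real.cosh a) : 0 < tent a v := by
  unfold tent
  exact lt_max_of_lt_left (by linarith)

/-- A profile of the form `conv A (conv B C)` with support exactly `v < 2 M`. -/
theorem triple_exists {M : ℝ} (hM : 1 < M) : ∃ A B C : ℝ → ℝ, Prof A ∧ Prof B ∧ Prof C ∧
    (∀ v, 2 * M ≤ v → conv A (conv B C) v = 0) ∧
    (∀ v, 2 ≤ v → v < 2 * M → 0 < conv A (conv B C) v) := by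
  set a : ℝ := Real.arcosh M / 3 with ha
  have hpos : 0 < Real.arcosh M := Real.arcosh_pos hM
  have ha0 : 0 < a := by positivity
  have hch : Real.cosh (a + (a + a)) = M := by
    have : a + (a + a) = Real.arcosh M := by rw [ha]; ring
    rw [this, Real.cosh_arcosh hM.le]
  have hp := tent_prof a
  have hBC := conv_prof hp hp
  have hn : ∀ v, 0 ≤ conv (tent a) (tent a) v := conv_nonneg (tent_nonneg a) (tent_nonneg a)
  refine ⟨tent a, tent a, tent a, hp, hp, hp, fun v hv => ?_, fun v h2 hv => ?_⟩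
  · refine conv_supp (a := a) (b := a + a) ha0.le (by linarith) (fun v hv => tent_zero hv)
      (fun v hv => ?_) v (by rw [hch]; exact hv)
    exact conv_supp (a := a) (b := a) ha0.le ha0.le (fun v hv => tent_zero hv)
      (fun v hv => tent_zero hv) v hv
  · refine conv_pos hp hBC (a := a) (b := a + a) ha0 (by linarith) (tent_nonneg a) hn
      (fun v _ hv => tent_pos hv) (fun v h2 hv => ?_) v h2 (by rw [hch]; exact hv)
    exact conv_pos hp hp (a := a) (b := a) ha0 ha0 (tent_nonneg a) (tent_nonneg a)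
      (fun v _ hv => tent_pos hv) (fun v _ hv => tent_pos hv) v h2 hv

theorem trace2 {Γ₁ Γ₂ : Subgroup (Mat 3)ˣ} (h : Pair Γ₁ Γ₂) :
    ∃ (lam : ℝ) (n : ℕ),
      LinearMap.trace ℂ _ (PE 2 Γ₁ lam ^ n) ≠ LinearMap.trace ℂ _ (PE 2 Γ₂ lam ^ n) := by
  by_contra hcon
  push Not at hcon
  obtain ⟨D₁, hD₁⟩ := FD_exists h.k1
  obtain ⟨D₂, hD₂⟩ := FD_exists h.k2
  -- the geometric sides agree
  have hgeo : ∀ A B C : ℝ → ℝ, Prof A → Prof B → Prof C →
      ∫ p in D₁, (ker 2 Γ₁ (conv A (conv B C)) (SS p) (SS p)).trace ∂mu =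
        ∫ p in D₂, (ker 2 Γ₂ (conv A (conv B C)) (SS p) (SS p)).trace ∂mu := by
    intro A B C hA hB hC
    have s1 := (spec_side (k := 2) h.k1 hD₁ hA (conv_prof hB hC)).2
    have s2 := (spec_side (k := 2) h.k2 hD₂ hA (conv_prof hB hC)).2
    have e : (fun lam : ℝ => LinearMap.trace ℂ _ (RE 2 Γ₁ A hA lam *
        RE 2 Γ₁ (conv B C) (conv_prof hB hC) lam)) =
        fun lam : ℝ => LinearMap.trace ℂ _ (RE 2 Γ₂ A hA lam *
        RE 2 Γ₂ (conv B C) (conv_prof hB hC) lam) := by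
      funext lam
      rw [tr_RE3 h.k1 lam hA hB hC, tr_RE3 h.k2 lam hA hB hC]
      apply finsum_congr
      intro x
      rw [mP_eq h.k1 h.k2 lam (fun n => hcon lam n) x]
    rw [e] at s1
    exact s1.unique s2
  -- the smallest length with different data
  obtain ⟨L₁, hL₁, hne₁⟩ := h.d2
  set S : Set ℝ := {L | 1 < L ∧ L ≤ L₁ + 1 ∧ lenData Γ₁ 2 L ≠ lenData Γ₂ 2 L} with hS
  have hSfin : S.Finite := by
    refine ((lenData_supp h.k1 (L₁ + 1)).union (lenData_supp h.k2 (L₁ + 1))).subset ?_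
    rintro L ⟨h1, h2, h3⟩
    by_cases h4 : lenData Γ₁ 2 L = 0
    · right
      refine ⟨h1, h2, 2, fun h5 => h3 (by rw [h4, h5])⟩
    · left
      exact ⟨h1, h2, 2, h4⟩
  have hSne : S.Nonempty := ⟨L₁, hL₁, by linarith, hne₁⟩
  obtain ⟨L₀, hL₀S, hL₀min⟩ := hSfin.exists_minimal hSne
  have hmin : ∀ L ∈ S, L₀ ≤ L := by
    intro L hL
    by_contra hlt
    push Not at hlt
    exact absurd (hL₀min hL hlt.le) (not_le.2 hlt)
  have hL₀L₁ : L₀ ≤ L₁ := hmin L₁ ⟨hL₁, by linarith, hne₁⟩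
  set T : Set ℝ := insert (L₁ + 1) (S \ {L₀}) with hT
  have hTfin : T.Finite := (hSfin.subset Set.sdiff_subset).insert _
  obtain ⟨M, hMT, hMmin⟩ := hTfin.exists_minimal ⟨L₁ + 1, Set.mem_insert _ _⟩
  have hMle : ∀ L ∈ T, M ≤ L := by
    intro L hL
    by_contra hlt
    push Not at hlt
    exact absurd (hMmin hL hlt.le) (not_le.2 hlt)
  have hL₀M : L₀ < M := by
    rcases hMT with hM | hM
    · rw [hM]; linarith
    · exact lt_of_le_of_ne (hmin M hM.1) (fun h5 => hM.2 h5.symm)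
  have hML₁ : M ≤ L₁ + 1 := hMle _ (Set.mem_insert _ _)
  have heq : ∀ L : ℝ, 1 < L → L < M → L ≠ L₀ → lenData Γ₁ 2 L = lenData Γ₂ 2 L := by
    intro L h1 h2 h3
    by_contra h4
    have : M ≤ L := hMle L (Set.mem_insert_of_mem _ ⟨⟨h1, by linarith, h4⟩, h3⟩)
    linarith
  have hM1 : 1 < M := lt_trans hL₀S.1 hL₀M
  obtain ⟨A, B, C, hA, hB, hC, hz, hp⟩ := triple_exists hM1
  have hBB : Prof (conv A (conv B C)) := conv_prof hA (conv_prof hB hC)
  have hg := hgeo A B C hA hB hC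
  rw [geo_side h.k1 hD₁ hBB, geo_side h.k2 hD₂ hBB, vol_eq h hD₁ hD₂] at hg
  have hg' := Complex.ofReal_injective hg
  set 𝔅 := conv A (conv B C) with h𝔅
  set F : Subgroup (Mat 3)ˣ → {L : ℝ // 1 < L} → ℝ := fun Γ L =>
    Real.arcosh L * (Real.pi / 2) * (∫ v in Set.Ioi (2 * (L : ℝ)), 𝔅 v) *
      ∑ j ∈ Finset.range (2 + 1), ((2 : ℕ).choose j : ℝ) * (2 * (L : ℝ)) ^ (2 - j) * 2 ^ j *
        lenData Γ j L with hF
  have hg2 : ∑ᶠ L, F Γ₁ L = ∑ᶠ L, F Γ₂ L := by
    have := hg'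
    linarith
  have hint0 : ∀ L : ℝ, M ≤ L → ∫ v in Set.Ioi (2 * L), 𝔅 v = 0 := by
    intro L hL
    apply setIntegral_eq_zero_of_forall_eq_zero
    intro v hv
    rw [Set.mem_Ioi] at hv
    exact hz v (by linarith)
  have hsupp : ∀ Γ : Subgroup (Mat 3)ˣ, Klein Γ → (Function.support (F Γ)).Finite := by
    intro Γ hΓ
    have hfin := lenData_supp hΓ M
    refine (hfin.preimage (f := fun L : {L : ℝ // 1 < L} => (L : ℝ))
      (Subtype.val_injective.injOn)).subset ?_
    intro L hL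
    rw [Function.mem_support] at hL
    refine ⟨L.2, ?_, ?_⟩
    · by_contra hlt
      push Not at hlt
      apply hL
      rw [hF]
      beta_reduce
      rw [hint0 L hlt.le]
      ring
    · by_contra hlt
      push Not at hlt
      apply hL
      rw [hF]
      beta_reduce
      rw [Finset.sum_eq_zero, mul_zero]
      intro j _
      rw [hlt j, mul_zero]
  have hdiff : ∑ᶠ L, (F Γ₁ L - F Γ₂ L) = 0 := by
    rw [finsum_sub_distrib (hsupp Γ₁ h.k1) (hsupp Γ₂ h.k2), hg2, sub_self]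
  rw [finsum_eq_single _ (⟨L₀, hL₀S.1⟩ : {L : ℝ // 1 < L})] at hdiff
  · have hpos : 0 < ∫ v in Set.Ioi (2 * L₀), 𝔅 v := by
      have e : ∫ v in Set.Ioi (2 * L₀), 𝔅 v = ∫ v in Set.Ioc (2 * L₀) (2 * M), 𝔅 v := by
        refine (setIntegral_eq_of_subset_of_forall_sdiff_eq_zero measurableSet_Ioi
          Set.Ioc_subset_Ioi_self ?_)
        rintro v ⟨hv1, hv2⟩
        rw [Set.mem_Ioi] at hv1
        rw [Set.mem_Ioc, not_and] at hv2
        exact hz v (not_le.1 (hv2 hv1)).le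
      rw [e, ← intervalIntegral.integral_of_le (by linarith)]
      apply intervalIntegral.intervalIntegral_pos_of_pos_on
      · exact hBB.cont.intervalIntegrable _ _
      · intro v hv
        exact hp v (by linarith [hv.1, hL₀S.1]) hv.2
      · linarith
    have harc : 0 < Real.arcosh L₀ := Real.arcosh_pos hL₀S.1
    rw [hF] at hdiff
    beta_reduce at hdiff
    rw [← mul_sub, ← Finset.sum_sub_distrib] at hdiff
    simp only [Finset.sum_range_succ, Finset.sum_range_zero] at hdiff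
    rw [h.d0 L₀ hL₀S.1, h.d1 L₀ hL₀S.1] at hdiff
    have hc : Real.arcosh L₀ * (Real.pi / 2) * (∫ v in Set.Ioi (2 * L₀), 𝔅 v) ≠ 0 := by
      have := Real.pi_pos
      positivity
    have h2 := (mul_eq_zero.1 hdiff).resolve_left hc
    apply hL₀S.2.2
    norm_num at h2
    linarith
  · intro L hL
    rw [hF]
    beta_reduce
    by_cases hLM : (L : ℝ) < M
    · have hne : (L : ℝ) ≠ L₀ := fun h5 => hL (Subtype.ext h5)
      have e0 := h.d0 L L.2
      have e1 := h.d1 L L.2
      have e2 := heq L L.2 hLM hne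
      rw [sub_eq_zero]
      congr 1
      apply Finset.sum_congr rfl
      intro j hj
      rw [Finset.mem_range] at hj
      have hj' : j = 0 ∨ j = 1 ∨ j = 2 := by omega
      rcases hj' with rfl | rfl | rfl
      · rw [e0]
      · rw [e1]
      · rw [e2]
    · push Not at hLM
      rw [hint0 L hLM]
      ring

end

end Pool.Agent.Work.MP_14c213_gt
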