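import Pool.Agent.Work.MP_14c213_gt.A.Pull
import Pool.Agent.Work.MP_14c213_gt.A.RepM

/-!
The ring of coefficient families of natural operators: words in the covariant derivatives with
matrix coefficients.
-/

namespace Pool.Agent.Work.MP_14c213_gt

open Matrix MeasureTheory
open scoped Matrix ContDiff Matrix.Norms.Elementwise

noncomputable section

/-- words with matrix coefficients -/
abbrev NW (J : Type) [Fintype J] [DecidableEq J] : Type :=
  MonoidAlgebra (Matrix J J ℂ) (FreeMonoid (Fin 3))

variable {J : Type} [Fintype J] [DecidableEq J]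

/-- the covariant derivative -/
def NX (J : Type) [Fintype J] [DecidableEq J] (i : Fin 3) : NW J :=
  MonoidAlgebra.single (FreeMonoid.of i) 1

/-- a constant matrix -/
def NM (B : Matrix J J ℂ) : NW J := MonoidAlgebra.single 1 B

theorem NM_add (B C : Matrix J J ℂ) : NM (B + C) = NM B + NM C :=
  MonoidAlgebra.single_add _ _ _

theorem NM_mul (B C : Matrix J J ℂ) : NM B * NM C = NM (B * C) := by
  rw [NM, NM, NM, MonoidAlgebra.single_mul_single, one_mul]

theorem NM_one : NM (1 : Matrix J J ℂ) = 1 := rfl

theorem NM_sum {ι : Type} (s : Finset ι) (f : ι → Matrix J J ℂ) :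
    NM (∑ i ∈ s, f i) = ∑ i ∈ s, NM (f i) := by
  classical
  induction s using Finset.induction_on with
  | empty => exact MonoidAlgebra.single_zero _
  | insert a s ha ih => rw [Finset.sum_insert ha, Finset.sum_insert ha, NM_add, ih]

theorem NM_comm (B : Matrix J J ℂ) (i : Fin 3) : NM B * NX J i = NX J i * NM B := by
  rw [NM, NX, MonoidAlgebra.single_mul_single, MonoidAlgebra.single_mul_single]
  simp

theorem N_smul (c : ℂ) (x : NW J) : c • x = NM (c • (1 : Matrix J J ℂ)) * x := by
  have h : NM (c • (1 : Matrix J J ℂ)) = c • (1 : NW J) := by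
    rw [← NM_one, NM, NM, MonoidAlgebra.smul_single]
  rw [h, smul_mul_assoc, one_mul]

theorem N_smul' (c : ℂ) (x : NW J) : c • x = x * NM (c • (1 : Matrix J J ℂ)) := by
  have h : NM (c • (1 : Matrix J J ℂ)) = c • (1 : NW J) := by
    rw [← NM_one, NM, NM, MonoidAlgebra.smul_single]
  rw [h, mul_smul_comm, mul_one]

/-! ### Order -/

/-- order at most `m` -/
def NFil (m : ℕ) (x : NW J) : Prop :=
  ∀ w : FreeMonoid (Fin 3), m < FreeMonoid.length w → x.coeff w = 0

theorem NFil_add {m : ℕ} {x y : NW J} (hx : NFil m x) (hy : NFil m y) : NFil m (x + y) := by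
  intro w hw
  rw [MonoidAlgebra.coeff_add, Finsupp.add_apply, hx w hw, hy w hw, add_zero]

theorem NFil_zero (m : ℕ) : NFil m (0 : NW J) := fun _ _ => rfl

theorem NFil_sum {ι : Type} (s : Finset ι) {f : ι → NW J} {m : ℕ} (h : ∀ i ∈ s, NFil m (f i)) :
    NFil m (∑ i ∈ s, f i) := by
  classical
  induction s using Finset.induction_on with
  | empty => exact NFil_zero m
  | insert a s ha ih =>
    rw [Finset.sum_insert ha]
    exact NFil_add (h a (Finset.mem_insert_self a s))
      (ih fun i hi => h i (Finset.mem_insert_of_mem hi))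

theorem NFil_mono {m n : ℕ} (h : m ≤ n) {x : NW J} (hx : NFil m x) : NFil n x :=
  fun w hw => hx w (lt_of_le_of_lt h hw)

theorem NFil_mul {m n : ℕ} {x y : NW J} (hx : NFil m x) (hy : NFil n y) : NFil (m + n) (x * y) := by
  classical
  intro w hw
  rw [MonoidAlgebra.coeff_mul]
  refine Finset.sum_eq_zero fun u hu => Finset.sum_eq_zero fun v hv => ?_
  have hne : ¬ (u * v = w) := by
    intro he
    have hu1 : FreeMonoid.length u ≤ m := by
      by_contra hlt
      exact (Finsupp.mem_support_iff.1 hu) (hx u (not_le.1 hlt))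
    have hv1 : FreeMonoid.length v ≤ n := by
      by_contra hlt
      exact (Finsupp.mem_support_iff.1 hv) (hy v (not_le.1 hlt))
    have hl := FreeMonoid.length_mul u v
    rw [he] at hl
    omega
  exact if_neg hne

theorem NFil_M (B : Matrix J J ℂ) : NFil 0 (NM B) := by
  intro w hw
  rw [NM, MonoidAlgebra.coeff_single]
  refine Finsupp.single_eq_of_ne ?_
  intro h
  rw [h, FreeMonoid.length_one] at hw
  exact absurd hw (lt_irrefl _)

theorem NFil_X (i : Fin 3) : NFil 1 (NX J i) := by
  intro w hw
  rw [NX, MonoidAlgebra.coeff_single]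
  refine Finsupp.single_eq_of_ne ?_
  intro h
  rw [h, FreeMonoid.length_of] at hw
  exact absurd hw (lt_irrefl _)

theorem NFil_smul (c : ℂ) {m : ℕ} {x : NW J} (hx : NFil m x) : NFil m (c • x) := by
  rw [N_smul, ← zero_add m]
  exact NFil_mul (NFil_M _) hx

theorem NFil_one : NFil 0 (1 : NW J) := NFil_M 1

theorem NFil_pow {m : ℕ} {x : NW J} (hx : NFil m x) (n : ℕ) : NFil (m * n) (x ^ n) := by
  induction n with
  | zero => rw [pow_zero, mul_zero]; exact NFil_one
  | succ n ih => rw [pow_succ, mul_add, mul_one]; exact NFil_mul ih hx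

/-! ### Symbol -/

private theorem N_sum_cons {β : Type*} [AddCommMonoid β] {r : ℕ} (f : (Fin (r + 1) → Fin 3) → β) :
    ∑ I, f I = ∑ i : Fin 3, ∑ I : Fin r → Fin 3, f (Fin.cons i I) := by
  rw [← Fintype.sum_prod_type (f := fun p : Fin 3 × (Fin r → Fin 3) => f (Fin.cons p.1 p.2))]
  exact (Fintype.sum_equiv (Fin.consEquiv (fun _ : Fin (r + 1) => Fin 3)) _ _ fun p => rfl).symm

/-- The symbol. -/
def Nsym (ξ : Fin 3 → ℝ) : NW J →+* Polynomial (Matrix J J ℂ) :=
  MonoidAlgebra.liftNCRingHom Polynomial.C
    (FreeMonoid.lift fun i => Polynomial.monomial 1 ((ξ i : ℂ) • (1 : Matrix J J ℂ))) (by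
    intro B w
    induction w using FreeMonoid.recOn with
    | one => rw [map_one]; exact Commute.one_right _
    | of_mul x xs ih =>
      rw [map_mul, FreeMonoid.lift_eval_of]
      refine Commute.mul_right ?_ ih
      rw [Commute, SemiconjBy, Polynomial.C_mul_monomial, Polynomial.monomial_mul_C]
      simp)

theorem Nsym_M (ξ : Fin 3 → ℝ) (B : Matrix J J ℂ) : Nsym ξ (NM B) = Polynomial.C B := by
  rw [Nsym, NM, MonoidAlgebra.liftNCRingHom_single, map_one, mul_one]

theorem Nsym_X (ξ : Fin 3 → ℝ) (i : Fin 3) :
    Nsym ξ (NX J i) = Polynomial.monomial 1 ((ξ i : ℂ) • (1 : Matrix J J ℂ)) := by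
  rw [Nsym, NX, MonoidAlgebra.liftNCRingHom_single, FreeMonoid.lift_eval_of, map_one, one_mul]

private theorem N_word (ξ : Fin 3 → ℝ) (w : FreeMonoid (Fin 3)) :
    (FreeMonoid.lift fun i => Polynomial.monomial 1 ((ξ i : ℂ) • (1 : Matrix J J ℂ))) w =
      Polynomial.monomial (FreeMonoid.length w)
        (((FreeMonoid.toList w).map fun i => (ξ i : ℂ)).prod • (1 : Matrix J J ℂ)) := by
  induction w using FreeMonoid.recOn with
  | one =>
    rw [map_one, FreeMonoid.toList_one, List.map_nil, List.prod_nil, one_smul,
      FreeMonoid.length_one, Polynomial.monomial_zero_left, map_one]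
  | of_mul x xs ih =>
    rw [map_mul, FreeMonoid.lift_eval_of, ih, Polynomial.monomial_mul_monomial]
    rw [FreeMonoid.length_mul, FreeMonoid.length_of, FreeMonoid.toList_mul, FreeMonoid.toList_of]
    congr 1
    simp only [List.map_append, List.map_cons, List.map_nil, List.prod_append, List.prod_cons,
      List.prod_nil, mul_one]
    rw [smul_mul_smul_comm, one_mul]

private theorem N_wsum (φ : Fin 3 → ℂ) : ∀ (m : ℕ) (w : List (Fin 3)),
    ∑ I : Fin m → Fin 3, (if List.ofFn I = w then (∏ a, φ (I a)) else 0) =
      if w.length = m then (w.map φ).prod else 0 := by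
  intro m
  induction m with
  | zero =>
    intro w
    rw [Fintype.sum_unique]
    cases w with
    | nil => simp
    | cons a w => simp
  | succ m ih =>
    intro w
    rw [N_sum_cons]
    cases w with
    | nil => simp
    | cons a w =>
      have h1 : ∀ (i : Fin 3) (I : Fin m → Fin 3),
          (if List.ofFn (Fin.cons i I : Fin (m + 1) → Fin 3) = a :: w then
            (∏ b, φ ((Fin.cons i I : Fin (m + 1) → Fin 3) b)) else 0) =
          if i = a then φ a * (if List.ofFn I = w then (∏ b, φ (I b)) else 0) else 0 := by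
        intro i I
        rw [List.ofFn_succ, Fin.prod_univ_succ]
        simp only [Fin.cons_zero, Fin.cons_succ, List.cons.injEq]
        by_cases hi : i = a
        · subst hi
          by_cases hI : List.ofFn I = w
          · simp [hI]
          · simp [hI]
        · simp [hi]
      simp only [h1]
      have h2 : ∀ i : Fin 3, ∑ I : Fin m → Fin 3,
          (if i = a then φ a * (if List.ofFn I = w then (∏ b, φ (I b)) else 0) else 0) =
          if i = a then φ a * (if w.length = m then (w.map φ).prod else 0) else 0 := by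
        intro i
        by_cases hi : i = a
        · simp only [if_pos hi]
          rw [← Finset.mul_sum, ih]
        · simp only [if_neg hi, Finset.sum_const_zero]
      simp only [h2]
      rw [Finset.sum_ite_eq' Finset.univ a]
      simp [List.length_cons]

theorem Nsym_coeff (ξ : Fin 3 → ℝ) (x : NW J) (m : ℕ) :
    (Nsym ξ x).coeff m = ∑ I : Fin m → Fin 3, (∏ a, (ξ (I a) : ℂ)) •
      x.coeff (FreeMonoid.ofList (List.ofFn I)) := by
  classical
  induction x using MonoidAlgebra.induction_linear with
  | zero => simp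
  | add x y hx hy =>
    rw [map_add, Polynomial.coeff_add, hx, hy, ← Finset.sum_add_distrib]
    refine Finset.sum_congr rfl fun I _ => ?_
    rw [MonoidAlgebra.coeff_add, Finsupp.add_apply, smul_add]
  | single w B =>
    rw [Nsym, MonoidAlgebra.liftNCRingHom_single, N_word, Polynomial.C_mul_monomial,
      Polynomial.coeff_monomial]
    have h1 : ∀ I : Fin m → Fin 3, (∏ a, (ξ (I a) : ℂ)) •
        (MonoidAlgebra.single w B : NW J).coeff (FreeMonoid.ofList (List.ofFn I)) =
        (if List.ofFn I = FreeMonoid.toList w then (∏ a, (ξ (I a) : ℂ)) else 0) • B := by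
      intro I
      rw [MonoidAlgebra.coeff_single, Finsupp.single_apply]
      by_cases h : List.ofFn I = FreeMonoid.toList w
      · have h' : w = FreeMonoid.ofList (List.ofFn I) := by
          rw [h, FreeMonoid.ofList_toList]
        rw [if_pos h', if_pos h]
      · have h' : ¬ (w = FreeMonoid.ofList (List.ofFn I)) := by
          intro h'
          rw [h', FreeMonoid.toList_ofList] at h
          exact h rfl
        rw [if_neg h', if_neg h, smul_zero, zero_smul]
    simp only [h1]
    rw [← Finset.sum_smul, N_wsum (fun i => (ξ i : ℂ)) m (FreeMonoid.toList w)]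
    have h2 : (FreeMonoid.toList w).length = FreeMonoid.length w := rfl
    rw [h2]
    by_cases h : FreeMonoid.length w = m
    · rw [if_pos h, if_pos h]
      simp
    · rw [if_neg h, if_neg h, zero_smul]

/-! ### The action of the orthogonal group -/

/-- conjugation of constant matrices -/
private def Nc (T T' : Matrix J J ℂ) (h : T' * T = 1) (h' : T * T' = 1) :
    Matrix J J ℂ →+* NW J where
  toFun B := NM (T * B * T')
  map_one' := by rw [mul_one, h', NM_one]
  map_mul' B C := by
    rw [NM_mul]
    congr 1
    calc T * (B * C) * T' = T * B * (T' * T) * C * T' := by rw [h, mul_one]; simp only [mul_assoc]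
      _ = _ := by simp only [mul_assoc]
  map_zero' := by
    rw [mul_zero, zero_mul]
    exact MonoidAlgebra.single_zero _
  map_add' B C := by rw [mul_add, add_mul, NM_add]

private theorem N_comm_X (B : Matrix J J ℂ) (c : Fin 3 → ℂ) :
    Commute (NM B) (∑ l, c l • NX J l) := by
  refine Commute.sum_right _ _ _ fun l _ => ?_
  refine Commute.smul_right ?_ _
  exact NM_comm B l

/-- the action of an orthogonal matrix -/
def Nact (T T' : Matrix J J ℂ) (h : T' * T = 1) (h' : T * T' = 1) (m : Matrix (Fin 3) (Fin 3) ℝ) :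
    NW J →+* NW J :=
  MonoidAlgebra.liftNCRingHom (Nc T T' h h')
    (FreeMonoid.lift fun i => ∑ l, (m l i : ℂ) • NX J l) (by
    intro B w
    induction w using FreeMonoid.recOn with
    | one => rw [map_one]; exact Commute.one_right _
    | of_mul x xs ih =>
      rw [map_mul, FreeMonoid.lift_eval_of]
      exact Commute.mul_right (N_comm_X _ _) ih)

section

variable {T T' : Matrix J J ℂ} {h : T' * T = 1} {h' : T * T' = 1} {m : Matrix (Fin 3) (Fin 3) ℝ}

theorem Nact_M (B : Matrix J J ℂ) : Nact T T' h h' m (NM B) = NM (T * B * T') := by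
  rw [Nact, NM, MonoidAlgebra.liftNCRingHom_single, map_one, mul_one]
  rfl

theorem Nact_X (i : Fin 3) : Nact T T' h h' m (NX J i) = ∑ l, (m l i : ℂ) • NX J l := by
  rw [Nact, NX, MonoidAlgebra.liftNCRingHom_single, FreeMonoid.lift_eval_of, map_one, one_mul]

theorem Nact_smul (c : ℂ) (x : NW J) : Nact T T' h h' m (c • x) = c • Nact T T' h h' m x := by
  rw [N_smul, map_mul, Nact_M, Matrix.mul_smul, mul_one, Matrix.smul_mul, h', ← N_smul]

theorem Nact_sq (hm : m * mᵀ = 1) {u : Fin 3 → NW J}
    (hu : ∀ i, Nact T T' h h' m (u i) = ∑ l, (m l i : ℂ) • u l) :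
    Nact T T' h h' m (∑ i, u i * u i) = ∑ i, u i * u i := by
  have hm' : ∀ l l', ∑ i, (m l i : ℂ) * (m l' i : ℂ) = if l = l' then 1 else 0 := by
    intro l l'
    have h1 := congrFun (congrFun hm l) l'
    rw [Matrix.mul_apply, Matrix.one_apply] at h1
    have h2 := congrArg (fun x : ℝ => (x : ℂ)) h1
    simp only [Matrix.transpose_apply] at h2
    by_cases hl : l = l'
    · rw [if_pos hl] at h2 ⊢
      push_cast at h2
      exact h2
    · rw [if_neg hl] at h2 ⊢
      push_cast at h2
      exact h2
  rw [map_sum]
  calc ∑ i, Nact T T' h h' m (u i * u i)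
      = ∑ i, ∑ l, ∑ l', ((m l i : ℂ) * (m l' i : ℂ)) • (u l * u l') := by
        refine Finset.sum_congr rfl fun i _ => ?_
        rw [map_mul, hu, Finset.sum_mul]
        refine Finset.sum_congr rfl fun l _ => ?_
        rw [Finset.mul_sum]
        refine Finset.sum_congr rfl fun l' _ => ?_
        rw [smul_mul_smul_comm]
    _ = ∑ l, ∑ i, ∑ l', ((m l i : ℂ) * (m l' i : ℂ)) • (u l * u l') := Finset.sum_comm
    _ = ∑ l, ∑ l', ∑ i, ((m l i : ℂ) * (m l' i : ℂ)) • (u l * u l') :=
        Finset.sum_congr rfl fun l _ => Finset.sum_comm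
    _ = ∑ l, ∑ l', (if l = l' then (1 : ℂ) else 0) • (u l * u l') := by
        refine Finset.sum_congr rfl fun l _ => Finset.sum_congr rfl fun l' _ => ?_
        rw [← Finset.sum_smul, hm']
    _ = _ := by
        refine Finset.sum_congr rfl fun l _ => ?_
        simp

end

private theorem NM_mul_coeff (C : Matrix J J ℂ) (y : NW J) (u : FreeMonoid (Fin 3)) :
    (NM C * y).coeff u = C * y.coeff u :=
  MonoidAlgebra.coeff_single_mul_eq_mul_coeff u (fun m' _ => by rw [one_mul])

private theorem NX_mul_coeff_one (l : Fin 3) (y : NW J) : (NX J l * y).coeff 1 = 0 := by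
  refine MonoidAlgebra.coeff_single_mul_of_forall_mul_ne 1 y ?_
  intro d hd
  have h1 := congrArg FreeMonoid.length hd
  rw [FreeMonoid.length_mul, FreeMonoid.length_of, FreeMonoid.length_one] at h1
  omega

private theorem NX_mul_coeff (l l' : Fin 3) (y : NW J) (u : FreeMonoid (Fin 3)) :
    (NX J l * y).coeff (FreeMonoid.of l' * u) = if l = l' then y.coeff u else 0 := by
  by_cases hl : l = l'
  · subst hl
    rw [if_pos rfl, NX, MonoidAlgebra.coeff_single_mul_eq_mul_coeff u, one_mul]
    intro m' _
    exact mul_right_inj (FreeMonoid.of l)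
  · rw [if_neg hl]
    refine MonoidAlgebra.coeff_single_mul_of_forall_mul_ne 1 y ?_
    intro d hd
    have h1 := congrArg FreeMonoid.toList hd
    rw [FreeMonoid.toList_mul, FreeMonoid.toList_mul, FreeMonoid.toList_of,
      FreeMonoid.toList_of, List.singleton_append, List.singleton_append] at h1
    exact hl (List.cons.inj h1).1

private theorem N_actword (m : Matrix (Fin 3) (Fin 3) ℝ) (w : FreeMonoid (Fin 3)) :
    ∀ (r : ℕ) (L : Fin r → Fin 3),
    ((FreeMonoid.lift fun i => ∑ l, (m l i : ℂ) • NX J l) w).coeff
      (FreeMonoid.ofList (List.ofFn L)) =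
      (∑ I : Fin r → Fin 3, if List.ofFn I = FreeMonoid.toList w then
        (∏ a, (m (L a) (I a) : ℂ)) else 0) • (1 : Matrix J J ℂ) := by
  classical
  induction w using FreeMonoid.recOn with
  | one =>
    intro r L
    rw [map_one, FreeMonoid.toList_one]
    cases r with
    | zero =>
      rw [Fintype.sum_unique]
      simp [MonoidAlgebra.one_def]
    | succ r =>
      rw [MonoidAlgebra.one_def, MonoidAlgebra.coeff_single, Finsupp.single_apply, if_neg]
      · simp
      · intro hh
        have h1 := congrArg FreeMonoid.length hh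
        rw [FreeMonoid.length_one] at h1
        have h2 : FreeMonoid.length (FreeMonoid.ofList (List.ofFn L)) = r + 1 := by
          show (List.ofFn L).length = r + 1
          rw [List.length_ofFn]
        omega
  | of_mul x xs ih =>
    intro r L
    rw [map_mul, FreeMonoid.lift_eval_of, Finset.sum_mul, MonoidAlgebra.coeff_sum,
      Finset.sum_apply']
    cases r with
    | zero =>
      have h1 : ∀ l : Fin 3, (((m l x : ℂ) • NX J l) *
          (FreeMonoid.lift fun i => ∑ l, (m l i : ℂ) • NX J l) xs).coeff
            (FreeMonoid.ofList (List.ofFn L)) = 0 := by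
        intro l
        rw [smul_mul_assoc, MonoidAlgebra.coeff_smul_apply]
        have h2 : FreeMonoid.ofList (List.ofFn L) = 1 := rfl
        rw [h2, NX_mul_coeff_one, smul_zero]
      simp only [h1]
      rw [FreeMonoid.toList_mul, FreeMonoid.toList_of]
      have h3 : ∀ I : Fin 0 → Fin 3, (if List.ofFn I = [x] ++ FreeMonoid.toList xs then
          (∏ a, (m (L a) (I a) : ℂ)) else 0) = 0 := by
        intro I
        rw [if_neg]
        simp
      simp only [h3, Finset.sum_const_zero, zero_smul]
    | succ r =>
      have h0 : FreeMonoid.ofList (List.ofFn L) =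
          FreeMonoid.of (L 0) * FreeMonoid.ofList (List.ofFn fun a => L (Fin.succ a)) := by
        rw [List.ofFn_succ]
        rfl
      have h1 : ∀ l : Fin 3, (((m l x : ℂ) • NX J l) *
          (FreeMonoid.lift fun i => ∑ l, (m l i : ℂ) • NX J l) xs).coeff
            (FreeMonoid.ofList (List.ofFn L)) = if l = L 0 then (m (L 0) x : ℂ) •
            ((FreeMonoid.lift fun i => ∑ l, (m l i : ℂ) • NX J l) xs).coeff
              (FreeMonoid.ofList (List.ofFn fun a => L (Fin.succ a))) else 0 := by
        intro l
        rw [smul_mul_assoc, MonoidAlgebra.coeff_smul_apply, h0, NX_mul_coeff]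
        by_cases hl : l = L 0
        · rw [if_pos hl, if_pos hl, hl]
        · rw [if_neg hl, if_neg hl, smul_zero]
      simp only [h1]
      rw [Finset.sum_ite_eq' Finset.univ (L 0), if_pos (Finset.mem_univ _), ih r, smul_smul,
        N_sum_cons]
      congr 1
      have h2 : ∀ (i : Fin 3) (I : Fin r → Fin 3),
          (if List.ofFn (Fin.cons i I : Fin (r + 1) → Fin 3) =
            FreeMonoid.toList (FreeMonoid.of x * xs) then
            (∏ b, (m (L b) ((Fin.cons i I : Fin (r + 1) → Fin 3) b) : ℂ)) else 0) =
          if i = x then (m (L 0) x : ℂ) * (if List.ofFn I = FreeMonoid.toList xs then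
            (∏ b, (m (L (Fin.succ b)) (I b) : ℂ)) else 0) else 0 := by
        intro i I
        rw [List.ofFn_succ, Fin.prod_univ_succ, FreeMonoid.toList_mul, FreeMonoid.toList_of,
          List.singleton_append]
        simp only [Fin.cons_zero, Fin.cons_succ, List.cons.injEq]
        by_cases hi : i = x
        · subst hi
          by_cases hI : List.ofFn I = FreeMonoid.toList xs
          · simp [hI]
          · simp [hI]
        · simp [hi]
      simp only [h2]
      have h3 : ∀ i : Fin 3, ∑ I : Fin r → Fin 3,
          (if i = x then (m (L 0) x : ℂ) * (if List.ofFn I = FreeMonoid.toList xs then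
            (∏ b, (m (L (Fin.succ b)) (I b) : ℂ)) else 0) else 0) =
          if i = x then (m (L 0) x : ℂ) * ∑ I : Fin r → Fin 3,
            (if List.ofFn I = FreeMonoid.toList xs then
            (∏ b, (m (L (Fin.succ b)) (I b) : ℂ)) else 0) else 0 := by
        intro i
        by_cases hi : i = x
        · simp only [if_pos hi]
          rw [← Finset.mul_sum]
        · simp only [if_neg hi, Finset.sum_const_zero]
      simp only [h3]
      rw [Finset.sum_ite_eq' Finset.univ x, if_pos (Finset.mem_univ _)]

theorem Nact_coeff {T T' : Matrix J J ℂ} {h : T' * T = 1} {h' : T * T' = 1}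
    {m : Matrix (Fin 3) (Fin 3) ℝ} (x : NW J) (r : ℕ) (L : Fin r → Fin 3) :
    (Nact T T' h h' m x).coeff (FreeMonoid.ofList (List.ofFn L)) =
      ∑ I : Fin r → Fin 3, (∏ a, (m (L a) (I a) : ℂ)) •
        (T * x.coeff (FreeMonoid.ofList (List.ofFn I)) * T') := by
  classical
  induction x using MonoidAlgebra.induction_linear with
  | zero => simp
  | add x y hx hy =>
    rw [map_add, MonoidAlgebra.coeff_add, Finsupp.add_apply, hx, hy, ← Finset.sum_add_distrib]
    refine Finset.sum_congr rfl fun I _ => ?_
    rw [MonoidAlgebra.coeff_add, Finsupp.add_apply, mul_add, add_mul, smul_add]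
  | single w B =>
    rw [Nact, MonoidAlgebra.liftNCRingHom_single]
    show (NM (T * B * T') * _).coeff _ = _
    rw [NM_mul_coeff, N_actword, mul_smul_comm, mul_one, Finset.sum_smul]
    refine Finset.sum_congr rfl fun I _ => ?_
    rw [MonoidAlgebra.coeff_single, Finsupp.single_apply]
    by_cases hI : List.ofFn I = FreeMonoid.toList w
    · have h1 : w = FreeMonoid.ofList (List.ofFn I) := by
        rw [hI, FreeMonoid.ofList_toList]
      rw [if_pos h1, if_pos hI]
    · have h1 : ¬ (w = FreeMonoid.ofList (List.ofFn I)) := by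
        intro h1
        rw [h1, FreeMonoid.toList_ofList] at hI
        exact hI rfl
      rw [if_neg h1, if_neg hI, mul_zero, zero_mul, smul_zero, zero_smul]

/-! ### The formal adjoint -/

/-- the formal adjoint -/
def Nadj : NW J →+* (NW J)ᵐᵒᵖ :=
  MonoidAlgebra.liftNCRingHom
    { toFun := fun B => MulOpposite.op (NM Bᴴ)
      map_one' := by rw [Matrix.conjTranspose_one, NM_one]; rfl
      map_mul' := fun B C => by rw [Matrix.conjTranspose_mul, ← NM_mul]; rfl
      map_zero' := by
        rw [Matrix.conjTranspose_zero]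
        exact congrArg MulOpposite.op (MonoidAlgebra.single_zero _)
      map_add' := fun B C => by rw [Matrix.conjTranspose_add, NM_add]; rfl }
    (FreeMonoid.lift fun i => MulOpposite.op ((-1 : ℂ) • NX J i)) (by
    intro B w
    induction w using FreeMonoid.recOn with
    | one => rw [map_one]; exact Commute.one_right _
    | of_mul x xs ih =>
      rw [map_mul, FreeMonoid.lift_eval_of]
      refine Commute.mul_right ?_ ih
      show MulOpposite.op (NM Bᴴ) * MulOpposite.op ((-1 : ℂ) • NX J x) =
        MulOpposite.op ((-1 : ℂ) • NX J x) * MulOpposite.op (NM Bᴴ)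
      rw [← MulOpposite.op_mul, ← MulOpposite.op_mul, mul_smul_comm, smul_mul_assoc, NM_comm])

theorem Nadj_M (B : Matrix J J ℂ) : Nadj (NM B) = MulOpposite.op (NM Bᴴ) := by
  rw [Nadj, NM, MonoidAlgebra.liftNCRingHom_single, map_one, mul_one]
  rfl

theorem Nadj_X (i : Fin 3) : Nadj (NX J i) = MulOpposite.op ((-1 : ℂ) • NX J i) := by
  have h : Nadj (NX J i) = Nadj (MonoidAlgebra.single (FreeMonoid.of i) 1) := rfl
  rw [h, Nadj, MonoidAlgebra.liftNCRingHom_single, FreeMonoid.lift_eval_of, map_one, one_mul]

theorem Nadj_smul (c : ℂ) (x : NW J) :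
    Nadj (c • x) = MulOpposite.op (star c • (Nadj x).unop) := by
  rw [N_smul, map_mul, Nadj_M, Matrix.conjTranspose_smul, Matrix.conjTranspose_one]
  refine MulOpposite.unop_injective ?_
  rw [MulOpposite.unop_mul, MulOpposite.unop_op, MulOpposite.unop_op, ← N_smul']

theorem Nadj_single (w : FreeMonoid (Fin 3)) (B : Matrix J J ℂ) :
    (Nadj (MonoidAlgebra.single w B : NW J)).unop =
      MonoidAlgebra.single (FreeMonoid.ofList (FreeMonoid.toList w).reverse)
        ((-1 : ℂ) ^ FreeMonoid.length w • Bᴴ) := by
  have h : ∀ w : FreeMonoid (Fin 3),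
      ((FreeMonoid.lift fun i => MulOpposite.op ((-1 : ℂ) • NX J i)) w).unop =
      MonoidAlgebra.single (FreeMonoid.ofList (FreeMonoid.toList w).reverse)
        ((-1 : ℂ) ^ FreeMonoid.length w • (1 : Matrix J J ℂ)) := by
    intro w
    induction w using FreeMonoid.recOn with
    | one =>
      rw [map_one, FreeMonoid.length_one, pow_zero, one_smul]
      rfl
    | of_mul x xs ih =>
      rw [map_mul, FreeMonoid.lift_eval_of, MulOpposite.unop_mul, ih, MulOpposite.unop_op,
        mul_smul_comm, NX, MonoidAlgebra.single_mul_single, FreeMonoid.length_mul,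
        FreeMonoid.length_of, MonoidAlgebra.smul_single]
      rw [FreeMonoid.toList_mul, FreeMonoid.toList_of, List.reverse_append, List.reverse_singleton]
      congr 1
      rw [pow_add, pow_one, mul_one, smul_smul]
  rw [Nadj, MonoidAlgebra.liftNCRingHom_single, MulOpposite.unop_mul, h]
  show _ * NM Bᴴ = _
  rw [NM, MonoidAlgebra.single_mul_single, mul_one, Matrix.smul_mul, one_mul]

end

end Pool.Agent.Work.MP_14c213_gt
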