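import Pool.Agent.Work.MP_14c213_gt.A.Pull
import Pool.Agent.Work.MP_14c213_gt.A.RepM
import Pool.Agent.Work.MP_14c213_gt.A.Lin
import Pool.Agent.Work.MP_14c213_gt.A.FormKit
import Pool.Agent.Work.MP_14c213_gt.A.NatW

/-!
Calculus of coefficient families. Work in the ring MonoidAlgebra (Matrix (Ix k) (Ix k) ℂ)
(FreeMonoid (Fin 3)) (words of covariant derivatives with matrix coefficients); eval to operators on
smooth functions is multiplicative since constant matrices commute with ∇_i. Natural elements (O(3)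
invariant coefficients) form a subalgebra. C₀ = -∑ [i,i] + ck, P₀ = -∑ ([i] + bY i)([i] + bY i),
P₀* = -∑(-[i] + bY i)(-[i] + bY i) are natural; the anti-automorphism B·I ↦ (-1)^|I| Bᴴ·rev I fixes C₀ and
exchanges P₀, P₀*. The top degree 2M part of Q(C₀) + ... is leading coeff · (-∑[i][i])^M, its symbol is
(i)^(2M) (-1)^M ∑... = |ξ|^(2M) · 1.
-/

namespace Pool.Agent.Work.MP_14c213_gt

open Matrix MeasureTheory
open scoped Matrix ContDiff Matrix.Norms.Elementwise

noncomputable section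

section eval

variable (J : Type) [Fintype J] [DecidableEq J]

/-- smooth functions on frames -/
private def NSm : Submodule ℂ (Mat 3 → J → ℂ) where
  carrier := {F | SmF F}
  zero_mem' := ⟨fun _ _ => rfl, contDiffOn_const⟩
  add_mem' := fun {F G} hF hG => ⟨fun g hg => by
    rw [Pi.add_apply, hF.1 g hg, hG.1 g hg, add_zero], hF.2.add hG.2⟩
  smul_mem' := fun c F hF => ⟨fun g hg => by
    rw [Pi.smul_apply, hF.1 g hg, smul_zero], hF.2.const_smul c⟩

/-- smooth functions on GL₂(ℂ) -/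
private def NSe : Submodule ℂ (M2 → J → ℂ) where
  carrier := {F | (∀ g, g ∉ GLo → F g = 0) ∧ ContDiffOn ℝ ∞ F GLo}
  zero_mem' := ⟨fun _ _ => rfl, contDiffOn_const⟩
  add_mem' := fun {F G} hF hG => ⟨fun g hg => by
    rw [Pi.add_apply, hF.1 g hg, hG.1 g hg, add_zero], hF.2.add hG.2⟩
  smul_mem' := fun c F hF => ⟨fun g hg => by
    rw [Pi.smul_apply, hF.1 g hg, smul_zero], hF.2.const_smul c⟩

private def NnabL (i : Fin 3) : NSm J →ₗ[ℂ] NSm J where
  toFun F := ⟨nabla i F.1, nabla_smF F.2 i⟩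
  map_add' F G := by
    refine Subtype.ext ?_
    have h := nabla_linear F.2 G.2 1 i
    rw [one_smul, one_smul] at h
    exact h
  map_smul' c F := by
    refine Subtype.ext ?_
    have h := nabla_mulVec F.2 (c • (1 : Matrix J J ℂ)) i
    have e : ∀ G : Mat 3 → J → ℂ, (fun g => (c • (1 : Matrix J J ℂ)) *ᵥ G g) = c • G := by
      intro G
      funext g
      rw [Matrix.smul_mulVec, Matrix.one_mulVec]
      rfl
    rw [e, e] at h
    exact h

private def NmatL : Matrix J J ℂ →ₐ[ℂ] Module.End ℂ (NSm J) where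
  toFun B :=
    { toFun := fun F => ⟨fun g => B *ᵥ F.1 g, fun g hg => by
        show B *ᵥ F.1 g = 0
        rw [F.2.1 g hg, Matrix.mulVec_zero],
        (LinearMap.toContinuousLinearMap
          ((Matrix.mulVecLin B).restrictScalars ℝ)).contDiff.comp_contDiffOn F.2.2⟩
      map_add' := fun F G => Subtype.ext (funext fun g => Matrix.mulVec_add _ _ _)
      map_smul' := fun c F => Subtype.ext (funext fun g =>
        show B *ᵥ (c • F.1 g) = c • (B *ᵥ F.1 g) from Matrix.mulVec_smul _ _ _) }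
  map_one' := LinearMap.ext fun F => Subtype.ext (funext fun g => Matrix.one_mulVec _)
  map_mul' B C := LinearMap.ext fun F => Subtype.ext (funext fun g =>
    (Matrix.mulVec_mulVec (F.1 g) B C).symm)
  map_zero' := LinearMap.ext fun F => Subtype.ext (funext fun g => Matrix.zero_mulVec _)
  map_add' B C := LinearMap.ext fun F => Subtype.ext (funext fun g => Matrix.add_mulVec _ _ _)
  commutes' c := LinearMap.ext fun F => Subtype.ext (funext fun g => by
    show (algebraMap ℂ (Matrix J J ℂ) c) *ᵥ F.1 g = c • F.1 g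
    rw [Algebra.algebraMap_eq_smul_one, Matrix.smul_mulVec, Matrix.one_mulVec])

private def NEL (i : Fin 3) : NSe J →ₗ[ℂ] NSe J where
  toFun F := ⟨E (eX i) F.1, fun g hg => E_off F.2.1 (eX i) hg, E_smooth F.2.2 (eX i)⟩
  map_add' F G := by
    refine Subtype.ext (funext fun g => ?_)
    show E (eX i) (F.1 + G.1) g = E (eX i) F.1 g + E (eX i) G.1 g
    by_cases hg : g ∈ GLo
    · exact E_add F.2.2 G.2.2 _ hg
    · rw [E_off F.2.1 (eX i) hg, E_off G.2.1 (eX i) hg, E_off (fun g hg => by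
        rw [Pi.add_apply, F.2.1 g hg, G.2.1 g hg, add_zero]) (eX i) hg, add_zero]
  map_smul' c F := by
    refine Subtype.ext (funext fun g => ?_)
    show E (eX i) (c • F.1) g = c • E (eX i) F.1 g
    by_cases hg : g ∈ GLo
    · have h := E_mulVec (c • (1 : Matrix J J ℂ)) F.2.2 (eX i) hg
      have e : (fun x => (c • (1 : Matrix J J ℂ)) *ᵥ F.1 x) = c • F.1 := by
        funext g
        rw [Matrix.smul_mulVec, Matrix.one_mulVec]
        rfl
      rw [e, Matrix.smul_mulVec, Matrix.one_mulVec] at h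
      exact h
    · rw [E_off F.2.1 (eX i) hg, E_off (fun g hg => by
        rw [Pi.smul_apply, F.2.1 g hg, smul_zero]) (eX i) hg, smul_zero]

private def NmatE : Matrix J J ℂ →ₐ[ℂ] Module.End ℂ (NSe J) where
  toFun B :=
    { toFun := fun F => ⟨fun g => B *ᵥ F.1 g, fun g hg => by
        show B *ᵥ F.1 g = 0
        rw [F.2.1 g hg, Matrix.mulVec_zero], smooth_mulVec B F.2.2⟩
      map_add' := fun F G => Subtype.ext (funext fun g => Matrix.mulVec_add _ _ _)
      map_smul' := fun c F => Subtype.ext (funext fun g =>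
        show B *ᵥ (c • F.1 g) = c • (B *ᵥ F.1 g) from Matrix.mulVec_smul _ _ _) }
  map_one' := LinearMap.ext fun F => Subtype.ext (funext fun g => Matrix.one_mulVec _)
  map_mul' B C := LinearMap.ext fun F => Subtype.ext (funext fun g =>
    (Matrix.mulVec_mulVec (F.1 g) B C).symm)
  map_zero' := LinearMap.ext fun F => Subtype.ext (funext fun g => Matrix.zero_mulVec _)
  map_add' B C := LinearMap.ext fun F => Subtype.ext (funext fun g => Matrix.add_mulVec _ _ _)
  commutes' c := LinearMap.ext fun F => Subtype.ext (funext fun g => by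
    show (algebraMap ℂ (Matrix J J ℂ) c) *ᵥ F.1 g = c • F.1 g
    rw [Algebra.algebraMap_eq_smul_one, Matrix.smul_mulVec, Matrix.one_mulVec])

/-- evaluation on frames -/
private def Nev : NW J →ₐ[ℂ] Module.End ℂ (NSm J) :=
  MonoidAlgebra.liftNCAlgHom (NmatL J) (FreeMonoid.lift (NnabL J)) (by
    intro B w
    induction w using FreeMonoid.recOn with
    | one => rw [map_one]; exact Commute.one_right _
    | of_mul x xs ih =>
      rw [map_mul, FreeMonoid.lift_eval_of]
      refine Commute.mul_right ?_ ih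
      refine LinearMap.ext fun F => Subtype.ext ?_
      exact (nabla_mulVec F.2 B x).symm)

/-- evaluation on GL₂(ℂ) -/
private def NevE : NW J →ₐ[ℂ] Module.End ℂ (NSe J) :=
  MonoidAlgebra.liftNCAlgHom (NmatE J) (FreeMonoid.lift (NEL J)) (by
    intro B w
    induction w using FreeMonoid.recOn with
    | one => rw [map_one]; exact Commute.one_right _
    | of_mul x xs ih =>
      rw [map_mul, FreeMonoid.lift_eval_of]
      refine Commute.mul_right ?_ ih
      refine LinearMap.ext fun F => Subtype.ext (funext fun g => ?_)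
      show B *ᵥ E (eX x) F.1 g = E (eX x) (fun g => B *ᵥ F.1 g) g
      by_cases hg : g ∈ GLo
      · exact (E_mulVec B F.2.2 (eX x) hg).symm
      · rw [E_off F.2.1 (eX x) hg, Matrix.mulVec_zero, E_off (fun g hg => by
          rw [F.2.1 g hg, Matrix.mulVec_zero]) (eX x) hg])

variable {J}

private theorem Nev_single (w : FreeMonoid (Fin 3)) (B : Matrix J J ℂ) (F : NSm J) :
    (Nev J (MonoidAlgebra.single w B) F).1 = fun g => B *ᵥ nablas (FreeMonoid.toList w) F.1 g := by
  have h : ∀ w : FreeMonoid (Fin 3), ∀ F : NSm J,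
      (FreeMonoid.lift (NnabL J) w F).1 = nablas (FreeMonoid.toList w) F.1 := by
    intro w
    induction w using FreeMonoid.recOn with
    | one => intro F; rfl
    | of_mul x xs ih =>
      intro F
      rw [map_mul, FreeMonoid.lift_eval_of]
      show nabla x (FreeMonoid.lift (NnabL J) xs F).1 = _
      rw [ih]
      rfl
  rw [Nev, MonoidAlgebra.coe_liftNCAlgHom]
  have h2 : MonoidAlgebra.liftNC ((NmatL J : Matrix J J ℂ →ₐ[ℂ] Module.End ℂ (NSm J)) :
      Matrix J J ℂ →+ Module.End ℂ (NSm J)) (FreeMonoid.lift (NnabL J))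
      (MonoidAlgebra.single w B) = NmatL J B * FreeMonoid.lift (NnabL J) w :=
    MonoidAlgebra.liftNC_single _ _ _ _
  have h3 := congrArg (fun T => (T F).1) h2
  refine h3.trans ?_
  show (fun g => B *ᵥ (FreeMonoid.lift (NnabL J) w F).1 g) = _
  rw [h]

private theorem NevE_single (w : FreeMonoid (Fin 3)) (B : Matrix J J ℂ) (F : NSe J) :
    (NevE J (MonoidAlgebra.single w B) F).1 =
      fun g => B *ᵥ (FreeMonoid.lift (NEL J) w F).1 g := by
  rw [NevE, MonoidAlgebra.coe_liftNCAlgHom]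
  have h2 : MonoidAlgebra.liftNC ((NmatE J : Matrix J J ℂ →ₐ[ℂ] Module.End ℂ (NSe J)) :
      Matrix J J ℂ →+ Module.End ℂ (NSe J)) (FreeMonoid.lift (NEL J))
      (MonoidAlgebra.single w B) = NmatE J B * FreeMonoid.lift (NEL J) w :=
    MonoidAlgebra.liftNC_single _ _ _ _
  exact congrArg (fun T => (T F).1) h2

/-- the coefficient family -/
private def ND (x : NW J) : List (Fin 3) →₀ Matrix J J ℂ := x.coeff

private theorem N_opOf (x : NW J) (F : NSm J) : opOf (ND x) F.1 = (Nev J x F).1 := by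
  induction x using MonoidAlgebra.induction_linear with
  | zero =>
    rw [map_zero]
    funext g
    rfl
  | add x y hx hy =>
    rw [map_add]
    show _ = (Nev J x F).1 + (Nev J y F).1
    rw [← hx, ← hy]
    funext g
    show ((ND x + ND y).sum fun I B => B *ᵥ nablas I F.1 g) = _
    rw [Finsupp.sum_add_index' (fun a => Matrix.zero_mulVec _)
      (fun a b c => Matrix.add_mulVec _ _ _)]
    rfl
  | single w B =>
    rw [Nev_single]
    funext g
    show ((Finsupp.single (FreeMonoid.toList w) B).sum fun I B => B *ᵥ nablas I F.1 g) = _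
    rw [Finsupp.sum_single_index (Matrix.zero_mulVec _)]

private theorem N_adjOf (x : NW J) (F : NSm J) : adjOf (ND x) F.1 = opOf (ND (Nadj x).unop) F.1 := by
  induction x using MonoidAlgebra.induction_linear with
  | zero =>
    rw [map_zero]
    funext g
    rfl
  | add x y hx hy =>
    funext g
    have h1 : opOf (ND (Nadj (x + y)).unop) F.1 g =
        opOf (ND (Nadj x).unop) F.1 g + opOf (ND (Nadj y).unop) F.1 g := by
      rw [N_opOf, N_opOf, N_opOf, map_add, MulOpposite.unop_add, map_add]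
      rfl
    rw [h1, ← hx, ← hy]
    show ((ND x + ND y).sum fun I B => (-1 : ℂ) ^ I.length •
      nablas I.reverse (fun h => Bᴴ *ᵥ F.1 h) g) = _
    have hzero : ∀ I : List (Fin 3), nablas I (0 : Mat 3 → J → ℂ) = 0 := by
      intro I
      induction I with
      | nil => rfl
      | cons i I ih =>
        show nabla i (nablas I 0) = 0
        rw [ih]
        funext g
        show deriv (fun _ : ℝ => (0 : J → ℂ)) 0 = 0
        exact deriv_const _ _
    rw [Finsupp.sum_add_index']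
    · rfl
    · intro I
      have h2 : (fun h => (0 : Matrix J J ℂ)ᴴ *ᵥ F.1 h) = 0 := by
        funext h
        rw [Matrix.conjTranspose_zero, Matrix.zero_mulVec]
        rfl
      rw [h2, hzero]
      simp
    · intro I B C
      rw [← smul_add]
      congr 1
      have key : ∀ B : Matrix J J ℂ, nablas I.reverse (fun h => Bᴴ *ᵥ F.1 h) =
          (Nev J (MonoidAlgebra.single (FreeMonoid.ofList I.reverse) 1) ⟨fun h => Bᴴ *ᵥ F.1 h,
            (NmatL J Bᴴ F).2⟩).1 := by
        intro B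
        rw [Nev_single]
        funext g
        rw [Matrix.one_mulVec]
        rfl
      rw [key, key, key]
      have h3 : (⟨fun h => (B + C)ᴴ *ᵥ F.1 h, (NmatL J (B + C)ᴴ F).2⟩ : NSm J) =
          ⟨fun h => Bᴴ *ᵥ F.1 h, (NmatL J Bᴴ F).2⟩ + ⟨fun h => Cᴴ *ᵥ F.1 h, (NmatL J Cᴴ F).2⟩ := by
        refine Subtype.ext (funext fun h => ?_)
        show (B + C)ᴴ *ᵥ F.1 h = Bᴴ *ᵥ F.1 h + Cᴴ *ᵥ F.1 h
        rw [Matrix.conjTranspose_add, Matrix.add_mulVec]
      rw [h3, map_add]
      rfl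
  | single w B =>
    rw [Nadj_single]
    funext g
    have h1 : adjOf (ND (MonoidAlgebra.single w B)) F.1 g = (-1 : ℂ) ^ FreeMonoid.length w •
        nablas (FreeMonoid.toList w).reverse (fun h => Bᴴ *ᵥ F.1 h) g := by
      show ((Finsupp.single (FreeMonoid.toList w) B).sum fun I B => (-1 : ℂ) ^ I.length •
        nablas I.reverse (fun h => Bᴴ *ᵥ F.1 h) g) = _
      rw [Finsupp.sum_single_index]
      · rfl
      · have hzero : ∀ I : List (Fin 3), nablas I (0 : Mat 3 → J → ℂ) = 0 := by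
          intro I
          induction I with
          | nil => rfl
          | cons i I ih =>
            show nabla i (nablas I 0) = 0
            rw [ih]
            funext g
            show deriv (fun _ : ℝ => (0 : J → ℂ)) 0 = 0
            exact deriv_const _ _
        have h2 : (fun h => (0 : Matrix J J ℂ)ᴴ *ᵥ F.1 h) = 0 := by
          funext h
          rw [Matrix.conjTranspose_zero, Matrix.zero_mulVec]
          rfl
        rw [h2, hzero]
        simp
    rw [h1, N_opOf, Nev_single]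
    show _ = ((-1 : ℂ) ^ FreeMonoid.length w • Bᴴ) *ᵥ
      nablas (FreeMonoid.toList w).reverse F.1 g
    rw [Matrix.smul_mulVec]
    congr 1
    have h4 : nablas (FreeMonoid.toList w).reverse (fun h => Bᴴ *ᵥ F.1 h) =
        (Nev J (MonoidAlgebra.single (FreeMonoid.ofList (FreeMonoid.toList w).reverse) 1)
          (NmatL J Bᴴ F)).1 := by
      rw [Nev_single]
      funext g
      rw [Matrix.one_mulVec]
      rfl
    have h5 : NmatL J Bᴴ F = Nev J (NM Bᴴ) F := by
      refine Subtype.ext ?_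
      rw [NM, Nev_single]
      rfl
    rw [h4, h5]
    have h6 : Nev J (MonoidAlgebra.single (FreeMonoid.ofList (FreeMonoid.toList w).reverse) 1)
        (Nev J (NM Bᴴ) F) = Nev J (MonoidAlgebra.single
          (FreeMonoid.ofList (FreeMonoid.toList w).reverse) 1 * NM Bᴴ) F := by
      rw [map_mul]
      rfl
    rw [h6, NM, MonoidAlgebra.single_mul_single, mul_one, one_mul, Nev_single]
    rfl

/-- pull back between the two evaluations -/
private def Npl (F : NSm J) : NSe J :=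
  ⟨pull F.1, (pull_smooth F.2).2.1, (pull_smooth F.2).1⟩

private theorem N_pull (x : NW J) (F : NSm J) : Npl (Nev J x F) = NevE J x (Npl F) := by
  have hadd : ∀ F G : NSm J, Npl (F + G) = Npl F + Npl G := by
    intro F G
    refine Subtype.ext (funext fun g => ?_)
    show pull (F.1 + G.1) g = pull F.1 g + pull G.1 g
    simp only [pull, Pi.add_apply]
    split_ifs
    · rw [add_zero]
    · rfl
  have hw : ∀ w : FreeMonoid (Fin 3), ∀ F : NSm J,
      Npl (FreeMonoid.lift (NnabL J) w F) = FreeMonoid.lift (NEL J) w (Npl F) := by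
    intro w
    induction w using FreeMonoid.recOn with
    | one => intro F; rfl
    | of_mul x xs ih =>
      intro F
      rw [map_mul, map_mul, FreeMonoid.lift_eval_of, FreeMonoid.lift_eval_of]
      show Npl (NnabL J x (FreeMonoid.lift (NnabL J) xs F)) =
        NEL J x (FreeMonoid.lift (NEL J) xs (Npl F))
      rw [← ih]
      refine Subtype.ext ?_
      exact pull_nabla (FreeMonoid.lift (NnabL J) xs F).2 x
  induction x using MonoidAlgebra.induction_linear with
  | zero =>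
    rw [map_zero, map_zero]
    refine Subtype.ext (funext fun g => ?_)
    show pull (0 : Mat 3 → J → ℂ) g = 0
    simp [pull]
  | add x y hx hy =>
    rw [map_add, map_add, LinearMap.add_apply, LinearMap.add_apply, hadd, hx, hy]
  | single w B =>
    refine Subtype.ext ?_
    rw [NevE_single, ← hw]
    funext g
    show pull (Nev J (MonoidAlgebra.single w B) F).1 g =
      B *ᵥ pull (FreeMonoid.lift (NnabL J) w F).1 g
    have h2 : (Nev J (MonoidAlgebra.single w B) F).1 =
        fun g => B *ᵥ (FreeMonoid.lift (NnabL J) w F).1 g := by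
      rw [Nev, MonoidAlgebra.coe_liftNCAlgHom]
      have h2 : MonoidAlgebra.liftNC ((NmatL J : Matrix J J ℂ →ₐ[ℂ] Module.End ℂ (NSm J)) :
          Matrix J J ℂ →+ Module.End ℂ (NSm J)) (FreeMonoid.lift (NnabL J))
          (MonoidAlgebra.single w B) = NmatL J B * FreeMonoid.lift (NnabL J) w :=
        MonoidAlgebra.liftNC_single _ _ _ _
      exact congrArg (fun T => (T F).1) h2
    rw [h2]
    simp only [pull]
    split_ifs
    · rw [Matrix.mulVec_zero]
    · rfl

end eval

/-! ### The operators -/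

private def NU (k : ℕ) (i : Fin 3) : NW (Ix k) := NX (Ix k) i + NM (drho k (bY i))
private def NV (k : ℕ) (i : Fin 3) : NW (Ix k) := (-1 : ℂ) • NX (Ix k) i + NM (drho k (bY i))
private def NC0 (k : ℕ) : NW (Ix k) := NM (ck k) + (-1 : ℂ) • ∑ i, NX (Ix k) i * NX (Ix k) i
private def NP0 (k : ℕ) : NW (Ix k) := (-1 : ℂ) • ∑ i, NU k i * NU k i
private def NPs (k : ℕ) : NW (Ix k) := (-1 : ℂ) • ∑ i, NV k i * NV k i

private theorem NevE_M (k : ℕ) (B : Matrix (Ix k) (Ix k) ℂ) (F : NSe (Ix k)) :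
    (NevE (Ix k) (NM B) F).1 = fun g => B *ᵥ F.1 g := by
  rw [NM, NevE_single]
  rfl

private theorem NevE_X (k : ℕ) (i : Fin 3) (F : NSe (Ix k)) :
    NevE (Ix k) (NX (Ix k) i) F = NEL (Ix k) i F := by
  refine Subtype.ext ?_
  rw [NX, NevE_single]
  funext g
  rw [Matrix.one_mulVec]
  rfl

/-- sections as smooth functions -/
private def Nio (k : ℕ) (Γ : Subgroup (Mat 3)ˣ) : Sect (tau k) Γ →ₗ[ℂ] NSe (Ix k) where
  toFun F := ⟨F.1, F.2.1, F.2.2.1⟩
  map_add' _ _ := rfl
  map_smul' _ _ := rfl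

private theorem Nio_C {k : ℕ} {Γ : Subgroup (Mat 3)ˣ} (F : Sect (tau k) Γ) :
    NevE (Ix k) (NC0 k) (Nio k Γ F) = Nio k Γ (CasL k Γ F) := by
  refine Subtype.ext (funext fun g => ?_)
  by_cases hg : g ∈ GLo
  · have h1 : (Nio k Γ (CasL k Γ F)).1 g = -(∑ i, E (eX i) (E (eX i) F.1) g) + ck k *ᵥ F.1 g :=
      Cas_eq F.2 hg
    rw [h1, NC0, map_add, LinearMap.add_apply, map_smul, LinearMap.smul_apply, map_sum,
      LinearMap.sum_apply]
    have h2 : ∀ i : Fin 3, NevE (Ix k) (NX (Ix k) i * NX (Ix k) i) (Nio k Γ F) =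
        NEL (Ix k) i (NEL (Ix k) i (Nio k Γ F)) := by
      intro i
      rw [map_mul, Module.End.mul_apply, NevE_X, NevE_X]
    simp only [h2]
    show (NevE (Ix k) (NM (ck k)) (Nio k Γ F)).1 g +
      (-1 : ℂ) • (∑ i, NEL (Ix k) i (NEL (Ix k) i (Nio k Γ F)) : NSe (Ix k)).1 g = _
    have h3 : (∑ i, NEL (Ix k) i (NEL (Ix k) i (Nio k Γ F)) : NSe (Ix k)).1 =
        ∑ i, E (eX i) (E (eX i) F.1) := by
      rw [Submodule.coe_sum]
      rfl
    rw [h3, NevE_M, Finset.sum_apply, neg_one_smul, add_comm]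
    rfl
  · rw [(NevE (Ix k) (NC0 k) (Nio k Γ F)).2.1 g hg, (Nio k Γ (CasL k Γ F)).2.1 g hg]

private theorem Nio_P {k : ℕ} {Γ : Subgroup (Mat 3)ˣ} (F : Sect (tau k) Γ) :
    NevE (Ix k) (NP0 k) (Nio k Γ F) = Nio k Γ (PL k Γ F) := by
  refine Subtype.ext ?_
  rw [NP0, map_smul, LinearMap.smul_apply, map_sum, LinearMap.sum_apply]
  have h2 : ∀ i : Fin 3, (NevE (Ix k) (NU k i * NU k i) (Nio k Γ F)).1 =
      Dfl k i (Dfl k i F.1) := by
    intro i
    have h3 : ∀ G : NSe (Ix k), (NevE (Ix k) (NU k i) G).1 = Dfl k i G.1 := by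
      intro G
      rw [NU, map_add, LinearMap.add_apply, NevE_X]
      show E (eX i) G.1 + (NevE (Ix k) (NM (drho k (bY i))) G).1 = _
      rw [NevE_M]
      rfl
    rw [map_mul, Module.End.mul_apply, h3, h3]
    rfl
  show (-1 : ℂ) • (∑ i, NevE (Ix k) (NU k i * NU k i) (Nio k Γ F) : NSe (Ix k)).1 = Pop k F.1
  rw [Submodule.coe_sum]
  simp only [h2]
  funext g
  rw [Pi.smul_apply, Finset.sum_apply, neg_one_smul]
  rfl

private theorem Nio_Ps {k : ℕ} {Γ : Subgroup (Mat 3)ˣ} (F : Sect (tau k) Γ) :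
    NevE (Ix k) (NPs k) (Nio k Γ F) = Nio k Γ (PSL k Γ F) := by
  refine Subtype.ext ?_
  rw [NPs, map_smul, LinearMap.smul_apply, map_sum, LinearMap.sum_apply]
  have h2 : ∀ i : Fin 3, (NevE (Ix k) (NV k i * NV k i) (Nio k Γ F)).1 =
      DflS k i (DflS k i F.1) := by
    intro i
    have h3 : ∀ G : NSe (Ix k), (NevE (Ix k) (NV k i) G).1 = DflS k i G.1 := by
      intro G
      rw [NV, map_add, LinearMap.add_apply, map_smul, LinearMap.smul_apply, NevE_X]
      show (-1 : ℂ) • E (eX i) G.1 + (NevE (Ix k) (NM (drho k (bY i))) G).1 = _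
      rw [NevE_M, neg_one_smul]
      rfl
    rw [map_mul, Module.End.mul_apply, h3, h3]
    rfl
  show (-1 : ℂ) • (∑ i, NevE (Ix k) (NV k i * NV k i) (Nio k Γ F) : NSe (Ix k)).1 = PopS k F.1
  rw [Submodule.coe_sum]
  simp only [h2]
  funext g
  rw [Pi.smul_apply, Finset.sum_apply, neg_one_smul]
  rfl

private theorem Nio_pow {k : ℕ} {Γ : Subgroup (Mat 3)ˣ} {x : NW (Ix k)}
    {T : Module.End ℂ (Sect (tau k) Γ)}
    (h : ∀ F, NevE (Ix k) x (Nio k Γ F) = Nio k Γ (T F)) (n : ℕ) (F : Sect (tau k) Γ) :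
    NevE (Ix k) (x ^ n) (Nio k Γ F) = Nio k Γ ((T ^ n) F) := by
  induction n generalizing F with
  | zero => rw [pow_zero, pow_zero, map_one]; rfl
  | succ n ih =>
    rw [pow_succ', pow_succ', map_mul, Module.End.mul_apply, ih, h]
    rfl

/-! ### Naturality -/

private theorem N_bY (m : Matrix (Fin 3) (Fin 3) ℝ) (i : Fin 3) :
    rot m * bY i * rot mᵀ = ∑ l, m l i • bY l := by
  have h0 : ∀ m : Matrix (Fin 3) (Fin 3) ℝ, rot m 0 0 = 1 := fun m => rfl
  have h1 : ∀ (m : Matrix (Fin 3) (Fin 3) ℝ) (j : Fin 3), rot m 0 j.succ = 0 := fun m j => rfl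
  have h2 : ∀ (m : Matrix (Fin 3) (Fin 3) ℝ) (j : Fin 3), rot m j.succ 0 = 0 := fun m j => rfl
  have h3 : ∀ (m : Matrix (Fin 3) (Fin 3) ℝ) (i j : Fin 3), rot m i.succ j.succ = m i j :=
    fun m i j => rfl
  have b0 : ∀ i : Fin 3, bY i 0 0 = 0 := by
    intro i
    simp [bY, Matrix.single_apply, Fin.succ_ne_zero]
  have b1 : ∀ i j : Fin 3, bY i 0 j.succ = if i = j then 1 else 0 := by
    intro i j
    simp [bY, Matrix.single_apply, Fin.succ_ne_zero, Fin.succ_inj]
  have b2 : ∀ i j : Fin 3, bY i j.succ 0 = if i = j then 1 else 0 := by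
    intro i j
    simp [bY, Matrix.single_apply, Fin.succ_ne_zero, Fin.succ_inj, (Fin.succ_ne_zero _).symm]
  have b3 : ∀ i j l : Fin 3, bY i j.succ l.succ = 0 := by
    intro i j l
    simp [bY, Matrix.single_apply, (Fin.succ_ne_zero _).symm]
  ext a b
  rw [Matrix.mul_apply, Fin.sum_univ_succ]
  simp only [Matrix.mul_apply, Fin.sum_univ_succ (n := 3), Matrix.sum_apply, Matrix.smul_apply,
    smul_eq_mul]
  refine Fin.cases ?_ (fun a => ?_) a
  · refine Fin.cases ?_ (fun b => ?_) b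
    · simp [h0, h1, h2, h3, b0, b1, b2, b3]
    · simp [h0, h1, h2, h3, b0, b1, b2, b3]
  · refine Fin.cases ?_ (fun b => ?_) b
    · simp [h0, h1, h2, h3, b0, b1, b2, b3]
    · simp [h0, h1, h2, h3, b0, b1, b2, b3]

private theorem N_drho_sum (k : ℕ) (m : Fin 3 → ℝ) :
    drho k (∑ l, m l • bY l) = ∑ l, (m l : ℂ) • drho k (bY l) := by
  simp only [Fin.sum_univ_three]
  rw [drho_add, drho_add, drho_smul, drho_smul, drho_smul]

section nat

variable {k : ℕ} {m : Matrix (Fin 3) (Fin 3) ℝ}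

private theorem N_tau1 (hm : m ∈ Matrix.orthogonalGroup (Fin 3) ℝ) :
    tau k mᵀ * tau k m = 1 := by
  have h1 : mᵀ * m = 1 := (Matrix.mem_orthogonalGroup_iff' (Fin 3) ℝ).1 hm
  show rho k (rot mᵀ) * rho k (rot m) = 1
  rw [← rho_mul, ← rot_mul, h1, rot_one, rho_one]

private theorem N_tau2 (hm : m ∈ Matrix.orthogonalGroup (Fin 3) ℝ) :
    tau k m * tau k mᵀ = 1 := by
  have h1 : m * mᵀ = 1 := (Matrix.mem_orthogonalGroup_iff (Fin 3) ℝ).1 hm
  show rho k (rot m) * rho k (rot mᵀ) = 1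
  rw [← rho_mul, ← rot_mul, h1, rot_one, rho_one]

private theorem N_actb (hm : m ∈ Matrix.orthogonalGroup (Fin 3) ℝ) (i : Fin 3) :
    Nact (tau k m) (tau k mᵀ) (N_tau1 hm) (N_tau2 hm) m (NM (drho k (bY i))) =
      ∑ l, (m l i : ℂ) • NM (drho k (bY l)) := by
  have h1 : m * mᵀ = 1 := (Matrix.mem_orthogonalGroup_iff (Fin 3) ℝ).1 hm
  rw [Nact_M]
  have h2 : tau k m * drho k (bY i) * tau k mᵀ = ∑ l, (m l i : ℂ) • drho k (bY l) := by
    show rho k (rot m) * drho k (bY i) * rho k (rot mᵀ) = _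
    rw [drho_conj k (rot m) (rot mᵀ) (bY i) (by rw [← rot_mul, h1, rot_one]), N_bY,
      N_drho_sum k (fun l => m l i)]
  rw [h2, NM_sum]
  refine Finset.sum_congr rfl fun l _ => ?_
  rw [NM, NM, MonoidAlgebra.smul_single]

/-- fixed by the orthogonal group -/
private def NNat (k : ℕ) (x : NW (Ix k)) : Prop :=
  ∀ (m : Matrix (Fin 3) (Fin 3) ℝ) (hm : m ∈ Matrix.orthogonalGroup (Fin 3) ℝ),
    Nact (tau k m) (tau k mᵀ) (N_tau1 hm) (N_tau2 hm) m x = x

private theorem NNat_add {x y : NW (Ix k)} (hx : NNat k x) (hy : NNat k y) : NNat k (x + y) :=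
  fun m hm => by rw [map_add, hx m hm, hy m hm]

private theorem NNat_mul {x y : NW (Ix k)} (hx : NNat k x) (hy : NNat k y) : NNat k (x * y) :=
  fun m hm => by rw [map_mul, hx m hm, hy m hm]

private theorem NNat_smul (c : ℂ) {x : NW (Ix k)} (hx : NNat k x) : NNat k (c • x) :=
  fun m hm => by rw [Nact_smul, hx m hm]

private theorem NNat_pow {x : NW (Ix k)} (hx : NNat k x) (n : ℕ) : NNat k (x ^ n) :=
  fun m hm => by rw [map_pow, hx m hm]

private theorem NNat_sum {ι : Type} (s : Finset ι) {f : ι → NW (Ix k)}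
    (h : ∀ i ∈ s, NNat k (f i)) : NNat k (∑ i ∈ s, f i) :=
  fun m hm => by
    rw [map_sum]
    exact Finset.sum_congr rfl fun i hi => h i hi m hm

private theorem NNat_C : NNat k (NC0 k) := by
  intro m hm
  have h1 : m * mᵀ = 1 := (Matrix.mem_orthogonalGroup_iff (Fin 3) ℝ).1 hm
  rw [NC0, map_add, Nact_smul, Nact_M, Nact_sq h1 (fun i => Nact_X i), ck_tau k hm,
    Matrix.mul_assoc, N_tau2 hm, Matrix.mul_one]

private theorem NNat_P : NNat k (NP0 k) := by
  intro m hm
  have h1 : m * mᵀ = 1 := (Matrix.mem_orthogonalGroup_iff (Fin 3) ℝ).1 hm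
  rw [NP0, Nact_smul, Nact_sq h1]
  intro i
  rw [NU, map_add, Nact_X, N_actb hm, ← Finset.sum_add_distrib]
  refine Finset.sum_congr rfl fun l _ => ?_
  rw [NU, smul_add]

private theorem NNat_Ps : NNat k (NPs k) := by
  intro m hm
  have h1 : m * mᵀ = 1 := (Matrix.mem_orthogonalGroup_iff (Fin 3) ℝ).1 hm
  rw [NPs, Nact_smul, Nact_sq h1]
  intro i
  rw [NV, map_add, Nact_smul, Nact_X, N_actb hm, Finset.smul_sum, ← Finset.sum_add_distrib]
  refine Finset.sum_congr rfl fun l _ => ?_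
  rw [NV, smul_add, smul_comm]

private theorem NNat_natural {x : NW (Ix k)} (hx : NNat k x) : IsNatural (tau k) (ND x) := by
  intro m hm r L
  have h := Nact_coeff (h := N_tau1 hm) (h' := N_tau2 hm) (m := m) x r L
  rw [hx m hm] at h
  exact h.symm

/-! ### Self-adjointness -/

private theorem N_drho_conj (Y : Mat 3) : (drho k Y)ᴴ = drho k Yᵀ := (drho_transpose k Y).symm

private theorem N_bYt (i : Fin 3) : (bY i)ᵀ = bY i := by
  rw [bY, Matrix.transpose_add, Matrix.transpose_single, Matrix.transpose_single]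
  exact add_comm _ _

private theorem N_rYt (i : Fin 3) : (rY i)ᵀ = (-1 : ℝ) • rY i := by
  simp [rY, Matrix.transpose_sub, Matrix.transpose_single]

private theorem N_ckt : (ck k)ᴴ = ck k := by
  rw [ck, Matrix.conjTranspose_sum]
  refine Finset.sum_congr rfl fun i _ => ?_
  rw [Matrix.conjTranspose_mul, N_drho_conj, N_rYt, drho_smul, Matrix.smul_mul, Matrix.mul_smul,
    smul_smul]
  simp

private theorem Nadj_sq (u v : Fin 3 → NW (Ix k))
    (huv : ∀ i, Nadj (u i) = MulOpposite.op (v i)) :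
    Nadj ((-1 : ℂ) • ∑ i, u i * u i) = MulOpposite.op ((-1 : ℂ) • ∑ i, v i * v i) := by
  rw [Nadj_smul, map_sum]
  simp only [map_mul, huv, ← MulOpposite.op_mul]
  congr 1
  have h1 : star (-1 : ℂ) = -1 := by simp
  rw [h1]
  congr 1

private theorem Nadj_C : Nadj (NC0 k) = MulOpposite.op (NC0 k) := by
  have h1 : Nadj ((-1 : ℂ) • ∑ i, NX (Ix k) i * NX (Ix k) i) =
      MulOpposite.op ((-1 : ℂ) • ∑ i, NX (Ix k) i * NX (Ix k) i) := by
    rw [Nadj_sq _ (fun i => (-1 : ℂ) • NX (Ix k) i) (fun i => Nadj_X i)]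
    congr 2
    refine Finset.sum_congr rfl fun i _ => ?_
    rw [smul_mul_smul_comm]
    norm_num
  rw [NC0, map_add, h1, Nadj_M, N_ckt, MulOpposite.op_add]

private theorem Nadj_U (i : Fin 3) : Nadj (NU k i) = MulOpposite.op (NV k i) := by
  rw [NU, map_add, Nadj_X, Nadj_M, N_drho_conj, N_bYt, ← MulOpposite.op_add]
  rfl

private theorem Nadj_V (i : Fin 3) : Nadj (NV k i) = MulOpposite.op (NU k i) := by
  rw [NV, map_add, Nadj_smul, Nadj_X, Nadj_M, N_drho_conj, N_bYt, ← MulOpposite.op_add,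
    MulOpposite.unop_op, smul_smul]
  congr 1
  have h1 : star (-1 : ℂ) * (-1) = 1 := by simp
  rw [h1, one_smul]
  rfl

private theorem Nadj_P : Nadj (NP0 k) = MulOpposite.op (NPs k) :=
  Nadj_sq _ _ Nadj_U

private theorem Nadj_Ps : Nadj (NPs k) = MulOpposite.op (NP0 k) :=
  Nadj_sq _ _ Nadj_V

/-! ### Symbols -/

private theorem NFil_sq {u : Fin 3 → NW (Ix k)} (hu : ∀ i, NFil 1 (u i)) :
    NFil 2 ((-1 : ℂ) • ∑ i, u i * u i) :=
  NFil_smul _ (NFil_sum _ fun i _ => NFil_mul (hu i) (hu i))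

private theorem NFil_C : NFil 2 (NC0 k) :=
  NFil_add (NFil_mono (by norm_num) (NFil_M _)) (NFil_sq fun i => NFil_X i)

private theorem NFil_P : NFil 2 (NP0 k) :=
  NFil_sq fun i => NFil_add (NFil_X i) (NFil_mono (by norm_num) (NFil_M _))

private theorem NFil_Ps : NFil 2 (NPs k) :=
  NFil_sq fun i => NFil_add (NFil_smul _ (NFil_X i)) (NFil_mono (by norm_num) (NFil_M _))

private theorem Nsym_natDegree (ξ : Fin 3 → ℝ) {x : NW (Ix k)} {d : ℕ} (hx : NFil d x) :
    (Nsym ξ x).natDegree ≤ d := by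
  rw [Polynomial.natDegree_le_iff_coeff_eq_zero]
  intro N hN
  rw [Nsym_coeff]
  refine Finset.sum_eq_zero fun I _ => ?_
  rw [hx, smul_zero]
  show d < (List.ofFn I).length
  rw [List.length_ofFn]
  exact hN

private theorem Nsym_C2 (ξ : Fin 3 → ℝ) :
    (Nsym ξ (NC0 k)).coeff 2 = (-(∑ i, (ξ i : ℂ) ^ 2)) • (1 : Matrix (Ix k) (Ix k) ℂ) := by
  rw [NC0, map_add, Nsym_M, Polynomial.coeff_add, Polynomial.coeff_C_of_ne_zero (by norm_num),
    zero_add, N_smul, map_mul, Nsym_M, Polynomial.coeff_C_mul, map_sum, Polynomial.finsetSum_coeff]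
  have h1 : ∀ i : Fin 3, (Nsym ξ (NX (Ix k) i * NX (Ix k) i)).coeff 2 =
      ((ξ i : ℂ) ^ 2) • (1 : Matrix (Ix k) (Ix k) ℂ) := by
    intro i
    rw [map_mul, Nsym_X, Polynomial.monomial_mul_monomial, Polynomial.coeff_monomial]
    rw [if_pos rfl, smul_mul_smul_comm, one_mul, sq]
  simp only [h1]
  rw [← Finset.sum_smul, Matrix.smul_mul, one_mul, smul_smul]
  congr 1
  ring

end nat

/-! ### Sections -/

private theorem N_par {k : ℕ} {Γ : Subgroup (Mat 3)ˣ} {F : Mat 3 → Ix k → ℂ}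
    (hF : F ∈ Sec (tau k) Γ) (w : List (Fin 3)) : ∀ g ∈ Frames 3,
      nablas w F (g * rot (-1)) = (-1 : ℂ) ^ w.length • (tau k (-1)ᵀ *ᵥ nablas w F g) := by
  have hm : (-1 : Matrix (Fin 3) (Fin 3) ℝ) ∈ Matrix.orthogonalGroup (Fin 3) ℝ := by
    rw [Matrix.mem_orthogonalGroup_iff]
    simp
  have hsm : ∀ w : List (Fin 3), SmF (nablas w F) := by
    intro w
    induction w with
    | nil => exact ⟨hF.1, hF.2.1⟩
    | cons i w ih => exact nabla_smF ih i
  induction w with
  | nil =>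
    intro g hg
    rw [List.length_nil, pow_zero, one_smul]
    exact hF.2.2.2 _ hm g hg
  | cons i w ih =>
    intro g hg
    show deriv (fun t : ℝ => nablas w F (g * rot (-1) * boost 3 i t)) 0 = _
    have hb : ∀ t : ℝ, boost 3 i t ∈ Frames 3 := by
      intro t
      rw [← Phi_bst]
      have h : bst i t ∈ GLo := by
        show (bst i t).det ≠ 0
        rw [bst_det]
        exact one_ne_zero
      exact (Phi_SO h).1
    have hrb : ∀ t : ℝ, rot (-1 : Matrix (Fin 3) (Fin 3) ℝ) * boost 3 i t =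
        boost 3 i (-t) * rot (-1) := by
      intro t
      ext a b
      fin_cases i <;> fin_cases a <;> fin_cases b <;>
        simp [rot, boost, Matrix.mul_apply, Fin.sum_univ_four, Fin.cons, Fin.cases,
          Fin.induction, Fin.induction.go, Matrix.one_apply]
    have h1 : (fun t : ℝ => nablas w F (g * rot (-1) * boost 3 i t)) =
        fun t : ℝ => (-1 : ℂ) ^ w.length •
          (fun u : ℝ => tau k (-1)ᵀ *ᵥ nablas w F (g * boost 3 i u)) (-t) := by
      funext t
      rw [mul_assoc, hrb, ← mul_assoc]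
      exact ih _ (Frames_mul hg (hb (-t)))
    rw [h1, deriv_fun_const_smul_field]
    have h2 := deriv_comp_neg
      (fun u : ℝ => tau k (-1)ᵀ *ᵥ nablas w F (g * boost 3 i u)) (0 : ℝ)
    rw [neg_zero] at h2
    rw [h2]
    have h3 : deriv (fun u : ℝ => tau k (-1)ᵀ *ᵥ nablas w F (g * boost 3 i u)) 0 =
        tau k (-1)ᵀ *ᵥ nabla i (nablas w F) g :=
      congrFun (nabla_mulVec (hsm w) (tau k (-1)ᵀ) i) g
    rw [h3, List.length_cons, pow_succ, smul_neg]
    show _ = _ • (tau k (-1)ᵀ *ᵥ nabla i (nablas w F) g)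
    rw [mul_neg_one, neg_smul]

private theorem N_sec {k : ℕ} {Γ : Subgroup (Mat 3)ˣ} (hΓ : ∀ γ ∈ Γ, (γ : Mat 3) ∈ SO)
    {x : NW (Ix k)} (hx : NNat k x) {F : Mat 3 → Ix k → ℂ} (hF : F ∈ Sec (tau k) Γ)
    (hp : pull (opOf (ND x) F) ∈ Sect (tau k) Γ) : opOf (ND x) F ∈ Sec (tau k) Γ := by
  have hm : (-1 : Matrix (Fin 3) (Fin 3) ℝ) ∈ Matrix.orthogonalGroup (Fin 3) ℝ := by
    rw [Matrix.mem_orthogonalGroup_iff]
    simp
  obtain ⟨G, hG, hGp⟩ := pull_surj (tau_rep k) hΓ hp
  have hs : SmF (opOf (ND x) F) := by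
    have h := N_opOf x (⟨F, hF.1, hF.2.1⟩ : NSm (Ix k))
    rw [show opOf (ND x) F = (Nev (Ix k) x ⟨F, hF.1, hF.2.1⟩).1 from h]
    exact (Nev (Ix k) x _).2
  have key : ∀ g ∈ SO, opOf (ND x) F g = G g := by
    intro g hg
    obtain ⟨y, hy, rfl⟩ := Phi_surj hg
    have h1 := congrFun hGp y
    simp only [pull] at h1
    rw [if_neg hy, if_neg hy] at h1
    exact h1.symm
  have hTT : tau k (-1)ᵀ * tau k (-1) = 1 := N_tau1 hm
  have hTT' : tau k (-1) * tau k (-1)ᵀ = 1 := N_tau2 hm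
  have hnat := NNat_natural hx
  have hcomm : ∀ w : List (Fin 3), (-1 : ℂ) ^ w.length • (ND x w * tau k (-1)ᵀ) =
      tau k (-1)ᵀ * ND x w := by
    intro w
    have h1 := hnat (-1) hm w.length w.get
    rw [List.ofFn_get] at h1
    have h2 : ∑ I : Fin w.length → Fin 3, (∏ a, ((-1 : Matrix (Fin 3) (Fin 3) ℝ)
        (w.get a) (I a) : ℂ)) • (tau k (-1) * ND x (List.ofFn I) * tau k (-1)ᵀ) =
        (-1 : ℂ) ^ w.length • (tau k (-1) * ND x w * tau k (-1)ᵀ) := by
      rw [Finset.sum_eq_single w.get]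
      · rw [List.ofFn_get]
        congr 1
        simp
      · intro I _ hI
        obtain ⟨a, ha⟩ := Function.ne_iff.1 hI
        have h3 : (∏ a, ((-1 : Matrix (Fin 3) (Fin 3) ℝ) (w.get a) (I a) : ℂ)) = 0 := by
          refine Finset.prod_eq_zero (Finset.mem_univ a) ?_
          rw [Matrix.neg_apply, Matrix.one_apply_ne (Ne.symm ha), neg_zero, Complex.ofReal_zero]
        rw [h3, zero_smul]
      · intro hh
        exact absurd (Finset.mem_univ _) hh
    rw [h2] at h1
    calc (-1 : ℂ) ^ w.length • (ND x w * tau k (-1)ᵀ)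
        = tau k (-1)ᵀ * ((-1 : ℂ) ^ w.length • (tau k (-1) * ND x w * tau k (-1)ᵀ)) := by
          rw [Matrix.mul_smul, Matrix.mul_assoc (tau k (-1)), ← Matrix.mul_assoc (tau k (-1)ᵀ),
            hTT, Matrix.one_mul]
      _ = _ := by rw [h1]
  have hpar : ∀ g ∈ Frames 3, opOf (ND x) F (g * rot (-1)) =
      tau k (-1)ᵀ *ᵥ opOf (ND x) F g := by
    intro g hg
    simp only [opOf, Finsupp.sum]
    rw [Matrix.mulVec_sum]
    refine Finset.sum_congr rfl fun w _ => ?_
    rw [N_par hF w g hg, Matrix.mulVec_smul, Matrix.mulVec_mulVec, ← Matrix.smul_mulVec, hcomm,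
      Matrix.mulVec_mulVec]
  have heq : opOf (ND x) F = G := by
    funext g
    by_cases hg : g ∈ Frames 3
    · rcases Frames_det hg with hd | hd
      · exact key g ⟨hg, hd⟩
      · have h2 : g * rot (-1) ∈ SO := by
          refine ⟨Frames_mul hg (rot_mem_Frames hm), ?_⟩
          rw [det_mul, rot_det, hd, det_neg]
          norm_num
        have h3 := key _ h2
        rw [hpar g hg, hG.2.2.2 _ hm g hg] at h3
        have h4 := congrArg (fun v => tau k (-1) *ᵥ v) h3
        simp only [Matrix.mulVec_mulVec, hTT', Matrix.one_mulVec] at h4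
        exact h4
    · rw [hs.1 g hg, hG.1 g hg]
  rw [heq]
  exact hG

theorem natD (k n M : ℕ) (hM : n < M) (Q : Polynomial ℝ) (hQ : Q.natDegree = M)
    (hl : 0 < Q.leadingCoeff) (c : ℂ) :
    ∃ D : List (Fin 3) →₀ Matrix (Ix k) (Ix k) ℂ, IsNatural (tau k) D ∧ IsSelfAdj (tau k) D ∧
      IsStronglyElliptic D (2 * M) ∧
      ∀ (Γ : Subgroup (Mat 3)ˣ), (∀ γ ∈ Γ, (γ : Mat 3) ∈ SO) → ∀ F ∈ Sec (tau k) Γ,
        opOf D F ∈ Sec (tau k) Γ ∧ ∀ F' : Sect (tau k) Γ, F'.1 = pull F →
          pull (opOf D F) = ((Polynomial.aeval (CasL k Γ) (Q.map (algebraMap ℝ ℂ))) F' +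
            c • (PL k Γ ^ n) F' + star c • (PSL k Γ ^ n) F').1 := by
  set x : NW (Ix k) := (∑ j ∈ Finset.range (M + 1), (Q.coeff j : ℂ) • NC0 k ^ j) +
    c • NP0 k ^ n + star c • NPs k ^ n with hx
  have hnat : NNat k x := NNat_add (NNat_add
    (NNat_sum _ fun j _ => NNat_smul _ (NNat_pow NNat_C j)) (NNat_smul _ (NNat_pow NNat_P n)))
    (NNat_smul _ (NNat_pow NNat_Ps n))
  refine ⟨ND x, NNat_natural hnat, ?_, ⟨?_, ?_⟩, ?_⟩
  · intro F hF
    have h1 := N_adjOf x (⟨F, hF.1, hF.2.1⟩ : NSm (Ix k))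
    have h2 : Nadj x = MulOpposite.op x := by
      rw [hx, map_add, map_add, map_sum, Nadj_smul, Nadj_smul, map_pow, map_pow, Nadj_P, Nadj_Ps,
        ← MulOpposite.op_pow, ← MulOpposite.op_pow, MulOpposite.unop_op, MulOpposite.unop_op,
        star_star, MulOpposite.op_add, MulOpposite.op_add, Finset.op_sum]
      have h3 : ∑ j ∈ Finset.range (M + 1), Nadj ((Q.coeff j : ℂ) • NC0 k ^ j) =
          ∑ j ∈ Finset.range (M + 1), MulOpposite.op ((Q.coeff j : ℂ) • NC0 k ^ j) := by
        refine Finset.sum_congr rfl fun j _ => ?_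
        rw [Nadj_smul, map_pow, Nadj_C, ← MulOpposite.op_pow, MulOpposite.unop_op]
        congr 2
        exact Complex.conj_ofReal _
      rw [h3]
      abel
    rw [h2, MulOpposite.unop_op] at h1
    exact h1.symm
  · have h1 : NFil (2 * M) x := by
      refine NFil_add (NFil_add (NFil_sum _ fun j hj => NFil_smul _ ?_) (NFil_smul _ ?_))
        (NFil_smul _ ?_)
      · refine NFil_mono ?_ (NFil_pow NFil_C j)
        have := Finset.mem_range.1 hj
        omega
      · exact NFil_mono (by omega) (NFil_pow NFil_P n)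
      · exact NFil_mono (by omega) (NFil_pow NFil_Ps n)
    exact h1
  · intro ξ v hξ hv
    have h1 : ∑ I : Fin (2 * M) → Fin 3, (∏ a, (ξ (I a) : ℂ)) • ND x (List.ofFn I) =
        (Nsym ξ x).coeff (2 * M) := (Nsym_coeff ξ x (2 * M)).symm
    have hdeg : ∀ (y : NW (Ix k)) (j : ℕ), NFil 2 y → j < M →
        (Nsym ξ (y ^ j)).coeff (2 * M) = 0 := by
      intro y j hy hj
      refine Polynomial.coeff_eq_zero_of_natDegree_lt ?_
      refine lt_of_le_of_lt (Nsym_natDegree ξ (NFil_pow hy j)) ?_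
      omega
    have hsm : ∀ (a : ℂ) (y : NW (Ix k)), (Nsym ξ (a • y)).coeff (2 * M) =
        a • (Nsym ξ y).coeff (2 * M) := by
      intro a y
      rw [N_smul, map_mul, Nsym_M, Polynomial.coeff_C_mul, Matrix.smul_mul, Matrix.one_mul]
    have h2 : (Nsym ξ x).coeff (2 * M) =
        ((Q.coeff M : ℂ) * (-(∑ i, (ξ i : ℂ) ^ 2)) ^ M) • (1 : Matrix (Ix k) (Ix k) ℂ) := by
      rw [hx, map_add, map_add, Polynomial.coeff_add, Polynomial.coeff_add, hsm, hsm,
        hdeg _ n NFil_P hM, hdeg _ n NFil_Ps hM, smul_zero, smul_zero, add_zero, add_zero,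
        map_sum, Polynomial.finsetSum_coeff, Finset.sum_range_succ]
      have h3 : ∑ j ∈ Finset.range M, (Nsym ξ ((Q.coeff j : ℂ) • NC0 k ^ j)).coeff (2 * M) = 0 := by
        refine Finset.sum_eq_zero fun j hj => ?_
        rw [hsm, hdeg _ j NFil_C (Finset.mem_range.1 hj), smul_zero]
      rw [h3, zero_add, hsm, map_pow]
      have h4 : ((Nsym ξ (NC0 k)) ^ M).coeff (2 * M) = ((Nsym ξ (NC0 k)).coeff 2) ^ M := by
        rw [mul_comm]
        exact Polynomial.coeff_pow_of_natDegree_le (Nsym_natDegree ξ NFil_C)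
      rw [h4, Nsym_C2, smul_pow, one_pow, smul_smul]
    rw [h1, h2, smul_smul, Matrix.smul_mulVec, Matrix.one_mulVec, dotProduct_smul]
    have hI : (Complex.I ^ (2 * M) * ((Q.coeff M : ℂ) * (-(∑ i, (ξ i : ℂ) ^ 2)) ^ M)) =
        ((Q.coeff M * (∑ i, ξ i ^ 2) ^ M : ℝ) : ℂ) := by
      rw [pow_mul, Complex.I_sq, neg_pow (∑ i, (ξ i : ℂ) ^ 2) M]
      push_cast
      have h5 : ((-1 : ℂ) ^ M) * ((-1 : ℂ) ^ M) = 1 := by
        rw [← mul_pow]
        norm_num
      calc (-1 : ℂ) ^ M * ((Q.coeff M : ℂ) * ((-1) ^ M * (∑ i, (ξ i : ℂ) ^ 2) ^ M))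
          = ((-1 : ℂ) ^ M * (-1) ^ M) * ((Q.coeff M : ℂ) * (∑ i, (ξ i : ℂ) ^ 2) ^ M) := by ring
        _ = _ := by rw [h5, one_mul]
    rw [hI, smul_eq_mul, Complex.re_ofReal_mul]
    have hξ2 : 0 < ∑ i, ξ i ^ 2 := by
      obtain ⟨i, hi⟩ := Function.ne_iff.1 hξ
      refine Finset.sum_pos' (fun j _ => sq_nonneg _) ⟨i, Finset.mem_univ i, ?_⟩
      have hi' : ξ i ≠ 0 := hi
      positivity
    have hlc : 0 < Q.coeff M := by
      rw [← hQ]
      exact hl
    refine mul_pos (mul_pos hlc (pow_pos hξ2 M)) ?_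
    have h6 : (star v ⬝ᵥ v).re = ∑ i, Complex.normSq (v i) := by
      rw [dotProduct, Complex.re_sum]
      refine Finset.sum_congr rfl fun i _ => ?_
      rw [Pi.star_apply]
      have h7 : star (v i) * v i = (Complex.normSq (v i) : ℂ) := by
        rw [mul_comm]
        exact Complex.mul_conj (v i)
      rw [h7, Complex.ofReal_re]
    rw [h6]
    obtain ⟨i, hi⟩ := Function.ne_iff.1 hv
    exact Finset.sum_pos' (fun j _ => Complex.normSq_nonneg _)
      ⟨i, Finset.mem_univ i, Complex.normSq_pos.2 hi⟩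
  · intro Γ hΓ F hF
    have hmem : pull F ∈ Sect (tau k) Γ := pull_mem hF
    have hpl : ∀ F' : Sect (tau k) Γ, F'.1 = pull F →
        pull (opOf (ND x) F) = ((Polynomial.aeval (CasL k Γ) (Q.map (algebraMap ℝ ℂ))) F' +
            c • (PL k Γ ^ n) F' + star c • (PSL k Γ ^ n) F').1 := by
      intro F' hF'
      have h1 : opOf (ND x) F = (Nev (Ix k) x ⟨F, hF.1, hF.2.1⟩).1 :=
        N_opOf x (⟨F, hF.1, hF.2.1⟩ : NSm (Ix k))
      have h2 : pull (opOf (ND x) F) = (Npl (Nev (Ix k) x ⟨F, hF.1, hF.2.1⟩)).1 := by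
        rw [h1]
        rfl
      have h3 : Npl (⟨F, hF.1, hF.2.1⟩ : NSm (Ix k)) = Nio k Γ F' := Subtype.ext hF'.symm
      rw [h2, N_pull, h3, hx, map_add, map_add, map_sum, LinearMap.add_apply,
        LinearMap.add_apply, LinearMap.sum_apply, map_smul, map_smul, LinearMap.smul_apply,
        LinearMap.smul_apply, Nio_pow Nio_P, Nio_pow Nio_Ps]
      have h4 : ∑ j ∈ Finset.range (M + 1), NevE (Ix k) ((Q.coeff j : ℂ) • NC0 k ^ j)
          (Nio k Γ F') = Nio k Γ ((Polynomial.aeval (CasL k Γ) (Q.map (algebraMap ℝ ℂ))) F') := by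
        have h5 : (Q.map (algebraMap ℝ ℂ)).natDegree < M + 1 := by
          rw [Polynomial.natDegree_map, hQ]
          exact Nat.lt_succ_self M
        rw [Polynomial.aeval_eq_sum_range' h5, LinearMap.sum_apply, map_sum]
        refine Finset.sum_congr rfl fun j _ => ?_
        rw [map_smul, LinearMap.smul_apply, Nio_pow Nio_C, LinearMap.smul_apply, map_smul,
          Polynomial.coeff_map]
        rfl
      rw [h4]
      rfl
    refine ⟨N_sec hΓ hnat hF ?_, hpl⟩
    rw [hpl ⟨pull F, hmem⟩ rfl]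
    exact Subtype.property _

end

end Pool.Agent.Work.MP_14c213_gt
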