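import Mathlib

/-!
Linear algebra for StrongM: symmetric operators for a positive definite hermitian form on a finite
dimensional complex vector space: the trace is determined by the multiplicities of the real
eigenvalues.
-/

namespace Pool.Agent.Work.MP_14c213_gt

noncomputable section

/-- positive definite hermitian forms -/
structure SForm {W : Type*} [AddCommGroup W] [Module ℂ W] (B : W → W → ℂ) : Prop where
  add : ∀ x y z, B x (y + z) = B x y + B x z
  smul : ∀ x y (c : ℂ), B x (c • y) = c * B x y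
  conj : ∀ x y, star (B x y) = B y x
  pos : ∀ x, 0 ≤ (B x x).re
  defn : ∀ x, B x x = 0 → x = 0

theorem SForm.exists_inner {W : Type*} [AddCommGroup W] [Module ℂ W] {B : W → W → ℂ}
    (hB : SForm B) :
    ∃ C : InnerProductSpace.Core ℂ W, ∀ x y, C.inner x y = B x y := by
  refine ⟨{ inner := B
            conj_inner_symm := fun x y => hB.conj y x
            re_inner_nonneg := fun x => hB.pos x
            add_left := fun x y z => ?_
            smul_left := fun x y c => ?_
            definite := fun x hx => hB.defn x hx }, fun x y => rfl⟩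
  · rw [← hB.conj z (x + y), hB.add, star_add, hB.conj, hB.conj]
  · rw [← hB.conj y (c • x), hB.smul, star_mul', hB.conj]
    rfl

/-- the trace of a symmetric operator -/
theorem SForm.trace_symm {W : Type*} [AddCommGroup W] [Module ℂ W] [FiniteDimensional ℂ W]
    {B : W → W → ℂ} (hB : SForm B) {H : Module.End ℂ W} (hH : ∀ x y, B (H x) y = B x (H y)) :
    LinearMap.trace ℂ W H =
      ∑ᶠ ν : ℝ, (Module.finrank ℂ (Module.End.eigenspace H (ν : ℂ)) : ℂ) * ν := by
  classical
  obtain ⟨C, hC⟩ := hB.exists_inner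
  letI : NormedAddCommGroup W := C.toNormedAddCommGroup
  letI : InnerProductSpace ℂ W := InnerProductSpace.ofCore C.toCore
  have hin : ∀ x y : W, inner ℂ x y = B x y := fun x y => hC x y
  have hT : H.IsSymmetric := fun x y => by
    rw [hin, hin]
    exact hH x y
  have hreal : ∀ μ : Module.End.Eigenvalues H, ((((μ : ℂ)).re : ℝ) : ℂ) = (μ : ℂ) := by
    intro μ
    have h1 := hT.conj_eigenvalue_eq_self μ.2
    exact Complex.conj_eq_iff_re.1 h1
  have hint := hT.direct_sum_isInternal
  have hmaps : ∀ μ : Module.End.Eigenvalues H, Set.MapsTo H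
      (Module.End.eigenspace H (μ : ℂ)) (Module.End.eigenspace H (μ : ℂ)) := by
    intro μ x hx
    have hx' := Module.End.mem_eigenspace_iff.1 hx
    rw [hx']
    exact Submodule.smul_mem _ _ hx
  rw [LinearMap.trace_eq_sum_trace_restrict hint hmaps]
  have htr : ∀ μ : Module.End.Eigenvalues H,
      LinearMap.trace ℂ (Module.End.eigenspace H (μ : ℂ)) (H.restrict (hmaps μ)) =
        (Module.finrank ℂ (Module.End.eigenspace H (μ : ℂ)) : ℂ) * (μ : ℂ) := by
    intro μ
    have e : H.restrict (hmaps μ) =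
        (μ : ℂ) • (LinearMap.id : Module.End.eigenspace H (μ : ℂ) →ₗ[ℂ] _) := by
      ext x
      exact Module.End.mem_eigenspace_iff.1 x.2
    rw [e, map_smul, LinearMap.trace_id, smul_eq_mul, mul_comm]
  rw [Finset.sum_congr rfl (fun μ _ => htr μ)]
  have hinj : Function.Injective (fun μ : Module.End.Eigenvalues H => ((μ : ℂ)).re) := by
    intro μ ν h
    beta_reduce at h
    apply Subtype.ext
    have h1 := hreal μ
    have h2 := hreal ν
    rw [h] at h1
    exact h1.symm.trans h2
  rw [finsum_eq_sum_of_support_subset (s := Finset.univ.image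
    (fun μ : Module.End.Eigenvalues H => ((μ : ℂ)).re))]
  · rw [Finset.sum_image (fun x _ y _ h => hinj h)]
    apply Finset.sum_congr rfl
    intro μ _
    rw [hreal μ]
  · intro ν hν
    rw [Function.mem_support] at hν
    have hne : Module.End.eigenspace H (ν : ℂ) ≠ ⊥ := by
      intro h0
      apply hν
      rw [h0, finrank_bot]
      simp
    rw [Finset.coe_image, Finset.coe_univ, Set.image_univ]
    exact ⟨⟨(ν : ℂ), hne⟩, Complex.ofReal_re ν⟩

/-- the trace of the adjoint -/
theorem SForm.trace_adj {W : Type*} [AddCommGroup W] [Module ℂ W] [FiniteDimensional ℂ W]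
    {B : W → W → ℂ} (hB : SForm B) {P Q : Module.End ℂ W} (hH : ∀ x y, B (P x) y = B x (Q y)) :
    LinearMap.trace ℂ W Q = star (LinearMap.trace ℂ W P) := by
  obtain ⟨C, hC⟩ := hB.exists_inner
  letI : NormedAddCommGroup W := C.toNormedAddCommGroup
  letI : InnerProductSpace ℂ W := InnerProductSpace.ofCore C.toCore
  have hin : ∀ x y : W, inner ℂ x y = B x y := fun x y => hC x y
  rw [LinearMap.trace_eq_sum_inner Q (stdOrthonormalBasis ℂ W),
    LinearMap.trace_eq_sum_inner P (stdOrthonormalBasis ℂ W), star_sum]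
  apply Finset.sum_congr rfl
  intro i _
  rw [hin, hin, hB.conj, hH]

theorem SForm.pow_adj {W : Type*} [AddCommGroup W] [Module ℂ W]
    {B : W → W → ℂ} {P Q : Module.End ℂ W} (hH : ∀ x y, B (P x) y = B x (Q y)) (n : ℕ) (x y : W) :
    B ((P ^ n) x) y = B x ((Q ^ n) y) := by
  induction n generalizing x y with
  | zero => rfl
  | succ n ih =>
    rw [pow_succ, pow_succ', Module.End.mul_apply, Module.End.mul_apply, ih, hH]

/-- Real eigenvalues of an operator on a finite dimensional space are bounded. -/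
theorem eig_bound {W : Type*} [AddCommGroup W] [Module ℂ W] [FiniteDimensional ℂ W]
    (H : Module.End ℂ W) :
    ∃ R : ℝ, 0 ≤ R ∧ ∀ ν : ℝ, Module.End.eigenspace H (ν : ℂ) ≠ ⊥ → |ν| ≤ R := by
  classical
  have hfin : {ν : ℝ | Module.End.eigenspace H (ν : ℂ) ≠ ⊥}.Finite := by
    have h1 : {μ : ℂ | Module.End.eigenspace H μ ≠ ⊥}.Finite := by
      have := Module.End.finite_hasEigenvalue H
      exact this
    exact h1.preimage (fun x _ y _ h => Complex.ofReal_injective h)
  obtain ⟨R, hR⟩ := (hfin.image (fun ν => |ν|)).bddAbove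
  refine ⟨max R 0, le_max_right _ _, fun ν hν => ?_⟩
  exact le_trans (hR ⟨ν, hν, rfl⟩) (le_max_left _ _)

/-- Scaling the eigenspaces. -/
theorem eig_scale {W : Type*} [AddCommGroup W] [Module ℂ W] (H : Module.End ℂ W) {t : ℂ}
    (ht : t ≠ 0) (μ : ℂ) :
    Module.End.eigenspace (t • H) (t * μ) = Module.End.eigenspace H μ := by
  ext x
  rw [Module.End.mem_eigenspace_iff, Module.End.mem_eigenspace_iff, LinearMap.smul_apply,
    mul_smul]
  constructor
  · intro h
    exact smul_right_injective W ht h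
  · intro h
    rw [h]

/-- Comparison of traces. -/
theorem trace_compare {W₁ W₂ : Type*} [AddCommGroup W₁] [Module ℂ W₁] [FiniteDimensional ℂ W₁]
    [AddCommGroup W₂] [Module ℂ W₂] [FiniteDimensional ℂ W₂]
    {B₁ : W₁ → W₁ → ℂ} (hB₁ : SForm B₁) {B₂ : W₂ → W₂ → ℂ} (hB₂ : SForm B₂)
    {H₁ : Module.End ℂ W₁} (hH₁ : ∀ x y, B₁ (H₁ x) y = B₁ x (H₁ y))
    {H₂ : Module.End ℂ W₂} (hH₂ : ∀ x y, B₂ (H₂ x) y = B₂ x (H₂ y))
    (heq : ∀ t : ℝ, 0 < t → t ≤ 1 → ∀ ν : ℝ, |ν| < 1 →
      Module.finrank ℂ (Module.End.eigenspace ((t : ℂ) • H₁) (ν : ℂ)) =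
        Module.finrank ℂ (Module.End.eigenspace ((t : ℂ) • H₂) (ν : ℂ))) :
    LinearMap.trace ℂ W₁ H₁ = LinearMap.trace ℂ W₂ H₂ := by
  rw [hB₁.trace_symm hH₁, hB₂.trace_symm hH₂]
  apply finsum_congr
  intro ν
  congr 2
  obtain ⟨R₁, hR₁0, hR₁⟩ := eig_bound H₁
  obtain ⟨R₂, hR₂0, hR₂⟩ := eig_bound H₂
  by_cases hν : |ν| ≤ max R₁ R₂
  · set t : ℝ := 1 / (max R₁ R₂ + 1) with ht
    have hpos : 0 < max R₁ R₂ + 1 := by
      have := le_max_left R₁ R₂
      linarith
    have ht0 : 0 < t := by positivity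
    have ht1 : t ≤ 1 := by
      rw [ht, div_le_one hpos]
      have := le_max_left R₁ R₂
      linarith
    have htν : |t * ν| < 1 := by
      rw [abs_mul, abs_of_pos ht0, ht, one_div, inv_mul_lt_iff₀ hpos, mul_one]
      linarith
    have h := heq t ht0 ht1 (t * ν) htν
    have htc : (t : ℂ) ≠ 0 := by exact_mod_cast ht0.ne'
    rw [Complex.ofReal_mul, eig_scale H₁ htc, eig_scale H₂ htc] at h
    exact h
  · have h1 : Module.End.eigenspace H₁ (ν : ℂ) = ⊥ := by
      by_contra hne
      exact hν ((hR₁ ν hne).trans (le_max_left _ _))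
    have h2 : Module.End.eigenspace H₂ (ν : ℂ) = ⊥ := by
      by_contra hne
      exact hν ((hR₂ ν hne).trans (le_max_right _ _))
    rw [h1, h2, finrank_bot, finrank_bot]

end

end Pool.Agent.Work.MP_14c213_gt
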