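import Pool.Agent.Work.MP_14c213_gt.A.SpecD2
import Pool.Agent.Work.MP_14c213_gt.A.NatAlg
import Pool.Agent.Work.MP_14c213_gt.A.FinMul
import Pool.Agent.Work.MP_14c213_gt.A.StrongAbs

/-!
Strong isospectrality gives equal traces of powers of P on the eigenspaces of Cas: for every lam₀, n, c
the operators of natD (with near_zero's Q and small t) have equal multiplicities of every ν, |ν| < 1,
so the self-adjoint operators H_c = c P^n + c̄ (P*)^n on EL k Γᵢ lam₀ have the same eigenvalues with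
multiplicity (t small so that all eigenvalues of tH are < 1), hence the same trace;
tr H_c = 2 Re(c tr P^n) (P* is the ip-adjoint, P_adj), c = 1, i.
-/

namespace Pool.Agent.Work.MP_14c213_gt

open Matrix MeasureTheory
open scoped Matrix ContDiff Matrix.Norms.Elementwise

noncomputable section

/-- The inner product on an eigenspace. -/
def ipE (k : ℕ) (D : Set UH) (Γ : Subgroup (Mat 3)ˣ) (lam : ℝ) (x y : EL k Γ lam) : ℂ :=
  ip k D x.1.1 y.1.1

theorem strong_cont {k : ℕ} {Γ : Subgroup (Mat 3)ˣ} (F : Sect (tau k) Γ) :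
    ContinuousOn F.1 GLo := F.2.2.1.continuousOn

theorem ipE_form {k : ℕ} {Γ : Subgroup (Mat 3)ˣ} {D : Set UH} (h : Klein Γ) (hD : FD Γ D)
    (lam : ℝ) : SForm (ipE k D Γ lam) := by
  refine ⟨fun x y z => ?_, fun x y c => ?_, fun x y => ?_, fun x => ?_, fun x hx => ?_⟩
  · have h1 := (ip_sesq (k := k) h hD (strong_cont x.1) (strong_cont y.1) (strong_cont z.1) 1).1
    rw [one_smul, one_mul] at h1
    exact h1
  · have h1 := (ip_sesq (k := k) h hD (strong_cont x.1) (strong_cont (0 : Sect (tau k) Γ))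
      (strong_cont y.1) c).1
    have h2 : ip k D x.1.1 (0 : Sect (tau k) Γ).1 = 0 := by
      unfold ip
      simp
    rw [h2, zero_add] at h1
    have h3 : (0 : Sect (tau k) Γ).1 + c • y.1.1 = c • y.1.1 := zero_add _
    rw [h3] at h1
    exact h1
  · exact (ip_sesq (k := k) h hD (strong_cont x.1) (strong_cont y.1) (strong_cont y.1) 1).2
  · exact (ip_nonneg (k := k) h hD (strong_cont x.1)).1
  · exact Subtype.ext (ip_pos h hD x.1 hx)

theorem PSL_mapsTo (k : ℕ) (Γ : Subgroup (Mat 3)ˣ) (lam : ℝ) :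
    ∀ F ∈ EL k Γ lam, PSL k Γ F ∈ EL k Γ lam := by
  intro F hF
  have hF' : CasL k Γ F = (lam : ℂ) • F := Module.End.mem_eigenspace_iff.1 hF
  refine Module.End.mem_eigenspace_iff.2 ?_
  have h1 : CasL k Γ (PSL k Γ F) = PSL k Γ (CasL k Γ F) :=
    congrArg (fun T : Module.End ℂ (Sect (tau k) Γ) => T F) (Cas_PS_comm k Γ).eq
  rw [h1, hF', map_smul]

/-- The formal adjoint of `P` on an eigenspace of `Cas`. -/
def PSE (k : ℕ) (Γ : Subgroup (Mat 3)ˣ) (lam : ℝ) : Module.End ℂ (EL k Γ lam) :=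
  (PSL k Γ).restrict (PSL_mapsTo k Γ lam)

theorem PE_pow_val (k : ℕ) (Γ : Subgroup (Mat 3)ˣ) (lam : ℝ) (n : ℕ) (x : EL k Γ lam) :
    (((PE k Γ lam) ^ n) x : Sect (tau k) Γ) = (PL k Γ ^ n) x.1 := by
  induction n generalizing x with
  | zero => rfl
  | succ n ih =>
    rw [pow_succ, pow_succ, Module.End.mul_apply, Module.End.mul_apply, ih]
    rfl

theorem PSE_pow_val (k : ℕ) (Γ : Subgroup (Mat 3)ˣ) (lam : ℝ) (n : ℕ) (x : EL k Γ lam) :
    (((PSE k Γ lam) ^ n) x : Sect (tau k) Γ) = (PSL k Γ ^ n) x.1 := by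
  induction n generalizing x with
  | zero => rfl
  | succ n ih =>
    rw [pow_succ, pow_succ, Module.End.mul_apply, Module.End.mul_apply, ih]
    rfl

/-- Pull back of sections as a linear map. -/
def pullL (k : ℕ) (Γ : Subgroup (Mat 3)ˣ) : Sec (tau k) Γ →ₗ[ℂ] Sect (tau k) Γ where
  toFun F := ⟨pull F.1, pull_mem F.2⟩
  map_add' F G := by
    apply Subtype.ext
    funext g
    change pull (F.1 + G.1) g = pull F.1 g + pull G.1 g
    unfold pull
    by_cases hg : g.det = 0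
    · rw [if_pos hg, if_pos hg, if_pos hg, add_zero]
    · rw [if_neg hg, if_neg hg, if_neg hg]
      rfl
  map_smul' c F := by
    apply Subtype.ext
    funext g
    change pull (c • F.1) g = c • pull F.1 g
    unfold pull
    by_cases hg : g.det = 0
    · rw [if_pos hg, if_pos hg, smul_zero]
    · rw [if_neg hg, if_neg hg]
      rfl

theorem pullL_bij {k : ℕ} {Γ : Subgroup (Mat 3)ˣ} (h : Klein Γ) :
    Function.Bijective (pullL k Γ) := by
  refine ⟨fun F G hFG => ?_, fun H => ?_⟩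
  · apply Subtype.ext
    exact pull_inj (tau_rep k) F.2 G.2 (congrArg Subtype.val hFG)
  · obtain ⟨F, hF, hFH⟩ := pull_surj (tau_rep k) (fun γ hγ => Klein_SO h hγ) H.2
    exact ⟨⟨F, hF⟩, Subtype.ext hFH⟩

/-- Multiplicities of natural operators in terms of sections on `GL₂(ℂ)`. -/
theorem opMult_eq {k : ℕ} {Γ : Subgroup (Mat 3)ˣ} (h : Klein Γ)
    {D : List (Fin 3) →₀ Matrix (Ix k) (Ix k) ℂ} {T : Module.End ℂ (Sect (tau k) Γ)}
    (hD : ∀ F ∈ Sec (tau k) Γ, opOf D F ∈ Sec (tau k) Γ ∧ ∀ F' : Sect (tau k) Γ, F'.1 = pull F →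
      pull (opOf D F) = (T F').1) (ν : ℝ) :
    Cardinal.toNat (opMult (tau k) D Γ ν) =
      Module.finrank ℂ (Module.End.eigenspace T (ν : ℂ)) := by
  set N : Submodule ℂ (Sec (tau k) Γ) :=
    (Module.End.eigenspace T (ν : ℂ)).comap (pullL k Γ) with hN
  have hset : {F | F ∈ Sec (tau k) Γ ∧ opOf D F = (ν : ℂ) • F} =
      ((N.map (Sec (tau k) Γ).subtype : Submodule ℂ (Mat 3 → Ix k → ℂ)) :
        Set (Mat 3 → Ix k → ℂ)) := by
    ext F
    constructor
    · rintro ⟨hF, he⟩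
      refine ⟨⟨F, hF⟩, ?_, rfl⟩
      rw [hN]
      change pullL k Γ ⟨F, hF⟩ ∈ Module.End.eigenspace T (ν : ℂ)
      rw [Module.End.mem_eigenspace_iff]
      apply Subtype.ext
      rw [← (hD F hF).2 (pullL k Γ ⟨F, hF⟩) rfl, he]
      exact congrArg Subtype.val (map_smul (pullL k Γ) (ν : ℂ) ⟨F, hF⟩)
    · rintro ⟨F₀, hF₀, rfl⟩
      refine ⟨F₀.2, ?_⟩
      have h1 : pullL k Γ F₀ ∈ Module.End.eigenspace T (ν : ℂ) := hF₀
      rw [Module.End.mem_eigenspace_iff] at h1
      have h2 := (hD F₀.1 F₀.2).2 (pullL k Γ F₀) rfl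
      refine pull_inj (tau_rep k) (hD F₀.1 F₀.2).1
        (Submodule.smul_mem _ (ν : ℂ) F₀.2) ?_
      change pull (opOf D F₀.1) = pull ((ν : ℂ) • F₀.1)
      rw [h2, h1]
      exact (congrArg Subtype.val (map_smul (pullL k Γ) (ν : ℂ) F₀)).symm
  unfold opMult
  rw [hset, Submodule.span_eq]
  have e1 : Module.rank ℂ (N.map (Sec (tau k) Γ).subtype) = Module.rank ℂ N :=
    (LinearEquiv.rank_eq (Submodule.equivMapOfInjective (Sec (tau k) Γ).subtype
      (Submodule.subtype_injective _) N)).symm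
  have e2 : Module.rank ℂ N = Module.rank ℂ (Module.End.eigenspace T (ν : ℂ)) := by
    let e := LinearEquiv.ofBijective (pullL k Γ) (pullL_bij h)
    have h3 : N.map (pullL k Γ) = Module.End.eigenspace T (ν : ℂ) := by
      rw [hN]
      exact Submodule.map_comap_eq_of_surjective (pullL_bij h).2 _
    rw [← h3]
    exact LinearEquiv.rank_eq (Submodule.equivMapOfInjective (pullL k Γ) (pullL_bij h).1 N)
  rw [e1, e2]
  rfl

/-- The eigenspace computed inside the eigenspace of Cas. -/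
theorem eig_restrict {k : ℕ} {Γ : Subgroup (Mat 3)ˣ} {lam : ℝ} {T : Module.End ℂ (Sect (tau k) Γ)}
    {H : Module.End ℂ (EL k Γ lam)} {S : Module.End ℂ (Sect (tau k) Γ)} {ν : ℝ}
    (hS : ∀ x : EL k Γ lam, (H x : Sect (tau k) Γ) = S x.1)
    (hT : ∀ F, T F = (ν : ℂ) • F ↔ F ∈ EL k Γ lam ∧ S F = (ν : ℂ) • F) :
    Module.finrank ℂ (Module.End.eigenspace T (ν : ℂ)) =
      Module.finrank ℂ (Module.End.eigenspace H (ν : ℂ)) := by
  have h1 : Module.End.eigenspace T (ν : ℂ) =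
      (Module.End.eigenspace H (ν : ℂ)).map (EL k Γ lam).subtype := by
    ext F
    rw [Module.End.mem_eigenspace_iff, hT]
    constructor
    · rintro ⟨hF, he⟩
      refine ⟨⟨F, hF⟩, ?_, rfl⟩
      refine Module.End.mem_eigenspace_iff.2 ?_
      apply Subtype.ext
      rw [hS]
      exact he
    · rintro ⟨x, hx, rfl⟩
      have hx' := Module.End.mem_eigenspace_iff.1 hx
      refine ⟨x.2, ?_⟩
      have := congrArg Subtype.val hx'
      change S x.1 = (ν : ℂ) • x.1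
      rw [← hS]
      exact this
  rw [h1]
  exact (LinearEquiv.finrank_eq (Submodule.equivMapOfInjective (EL k Γ lam).subtype
    (Submodule.subtype_injective _) _)).symm

/-- The traces of `c P^n + c̄ (P*)^n` agree. -/
theorem strong_H {Γ₁ Γ₂ : Subgroup (Mat 3)ˣ} (h₁ : Klein Γ₁) (h₂ : Klein Γ₂)
    (hs : StronglyIsospectral Γ₁ Γ₂) (k : ℕ) (lam : ℝ) (n : ℕ) (c : ℂ) :
    LinearMap.trace ℂ _ (c • PE k Γ₁ lam ^ n + star c • PSE k Γ₁ lam ^ n) =
      LinearMap.trace ℂ _ (c • PE k Γ₂ lam ^ n + star c • PSE k Γ₂ lam ^ n) := by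
  obtain ⟨D₁, hD₁⟩ := FD_exists h₁
  obtain ⟨D₂, hD₂⟩ := FD_exists h₂
  have f₁ := EL_fin h₁ k lam
  have f₂ := EL_fin h₂ k lam
  have hadj : ∀ (Γ : Subgroup (Mat 3)ˣ) (D : Set UH), Klein Γ → FD Γ D →
      ∀ x y : EL k Γ lam, ipE k D Γ lam (PE k Γ lam x) y = ipE k D Γ lam x (PSE k Γ lam y) :=
    fun Γ D h hD x y => P_adj h hD x.1 y.1
  have hsym : ∀ (Γ : Subgroup (Mat 3)ˣ) (D : Set UH), Klein Γ → FD Γ D →
      ∀ x y : EL k Γ lam,
        ipE k D Γ lam ((c • PE k Γ lam ^ n + star c • PSE k Γ lam ^ n) x) y =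
        ipE k D Γ lam x ((c • PE k Γ lam ^ n + star c • PSE k Γ lam ^ n) y) := by
    intro Γ D h hD x y
    have hB := ipE_form (k := k) h hD lam
    have hp := fun x y => SForm.pow_adj (hadj Γ D h hD) n x y
    have hp' : ∀ x y, ipE k D Γ lam ((PSE k Γ lam ^ n) x) y =
        ipE k D Γ lam x ((PE k Γ lam ^ n) y) := by
      intro x y
      rw [← hB.conj y, ← hp, hB.conj]
    have hl : ∀ x y z, ipE k D Γ lam (x + y) z = ipE k D Γ lam x z + ipE k D Γ lam y z := by
      intro x y z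
      rw [← hB.conj z, hB.add, star_add, hB.conj, hB.conj]
    have hsl : ∀ (a : ℂ) x y, ipE k D Γ lam (a • x) y = star a * ipE k D Γ lam x y := by
      intro a x y
      rw [← hB.conj y, hB.smul, star_mul', hB.conj]
    rw [LinearMap.add_apply, LinearMap.add_apply, LinearMap.smul_apply, LinearMap.smul_apply,
      LinearMap.smul_apply, LinearMap.smul_apply, hl, hsl, hsl, hB.add, hB.smul, hB.smul, hp,
      hp', star_star]
    ring
  refine trace_compare (ipE_form (k := k) h₁ hD₁ lam) (ipE_form (k := k) h₂ hD₂ lam)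
    (hsym Γ₁ D₁ h₁ hD₁) (hsym Γ₂ D₂ h₂ hD₂) (fun t ht ht1 ν hν => ?_)
  obtain ⟨Q, hQn, hQl, hQ⟩ := near_zero (k := k) h₁ h₂ lam n c
  obtain ⟨D, hnat, hself, hell, hop⟩ := natD k n Q.natDegree hQn Q rfl hQl (t * c)
  have hmult := hs (Ix k) (tau k) D (2 * Q.natDegree) (by omega) (tau_rep k) hnat hself hell ν
  have hc : star ((t : ℂ) * c) = t * star c := by
    rw [star_mul', Complex.star_def, Complex.conj_ofReal]
  have key : ∀ Γ : Subgroup (Mat 3)ˣ, (Γ = Γ₁ ∨ Γ = Γ₂) → Klein Γ →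
      Cardinal.toNat (opMult (tau k) D Γ ν) = Module.finrank ℂ (Module.End.eigenspace
        ((t : ℂ) • (c • PE k Γ lam ^ n + star c • PSE k Γ lam ^ n)) (ν : ℂ)) := by
    intro Γ hΓ hK
    rw [opMult_eq hK (T := (Polynomial.aeval (CasL k Γ) (Q.map (algebraMap ℝ ℂ))) +
      ((t : ℂ) * c) • (PL k Γ ^ n) + star ((t : ℂ) * c) • (PSL k Γ ^ n))
      (fun F hF => hop Γ (fun γ hγ => Klein_SO hK hγ) F hF) ν]
    refine eig_restrict (S := ((t : ℂ) * c) • (PL k Γ ^ n) +
      star ((t : ℂ) * c) • (PSL k Γ ^ n)) (fun x => ?_) (fun F => ?_)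
    · rw [LinearMap.smul_apply, LinearMap.add_apply, LinearMap.smul_apply, LinearMap.smul_apply,
        LinearMap.add_apply, LinearMap.smul_apply, LinearMap.smul_apply, ← PE_pow_val,
        ← PSE_pow_val, hc, smul_add, smul_smul, smul_smul]
      rfl
    · exact hQ t (abs_le.2 ⟨by linarith, ht1⟩) ν hν Γ hΓ F
  rw [← key Γ₁ (Or.inl rfl) h₁, ← key Γ₂ (Or.inr rfl) h₂, hmult]

theorem strong_traces {Γ₁ Γ₂ : Subgroup (Mat 3)ˣ} (h₁ : Klein Γ₁) (h₂ : Klein Γ₂)
    (hs : StronglyIsospectral Γ₁ Γ₂) (k : ℕ) (lam : ℝ) (n : ℕ) :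
    LinearMap.trace ℂ _ (PE k Γ₁ lam ^ n) = LinearMap.trace ℂ _ (PE k Γ₂ lam ^ n) := by
  have f₁ := EL_fin h₁ k lam
  have f₂ := EL_fin h₂ k lam
  have key : ∀ Γ : Subgroup (Mat 3)ˣ, Klein Γ → ∀ c : ℂ,
      LinearMap.trace ℂ _ (c • PE k Γ lam ^ n + star c • PSE k Γ lam ^ n) =
        c * LinearMap.trace ℂ _ (PE k Γ lam ^ n) +
          star (c * LinearMap.trace ℂ _ (PE k Γ lam ^ n)) := by
    intro Γ hK c
    obtain ⟨D, hD⟩ := FD_exists hK
    have f := EL_fin hK k lam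
    have hB := ipE_form (k := k) hK hD lam
    have h3 : LinearMap.trace ℂ _ (PSE k Γ lam ^ n) =
        star (LinearMap.trace ℂ _ (PE k Γ lam ^ n)) :=
      hB.trace_adj (fun x y => SForm.pow_adj
        (fun x y : EL k Γ lam => P_adj hK hD x.1 y.1) n x y)
    rw [map_add, map_smul, map_smul, h3, smul_eq_mul, smul_eq_mul, star_mul']
  have e1 := strong_H h₁ h₂ hs k lam n 1
  have e2 := strong_H h₁ h₂ hs k lam n Complex.I
  rw [key Γ₁ h₁, key Γ₂ h₂] at e1 e2
  apply Complex.ext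
  · have := congrArg Complex.re e1
    simp only [one_mul, Complex.add_re, Complex.star_def, Complex.conj_re] at this
    linarith
  · have := congrArg Complex.re e2
    simp only [Complex.add_re, Complex.star_def, Complex.conj_re, Complex.mul_re, Complex.I_re,
      Complex.I_im, zero_mul, one_mul, zero_sub] at this
    linarith

end

end Pool.Agent.Work.MP_14c213_gt
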