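import Pool.Agent.Work.MP_14c213_gt.A.PIso
import Pool.Agent.Work.MP_14c213_gt.A.K2
import Pool.Agent.Work.MP_14c213_gt.A.StrongM
import Pool.Agent.Work.MP_14c213_gt.A.Closed

/-!
Theorem A.
-/

namespace Pool.Agent.Work.MP_14c213_gt

open Matrix MeasureTheory
open scoped Matrix ContDiff Matrix.Norms.Elementwise

noncomputable section

theorem analysis {Γ₁ Γ₂ : Subgroup (Mat 3)ˣ} (h : Pair Γ₁ Γ₂) :
    IsClosedHyp 3 Γ₁ ∧ IsClosedHyp 3 Γ₂ ∧ (∀ p ≤ 3, PIsospectral p Γ₁ Γ₂) ∧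
      ¬ StronglyIsospectral Γ₁ Γ₂ := by
  refine ⟨closed_of_Klein h.k1, closed_of_Klein h.k2, p_isospectral h, fun hs => ?_⟩
  obtain ⟨lam, n, hne⟩ := trace2 h
  exact hne (strong_traces h.k1 h.k2 hs 2 lam n)

end

end Pool.Agent.Work.MP_14c213_gt
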