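import Pool.Agent.Work.MP_14c213_gt.A.LoxM
import Pool.Agent.Work.MP_14c213_gt.A.MuInv
import Pool.Agent.Work.MP_14c213_gt.A.Unf

/-!
Orbital integral of one loxodromic element γ = Phi(g diag(z,1) g⁻¹): the set
D_γ = act (Phi g) '' {(x,t) : 1 ≤ √(|x|²+t²) < |z|} is a fundamental domain of ⟨γ⟩, and
(sec (x,t))⁻¹ diag(z,1) sec (x,t) = !![z, (z-1)x/t; 0, 1], so (Phi_zero_zero) the (0,0) orb_entry is
(|z|² + 1 + |z-1|²|x|²/t²)/(2|z|). Substitute x = t w: dmu = d²w dt/t.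
-/

namespace Pool.Agent.Work.MP_14c213_gt

open Matrix MeasureTheory
open scoped Matrix ContDiff Matrix.Norms.Elementwise

noncomputable section

private def orb_dz (z : ℂ) : M2 := !![z, 0; 0, 1]

private lemma orb_dz_det (z : ℂ) : (orb_dz z).det = z := by simp [orb_dz, Matrix.det_fin_two]

private lemma orb_dz_mem {z : ℂ} (hz : z ≠ 0) : orb_dz z ∈ GLo := by
  simp only [GLo, Set.mem_ofPred_eq, orb_dz_det]; exact hz

private lemma orb_dz_mul (z w : ℂ) : orb_dz z * orb_dz w = orb_dz (z * w) := by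
  ext i j; fin_cases i <;> fin_cases j <;> simp [orb_dz, Matrix.mul_apply, Fin.sum_univ_two]

private lemma orb_dz_one : orb_dz 1 = 1 := by
  ext i j; fin_cases i <;> fin_cases j <;> simp [orb_dz]

private lemma orb_GLo_inv {g : M2} (hg : g ∈ GLo) : g⁻¹ ∈ GLo := by
  have h : g.det ≠ 0 := hg
  have hu : IsUnit g.det := isUnit_iff_ne_zero.mpr h
  have : (g⁻¹).det = (g.det)⁻¹ := by
    rw [Matrix.det_nonsing_inv]; simp
  simp only [GLo, Set.mem_ofPred_eq, this]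
  exact inv_ne_zero h

private lemma orb_GLo_mul {g h : M2} (hg : g ∈ GLo) (hh : h ∈ GLo) : g * h ∈ GLo := by
  simp only [GLo, Set.mem_ofPred_eq, Matrix.det_mul] at *
  exact mul_ne_zero hg hh

private lemma orb_conj_mul {g : M2} (hg : g ∈ GLo) (z w : ℂ) :
    g * orb_dz z * g⁻¹ * (g * orb_dz w * g⁻¹) = g * orb_dz (z * w) * g⁻¹ := by
  have hu : IsUnit g.det := isUnit_iff_ne_zero.mpr hg
  have : g⁻¹ * g = 1 := Matrix.nonsing_inv_mul g hu
  calc g * orb_dz z * g⁻¹ * (g * orb_dz w * g⁻¹) = g * orb_dz z * (g⁻¹ * g) * orb_dz w * g⁻¹ := by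
        simp only [Matrix.mul_assoc]
    _ = g * (orb_dz z * orb_dz w) * g⁻¹ := by rw [this]; simp [Matrix.mul_assoc]
    _ = _ := by rw [orb_dz_mul]

private lemma orb_conj_mem {g : M2} (hg : g ∈ GLo) {z : ℂ} (hz : z ≠ 0) : g * orb_dz z * g⁻¹ ∈ GLo :=
  orb_GLo_mul (orb_GLo_mul hg (orb_dz_mem hz)) (orb_GLo_inv hg)

private lemma orb_conj_one {g : M2} (hg : g ∈ GLo) : g * orb_dz 1 * g⁻¹ = 1 := by
  have hu : IsUnit g.det := isUnit_iff_ne_zero.mpr hg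
  rw [orb_dz_one, Matrix.mul_one, Matrix.mul_nonsing_inv g hu]

/-- powers -/
private lemma orb_pow_eq {g : M2} (hg : g ∈ GLo) {z : ℂ} (hz : z ≠ 0) {γ : (Mat 3)ˣ}
    (h : (γ : Mat 3) = Phi (g * orb_dz z * g⁻¹)) (n : ℤ) :
    ((γ ^ n : (Mat 3)ˣ) : Mat 3) = Phi (g * orb_dz (z ^ n) * g⁻¹) := by
  have hinv : ((γ⁻¹ : (Mat 3)ˣ) : Mat 3) = Phi (g * orb_dz (z⁻¹) * g⁻¹) := by
    apply Units.inv_eq_of_mul_eq_one_right
    rw [h, ← Phi_mul (orb_conj_mem hg hz) (orb_conj_mem hg (inv_ne_zero hz)), orb_conj_mul hg,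
      mul_inv_cancel₀ hz, orb_conj_one hg, Phi_one]
  induction n using Int.induction_on with
  | zero => simp [orb_conj_one hg, Phi_one]
  | succ n ih =>
    rw [_root_.zpow_add_one, Units.val_mul, ih, h, ← Phi_mul (orb_conj_mem hg (zpow_ne_zero _ hz))
      (orb_conj_mem hg hz), orb_conj_mul hg, ← zpow_add_one₀ hz]
  | pred n ih =>
    rw [_root_.zpow_sub_one, Units.val_mul, ih, hinv, ← Phi_mul (orb_conj_mem hg (zpow_ne_zero _ hz))
      (orb_conj_mem hg (inv_ne_zero hz)), orb_conj_mul hg, ← zpow_sub_one₀ hz]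

/-- right multiplication by a rotation does not change the point -/
private lemma orb_mul_rot_col (A : Mat 3) (k : Matrix (Fin 3) (Fin 3) ℝ) (a : Fin 4) :
    (A * rot k) a 0 = A a 0 := by
  simp [Matrix.mul_apply, rot, Fin.sum_univ_succ]

/-- action of a diagonal matrix -/
private lemma orb_act_dz {w : ℂ} (hw : w ≠ 0) {p : UH} (hp : p ∈ UHs) :
    act (Phi (orb_dz w)) p = (w * p.1, ‖w‖ * p.2) := by
  obtain ⟨x, t⟩ := p
  have ht : 0 < t := hp
  have hw' : ‖w‖ ≠ 0 := norm_ne_zero_iff.mpr hw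
  have hw0 : 0 < ‖w‖ := norm_pos_iff.mpr hw
  have hwc : ((‖w‖ : ℝ) : ℂ) ≠ 0 := by exact_mod_cast hw'
  have hq : ((w * x, ‖w‖ * t) : UH) ∈ UHs := mul_pos hw0 ht
  have hn : ‖w / (‖w‖ : ℂ)‖ = 1 := by
    rw [norm_div, Complex.norm_real, Real.norm_of_nonneg hw0.le, div_self hw']
  have hu : orb_dz (w / (‖w‖ : ℂ)) ∈ Matrix.unitaryGroup (Fin 2) ℂ := by
    rw [Matrix.mem_unitaryGroup_iff]
    ext i j
    fin_cases i <;> fin_cases j <;>
      simp [orb_dz, Matrix.mul_apply, Fin.sum_univ_two, Matrix.star_apply]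
    have := Complex.mul_conj (w / (‖w‖ : ℂ))
    rw [Complex.normSq_eq_norm_sq, hn] at this
    simpa using this
  have e2 : orb_dz w * sec (x, t) = sec (w * x, ‖w‖ * t) * orb_dz (w / (‖w‖ : ℂ)) := by
    ext i j; fin_cases i <;> fin_cases j <;>
      simp [orb_dz, sec, Matrix.mul_apply, Fin.sum_univ_two]
    field_simp
  have hd : w / (‖w‖ : ℂ) ≠ 0 := div_ne_zero hw hwc
  have e1 : Phi (orb_dz w) * SS (x, t) = SS (w * x, ‖w‖ * t) * rot (Rot (orb_dz (w / (‖w‖ : ℂ)))) := by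
    rw [SS, SS, ← Phi_mul (orb_dz_mem hw) (sec_mem hp), e2, Phi_mul (sec_mem hq) (orb_dz_mem hd),
      (Phi_unitary hu).1]
  rw [act, e1, cor_col (fun a => orb_mul_rot_col _ _ a), cor_SS hq]

private lemma orb_act_Phi_mul {g h : M2} (hg : g ∈ GLo) (hh : h ∈ GLo) {p : UH} (hp : p ∈ UHs) :
    act (Phi (g * h)) p = act (Phi g) (act (Phi h) p) := by
  rw [Phi_mul hg hh, act_mul (Phi_SO hg).1 (Phi_SO hh).1 hp]

private lemma orb_act_pow {g : M2} (hg : g ∈ GLo) {z : ℂ} (hz : z ≠ 0) {γ : (Mat 3)ˣ}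
    (h : (γ : Mat 3) = Phi (g * orb_dz z * g⁻¹)) (n : ℤ) {q : UH} (hq : q ∈ UHs) :
    act ((γ ^ n : (Mat 3)ˣ) : Mat 3) (act (Phi g) q) =
      act (Phi g) (z ^ n * q.1, ‖z‖ ^ n * q.2) := by
  have hu : IsUnit g.det := isUnit_iff_ne_zero.mpr hg
  have hzn : z ^ n ≠ 0 := zpow_ne_zero _ hz
  rw [orb_pow_eq hg hz h, ← act_mul (Phi_SO (orb_conj_mem hg hzn)).1 (Phi_SO hg).1 hq,
    ← Phi_mul (orb_conj_mem hg hzn) hg]
  have : g * orb_dz (z ^ n) * g⁻¹ * g = g * orb_dz (z ^ n) := by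
    rw [Matrix.mul_assoc, Matrix.nonsing_inv_mul g hu, Matrix.mul_one]
  rw [this, orb_act_Phi_mul hg (orb_dz_mem hzn) hq, orb_act_dz hzn hq, norm_zpow]

/-- the standard domain -/
private def orb_D0 (z : ℂ) : Set UH := {p | 0 < p.2 ∧ 1 ≤ ‖p.1‖ ^ 2 + p.2 ^ 2 ∧
  ‖p.1‖ ^ 2 + p.2 ^ 2 < ‖z‖ ^ 2}

private lemma orb_D0_meas (z : ℂ) : MeasurableSet (orb_D0 z) := by
  have h1 : Measurable fun p : UH => ‖p.1‖ ^ 2 + p.2 ^ 2 := by fun_prop
  exact (measurableSet_lt measurable_const measurable_snd).inter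
    ((measurableSet_le measurable_const h1).inter (measurableSet_lt h1 measurable_const))

private lemma orb_D0_sub (z : ℂ) : orb_D0 z ⊆ UHs := fun _ hp => hp.1

private lemma orb_act_surj {g : M2} (hg : g ∈ GLo) {p : UH} (hp : p ∈ UHs) :
    ∃ q ∈ UHs, act (Phi g) q = p := by
  have hu : IsUnit g.det := isUnit_iff_ne_zero.mpr hg
  refine ⟨act (Phi g⁻¹) p, act_mem (Phi_SO (orb_GLo_inv hg)).1 hp, ?_⟩
  rw [← orb_act_Phi_mul hg (orb_GLo_inv hg) hp, Matrix.mul_nonsing_inv g hu, Phi_one, act_one hp]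

private lemma orb_unique_pow {g : M2} (hg : g ∈ GLo) {z : ℂ} (hz : 1 < ‖z‖) {γ : (Mat 3)ˣ}
    (h : (γ : Mat 3) = Phi (g * orb_dz z * g⁻¹)) {p : UH} (hp : p ∈ UHs) :
    ∃! n : ℤ, act ((γ ^ n : (Mat 3)ˣ) : Mat 3) p ∈ act (Phi g) '' orb_D0 z := by
  have hz0 : z ≠ 0 := by
    rintro rfl; simp at hz; linarith
  have hzp : 0 < ‖z‖ := by linarith
  obtain ⟨q, hq, rfl⟩ := orb_act_surj hg hp
  have key : ∀ n : ℤ, act ((γ ^ n : (Mat 3)ˣ) : Mat 3) (act (Phi g) q) ∈ act (Phi g) '' orb_D0 z ↔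
      (1 ≤ (‖z‖ ^ n) ^ 2 * (‖q.1‖ ^ 2 + q.2 ^ 2) ∧
        (‖z‖ ^ n) ^ 2 * (‖q.1‖ ^ 2 + q.2 ^ 2) < ‖z‖ ^ 2) := by
    intro n
    have hpn : 0 < ‖z‖ ^ n := zpow_pos hzp n
    have hm : ((z ^ n * q.1, ‖z‖ ^ n * q.2) : UH) ∈ UHs := mul_pos hpn hq
    rw [orb_act_pow hg hz0 h n hq]
    have hin : act (Phi g) (z ^ n * q.1, ‖z‖ ^ n * q.2) ∈ act (Phi g) '' orb_D0 z ↔
        ((z ^ n * q.1, ‖z‖ ^ n * q.2) : UH) ∈ orb_D0 z := by
      constructor
      · rintro ⟨r, hr, e⟩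
        have := act_injOn (Phi_SO hg).1 (orb_D0_sub z hr) hm e
        rwa [← this]
      · intro hr
        exact ⟨_, hr, rfl⟩
    rw [hin]
    have e : ‖z ^ n * q.1‖ ^ 2 + (‖z‖ ^ n * q.2) ^ 2 = (‖z‖ ^ n) ^ 2 * (‖q.1‖ ^ 2 + q.2 ^ 2) := by
      rw [norm_mul, norm_zpow]; ring
    simp only [orb_D0, Set.mem_ofPred_eq, e]
    constructor
    · rintro ⟨_, h2, h3⟩; exact ⟨h2, h3⟩
    · rintro ⟨h2, h3⟩; exact ⟨hm, h2, h3⟩
  have hs : 0 < ‖q.1‖ ^ 2 + q.2 ^ 2 := by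
    have : 0 < q.2 := hq
    positivity
  set s := Real.sqrt (‖q.1‖ ^ 2 + q.2 ^ 2) with hsdef
  have hs2 : s ^ 2 = ‖q.1‖ ^ 2 + q.2 ^ 2 := Real.sq_sqrt hs.le
  have hs0 : 0 < s := Real.sqrt_pos.mpr hs
  have key2 : ∀ n : ℤ, (1 ≤ (‖z‖ ^ n) ^ 2 * (‖q.1‖ ^ 2 + q.2 ^ 2) ∧
        (‖z‖ ^ n) ^ 2 * (‖q.1‖ ^ 2 + q.2 ^ 2) < ‖z‖ ^ 2) ↔ (1 ≤ ‖z‖ ^ n * s ∧ ‖z‖ ^ n * s < ‖z‖) := by
    intro n
    have hpn : 0 < ‖z‖ ^ n := zpow_pos hzp n
    have e : (‖z‖ ^ n) ^ 2 * (‖q.1‖ ^ 2 + q.2 ^ 2) = (‖z‖ ^ n * s) ^ 2 := by rw [← hs2]; ring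
    have hpos : 0 < ‖z‖ ^ n * s := mul_pos hpn hs0
    rw [e]
    constructor
    · rintro ⟨h1, h2⟩
      exact ⟨by nlinarith, lt_of_pow_lt_pow_left₀ 2 hzp.le h2⟩
    · rintro ⟨h1, h2⟩
      exact ⟨by nlinarith, pow_lt_pow_left₀ h2 hpos.le two_ne_zero⟩
  simp only [key, key2]
  obtain ⟨m, hm1, hm2⟩ := exists_mem_Ico_zpow hs0 hz
  refine ⟨-m, ⟨?_, ?_⟩, ?_⟩
  · have hpm : 0 < ‖z‖ ^ m := zpow_pos hzp m
    rw [_root_.zpow_neg, inv_mul_eq_div, le_div_iff₀ hpm]; linarith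
  · have hpm : 0 < ‖z‖ ^ m := zpow_pos hzp m
    rw [_root_.zpow_neg, inv_mul_eq_div, div_lt_iff₀ hpm]
    rw [zpow_add_one₀ hzp.ne'] at hm2
    linarith
  · rintro n ⟨h1, h2⟩
    have hpm : 0 < ‖z‖ ^ m := zpow_pos hzp m
    have hpn : 0 < ‖z‖ ^ n := zpow_pos hzp n
    -- ‖z‖^(n+m) in (1/‖z‖, ‖z‖)
    have a1 : ‖z‖ ^ (n + m) < ‖z‖ ^ (1 : ℤ) := by
      rw [zpow_add₀ hzp.ne', zpow_one]
      calc ‖z‖ ^ n * ‖z‖ ^ m ≤ ‖z‖ ^ n * s := by gcongr
        _ < ‖z‖ := h2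
    have a2 : ‖z‖ ^ (-1 : ℤ) < ‖z‖ ^ (n + m) := by
      rw [zpow_add₀ hzp.ne', _root_.zpow_neg_one]
      have : 1 < ‖z‖ ^ n * ‖z‖ ^ m * ‖z‖ := by
        calc 1 ≤ ‖z‖ ^ n * s := h1
          _ < ‖z‖ ^ n * ‖z‖ ^ (m + 1) := by gcongr
          _ = ‖z‖ ^ n * ‖z‖ ^ m * ‖z‖ := by rw [zpow_add_one₀ hzp.ne']; ring
      rw [inv_lt_iff_one_lt_mul₀ hzp]; linarith
    have b1 := (zpow_lt_zpow_iff_right₀ hz).mp a1
    have b2 := (zpow_lt_zpow_iff_right₀ hz).mp a2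
    omega


/-! ### the integral -/

private lemma orb_lint_inv {a c : ℝ} (ha : 0 < a) (hc : 1 < c) :
    ∫⁻ t in Set.Ico a (c * a), ENNReal.ofReal (t⁻¹) = ENNReal.ofReal (Real.log c) := by
  have hac : a ≤ c * a := by nlinarith
  have hmeas : (volume.restrict (Set.Ico a (c * a))) = volume.restrict (Set.Ioc a (c * a)) :=
    Measure.restrict_congr_set Ico_ae_eq_Ioc
  have hint : IntervalIntegrable (fun t : ℝ => t⁻¹) volume a (c * a) := by
    apply ContinuousOn.intervalIntegrable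
    rw [Set.uIcc_of_le hac]
    exact continuousOn_inv₀.mono (fun x hx => by
      have : 0 < x := lt_of_lt_of_le ha hx.1
      simpa using this.ne')
  rw [hmeas, ← ofReal_integral_eq_lintegral_ofReal]
  · congr 1
    rw [← intervalIntegral.integral_of_le hac, integral_inv_of_pos ha (by nlinarith)]
    congr 1
    field_simp
  · exact (intervalIntegrable_iff_integrableOn_Ioc_of_le hac).mp hint
  · filter_upwards [self_mem_ae_restrict measurableSet_Ioc] with t ht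
    have : 0 < t := lt_trans ha ht.1
    positivity

private lemma orb_lint_sq (f : ℝ → ENNReal) (hf : Measurable f) :
    ∫⁻ w : ℂ, f (‖w‖ ^ 2) = ENNReal.ofReal Real.pi * ∫⁻ s in Set.Ioi 0, f s := by
  rw [← Complex.lintegral_comp_polarCoord_symm]
  have h1 : ∀ p ∈ polarCoord.target, ENNReal.ofReal p.1 • f (‖Complex.polarCoord.symm p‖ ^ 2) =
      ENNReal.ofReal p.1 * f (p.1 ^ 2) := by
    intro p hp
    rw [Complex.norm_polarCoord_symm, sq_abs, smul_eq_mul]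
  rw [setLIntegral_congr_fun (by exact polarCoord.open_target.measurableSet) h1]
  have h2 : polarCoord.target = Set.Ioi (0 : ℝ) ×ˢ Set.Ioo (-Real.pi) Real.pi := rfl
  rw [h2, Measure.volume_eq_prod, ← Measure.prod_restrict]
  have hm : Measurable fun p : ℝ × ℝ => ENNReal.ofReal p.1 * f (p.1 ^ 2) := by fun_prop
  rw [lintegral_prod _ hm.aemeasurable]
  simp only [lintegral_const, Measure.restrict_apply MeasurableSet.univ, Set.univ_inter,
    Real.volume_Ioo]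
  rw [lintegral_mul_const _ (by fun_prop)]
  have h3 : ∫⁻ s in Set.Ioi (0 : ℝ), f s = ∫⁻ r in Set.Ioi (0 : ℝ), ENNReal.ofReal (2 * r) * f (r ^ 2) := by
    have himg : (fun r : ℝ => r ^ 2) '' Set.Ioi 0 = Set.Ioi 0 := by
      ext y
      constructor
      · rintro ⟨x, hx, rfl⟩
        exact pow_pos (Set.mem_Ioi.mp hx) 2
      · intro hy
        exact ⟨Real.sqrt y, Real.sqrt_pos.mpr hy, Real.sq_sqrt (le_of_lt hy)⟩
    have hinj : Set.InjOn (fun r : ℝ => r ^ 2) (Set.Ioi 0) := by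
      intro x hx y hy h
      exact (pow_left_inj₀ (le_of_lt hx) (le_of_lt hy) two_ne_zero).mp h
    have := lintegral_image_eq_lintegral_abs_deriv_mul (s := Set.Ioi (0 : ℝ)) measurableSet_Ioi
      (f := fun r : ℝ => r ^ 2) (f' := fun r => 2 * r)
      (fun x hx => by simpa using (hasDerivAt_pow 2 x).hasDerivWithinAt) hinj f
    rw [himg] at this
    rw [this]
    refine setLIntegral_congr_fun measurableSet_Ioi (fun r hr => ?_)
    have : (0 : ℝ) < r := hr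
    rw [abs_of_pos (by positivity)]
  rw [h3]
  have h4 : ∀ r ∈ Set.Ioi (0 : ℝ), ENNReal.ofReal (2 * r) * f (r ^ 2) =
      ENNReal.ofReal 2 * (ENNReal.ofReal r * f (r ^ 2)) := by
    intro r hr
    rw [ENNReal.ofReal_mul (by norm_num), mul_assoc]
  rw [setLIntegral_congr_fun measurableSet_Ioi h4, lintegral_const_mul _ (by fun_prop),
    ← mul_assoc, ← ENNReal.ofReal_mul Real.pi_pos.le, mul_comm]
  congr 2
  ring

private lemma orb_lint_scale (φ : ℂ → ENNReal) (hφ : Measurable φ) {t : ℝ} (ht : 0 < t) :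
    ∫⁻ x : ℂ, φ x = ENNReal.ofReal (t ^ 2) * ∫⁻ w : ℂ, φ (t * w) := by
  have h1 : ∫⁻ w : ℂ, φ (t • w) = ∫⁻ x, φ x ∂(Measure.map (t • ·) (volume : Measure ℂ)) :=
    (lintegral_map hφ (by fun_prop)).symm
  have h2 := Measure.map_addHaar_smul (volume : Measure ℂ) ht.ne'
  rw [h2, Complex.finrank_real_complex, lintegral_smul_measure] at h1
  have h3 : ∀ w : ℂ, (t : ℂ) * w = t • w := fun w => by simp
  simp only [h3, h1]
  rw [smul_eq_mul, ← mul_assoc, ← ENNReal.ofReal_mul (by positivity), abs_of_pos (by positivity),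
    mul_inv_cancel₀ (by positivity), ENNReal.ofReal_one, one_mul]

private lemma orb_lint_D0 {z : ℂ} (hz : 1 < ‖z‖) (f : ℝ → ENNReal) (hf : Measurable f) :
    ∫⁻ p in orb_D0 z, f (‖p.1‖ ^ 2 / p.2 ^ 2) ∂mu =
      ENNReal.ofReal (Real.pi * Real.log ‖z‖) * ∫⁻ s in Set.Ioi 0, f s := by
  have hlog : 0 < Real.log ‖z‖ := Real.log_pos hz
  have hmf : Measurable fun p : UH => f (‖p.1‖ ^ 2 / p.2 ^ 2) := by fun_prop
  have hmw : Measurable fun p : UH => ENNReal.ofReal (p.2 ^ (-3 : ℤ)) := by fun_prop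
  have e1 : mu.restrict (orb_D0 z) = (volume.restrict (orb_D0 z)).withDensity
      fun p => ENNReal.ofReal (p.2 ^ (-3 : ℤ)) := by
    rw [mu, restrict_withDensity (orb_D0_meas z), Measure.restrict_restrict (orb_D0_meas z),
      Set.inter_eq_left.mpr (orb_D0_sub z)]
  rw [e1, lintegral_withDensity_eq_lintegral_mul _ hmw hmf, ← lintegral_indicator (orb_D0_meas z),
    Measure.volume_eq_prod]
  have hmi : Measurable ((orb_D0 z).indicator ((fun p : UH => ENNReal.ofReal (p.2 ^ (-3 : ℤ))) *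
      fun p : UH => f (‖p.1‖ ^ 2 / p.2 ^ 2))) := (hmw.mul hmf).indicator (orb_D0_meas z)
  rw [lintegral_prod_symm _ hmi.aemeasurable]
  -- the set after substitution
  have e2 : ∀ t : ℝ, ∫⁻ x : ℂ, (orb_D0 z).indicator ((fun p : UH => ENNReal.ofReal (p.2 ^ (-3 : ℤ))) *
      fun p : UH => f (‖p.1‖ ^ 2 / p.2 ^ 2)) (x, t) =
      ∫⁻ w : ℂ, (Set.Ico ((Real.sqrt (‖w‖ ^ 2 + 1))⁻¹)
        (‖z‖ * (Real.sqrt (‖w‖ ^ 2 + 1))⁻¹)).indicator
        (fun t : ℝ => ENNReal.ofReal (t⁻¹) * f (‖w‖ ^ 2)) t := by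
    intro t
    rcases le_or_gt t 0 with ht | ht
    · have h1 : ∀ x : ℂ, (orb_D0 z).indicator ((fun p : UH => ENNReal.ofReal (p.2 ^ (-3 : ℤ))) *
          fun p : UH => f (‖p.1‖ ^ 2 / p.2 ^ 2)) (x, t) = 0 := by
        intro x
        apply Set.indicator_of_notMem
        intro h
        exact absurd h.1 (not_lt.mpr ht)
      have h2 : ∀ w : ℂ, (Set.Ico ((Real.sqrt (‖w‖ ^ 2 + 1))⁻¹)
        (‖z‖ * (Real.sqrt (‖w‖ ^ 2 + 1))⁻¹)).indicator
        (fun t : ℝ => ENNReal.ofReal (t⁻¹) * f (‖w‖ ^ 2)) t = 0 := by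
        intro w
        apply Set.indicator_of_notMem
        intro h
        have : 0 < (Real.sqrt (‖w‖ ^ 2 + 1))⁻¹ := by positivity
        linarith [h.1]
      simp only [h1, h2]
    · have hmx : Measurable fun x : ℂ => (orb_D0 z).indicator ((fun p : UH =>
          ENNReal.ofReal (p.2 ^ (-3 : ℤ))) * fun p : UH => f (‖p.1‖ ^ 2 / p.2 ^ 2)) (x, t) :=
        hmi.comp (by fun_prop : Measurable fun x : ℂ => ((x, t) : UH))
      rw [orb_lint_scale _ hmx ht, ← lintegral_const_mul _ (by fun_prop)]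
      refine lintegral_congr (fun w => ?_)
      set a := (Real.sqrt (‖w‖ ^ 2 + 1))⁻¹ with hadef
      have hs0 : 0 < Real.sqrt (‖w‖ ^ 2 + 1) := by positivity
      have hs2 : Real.sqrt (‖w‖ ^ 2 + 1) ^ 2 = ‖w‖ ^ 2 + 1 := Real.sq_sqrt (by positivity)
      have ha0 : 0 < a := by positivity
      have hiff : (((t : ℂ) * w, t) : UH) ∈ orb_D0 z ↔ t ∈ Set.Ico a (‖z‖ * a) := by
        have e : ‖(t : ℂ) * w‖ ^ 2 + t ^ 2 = (t * Real.sqrt (‖w‖ ^ 2 + 1)) ^ 2 := by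
          rw [norm_mul, Complex.norm_real, Real.norm_of_nonneg ht.le, mul_pow t (Real.sqrt _), hs2]
          ring
        have hp : 0 < t * Real.sqrt (‖w‖ ^ 2 + 1) := mul_pos ht hs0
        simp only [orb_D0, Set.mem_ofPred_eq, e, Set.mem_Ico]
        have c1 : (1 ≤ (t * Real.sqrt (‖w‖ ^ 2 + 1)) ^ 2) ↔ a ≤ t := by
          rw [hadef, inv_le_iff_one_le_mul₀ hs0]
          constructor
          · intro h; nlinarith
          · intro h; nlinarith
        have c2 : ((t * Real.sqrt (‖w‖ ^ 2 + 1)) ^ 2 < ‖z‖ ^ 2) ↔ t < ‖z‖ * a := by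
          rw [hadef, ← div_eq_mul_inv, lt_div_iff₀ hs0]
          constructor
          · intro h; exact lt_of_pow_lt_pow_left₀ 2 (by linarith) h
          · intro h; exact pow_lt_pow_left₀ h hp.le two_ne_zero
        rw [c1, c2]
        exact ⟨fun h => h.2, fun h => ⟨ht, h⟩⟩
      by_cases hin : t ∈ Set.Ico a (‖z‖ * a)
      · rw [Set.indicator_of_mem hin, Set.indicator_of_mem (hiff.mpr hin)]
        simp only [Pi.mul_apply]
        rw [← mul_assoc, ← ENNReal.ofReal_mul (by positivity)]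
        congr 2
        · field_simp
        · rw [norm_mul, Complex.norm_real, Real.norm_of_nonneg ht.le]
          field_simp
      · rw [Set.indicator_of_notMem hin, Set.indicator_of_notMem (fun h => hin (hiff.mp h)),
          mul_zero]
  simp only [e2]
  rw [lintegral_lintegral_swap]
  · have e3 : ∀ w : ℂ, ∫⁻ t : ℝ, (Set.Ico ((Real.sqrt (‖w‖ ^ 2 + 1))⁻¹)
        (‖z‖ * (Real.sqrt (‖w‖ ^ 2 + 1))⁻¹)).indicator
        (fun t : ℝ => ENNReal.ofReal (t⁻¹) * f (‖w‖ ^ 2)) t =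
        ENNReal.ofReal (Real.log ‖z‖) * f (‖w‖ ^ 2) := by
      intro w
      rw [lintegral_indicator measurableSet_Ico, lintegral_mul_const _ (by fun_prop),
        orb_lint_inv (by positivity) hz]
    simp only [e3]
    rw [lintegral_const_mul _ (by fun_prop), orb_lint_sq f hf, ← mul_assoc,
      ← ENNReal.ofReal_mul hlog.le, mul_comm Real.pi]
  · have hset : MeasurableSet {p : ℝ × ℂ | p.1 ∈ Set.Ico ((Real.sqrt (‖p.2‖ ^ 2 + 1))⁻¹)
        (‖z‖ * (Real.sqrt (‖p.2‖ ^ 2 + 1))⁻¹)} := by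
      apply MeasurableSet.inter
      · exact measurableSet_le (by fun_prop) measurable_fst
      · exact measurableSet_lt measurable_fst (by fun_prop)
    have hm : Measurable ({p : ℝ × ℂ | p.1 ∈ Set.Ico ((Real.sqrt (‖p.2‖ ^ 2 + 1))⁻¹)
        (‖z‖ * (Real.sqrt (‖p.2‖ ^ 2 + 1))⁻¹)}.indicator
        (fun p : ℝ × ℂ => ENNReal.ofReal (p.1⁻¹) * f (‖p.2‖ ^ 2))) :=
      Measurable.indicator (by fun_prop) hset
    exact hm.aemeasurable

private lemma orb_map_D0 {z : ℂ} (hz : 1 < ‖z‖) :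
    (mu.restrict (orb_D0 z)).map (fun p : UH => ‖p.1‖ ^ 2 / p.2 ^ 2) =
      ENNReal.ofReal (Real.pi * Real.log ‖z‖) • volume.restrict (Set.Ioi (0 : ℝ)) := by
  have hm : Measurable fun p : UH => ‖p.1‖ ^ 2 / p.2 ^ 2 := by fun_prop
  ext S hS
  rw [Measure.map_apply hm hS, Measure.smul_apply, smul_eq_mul]
  have := orb_lint_D0 hz (S.indicator 1) (measurable_one.indicator hS)
  rw [lintegral_indicator_one hS] at this
  rw [← this, ← lintegral_indicator_one (hm hS)]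
  rfl

private lemma orb_int_D0 {z : ℂ} (hz : 1 < ‖z‖) {B : ℝ → ℝ} (hB : Prof B) {c e : ℝ} (he : 0 < e) :
    IntegrableOn (fun p : UH => B (c + e * (‖p.1‖ ^ 2 / p.2 ^ 2))) (orb_D0 z) mu ∧
    ∫ p in orb_D0 z, B (c + e * (‖p.1‖ ^ 2 / p.2 ^ 2)) ∂mu =
      Real.log ‖z‖ * Real.pi / e * ∫ v in Set.Ioi c, B v := by
  have hlog : 0 < Real.log ‖z‖ := Real.log_pos hz
  have hm : Measurable fun p : UH => ‖p.1‖ ^ 2 / p.2 ^ 2 := by fun_prop
  have hcont : Continuous fun s : ℝ => B (c + e * s) := hB.cont.comp (by fun_prop)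
  have hint : IntegrableOn (fun s : ℝ => B (c + e * s)) (Set.Ioi 0) := by
    obtain ⟨M, hM⟩ := hB.supp
    set N := max 0 ((M - c) / e) with hN
    have h1 : IntegrableOn (fun s : ℝ => B (c + e * s)) (Set.Icc 0 N) :=
      hcont.continuousOn.integrableOn_Icc
    have h2 : IntegrableOn (fun s : ℝ => B (c + e * s)) (Set.Ioi N) := by
      refine IntegrableOn.congr_fun (f := fun _ => (0 : ℝ)) integrableOn_zero (fun s hs => ?_)
        measurableSet_Ioi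
      have : (M - c) / e ≤ s := le_trans (le_max_right _ _) (le_of_lt hs)
      rw [div_le_iff₀ he] at this
      exact (hM _ (by linarith)).symm
    exact (h1.union h2).mono_set (fun s hs => by
      rcases le_or_gt s N with h | h
      · exact Or.inl ⟨le_of_lt hs, h⟩
      · exact Or.inr h)
  have hmap := orb_map_D0 hz
  have hae : AEStronglyMeasurable (fun s : ℝ => B (c + e * s))
      ((mu.restrict (orb_D0 z)).map (fun p : UH => ‖p.1‖ ^ 2 / p.2 ^ 2)) :=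
    hcont.aestronglyMeasurable
  constructor
  · have : Integrable (fun s : ℝ => B (c + e * s))
        ((mu.restrict (orb_D0 z)).map (fun p : UH => ‖p.1‖ ^ 2 / p.2 ^ 2)) := by
      rw [hmap]
      exact Integrable.smul_measure hint ENNReal.ofReal_ne_top
    exact (integrable_map_measure hae hm.aemeasurable).mp this
  · have := integral_map hm.aemeasurable hae
    rw [hmap, integral_smul_measure, ENNReal.toReal_ofReal (by positivity)] at this
    rw [← this]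
    have h3 : ∫ s in Set.Ioi (0 : ℝ), B (c + e * s) = e⁻¹ * ∫ v in Set.Ioi c, B v := by
      have h4 := integral_comp_mul_left_Ioi (fun v => B (c + v)) 0 he
      rw [mul_zero] at h4
      rw [h4, smul_eq_mul]
      congr 1
      have h5 := (measurePreserving_add_left (volume : Measure ℝ) c).setIntegral_preimage_emb
        (measurableEmbedding_addLeft c) B (Set.Ioi c)
      rw [← h5]
      congr 1
      congr 1
      ext s
      simp
    rw [h3, smul_eq_mul]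
    field_simp

/-! ### transport to the image -/

private lemma orb_map_act {A : Mat 3} (hA : A ∈ SO) {S : Set UH} (hS : MeasurableSet S)
    (hSs : S ⊆ UHs) : (mu.restrict S).map (act A) = mu.restrict (act A '' S) := by
  have hmeas : AEMeasurable (act A) (mu.restrict S) :=
    ((act_cont hA.1).mono hSs).aemeasurable hS
  have hopen : MeasurableSet UHs := UHs_open.measurableSet
  ext T hT
  rw [Measure.map_apply_of_aemeasurable hmeas hT, Measure.restrict_apply hT]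
  have hpre : MeasurableSet (act A ⁻¹' T ∩ S) := by
    have h1 : ContinuousOn (act A) S := (act_cont hA.1).mono hSs
    have h2 : Measurable (S.domRestrict (act A)) := (continuousOn_iff_continuous_domRestrict.mp h1).measurable
    have h3 := (h2 hT)
    have h4 := (MeasurableEmbedding.subtype_coe hS).measurableSet_image.mpr h3
    convert h4 using 1
    ext x
    constructor
    · rintro ⟨hx1, hx2⟩
      exact ⟨⟨x, hx2⟩, hx1, rfl⟩
    · rintro ⟨⟨y, hy⟩, hy1, rfl⟩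
      exact ⟨hy1, hy⟩
  rw [Measure.restrict_apply₀' hS.nullMeasurableSet]
  have := (act_image_measure hA hpre (Set.inter_subset_right.trans hSs)).2
  rw [← this]
  congr 1
  ext y
  constructor
  · rintro ⟨x, ⟨hx1, hx2⟩, rfl⟩
    exact ⟨hx1, x, hx2, rfl⟩
  · rintro ⟨hy, x, hx, rfl⟩
    exact ⟨x, ⟨hy, hx⟩, rfl⟩

private lemma orb_entry {g : M2} (hg : g ∈ GLo) {z : ℂ} (hz : z ≠ 0) {γ : Mat 3}
    (h : γ = Phi (g * orb_dz z * g⁻¹)) {q : UH} (hq : q ∈ UHs) :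
    2 * ((SS (act (Phi g) q))⁻¹ * γ * SS (act (Phi g) q)) 0 0 =
      (‖z‖ ^ 2 + 1) / ‖z‖ + ‖z - 1‖ ^ 2 / ‖z‖ * (‖q.1‖ ^ 2 / q.2 ^ 2) := by
  have hu : IsUnit g.det := isUnit_iff_ne_zero.mpr hg
  have hz0 : 0 < ‖z‖ := norm_pos_iff.mpr hz
  obtain ⟨k, hk, -, hkk⟩ := act_SS (Phi_SO hg) hq
  have hrot : rot k * rot kᵀ = 1 := by
    rw [← rot_mul, (Matrix.mem_orthogonalGroup_iff _ _).mp hk, rot_one]
  have hrinv : (rot k)⁻¹ = rot kᵀ := Matrix.inv_eq_right_inv hrot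
  have hginv : (Phi g)⁻¹ = Phi g⁻¹ := by
    apply Matrix.inv_eq_right_inv
    rw [← Phi_mul hg (orb_GLo_inv hg), Matrix.mul_nonsing_inv g hu, Phi_one]
  have hqs : sec q ∈ GLo := sec_mem hq
  have hqu : IsUnit (sec q).det := isUnit_iff_ne_zero.mpr hqs
  have hqinv : (SS q)⁻¹ = Phi (sec q)⁻¹ := by
    apply Matrix.inv_eq_right_inv
    rw [SS, ← Phi_mul hqs (orb_GLo_inv hqs), Matrix.mul_nonsing_inv _ hqu, Phi_one]
  have e1 : (SS (act (Phi g) q))⁻¹ * γ * SS (act (Phi g) q) =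
      rot kᵀ * Phi ((sec q)⁻¹ * orb_dz z * sec q) * rot k := by
    rw [hkk, Matrix.mul_inv_rev, Matrix.mul_inv_rev, hrinv, hginv, hqinv, h,
      Phi_mul (orb_GLo_mul (orb_GLo_inv hqs) (orb_dz_mem hz)) hqs, Phi_mul (orb_GLo_inv hqs) (orb_dz_mem hz),
      Phi_mul (orb_GLo_mul hg (orb_dz_mem hz)) (orb_GLo_inv hg), Phi_mul hg (orb_dz_mem hz), SS]
    have c1 : Phi g⁻¹ * Phi g = 1 := by
      rw [← Phi_mul (orb_GLo_inv hg) hg, Matrix.nonsing_inv_mul g hu, Phi_one]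
    calc rot kᵀ * (Phi (sec q)⁻¹ * Phi g⁻¹) * (Phi g * Phi (orb_dz z) * Phi g⁻¹) *
          (Phi g * Phi (sec q) * rot k)
        = rot kᵀ * Phi (sec q)⁻¹ * (Phi g⁻¹ * Phi g) * Phi (orb_dz z) * (Phi g⁻¹ * Phi g) *
          Phi (sec q) * rot k := by simp only [Matrix.mul_assoc]
      _ = rot kᵀ * (Phi (sec q)⁻¹ * Phi (orb_dz z) * Phi (sec q)) * rot k := by
          rw [c1]; simp only [Matrix.mul_assoc, Matrix.mul_one]
  have e2 : ∀ M : Mat 3, (rot kᵀ * M * rot k) 0 0 = M 0 0 := by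
    intro M
    rw [orb_mul_rot_col]
    simp [Matrix.mul_apply, rot, Fin.sum_univ_succ]
  have hq2 : (q.2 : ℂ) ≠ 0 := by
    have : 0 < q.2 := hq
    exact_mod_cast this.ne'
  have e3 : (sec q)⁻¹ * orb_dz z * sec q = !![z, (z - 1) * q.1 / q.2; 0, 1] := by
    have : orb_dz z * sec q = sec q * !![z, (z - 1) * q.1 / q.2; 0, 1] := by
      ext i j; fin_cases i <;> fin_cases j <;>
        simp [orb_dz, sec, Matrix.mul_apply, Fin.sum_univ_two]
      · ring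
      · field_simp
        ring
    rw [Matrix.mul_assoc, this, ← Matrix.mul_assoc, Matrix.nonsing_inv_mul _ hqu, Matrix.one_mul]
  rw [e1, e2, e3, Phi_zero_zero]
  have hq0 : 0 < q.2 := hq
  simp [Matrix.det_fin_two, abs_of_pos hq0]
  field_simp
  ring

theorem orbital {γ : (Mat 3)ˣ} {z : ℂ} (hγ : Lox γ z) :
    ∃ Dγ : Set UH, MeasurableSet Dγ ∧ Dγ ⊆ UHs ∧
      (∀ p ∈ UHs, ∃! n : ℤ, act ((γ ^ n : (Mat 3)ˣ) : Mat 3) p ∈ Dγ) ∧
      ∀ B : ℝ → ℝ, Prof B →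
        IntegrableOn (fun p => B (2 * ((SS p)⁻¹ * (γ : Mat 3) * SS p) 0 0)) Dγ mu ∧
        ∫ p in Dγ, B (2 * ((SS p)⁻¹ * (γ : Mat 3) * SS p) 0 0) ∂mu =
          Real.arcosh (chl (γ : Mat 3)) * (Real.pi / 2) / (chl (γ : Mat 3) - cth (γ : Mat 3)) *
            ∫ v in Set.Ioi (2 * chl (γ : Mat 3)), B v := by
  obtain ⟨hz, g, hg, h⟩ := id hγ
  have hg' : g ∈ GLo := hg
  have h' : (γ : Mat 3) = Phi (g * orb_dz z * g⁻¹) := h
  have hz0 : z ≠ 0 := by
    rintro rfl; simp at hz; linarith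
  have hzp : 0 < ‖z‖ := by linarith
  have hlog : 0 < Real.log ‖z‖ := Real.log_pos hz
  obtain ⟨hchl, hcth, -, -, -⟩ := Lox_chl hγ
  have hgso := Phi_SO hg'
  have himg := act_image_measure hgso (orb_D0_meas z) (orb_D0_sub z)
  refine ⟨act (Phi g) '' orb_D0 z, himg.1, ?_, fun p hp => orb_unique_pow hg' hz h' hp, ?_⟩
  · rintro _ ⟨q, hq, rfl⟩
    exact act_mem hgso.1 (orb_D0_sub z hq)
  intro B hB
  have hch2 : 2 * chl (γ : Mat 3) = (‖z‖ ^ 2 + 1) / ‖z‖ := by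
    rw [hchl, Real.cosh_eq, Real.exp_log hzp, Real.exp_neg, Real.exp_log hzp]
    field_simp
  have hz1 : z - 1 ≠ 0 := by
    intro h0
    have : z = 1 := by linear_combination h0
    rw [this] at hz; simp at hz
  have he : 0 < ‖z - 1‖ ^ 2 / ‖z‖ := by
    have : 0 < ‖z - 1‖ := norm_pos_iff.mpr hz1
    positivity
  have hdiff : ‖z - 1‖ ^ 2 / ‖z‖ = 2 * (chl (γ : Mat 3) - cth (γ : Mat 3)) := by
    rw [mul_sub, hch2, hcth]
    have : ‖z - 1‖ ^ 2 = ‖z‖ ^ 2 - 2 * z.re + 1 := by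
      rw [← Complex.normSq_eq_norm_sq, ← Complex.normSq_eq_norm_sq, Complex.normSq_apply,
        Complex.normSq_apply]
      simp
      ring
    rw [this]
    field_simp
    ring
  have harc : Real.arcosh (chl (γ : Mat 3)) = Real.log ‖z‖ := by
    rw [hchl, Real.arcosh_cosh hlog.le]
  obtain ⟨hi, hv⟩ := orb_int_D0 hz hB (c := (‖z‖ ^ 2 + 1) / ‖z‖) he
  have heq : ∀ q ∈ orb_D0 z, B (2 * ((SS (act (Phi g) q))⁻¹ * (γ : Mat 3) * SS (act (Phi g) q)) 0 0) =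
      B ((‖z‖ ^ 2 + 1) / ‖z‖ + ‖z - 1‖ ^ 2 / ‖z‖ * (‖q.1‖ ^ 2 / q.2 ^ 2)) := by
    intro q hq
    rw [orb_entry hg' hz0 h' (orb_D0_sub z hq)]
  constructor
  · -- integrability
    have hmeas : AEMeasurable (act (Phi g)) (mu.restrict (orb_D0 z)) :=
      ((act_cont hgso.1).mono (orb_D0_sub z)).aemeasurable (orb_D0_meas z)
    have hcontOn : ContinuousOn (fun p => B (2 * ((SS p)⁻¹ * (γ : Mat 3) * SS p) 0 0)) UHs := by
      have h1 : ContinuousOn SS UHs := SS_smooth.continuousOn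
      have h2 : ContinuousOn (fun p => (SS p)⁻¹) UHs := by
        have h3 : ContinuousOn (fun p => eta 3 * (SS p)ᵀ * eta 3) UHs := by
          have : Continuous fun M : Mat 3 => eta 3 * Mᵀ * eta 3 := by fun_prop
          exact this.comp_continuousOn h1
        refine h3.congr (fun p hp => ?_)
        exact (Frames_inv (SS_SO hp).1).2.1
      have h4 : ContinuousOn (fun p => ((SS p)⁻¹ * (γ : Mat 3) * SS p)) UHs :=
        (h2.mul continuousOn_const).mul h1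
      have h5 : Continuous fun M : Mat 3 => M 0 0 := by fun_prop
      exact hB.cont.comp_continuousOn (continuousOn_const.mul (h5.comp_continuousOn h4))
    have hsub : act (Phi g) '' orb_D0 z ⊆ UHs := by
      rintro _ ⟨q, hq, rfl⟩
      exact act_mem hgso.1 (orb_D0_sub z hq)
    have hae : AEStronglyMeasurable (fun p => B (2 * ((SS p)⁻¹ * (γ : Mat 3) * SS p) 0 0))
        (mu.restrict (act (Phi g) '' orb_D0 z)) :=
      (hcontOn.mono hsub).aestronglyMeasurable himg.1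
    rw [IntegrableOn]
    rw [← orb_map_act hgso (orb_D0_meas z) (orb_D0_sub z)] at hae ⊢
    rw [integrable_map_measure hae hmeas]
    exact (hi.congr_fun (fun q hq => (heq q hq).symm) (orb_D0_meas z))
  · rw [act_integral hgso _ (orb_D0_meas z) (orb_D0_sub z), setIntegral_congr_fun (orb_D0_meas z) heq, hv,
      hch2, harc, hdiff]
    congr 1
    field_simp


/-- The centraliser of a loxodromic element has a relatively compact set of representatives: a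
fundamental domain of `⟨γ⟩` meets the set of bounded displacement in a relatively compact set. -/
theorem orbital_cpt {γ : (Mat 3)ˣ} {z : ℂ} (hγ : Lox γ z) :
    ∃ Dγ : Set UH, Dγ ⊆ UHs ∧
      (∀ p ∈ UHs, ∃! n : ℤ, act ((γ ^ n : (Mat 3)ˣ) : Mat 3) p ∈ Dγ) ∧
      ∀ c : ℝ, ∃ K : Set UH, IsCompact K ∧ K ⊆ UHs ∧
        ∀ p ∈ Dγ, ((SS p)⁻¹ * (γ : Mat 3) * SS p) 0 0 ≤ c → p ∈ K := by
  obtain ⟨hz, g, hg, h⟩ := id hγ
  have hg' : g ∈ GLo := hg
  have h' : (γ : Mat 3) = Phi (g * orb_dz z * g⁻¹) := h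
  have hz0 : z ≠ 0 := by
    rintro rfl; simp at hz; linarith
  have hzp : 0 < ‖z‖ := by linarith
  have hgso := Phi_SO hg'
  have hz1 : z - 1 ≠ 0 := by
    intro h0
    have : z = 1 := by linear_combination h0
    rw [this] at hz; simp at hz
  have hz1' : 0 < ‖z - 1‖ := norm_pos_iff.mpr hz1
  refine ⟨act (Phi g) '' orb_D0 z, ?_, fun p hp => orb_unique_pow hg' hz h' hp, ?_⟩
  · rintro _ ⟨q, hq, rfl⟩
    exact act_mem hgso.1 (orb_D0_sub z hq)
  intro c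
  set W : ℝ := 2 * |c| * ‖z‖ / ‖z - 1‖ ^ 2 with hW
  have hW0 : 0 ≤ W := by positivity
  set t0 : ℝ := (Real.sqrt (1 + W))⁻¹ with ht0
  have ht0p : 0 < t0 := by positivity
  set K0 : Set UH := Metric.closedBall (0 : ℂ) ‖z‖ ×ˢ Set.Icc t0 ‖z‖ with hK0
  have hK0c : IsCompact K0 := (isCompact_closedBall _ _).prod isCompact_Icc
  have hK0s : K0 ⊆ UHs := fun p hp => lt_of_lt_of_le ht0p hp.2.1
  refine ⟨act (Phi g) '' K0, hK0c.image_of_continuousOn ((act_cont hgso.1).mono hK0s), ?_, ?_⟩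
  · rintro _ ⟨q, hq, rfl⟩
    exact act_mem hgso.1 (hK0s hq)
  rintro _ ⟨q, hq, rfl⟩ hc
  refine ⟨q, ?_, rfl⟩
  have hent := orb_entry hg' hz0 h' (orb_D0_sub z hq)
  obtain ⟨hq2, h1, h2⟩ := hq
  have e1 : ‖z - 1‖ ^ 2 / ‖z‖ * (‖q.1‖ ^ 2 / q.2 ^ 2) ≤ 2 * |c| := by
    have : 0 ≤ (‖z‖ ^ 2 + 1) / ‖z‖ := by positivity
    have := le_abs_self c
    linarith
  have e2 : ‖q.1‖ ^ 2 ≤ W * q.2 ^ 2 := by
    have h3 : ‖q.1‖ ^ 2 / q.2 ^ 2 ≤ W := by
      rw [hW, le_div_iff₀ (by positivity)]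
      rw [div_mul_eq_mul_div, div_le_iff₀ hzp] at e1
      linarith
    rwa [div_le_iff₀ (by positivity)] at h3
  have h5 : q.2 ^ 2 ≤ ‖z‖ ^ 2 := by
    have := sq_nonneg ‖q.1‖
    linarith
  refine ⟨?_, ?_, ?_⟩
  · rw [mem_closedBall_zero_iff]
    exact le_of_lt (lt_of_pow_lt_pow_left₀ 2 hzp.le (by
      have := pow_pos hq2 2
      linarith))
  · rw [ht0, inv_le_iff_one_le_mul₀ (by positivity)]
    have h3 : 1 ≤ (q.2 * Real.sqrt (1 + W)) ^ 2 := by
      rw [mul_pow, Real.sq_sqrt (by positivity)]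
      linarith
    have h4 : 0 < q.2 * Real.sqrt (1 + W) := by positivity
    nlinarith
  · exact le_of_sq_le_sq h5 hzp.le

end

end Pool.Agent.Work.MP_14c213_gt
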