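import Pool.Agent.Work.MP_14c213_gt.A.Green
import Pool.Agent.Work.MP_14c213_gt.A.FinMul
import Pool.Agent.Work.MP_14c213_gt.A.V1

/-!
Norm bounds for P and its adjoint on eigenspaces: P = Cas - ck - 2∑ρ_i E_i - ∑ρ_i², and
∑‖E_i F‖² ≤ (|λ| + C)‖F‖² by energy.
-/

namespace Pool.Agent.Work.MP_14c213_gt

open Matrix MeasureTheory
open scoped Matrix ContDiff Matrix.Norms.Elementwise

noncomputable section

namespace PBd

variable {k : ℕ}

/-- the squared norm. -/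
def nn (v : Ix k → ℂ) : ℝ := ∑ I, ‖v I‖ ^ 2

theorem nn_nonneg (v : Ix k → ℂ) : 0 ≤ nn v := Finset.sum_nonneg fun I _ => by positivity

theorem nn_smul (c : ℂ) (v : Ix k → ℂ) : nn (c • v) = ‖c‖ ^ 2 * nn v := by
  unfold nn
  rw [Finset.mul_sum]
  refine Finset.sum_congr rfl fun I _ => ?_
  rw [Pi.smul_apply, smul_eq_mul, norm_mul, mul_pow]

/-- the squared Hilbert-Schmidt norm. -/
def mm (M : Matrix (Ix k) (Ix k) ℂ) : ℝ := ∑ I, ∑ L, ‖M I L‖ ^ 2

theorem mm_nonneg (M : Matrix (Ix k) (Ix k) ℂ) : 0 ≤ mm M :=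
  Finset.sum_nonneg fun _ _ => Finset.sum_nonneg fun _ _ => sq_nonneg _

/-- bound for a matrix. -/
theorem nn_mulVec (M : Matrix (Ix k) (Ix k) ℂ) (v : Ix k → ℂ) :
    nn (M *ᵥ v) ≤ mm M * nn v := by
  unfold nn mm
  rw [Finset.sum_mul]
  refine Finset.sum_le_sum fun I _ => ?_
  have h1 : ‖(M *ᵥ v) I‖ ≤ ∑ L, ‖M I L‖ * ‖v L‖ := by
    rw [mulVec, dotProduct]
    refine (norm_sum_le _ _).trans (le_of_eq (Finset.sum_congr rfl fun L _ => norm_mul _ _))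
  have h2 := Finset.sum_mul_sq_le_sq_mul_sq Finset.univ (fun L => ‖M I L‖) (fun L => ‖v L‖)
  calc ‖(M *ᵥ v) I‖ ^ 2 ≤ (∑ L, ‖M I L‖ * ‖v L‖) ^ 2 := by gcongr
    _ ≤ _ := h2

theorem nn_dot (v w : Ix k → ℂ) : -(star v ⬝ᵥ w).re ≤ (nn v + nn w) / 2 := by
  unfold nn
  rw [dotProduct, Complex.re_sum, ← Finset.sum_neg_distrib, ← Finset.sum_add_distrib,
    Finset.sum_div]
  refine Finset.sum_le_sum fun I _ => ?_
  have h1 : -(star v I * w I).re ≤ ‖v I‖ * ‖w I‖ := by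
    refine (neg_le_abs _).trans ((Complex.abs_re_le_norm _).trans (le_of_eq ?_))
    rw [norm_mul, Pi.star_apply, norm_star]
  refine h1.trans ?_
  nlinarith [sq_nonneg (‖v I‖ - ‖w I‖)]

theorem nn_five (a b : Ix k → ℂ) (d : Fin 3 → Ix k → ℂ) :
    nn (a - b - ∑ i, d i) ≤ 5 * (nn a + nn b + ∑ i, nn (d i)) := by
  unfold nn
  rw [Finset.sum_comm, ← Finset.sum_add_distrib, ← Finset.sum_add_distrib, Finset.mul_sum]
  refine Finset.sum_le_sum fun I _ => ?_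
  have h1 : ‖(a - b - ∑ i, d i) I‖ ≤ ‖a I‖ + ‖b I‖ + (‖d 0 I‖ + ‖d 1 I‖ + ‖d 2 I‖) := by
    rw [Pi.sub_apply, Pi.sub_apply, Finset.sum_apply, Fin.sum_univ_three]
    refine (norm_sub_le _ _).trans (add_le_add (norm_sub_le _ _) ?_)
    exact (norm_add_le _ _).trans (add_le_add_left (norm_add_le _ _) _)
  have h2 : ‖(a - b - ∑ i, d i) I‖ ^ 2 ≤
      (‖a I‖ + ‖b I‖ + (‖d 0 I‖ + ‖d 1 I‖ + ‖d 2 I‖)) ^ 2 := by gcongr
  refine h2.trans ?_
  rw [Fin.sum_univ_three]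
  nlinarith [sq_nonneg (‖a I‖ - ‖b I‖), sq_nonneg (‖a I‖ - ‖d 0 I‖), sq_nonneg (‖a I‖ - ‖d 1 I‖),
    sq_nonneg (‖a I‖ - ‖d 2 I‖), sq_nonneg (‖b I‖ - ‖d 0 I‖), sq_nonneg (‖b I‖ - ‖d 1 I‖),
    sq_nonneg (‖b I‖ - ‖d 2 I‖), sq_nonneg (‖d 0 I‖ - ‖d 1 I‖), sq_nonneg (‖d 0 I‖ - ‖d 2 I‖),
    sq_nonneg (‖d 1 I‖ - ‖d 2 I‖)]

variable {Γ : Subgroup (Mat 3)ˣ} {D : Set UH}

theorem ip_re (D : Set UH) (F : M2 → Ix k → ℂ) :
    (ip k D F F).re = ∫ p in D, nn (F (sec p)) ∂mu := by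
  rw [GR.ip_self, Complex.ofReal_re]
  rfl

theorem nn_int (hD : FD Γ D) {F : M2 → Ix k → ℂ} (hF : ContinuousOn F GLo) :
    IntegrableOn (fun p => nn (F (sec p))) D mu := by
  refine (GR.ip_int hD hF hF).re.congr (Filter.Eventually.of_forall fun p => ?_)
  simp only
  rw [GR.dot_self]
  rfl

theorem ip_le (hD : FD Γ D) {G F : M2 → Ix k → ℂ} {H : Fin 3 → M2 → Ix k → ℂ} {a b : ℝ}
    (hG : ContinuousOn G GLo) (hF : ContinuousOn F GLo) (hH : ∀ i, ContinuousOn (H i) GLo)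
    (h : ∀ g ∈ GLo, nn (G g) ≤ a * nn (F g) + b * ∑ i, nn (H i g)) :
    (ip k D G G).re ≤ a * (ip k D F F).re + b * ∑ i, (ip k D (H i) (H i)).re := by
  simp only [ip_re]
  have h1 := nn_int hD hF
  have h2 : ∀ i, IntegrableOn (fun p => nn (H i (sec p))) D mu := fun i => nn_int hD (hH i)
  have h3 : IntegrableOn (fun p => ∑ i, nn (H i (sec p))) D mu :=
    integrable_finsetSum _ fun i _ => h2 i
  rw [← integral_finsetSum _ fun i _ => h2 i, ← integral_const_mul, ← integral_const_mul,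
    ← integral_add (h1.const_mul a) (h3.const_mul b)]
  refine setIntegral_mono_on (nn_int hD hG) ((h1.const_mul a).add (h3.const_mul b)) hD.meas
    fun p hp => h _ (sec_mem (hD.sub hp))

theorem key (h : Klein Γ) (hD : FD Γ D) (k : ℕ) : ∃ C : ℝ, ∀ c : ℝ, c * c = 1 → ∀ (lam : ℝ),
    ∀ F ∈ EL k Γ lam, (ip k D (linP c k F.1) (linP c k F.1)).re ≤
      C * (1 + |lam|) ^ 2 * (ip k D F.1 F.1).re := by
  obtain ⟨M, hM⟩ : ∃ M : Matrix (Ix k) (Ix k) ℂ, M = ck k + ∑ i, drho k (bY i) * drho k (bY i) :=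
    ⟨_, rfl⟩
  obtain ⟨K1, hK1⟩ : ∃ K1 : ℝ, K1 = mm M := ⟨_, rfl⟩
  obtain ⟨K2, hK2⟩ : ∃ K2 : ℝ, K2 = 4 * ∑ i, mm (drho k (bY i)) := ⟨_, rfl⟩
  obtain ⟨K3, hK3⟩ : ∃ K3 : ℝ, K3 = (1 + mm (ck k)) / 2 := ⟨_, rfl⟩
  have h1n : 0 ≤ K1 := by rw [hK1]; exact mm_nonneg _
  have h2n : 0 ≤ K2 := by
    rw [hK2]
    exact mul_nonneg (by norm_num) (Finset.sum_nonneg fun i _ => mm_nonneg _)
  have h3n : 0 ≤ K3 := by
    rw [hK3]
    have := mm_nonneg (ck k)
    linarith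
  refine ⟨5 * (1 + K1 + K2 + K2 * K3), fun c hc lam F hF => ?_⟩
  have hFs : ContDiffOn ℝ ∞ F.1 GLo := F.2.2.1
  unfold EL at hF
  rw [Module.End.mem_eigenspace_iff] at hF
  have hCas : ∀ g, Cas F.1 g = (lam : ℂ) • F.1 g := fun g =>
    congrFun (congrArg Subtype.val hF) g
  -- energy
  have hE : ∑ i, (ip k D (E (eX i) F.1) (E (eX i) F.1)).re ≤ (|lam| + K3) * (ip k D F.1 F.1).re := by
    have h1 := congrArg Complex.re (energy h hD F)
    rw [Complex.re_sum] at h1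
    rw [h1]
    have h2 : (ip k D F.1 fun g => Cas F.1 g - ck k *ᵥ F.1 g).re =
        ∫ p in D, (star (F.1 (sec p)) ⬝ᵥ (Cas F.1 (sec p) - ck k *ᵥ F.1 (sec p))).re ∂mu := by
      have := GR.ip_int hD (F := F.1) (G := fun g => Cas F.1 g - ck k *ᵥ F.1 g)
        hFs.continuousOn ((Cas_smooth hFs).continuousOn.sub (SM.mulVec_smooth hFs _).continuousOn)
      exact (integral_re this).symm
    rw [h2, ip_re, ← integral_const_mul]
    have hint := (GR.ip_int hD (F := F.1) (G := fun g => Cas F.1 g - ck k *ᵥ F.1 g)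
        hFs.continuousOn ((Cas_smooth hFs).continuousOn.sub
          (SM.mulVec_smooth hFs _).continuousOn)).re
    refine setIntegral_mono_on hint ((nn_int hD hFs.continuousOn).const_mul _) hD.meas
      fun p _ => ?_
    rw [dotProduct_sub, hCas, dotProduct_smul, GR.dot_self, Complex.sub_re, smul_eq_mul,
      ← Complex.ofReal_mul, Complex.ofReal_re]
    have h3 := nn_dot (F.1 (sec p)) (ck k *ᵥ F.1 (sec p))
    have h4 := nn_mulVec (ck k) (F.1 (sec p))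
    have h5 : lam * nn (F.1 (sec p)) ≤ |lam| * nn (F.1 (sec p)) :=
      mul_le_mul_of_nonneg_right (le_abs_self lam) (nn_nonneg _)
    have h6 : (nn (F.1 (sec p)) + nn (ck k *ᵥ F.1 (sec p))) / 2 ≤ K3 * nn (F.1 (sec p)) := by
      rw [hK3]
      linarith
    show lam * nn (F.1 (sec p)) - _ ≤ _
    linarith
  have hP := ip_le hD (G := linP c k F.1) (F := F.1) (H := fun i => E (eX i) F.1)
    (a := 5 * (lam ^ 2 + K1)) (b := 5 * K2) (by
      have : ContDiffOn ℝ ∞ (linP c k F.1) GLo := by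
        unfold linP
        refine ContDiffOn.neg (ContDiffOn.sum fun i _ => ?_)
        exact linOp_smooth _ _ _ (linOp_smooth _ _ _ hFs)
      exact this.continuousOn) hFs.continuousOn (fun i => (E_smooth hFs _).continuousOn) (by
    intro g hg
    have e1 : linP c k F.1 g = (lam : ℂ) • F.1 g - M *ᵥ F.1 g -
        ∑ i, ((2 * c : ℝ) : ℂ) • (drho k (bY i) *ᵥ E (eX i) F.1 g) := by
      have h1 := Cas_eq F.2 hg
      rw [hCas g] at h1
      have h2 : ∑ i, E (eX i) (E (eX i) F.1) g = ck k *ᵥ F.1 g - (lam : ℂ) • F.1 g := by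
        rw [h1]
        abel
      have h3 : ∀ v : Ix k → ℂ, ((2 * c : ℝ) : ℂ) • v = (2 * c) • v :=
        fun v => Complex.coe_smul _ _
      rw [V1.linP_expand c hFs hg, h2, hc, one_smul, hM, Matrix.add_mulVec, Matrix.sum_mulVec,
        ← Finset.smul_sum, h3]
      simp only [mulVec_mulVec]
      abel
    rw [e1]
    refine (nn_five _ _ _).trans ?_
    have h1 : nn ((lam : ℂ) • F.1 g) = lam ^ 2 * nn (F.1 g) := by
      rw [nn_smul, Complex.norm_real, Real.norm_eq_abs, sq_abs]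
    have h2 := nn_mulVec M (F.1 g)
    rw [← hK1] at h2
    have h3 : ∑ i, nn (((2 * c : ℝ) : ℂ) • (drho k (bY i) *ᵥ E (eX i) F.1 g)) ≤
        K2 * ∑ i, nn (E (eX i) F.1 g) := by
      rw [Finset.mul_sum]
      refine Finset.sum_le_sum fun i _ => ?_
      rw [nn_smul, Complex.norm_real, Real.norm_eq_abs, sq_abs]
      have h4 := nn_mulVec (drho k (bY i)) (E (eX i) F.1 g)
      have h5 : mm (drho k (bY i)) ≤ ∑ i, mm (drho k (bY i)) :=
        Finset.single_le_sum (f := fun i => mm (drho k (bY i)))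
          (fun j _ => mm_nonneg _) (Finset.mem_univ i)
      have h6 := mul_le_mul_of_nonneg_right h5 (nn_nonneg (E (eX i) F.1 g))
      have h7 : (2 * c) ^ 2 = 4 := by
        rw [mul_pow, sq c, hc]
        norm_num
      rw [h7, hK2]
      linarith
    rw [h1]
    linarith)
  have hN : 0 ≤ (ip k D F.1 F.1).re := (ip_nonneg h hD hFs.continuousOn).1
  have hl : 0 ≤ |lam| := abs_nonneg lam
  have e2 : lam ^ 2 = |lam| ^ 2 := (sq_abs lam).symm
  calc (ip k D (linP c k F.1) (linP c k F.1)).re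
      ≤ 5 * (lam ^ 2 + K1) * (ip k D F.1 F.1).re +
        5 * K2 * ∑ i, (ip k D (E (eX i) F.1) (E (eX i) F.1)).re := hP
    _ ≤ 5 * (lam ^ 2 + K1) * (ip k D F.1 F.1).re +
        5 * K2 * ((|lam| + K3) * (ip k D F.1 F.1).re) := by gcongr
    _ = 5 * (|lam| ^ 2 + K1 + K2 * (|lam| + K3)) * (ip k D F.1 F.1).re := by
        rw [e2]
        ring
    _ ≤ 5 * (1 + K1 + K2 + K2 * K3) * (1 + |lam|) ^ 2 * (ip k D F.1 F.1).re := by
        refine mul_le_mul_of_nonneg_right ?_ hN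
        have a1 : |lam| ^ 2 ≤ (1 + |lam|) ^ 2 := by nlinarith
        have a2 : 1 ≤ (1 + |lam|) ^ 2 := by nlinarith
        have a3 : |lam| ≤ (1 + |lam|) ^ 2 := by nlinarith
        have b1 : K1 * 1 ≤ K1 * (1 + |lam|) ^ 2 := mul_le_mul_of_nonneg_left a2 h1n
        have b2 : K2 * |lam| ≤ K2 * (1 + |lam|) ^ 2 := mul_le_mul_of_nonneg_left a3 h2n
        have b3 : K2 * K3 * 1 ≤ K2 * K3 * (1 + |lam|) ^ 2 :=
          mul_le_mul_of_nonneg_left a2 (mul_nonneg h2n h3n)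
        nlinarith

end PBd

theorem P_bound {k : ℕ} {Γ : Subgroup (Mat 3)ˣ} {D : Set UH} (h : Klein Γ) (hD : FD Γ D) :
    ∃ C : ℝ, ∀ (lam : ℝ), ∀ F ∈ EL k Γ lam,
      (ip k D (PL k Γ F).1 (PL k Γ F).1).re ≤ C * (1 + |lam|) ^ 2 * (ip k D F.1 F.1).re ∧
      (ip k D (PSL k Γ F).1 (PSL k Γ F).1).re ≤ C * (1 + |lam|) ^ 2 * (ip k D F.1 F.1).re := by
  obtain ⟨C, hC⟩ := PBd.key h hD k
  refine ⟨C, fun lam F hF => ⟨?_, ?_⟩⟩
  · have := hC 1 (by norm_num) lam F hF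
    rw [← lin_PopP] at this
    exact this
  · have := hC (-1) (by norm_num) lam F hF
    rw [← lin_PopSP] at this
    exact this

end

end Pool.Agent.Work.MP_14c213_gt
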