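import Pool.Agent.Work.MP_14c213_gt.A.Pull
import Pool.Agent.Work.MP_14c213_gt.A.RepM
import Pool.Agent.Work.MP_14c213_gt.A.LoxM
import Pool.Agent.Work.MP_14c213_gt.A.FormKit

/-!
Hodge star. For a p-form F define (3-p)-form (⋆F) g I = det g · ∑ over the complement with sign
(explicitly: p = 1: (⋆F) g (i,j) = det g ∑_l ε_{ijl} F g l; p = 0: (⋆F) g (i,j,l) = det g ε_{ijl} F g).
⋆ is a linear bijection between forms, commutes with Γ (det γ = 1), O(3)-equivariant because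
ε(k,k,k) = det k ε, and ⋆ hodge = hodge ⋆ (d⋆ = ±⋆δ, index computation in dimension 3).
-/

namespace Pool.Agent.Work.MP_14c213_gt

open Matrix MeasureTheory
open scoped Matrix ContDiff Matrix.Norms.Elementwise

noncomputable section

/-- Levi-Civita symbol -/
private def Slc (i j k : Fin 3) : ℤ :=
  if j = i + 1 ∧ k = i + 2 then 1 else if j = i + 2 ∧ k = i + 1 then -1 else 0

private def SextC {p : ℕ} {ι : Type} (c : (Fin p → Fin 3) → ι → ℤ) :
    (Fin (p + 1) → Fin 3) → (Fin 3 × ι) → ℤ :=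
  fun I m => ∑ a : Fin (p + 1), (-1) ^ (a : ℕ) * (if I a = m.1 then c (I ∘ a.succAbove) m.2 else 0)

private def ScoC {p : ℕ} {ι : Type} (c : (Fin (p + 1) → Fin 3) → ι → ℤ) :
    (Fin p → Fin 3) → (Fin 3 × ι) → ℤ :=
  fun I m => -c (Fin.cons m.1 I) m.2

private def SRep {p : ℕ} {ι : Type} [Fintype ι] (H : M2 → (Fin p → Fin 3) → ℂ)
    (c : (Fin p → Fin 3) → ι → ℤ) (f : ι → M2 → ℂ) : Prop :=
  ∀ x ∈ GLo, ∀ I, H x I = ∑ m, (c I m : ℂ) * f m x

private theorem Srep_smooth {p : ℕ} {ι : Type} [Fintype ι] {H : M2 → (Fin p → Fin 3) → ℂ}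
    {c : (Fin p → Fin 3) → ι → ℤ} {f : ι → M2 → ℂ} (h : SRep H c f)
    (hf : ∀ i, ContDiffOn ℝ ∞ (f i) GLo) : ContDiffOn ℝ ∞ H GLo := by
  rw [contDiffOn_pi]
  intro I
  exact (smooth_lin hf (fun m => (c I m : ℂ))).congr (fun x hx => h x hx I)

private theorem Srep_E {p : ℕ} {ι : Type} [Fintype ι] {H : M2 → (Fin p → Fin 3) → ℂ}
    {c : (Fin p → Fin 3) → ι → ℤ} {f : ι → M2 → ℂ} (h : SRep H c f)
    (hf : ∀ i, ContDiffOn ℝ ∞ (f i) GLo) (X : M2) {g : M2} (hg : g ∈ GLo) (I : Fin p → Fin 3) :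
    E X H g I = ∑ m, (c I m : ℂ) * E X (f m) g := by
  rw [E_compn (Srep_smooth h hf) _ _ hg, ← E_lin hf _ _ hg]
  exact E_congr (fun x hx => h x hx I) _ hg

private theorem Srep_ext {p : ℕ} {ι : Type} [Fintype ι] {H : M2 → (Fin p → Fin 3) → ℂ}
    {c : (Fin p → Fin 3) → ι → ℤ} {f : ι → M2 → ℂ} (h : SRep H c f)
    (hf : ∀ i, ContDiffOn ℝ ∞ (f i) GLo) :
    SRep (extE H) (SextC c) (fun m => E (eX m.1) (f m.2)) := by
  intro x hx I
  simp only [extE, SextC]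
  simp only [Srep_E h hf _ hx]
  rw [Fintype.sum_prod_type]
  push_cast
  simp only [Finset.sum_mul, Finset.mul_sum]
  rw [Finset.sum_comm]
  have h1 : ∀ a : Fin (p + 1), ∑ b : Fin 3, ∑ m : ι,
      (-1 : ℂ) ^ (a : ℕ) * (if I a = b then (c (I ∘ a.succAbove) m : ℂ) else 0) *
        E (eX b) (f m) x = ∑ m : ι, (-1 : ℂ) ^ (a : ℕ) * ((c (I ∘ a.succAbove) m : ℂ) *
          E (eX (I a)) (f m) x) := by
    intro a
    rw [Finset.sum_eq_single (I a)]
    · refine Finset.sum_congr rfl fun m _ => ?_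
      rw [if_pos rfl]
      ring
    · intro b _ hb
      refine Finset.sum_eq_zero fun m _ => ?_
      rw [if_neg (Ne.symm hb)]
      ring
    · intro hh
      exact absurd (Finset.mem_univ _) hh
  calc ∑ m : ι, ∑ a : Fin (p + 1), (-1 : ℂ) ^ (a : ℕ) * ((c (I ∘ a.succAbove) m : ℂ) *
          E (eX (I a)) (f m) x)
      = ∑ a : Fin (p + 1), ∑ m : ι, (-1 : ℂ) ^ (a : ℕ) * ((c (I ∘ a.succAbove) m : ℂ) *
          E (eX (I a)) (f m) x) := Finset.sum_comm
    _ = ∑ a : Fin (p + 1), ∑ b : Fin 3, ∑ m : ι,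
      (-1 : ℂ) ^ (a : ℕ) * (if I a = b then (c (I ∘ a.succAbove) m : ℂ) else 0) *
        E (eX b) (f m) x := Finset.sum_congr rfl fun a _ => (h1 a).symm
    _ = ∑ b : Fin 3, ∑ a : Fin (p + 1), ∑ m : ι,
      (-1 : ℂ) ^ (a : ℕ) * (if I a = b then (c (I ∘ a.succAbove) m : ℂ) else 0) *
        E (eX b) (f m) x := Finset.sum_comm
    _ = _ := Finset.sum_congr rfl fun b _ => Finset.sum_comm

private theorem Srep_co {p : ℕ} {ι : Type} [Fintype ι] {H : M2 → (Fin (p + 1) → Fin 3) → ℂ}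
    {c : (Fin (p + 1) → Fin 3) → ι → ℤ} {f : ι → M2 → ℂ} (h : SRep H c f)
    (hf : ∀ i, ContDiffOn ℝ ∞ (f i) GLo) :
    SRep (coE H) (ScoC c) (fun m => E (eX m.1) (f m.2)) := by
  intro x hx I
  simp only [coE, ScoC]
  simp only [Srep_E h hf _ hx]
  rw [Fintype.sum_prod_type]
  push_cast
  simp only [neg_mul, Finset.sum_neg_distrib]

private def Sc3 (I : Fin 3 → Fin 3) (_ : Unit) : ℤ := Slc (I 0) (I 1) (I 2)
private def Sc0 (_ : Fin 0 → Fin 3) (_ : Unit) : ℤ := 1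
private def Sc2 (I : Fin 2 → Fin 3) (l : Fin 3) : ℤ := Slc l (I 0) (I 1)
private def Sc1 (I : Fin 1 → Fin 3) (l : Fin 3) : ℤ := if I 0 = l then 1 else 0

private theorem S_id3 : ∀ i j k a b : Fin 3,
    SextC (ScoC Sc3) ![i, j, k] (a, (b, ())) + ScoC (SextC Sc3) ![i, j, k] (a, (b, ())) =
      Slc i j k * ScoC (SextC Sc0) ![] (a, (b, ())) := by
  decide

private theorem S_id2 : ∀ i j a b l : Fin 3,
    SextC (ScoC Sc2) ![i, j] (a, (b, l)) + ScoC (SextC Sc2) ![i, j] (a, (b, l)) =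
      ∑ m, Slc m i j * (SextC (ScoC Sc1) ![m] (a, (b, l)) + ScoC (SextC Sc1) ![m] (a, (b, l))) := by
  decide

private theorem S_sum3 {β : Type*} [AddCommMonoid β] (f : (Fin 3 → Fin 3) → β) :
    ∑ M, f M = ∑ a, ∑ b, ∑ c, f ![a, b, c] := by
  let e : (Fin 3 → Fin 3) ≃ Fin 3 × Fin 3 × Fin 3 :=
    { toFun := fun M => (M 0, M 1, M 2)
      invFun := fun t => ![t.1, t.2.1, t.2.2]
      left_inv := fun M => by
        funext a
        fin_cases a <;> rfl
      right_inv := fun t => rfl }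
  rw [Fintype.sum_equiv e f (fun t => f ![t.1, t.2.1, t.2.2]) (fun M => by
    congr 1
    exact (e.left_inv M).symm)]
  rw [Fintype.sum_prod_type]
  refine Finset.sum_congr rfl fun a _ => ?_
  rw [Fintype.sum_prod_type]

private theorem S_sum2 {β : Type*} [AddCommMonoid β] (f : (Fin 2 → Fin 3) → β) :
    ∑ M, f M = ∑ a, ∑ b, f ![a, b] := by
  let e : (Fin 2 → Fin 3) ≃ Fin 3 × Fin 3 :=
    { toFun := fun M => (M 0, M 1)
      invFun := fun t => ![t.1, t.2]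
      left_inv := fun M => by
        funext a
        fin_cases a <;> rfl
      right_inv := fun t => rfl }
  rw [Fintype.sum_equiv e f (fun t => f ![t.1, t.2]) (fun M => by
    congr 1
    exact (e.left_inv M).symm)]
  rw [Fintype.sum_prod_type]

private theorem S_sum1 {β : Type*} [AddCommMonoid β] (f : (Fin 1 → Fin 3) → β) :
    ∑ M, f M = ∑ a, f ![a] := by
  let e : (Fin 1 → Fin 3) ≃ Fin 3 :=
    { toFun := fun M => M 0
      invFun := fun t => ![t]
      left_inv := fun M => by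
        funext a
        fin_cases a
        rfl
      right_inv := fun t => rfl }
  exact Fintype.sum_equiv e f (fun t => f ![t]) (fun M => by
    congr 1
    exact (e.left_inv M).symm)

private theorem S_v3 {α : Type*} (I : Fin 3 → α) : I = ![I 0, I 1, I 2] := by
  funext a
  fin_cases a <;> rfl

private theorem S_v2 {α : Type*} (I : Fin 2 → α) : I = ![I 0, I 1] := by
  funext a
  fin_cases a <;> rfl

private theorem S_v1 {α : Type*} (I : Fin 1 → α) : I = ![I 0] := by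
  funext a
  fin_cases a
  rfl

private theorem S_det (M : Matrix (Fin 3) (Fin 3) ℝ) (i j m : Fin 3) :
    ∑ a, ∑ b, ∑ c, M i a * M j b * M m c * (Slc a b c : ℝ) = (Slc i j m : ℝ) * M.det := by
  have h : ∑ a, ∑ b, ∑ c, M i a * M j b * M m c * (Slc a b c : ℝ) =
      M i 0 * M j 1 * M m 2 + M i 1 * M j 2 * M m 0 + M i 2 * M j 0 * M m 1 -
        M i 0 * M j 2 * M m 1 - M i 1 * M j 0 * M m 2 - M i 2 * M j 1 * M m 0 := by
    simp only [Fin.sum_univ_three]
    simp [Slc]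
    ring
  rw [h, Matrix.det_fin_three]
  fin_cases i <;> fin_cases j <;> fin_cases m <;> simp [Slc] <;> ring

private def SB3 : Matrix (Fin 3 → Fin 3) (Fin 0 → Fin 3) ℂ :=
  Matrix.of fun I _ => (Slc (I 0) (I 1) (I 2) : ℂ)
private def SB2 : Matrix (Fin 2 → Fin 3) (Fin 1 → Fin 3) ℂ :=
  Matrix.of fun I L => (Slc (L 0) (I 0) (I 1) : ℂ)

private theorem S_anti3 {v : (Fin 3 → Fin 3) → ℂ}
    (hv : ∀ I (σ : Equiv.Perm (Fin 3)), v (I ∘ σ) = ((Equiv.Perm.sign σ : ℤ) : ℂ) * v I)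
    (i j k : Fin 3) : v ![i, j, k] = (Slc i j k : ℂ) * v ![0, 1, 2] := by
  have h01 : ∀ i j k, v ![j, i, k] = -v ![i, j, k] := by
    intro i j k
    have h := hv ![i, j, k] (Equiv.swap 0 1)
    have e : (![i, j, k] ∘ (Equiv.swap (0 : Fin 3) 1)) = ![j, i, k] := by
      funext a
      fin_cases a <;> rfl
    rw [e, Equiv.Perm.sign_swap (by decide)] at h
    simpa using h
  have h12 : ∀ i j k, v ![i, k, j] = -v ![i, j, k] := by
    intro i j k
    have h := hv ![i, j, k] (Equiv.swap 1 2)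
    have e : (![i, j, k] ∘ (Equiv.swap (1 : Fin 3) 2)) = ![i, k, j] := by
      funext a
      fin_cases a <;> rfl
    rw [e, Equiv.Perm.sign_swap (by decide)] at h
    simpa using h
  have z01 : ∀ i k, v ![i, i, k] = 0 := by
    intro i k
    have h := h01 i i k
    linear_combination (1 / 2 : ℂ) * h
  have z12 : ∀ i k, v ![i, k, k] = 0 := by
    intro i k
    have h := h12 i k k
    linear_combination (1 / 2 : ℂ) * h
  have z02 : ∀ i k, v ![i, k, i] = 0 := by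
    intro i k
    rw [h01 k i i, z12, neg_zero]
  have e1 : v ![1, 0, 2] = -v ![0, 1, 2] := h01 0 1 2
  have e2 : v ![0, 2, 1] = -v ![0, 1, 2] := h12 0 1 2
  have e3 : v ![1, 2, 0] = v ![0, 1, 2] := by rw [h12 1 0 2, e1, neg_neg]
  have e4 : v ![2, 0, 1] = v ![0, 1, 2] := by rw [h01 0 2 1, e2, neg_neg]
  have e5 : v ![2, 1, 0] = -v ![0, 1, 2] := by rw [h01 1 2 0, e3]
  fin_cases i <;> fin_cases j <;> fin_cases k <;>
    simp [Slc, z01, z12, z02, e1, e2, e3, e4, e5]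

private theorem S_anti2 {v : (Fin 2 → Fin 3) → ℂ}
    (hv : ∀ I (σ : Equiv.Perm (Fin 2)), v (I ∘ σ) = ((Equiv.Perm.sign σ : ℤ) : ℂ) * v I)
    (i j : Fin 3) : v ![j, i] = -v ![i, j] := by
  have h := hv ![i, j] (Equiv.swap 0 1)
  have e : (![i, j] ∘ (Equiv.swap (0 : Fin 2) 1)) = ![j, i] := by
    funext a
    fin_cases a <;> rfl
  rw [e, Equiv.Perm.sign_swap (by decide)] at h
  simpa using h

private theorem S_sign3 : ∀ (σ : Equiv.Perm (Fin 3)) (i j k : Fin 3),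
    Slc (![i, j, k] (σ 0)) (![i, j, k] (σ 1)) (![i, j, k] (σ 2)) =
      (Equiv.Perm.sign σ : ℤ) * Slc i j k := by
  decide

private theorem S_sign2 : ∀ (σ : Equiv.Perm (Fin 2)) (i j l : Fin 3),
    Slc l (![i, j] (σ 0)) (![i, j] (σ 1)) = (Equiv.Perm.sign σ : ℤ) * Slc l i j := by
  decide

private theorem S_orth : ∀ l m : Fin 3, ∑ i, ∑ j, Slc l i j * Slc m i j = if l = m then 2 else 0 := by
  decide

private theorem S_contr : ∀ a b i j : Fin 3, ∑ l, Slc l i j * Slc l a b =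
    (if a = i ∧ b = j then 1 else 0) - (if a = j ∧ b = i then 1 else 0) := by
  decide

private theorem S_six : ∑ i, ∑ j, ∑ k, Slc i j k * Slc i j k = 6 := by
  decide

private theorem S_transfer {p q : ℕ} [Subsingleton (Equiv.Perm (Fin p))]
    (B : Matrix (Fin q → Fin 3) (Fin p → Fin 3) ℂ)
    (C : Matrix (Fin p → Fin 3) (Fin q → Fin 3) ℂ) (hCB : C * B = 1)
    (hB : ∀ k ∈ Matrix.orthogonalGroup (Fin 3) ℝ, k.det = 1 → B * tens 3 p kᵀ = tens 3 q kᵀ * B)
    (hC : ∀ k ∈ Matrix.orthogonalGroup (Fin 3) ℝ, k.det = 1 → C * tens 3 q kᵀ = tens 3 p kᵀ * C)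
    (hBC : ∀ v : (Fin q → Fin 3) → ℂ,
      (∀ I (σ : Equiv.Perm (Fin q)), v (I ∘ σ) = ((Equiv.Perm.sign σ : ℤ) : ℂ) * v I) →
        B *ᵥ (C *ᵥ v) = v)
    (hBs : ∀ (v : (Fin p → Fin 3) → ℂ) I (σ : Equiv.Perm (Fin q)),
      (B *ᵥ v) (I ∘ σ) = ((Equiv.Perm.sign σ : ℤ) : ℂ) * (B *ᵥ v) I)
    (hkey : ∀ H : M2 → (Fin p → Fin 3) → ℂ, (∀ g, g ∉ GLo → H g = 0) → ContDiffOn ℝ ∞ H GLo →
      hodgeE q (fun g => B *ᵥ H g) = fun g => B *ᵥ hodgeE p H g)
    (Γ : Subgroup (Mat 3)ˣ) (lam : ℝ) :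
    Module.rank ℂ (Submodule.span ℂ (EigE p Γ lam)) =
      Module.rank ℂ (Submodule.span ℂ (EigE q Γ lam)) := by
  refine rank_span_map ((Matrix.mulVecLin B).compLeft M2) _ _ ?_ ?_ ?_
  · rintro H ⟨hH, -, he⟩
    refine ⟨Sect_map B hB hH, fun g I σ => hBs _ _ _, ?_⟩
    show hodgeE q (fun g => B *ᵥ H g) = (lam : ℂ) • fun g => B *ᵥ H g
    rw [hkey H hH.1 hH.2.1, he]
    funext g
    simp only [Pi.smul_apply]
    rw [Matrix.mulVec_smul]
  · rintro K ⟨hK, ha, he⟩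
    have hH := Sect_map C hC hK
    have e1 : (fun g => B *ᵥ (C *ᵥ K g)) = K := by
      funext g
      exact hBC _ (ha g)
    refine ⟨fun g => C *ᵥ K g, ⟨hH, ?_, ?_⟩, e1⟩
    · intro g I σ
      have h1 : σ = 1 := Subsingleton.elim _ _
      subst h1
      have h2 : I ∘ (1 : Equiv.Perm (Fin p)) = I := rfl
      rw [h2]
      simp
    · have h1 := hkey _ hH.1 hH.2.1
      rw [e1, he] at h1
      funext g
      have h2 := congrFun h1 g
      have h3 : C *ᵥ (B *ᵥ hodgeE p (fun g => C *ᵥ K g) g) = C *ᵥ (((lam : ℂ) • K) g) := by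
        rw [h2]
      rw [Matrix.mulVec_mulVec, hCB, Matrix.one_mulVec] at h3
      rw [h3]
      simp only [Pi.smul_apply]
      rw [Matrix.mulVec_smul]
  · intro H _ h0
    funext g
    have h1 : B *ᵥ H g = 0 := congrFun h0 g
    have h2 : C *ᵥ (B *ᵥ H g) = 0 := by rw [h1, Matrix.mulVec_zero]
    rw [Matrix.mulVec_mulVec, hCB, Matrix.one_mulVec] at h2
    exact h2

private theorem S_tensT (p : ℕ) (k : Matrix (Fin 3) (Fin 3) ℝ) :
    (tens 3 p k)ᵀ = tens 3 p kᵀ := by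
  ext I L
  simp [tens]

private theorem S_inter3 {k : Matrix (Fin 3) (Fin 3) ℝ} (hd : k.det = 1) :
    SB3 * tens 3 0 k = tens 3 3 k * SB3 := by
  ext I L
  have h0 : tens 3 0 k = 1 := by
    ext I L
    have h : I = L := funext fun a => a.elim0
    subst h
    simp [tens]
  rw [h0, Matrix.mul_one, Matrix.mul_apply, S_sum3]
  have h := S_det k (I 0) (I 1) (I 2)
  rw [hd, mul_one] at h
  simp only [SB3, tens, Matrix.of_apply, Fin.prod_univ_three, Matrix.cons_val_zero,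
    Matrix.cons_val_one, Matrix.cons_val]
  have h2 := congrArg (fun x : ℝ => (x : ℂ)) h
  push_cast at h2
  exact h2.symm

private theorem S_inter2 {k : Matrix (Fin 3) (Fin 3) ℝ} (ho : kᵀ * k = 1) (hd : k.det = 1) :
    SB2 * tens 3 1 k = tens 3 2 k * SB2 := by
  have ho' : ∀ l c, ∑ m, k m l * k m c = if l = c then 1 else 0 := by
    intro l c
    have h := congrFun (congrFun ho l) c
    rw [Matrix.mul_apply, Matrix.one_apply] at h
    exact h
  have key : ∀ i j l : Fin 3, ∑ m, (Slc m i j : ℝ) * k m l =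
      ∑ a, ∑ b, k i a * k j b * (Slc l a b : ℝ) := by
    intro i j l
    have h1 : ∀ m, (Slc m i j : ℝ) = ∑ c, ∑ a, ∑ b, k m c * k i a * k j b * (Slc c a b : ℝ) := by
      intro m
      have h := S_det k m i j
      rw [hd, mul_one] at h
      exact h.symm
    calc ∑ m, (Slc m i j : ℝ) * k m l
        = ∑ m, ∑ c, (k m l * k m c) * ∑ a, ∑ b, k i a * k j b * (Slc c a b : ℝ) := by
          refine Finset.sum_congr rfl fun m _ => ?_
          rw [h1 m, Finset.sum_mul]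
          refine Finset.sum_congr rfl fun c _ => ?_
          simp only [Finset.mul_sum, Finset.sum_mul]
          refine Finset.sum_congr rfl fun a _ => Finset.sum_congr rfl fun b _ => ?_
          ring
      _ = ∑ c, ∑ m, (k m l * k m c) * ∑ a, ∑ b, k i a * k j b * (Slc c a b : ℝ) :=
          Finset.sum_comm
      _ = ∑ c, (if l = c then 1 else 0) * ∑ a, ∑ b, k i a * k j b * (Slc c a b : ℝ) := by
          refine Finset.sum_congr rfl fun c _ => ?_
          rw [← Finset.sum_mul, ho']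
      _ = _ := by simp
  ext I L
  rw [Matrix.mul_apply, Matrix.mul_apply, S_sum1, S_sum2]
  have h := key (I 0) (I 1) (L 0)
  simp only [SB2, tens, Matrix.of_apply, Fin.prod_univ_two, Matrix.cons_val_zero,
    Matrix.cons_val_one, Fin.prod_univ_one, Matrix.cons_val_fin_one]
  have h2 := congrArg (fun x : ℝ => (x : ℂ)) h
  push_cast at h2
  exact h2

private theorem S_orth_t {k : Matrix (Fin 3) (Fin 3) ℝ}
    (hk : k ∈ Matrix.orthogonalGroup (Fin 3) ℝ) : kᵀ * k = 1 ∧ k * kᵀ = 1 :=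
  ⟨(Matrix.mem_orthogonalGroup_iff' (Fin 3) ℝ).1 hk, (Matrix.mem_orthogonalGroup_iff (Fin 3) ℝ).1 hk⟩

private theorem S_B3 (v : (Fin 0 → Fin 3) → ℂ) (I : Fin 3 → Fin 3) :
    (SB3 *ᵥ v) I = (Slc (I 0) (I 1) (I 2) : ℂ) * v ![] := by
  rw [Matrix.mulVec, dotProduct, Finset.sum_eq_single (![] : Fin 0 → Fin 3)]
  · rfl
  · intro b _ hb
    exact absurd (funext fun a => a.elim0) hb
  · intro hh
    exact absurd (Finset.mem_univ _) hh

private theorem S_key3 (H : M2 → (Fin 0 → Fin 3) → ℂ) (h0 : ∀ g, g ∉ GLo → H g = 0)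
    (hH : ContDiffOn ℝ ∞ H GLo) :
    hodgeE 3 (fun g => SB3 *ᵥ H g) = fun g => SB3 *ᵥ hodgeE 0 H g := by
  funext g
  by_cases hg : g ∈ GLo
  · let f : Unit → M2 → ℂ := fun _ x => H x ![]
    have hf : ∀ i, ContDiffOn ℝ ∞ (f i) GLo := fun _ => smooth_compn hH _
    have r0 : SRep H Sc0 f := by
      intro x _ I
      have hI : I = ![] := funext fun a => a.elim0
      subst hI
      simp [Sc0, f]
    have rB : ∀ (v : (Fin 0 → Fin 3) → ℂ) (I : Fin 3 → Fin 3),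
        (SB3 *ᵥ v) I = (Slc (I 0) (I 1) (I 2) : ℂ) * v ![] := by
      intro v I
      exact S_B3 v I
    have r3 : SRep (fun g => SB3 *ᵥ H g) Sc3 f := by
      intro x _ I
      simp [Sc3, f, rB]
    have f1 : ∀ m : Fin 3 × Unit, ContDiffOn ℝ ∞ (E (eX m.1) (f m.2)) GLo :=
      fun m => E_smooth (hf m.2) _
    funext I
    show extE (coE (fun g => SB3 *ᵥ H g)) g I + coE (extE (fun g => SB3 *ᵥ H g)) g I = _
    rw [rB, Srep_ext (Srep_co r3 hf) f1 g hg I, Srep_co (Srep_ext r3 hf) f1 g hg I]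
    show _ = _ * coE (extE H) g ![]
    rw [Srep_co (Srep_ext r0 hf) f1 g hg ![], ← Finset.sum_add_distrib, Finset.mul_sum]
    refine Finset.sum_congr rfl fun m _ => ?_
    obtain ⟨a, b, u⟩ := m
    have h := S_id3 (I 0) (I 1) (I 2) a b
    rw [← S_v3 I] at h
    have h2 := congrArg (fun x : ℤ => (x : ℂ)) h
    push_cast at h2
    rw [← add_mul, ← mul_assoc]
    congr 1
  · rw [hodgeE_off 0 h0 hg, Matrix.mulVec_zero]
    exact hodgeE_off 3 (fun g hg => by rw [h0 g hg, Matrix.mulVec_zero]) hg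

private theorem S_key2 (H : M2 → (Fin 1 → Fin 3) → ℂ) (h0 : ∀ g, g ∉ GLo → H g = 0)
    (hH : ContDiffOn ℝ ∞ H GLo) :
    hodgeE 2 (fun g => SB2 *ᵥ H g) = fun g => SB2 *ᵥ hodgeE 1 H g := by
  funext g
  by_cases hg : g ∈ GLo
  · let f : Fin 3 → M2 → ℂ := fun l x => H x ![l]
    have hf : ∀ i, ContDiffOn ℝ ∞ (f i) GLo := fun _ => smooth_compn hH _
    have r1 : SRep H Sc1 f := by
      intro x _ I
      rw [S_v1 I]
      simp [Sc1, f]
    have rB : ∀ (v : (Fin 1 → Fin 3) → ℂ) (I : Fin 2 → Fin 3),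
        (SB2 *ᵥ v) I = ∑ m, (Slc m (I 0) (I 1) : ℂ) * v ![m] := by
      intro v I
      rw [Matrix.mulVec, dotProduct, S_sum1]
      rfl
    have r2 : SRep (fun g => SB2 *ᵥ H g) Sc2 f := by
      intro x _ I
      simp [Sc2, f, rB]
    have f1 : ∀ m : Fin 3 × Fin 3, ContDiffOn ℝ ∞ (E (eX m.1) (f m.2)) GLo :=
      fun m => E_smooth (hf m.2) _
    funext I
    show extE (coE (fun g => SB2 *ᵥ H g)) g I + coE (extE (fun g => SB2 *ᵥ H g)) g I = _
    rw [rB, Srep_ext (Srep_co r2 hf) f1 g hg I, Srep_co (Srep_ext r2 hf) f1 g hg I]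
    have h1 : ∀ m : Fin 3, hodgeE 1 H g ![m] =
        ∑ t : Fin 3 × Fin 3 × Fin 3, ((SextC (ScoC Sc1) ![m] t + ScoC (SextC Sc1) ![m] t : ℤ) : ℂ) *
          E (eX t.1) (E (eX t.2.1) (f t.2.2)) g := by
      intro m
      show extE (coE H) g ![m] + coE (extE H) g ![m] = _
      rw [Srep_ext (Srep_co r1 hf) f1 g hg ![m], Srep_co (Srep_ext r1 hf) f1 g hg ![m],
        ← Finset.sum_add_distrib]
      refine Finset.sum_congr rfl fun t _ => ?_
      push_cast
      ring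
    simp only [h1, Finset.mul_sum]
    rw [Finset.sum_comm, ← Finset.sum_add_distrib]
    refine Finset.sum_congr rfl fun t _ => ?_
    obtain ⟨a, b, l⟩ := t
    have h := S_id2 (I 0) (I 1) a b l
    rw [← S_v2 I] at h
    have h2 := congrArg (fun x : ℤ => (x : ℂ)) h
    push_cast at h2
    rw [← add_mul, h2, Finset.sum_mul]
    refine Finset.sum_congr rfl fun m _ => ?_
    push_cast
    ring
  · rw [hodgeE_off 1 h0 hg, Matrix.mulVec_zero]
    exact hodgeE_off 2 (fun g hg => by rw [h0 g hg, Matrix.mulVec_zero]) hg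

private theorem S_trans {p q : ℕ} {B : Matrix (Fin q → Fin 3) (Fin p → Fin 3) ℂ} {c : ℂ}
    (hB : ∀ k ∈ Matrix.orthogonalGroup (Fin 3) ℝ, k.det = 1 → B * tens 3 p k = tens 3 q k * B)
    (k : Matrix (Fin 3) (Fin 3) ℝ) (hk : k ∈ Matrix.orthogonalGroup (Fin 3) ℝ) (hd : k.det = 1) :
    (c • Bᵀ) * tens 3 q kᵀ = tens 3 p kᵀ * (c • Bᵀ) := by
  have h := congrArg Matrix.transpose (hB k hk hd)
  rw [Matrix.transpose_mul, Matrix.transpose_mul, S_tensT, S_tensT] at h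
  rw [Matrix.smul_mul, Matrix.mul_smul, h]

private theorem S_tmem {k : Matrix (Fin 3) (Fin 3) ℝ}
    (hk : k ∈ Matrix.orthogonalGroup (Fin 3) ℝ) : kᵀ ∈ Matrix.orthogonalGroup (Fin 3) ℝ := by
  rw [Matrix.mem_orthogonalGroup_iff]
  show kᵀ * (kᵀ)ᵀ = 1
  rw [Matrix.transpose_transpose]
  exact (S_orth_t hk).1

theorem star03 {Γ : Subgroup (Mat 3)ˣ} (h : Klein Γ) (lam : ℝ) :
    formMult 3 Γ lam = formMult 0 Γ lam := by
  rw [formMult_pull (fun γ hγ => Klein_SO h hγ), formMult_pull (fun γ hγ => Klein_SO h hγ)]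
  symm
  have rB : ∀ (v : (Fin 0 → Fin 3) → ℂ) (I : Fin 3 → Fin 3),
      (SB3 *ᵥ v) I = (Slc (I 0) (I 1) (I 2) : ℂ) * v ![] := by
    intro v I
    exact S_B3 v I
  have rC : ∀ (v : (Fin 3 → Fin 3) → ℂ) (I : Fin 0 → Fin 3),
      (((6 : ℂ)⁻¹ • SB3ᵀ) *ᵥ v) I = (6 : ℂ)⁻¹ * ∑ a, ∑ b, ∑ c, (Slc a b c : ℂ) * v ![a, b, c] := by
    intro v I
    rw [Matrix.smul_mulVec, Pi.smul_apply, Matrix.mulVec, dotProduct, S_sum3, smul_eq_mul]
    rfl
  have hsix : ∑ i, ∑ j, ∑ k, (Slc i j k : ℂ) * (Slc i j k : ℂ) = 6 := by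
    have h := congrArg (fun x : ℤ => (x : ℂ)) S_six
    push_cast at h
    exact h
  refine S_transfer (p := 0) (q := 3) SB3 ((6 : ℂ)⁻¹ • SB3ᵀ) ?_ ?_ ?_ ?_ ?_ S_key3 Γ lam
  · refine Matrix.ext_of_mulVec_single fun j => ?_
    generalize (Pi.single j 1 : (Fin 0 → Fin 3) → ℂ) = v
    funext I
    rw [← Matrix.mulVec_mulVec, rC, Matrix.one_mulVec]
    have hI : I = ![] := funext fun a => a.elim0
    subst hI
    have h1 : ∑ a, ∑ b, ∑ c, (Slc a b c : ℂ) * (SB3 *ᵥ v) ![a, b, c] = 6 * v ![] := by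
      rw [← hsix]
      simp only [Finset.sum_mul]
      refine Finset.sum_congr rfl fun a _ => Finset.sum_congr rfl fun b _ =>
        Finset.sum_congr rfl fun c _ => ?_
      rw [rB]
      simp only [Matrix.cons_val_zero, Matrix.cons_val_one, Matrix.cons_val]
      ring
    rw [h1]
    ring
  · intro k hk hd
    exact S_inter3 (by rw [Matrix.det_transpose, hd])
  · exact S_trans (fun k hk hd => S_inter3 hd)
  · intro v hv
    funext I
    rw [rB, rC]
    have h1 : ∑ a, ∑ b, ∑ c, (Slc a b c : ℂ) * v ![a, b, c] = 6 * v ![0, 1, 2] := by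
      rw [← hsix]
      simp only [Finset.sum_mul]
      refine Finset.sum_congr rfl fun a _ => Finset.sum_congr rfl fun b _ =>
        Finset.sum_congr rfl fun c _ => ?_
      rw [S_anti3 hv a b c]
      ring
    rw [h1]
    have h2 := S_anti3 hv (I 0) (I 1) (I 2)
    rw [← S_v3 I] at h2
    rw [h2]
    ring
  · intro v I σ
    rw [rB, rB]
    have h1 := S_sign3 σ (I 0) (I 1) (I 2)
    rw [← S_v3 I] at h1
    simp only [Function.comp_apply]
    rw [h1]
    push_cast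
    ring

theorem star12 {Γ : Subgroup (Mat 3)ˣ} (h : Klein Γ) (lam : ℝ) :
    formMult 2 Γ lam = formMult 1 Γ lam := by
  rw [formMult_pull (fun γ hγ => Klein_SO h hγ), formMult_pull (fun γ hγ => Klein_SO h hγ)]
  symm
  have rB : ∀ (v : (Fin 1 → Fin 3) → ℂ) (I : Fin 2 → Fin 3),
      (SB2 *ᵥ v) I = ∑ m, (Slc m (I 0) (I 1) : ℂ) * v ![m] := by
    intro v I
    rw [Matrix.mulVec, dotProduct, S_sum1]
    rfl
  have rC : ∀ (v : (Fin 2 → Fin 3) → ℂ) (I : Fin 1 → Fin 3),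
      (((2 : ℂ)⁻¹ • SB2ᵀ) *ᵥ v) I = (2 : ℂ)⁻¹ * ∑ a, ∑ b, (Slc (I 0) a b : ℂ) * v ![a, b] := by
    intro v I
    rw [Matrix.smul_mulVec, Pi.smul_apply, Matrix.mulVec, dotProduct, S_sum2, smul_eq_mul]
    rfl
  refine S_transfer (p := 1) (q := 2) SB2 ((2 : ℂ)⁻¹ • SB2ᵀ) ?_ ?_ ?_ ?_ ?_ S_key2 Γ lam
  · refine Matrix.ext_of_mulVec_single fun j => ?_
    generalize (Pi.single j 1 : (Fin 1 → Fin 3) → ℂ) = v
    funext I
    rw [← Matrix.mulVec_mulVec, rC, Matrix.one_mulVec]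
    have h1 : ∑ a, ∑ b, (Slc (I 0) a b : ℂ) * (SB2 *ᵥ v) ![a, b] =
        ∑ m, (∑ a, ∑ b, (Slc (I 0) a b : ℂ) * (Slc m a b : ℂ)) * v ![m] := by
      calc ∑ a, ∑ b, (Slc (I 0) a b : ℂ) * (SB2 *ᵥ v) ![a, b]
          = ∑ a, ∑ b, ∑ m, (Slc (I 0) a b : ℂ) * (Slc m a b : ℂ) * v ![m] := by
            refine Finset.sum_congr rfl fun a _ => Finset.sum_congr rfl fun b _ => ?_
            rw [rB, Finset.mul_sum]
            refine Finset.sum_congr rfl fun m _ => ?_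
            simp only [Matrix.cons_val_zero, Matrix.cons_val_one]
            ring
        _ = ∑ a, ∑ m, ∑ b, (Slc (I 0) a b : ℂ) * (Slc m a b : ℂ) * v ![m] :=
            Finset.sum_congr rfl fun a _ => Finset.sum_comm
        _ = ∑ m, ∑ a, ∑ b, (Slc (I 0) a b : ℂ) * (Slc m a b : ℂ) * v ![m] := Finset.sum_comm
        _ = _ := by
            refine Finset.sum_congr rfl fun m _ => ?_
            simp only [Finset.sum_mul]
    have h2 : ∀ m, ∑ a, ∑ b, (Slc (I 0) a b : ℂ) * (Slc m a b : ℂ) =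
        if I 0 = m then 2 else 0 := by
      intro m
      have h := congrArg (fun x : ℤ => (x : ℂ)) (S_orth (I 0) m)
      push_cast at h
      exact h
    rw [h1]
    simp only [h2]
    have h3 : ∑ m, (if I 0 = m then (2 : ℂ) else 0) * v ![m] = 2 * v ![I 0] := by
      simp
    rw [h3, ← S_v1 I]
    ring
  · intro k hk hd
    exact S_inter2 (S_orth_t (S_tmem hk)).1 (by rw [Matrix.det_transpose, hd])
  · exact S_trans (fun k hk hd => S_inter2 (S_orth_t hk).1 hd)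
  · intro v hv
    funext I
    rw [rB]
    simp only [rC]
    simp only [Matrix.cons_val_zero, Matrix.cons_val_fin_one]
    have h1 : ∑ m, (Slc m (I 0) (I 1) : ℂ) * ((2 : ℂ)⁻¹ * ∑ a, ∑ b, (Slc m a b : ℂ) * v ![a, b]) =
        (2 : ℂ)⁻¹ * ∑ a, ∑ b, (∑ m, (Slc m (I 0) (I 1) : ℂ) * (Slc m a b : ℂ)) * v ![a, b] := by
      calc ∑ m, (Slc m (I 0) (I 1) : ℂ) * ((2 : ℂ)⁻¹ * ∑ a, ∑ b, (Slc m a b : ℂ) * v ![a, b])
          = ∑ m, ∑ a, ∑ b, (2 : ℂ)⁻¹ * ((Slc m (I 0) (I 1) : ℂ) * (Slc m a b : ℂ) * v ![a, b]) := by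
            refine Finset.sum_congr rfl fun m _ => ?_
            simp only [Finset.mul_sum]
            refine Finset.sum_congr rfl fun a _ => Finset.sum_congr rfl fun b _ => ?_
            ring
        _ = ∑ a, ∑ m, ∑ b, (2 : ℂ)⁻¹ * ((Slc m (I 0) (I 1) : ℂ) * (Slc m a b : ℂ) * v ![a, b]) :=
            Finset.sum_comm
        _ = ∑ a, ∑ b, ∑ m, (2 : ℂ)⁻¹ * ((Slc m (I 0) (I 1) : ℂ) * (Slc m a b : ℂ) * v ![a, b]) :=
            Finset.sum_congr rfl fun a _ => Finset.sum_comm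
        _ = _ := by
            simp only [Finset.sum_mul, Finset.mul_sum]
    have h2 : ∀ a b, ∑ m, (Slc m (I 0) (I 1) : ℂ) * (Slc m a b : ℂ) =
        (if a = I 0 ∧ b = I 1 then 1 else 0) - (if a = I 1 ∧ b = I 0 then 1 else 0) := by
      intro a b
      have h := congrArg (fun x : ℤ => (x : ℂ)) (S_contr a b (I 0) (I 1))
      push_cast at h
      exact h
    rw [h1]
    simp only [h2, sub_mul, ite_and]
    simp only [Finset.sum_sub_distrib]
    have h3 : ∀ c d : Fin 3, ∑ a, ∑ b, (if a = c then if b = d then (1 : ℂ) else 0 else 0) *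
        v ![a, b] = v ![c, d] := by
      intro c d
      simp
    rw [h3, h3, S_anti2 hv (I 0) (I 1), ← S_v2 I]
    ring
  · intro v I σ
    rw [rB, rB, Finset.mul_sum]
    refine Finset.sum_congr rfl fun m _ => ?_
    have h1 := S_sign2 σ (I 0) (I 1) m
    rw [← S_v2 I] at h1
    simp only [Function.comp_apply]
    rw [h1]
    push_cast
    ring

end

end Pool.Agent.Work.MP_14c213_gt
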