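import Pool.Agent.Work.MP_14c213_gt.A.K1
import Pool.Agent.Work.MP_14c213_gt.A.Form0
import Pool.Agent.Work.MP_14c213_gt.A.Form1
import Pool.Agent.Work.MP_14c213_gt.A.Star
import Pool.Agent.Work.MP_14c213_gt.A.FinMul

/-!
p-isospectrality for all p ≤ 3.
-/

namespace Pool.Agent.Work.MP_14c213_gt

open Matrix MeasureTheory
open scoped Matrix ContDiff Matrix.Norms.Elementwise

noncomputable section

theorem p_isospectral {Γ₁ Γ₂ : Subgroup (Mat 3)ˣ} (h : Pair Γ₁ Γ₂) :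
    ∀ p ≤ 3, PIsospectral p Γ₁ Γ₂ := by
  have h0 : ∀ lam : ℝ, formMult 0 Γ₁ lam = formMult 0 Γ₂ lam := by
    intro lam
    rw [form0 h.k1 lam (EL_fin h.k1 0 lam), form0 h.k2 lam (EL_fin h.k2 0 lam), mult0 h lam]
  have h1 : ∀ lam : ℝ, formMult 1 Γ₁ lam = formMult 1 Γ₂ lam := by
    intro lam
    have e1 := form1 h.k1 lam (EL_fin h.k1 0 lam) (EL_fin h.k1 1 lam)
    have e2 := form1 h.k2 lam (EL_fin h.k2 0 lam) (EL_fin h.k2 1 lam)
    rw [mult0 h lam, mult1 h lam, ← e2] at e1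
    exact Cardinal.eq_of_add_eq_add_right e1 (Cardinal.natCast_lt_aleph0)
  intro p hp lam
  interval_cases p
  · exact h0 lam
  · exact h1 lam
  · rw [star12 h.k1 lam, star12 h.k2 lam, h1 lam]
  · rw [star03 h.k1 lam, star03 h.k2 lam, h0 lam]

end

end Pool.Agent.Work.MP_14c213_gt
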