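import Pool.Agent.Work.MP_14c213_gt.A.PhiCurve
import Pool.Agent.Work.MP_14c213_gt.A.PhiSurj
import Pool.Agent.Work.MP_14c213_gt.A.RotM
import Pool.Agent.Work.MP_14c213_gt.A.Calc

/-!
Functions on frames versus functions on GL₂(ℂ). SmF: smooth functions on Frames 3 extended by 0.
Near A ∈ SO, F = (pull F) ∘ s on SO with the linear local section s (Phi_section), so nabla i F is
smooth on SO and pull (nabla i F) = E (eX i) (pull F) (Phi_bst). The component det = -1 is handled by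
F(· * rot (-1)).
-/

namespace Pool.Agent.Work.MP_14c213_gt

open Matrix MeasureTheory
open scoped Matrix ContDiff Matrix.Norms.Elementwise

noncomputable section

section

variable {J : Type} [Fintype J]

/-- Smooth functions on the frame bundle, extended by zero. -/
def SmF (F : Mat 3 → J → ℂ) : Prop := (∀ g, g ∉ Frames 3 → F g = 0) ∧ ContDiffOn ℝ ∞ F (Frames 3)

/-- Pull back to `GL₂(ℂ)`. -/
def pull (F : Mat 3 → J → ℂ) : M2 → J → ℂ := fun g => if g.det = 0 then 0 else F (Phi g)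

namespace PM

theorem pull_of {F : Mat 3 → J → ℂ} {g : M2} (hg : g ∈ GLo) : pull F g = F (Phi g) := if_neg hg

theorem pull_off {F : Mat 3 → J → ℂ} {g : M2} (hg : g ∉ GLo) : pull F g = 0 :=
  if_pos (not_not.mp hg)

theorem smul_GLo {z : ℂ} (hz : z ≠ 0) {g : M2} (hg : g ∈ GLo) : (z • g) ∈ GLo := by
  show (z • g).det ≠ 0
  rw [det_smul]
  exact mul_ne_zero (pow_ne_zero _ hz) hg

/-- signs as elements of `O(3)` -/
def pull_eps (e : ℝ) : Matrix (Fin 3) (Fin 3) ℝ := e • (1 : Matrix (Fin 3) (Fin 3) ℝ)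

theorem eps_orth {e : ℝ} (he : e * e = 1) : pull_eps e ∈ Matrix.orthogonalGroup (Fin 3) ℝ := by
  rw [Matrix.mem_orthogonalGroup_iff, pull_eps, transpose_smul, transpose_one, smul_mul_smul_comm, he,
    one_mul, one_smul]

theorem eps_mul (e : ℝ) (k : Matrix (Fin 3) (Fin 3) ℝ) : pull_eps e * k = k * pull_eps e := by
  rw [pull_eps, smul_mul_assoc, one_mul, mul_smul_comm, mul_one]

theorem eps_eps {e e' : ℝ} : pull_eps e * pull_eps e' = pull_eps (e * e') := by
  rw [pull_eps, pull_eps, smul_mul_smul_comm, one_mul, pull_eps]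

theorem eps_one : pull_eps 1 = 1 := one_smul _ _

theorem eps_transpose (e : ℝ) : (pull_eps e)ᵀ = pull_eps e := by
  rw [pull_eps, transpose_smul, transpose_one]

theorem eps_det {e : ℝ} (he : e * e = 1) : (pull_eps e).det = e := by
  rw [pull_eps, det_smul, det_one, mul_one, Fintype.card_fin]
  linear_combination e * he

theorem sign_cases {e : ℝ} (he : e * e = 1) : e = 1 ∨ e = -1 := mul_self_eq_one_iff.mp he

theorem rot_eps_sq {e : ℝ} (he : e * e = 1) : rot (pull_eps e) * rot (pull_eps e) = 1 := by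
  rw [← rot_mul, eps_eps, he, eps_one, rot_one]

theorem boost_eps (i : Fin 3) {e : ℝ} (he : e * e = 1) (t : ℝ) :
    rot (pull_eps e) * boost 3 i t = boost 3 i (e * t) * rot (pull_eps e) := by
  rcases sign_cases he with rfl | rfl
  · rw [eps_one, rot_one, one_mul, one_mul, mul_one]
  · have h0 : ∀ a b : Fin 3, pull_eps (-1) a b = if a = b then -1 else 0 := by
      intro a b
      simp [pull_eps, Matrix.one_apply]
    ext a b
    simp only [Matrix.mul_apply, Fin.sum_univ_succ (n := 3)]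
    refine Fin.cases ?_ (fun a => ?_) a <;> refine Fin.cases ?_ (fun b => ?_) b <;>
      simp only [RM.rot00, RM.rot0s, RM.rots0, RM.rotss, h0, boost, Matrix.of_apply] <;>
      fin_cases i <;> simp [Fin.succ_ne_zero, (Fin.succ_ne_zero _).symm, Fin.sum_univ_three] <;>
      (try fin_cases a) <;> (try fin_cases b) <;> simp

theorem boost_mem (i : Fin 3) (t : ℝ) : boost 3 i t ∈ Frames 3 := by
  rw [← Phi_bst]
  refine (Phi_SO ?_).1
  show (bst i t).det ≠ 0
  rw [bst_det]
  exact one_ne_zero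

theorem boost_zero (i : Fin 3) : boost 3 i 0 = 1 := by
  rw [← Phi_bst, bst_zero, Phi_one]

theorem mem_of_mul {A B : Mat 3} (hB : B ∈ Frames 3) (h : A * B ∈ Frames 3) : A ∈ Frames 3 := by
  obtain ⟨h1, -, -, h2, -⟩ := Frames_inv hB
  have h3 := Frames_mul h h1
  rwa [mul_assoc, h2, mul_one] at h3

theorem boost_smooth (i : Fin 3) : ContDiff ℝ ∞ (boost 3 i) := by
  have h : boost 3 i = fun t => Matrix.of fun a b =>
    if (a = 0 ∧ b = 0) ∨ (a = i.succ ∧ b = i.succ) then Real.cosh t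
    else if (a = 0 ∧ b = i.succ) ∨ (a = i.succ ∧ b = 0) then Real.sinh t
    else if a = b then 1 else 0 := rfl
  rw [h]
  refine contDiff_pi.mpr fun a => contDiff_pi.mpr fun b => ?_
  show ContDiff ℝ ∞ fun t => if (a = 0 ∧ b = 0) ∨ (a = i.succ ∧ b = i.succ) then Real.cosh t
    else if (a = 0 ∧ b = i.succ) ∨ (a = i.succ ∧ b = 0) then Real.sinh t
    else if a = b then (1 : ℝ) else 0
  split_ifs
  · exact Real.contDiff_cosh
  · exact Real.contDiff_sinh
  · exact contDiff_const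
  · exact contDiff_const

theorem lin_smooth {A B : Type*} [NormedAddCommGroup A] [NormedSpace ℝ A] [FiniteDimensional ℝ A]
    [NormedAddCommGroup B] [NormedSpace ℝ B] (f : A →ₗ[ℝ] B) : ContDiff ℝ ∞ f :=
  (LinearMap.toContinuousLinearMap f).contDiff

theorem curve_diff {F : Mat 3 → J → ℂ} (hF : ContDiffOn ℝ ∞ F (Frames 3)) (i : Fin 3) {A : Mat 3}
    (hA : A ∈ Frames 3) : Differentiable ℝ (fun t => F (A * boost 3 i t)) := by
  have h1 : ContDiffOn ℝ ∞ (fun t : ℝ => A * boost 3 i t) Set.univ :=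
    ((lin_smooth (LinearMap.mulLeft ℝ A)).comp (boost_smooth i)).contDiffOn
  have h2 : ContDiffOn ℝ ∞ (fun t => F (A * boost 3 i t)) Set.univ :=
    hF.comp h1 (fun t _ => Frames_mul hA (boost_mem i t))
  rw [contDiffOn_univ] at h2
  exact h2.differentiable (by simp)

theorem nabla_off {F : Mat 3 → J → ℂ} (h0 : ∀ g, g ∉ Frames 3 → F g = 0) (i : Fin 3) {A : Mat 3}
    (hA : A ∉ Frames 3) : nabla i F A = 0 := by
  have h1 : (fun t : ℝ => F (A * boost 3 i t)) = fun _ => 0 := by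
    funext t
    exact h0 _ fun h => hA (mem_of_mul (boost_mem i t) h)
  show deriv (fun t : ℝ => F (A * boost 3 i t)) 0 = 0
  rw [h1, deriv_const]

/-- twist by a sign -/
def tw (e : ℝ) (F : Mat 3 → J → ℂ) : Mat 3 → J → ℂ := fun B => F (B * rot (pull_eps e))

theorem tw_smF {e : ℝ} (he : e * e = 1) {F : Mat 3 → J → ℂ} (hF : SmF F) : SmF (tw e F) := by
  have hr := rot_mem_Frames (eps_orth he)
  refine ⟨fun g hg => hF.1 _ fun h => hg (mem_of_mul hr h), ?_⟩
  exact hF.2.comp (lin_smooth (LinearMap.mulRight ℝ (rot (pull_eps e)))).contDiffOn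
    (fun A hA => Frames_mul hA hr)

theorem nabla_tw {e : ℝ} (he : e * e = 1) (F : Mat 3 → J → ℂ) (i : Fin 3) (A : Mat 3) :
    nabla i F A = e • nabla i (tw e F) (A * rot (pull_eps e)) := by
  have h1 : (fun t : ℝ => F (A * boost 3 i t)) =
      fun t => (fun r => tw e F (A * rot (pull_eps e) * boost 3 i r)) (e * t) := by
    funext t
    show F (A * boost 3 i t) = F (A * rot (pull_eps e) * boost 3 i (e * t) * rot (pull_eps e))
    congr 1
    have h2 := boost_eps i he t
    calc A * boost 3 i t = A * (rot (pull_eps e) * rot (pull_eps e)) * boost 3 i t := by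
          rw [rot_eps_sq he, mul_one]
      _ = A * rot (pull_eps e) * (rot (pull_eps e) * boost 3 i t) := by simp only [mul_assoc]
      _ = _ := by rw [h2]; simp only [mul_assoc]
  show deriv (fun t : ℝ => F (A * boost 3 i t)) 0 =
    e • deriv (fun t : ℝ => tw e F (A * rot (pull_eps e) * boost 3 i t)) 0
  rw [h1]
  have h3 := deriv_comp_mul_left e (fun r => tw e F (A * rot (pull_eps e) * boost 3 i r)) 0
  rw [mul_zero] at h3
  exact h3

theorem nabla_Phi {F : Mat 3 → J → ℂ} (hF : ContDiffOn ℝ ∞ (pull F) GLo) (i : Fin 3) {g : M2}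
    (hg : g ∈ GLo) : nabla i F (Phi g) = E (eX i) (pull F) g := by
  have hb : ∀ t, bst i t ∈ GLo := fun t => by
    show (bst i t).det ≠ 0
    rw [bst_det]
    exact one_ne_zero
  have h1 : (fun t : ℝ => F (Phi g * boost 3 i t)) = fun t => pull F (g * bst i t) := by
    funext t
    rw [← Phi_bst, ← Phi_mul hg (hb t), pull_of (GLo_mul hg (hb t))]
  have h2 : HasDerivAt (fun t => g * bst i t) (g * bst i 0 * eX i) 0 := by
    have h3 : HasDerivAt (fun t => g * bst i t) (g * (bst i 0 * eX i)) 0 :=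
      (LinearMap.toContinuousLinearMap (LinearMap.mulLeft ℝ g)).hasFDerivAt.comp_hasDerivAt 0
        (bst_deriv i 0)
    rwa [← mul_assoc] at h3
  have h4 := E_curve hF h2 (GLo_mul hg (hb 0))
  rw [bst_zero, mul_one] at h4
  show deriv (fun t : ℝ => F (Phi g * boost 3 i t)) 0 = _
  rw [h1]
  exact h4.deriv

theorem Frames_det_sq {A : Mat 3} (hA : A ∈ Frames 3) : A.det * A.det = 1 := by
  rcases Frames_det hA with h | h <;> rw [h] <;> norm_num

theorem twist_SO {A : Mat 3} (hA : A ∈ Frames 3) : A * rot (pull_eps A.det) ∈ SO := by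
  have he := Frames_det_sq hA
  refine ⟨Frames_mul hA (rot_mem_Frames (eps_orth he)), ?_⟩
  rw [det_mul, rot_det, eps_det he, he]

theorem det_near {A0 : Mat 3} (h0 : A0 ∈ Frames 3) :
    ∀ᶠ A in nhdsWithin A0 (Frames 3), A.det = A0.det := by
  have h1 : Continuous fun A : Mat 3 => A.det * A0.det :=
    (Continuous.matrix_det continuous_id).mul continuous_const
  have h2 : ∀ᶠ A in nhds A0, 0 < A.det * A0.det :=
    h1.continuousAt.eventually_mem (IsOpen.mem_nhds isOpen_Ioi (by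
      show 0 < A0.det * A0.det
      rw [Frames_det_sq h0]; exact one_pos))
  filter_upwards [nhdsWithin_le_nhds h2, self_mem_nhdsWithin] with A hA hAF
  rcases Frames_det hAF with h | h <;> rcases Frames_det h0 with h' | h' <;> rw [h, h'] at hA ⊢
  · norm_num at hA
  · norm_num at hA

/-- the main tool: a function on frames which is locally given through a function on `GLo` -/
theorem smooth_of_local {V : Type*} [NormedAddCommGroup V] [NormedSpace ℝ V] {F : Mat 3 → V}
    (h : ∀ e : ℝ, e * e = 1 → ∃ G : M2 → V, ContDiffOn ℝ ∞ G GLo ∧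
      ∀ A ∈ Frames 3, A.det = e → ∀ g ∈ GLo, Phi g = A * rot (pull_eps e) → F A = G g) :
    ContDiffOn ℝ ∞ F (Frames 3) := by
  intro A0 h0
  have he := Frames_det_sq h0
  obtain ⟨G, hG, hFG⟩ := h A0.det he
  obtain ⟨g0, hg0, hg0'⟩ := Phi_surj (twist_SO h0)
  obtain ⟨s, hs0, hs⟩ := Phi_section hg0
  rw [hg0'] at hs0
  have hlin : ContDiff ℝ ∞ fun A : Mat 3 => s (A * rot (pull_eps A0.det)) :=
    (lin_smooth s).comp (lin_smooth (LinearMap.mulRight ℝ (rot (pull_eps A0.det))))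
  have h1 : ContDiffWithinAt ℝ ∞ (fun A : Mat 3 => G (s (A * rot (pull_eps A0.det)))) (Frames 3) A0 :=
    ((hG.contDiffAt (GLo_open.mem_nhds hs0)).comp A0 hlin.contDiffAt).contDiffWithinAt
  have h2 : ∀ᶠ A in nhds A0, s (A * rot (pull_eps A0.det)) ∈ GLo :=
    hlin.continuous.continuousAt.eventually_mem (GLo_open.mem_nhds hs0)
  have h3 : ∀ A ∈ Frames 3, A.det = A0.det → s (A * rot (pull_eps A0.det)) ∈ GLo →
      F A = G (s (A * rot (pull_eps A0.det))) := by
    intro A hA hd hsA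
    apply hFG A hA hd _ hsA
    have h4 := twist_SO hA
    rw [hd] at h4
    obtain ⟨g, hg, hg'⟩ := Phi_surj h4
    rw [← hg'] at hsA ⊢
    exact hs g hg hsA
  refine h1.congr_of_eventuallyEq ?_ (h3 A0 h0 rfl hs0)
  filter_upwards [nhdsWithin_le_nhds h2, det_near h0, self_mem_nhdsWithin] with A hA hd hAF
  exact h3 A hAF hd hA

end PM

open PM

theorem pull_smooth {F : Mat 3 → J → ℂ} (hF : SmF F) :
    ContDiffOn ℝ ∞ (pull F) GLo ∧ (∀ g, g ∉ GLo → pull F g = 0) ∧
      ∀ z : ℂ, z ≠ 0 → ∀ g ∈ GLo, pull F (z • g) = pull F g := by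
  refine ⟨?_, fun g hg => pull_off hg, ?_⟩
  · have h1 : ContDiffOn ℝ ∞ (F ∘ Phi) GLo := hF.2.comp Phi_smooth (fun g hg => (Phi_SO hg).1)
    exact h1.congr fun g hg => pull_of hg
  · intro z hz g hg
    rw [pull_of (smul_GLo hz hg), pull_of hg, Phi_smul hz]

theorem nabla_smF {F : Mat 3 → J → ℂ} (hF : SmF F) (i : Fin 3) : SmF (nabla i F) := by
  refine ⟨fun A hA => nabla_off hF.1 i hA, smooth_of_local ?_⟩
  intro e he
  have h1 := (pull_smooth (tw_smF he hF)).1
  refine ⟨fun g => e • E (eX i) (pull (tw e F)) g, (E_smooth h1 _).const_smul e, ?_⟩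
  intro A hA hd g hg hPhi
  rw [nabla_tw he, ← hPhi, nabla_Phi h1 i hg]

theorem pull_nabla {F : Mat 3 → J → ℂ} (hF : SmF F) (i : Fin 3) :
    pull (nabla i F) = E (eX i) (pull F) := by
  have h1 := pull_smooth hF
  funext g
  by_cases hg : g ∈ GLo
  · rw [pull_of hg, nabla_Phi h1.1 i hg]
  · rw [pull_off hg, E_off h1.2.1 _ hg]

theorem nabla_linear {F G : Mat 3 → J → ℂ} (hF : SmF F) (hG : SmF G) (c : ℂ) (i : Fin 3) :
    nabla i (F + c • G) = nabla i F + c • nabla i G := by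
  funext A
  rw [Pi.add_apply, Pi.smul_apply]
  by_cases hA : A ∈ Frames 3
  · have h1 := (curve_diff hF.2 i hA 0).hasDerivAt
    have h2 := (curve_diff hG.2 i hA 0).hasDerivAt
    exact (h1.add (h2.const_smul c)).deriv
  · rw [nabla_off hF.1 i hA, nabla_off hG.1 i hA, nabla_off _ i hA, smul_zero, add_zero]
    intro g hg
    rw [Pi.add_apply, Pi.smul_apply, hF.1 g hg, hG.1 g hg, smul_zero, add_zero]

theorem nabla_mulVec {J' : Type} [Fintype J'] {F : Mat 3 → J → ℂ} (hF : SmF F)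
    (B : Matrix J' J ℂ) (i : Fin 3) :
    nabla i (fun g => B *ᵥ F g) = fun g => B *ᵥ nabla i F g := by
  funext A
  by_cases hA : A ∈ Frames 3
  · have h1 := (curve_diff hF.2 i hA 0).hasDerivAt
    have h2 : HasDerivAt (fun t => B *ᵥ F (A * boost 3 i t))
        (B *ᵥ deriv (fun t => F (A * boost 3 i t)) 0) 0 :=
      (LinearMap.toContinuousLinearMap
        ((Matrix.mulVecLin B).restrictScalars ℝ)).hasFDerivAt.comp_hasDerivAt 0 h1
    exact h2.deriv
  · rw [nabla_off hF.1 i hA, nabla_off _ i hA, mulVec_zero]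
    intro g hg
    rw [hF.1 g hg, mulVec_zero]

theorem pull_mem {τ : Matrix (Fin 3) (Fin 3) ℝ → Matrix J J ℂ} {Γ : Subgroup (Mat 3)ˣ}
    {F : Mat 3 → J → ℂ} (hF : F ∈ Sec τ Γ) : pull F ∈ Sect τ Γ := by
  obtain ⟨h0, hs, hinv, heq⟩ := hF
  have h1 := pull_smooth ⟨h0, hs⟩
  refine ⟨h1.2.1, h1.1, h1.2.2, ?_, ?_⟩
  · intro γ hγ h hh hPhi g hg
    rw [pull_of (GLo_mul hh hg), pull_of hg, Phi_mul hh hg, hPhi]
    exact hinv γ hγ _ (Phi_SO hg).1
  · intro u hu g hg
    have hu' := RM.unitary_GLo hu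
    obtain ⟨h2, h3, -⟩ := Phi_unitary hu
    rw [pull_of (GLo_mul hg hu'), pull_of hg, Phi_mul hg hu', h2]
    exact heq _ h3 _ (Phi_SO hg).1

theorem pull_inj [DecidableEq J] {τ : Matrix (Fin 3) (Fin 3) ℝ → Matrix J J ℂ} (hτ : IsRep τ)
    {Γ : Subgroup (Mat 3)ˣ} {F G : Mat 3 → J → ℂ} (hF : F ∈ Sec τ Γ) (hG : G ∈ Sec τ Γ)
    (h : pull F = pull G) : F = G := by
  funext A
  by_cases hA : A ∈ Frames 3
  · have he := Frames_det_sq hA
    obtain ⟨g, hg, hg'⟩ := Phi_surj (twist_SO hA)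
    have h1 := congrFun h g
    rw [pull_of hg, pull_of hg, hg'] at h1
    have h2 : A = A * rot (pull_eps A.det) * rot (pull_eps A.det) := by
      rw [mul_assoc, rot_eps_sq he, mul_one]
    have h3 := (twist_SO hA).1
    rw [h2, hF.2.2.2 _ (eps_orth he) _ h3, hG.2.2.2 _ (eps_orth he) _ h3, h1]
  · rw [hF.1 A hA, hG.1 A hA]

theorem pull_surj [DecidableEq J] {τ : Matrix (Fin 3) (Fin 3) ℝ → Matrix J J ℂ} (hτ : IsRep τ)
    {Γ : Subgroup (Mat 3)ˣ} (hΓ : ∀ γ ∈ Γ, (γ : Mat 3) ∈ SO) {H : M2 → J → ℂ}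
    (hH : H ∈ Sect τ Γ) : ∃ F ∈ Sec τ Γ, pull F = H := by
  classical
  obtain ⟨h0, hs, hsc, hinv, heq⟩ := hH
  have hind : ∀ g ∈ GLo, ∀ g' ∈ GLo, Phi g = Phi g' → H g = H g' := by
    intro g hg g' hg' e
    obtain ⟨z, hz, rfl⟩ := Phi_inj hg hg' e
    exact (hsc z hz g hg).symm
  let F : Mat 3 → J → ℂ := fun A =>
    if hA : A ∈ Frames 3 then τ (pull_eps A.det) *ᵥ H (Phi_surj (twist_SO hA)).choose else 0
  have hFs : ∀ A ∈ Frames 3, ∀ e : ℝ, A.det = e → ∀ g ∈ GLo, Phi g = A * rot (pull_eps e) →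
      F A = τ (pull_eps e) *ᵥ H g := by
    intro A hA e he g hg hg'
    subst he
    show (if hA : A ∈ Frames 3 then τ (pull_eps A.det) *ᵥ H (Phi_surj (twist_SO hA)).choose else 0) = _
    rw [dif_pos hA]
    congr 1
    have h1 := (Phi_surj (twist_SO hA)).choose_spec
    exact hind _ h1.1 _ hg (h1.2.trans hg'.symm)
  refine ⟨F, ⟨fun A hA => dif_neg hA, ?_, ?_, ?_⟩, ?_⟩
  · apply smooth_of_local
    intro e he
    refine ⟨fun g => τ (pull_eps e) *ᵥ H g, ?_, fun A hA hd g hg hg' => hFs A hA e hd g hg hg'⟩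
    exact (lin_smooth ((Matrix.mulVecLin (τ (pull_eps e))).restrictScalars ℝ)).comp_contDiffOn hs
  · intro γ hγ A hA
    have hγ' := hΓ γ hγ
    obtain ⟨h, hh, hh'⟩ := Phi_surj hγ'
    obtain ⟨g, hg, hg'⟩ := Phi_surj (twist_SO hA)
    have hd : ((γ : Mat 3) * A).det = A.det := by rw [det_mul, hγ'.2, one_mul]
    rw [hFs A hA _ rfl g hg hg', hFs _ (Frames_mul hγ'.1 hA) _ hd (h * g) (GLo_mul hh hg)
      (by rw [Phi_mul hh hg, hh', hg', mul_assoc]), hinv γ hγ h hh hh' g hg]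
  · intro k hk A hA
    have he := Frames_det_sq hA
    have hk1 : k.det * k.det = 1 := by
      have := congrArg Matrix.det (RM.orth_left hk)
      rwa [det_mul, det_transpose, det_one] at this
    obtain ⟨g, hg, hg'⟩ := Phi_surj (twist_SO hA)
    have hek : pull_eps k.det * k ∈ Matrix.orthogonalGroup (Fin 3) ℝ :=
      mul_mem (eps_orth hk1) hk
    have hekd : (pull_eps k.det * k).det = 1 := by rw [det_mul, eps_det hk1, hk1]
    obtain ⟨u, hu, hu'⟩ := Rot_surj hek hekd
    have hug := RM.unitary_GLo hu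
    have hd : (A * rot k).det = A.det * k.det := by rw [det_mul, rot_det]
    have hPhi : Phi (g * u) = A * rot k * rot (pull_eps (A.det * k.det)) := by
      rw [Phi_mul hg hug, hg', (Phi_unitary hu).1, hu', mul_assoc, mul_assoc, ← rot_mul,
        ← rot_mul, ← mul_assoc, eps_eps, eps_mul]
    have hkt : kᵀ ∈ Matrix.orthogonalGroup (Fin 3) ℝ := by
      rw [Matrix.mem_orthogonalGroup_iff, transpose_transpose]
      exact RM.orth_right hk
    have hek2 : A.det * k.det * (A.det * k.det) = 1 := by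
      linear_combination k.det * k.det * he + hk1
    rw [hFs A hA _ rfl g hg hg', hFs _ (Frames_mul hA (rot_mem_Frames hk)) _ hd (g * u)
      (GLo_mul hg hug) hPhi, heq u hu g hg, hu', mulVec_mulVec, mulVec_mulVec, transpose_mul,
      eps_transpose, ← hτ.mul _ (eps_orth hek2) _ (mul_mem hkt (eps_orth hk1)),
      ← hτ.mul _ hkt _ (eps_orth he)]
    congr 2
    rw [← eps_mul, ← mul_assoc, eps_eps, mul_assoc A.det, hk1, mul_one, eps_mul]
  · funext g
    by_cases hg : g ∈ GLo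
    · have hSO := Phi_SO hg
      rw [pull_of hg, hFs _ hSO.1 1 hSO.2 g hg (by rw [eps_one, rot_one, mul_one]), eps_one, hτ.one,
        one_mulVec]
    · rw [pull_off hg, h0 g hg]

end

end

end Pool.Agent.Work.MP_14c213_gt
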