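import Pool.Agent.Work.MP_14c213_gt.A.ShcM

/-!
Separation of eigenvalues (Mathlib only). If ∑ |b_x| < ∞, b supported on a locally finite set bounded
below, and ∑ b_x φ_x(c) = 0 for all c > 1 then b = 0. Multiply by sinh r: ∑ b_x shc (1-x) r = 0;
Laplace transform in r with s large: ∑ b_x / (s² - 1 + x) = 0 for s > s₀; the function
M(w) = ∑ b_x/(w - 1 + x) is holomorphic off the points 1 - x, vanishes on a half line, hence
everywhere (complement of a countable closed set is connected), and
b_{x₀} = lim (w - 1 + x₀) M(w).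
-/

namespace Pool.Agent.Work.MP_14c213_gt

open Matrix MeasureTheory
open scoped Matrix ContDiff Matrix.Norms.Elementwise Topology

noncomputable section

private theorem sepM_norm {w K r : ℝ} (hK : 0 < K) (hw : w ≤ K ^ 2) (hr : 0 ≤ r) :
    ‖shc (w : ℂ) r‖ ≤ Real.exp (K * r) / K := by
  refine (shcM_le (by positivity) hw hr).trans ?_
  rw [shc_sinh _ (K : ℂ) (by exact_mod_cast hK.ne') (by push_cast; ring)]
  have h1 : Complex.sinh ((K : ℂ) * (r : ℂ)) / (K : ℂ) = ((Real.sinh (K * r) / K : ℝ) : ℂ) := by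
    push_cast
    rfl
  rw [h1, Complex.norm_real, Real.norm_eq_abs, abs_of_nonneg (div_nonneg
    (Real.sinh_nonneg_iff.2 (by positivity)) hK.le)]
  have h2 : Real.sinh (K * r) ≤ Real.exp (K * r) := by
    rw [Real.sinh_eq]
    have := Real.exp_pos (K * r)
    have := Real.exp_pos (-(K * r))
    linarith
  gcongr

private theorem sepM_cosh_le (x : ℝ) (hx : 0 ≤ x) : Real.cosh x ≤ Real.exp x := by
  rw [Real.cosh_eq]
  have : Real.exp (-x) ≤ Real.exp x := Real.exp_le_exp.2 (by linarith)
  linarith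

private theorem sepM_deriv {w K : ℝ} (hK : 0 < K) (hw : w ≤ K ^ 2) :
    ∃ d : ℝ → ℂ, (∀ s, HasDerivAt (shc (w : ℂ)) (d s) s) ∧ d 0 = 1 ∧
      (∀ s, HasDerivAt d ((w : ℂ) * shc (w : ℂ) s) s) ∧ ∀ r, 0 ≤ r → ‖d r‖ ≤ Real.exp (K * r) := by
  obtain ⟨d, hd1, hd0, -⟩ := shc_deriv2 (w : ℂ) 0
  have hd2 : ∀ s, HasDerivAt d ((w : ℂ) * shc (w : ℂ) s) s := by
    intro s
    obtain ⟨d', hd1', -, hd2'⟩ := shc_deriv2 (w : ℂ) s
    have : d' = d := by
      funext t
      exact (hd1' t).unique (hd1 t)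
    rw [← this]
    exact hd2'
  refine ⟨d, hd1, hd0, hd2, ?_⟩
  intro r hr
  have hexp : 1 ≤ Real.exp (K * r) := Real.one_le_exp (by positivity)
  have key : ∀ v : ℂ, v ≠ 0 → v ^ 2 = (w : ℂ) → d r = Complex.cosh (v * r) := by
    intro v hv hvw
    have h1 : shc (w : ℂ) = fun r : ℝ => Complex.sinh (v * r) / v := by
      funext r
      exact shc_sinh _ v hv hvw r
    have h2 : HasDerivAt (fun s : ℝ => v * (s : ℂ)) v r := by
      have := (Complex.ofRealCLM.hasDerivAt (x := r)).const_mul v
      simpa using this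
    have h3 := ((Complex.hasDerivAt_sinh (v * r)).comp r h2).div_const v
    rw [mul_div_cancel_right₀ _ hv] at h3
    have h4 := hd1 r
    rw [h1] at h4
    exact h4.unique h3
  rcases lt_trichotomy w 0 with h | h | h
  · have hs : 0 < Real.sqrt (-w) := Real.sqrt_pos.2 (by linarith)
    have h1 := key ((Real.sqrt (-w) : ℂ) * Complex.I)
      (mul_ne_zero (by exact_mod_cast hs.ne') Complex.I_ne_zero) (by
        rw [mul_pow, Complex.I_sq, ← Complex.ofReal_pow, Real.sq_sqrt (by linarith)]
        push_cast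
        ring)
    have h2 : (Real.sqrt (-w) : ℂ) * Complex.I * (r : ℂ) =
        ((Real.sqrt (-w) * r : ℝ) : ℂ) * Complex.I := by
      push_cast
      ring
    rw [h1, h2, Complex.cosh_mul_I, ← Complex.ofReal_cos, Complex.norm_real, Real.norm_eq_abs]
    exact (Real.abs_cos_le_one _).trans hexp
  · have h1 : shc (w : ℂ) = fun r : ℝ => (r : ℂ) := by
      funext t
      rw [h]
      unfold shc
      rw [tsum_eq_single 0]
      · simp
      · intro n hn
        simp [hn]
    have h2 : HasDerivAt (shc (w : ℂ)) 1 r := by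
      rw [h1]
      exact Complex.ofRealCLM.hasDerivAt
    rw [(hd1 r).unique h2, norm_one]
    exact hexp
  · have hs : 0 < Real.sqrt w := Real.sqrt_pos.2 h
    have h1 := key (Real.sqrt w : ℂ) (by exact_mod_cast hs.ne') (by
      rw [← Complex.ofReal_pow, Real.sq_sqrt h.le])
    have h2 : (Real.sqrt w : ℂ) * (r : ℂ) = ((Real.sqrt w * r : ℝ) : ℂ) := by
      push_cast
      ring
    rw [h1, h2, ← Complex.ofReal_cosh, Complex.norm_real, Real.norm_eq_abs,
      abs_of_pos (Real.cosh_pos _)]
    refine (sepM_cosh_le _ (by positivity)).trans (Real.exp_le_exp.2 ?_)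
    have : Real.sqrt w ≤ K := by
      rw [Real.sqrt_le_left hK.le]
      exact hw
    gcongr

private theorem sepM_cont (w : ℂ) : Continuous (shc w) :=
  shc_cont.comp (continuous_const.prodMk continuous_id)

private theorem sepM_int {w K s : ℝ} (hK : 0 < K) (hw : w ≤ K ^ 2) (hs : K < s) :
    IntegrableOn (fun r : ℝ => (Real.exp (-s * r) : ℂ) * shc (w : ℂ) r) (Set.Ioi 0) := by
  have h1 : IntegrableOn (fun r : ℝ => Real.exp ((K - s) * r) / K) (Set.Ioi 0) :=
    (integrableOn_exp_mul_Ioi (by linarith) 0).div_const K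
  refine Integrable.mono' h1 ?_ ?_
  · have : Continuous fun r : ℝ => (Real.exp (-s * r) : ℂ) * shc (w : ℂ) r :=
      (Complex.continuous_ofReal.comp (by fun_prop)).mul (sepM_cont _)
    exact this.aestronglyMeasurable.restrict
  · filter_upwards [ae_restrict_mem measurableSet_Ioi] with r hr
    rw [norm_mul, Complex.norm_real, Real.norm_eq_abs, abs_of_pos (Real.exp_pos _)]
    have h2 := sepM_norm hK hw (le_of_lt hr)
    calc Real.exp (-s * r) * ‖shc (w : ℂ) r‖ ≤ Real.exp (-s * r) * (Real.exp (K * r) / K) := by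
          gcongr
      _ = Real.exp ((K - s) * r) / K := by
          rw [← mul_div_assoc, ← Real.exp_add]
          congr 2
          ring

private theorem sepM_laplace {w K s : ℝ} (hK : 0 < K) (hw : w ≤ K ^ 2) (hs : K < s) :
    ∫ r in Set.Ioi (0 : ℝ), (Real.exp (-s * r) : ℂ) * shc (w : ℂ) r = 1 / ((s : ℂ) ^ 2 - w) := by
  obtain ⟨d, hd1, hd0, hd2, hdb⟩ := sepM_deriv hK hw
  have hne : ((s : ℂ) ^ 2 - w) ≠ 0 := by
    have h1 : s ^ 2 - w ≠ 0 := by nlinarith
    exact_mod_cast h1
  let F : ℝ → ℂ := fun r => -((Real.exp (-s * r) : ℂ) * (s * shc (w : ℂ) r + d r)) /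
    ((s : ℂ) ^ 2 - w)
  have hF : ∀ r ∈ Set.Ici (0 : ℝ), HasDerivAt F
      ((Real.exp (-s * r) : ℂ) * shc (w : ℂ) r) r := by
    intro r _
    have h1 : HasDerivAt (fun r : ℝ => (Real.exp (-s * r) : ℂ)) ((Real.exp (-s * r) * (-s) : ℝ) : ℂ)
        r := by
      have h2 : HasDerivAt (fun r : ℝ => -s * r) (-s) r := by
        simpa using (hasDerivAt_id r).const_mul (-s)
      exact (h2.exp).ofReal_comp
    have h3 := ((h1.mul (((hd1 r).const_mul (s : ℂ)).add (hd2 r))).neg).div_const
      ((s : ℂ) ^ 2 - w)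
    have h4 : -(((Real.exp (-s * r) * (-s) : ℝ) : ℂ) * (s * shc (w : ℂ) r + d r) +
        (Real.exp (-s * r) : ℂ) * (s * d r + w * shc (w : ℂ) r)) / ((s : ℂ) ^ 2 - w) =
        (Real.exp (-s * r) : ℂ) * shc (w : ℂ) r := by
      rw [div_eq_iff hne]
      push_cast
      ring
    rw [← h4]
    exact h3
  have hlim : Filter.Tendsto F Filter.atTop (𝓝 0) := by
    have hb : ∀ r : ℝ, 0 ≤ r → ‖F r‖ ≤ (s / K + 1) / ‖(s : ℂ) ^ 2 - w‖ *
        Real.exp ((K - s) * r) := by
      intro r hr
      simp only [F]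
      rw [norm_div, norm_neg, norm_mul, Complex.norm_real, Real.norm_eq_abs,
        abs_of_pos (Real.exp_pos _)]
      have h1 : ‖(s : ℂ) * shc (w : ℂ) r + d r‖ ≤ s * (Real.exp (K * r) / K) +
          Real.exp (K * r) := by
        refine (norm_add_le _ _).trans (add_le_add ?_ (hdb r hr))
        rw [norm_mul, Complex.norm_real, Real.norm_eq_abs, abs_of_pos (hK.trans hs)]
        exact mul_le_mul_of_nonneg_left (sepM_norm hK hw hr) (hK.trans hs).le
      calc Real.exp (-s * r) * ‖(s : ℂ) * shc (w : ℂ) r + d r‖ / ‖(s : ℂ) ^ 2 - w‖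
          ≤ Real.exp (-s * r) * (s * (Real.exp (K * r) / K) + Real.exp (K * r)) /
            ‖(s : ℂ) ^ 2 - w‖ := by gcongr
        _ = (s / K + 1) / ‖(s : ℂ) ^ 2 - w‖ * Real.exp ((K - s) * r) := by
            have : Real.exp ((K - s) * r) = Real.exp (-s * r) * Real.exp (K * r) := by
              rw [← Real.exp_add]
              congr 1
              ring
            rw [this]
            ring
    have hz : Filter.Tendsto (fun r : ℝ => (s / K + 1) / ‖(s : ℂ) ^ 2 - w‖ *
        Real.exp ((K - s) * r)) Filter.atTop (𝓝 0) := by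
      have h1 : Filter.Tendsto (fun r : ℝ => (K - s) * r) Filter.atTop Filter.atBot :=
        Filter.Tendsto.const_mul_atTop_of_neg (by linarith) Filter.tendsto_id
      have h2 := (Real.tendsto_exp_atBot.comp h1).const_mul ((s / K + 1) / ‖(s : ℂ) ^ 2 - w‖)
      simpa using h2
    rw [tendsto_zero_iff_norm_tendsto_zero]
    refine tendsto_of_tendsto_of_tendsto_of_le_of_le' tendsto_const_nhds hz
      (Filter.Eventually.of_forall fun r => norm_nonneg _) ?_
    filter_upwards [Filter.eventually_ge_atTop 0] with r hr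
    exact hb r hr
  rw [integral_Ioi_of_hasDerivAt_of_tendsto' hF (sepM_int hK hw hs) hlim]
  simp only [F]
  rw [shc_zero, hd0]
  simp
  ring

private theorem sepM_zero {b : ℝ → ℂ} (hb : Summable fun x => ‖b x‖) {K : ℝ} (hK : 0 < K)
    (ha : ∀ x, b x ≠ 0 → 1 - x ≤ K ^ 2)
    (h0 : ∀ r : ℝ, 0 < r → ∑' x : ℝ, b x * shc (1 - x) r = 0) {t : ℝ} (ht : K ^ 2 < t) :
    ∑' x : Function.support b, b x / ((t : ℂ) - 1 + (x : ℝ)) = 0 := by
  have htpos : 0 < t := lt_of_le_of_lt (by positivity) ht
  let s : ℝ := Real.sqrt t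
  have hs : K < s := Real.lt_sqrt_of_sq_lt ht
  have hst : s ^ 2 = t := Real.sq_sqrt htpos.le
  have hcount : Countable (Function.support b) := by
    have h1 : Summable b := hb.of_norm
    exact h1.countable_support.to_subtype
  have hF : ∀ x : Function.support b, IntegrableOn (fun r : ℝ => b x *
      ((Real.exp (-s * r) : ℂ) * shc ((1 - (x : ℝ) : ℝ) : ℂ) r)) (Set.Ioi 0) :=
    fun x => (sepM_int hK (ha x x.2) hs).const_mul (b x)
  have hnorm : ∀ x : Function.support b, ∫ r in Set.Ioi (0 : ℝ), ‖b x *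
      ((Real.exp (-s * r) : ℂ) * shc ((1 - (x : ℝ) : ℝ) : ℂ) r)‖ ≤
      ‖b x‖ * ∫ r in Set.Ioi (0 : ℝ), Real.exp ((K - s) * r) / K := by
    intro x
    rw [← integral_const_mul]
    refine setIntegral_mono_on (hF x).norm
      (((integrableOn_exp_mul_Ioi (by linarith) 0).div_const K).const_mul _)
      measurableSet_Ioi ?_
    intro r hr
    rw [norm_mul, norm_mul, Complex.norm_real, Real.norm_eq_abs, abs_of_pos (Real.exp_pos _)]
    have h2 := sepM_norm hK (ha x x.2) (le_of_lt hr)
    calc ‖b x‖ * (Real.exp (-s * r) * ‖shc ((1 - (x : ℝ) : ℝ) : ℂ) r‖)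
        ≤ ‖b x‖ * (Real.exp (-s * r) * (Real.exp (K * r) / K)) := by gcongr
      _ = ‖b x‖ * (Real.exp ((K - s) * r) / K) := by
          rw [← mul_div_assoc, ← Real.exp_add]
          congr 3
          ring
  have hsum : Summable fun x : Function.support b => ∫ r in Set.Ioi (0 : ℝ), ‖b x *
      ((Real.exp (-s * r) : ℂ) * shc ((1 - (x : ℝ) : ℝ) : ℂ) r)‖ := by
    refine Summable.of_nonneg_of_le (fun x => integral_nonneg fun r => norm_nonneg _) hnorm ?_
    exact (hb.subtype _).mul_right _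
  have h1 := integral_tsum_of_summable_integral_norm hF hsum
  have h2 : ∀ x : Function.support b, ∫ r in Set.Ioi (0 : ℝ), b x *
      ((Real.exp (-s * r) : ℂ) * shc ((1 - (x : ℝ) : ℝ) : ℂ) r) =
      b x / ((t : ℂ) - 1 + (x : ℝ)) := by
    intro x
    rw [integral_const_mul, sepM_laplace hK (ha x x.2) hs, mul_one_div, ← hst]
    congr 1
    push_cast
    ring
  simp only [h2] at h1
  rw [h1]
  have h3 : ∀ r ∈ Set.Ioi (0 : ℝ), ∑' x : Function.support b, b x *
      ((Real.exp (-s * r) : ℂ) * shc ((1 - (x : ℝ) : ℝ) : ℂ) r) = 0 := by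
    intro r hr
    have h4 := h0 r hr
    have h5 : ∑' x : Function.support b, b x * shc (1 - ((x : ℝ) : ℂ)) r = 0 := by
      rw [← h4]
      exact tsum_subtype_eq_of_support_subset (f := fun x : ℝ => b x * shc (1 - (x : ℂ)) r)
        (fun x hx => by
          rw [Function.mem_support] at hx ⊢
          exact left_ne_zero_of_mul hx)
    have h6 : (fun x : Function.support b => b x *
        ((Real.exp (-s * r) : ℂ) * shc ((1 - (x : ℝ) : ℝ) : ℂ) r)) =
        fun x : Function.support b => (Real.exp (-s * r) : ℂ) *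
          (b x * shc (1 - ((x : ℝ) : ℂ)) r) := by
      funext x
      push_cast
      ring
    rw [h6, tsum_mul_left, h5, mul_zero]
  rw [setIntegral_congr_fun measurableSet_Ioi h3]
  simp

theorem separation {b : ℝ → ℂ} (hb : Summable fun x => ‖b x‖) {a : ℝ}
    (ha : ∀ x, b x ≠ 0 → a ≤ x) (hfin : ∀ R : ℝ, {x | x ≤ R ∧ b x ≠ 0}.Finite)
    (h0 : ∀ c : ℝ, 1 < c → ∑' x : ℝ, b x * phi x c = 0) (x : ℝ) : b x = 0 := by
  by_contra hx
  -- the least element of the support
  obtain ⟨x₀, hx₀, hmin⟩ : ∃ x₀, b x₀ ≠ 0 ∧ ∀ y, b y ≠ 0 → x₀ ≤ y := by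
    obtain ⟨x₀, hx₀, hm⟩ := (hfin x).exists_minimal ⟨x, le_refl x, hx⟩
    refine ⟨x₀, hx₀.2, fun y hy => ?_⟩
    by_contra hlt
    have hlt' := not_le.1 hlt
    exact hlt (hm ⟨hlt'.le.trans hx₀.1, hy⟩ hlt'.le)
  let W : ℝ := max (1 - a) 1
  have hW : 0 < W := lt_of_lt_of_le one_pos (le_max_right _ _)
  let K : ℝ := Real.sqrt W
  have hK : 0 < K := Real.sqrt_pos.2 hW
  have hKW : K ^ 2 = W := Real.sq_sqrt hW.le
  have ha' : ∀ x, b x ≠ 0 → 1 - x ≤ K ^ 2 := by
    intro x hx
    rw [hKW]
    exact le_trans (by linarith [ha x hx]) (le_max_left _ _)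
  have h0' : ∀ r : ℝ, 0 < r → ∑' x : ℝ, b x * shc (1 - x) r = 0 := by
    intro r hr
    have hc : 1 < Real.cosh r := Real.one_lt_cosh.2 hr.ne'
    have h1 := h0 _ hc
    have h2 : ∀ x : ℝ, b x * phi x (Real.cosh r) = b x * shc (1 - x) r * (Real.sinh r : ℂ)⁻¹ := by
      intro x
      unfold phi
      rw [if_neg (not_le.2 hc), Real.arcosh_cosh hr.le]
      ring
    simp only [h2] at h1
    rw [tsum_mul_right] at h1
    have h3 : (Real.sinh r : ℂ)⁻¹ ≠ 0 := by
      apply inv_ne_zero
      exact_mod_cast (Real.sinh_pos_iff.2 hr).ne'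
    exact (mul_eq_zero.1 h1).resolve_right h3
  let M : ℂ → ℂ := fun w => ∑' y : Function.support b, b y / (w - 1 + ((y : ℝ) : ℂ))
  have hMzero : ∀ t : ℝ, K ^ 2 < t → M t = 0 := fun t ht => sepM_zero hb hK ha' h0' ht
  have hsumS : Summable fun y : Function.support b => ‖b y‖ := hb.subtype _
  -- M vanishes on the half line to the right of `1 - x₀`
  have hM : ∀ e : ℝ, 0 < e → M ((1 - x₀ + e : ℝ) : ℂ) = 0 := by
    intro e he
    let U : Set ℂ := {w | 1 - x₀ + e / 2 < w.re}
    have hU : IsOpen U := isOpen_lt continuous_const Complex.continuous_re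
    have hlow : ∀ y : Function.support b, ∀ w ∈ U, e / 2 ≤ ‖w - 1 + ((y : ℝ) : ℂ)‖ := by
      intro y w hw
      refine le_trans ?_ (Complex.abs_re_le_norm _)
      refine le_trans ?_ (le_abs_self _)
      have h1 := hmin y y.2
      have h2 : 1 - x₀ + e / 2 < w.re := hw
      simp only [Complex.add_re, Complex.sub_re, Complex.one_re, Complex.ofReal_re]
      linarith
    have hdiff : DifferentiableOn ℂ M U := by
      refine Complex.differentiableOn_tsum_of_summable_norm
        (u := fun y : Function.support b => ‖b y‖ / (e / 2)) (hsumS.div_const _) ?_ hU ?_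
      · intro y w hw
        have h1 : w - 1 + ((y : ℝ) : ℂ) ≠ 0 := by
          intro h
          have := hlow y w hw
          rw [h, norm_zero] at this
          linarith
        refine DifferentiableAt.differentiableWithinAt ?_
        exact (differentiableAt_const _).div (by fun_prop) h1
      · intro y w hw
        rw [norm_div]
        have := hlow y w hw
        gcongr
    have han := hdiff.analyticOnNhd hU
    have hconv : IsPreconnected U := by
      have : Convex ℝ U := convex_halfSpace_re_gt _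
      exact this.isPreconnected
    let z₀ : ℝ := max (K ^ 2) (1 - x₀ + e / 2) + 1
    have hz1 : K ^ 2 < z₀ := lt_of_le_of_lt (le_max_left _ _) (lt_add_one _)
    have hz2 : 1 - x₀ + e / 2 < z₀ := lt_of_le_of_lt (le_max_right _ _) (lt_add_one _)
    have hfreq : ∃ᶠ z in 𝓝[≠] (z₀ : ℂ), M z = 0 := by
      have h1 : Filter.Tendsto (fun t : ℝ => (t : ℂ)) (𝓝[>] z₀) (𝓝[≠] (z₀ : ℂ)) := by
        refine tendsto_nhdsWithin_iff.2 ⟨?_, ?_⟩
        · exact (Complex.continuous_ofReal.tendsto z₀).mono_left nhdsWithin_le_nhds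
        · filter_upwards [self_mem_nhdsWithin] with t ht
          intro h
          have : t = z₀ := Complex.ofReal_injective (Set.mem_singleton_iff.1 h)
          exact (ne_of_gt ht) this
      refine h1.frequently ?_
      apply Filter.Eventually.frequently
      filter_upwards [self_mem_nhdsWithin] with t ht
      exact hMzero t (hz1.trans ht)
    have heq := han.eqOn_zero_of_preconnected_of_frequently_eq_zero hconv
      (show (z₀ : ℂ) ∈ U from hz2) hfreq
    have hmem : ((1 - x₀ + e : ℝ) : ℂ) ∈ U := by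
      show 1 - x₀ + e / 2 < (((1 - x₀ + e : ℝ) : ℂ)).re
      rw [Complex.ofReal_re]
      linarith
    exact heq hmem
  -- multiply by `e` and let `e → 0`
  have hlim : Filter.Tendsto (fun e : ℝ => ∑' y : Function.support b,
      (e : ℂ) * (b y / (((1 - x₀ + e : ℝ) : ℂ) - 1 + ((y : ℝ) : ℂ)))) (𝓝[>] 0)
      (𝓝 (∑' y : Function.support b, if (y : ℝ) = x₀ then b y else 0)) := by
    refine tendsto_tsum_of_dominated_convergence (bound := fun y => ‖b y‖) hsumS ?_ ?_
    · intro y
      by_cases hy : (y : ℝ) = x₀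
      · rw [if_pos hy]
        refine tendsto_const_nhds.congr' ?_
        filter_upwards [self_mem_nhdsWithin] with e he
        have he0 : (e : ℂ) ≠ 0 := by
          exact_mod_cast (ne_of_gt (Set.mem_Ioi.1 he))
        have h1 : (((1 - x₀ + e : ℝ) : ℂ) - 1 + ((y : ℝ) : ℂ)) = e := by
          rw [hy]
          push_cast
          ring
        rw [h1]
        field_simp
      · rw [if_neg hy]
        have hy0 : (y : ℝ) - x₀ ≠ 0 := sub_ne_zero.2 hy
        have h1 : ContinuousAt (fun e : ℝ => (e : ℂ) *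
            (b y / (((1 - x₀ + e : ℝ) : ℂ) - 1 + ((y : ℝ) : ℂ)))) 0 := by
          refine (Complex.continuous_ofReal.continuousAt).mul (continuousAt_const.div ?_ ?_)
          · refine ((Complex.continuous_ofReal.comp ?_).continuousAt.sub
              continuousAt_const).add continuousAt_const
            fun_prop
          · have h2 : (((1 - x₀ + 0 : ℝ) : ℂ) - 1 + ((y : ℝ) : ℂ)) = (((y : ℝ) - x₀ : ℝ) : ℂ) := by
              push_cast
              ring
            rw [h2]
            exact_mod_cast hy0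
        have h2 := h1.tendsto
        simp only [Complex.ofReal_zero, zero_mul] at h2
        exact h2.mono_left nhdsWithin_le_nhds
    · filter_upwards [self_mem_nhdsWithin] with e he y
      have he' : 0 < e := he
      have h1 : (((1 - x₀ + e : ℝ) : ℂ) - 1 + ((y : ℝ) : ℂ)) = (((y : ℝ) - x₀ + e : ℝ) : ℂ) := by
        push_cast
        ring
      have h2 := hmin y y.2
      have h3 : 0 < (y : ℝ) - x₀ + e := by linarith
      rw [h1, norm_mul, norm_div, Complex.norm_real, Complex.norm_real, Real.norm_eq_abs,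
        Real.norm_eq_abs, abs_of_pos he', abs_of_pos h3, ← mul_div_assoc, div_le_iff₀ h3]
      nlinarith [norm_nonneg (b y)]
  have hzero : Filter.Tendsto (fun e : ℝ => ∑' y : Function.support b,
      (e : ℂ) * (b y / (((1 - x₀ + e : ℝ) : ℂ) - 1 + ((y : ℝ) : ℂ)))) (𝓝[>] 0) (𝓝 0) := by
    refine tendsto_const_nhds.congr' ?_
    filter_upwards [self_mem_nhdsWithin] with e he
    rw [tsum_mul_left]
    have := hM e he
    simp only [M] at this
    rw [this, mul_zero]
  have h1 := tendsto_nhds_unique hlim hzero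
  rw [tsum_eq_single (⟨x₀, hx₀⟩ : Function.support b)] at h1
  · rw [if_pos rfl] at h1
    exact hx₀ h1
  · intro y hy
    rw [if_neg]
    intro h
    exact hy (Subtype.ext h)

end

end Pool.Agent.Work.MP_14c213_gt
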