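import Pool.Agent.Work.MP_14c213_gt.ADefs

/-!
Abstract spectral theorem (Mathlib only). `ι : S → H` injective linear (smooth sections), C symmetric
on S, a set 𝒯 of compact operators closed under adjoints, mapping H into ι S and commuting with C,
with trivial common kernel, and finite multiplicities. Then for every family of operators T₁, T₂
which preserve every eigenspace, the trace pairing decomposes.
Proof: for T ∈ 𝒯, T T* is compact, self-adjoint, its non-zero eigenspaces are finite dimensional,
contained in ι S and C-stable, hence spanned by C-eigenvectors. The orthogonal complement of the span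
of all eigenvectors is killed by all T*, so it is 0. Choose a Hilbert basis adapted to the
(orthogonal, finite dimensional) eigenspaces.
-/

namespace Pool.Agent.Work.MP_14c213_gt

open Matrix MeasureTheory
open scoped Matrix ContDiff Matrix.Norms.Elementwise

noncomputable section

theorem Spec_dense {H : Type} [NormedAddCommGroup H] [InnerProductSpace ℂ H] [CompleteSpace H]
    {S : Type} [AddCommGroup S] [Module ℂ S] (ι : S →ₗ[ℂ] H) (hι : Function.Injective ι)
    (C : Module.End ℂ S) (hC : ∀ F G, inner ℂ (ι (C F)) (ι G) = inner ℂ (ι F) (ι (C G)))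
    (𝒯 : Set (H →L[ℂ] H)) (hcomp : ∀ T ∈ 𝒯, IsCompactOperator T)
    (hadj : ∀ T ∈ 𝒯, ContinuousLinearMap.adjoint T ∈ 𝒯)
    (hran : ∀ T ∈ 𝒯, ∀ f, ∃ F, ι F = T f)
    (hcom : ∀ T ∈ 𝒯, ∀ F G, ι G = T (ι F) → ι (C G) = T (ι (C F)))
    (htot : ∀ f, (∀ T ∈ 𝒯, T f = 0) → f = 0) (f : H)
    (hf : ∀ (lam : ℝ) (F : S), C F = (lam : ℂ) • F → inner ℂ (ι F) f = 0) : f = 0 := by
  classical
  apply htot
  intro T' hT'
  have hTm : ContinuousLinearMap.adjoint T' ∈ 𝒯 := hadj T' hT'
  set T := ContinuousLinearMap.adjoint T' with hT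
  set A : H →L[ℂ] H := T ∘L T' with hA
  have hAc : IsCompactOperator A := (hcomp T hTm).comp_clm T'
  have hAs : (A : H →ₗ[ℂ] H).IsSymmetric := by
    intro x y
    simp only [hA, ContinuousLinearMap.coe_coe, ContinuousLinearMap.comp_apply, hT]
    rw [ContinuousLinearMap.adjoint_inner_left, ContinuousLinearMap.adjoint_inner_right]
  -- eigenvectors of `A` with non-zero eigenvalue are orthogonal to `f`
  have key : ∀ (μ : ℂ), μ ≠ 0 → ∀ v ∈ Module.End.eigenspace (A : Module.End ℂ H) μ,
      inner ℂ v f = 0 := by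
    intro μ hμ
    set V : Submodule ℂ H := Module.End.eigenspace (A : Module.End ℂ H) μ with hV
    have hfinV : FiniteDimensional ℂ V :=
      ContinuousLinearMap.finite_dimensional_eigenspace hAc μ hμ
    have hVmem : ∀ v, v ∈ V ↔ T (T' v) = μ • v := fun v => by
      rw [hV, Module.End.mem_eigenspace_iff]; rfl
    have hex : ∀ v ∈ V, ∃ F, ι F = v := by
      intro v hv
      obtain ⟨F, hF⟩ := hran T hTm (μ⁻¹ • T' v)
      refine ⟨F, ?_⟩
      rw [hF, map_smul, (hVmem v).1 hv, smul_smul, inv_mul_cancel₀ hμ, one_smul]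
    have hCV : ∀ F, ι F ∈ V → ι (C F) ∈ V := by
      intro F hF
      rw [hVmem] at hF ⊢
      obtain ⟨G, hG⟩ := hran T' hT' (ι F)
      have h1 := hcom T' hT' F G hG
      have h2 : ι (μ • F) = T (ι G) := by rw [hG, hF, map_smul]
      have h3 := hcom T hTm G (μ • F) h2
      rw [← h1, ← h3, map_smul, map_smul]
    choose s hs using hex
    -- the operator `C` on `V`
    let D : V →ₗ[ℂ] V :=
      { toFun := fun v => ⟨ι (C (s v v.2)), hCV _ (by rw [hs]; exact v.2)⟩
        map_add' := by
          intro v w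
          apply Subtype.ext
          simp only [Submodule.coe_add]
          have : s (v + w : H) (v + w).2 = s v v.2 + s w w.2 := by
            apply hι; rw [hs, map_add, hs, hs]
          rw [this, map_add, map_add]
        map_smul' := by
          intro c v
          apply Subtype.ext
          simp only [Submodule.coe_smul, RingHom.id_apply]
          have : s (c • v : H) (c • v).2 = c • s v v.2 := by
            apply hι; rw [hs, map_smul, hs]
          rw [this, map_smul, map_smul] }
    have hDs : D.IsSymmetric := by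
      intro v w
      show inner ℂ (ι (C (s v v.2))) (w : H) = inner ℂ (v : H) (ι (C (s w w.2)))
      conv_lhs => rw [← hs w w.2]
      conv_rhs => rw [← hs v v.2]
      exact hC _ _
    have hbot := hDs.orthogonalComplement_iSup_eigenspaces_eq_bot
    have htop : (⨆ ν, Module.End.eigenspace D ν) = ⊤ := by
      rwa [Submodule.orthogonal_eq_bot_iff] at hbot
    intro v hv
    have hvm : (⟨v, hv⟩ : V) ∈ ⨆ ν, Module.End.eigenspace D ν := by rw [htop]; trivial
    have : ∀ w : V, w ∈ (⨆ ν, Module.End.eigenspace D ν) → inner ℂ (w : H) f = 0 := by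
      intro w hw
      refine Submodule.iSup_induction (fun ν => Module.End.eigenspace D ν)
        (motive := fun w : V => inner ℂ (w : H) f = 0) hw ?_ ?_ ?_
      · intro ν x hx
        by_cases hx0 : x = 0
        · simp [hx0]
        have hev : Module.End.HasEigenvalue D ν :=
          Module.End.hasEigenvalue_of_hasEigenvector ⟨hx, hx0⟩
        have hreal := hDs.conj_eigenvalue_eq_self hev
        obtain ⟨r, hr⟩ := Complex.conj_eq_iff_real.1 hreal
        rw [Module.End.mem_eigenspace_iff] at hx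
        have hx' : ι (C (s x x.2)) = ν • (x : H) := congrArg Subtype.val hx
        have := hf r (s x x.2) (by
          apply hι
          rw [hx', map_smul, hs, hr])
        rwa [hs] at this
      · simp
      · intro x y hx hy
        simp only [Submodule.coe_add, inner_add_left, hx, hy, add_zero]
    exact this ⟨v, hv⟩ hvm
  have hAf : A f = 0 := by
    have hbot := ContinuousLinearMap.orthogonalComplement_iSup_eigenspaces_eq_bot hAc hAs
    have : A f ∈ (⨆ μ, Module.End.eigenspace (A : Module.End ℂ H) μ)ᗮ := by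
      rw [← Submodule.iInf_orthogonal, Submodule.mem_iInf]
      intro μ
      rw [Submodule.mem_orthogonal]
      intro v hv
      have h1 : inner ℂ v (A f) = inner ℂ (A v) f := (hAs v f).symm
      rw [h1]
      have h2 : A v = μ • v := by
        rw [Module.End.mem_eigenspace_iff] at hv; exact hv
      rw [h2, inner_smul_left]
      by_cases hμ : μ = 0
      · simp [hμ]
      · rw [key μ hμ v hv, mul_zero]
    rw [hbot] at this
    simpa using this
  have : inner ℂ (T' f) (T' f) = 0 := by
    rw [← ContinuousLinearMap.adjoint_inner_right]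
    show inner ℂ f (T (T' f)) = 0
    have : T (T' f) = 0 := hAf
    rw [this, inner_zero_right]
  exact inner_self_eq_zero.1 this

theorem spectral {H : Type} [NormedAddCommGroup H] [InnerProductSpace ℂ H] [CompleteSpace H]
    {S : Type} [AddCommGroup S] [Module ℂ S] (ι : S →ₗ[ℂ] H) (hι : Function.Injective ι)
    (C : Module.End ℂ S) (hC : ∀ F G, inner ℂ (ι (C F)) (ι G) = inner ℂ (ι F) (ι (C G)))
    (𝒯 : Set (H →L[ℂ] H)) (hcomp : ∀ T ∈ 𝒯, IsCompactOperator T)
    (hadj : ∀ T ∈ 𝒯, ContinuousLinearMap.adjoint T ∈ 𝒯)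
    (hran : ∀ T ∈ 𝒯, ∀ f, ∃ F, ι F = T f)
    (hcom : ∀ T ∈ 𝒯, ∀ F G, ι G = T (ι F) → ι (C G) = T (ι (C F)))
    (htot : ∀ f, (∀ T ∈ 𝒯, T f = 0) → f = 0)
    (hfin : ∀ lam : ℝ, FiniteDimensional ℂ (Module.End.eigenspace C (lam : ℂ)))
    (T₁ T₂ : H →L[ℂ] H) (R : Module.End ℂ S) (hR : ∀ F, ι (R F) = T₁ (T₂ (ι F)))
    (hRC : Commute R C)
    (V : ℂ) (hV : ∀ (κ : Type) (b : HilbertBasis κ ℂ H),
      Summable (fun i => ‖inner ℂ (b i) (T₁ (T₂ (b i)))‖) ∧
        HasSum (fun i => inner ℂ (b i) (T₁ (T₂ (b i)))) V) :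
    Summable (fun lam : ℝ => ‖LinearMap.trace ℂ (Module.End.eigenspace C (lam : ℂ))
      (R.restrict (Module.End.mapsTo_genEigenspace_of_comm hRC.symm (lam : ℂ) 1))‖) ∧
    HasSum (fun lam : ℝ => LinearMap.trace ℂ (Module.End.eigenspace C (lam : ℂ))
      (R.restrict (Module.End.mapsTo_genEigenspace_of_comm hRC.symm (lam : ℂ) 1))) V := by
  classical
  -- the images of the eigenspaces
  let W : ℝ → Submodule ℂ H := fun lam => (Module.End.eigenspace C (lam : ℂ)).map ι
  have hWfin : ∀ lam, FiniteDimensional ℂ (W lam) := fun lam => by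
    have := hfin lam
    infer_instance
  let n : ℝ → ℕ := fun lam => Module.finrank ℂ (W lam)
  let b : ∀ lam, OrthonormalBasis (Fin (n lam)) ℂ (W lam) := fun lam => stdOrthonormalBasis ℂ (W lam)
  have hWo : OrthogonalFamily ℂ (fun lam => W lam) fun lam => (W lam).subtypeₗᵢ := by
    rintro lam mu hne ⟨v, hv⟩ ⟨w, hw⟩
    obtain ⟨F, hF, rfl⟩ := hv
    obtain ⟨G, hG, rfl⟩ := hw
    rw [SetLike.mem_coe, Module.End.mem_eigenspace_iff] at hF hG
    show inner ℂ (ι F) (ι G) = 0
    have h := hC F G
    rw [hF, hG, map_smul, map_smul, inner_smul_left, inner_smul_right, Complex.conj_ofReal] at h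
    have h' : ((lam : ℂ) - mu) * inner ℂ (ι F) (ι G) = 0 := by rw [sub_mul, h, sub_self]
    rcases mul_eq_zero.1 h' with h'' | h''
    · exact absurd (Complex.ofReal_injective (sub_eq_zero.1 h'')) hne
    · exact h''
  have hon : Orthonormal ℂ (fun a : Σ lam, Fin (n lam) => ((b a.1 a.2 : W a.1) : H)) :=
    hWo.orthonormal_sigma_orthonormal (v_family := fun lam => b lam)
      (fun lam => (b lam).orthonormal)
  have hdense : (Submodule.span ℂ (Set.range
      (fun a : Σ lam, Fin (n lam) => ((b a.1 a.2 : W a.1) : H))))ᗮ = ⊥ := by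
    rw [eq_bot_iff]
    intro f hf
    rw [Submodule.mem_orthogonal] at hf
    rw [Submodule.mem_bot]
    refine Spec_dense ι hι C hC 𝒯 hcomp hadj hran hcom htot f ?_
    intro lam F hF
    have hmem : ι F ∈ W lam := ⟨F, Module.End.mem_eigenspace_iff.2 hF, rfl⟩
    refine hf _ ?_
    have h1 : (⟨ι F, hmem⟩ : W lam) = ∑ i, (b lam).repr ⟨ι F, hmem⟩ i • b lam i :=
      ((b lam).sum_repr _).symm
    have h2 : ι F = ∑ i, (b lam).repr ⟨ι F, hmem⟩ i • ((b lam i : W lam) : H) := by
      have := congrArg (Subtype.val) h1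
      simpa using this
    rw [h2]
    exact Submodule.sum_mem _ fun i _ => Submodule.smul_mem _ _
      (Submodule.subset_span ⟨⟨lam, i⟩, rfl⟩)
  let B : HilbertBasis (Σ lam, Fin (n lam)) ℂ H := HilbertBasis.mkOfOrthogonalEqBot hon hdense
  have hB : ∀ a : Σ lam, Fin (n lam), B a = ((b a.1 a.2 : W a.1) : H) := fun a => by
    simp only [B, HilbertBasis.coe_mkOfOrthogonalEqBot]
  obtain ⟨hs1, hs2⟩ := hV _ B
  have htr : ∀ lam : ℝ, LinearMap.trace ℂ (Module.End.eigenspace C (lam : ℂ))
      (R.restrict (Module.End.mapsTo_genEigenspace_of_comm hRC.symm (lam : ℂ) 1)) =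
      ∑ i : Fin (n lam), inner ℂ (B ⟨lam, i⟩) (T₁ (T₂ (B ⟨lam, i⟩))) := by
    intro lam
    have := hfin lam
    let e : (Module.End.eigenspace C (lam : ℂ)) ≃ₗ[ℂ] W lam :=
      Submodule.equivMapOfInjective ι hι _
    rw [← LinearMap.trace_conj' _ e, LinearMap.trace_eq_sum_inner _ (b lam)]
    refine Finset.sum_congr rfl fun i _ => ?_
    rw [hB]
    show inner ℂ ((b lam i : W lam) : H) _ = _
    congr 1
    rw [LinearEquiv.conj_apply_apply]
    have h1 : ((b lam i : W lam) : H) = ι ((e.symm (b lam i) : Module.End.eigenspace C (lam : ℂ)) : S) := by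
      have := congrArg Subtype.val (e.apply_symm_apply (b lam i))
      rw [← this]
      rfl
    rw [h1, ← hR]
    rfl
  constructor
  · have h := hs1.sigma
    refine Summable.of_nonneg_of_le (fun _ => norm_nonneg _) (fun lam => ?_) h
    rw [htr lam, tsum_fintype]
    exact norm_sum_le _ _
  · have := hs2.sigma (g := fun lam : ℝ => ∑ i : Fin (n lam),
      inner ℂ (B ⟨lam, i⟩) (T₁ (T₂ (B ⟨lam, i⟩)))) (fun lam => by
        simpa using hasSum_fintype (fun i : Fin (n lam) =>
          inner ℂ (B ⟨lam, i⟩) (T₁ (T₂ (B ⟨lam, i⟩)))))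
    rw [show (fun lam : ℝ => LinearMap.trace ℂ (Module.End.eigenspace C (lam : ℂ))
      (R.restrict (Module.End.mapsTo_genEigenspace_of_comm hRC.symm (lam : ℂ) 1))) = _ from
      funext htr]
    exact this

end

end Pool.Agent.Work.MP_14c213_gt
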