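import Pool.Agent.Work.MP_14c213_gt.A.Spec

/-!
Density of eigenvectors, same hypotheses as in Spec: a vector orthogonal to all eigenvectors is 0.
-/

namespace Pool.Agent.Work.MP_14c213_gt

open Matrix MeasureTheory
open scoped Matrix ContDiff Matrix.Norms.Elementwise

noncomputable section

theorem spectral_dense {H : Type} [NormedAddCommGroup H] [InnerProductSpace ℂ H] [CompleteSpace H]
    {S : Type} [AddCommGroup S] [Module ℂ S] (ι : S →ₗ[ℂ] H) (hι : Function.Injective ι)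
    (C : Module.End ℂ S) (hC : ∀ F G, inner ℂ (ι (C F)) (ι G) = inner ℂ (ι F) (ι (C G)))
    (𝒯 : Set (H →L[ℂ] H)) (hcomp : ∀ T ∈ 𝒯, IsCompactOperator T)
    (hadj : ∀ T ∈ 𝒯, ContinuousLinearMap.adjoint T ∈ 𝒯)
    (hran : ∀ T ∈ 𝒯, ∀ f, ∃ F, ι F = T f)
    (hcom : ∀ T ∈ 𝒯, ∀ F G, ι G = T (ι F) → ι (C G) = T (ι (C F)))
    (htot : ∀ f, (∀ T ∈ 𝒯, T f = 0) → f = 0) (f : H)
    (hf : ∀ (lam : ℝ) (F : S), C F = (lam : ℂ) • F → inner ℂ (ι F) f = 0) : f = 0 :=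
  Spec_dense ι hι C hC 𝒯 hcomp hadj hran hcom htot f hf

end

end Pool.Agent.Work.MP_14c213_gt
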