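import Pool.Agent.Work.MP_14c213_gt.A.PBound
import Pool.Agent.Work.MP_14c213_gt.A.DenseM

/-!
Eigenvalues near 0 of Q(Cas) + t H, H = c P^n + c̄ (P*)^n, for a suitable polynomial
Q = a (X - lam₀)^(2q): all eigensections with eigenvalue ν, |ν| < 1, lie in EL k Γ lam₀ where the
operator is tH. Project to EL k Γ lam: components F_λ satisfy the same equation (operators are
symmetric up to adjoint and preserve EL); ‖tH F_λ‖ ≤ t C^n 2 (1+|λ|)^n ‖F_λ‖ < (Q(λ) - 1)‖F_λ‖ for λ ≠ lam₀ in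
the spectrum (locally finite: EL_discrete, EL_bdd). Same Q for two groups, all |t| ≤ 1.
-/

namespace Pool.Agent.Work.MP_14c213_gt

open Matrix MeasureTheory
open scoped Matrix ContDiff Matrix.Norms.Elementwise

noncomputable section

/-- abstract form of the argument: `C` symmetric with eigenspace `W`, `P`, `PS` adjoint to each
other and preserving `W` with bounds on `W`. -/
private theorem proj_zero {H S : Type} [NormedAddCommGroup H] [InnerProductSpace ℂ H]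
    [CompleteSpace H] [AddCommGroup S] [Module ℂ S] (ι : S →ₗ[ℂ] H)
    (C P PS : Module.End ℂ S)
    (hC : ∀ F G, inner ℂ (ι (C F)) (ι G) = inner ℂ (ι F) (ι (C G)))
    (hP : ∀ F G, inner ℂ (ι (P F)) (ι G) = inner ℂ (ι F) (ι (PS G)))
    {lam lam₀ : ℝ} (W : Submodule ℂ S) [FiniteDimensional ℂ W]
    (hW : ∀ F ∈ W, C F = (lam : ℂ) • F) (hPW : ∀ F ∈ W, P F ∈ W) (hPSW : ∀ F ∈ W, PS F ∈ W)
    {B : ℝ} (hB : 0 ≤ B) (hPB : ∀ F ∈ W, ‖ι (P F)‖ ≤ B * ‖ι F‖)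
    (hPSB : ∀ F ∈ W, ‖ι (PS F)‖ ≤ B * ‖ι F‖) (n m : ℕ) (a : ℝ) (s : ℂ) {ν : ℝ}
    (hν : |ν| < 1) (hbig : 2 * ‖s‖ * B ^ n < a * (lam - lam₀) ^ m - 1) (F : S)
    (hF : (a : ℂ) • ((C - (lam₀ : ℂ) • (1 : Module.End ℂ S)) ^ m) F + s • (P ^ n) F +
      star s • (PS ^ n) F = (ν : ℂ) • F) :
    ∀ u ∈ W, inner ℂ (ι u) (ι F) = 0 := by
  -- adjoint relations
  have hPS : ∀ F G, inner ℂ (ι (PS F)) (ι G) = inner ℂ (ι F) (ι (P G)) := by
    intro F G
    rw [← inner_conj_symm, ← hP, inner_conj_symm]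
  have hPn : ∀ n : ℕ, ∀ F G, inner ℂ (ι ((P ^ n) F)) (ι G) = inner ℂ (ι F) (ι ((PS ^ n) G)) := by
    intro n
    induction n with
    | zero => intro F G; simp
    | succ n ih =>
      intro F G
      rw [pow_succ, Module.End.mul_apply, ih, hP, ← Module.End.mul_apply, ← pow_succ']
  have hPSn : ∀ n : ℕ, ∀ F G, inner ℂ (ι ((PS ^ n) F)) (ι G) = inner ℂ (ι F) (ι ((P ^ n) G)) := by
    intro n
    induction n with
    | zero => intro F G; simp
    | succ n ih =>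
      intro F G
      rw [pow_succ, Module.End.mul_apply, ih, hPS, ← Module.End.mul_apply, ← pow_succ']
  have hPnW : ∀ n : ℕ, ∀ F ∈ W, (P ^ n) F ∈ W ∧ ‖ι ((P ^ n) F)‖ ≤ B ^ n * ‖ι F‖ := by
    intro n
    induction n with
    | zero => intro F hF; simpa using hF
    | succ n ih =>
      intro F hF
      rw [pow_succ', Module.End.mul_apply]
      obtain ⟨h1, h2⟩ := ih F hF
      refine ⟨hPW _ h1, (hPB _ h1).trans ?_⟩
      rw [pow_succ', mul_assoc]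
      exact mul_le_mul_of_nonneg_left h2 hB
  have hPSnW : ∀ n : ℕ, ∀ F ∈ W, (PS ^ n) F ∈ W ∧ ‖ι ((PS ^ n) F)‖ ≤ B ^ n * ‖ι F‖ := by
    intro n
    induction n with
    | zero => intro F hF; simpa using hF
    | succ n ih =>
      intro F hF
      rw [pow_succ', Module.End.mul_apply]
      obtain ⟨h1, h2⟩ := ih F hF
      refine ⟨hPSW _ h1, (hPSB _ h1).trans ?_⟩
      rw [pow_succ', mul_assoc]
      exact mul_le_mul_of_nonneg_left h2 hB
  -- the polynomial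
  have hCm : ∀ m : ℕ, ∀ u ∈ W, ∀ G, inner ℂ (ι u)
      (ι (((C - (lam₀ : ℂ) • (1 : Module.End ℂ S)) ^ m) G)) =
        (((lam - lam₀) ^ m : ℝ) : ℂ) * inner ℂ (ι u) (ι G) := by
    intro m u hu
    induction m with
    | zero => intro G; simp
    | succ m ih =>
      intro G
      rw [pow_succ, Module.End.mul_apply, ih]
      have h1 : (C - (lam₀ : ℂ) • (1 : Module.End ℂ S)) G = C G - (lam₀ : ℂ) • G := by simp
      rw [h1, map_sub, map_smul, inner_sub_right, inner_smul_right, ← hC, hW u hu, map_smul,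
        inner_smul_left, Complex.conj_ofReal]
      push_cast
      ring
  -- the projection
  set W' : Submodule ℂ H := W.map ι with hW'
  haveI : FiniteDimensional ℂ W' := by rw [hW']; infer_instance
  obtain ⟨y, hy, z, hz, hyz⟩ := W'.exists_add_mem_mem_orthogonal (ι F)
  obtain ⟨u, hu, rfl⟩ := Submodule.mem_map.1 hy
  have hproj : ∀ w ∈ W, inner ℂ (ι w) (ι F) = inner ℂ (ι w) (ι u) := by
    intro w hw
    rw [hyz, inner_add_right, (Submodule.mem_orthogonal W' z).1 hz _ (Submodule.mem_map_of_mem hw),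
      add_zero]
  have h1 := congrArg (fun G => inner ℂ (ι u) (ι G)) hF
  simp only [map_add, map_smul, inner_add_right, inner_smul_right] at h1
  rw [hCm m u hu, ← hPSn, ← hPn, hproj _ (hPSnW n u hu).1, hproj _ (hPnW n u hu).1,
    hproj u hu] at h1
  have hu0 : ι u = 0 := by
    by_contra hne
    have hpos : 0 < ‖ι u‖ := norm_pos_iff.2 hne
    have h2 : inner ℂ (ι u) (ι u) = ((‖ι u‖ ^ 2 : ℝ) : ℂ) := by
      rw [inner_self_eq_norm_sq_to_K]
      push_cast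
      rfl
    rw [h2] at h1
    have h3 : (((a * (lam - lam₀) ^ m - ν) * ‖ι u‖ ^ 2 : ℝ) : ℂ) =
        -(s * inner ℂ (ι ((PS ^ n) u)) (ι u) + star s * inner ℂ (ι ((P ^ n) u)) (ι u)) := by
      push_cast
      push_cast at h1
      linear_combination h1
    have h4 := congrArg norm h3
    rw [Complex.norm_real, norm_neg] at h4
    have h5 : ‖s * inner ℂ (ι ((PS ^ n) u)) (ι u) + star s * inner ℂ (ι ((P ^ n) u)) (ι u)‖ ≤
        2 * ‖s‖ * B ^ n * ‖ι u‖ ^ 2 := by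
      refine (norm_add_le _ _).trans ?_
      rw [norm_mul, norm_mul, norm_star]
      have e1 : ‖(inner ℂ (ι ((PS ^ n) u)) (ι u) : ℂ)‖ ≤ B ^ n * ‖ι u‖ * ‖ι u‖ :=
        (norm_inner_le_norm _ _).trans
          (mul_le_mul_of_nonneg_right (hPSnW n u hu).2 (norm_nonneg _))
      have e2 : ‖(inner ℂ (ι ((P ^ n) u)) (ι u) : ℂ)‖ ≤ B ^ n * ‖ι u‖ * ‖ι u‖ :=
        (norm_inner_le_norm _ _).trans
          (mul_le_mul_of_nonneg_right (hPnW n u hu).2 (norm_nonneg _))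
      calc ‖s‖ * ‖(inner ℂ (ι ((PS ^ n) u)) (ι u) : ℂ)‖ +
            ‖s‖ * ‖(inner ℂ (ι ((P ^ n) u)) (ι u) : ℂ)‖
          ≤ ‖s‖ * (B ^ n * ‖ι u‖ * ‖ι u‖) + ‖s‖ * (B ^ n * ‖ι u‖ * ‖ι u‖) :=
            add_le_add (mul_le_mul_of_nonneg_left e1 (norm_nonneg _))
              (mul_le_mul_of_nonneg_left e2 (norm_nonneg _))
        _ = 2 * ‖s‖ * B ^ n * ‖ι u‖ ^ 2 := by ring
    have h6 : (a * (lam - lam₀) ^ m - ν) * ‖ι u‖ ^ 2 ≤ 2 * ‖s‖ * B ^ n * ‖ι u‖ ^ 2 := by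
      refine (le_abs_self _).trans ?_
      rw [← Real.norm_eq_abs, h4]
      exact h5
    have h7 : 2 * ‖s‖ * B ^ n < a * (lam - lam₀) ^ m - ν := by
      have := (abs_lt.1 hν).2
      linarith
    have h8 : 0 < ‖ι u‖ ^ 2 := by positivity
    have h9 := mul_lt_mul_of_pos_right h7 h8
    linarith
  intro w hw
  rw [hproj w hw, hu0, inner_zero_right]

private theorem PSL_mapsTo' (k : ℕ) (Γ : Subgroup (Mat 3)ˣ) (lam : ℝ) :
    ∀ F ∈ EL k Γ lam, PSL k Γ F ∈ EL k Γ lam := by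
  intro F hF
  unfold EL at hF ⊢
  rw [Module.End.mem_eigenspace_iff] at hF ⊢
  have h := LinearMap.congr_fun (Cas_PS_comm k Γ).eq F
  have h2 : CasL k Γ (PSL k Γ F) = PSL k Γ (CasL k Γ F) := h
  rw [h2, hF, map_smul]

private theorem near_one {k : ℕ} {Γ : Subgroup (Mat 3)ˣ} {D : Set UH} (h : Klein Γ) (hD : FD Γ D)
    (lam₀ : ℝ) (n m : ℕ) (hm : m ≠ 0) (a : ℝ) (c : ℂ) {C : ℝ} (hC0 : 0 ≤ C)
    (hC : ∀ (lam : ℝ), ∀ F ∈ EL k Γ lam,
      (ip k D (PL k Γ F).1 (PL k Γ F).1).re ≤ C * (1 + |lam|) ^ 2 * (ip k D F.1 F.1).re ∧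
      (ip k D (PSL k Γ F).1 (PSL k Γ F).1).re ≤ C * (1 + |lam|) ^ 2 * (ip k D F.1 F.1).re)
    (hbig : ∀ lam : ℝ, EL k Γ lam ≠ ⊥ → lam ≠ lam₀ →
      2 * ‖c‖ * (Real.sqrt C * (1 + |lam|)) ^ n < a * (lam - lam₀) ^ m - 1)
    {t ν : ℝ} (ht : |t| ≤ 1) (hν : |ν| < 1) (F : Sect (tau k) Γ) :
    (a : ℂ) • ((CasL k Γ - (lam₀ : ℂ) • (1 : Module.End ℂ (Sect (tau k) Γ))) ^ m) F +
      (t * c) • (PL k Γ ^ n) F + star (t * c) • (PSL k Γ ^ n) F = (ν : ℂ) • F ↔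
    F ∈ EL k Γ lam₀ ∧
      (t * c) • (PL k Γ ^ n) F + star (t * c) • (PSL k Γ ^ n) F = (ν : ℂ) • F := by
  have hzero : ∀ F ∈ EL k Γ lam₀,
      ((CasL k Γ - (lam₀ : ℂ) • (1 : Module.End ℂ (Sect (tau k) Γ))) ^ m) F = 0 := by
    intro F hF
    obtain ⟨m', rfl⟩ := Nat.exists_eq_succ_of_ne_zero hm
    unfold EL at hF
    rw [Module.End.mem_eigenspace_iff] at hF
    rw [pow_succ, Module.End.mul_apply]
    have h1 : (CasL k Γ - (lam₀ : ℂ) • (1 : Module.End ℂ (Sect (tau k) Γ))) F =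
        CasL k Γ F - (lam₀ : ℂ) • F := rfl
    rw [h1, hF, sub_self, map_zero]
  constructor
  · intro hF
    suffices hmem : F ∈ EL k Γ lam₀ by
      refine ⟨hmem, ?_⟩
      rwa [hzero F hmem, smul_zero, zero_add] at hF
    obtain ⟨ι, hinj, -, hip⟩ := emb_exists (k := k) h hD
    have hfd : ∀ lam : ℝ, FiniteDimensional ℂ (EL k Γ lam) := fun lam => EL_fin h k lam
    have hCs : ∀ F G, inner ℂ (ι (CasL k Γ F)) (ι G) = inner ℂ (ι F) (ι (CasL k Γ G)) := by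
      intro F G
      rw [hip, hip]
      exact Cas_symm h hD F G
    have hPs : ∀ F G, inner ℂ (ι (PL k Γ F)) (ι G) = inner ℂ (ι F) (ι (PSL k Γ G)) := by
      intro F G
      rw [hip, hip]
      exact P_adj h hD F G
    have hnorm : ∀ G : Sect (tau k) Γ, ‖ι G‖ ^ 2 = (ip k D G.1 G.1).re := by
      intro G
      rw [← hip, inner_self_eq_norm_sq_to_K]
      norm_cast
    have hbd : ∀ (lam : ℝ) (G G' : Sect (tau k) Γ),
        (ip k D G'.1 G'.1).re ≤ C * (1 + |lam|) ^ 2 * (ip k D G.1 G.1).re →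
        ‖ι G'‖ ≤ Real.sqrt C * (1 + |lam|) * ‖ι G‖ := by
      intro lam G G' hle
      rw [← hnorm, ← hnorm] at hle
      refine abs_le_of_sq_le_sq' ?_ (by positivity) |>.2
      rw [mul_pow, mul_pow, Real.sq_sqrt hC0]
      exact hle
    -- orthogonality to the other eigenspaces
    have horth : ∀ lam : ℝ, lam ≠ lam₀ → ∀ u ∈ EL k Γ lam, inner ℂ (ι u) (ι F) = 0 := by
      intro lam hlam u hu
      by_cases hbot : EL k Γ lam = ⊥
      · rw [hbot, Submodule.mem_bot] at hu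
        rw [hu, map_zero, inner_zero_left]
      · haveI := hfd lam
        refine proj_zero ι (CasL k Γ) (PL k Γ) (PSL k Γ) hCs hPs (lam := lam) (lam₀ := lam₀)
          (EL k Γ lam) ?_ (PL_mapsTo k Γ lam) (PSL_mapsTo' k Γ lam)
          (B := Real.sqrt C * (1 + |lam|)) (by positivity)
          (fun G hG => hbd lam G _ (hC lam G hG).1) (fun G hG => hbd lam G _ (hC lam G hG).2)
          n m a (t * c) hν ?_ F hF u hu
        · intro G hG
          unfold EL at hG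
          rwa [Module.End.mem_eigenspace_iff] at hG
        · refine lt_of_le_of_lt ?_ (hbig lam hbot hlam)
          have h1 : ‖(t : ℂ) * c‖ ≤ ‖c‖ := by
            rw [norm_mul, Complex.norm_real, Real.norm_eq_abs]
            calc |t| * ‖c‖ ≤ 1 * ‖c‖ := mul_le_mul_of_nonneg_right ht (norm_nonneg _)
              _ = ‖c‖ := one_mul _
          gcongr
    -- projection to the eigenspace of lam₀
    haveI := hfd lam₀
    set W' : Submodule ℂ (Hk k D) := (EL k Γ lam₀).map ι with hW'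
    haveI : FiniteDimensional ℂ W' := by rw [hW']; infer_instance
    obtain ⟨y, hy, z, hz, hyz⟩ := W'.exists_add_mem_mem_orthogonal (ι F)
    obtain ⟨F₀, hF₀, rfl⟩ := Submodule.mem_map.1 hy
    have hG : F - F₀ = 0 := by
      refine EL_dense h hD (F - F₀) fun lam u hu => ?_
      rw [← hip, map_sub, inner_sub_right]
      by_cases hlam : lam = lam₀
      · rw [hlam] at hu
        rw [hyz, inner_add_right,
          (Submodule.mem_orthogonal W' z).1 hz _ (Submodule.mem_map_of_mem hu)]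
        ring
      · rw [horth lam hlam u hu, hip, EL_orth h hD k hlam hu hF₀, sub_zero]
    rw [sub_eq_zero] at hG
    rw [hG]
    exact hF₀
  · rintro ⟨hmem, hF⟩
    rw [hzero F hmem, smul_zero, zero_add]
    exact hF

private theorem gap {Γ : Subgroup (Mat 3)ˣ} (h : Klein Γ) (k : ℕ) (lam₀ : ℝ) :
    ∃ δ : ℝ, 0 < δ ∧ δ ≤ 1 ∧ ∀ lam : ℝ, EL k Γ lam ≠ ⊥ → lam ≠ lam₀ → δ ≤ |lam - lam₀| := by
  set S := {lam : ℝ | lam ≤ lam₀ + 1 ∧ EL k Γ lam ≠ ⊥} \ {lam₀} with hS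
  have hfin : S.Finite := (EL_discrete h k (lam₀ + 1)).subset Set.sdiff_subset
  have hnh : Sᶜ ∈ nhds lam₀ := hfin.isClosed.isOpen_compl.mem_nhds (fun hc => hc.2 rfl)
  obtain ⟨ε, hε, hball⟩ := Metric.mem_nhds_iff.1 hnh
  refine ⟨min ε 1, lt_min hε one_pos, min_le_right _ _, fun lam hlam hne => ?_⟩
  by_cases hle : lam ≤ lam₀ + 1
  · refine (min_le_left _ _).trans ?_
    by_contra hlt
    have h1 : lam ∈ Metric.ball lam₀ ε := by
      rw [Metric.mem_ball, Real.dist_eq]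
      exact not_le.1 hlt
    exact hball h1 ⟨⟨hle, hlam⟩, hne⟩
  · refine (min_le_right _ _).trans ?_
    rw [le_abs]
    left
    linarith [not_le.1 hle]

private theorem choose_a (lam₀ δ r c : ℝ) (n : ℕ) (hδ : 0 < δ) (hr : 0 ≤ r) (hc : 0 ≤ c) :
    ∃ a : ℝ, 0 < a ∧ ∀ lam : ℝ, δ ≤ |lam - lam₀| →
      2 * c * (r * (1 + |lam|)) ^ n < a * (lam - lam₀) ^ (2 * (n + 1)) - 1 := by
  set K : ℝ := (1 + |lam₀|) / δ + 1 with hK
  have hK0 : 0 ≤ K := by positivity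
  set a : ℝ := 2 / δ ^ (2 * (n + 1)) + 2 * c * (r * K) ^ n / δ ^ (n + 2) with ha
  have ha0 : 0 < a := by positivity
  refine ⟨a, ha0, fun lam hlam => ?_⟩
  set x := |lam - lam₀| with hx
  have hx0 : 0 < x := lt_of_lt_of_le hδ hlam
  have e1 : (lam - lam₀) ^ (2 * (n + 1)) = x ^ (2 * (n + 1)) := by
    rw [hx, pow_mul, pow_mul, sq_abs]
  have h1 : 1 + |lam| ≤ K * x := by
    have h2 : |lam| ≤ |lam₀| + x := by
      have := abs_add_le lam₀ (lam - lam₀)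
      rwa [add_sub_cancel] at this
    have h3 : 1 + |lam₀| ≤ (1 + |lam₀|) / δ * x := by
      rw [div_mul_eq_mul_div, le_div_iff₀ hδ]
      exact mul_le_mul_of_nonneg_left hlam (by positivity)
    calc 1 + |lam| ≤ (1 + |lam₀|) + x := by linarith
      _ ≤ (1 + |lam₀|) / δ * x + x := by linarith
      _ = K * x := by rw [hK]; ring
  have h4 : (r * (1 + |lam|)) ^ n ≤ (r * K) ^ n * x ^ n := by
    rw [← mul_pow, mul_assoc]
    refine pow_le_pow_left₀ (by positivity) ?_ n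
    exact mul_le_mul_of_nonneg_left h1 hr
  have h5 : x ^ (2 * (n + 1)) = x ^ n * x ^ (n + 2) := by
    rw [← pow_add]
    congr 1
    ring
  have h6 : δ ^ (n + 2) ≤ x ^ (n + 2) := pow_le_pow_left₀ hδ.le hlam _
  have h7 : δ ^ (2 * (n + 1)) ≤ x ^ (2 * (n + 1)) := pow_le_pow_left₀ hδ.le hlam _
  have h8 : 2 ≤ 2 / δ ^ (2 * (n + 1)) * x ^ (2 * (n + 1)) := by
    rw [div_mul_eq_mul_div, le_div_iff₀ (by positivity)]
    exact mul_le_mul_of_nonneg_left h7 (by norm_num)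
  have h9 : 2 * c * (r * K) ^ n * x ^ n ≤
      2 * c * (r * K) ^ n / δ ^ (n + 2) * x ^ (2 * (n + 1)) := by
    rw [div_mul_eq_mul_div, le_div_iff₀ (by positivity), h5]
    calc 2 * c * (r * K) ^ n * x ^ n * δ ^ (n + 2)
        ≤ 2 * c * (r * K) ^ n * x ^ n * x ^ (n + 2) :=
          mul_le_mul_of_nonneg_left h6 (by positivity)
      _ = 2 * c * (r * K) ^ n * (x ^ n * x ^ (n + 2)) := by ring
  rw [e1]
  have h10 : 2 * c * (r * (1 + |lam|)) ^ n ≤ 2 * c * ((r * K) ^ n * x ^ n) :=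
    mul_le_mul_of_nonneg_left h4 (by positivity)
  have h11 : a * x ^ (2 * (n + 1)) = 2 / δ ^ (2 * (n + 1)) * x ^ (2 * (n + 1)) +
      2 * c * (r * K) ^ n / δ ^ (n + 2) * x ^ (2 * (n + 1)) := by
    rw [ha]
    ring
  rw [h11]
  linarith

theorem near_zero {k : ℕ} {Γ₁ Γ₂ : Subgroup (Mat 3)ˣ} (h₁ : Klein Γ₁) (h₂ : Klein Γ₂) (lam₀ : ℝ)
    (n : ℕ) (c : ℂ) :
    ∃ Q : Polynomial ℝ, n < Q.natDegree ∧ 0 < Q.leadingCoeff ∧
      ∀ (t : ℝ), |t| ≤ 1 → ∀ (ν : ℝ), |ν| < 1 → ∀ Γ, (Γ = Γ₁ ∨ Γ = Γ₂) →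
        ∀ F : Sect (tau k) Γ,
          ((Polynomial.aeval (CasL k Γ) (Q.map (algebraMap ℝ ℂ))) F +
            (t * c) • (PL k Γ ^ n) F + star (t * c) • (PSL k Γ ^ n) F = (ν : ℂ) • F ↔
          F ∈ EL k Γ lam₀ ∧
            (t * c) • (PL k Γ ^ n) F + star (t * c) • (PSL k Γ ^ n) F = (ν : ℂ) • F) := by
  obtain ⟨D₁, hD₁⟩ := FD_exists h₁
  obtain ⟨D₂, hD₂⟩ := FD_exists h₂
  obtain ⟨C₁, hC₁⟩ := P_bound (k := k) h₁ hD₁
  obtain ⟨C₂, hC₂⟩ := P_bound (k := k) h₂ hD₂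
  obtain ⟨δ₁, hδ₁, -, hg₁⟩ := gap h₁ k lam₀
  obtain ⟨δ₂, hδ₂, -, hg₂⟩ := gap h₂ k lam₀
  set C : ℝ := max 0 (max C₁ C₂) with hC
  have hC0 : 0 ≤ C := le_max_left _ _
  have hC1 : C₁ ≤ C := (le_max_left _ _).trans (le_max_right _ _)
  have hC2 : C₂ ≤ C := (le_max_right _ _).trans (le_max_right _ _)
  obtain ⟨a, ha, hbig⟩ := choose_a lam₀ (min δ₁ δ₂) (Real.sqrt C) ‖c‖ n (lt_min hδ₁ hδ₂)
    (Real.sqrt_nonneg _) (norm_nonneg _)
  have ha' : Polynomial.C a ≠ 0 := by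
    rw [Ne, Polynomial.C_eq_zero]
    exact ha.ne'
  have hmono : ∀ {Γ : Subgroup (Mat 3)ˣ} {D : Set UH} (h : Klein Γ) (hD : FD Γ D) {C' : ℝ},
      C' ≤ C → (∀ (lam : ℝ), ∀ F ∈ EL k Γ lam,
      (ip k D (PL k Γ F).1 (PL k Γ F).1).re ≤ C' * (1 + |lam|) ^ 2 * (ip k D F.1 F.1).re ∧
      (ip k D (PSL k Γ F).1 (PSL k Γ F).1).re ≤ C' * (1 + |lam|) ^ 2 * (ip k D F.1 F.1).re) →
      (∀ (lam : ℝ), ∀ F ∈ EL k Γ lam,
      (ip k D (PL k Γ F).1 (PL k Γ F).1).re ≤ C * (1 + |lam|) ^ 2 * (ip k D F.1 F.1).re ∧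
      (ip k D (PSL k Γ F).1 (PSL k Γ F).1).re ≤ C * (1 + |lam|) ^ 2 * (ip k D F.1 F.1).re) := by
    intro Γ D h hD C' hle hb lam F hF
    have h0 : 0 ≤ (ip k D F.1 F.1).re := (ip_nonneg h hD F.2.2.1.continuousOn).1
    have h1 : C' * (1 + |lam|) ^ 2 * (ip k D F.1 F.1).re ≤
        C * (1 + |lam|) ^ 2 * (ip k D F.1 F.1).re := by gcongr
    exact ⟨(hb lam F hF).1.trans h1, (hb lam F hF).2.trans h1⟩
  refine ⟨Polynomial.C a * (Polynomial.X - Polynomial.C lam₀) ^ (2 * (n + 1)), ?_, ?_, ?_⟩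
  · rw [Polynomial.natDegree_C_mul ha.ne', Polynomial.natDegree_pow,
      Polynomial.natDegree_X_sub_C]
    omega
  · rw [Polynomial.leadingCoeff_mul, Polynomial.leadingCoeff_C, Polynomial.leadingCoeff_pow,
      Polynomial.leadingCoeff_X_sub_C, one_pow, mul_one]
    exact ha
  · intro t ht ν hν Γ hΓ F
    have e1 : (Polynomial.aeval (CasL k Γ) ((Polynomial.C a *
        (Polynomial.X - Polynomial.C lam₀) ^ (2 * (n + 1))).map (algebraMap ℝ ℂ))) F =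
        (a : ℂ) • ((CasL k Γ - (lam₀ : ℂ) • (1 : Module.End ℂ (Sect (tau k) Γ))) ^
          (2 * (n + 1))) F := by
      simp only [Polynomial.map_mul, Polynomial.map_C, Polynomial.map_pow, Polynomial.map_sub,
        Polynomial.map_X, map_mul, map_pow, map_sub, Polynomial.aeval_C, Polynomial.aeval_X,
        Complex.coe_algebraMap]
      rw [Algebra.algebraMap_eq_smul_one, Algebra.algebraMap_eq_smul_one, smul_mul_assoc, one_mul,
        LinearMap.smul_apply]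
    rw [e1]
    rcases hΓ with rfl | rfl
    · exact near_one h₁ hD₁ lam₀ n _ (by omega) a c hC0 (hmono h₁ hD₁ hC1 hC₁)
        (fun lam hl hne => hbig lam ((min_le_left _ _).trans (hg₁ lam hl hne))) ht hν F
    · exact near_one h₂ hD₂ lam₀ n _ (by omega) a c hC0 (hmono h₂ hD₂ hC2 hC₂)
        (fun lam hl hne => hbig lam ((min_le_right _ _).trans (hg₂ lam hl hne))) ht hν F

end

end Pool.Agent.Work.MP_14c213_gt
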