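import Pool.Agent.Work.MP_14c213_gt.A.EmbM
import Pool.Agent.Work.MP_14c213_gt.A.KerM
import Pool.Agent.Work.MP_14c213_gt.A.RAM
import Pool.Agent.Work.MP_14c213_gt.A.Unf
import Pool.Agent.Work.MP_14c213_gt.A.RAP

/-!
The operators with automorphic kernel on L²(D).
(1) T_A (ι F) = ι (RA F): unfold the integral over UHs (unfold_integral) and use equivariance of F.
(2) smooth A: T_A f is a smooth section: G g = ∫_D ker (Phi g) (SS q) *ᵥ f q dmu, differentiate under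
the integral using ker_local; Γ-invariance and equivariance from KerM.
The kernel on D × D is extended by 0 outside D.
-/

namespace Pool.Agent.Work.MP_14c213_gt

open Matrix MeasureTheory
open scoped Matrix ContDiff Matrix.Norms.Elementwise

noncomputable section

/-- The kernel on the domain. -/
def kD (k : ℕ) (Γ : Subgroup (Mat 3)ˣ) (D : Set UH) (A : ℝ → ℝ) (p q : UH) :
    Matrix (Ix k) (Ix k) ℂ :=
  open Classical in if p ∈ D ∧ q ∈ D then ker k Γ A (SS p) (SS q) else 0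

theorem kD_apply {k : ℕ} {Γ : Subgroup (Mat 3)ˣ} {D : Set UH} {A : ℝ → ℝ} {p q : UH} (hp : p ∈ D)
    (hq : q ∈ D) : kD k Γ D A p q = ker k Γ A (SS p) (SS q) := by
  unfold kD
  rw [if_pos ⟨hp, hq⟩]

theorem kD_zero {k : ℕ} {Γ : Subgroup (Mat 3)ˣ} {D : Set UH} {A : ℝ → ℝ} {p q : UH}
    (h : ¬ (p ∈ D ∧ q ∈ D)) : kD k Γ D A p q = 0 := by
  unfold kD
  rw [if_neg h]

theorem kD_ker {k : ℕ} {Γ : Subgroup (Mat 3)ˣ} {D : Set UH} (h : Klein Γ) (hD : FD Γ D)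
    {A : ℝ → ℝ} (hA : Prof A) : Ker (kD k Γ D A) := by
  classical
  refine ⟨fun a b => ?_, ?_⟩
  · have h1 : ContinuousOn (fun p : UH × UH => ker k Γ A (SS p.1) (SS p.2) a b) (D ×ˢ D) :=
      (continuous_apply_apply a b).comp_continuousOn
        ((ker_cont h hA).mono (Set.prod_mono hD.sub hD.sub))
    have h2 := h1.measurable_piecewise (g := fun _ => (0 : ℂ)) continuousOn_const
      (hD.meas.prod hD.meas)
    convert h2 using 1
    funext p
    by_cases hp : p ∈ D ×ˢ D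
    · rw [Set.piecewise_eq_of_mem _ _ _ hp, kD_apply hp.1 hp.2]
    · rw [Set.piecewise_eq_of_notMem _ _ _ hp, kD_zero hp]
      rfl
  · obtain ⟨K, hK, hKs, hDK⟩ := hD.bdd
    obtain ⟨M, hM⟩ := ker_bdd (k := k) h hA hK hKs
    refine ⟨max M 0, fun x y a b => ?_⟩
    by_cases hxy : x ∈ D ∧ y ∈ D
    · rw [kD_apply hxy.1 hxy.2]
      exact (hM x (hDK hxy.1) y (hDK hxy.2) a b).trans (le_max_left _ _)
    · rw [kD_zero hxy]
      simp

/-- how frames and sections change under an isometry -/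
theorem tam_act {k : ℕ} {Γ : Subgroup (Mat 3)ˣ} {F : M2 → Ix k → ℂ} (hF : F ∈ Sect (tau k) Γ)
    {x : M2} (hx : x ∈ GLo) {q : UH} (hq : q ∈ UHs) :
    ∃ m ∈ Matrix.orthogonalGroup (Fin 3) ℝ, SS (act (Phi x) q) = Phi x * SS q * rot m ∧
      F (sec (act (Phi x) q)) = tau k mᵀ *ᵥ F (x * sec q) := by
  obtain ⟨z, hz, v, hv, he⟩ := act_sec hx hq
  have hvG := ram_unitary_GLo hv
  have hsG := sec_mem hq
  have hxs := GLo_mul hx hsG
  refine ⟨Rot v, (Phi_unitary hv).2.1, ?_, ?_⟩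
  · unfold SS
    rw [he, Phi_smul hz, Phi_mul hxs hvG, Phi_mul hx hsG, (Phi_unitary hv).1]
  · rw [he, hF.2.2.1 z hz _ (GLo_mul hxs hvG), hF.2.2.2.2 v hv _ hxs]

private theorem tam_col (M : Mat 3) (b : Matrix (Fin 3) (Fin 3) ℝ) :
    (M * rot b) 0 0 = M 0 0 := by
  simp [Matrix.mul_apply, rot, Fin.sum_univ_succ]

private theorem tam_cancel {k : ℕ} {m : Matrix (Fin 3) (Fin 3) ℝ}
    (hm : m ∈ Matrix.orthogonalGroup (Fin 3) ℝ) (M : Mat 3) (v : Ix k → ℂ) :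
    rho k (M * rot m) *ᵥ (tau k mᵀ *ᵥ v) = rho k M *ᵥ v := by
  have h1 : m * mᵀ = 1 := (Matrix.mem_orthogonalGroup_iff (Fin 3) ℝ).1 hm
  unfold tau
  rw [Matrix.mulVec_mulVec, ← rho_mul, mul_assoc, ← rot_mul, h1, rot_one, mul_one]

/-- the point pair invariant applied to a section, as an integral over the whole space -/
def tamf (k : ℕ) (A : ℝ → ℝ) (F : M2 → Ix k → ℂ) (p q : UH) : Ix k → ℂ :=
  ((A (2 * ((SS p)⁻¹ * SS q) 0 0) : ℝ) : ℂ) • (rho k ((SS p)⁻¹ * SS q) *ᵥ F (sec q))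

theorem tamf_int {k : ℕ} {A : ℝ → ℝ} (hA : Prof A) {F : M2 → Ix k → ℂ}
    (hF : ContinuousOn F GLo) {p : UH} (hp : p ∈ UHs) : IntegrableOn (tamf k A F p) UHs mu := by
  obtain ⟨M, hM⟩ := hA.supp
  have hps : ({p} : Set UH) ⊆ UHs := Set.singleton_subset_iff.2 hp
  have hK := dist_compact isCompact_singleton hps (M / 2)
  set K : Set UH := {q | q ∈ UHs ∧ ∃ p' ∈ ({p} : Set UH), ((SS p')⁻¹ * SS q) 0 0 ≤ M / 2} with hKd
  have hKs : K ⊆ UHs := fun q hq => hq.1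
  have c1 : ContinuousOn (fun q => (SS p)⁻¹ * SS q) UHs :=
    continuousOn_const.mul SS_smooth.continuousOn
  have c2 : ContinuousOn (fun q => ((SS p)⁻¹ * SS q) 0 0) UHs :=
    (continuous_apply_apply 0 0).comp_continuousOn c1
  have c3 : ContinuousOn (fun q => ((A (2 * ((SS p)⁻¹ * SS q) 0 0) : ℝ) : ℂ)) UHs :=
    (Complex.continuous_ofReal.comp hA.cont).comp_continuousOn (continuousOn_const.mul c2)
  have c4 : ContinuousOn (fun q => rho k ((SS p)⁻¹ * SS q)) UHs :=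
    (rho_smooth k).continuous.comp_continuousOn c1
  have c5 : ContinuousOn (fun q => F (sec q)) UHs :=
    hF.comp sec_smooth.continuous.continuousOn fun q hq => sec_mem hq
  have c6 : ContinuousOn (fun q => rho k ((SS p)⁻¹ * SS q) *ᵥ F (sec q)) UHs :=
    ((rapB k).continuous.comp_continuousOn c4).clm_apply c5
  have c7 : ContinuousOn (tamf k A F p) UHs := c3.smul c6
  have : IsFiniteMeasure (mu.restrict K) :=
    ⟨by rw [Measure.restrict_apply_univ]; exact mu_finite hK hKs⟩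
  obtain ⟨C, hC⟩ := hK.exists_bound_of_continuousOn (c7.mono hKs)
  refine IntegrableOn.of_forall_sdiff_eq_zero (s := K) ?_ UHs_open.measurableSet ?_
  · exact Integrable.of_bound ((c7.mono hKs).aestronglyMeasurable hK.measurableSet) C
      ((ae_restrict_iff' hK.measurableSet).2 (ae_of_all _ hC))
  · intro q hq
    unfold tamf
    have h0 : A (2 * ((SS p)⁻¹ * SS q) 0 0) = 0 := by
      apply hM
      by_contra hc
      apply hq.2
      refine ⟨hq.1, p, rfl, ?_⟩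
      linarith
    rw [h0, Complex.ofReal_zero, zero_smul]

theorem tamf_RA {k : ℕ} {Γ : Subgroup (Mat 3)ˣ} {A : ℝ → ℝ} {F : M2 → Ix k → ℂ}
    (hF : F ∈ Sect (tau k) Γ) {p : UH} (hp : p ∈ UHs) :
    RA k A F (sec p) = ∫ q in UHs, tamf k A F p q ∂mu := by
  have hs := sec_mem hp
  have hSO : Phi (sec p) ∈ SO := Phi_SO hs
  have hinv := (Frames_inv hSO.1).2.2.2.2
  conv_rhs => rw [← ram_act_image hSO]
  rw [act_integral hSO _ UHs_open.measurableSet subset_rfl]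
  unfold RA
  rw [if_neg hs]
  refine setIntegral_congr_fun UHs_open.measurableSet fun q hq => ?_
  obtain ⟨m, hm, h1, h2⟩ := tam_act hF hs hq
  have e : (SS p)⁻¹ * SS (act (Phi (sec p)) q) = SS q * rot m := by
    rw [h1]
    show (Phi (sec p))⁻¹ * (Phi (sec p) * SS q * rot m) = _
    rw [← mul_assoc, ← mul_assoc, hinv, one_mul]
  unfold tamf
  rw [e, tam_col, h2, tam_cancel hm]

theorem tamf_unfold {k : ℕ} {Γ : Subgroup (Mat 3)ˣ} {D : Set UH} (h : Klein Γ) (hD : FD Γ D)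
    {A : ℝ → ℝ} (hA : Prof A) {F : M2 → Ix k → ℂ} (hF : F ∈ Sect (tau k) Γ) {p : UH}
    (hp : p ∈ UHs) : ∫ q in UHs, tamf k A F p q ∂mu =
      ∫ q in D, ker k Γ A (SS p) (SS q) *ᵥ F (sec q) ∂mu := by
  rw [unfold_integral h hD (tamf_int hA hF.2.1.continuousOn hp)]
  refine setIntegral_congr_fun hD.meas fun q hq => ?_
  have hqU := hD.sub hq
  have hterm : ∀ γ : Γ, tamf k A F p (act ((γ : (Mat 3)ˣ) : Mat 3) q) =
      (((A (2 * ((SS p)⁻¹ * ((γ : (Mat 3)ˣ) : Mat 3) * SS q) 0 0) : ℝ) : ℂ) •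
        rho k ((SS p)⁻¹ * ((γ : (Mat 3)ˣ) : Mat 3) * SS q)) *ᵥ F (sec q) := by
    intro γ
    obtain ⟨x, hx, hxγ⟩ := Phi_surj (Klein_SO h γ.2)
    obtain ⟨m, hm, h1, h2⟩ := tam_act hF hx hqU
    rw [hxγ] at h1 h2
    have h3 : F (x * sec q) = F (sec q) := hF.2.2.2.1 _ γ.2 x hx hxγ _ (sec_mem hqU)
    have e : (SS p)⁻¹ * SS (act ((γ : (Mat 3)ˣ) : Mat 3) q) =
        (SS p)⁻¹ * ((γ : (Mat 3)ˣ) : Mat 3) * SS q * rot m := by
      rw [h1]
      simp only [mul_assoc]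
    unfold tamf
    rw [e, tam_col, h2, h3, tam_cancel hm, Matrix.smul_mulVec]
  simp only [hterm]
  obtain ⟨M, hM⟩ := hA.supp
  have hfin := Klein_proper h (isCompact_singleton.union isCompact_singleton)
    (Set.union_subset (Set.singleton_subset_iff.2 hp) (Set.singleton_subset_iff.2 hqU)) (M / 2)
  have hsupp : ∀ γ : Γ, γ ∉ hfin.toFinset →
      ((A (2 * ((SS p)⁻¹ * ((γ : (Mat 3)ˣ) : Mat 3) * SS q) 0 0) : ℝ) : ℂ) •
        rho k ((SS p)⁻¹ * ((γ : (Mat 3)ˣ) : Mat 3) * SS q) = 0 := by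
    intro γ hγ
    have h0 : A (2 * ((SS p)⁻¹ * ((γ : (Mat 3)ˣ) : Mat 3) * SS q) 0 0) = 0 := by
      apply hM
      by_contra hc
      apply hγ
      rw [Set.Finite.mem_toFinset]
      refine ⟨p, Or.inl rfl, q, Or.inr rfl, ?_⟩
      linarith
    rw [h0, Complex.ofReal_zero, zero_smul]
  rw [tsum_eq_sum (s := hfin.toFinset) fun γ hγ => by rw [hsupp γ hγ, Matrix.zero_mulVec]]
  unfold ker
  rw [finsum_eq_sum_of_support_subset (s := hfin.toFinset) _ (by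
    intro γ hγ
    by_contra hc
    exact hγ (hsupp γ hc)), Matrix.sum_mulVec]

theorem tam_cont0 {k : ℕ} {Γ : Subgroup (Mat 3)ˣ} (h : Klein Γ) {A : ℝ → ℝ} (hA : Prof A) {p : UH}
    (hp : p ∈ UHs) : ContinuousOn (fun q => ker k Γ A (SS p) (SS q)) UHs := by
  have h1 := ker_cont (k := k) h hA
  have h2 : ContinuousOn (fun q : UH => ((p, q) : UH × UH)) UHs :=
    continuousOn_const.prodMk continuousOn_id
  have h3 : Set.MapsTo (fun q : UH => ((p, q) : UH × UH)) UHs (UHs ×ˢ UHs) :=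
    fun q hq => ⟨hp, hq⟩
  have h4 := h1.comp h2 h3
  simp only [Function.comp_def] at h4
  exact h4

theorem tam_int0 {k : ℕ} {Γ : Subgroup (Mat 3)ˣ} {D : Set UH} (h : Klein Γ) (hD : FD Γ D)
    {A : ℝ → ℝ} (hA : Prof A) (F : Sect (tau k) Γ) {p : UH} (hp : p ∈ UHs) :
    IntegrableOn (fun q => ker k Γ A (SS p) (SS q) *ᵥ F.1 (sec q)) D mu := by
  obtain ⟨K, hK, hKs, hDK⟩ := hD.bdd
  have c1 := tam_cont0 (k := k) h hA hp
  have c2 : ContinuousOn (fun q => F.1 (sec q)) UHs :=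
    F.2.2.1.continuousOn.comp sec_smooth.continuous.continuousOn fun q hq => sec_mem hq
  have c3 : ContinuousOn (fun q => ker k Γ A (SS p) (SS q) *ᵥ F.1 (sec q)) UHs := by
    refine continuousOn_pi.2 fun a => ?_
    have e : (fun q => (ker k Γ A (SS p) (SS q) *ᵥ F.1 (sec q)) a) =
        fun q => ∑ b, ker k Γ A (SS p) (SS q) a b * F.1 (sec q) b := by
      funext q
      rfl
    rw [e]
    refine continuousOn_finsetSum _ fun b _ => ContinuousOn.mul ?_ ?_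
    · exact (continuous_apply_apply a b).comp_continuousOn c1
    · exact (continuous_apply b).comp_continuousOn c2
  have := emb_finite hD
  obtain ⟨C, hC⟩ := hK.exists_bound_of_continuousOn (c3.mono hKs)
  exact Integrable.of_bound ((c3.mono hD.sub).aestronglyMeasurable hD.meas) C
    ((ae_restrict_iff' hD.meas).2 (ae_of_all _ fun q hq => hC q (hDK hq)))

theorem TA_emb {k : ℕ} {Γ : Subgroup (Mat 3)ˣ} {D : Set UH} (h : Klein Γ) (hD : FD Γ D)
    {A : ℝ → ℝ} (hA : Prof A) {ι : Sect (tau k) Γ →ₗ[ℂ] Hk k D}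
    (hι : ∀ F, ∀ᵐ p ∂(mu.restrict D), ∀ a,
      (ι F : UH → EuclideanSpace ℂ (Ix k)) p a = F.1 (sec p) a)
    {T : Hk k D →L[ℂ] Hk k D} (hT : HasKer (mu.restrict D) T (kD k Γ D A)) (F : Sect (tau k) Γ) :
    T (ι F) = ι (RL k Γ A hA F) := by
  apply Lp.ext
  have hmem : ∀ᵐ p ∂(mu.restrict D), p ∈ D := ae_restrict_mem hD.meas
  filter_upwards [hT (ι F), hι (RL k Γ A hA F), hmem] with p h1 h2 hpD
  have hp := hD.sub hpD
  ext a
  rw [h1 a, h2 a]
  show _ = RA k A F.1 (sec p) a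
  rw [tamf_RA F.2 hp, tamf_unfold h hD hA F.2 hp]
  have hint := tam_int0 h hD hA F hp
  have h3 := (ContinuousLinearMap.proj (R := ℝ) (φ := fun _ : Ix k => ℂ) a).integral_comp_comm hint
  refine Eq.trans ?_ h3
  refine integral_congr_ae ?_
  filter_upwards [hι F, hmem] with q h4 hqD
  show _ = (ker k Γ A (SS p) (SS q) *ᵥ F.1 (sec q)) a
  rw [kD_apply hpD hqD]
  unfold Matrix.mulVec dotProduct
  refine Finset.sum_congr rfl fun b _ => ?_
  rw [h4 b]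

/-! ### Smoothness -/

/-- the matrix valued function of the relative position -/
def tamPsi (k : ℕ) (A : ℝ → ℝ) (M : Mat 3) : Matrix (Ix k) (Ix k) ℂ :=
  ((A (2 * M 0 0) : ℝ) : ℂ) • rho k M

theorem tamPsi_smooth {k : ℕ} {A : ℝ → ℝ} (hs : ContDiff ℝ ∞ A) : ContDiff ℝ ∞ (tamPsi k A) := by
  have h1 : ContDiff ℝ ∞ fun M : Mat 3 => M 0 0 :=
    contDiff_pi.1 (contDiff_pi.1 contDiff_id 0) 0
  have h2 : ContDiff ℝ ∞ fun M : Mat 3 => ((A (2 * M 0 0) : ℝ) : ℂ) :=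
    Complex.ofRealCLM.contDiff.comp (hs.comp (contDiff_const.mul h1))
  exact h2.smul (rho_smooth k)

/-- the family of functions of `N = (Phi g)⁻¹` -/
def tamPhi (k : ℕ) (A : ℝ → ℝ) (C : Mat 3) : Mat 3 × UH → Matrix (Ix k) (Ix k) ℂ :=
  fun p => tamPsi k A (p.1 * C * SS p.2)

theorem tam_matmul_smooth {S : Set (Mat 3 × UH)} {P Q : Mat 3 × UH → Mat 3}
    (hP : ContDiffOn ℝ ∞ P S) (hQ : ContDiffOn ℝ ∞ Q S) :
    ContDiffOn ℝ ∞ (fun p => P p * Q p) S := by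
  refine contDiffOn_pi.2 fun i => contDiffOn_pi.2 fun j => ?_
  simp only [Matrix.mul_apply]
  refine ContDiffOn.sum fun l _ => ContDiffOn.mul ?_ ?_
  · exact (contDiffOn_pi.1 ((contDiffOn_pi.1 hP) i)) l
  · exact (contDiffOn_pi.1 ((contDiffOn_pi.1 hQ) l)) j

theorem tamPhi_smooth {k : ℕ} {A : ℝ → ℝ} (hs : ContDiff ℝ ∞ A) (C : Mat 3) :
    ContDiffOn ℝ ∞ (tamPhi k A C) (Set.univ ×ˢ UHs) := by
  have h1 : ContDiffOn ℝ ∞ (fun p : Mat 3 × UH => SS p.2) (Set.univ ×ˢ UHs) :=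
    SS_smooth.comp contDiff_snd.contDiffOn fun p hp => hp.2
  have h2 : ContDiffOn ℝ ∞ (fun p : Mat 3 × UH => p.1) (Set.univ ×ˢ UHs) :=
    contDiff_fst.contDiffOn
  exact (tamPsi_smooth hs).comp_contDiffOn
    (tam_matmul_smooth (tam_matmul_smooth h2 contDiffOn_const) h1)

/-- `f` as an integrable function with values in `Ix k → ℂ`, extended by zero -/
def tamb {k : ℕ} {D : Set UH} (f : Hk k D) (q : UH) : Ix k → ℂ :=
  open Classical in if q ∈ D then WithLp.ofLp ((f : UH → EuclideanSpace ℂ (Ix k)) q) else 0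

theorem tamb_int {k : ℕ} {Γ : Subgroup (Mat 3)ˣ} {D : Set UH} (hD : FD Γ D) (f : Hk k D)
    (K : Set UH) : IntegrableOn (tamb f) K mu := by
  classical
  have := emb_finite hD
  have h1 : IntegrableOn (f : UH → EuclideanSpace ℂ (Ix k)) D mu :=
    (Lp.memLp f).integrable (by norm_num)
  have h2 : IntegrableOn (fun q => WithLp.ofLp ((f : UH → EuclideanSpace ℂ (Ix k)) q)) D mu :=
    (EuclideanSpace.equiv (Ix k) ℂ).toContinuousLinearMap.integrable_comp h1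
  have h3 : Integrable (D.indicator fun q => WithLp.ofLp ((f : UH → EuclideanSpace ℂ (Ix k)) q))
      mu := h2.integrable_indicator hD.meas
  have h4 : tamb f = D.indicator fun q => WithLp.ofLp ((f : UH → EuclideanSpace ℂ (Ix k)) q) := by
    funext q
    unfold tamb
    rw [Set.indicator_apply]
  rw [h4]
  exact h3.integrableOn

/-- the smooth section -/
def tamG (k : ℕ) (Γ : Subgroup (Mat 3)ˣ) (D : Set UH) (A : ℝ → ℝ) (f : Hk k D) (g : M2) :
    Ix k → ℂ :=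
  if g.det = 0 then 0 else ∫ q in D, ker k Γ A (Phi g) (SS q) *ᵥ tamb f q ∂mu

theorem tam_PM {k : ℕ} {Γ : Subgroup (Mat 3)ˣ} {D : Set UH} (hD : FD Γ D) (f : Hk k D)
    {K : Set UH} (hK : IsCompact K) (hKs : K ⊆ UHs) :
    PM mu K (Set.univ : Set (Mat 3)) UHs (tamb f) where
  op := isOpen_univ
  op2 := UHs_open
  cpt := hK
  sub := hKs
  int := tamb_int hD f K

/-- local representation -/
theorem tam_local {k : ℕ} {Γ : Subgroup (Mat 3)ˣ} {D : Set UH} (h : Klein Γ) (hD : FD Γ D)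
    {A : ℝ → ℝ} (hA : Prof A) (hs : ContDiff ℝ ∞ A) (f : Hk k D) {K : Set UH} (hK : IsCompact K)
    (hKs : K ⊆ UHs) (hDK : D ⊆ K) {g₀ : M2} (hg₀ : g₀ ∈ GLo) :
    ∃ s : Finset Γ, ∀ᶠ g in nhds g₀,
      IntegrableOn (fun q => ker k Γ A (Phi g) (SS q) *ᵥ tamb f q) D mu ∧
      ∫ q in D, ker k Γ A (Phi g) (SS q) *ᵥ tamb f q ∂mu =
        ∑ γ ∈ s, pmT mu K (rapB k) (tamb f) (tamPhi k A ((γ : (Mat 3)ˣ) : Mat 3)) (Phi g)⁻¹ := by
  classical
  obtain ⟨s, hs'⟩ := ker_local (k := k) h hA hK hKs hg₀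
  refine ⟨s, ?_⟩
  filter_upwards [hs'] with g hg
  have hint : ∀ γ : Γ, IntegrableOn (fun q => tamPhi k A ((γ : (Mat 3)ˣ) : Mat 3)
      ((Phi g)⁻¹, q) *ᵥ tamb f q) K mu := fun γ =>
    pm_int (B := rapB k) (tam_PM (Γ := Γ) hD f hK hKs) (tamPhi_smooth hs _).continuousOn
      (Set.mem_univ _)
  have heq : ∀ q ∈ K, ker k Γ A (Phi g) (SS q) *ᵥ tamb f q =
      ∑ γ ∈ s, tamPhi k A ((γ : (Mat 3)ˣ) : Mat 3) ((Phi g)⁻¹, q) *ᵥ tamb f q := by
    intro q hq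
    rw [hg q hq, Matrix.sum_mulVec]
    rfl
  have hK1 : IntegrableOn (fun q => ker k Γ A (Phi g) (SS q) *ᵥ tamb f q) K mu := by
    have h1 : IntegrableOn (fun q => ∑ γ ∈ s,
        tamPhi k A ((γ : (Mat 3)ˣ) : Mat 3) ((Phi g)⁻¹, q) *ᵥ tamb f q) K mu :=
      integrable_finsetSum _ fun γ _ => hint γ
    exact h1.congr_fun (fun q hq => (heq q hq).symm) hK.measurableSet
  refine ⟨hK1.mono_set hDK, ?_⟩
  have e1 : ∫ q in K, ker k Γ A (Phi g) (SS q) *ᵥ tamb f q ∂mu =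
      ∫ q in D, ker k Γ A (Phi g) (SS q) *ᵥ tamb f q ∂mu := by
    refine setIntegral_eq_of_subset_of_forall_sdiff_eq_zero hK.measurableSet hDK fun q hq => ?_
    unfold tamb
    rw [if_neg hq.2, Matrix.mulVec_zero]
  have e2 : ∫ q in K, ker k Γ A (Phi g) (SS q) *ᵥ tamb f q ∂mu = ∫ q in K, ∑ γ ∈ s,
      tamPhi k A ((γ : (Mat 3)ˣ) : Mat 3) ((Phi g)⁻¹, q) *ᵥ tamb f q ∂mu :=
    setIntegral_congr_fun hK.measurableSet heq
  have e3 : ∫ q in K, ∑ γ ∈ s,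
      tamPhi k A ((γ : (Mat 3)ˣ) : Mat 3) ((Phi g)⁻¹, q) *ᵥ tamb f q ∂mu = ∑ γ ∈ s,
      ∫ q in K, tamPhi k A ((γ : (Mat 3)ˣ) : Mat 3) ((Phi g)⁻¹, q) *ᵥ tamb f q ∂mu :=
    integral_finsetSum _ fun γ _ => hint γ
  exact e1.symm.trans (e2.trans e3)

theorem tamG_mem {k : ℕ} {Γ : Subgroup (Mat 3)ˣ} {D : Set UH} (h : Klein Γ) (hD : FD Γ D)
    {A : ℝ → ℝ} (hA : Prof A) (hs : ContDiff ℝ ∞ A) (f : Hk k D) :
    tamG k Γ D A f ∈ Sect (tau k) Γ := by
  obtain ⟨K, hK, hKs, hDK⟩ := hD.bdd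
  have hG : ∀ g ∈ GLo, tamG k Γ D A f g = ∫ q in D, ker k Γ A (Phi g) (SS q) *ᵥ tamb f q ∂mu :=
    fun g hg => if_neg hg
  refine ⟨fun g hg => if_pos (not_not.1 hg), ?_, ?_, ?_, ?_⟩
  · intro g₀ hg₀
    apply ContDiffAt.contDiffWithinAt
    obtain ⟨s, hs'⟩ := tam_local h hD hA hs f hK hKs hDK hg₀
    have h1 : ContDiffAt ℝ ∞ (fun g => (Phi g)⁻¹) g₀ := by
      have a1 : ContDiffOn ℝ ∞ (fun g => eta 3 * (Phi g)ᵀ * eta 3) GLo := by
        refine contDiffOn_pi.2 fun i => contDiffOn_pi.2 fun j => ?_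
        simp only [Matrix.mul_apply, Matrix.transpose_apply]
        refine ContDiffOn.sum fun l _ => ContDiffOn.mul (ContDiffOn.sum fun m _ =>
          ContDiffOn.mul contDiffOn_const ?_) contDiffOn_const
        exact (contDiffOn_pi.1 ((contDiffOn_pi.1 Phi_smooth) l)) m
      have a2 := a1.contDiffAt (GLo_open.mem_nhds hg₀)
      refine a2.congr_of_eventuallyEq ?_
      filter_upwards [GLo_open.mem_nhds hg₀] with g hg
      exact (Frames_inv (Phi_SO hg).1).2.1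
    have h2 : ContDiffAt ℝ ∞ (fun g => ∑ γ ∈ s,
        pmT mu K (rapB k) (tamb f) (tamPhi k A ((γ : (Mat 3)ˣ) : Mat 3)) (Phi g)⁻¹) g₀ := by
      refine ContDiffAt.sum fun γ _ => ?_
      have b1 := pm_smooth (B := rapB k) (tam_PM hD f hK hKs)
        (tamPhi_smooth (k := k) hs ((γ : (Mat 3)ˣ) : Mat 3))
      exact (b1.contDiffAt Filter.univ_mem).comp g₀ h1
    refine h2.congr_of_eventuallyEq ?_
    filter_upwards [hs', GLo_open.mem_nhds hg₀] with g hg hgG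
    rw [hG g hgG, hg.2]
  · intro z hz g hg
    have hzg : z • g ∈ GLo := by
      show (z • g).det ≠ 0
      rw [Matrix.det_smul]
      exact mul_ne_zero (pow_ne_zero _ hz) hg
    rw [hG g hg, hG _ hzg, Phi_smul hz]
  · intro γ hγ x hx hxγ g hg
    rw [hG g hg, hG _ (GLo_mul hx hg), Phi_mul hx hg, hxγ]
    refine setIntegral_congr_fun hD.meas fun q hq => ?_
    rw [ker_inv_left h hγ (Phi_SO hg) (SS_SO (hD.sub hq))]
  · intro u hu g hg
    have huG := ram_unitary_GLo hu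
    rw [hG g hg, hG _ (GLo_mul hg huG), Phi_mul hg huG, (Phi_unitary hu).1]
    obtain ⟨s, hs'⟩ := tam_local h hD hA hs f hK hKs hDK hg
    have hint := hs'.self_of_nhds.1
    have h3 := (linMv (tau k (Rot u)ᵀ)).integral_comp_comm hint
    simp only [linMv_apply] at h3
    rw [← h3]
    refine setIntegral_congr_fun hD.meas fun q hq => ?_
    have h4 := ker_rot (k := k) (A := A) h (Phi_SO hg) (SS_SO (hD.sub hq)) (Phi_unitary hu).2.1
      (Submonoid.one_mem (Matrix.orthogonalGroup (Fin 3) ℝ))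
    have h5 : tau k 1 = 1 := by
      unfold tau
      rw [rot_one, rho_one]
    rw [rot_one, mul_one, h5, mul_one] at h4
    rw [h4, Matrix.mulVec_mulVec]

theorem TA_smooth {k : ℕ} {Γ : Subgroup (Mat 3)ˣ} {D : Set UH} (h : Klein Γ) (hD : FD Γ D)
    {A : ℝ → ℝ} (hA : Prof A) (hs : ContDiff ℝ ∞ A) {ι : Sect (tau k) Γ →ₗ[ℂ] Hk k D}
    (hι : ∀ F, ∀ᵐ p ∂(mu.restrict D), ∀ a,
      (ι F : UH → EuclideanSpace ℂ (Ix k)) p a = F.1 (sec p) a)
    {T : Hk k D →L[ℂ] Hk k D} (hT : HasKer (mu.restrict D) T (kD k Γ D A)) (f : Hk k D) :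
    ∃ F, ι F = T f := by
  classical
  obtain ⟨K, hK, hKs, hDK⟩ := hD.bdd
  refine ⟨⟨tamG k Γ D A f, tamG_mem h hD hA hs f⟩, ?_⟩
  apply Lp.ext
  have hmem : ∀ᵐ p ∂(mu.restrict D), p ∈ D := ae_restrict_mem hD.meas
  filter_upwards [hT f, hι ⟨tamG k Γ D A f, tamG_mem h hD hA hs f⟩, hmem] with p h1 h2 hpD
  have hp := hD.sub hpD
  ext a
  rw [h1 a, h2 a]
  show tamG k Γ D A f (sec p) a = _
  have hG : tamG k Γ D A f (sec p) =
      ∫ q in D, ker k Γ A (Phi (sec p)) (SS q) *ᵥ tamb f q ∂mu := if_neg (sec_mem hp)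
  rw [hG]
  obtain ⟨s, hs'⟩ := tam_local h hD hA hs f hK hKs hDK (sec_mem hp)
  have hint := hs'.self_of_nhds.1
  have h3 := (ContinuousLinearMap.proj (R := ℝ) (φ := fun _ : Ix k => ℂ) a).integral_comp_comm hint
  refine Eq.trans h3.symm ?_
  refine integral_congr_ae ?_
  filter_upwards [hmem] with q hqD
  show (ker k Γ A (Phi (sec p)) (SS q) *ᵥ tamb f q) a = _
  rw [kD_apply hpD hqD]
  have h4 : tamb f q = WithLp.ofLp ((f : UH → EuclideanSpace ℂ (Ix k)) q) := by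
    unfold tamb
    rw [if_pos hqD]
  rw [h4]
  rfl

end

end Pool.Agent.Work.MP_14c213_gt
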