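import Pool.Agent.Work.MP_14c213_gt.A.TrEig

/-!
Equal traces of all powers of P on the eigenspaces give equal multiplicities of P (power sums of
distinct numbers, Vandermonde; or charpoly from Newton), hence equal traces of RE.
-/

namespace Pool.Agent.Work.MP_14c213_gt

open Matrix MeasureTheory
open scoped Matrix ContDiff Matrix.Norms.Elementwise

noncomputable section

/-- Trace of powers through generalised eigenspaces. -/
theorem TrEq_pow {V : Type*} [AddCommGroup V] [Module ℂ V] [FiniteDimensional ℂ V]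
    (P : Module.End ℂ V) (n : ℕ) :
    LinearMap.trace ℂ V (P ^ n) =
      ∑ᶠ x : ℂ, (Module.finrank ℂ (P.maxGenEigenspace x) : ℂ) * x ^ n := by
  apply TrEig_key P (P ^ n) ((Commute.refl P).pow_right n) (fun x => x ^ n)
  intro x v hv
  induction n with
  | zero => simp
  | succ n ih =>
    rw [pow_succ, Module.End.mul_apply, hv, map_smul, ih, smul_smul]
    congr 1
    ring

/-- Two finitely supported multiplicity functions with the same power sums are equal. -/
theorem TrEq_vander (m₁ m₂ : ℂ → ℕ) (h1 : {x | m₁ x ≠ 0}.Finite) (h2 : {x | m₂ x ≠ 0}.Finite)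
    (h : ∀ n : ℕ, ∑ᶠ x : ℂ, (m₁ x : ℂ) * x ^ n = ∑ᶠ x : ℂ, (m₂ x : ℂ) * x ^ n) (x : ℂ) :
    m₁ x = m₂ x := by
  classical
  set S : Finset ℂ := h1.toFinset ∪ h2.toFinset with hS
  have e1 : ∀ q : Polynomial ℂ, ∑ y ∈ S, (m₁ y : ℂ) * q.eval y = ∑ y ∈ S, (m₂ y : ℂ) * q.eval y := by
    intro q
    induction q using Polynomial.induction_on' with
    | add p q hp hq =>
      simp only [Polynomial.eval_add, mul_add, Finset.sum_add_distrib, hp, hq]
    | monomial n a =>
      have hn := h n
      rw [finsum_eq_sum_of_support_subset (s := S) _ (by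
          intro y hy
          have : m₁ y ≠ 0 := by
            intro h0
            apply hy
            simp [h0]
          simp [hS, this]),
        finsum_eq_sum_of_support_subset (s := S) _ (by
          intro y hy
          have : m₂ y ≠ 0 := by
            intro h0
            apply hy
            simp [h0]
          simp [hS, this])] at hn
      have e : ∀ m : ℂ → ℕ, ∑ y ∈ S, (m y : ℂ) * (Polynomial.monomial n a).eval y =
          a * ∑ y ∈ S, (m y : ℂ) * y ^ n := by
        intro m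
        rw [Finset.mul_sum]
        apply Finset.sum_congr rfl
        intro y _
        rw [Polynomial.eval_monomial]
        ring
      rw [e, e, hn]
  by_cases hx : x ∈ S
  · -- Lagrange polynomial
    set q : Polynomial ℂ := ∏ y ∈ S.erase x, (Polynomial.X - Polynomial.C y) with hq
    have hqx : q.eval x ≠ 0 := by
      rw [hq, Polynomial.eval_prod]
      apply Finset.prod_ne_zero_iff.mpr
      intro y hy
      simp only [Polynomial.eval_sub, Polynomial.eval_X, Polynomial.eval_C]
      exact sub_ne_zero.mpr (Finset.ne_of_mem_erase hy).symm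
    have hqy : ∀ y ∈ S, y ≠ x → q.eval y = 0 := by
      intro y hy hne
      rw [hq, Polynomial.eval_prod]
      apply Finset.prod_eq_zero (Finset.mem_erase.mpr ⟨hne, hy⟩)
      simp
    have e2 : ∀ m : ℂ → ℕ, ∑ y ∈ S, (m y : ℂ) * q.eval y = (m x : ℂ) * q.eval x := by
      intro m
      rw [Finset.sum_eq_single_of_mem x hx]
      intro y hy hne
      rw [hqy y hy hne, mul_zero]
    have e3 := e1 q
    rw [e2, e2] at e3
    exact_mod_cast mul_right_cancel₀ hqx e3
  · have hx1 : m₁ x = 0 := by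
      by_contra hne
      apply hx
      simp [hS, hne]
    have hx2 : m₂ x = 0 := by
      by_contra hne
      apply hx
      simp [hS, hne]
    rw [hx1, hx2]

theorem TrEq_gen {V₁ V₂ : Type*} [AddCommGroup V₁] [Module ℂ V₁] [FiniteDimensional ℂ V₁]
    [AddCommGroup V₂] [Module ℂ V₂] [FiniteDimensional ℂ V₂]
    (P₁ : Module.End ℂ V₁) (P₂ : Module.End ℂ V₂)
    (hP : ∀ n : ℕ, LinearMap.trace ℂ V₁ (P₁ ^ n) = LinearMap.trace ℂ V₂ (P₂ ^ n)) (x : ℂ) :
    Module.finrank ℂ (P₁.maxGenEigenspace x) = Module.finrank ℂ (P₂.maxGenEigenspace x) := by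
  apply TrEq_vander (fun x => Module.finrank ℂ (P₁.maxGenEigenspace x))
    (fun x => Module.finrank ℂ (P₂.maxGenEigenspace x)) (TrEig_supp P₁).1 (TrEig_supp P₂).1
  intro n
  rw [← TrEq_pow, ← TrEq_pow, hP n]

theorem mP_eq {k : ℕ} {Γ₁ Γ₂ : Subgroup (Mat 3)ˣ} (h₁ : Klein Γ₁) (h₂ : Klein Γ₂) (lam : ℝ)
    (hP : ∀ n : ℕ, LinearMap.trace ℂ _ (PE k Γ₁ lam ^ n) = LinearMap.trace ℂ _ (PE k Γ₂ lam ^ n))
    (x : ℂ) : mP k Γ₁ lam x = mP k Γ₂ lam x :=
  @TrEq_gen (EL k Γ₁ lam) (EL k Γ₂ lam) _ _ (EL_fin h₁ k lam) _ _ (EL_fin h₂ k lam)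
    (PE k Γ₁ lam) (PE k Γ₂ lam) hP x

end

end Pool.Agent.Work.MP_14c213_gt
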